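import Pool.Agent.Lib.MP_6a20cc_nt.Mertens

/-! Multiples of rough numbers in a sparse set. -/

namespace Pool.Agent.Lib.MP_be93de_nt

open Filter Finset Real Nat
open Pool.Agent.Lib.MP_6a20cc_nt

lemma log_prime_ge {p : ℕ} (hp : p.Prime) : 2 / 3 ≤ Real.log p := by
  have h1 : (2 : ℝ) ≤ p := by exact_mod_cast hp.two_le
  have := Real.log_le_log (by norm_num) h1
  linarith [Real.log_two_gt_d9]

lemma inv_le_split {L : ℝ} (hL : 2 / 3 ≤ L) : 1 ≤ L * (1 / (1 + L)) + 5 / 2 * (L * (1 / (1 + L) ^ 2)) := by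
  have h : 0 < 1 + L := by linarith
  have e : L * (1 / (1 + L)) + 5 / 2 * (L * (1 / (1 + L) ^ 2)) - 1 = (3 / 2 * L - 1) / (1 + L) ^ 2 := by
    field_simp
    ring
  have : 0 ≤ (3 / 2 * L - 1) / (1 + L) ^ 2 := div_nonneg (by linarith) (by positivity)
  linarith

lemma mertens2 (n : ℕ) : ∑ p ∈ primesLE n, (1 : ℝ) / p ≤ Real.log (1 + Real.log n) + 38 := by
  have h1 := sum1_upper 1 one_pos n
  have h2 := sum2_upper 1 one_pos n
  simp only [one_mul, mul_one] at h1 h2
  calc ∑ p ∈ primesLE n, (1 : ℝ) / p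
      ≤ ∑ p ∈ primesLE n, (Real.log p / p * (1 / (1 + Real.log p))
          + 5 / 2 * (Real.log p / p * (1 / (1 + Real.log p) ^ 2))) := by
        apply sum_le_sum
        intro p hp
        have h3 := inv_le_split (log_prime_ge (prime_of_mem_primesLE hp))
        have h4 : (0 : ℝ) ≤ 1 / p := by positivity
        have := mul_le_mul_of_nonneg_left h3 h4
        refine le_trans (le_of_eq (by ring)) (this.trans (le_of_eq (by ring)))
    _ ≤ _ := by
        rw [sum_add_distrib, ← mul_sum]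
        linarith

lemma sum_inv_sq_primes (n : ℕ) : ∑ p ∈ primesLE n, (1 : ℝ) / p ^ 2 ≤ 1 := by
  rcases Nat.eq_zero_or_pos n with rfl | hn
  · simp
  have h1 := sum_Ioc_inv_sq_le_sub (α := ℝ) (k := 1) (n := n) one_ne_zero hn
  have h2 : ∑ p ∈ primesLE n, (1 : ℝ) / p ^ 2 ≤ ∑ i ∈ Ioc 1 n, ((i : ℝ) ^ 2)⁻¹ := by
    simp only [one_div]
    apply sum_le_sum_of_subset_of_nonneg
    · intro p hp
      exact mem_Ioc.2 ⟨one_lt_of_mem_primesLE hp, le_of_mem_primesLE hp⟩
    · intro _ _ _; positivity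
  have h3 : (0 : ℝ) ≤ (n : ℝ)⁻¹ := by positivity
  simp only [Nat.cast_one, inv_one] at h1
  linarith

lemma totient_primorial_ge (n : ℕ) :
    Real.exp (-40) / (1 + Real.log n) * primorial n ≤ (primorial n).totient := by
  have h1 : ((primorial n).totient : ℝ) = primorial n * ∏ p ∈ primesLE n, (1 - (p : ℝ)⁻¹) := by
    have := Nat.totient_eq_mul_prod_factors (primorial n)
    rw [primeFactors_primorial] at this
    have h := congrArg (fun q : ℚ => (q : ℝ)) this
    simpa using h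
  have hl : 0 < 1 + Real.log n := by have := Real.log_natCast_nonneg n; linarith
  have h2 : Real.exp (-40) / (1 + Real.log n) ≤ ∏ p ∈ primesLE n, (1 - (p : ℝ)⁻¹) := by
    calc Real.exp (-40) / (1 + Real.log n) = Real.exp (-(Real.log (1 + Real.log n) + 40)) := by
          rw [neg_add, Real.exp_add, Real.exp_neg (Real.log _), Real.exp_log hl]; ring
      _ ≤ Real.exp (∑ p ∈ primesLE n, -(1 / (p : ℝ) + 2 * (1 / p ^ 2))) := by
          apply Real.exp_le_exp.2
          rw [sum_neg_distrib, sum_add_distrib, ← mul_sum]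
          linarith [mertens2 n, sum_inv_sq_primes n]
      _ = ∏ p ∈ primesLE n, Real.exp (-(1 / (p : ℝ) + 2 * (1 / p ^ 2))) := Real.exp_sum _ _
      _ ≤ _ := by
          apply prod_le_prod (fun _ _ => (Real.exp_pos _).le)
          intro p hp
          have h3 : (2 : ℝ) ≤ p := by exact_mod_cast two_le_of_mem_primesLE hp
          set x : ℝ := (p : ℝ)⁻¹ with hx
          have h4 : 0 ≤ x := by positivity
          have h5 : x ≤ 1 / 2 := by rw [hx, ← one_div]; exact one_div_le_one_div_of_le (by norm_num) h3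
          have h6 : 1 / (p : ℝ) + 2 * (1 / p ^ 2) = x + 2 * x ^ 2 := by rw [hx]; simp
          rw [h6, Real.exp_neg, inv_le_comm₀ (Real.exp_pos _) (by linarith)]
          have h7 := Real.add_one_le_exp (x + 2 * x ^ 2)
          refine le_trans ?_ h7
          rw [inv_le_iff_one_le_mul₀ (by linarith)]
          nlinarith [mul_nonneg (sq_nonneg x) (show 0 ≤ 1 - 2 * x by linarith)]
  rw [h1, mul_comm]
  gcongr

lemma card_coprime_blocks (P j : ℕ) :
    ((Ico 1 (1 + j * P)).filter (fun n => P.Coprime n)).card = j * P.totient := by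
  induction j with
  | zero => simp
  | succ j ih =>
    rw [← Ico_union_Ico_eq_Ico (b := 1 + j * P) (by omega) (by nlinarith), filter_union,
      card_union_of_disjoint (disjoint_filter_filter (Ico_disjoint_Ico_consecutive _ _ _)), ih,
      show 1 + (j + 1) * P = 1 + j * P + P by ring, Nat.filter_coprime_Ico_eq_totient]
    ring

lemma card_coprime_ge (P X : ℕ) (hP : 0 < P) :
    (X : ℝ) * (P.totient / P) - P ≤ ((Icc 1 X).filter (fun n => P.Coprime n)).card := by
  have h1 : ((Ico 1 (1 + X / P * P)).filter (fun n => P.Coprime n)).card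
      ≤ ((Icc 1 X).filter (fun n => P.Coprime n)).card := by
    apply card_le_card
    apply filter_subset_filter
    intro n hn
    rw [mem_Ico] at hn
    have := Nat.div_mul_le_self X P
    exact mem_Icc.2 ⟨hn.1, by omega⟩
  rw [card_coprime_blocks] at h1
  have h2 : ((X / P : ℕ) : ℝ) * P.totient ≤ ((Icc 1 X).filter (fun n => P.Coprime n)).card := by
    exact_mod_cast h1
  have hP' : (0 : ℝ) < P := by exact_mod_cast hP
  have h3 : (X : ℝ) / P < (X / P : ℕ) + 1 := by
    have := Nat.lt_floor_add_one ((X : ℝ) / P)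
    rwa [Nat.floor_div_eq_div] at this
  have h4 : (P.totient : ℝ) ≤ P := by exact_mod_cast Nat.totient_le P
  have h5 : (0 : ℝ) ≤ P.totient := by positivity
  have h6 : (X : ℝ) * (P.totient / P) = X / P * P.totient := by ring
  nlinarith

open Classical in
lemma rough_inj (T : ℕ → Prop) (X K y : ℕ) (hK : K ≤ y) :
    (((Icc 1 X).filter (fun n => (primorial y).Coprime n)).filter
      (fun n => ∃ k, 1 ≤ k ∧ k ≤ K ∧ T (k * n))).card ≤ ((Icc 1 (K * X)).filter T).card := by
  set B := ((Icc 1 X).filter (fun n => (primorial y).Coprime n)).filter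
      (fun n => ∃ k, 1 ≤ k ∧ k ≤ K ∧ T (k * n)) with hB
  have hex : ∀ n, ∃ k, n ∈ B → 1 ≤ k ∧ k ≤ K ∧ T (k * n) := by
    intro n
    by_cases hn : n ∈ B
    · obtain ⟨k, hk⟩ := (mem_filter.1 hn).2
      exact ⟨k, fun _ => hk⟩
    · exact ⟨0, fun h => absurd h hn⟩
  choose k hk using hex
  have hco : ∀ n ∈ B, ∀ j, 1 ≤ j → j ≤ K → n.Coprime j := by
    intro n hn j hj1 hj2
    apply Nat.coprime_of_dvd
    intro q hq hqn hqj
    have h1 : q ∣ primorial y := hq.dvd_primorial_iff.2 ((Nat.le_of_dvd hj1 hqj).trans (hj2.trans hK))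
    have h2 := (mem_filter.1 (mem_filter.1 hn).1).2
    exact hq.one_lt.ne' (Nat.eq_one_of_dvd_coprimes h2 h1 hqn)
  apply card_le_card_of_injOn (fun n => k n * n)
  · intro n hn
    have h1 := hk n hn
    have h2 := mem_Icc.1 (mem_filter.1 (mem_filter.1 hn).1).1
    simp only [coe_filter, mem_Icc, Set.mem_ofPred_eq]
    exact ⟨⟨Nat.mul_pos h1.1 h2.1, Nat.mul_le_mul h1.2.1 h2.2⟩, h1.2.2⟩
  · intro a ha b hb hab
    simp only at hab
    have h1 := hk a ha
    have h2 := hk b hb
    apply Nat.dvd_antisymm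
    · exact (hco a ha _ h2.1 h2.2.1).dvd_of_dvd_mul_left (hab ▸ dvd_mul_left _ _)
    · exact (hco b hb _ h1.1 h1.2.1).dvd_of_dvd_mul_left (hab ▸ dvd_mul_left _ _)

lemma tendsto_loglog : Tendsto (fun X : ℕ => Real.log (Real.log X)) atTop atTop :=
  Real.tendsto_log_atTop.comp (Real.tendsto_log_atTop.comp tendsto_natCast_atTop_atTop)

open Classical in
theorem rough_main (T : ℕ → Prop) (C : ℝ) (hC : 0 < C)
    (hT : ∀ᶠ X : ℕ in atTop, ∀ K : ℕ, (((Icc 1 (K * X)).filter T).card : ℝ) ≤ C * (K * X / Real.log X)) :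
    ∃ c : ℝ, 0 < c ∧ ∀ᶠ X : ℕ in atTop, c * X / Real.log (Real.log X) ≤
      ((Icc 1 X).filter (fun n => ∀ k : ℕ, 1 ≤ k →
        (k : ℝ) ≤ c * Real.log X / Real.log (Real.log X) → ¬ T (k * n))).card := by
  set c : ℝ := Real.exp (-40) / (2 * (C + 2)) with hc
  have hc0 : 0 < c := by positivity
  have hc1 : c * (C + 2) = Real.exp (-40) / 2 := by rw [hc]; field_simp
  have hc2 : c ≤ 1 / 4 := by
    have : Real.exp (-40) ≤ 1 := Real.exp_le_one_iff.2 (by norm_num)
    nlinarith
  refine ⟨c, hc0, ?_⟩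
  have h1 : ∀ᶠ x : ℝ in atTop, ‖Real.log x‖ ≤ c * ‖x ^ (1 / 2 : ℝ)‖ :=
    (isLittleO_log_rpow_atTop (by norm_num : (0 : ℝ) < 1 / 2)).bound hc0
  filter_upwards [hT, tendsto_natCast_atTop_atTop.eventually h1,
    tendsto_loglog.eventually_ge_atTop 1, eventually_ge_atTop 3] with X a1 a2 a3 a4
  have hX : (3 : ℝ) ≤ X := by exact_mod_cast a4
  have hL : 1 ≤ Real.log X := by
    rw [Real.le_log_iff_exp_le (by linarith)]
    linarith [Real.exp_one_lt_d9]
  set L := Real.log X with hLd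
  set L2 := Real.log L with hL2
  have hL2L : L2 ≤ L := (Real.log_le_sub_one_of_pos (by linarith)).trans (by linarith)
  set y := ⌊L / 4⌋₊ with hy
  set K := ⌊c * L / L2⌋₊ with hK
  have hKy : K ≤ y := by
    apply Nat.floor_le_floor
    rw [div_le_div_iff₀ (by linarith) (by norm_num)]
    nlinarith
  set P := primorial y with hP
  have hy1 : (y : ℝ) ≤ L / 4 := Nat.floor_le (by linarith)
  have hs : 0 < (X : ℝ) ^ (1 / 2 : ℝ) := Real.rpow_pos_of_pos (by linarith) _
  have hss : (X : ℝ) ^ (1 / 2 : ℝ) * (X : ℝ) ^ (1 / 2 : ℝ) = X := by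
    rw [← Real.rpow_add (by linarith)]; norm_num
  have hP1 : (P : ℝ) ≤ (X : ℝ) ^ (1 / 2 : ℝ) := by
    have b1 : (P : ℝ) ≤ 4 ^ y := by exact_mod_cast primorial_le_four_pow y
    refine b1.trans ?_
    rw [Real.rpow_def_of_pos (by linarith), ← Real.exp_log (show (0 : ℝ) < 4 by norm_num),
      ← Real.exp_nat_mul]
    apply Real.exp_le_exp.2
    have b2 : Real.log 4 ≤ 2 := by
      rw [show (4 : ℝ) = 2 ^ 2 by norm_num, Real.log_pow]
      have := Real.log_two_lt_d9
      push_cast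
      linarith
    have b3 : (0 : ℝ) ≤ y := by positivity
    nlinarith
  rw [Real.norm_of_nonneg (by linarith), Real.norm_of_nonneg hs.le] at a2
  have hP2 : (P : ℝ) ≤ c * X / L2 := by
    rw [le_div_iff₀ (by linarith)]
    calc (P : ℝ) * L2 ≤ (X : ℝ) ^ (1 / 2 : ℝ) * (c * (X : ℝ) ^ (1 / 2 : ℝ)) := by
          gcongr
          linarith
      _ = c * X := by rw [mul_left_comm, hss]
  have hP0 : 0 < P := primorial_pos y
  have hP0' : (0 : ℝ) < P := by exact_mod_cast hP0
  have c1 := card_coprime_ge P X hP0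
  have c2 := totient_primorial_ge y
  have c3 : Real.log y ≤ L2 := by
    rcases Nat.eq_zero_or_pos y with h0 | h0
    · rw [h0]; simp; linarith
    · exact Real.log_le_log (by exact_mod_cast h0) (by linarith)
  have c4 : Real.exp (-40) / 2 / L2 ≤ P.totient / P := by
    rw [le_div_iff₀ hP0']
    refine le_trans ?_ c2
    have := Real.log_natCast_nonneg y
    rw [div_div]
    gcongr
    linarith
  have c5 := rough_inj T X K y hKy
  have c6 := a1 K
  have c7 : (K : ℝ) ≤ c * L / L2 := Nat.floor_le (by positivity)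
  have c8 : C * (K * X / L) ≤ C * (c * X / L2) := by
    gcongr C * ?_
    rw [div_le_iff₀ (by linarith)]
    calc (K : ℝ) * X ≤ c * L / L2 * X := by gcongr
      _ = c * X / L2 * L := by ring
  have c9 := card_filter_add_card_filter_not (s := (Icc 1 X).filter (fun n => P.Coprime n))
    (fun n => ∃ k, 1 ≤ k ∧ k ≤ K ∧ T (k * n))
  have c10 : (((Icc 1 X).filter (fun n => P.Coprime n)).filter
      (fun n => ¬ ∃ k, 1 ≤ k ∧ k ≤ K ∧ T (k * n))).card ≤
      ((Icc 1 X).filter (fun n => ∀ k : ℕ, 1 ≤ k → (k : ℝ) ≤ c * L / L2 → ¬ T (k * n))).card := by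
    apply card_le_card
    intro n hn
    rw [mem_filter] at hn ⊢
    refine ⟨(mem_filter.1 hn.1).1, fun k hk1 hk2 hk3 => hn.2 ⟨k, hk1, Nat.le_floor hk2, hk3⟩⟩
  have c11 : (((Icc 1 X).filter (fun n => P.Coprime n)).card : ℝ) ≤
      ((Icc 1 (K * X)).filter T).card +
      ((Icc 1 X).filter (fun n => ∀ k : ℕ, 1 ≤ k → (k : ℝ) ≤ c * L / L2 → ¬ T (k * n))).card := by
    exact_mod_cast c9.symm.le.trans (Nat.add_le_add c5 c10)
  have c12 : (X : ℝ) * (Real.exp (-40) / 2 / L2) ≤ X * (P.totient / P) := by gcongr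
  have c13 : (X : ℝ) * (Real.exp (-40) / 2 / L2) = C * (c * X / L2) + 2 * (c * X / L2) := by
    rw [← hc1]; ring
  linarith

end Pool.Agent.Lib.MP_be93de_nt
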