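import Pool.Agent.Lib.MP_be93de_nt.Pa6
import Pool.Agent.Lib.MP_6a20cc_nt.DpD

/-! The parts lemma for admissible linear forms. -/

namespace Pool.Agent.Lib.MP_be93de_nt.Pa

open Finset Filter Pool.Agent.Lib.MP_6a20cc_nt

theorem parts : Dp.Parts := by
  intro M n0 e he
  obtain ⟨t, ht, w₀, hw⟩ := core M n0 he
  refine ⟨t, ht, fun a' b' ha' hinj hadm' wt hwt => ?_⟩
  set a : Fin M × Fin t → ℤ := fun x => a' x.1 x.2
  set b : Fin M × Fin t → ℤ := fun x => b' x.1 x.2
  have ha : ∀ i, 0 < a i := fun i => ha' _ _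
  have hadm : ∀ p : ℕ, p.Prime → ∃ n : ℕ, ∀ i, ¬ (p : ℤ) ∣ a i * n + b i := fun p hp =>
    (hadm' p hp).imp fun n h i => h _ _
  have hdet : ∀ i j, i ≠ j → a i * b j - a j * b i ≠ 0 := fun i j h => by
    simpa only [Equiv.symm_apply_apply] using det_ne_zero (fun m => a (finProdFinEquiv.symm m))
      (fun m => b (finProdFinEquiv.symm m)) (fun _ => ha _)
      (hinj.comp finProdFinEquiv.symm.injective) (fun p hp => (hadm p hp).imp fun n h i => h _)
      (finProdFinEquiv i) (finProdFinEquiv j) (finProdFinEquiv.injective.ne h)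
  have e1 : ∀ᶠ w : ℕ in atTop, ∀ i, (a i).natAbs ≤ w :=
    eventually_all.2 fun j => eventually_ge_atTop _
  have e2 : ∀ᶠ w : ℕ in atTop, ∀ i j, (a i * b j - a j * b i).natAbs ≤ w :=
    eventually_all.2 fun i => eventually_all.2 fun j => eventually_ge_atTop _
  obtain ⟨w, w1, w2, w3⟩ := (e1.and (e2.and (eventually_ge_atTop w₀))).exists
  choose! r hr using hadm
  obtain ⟨n0, hn0⟩ := Nat.chineseRemainderOfFinset r id (Nat.primesLE w)
    (fun q hq => (Nat.prime_of_mem_primesLE hq).ne_zero)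
    (fun q hq q' hq' hne => (Nat.coprime_primes (Nat.prime_of_mem_primesLE hq)
      (Nat.prime_of_mem_primesLE hq')).2 hne)
  have e3 : ∀ᶠ v : ℕ in atTop, ∀ i, (b i).natAbs < v :=
    eventually_all.2 fun j => eventually_gt_atTop _
  obtain ⟨v, v1⟩ := e3.exists
  set W := w.factorial with hW
  have hW0 : 0 < W := Nat.factorial_pos w
  set n1 := n0 + W * v with hn1
  have hvn : v ≤ n1 := le_trans (Nat.le_mul_of_pos_left v hW0) (Nat.le_add_left _ _)
  have hpos : ∀ i, 0 < a i * n1 + b i := fun i => by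
    have h1 : ((b i).natAbs : ℤ) < n1 := by exact_mod_cast (v1 i).trans_le hvn
    have h2 : (n1 : ℤ) ≤ a i * n1 := le_mul_of_one_le_left (by positivity) (ha i)
    omega
  have ha0 : ∀ i, 0 < (a i).natAbs := fun i => Int.natAbs_pos.2 (ha i).ne'
  have haz : ∀ i, ((a i).natAbs : ℤ) = a i := fun i => Int.natAbs_of_nonneg (ha i).le
  have hcz : ∀ i, ((a i * n1 + b i).natAbs : ℤ) = a i * n1 + b i := fun i =>
    Int.natAbs_of_nonneg (hpos i).le
  refine Set.infinite_of_forall_exists_gt fun Bd => ?_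
  obtain ⟨n, h1, h2⟩ := hw w w3 (fun j i => (a (j, i)).natAbs)
    (fun j i => (a (j, i) * n1 + b (j, i)).natAbs) (fun _ _ => ha0 _) (fun _ _ => w1 _)
    (fun j1 j2 => by
      generalize (j1, j2) = j
      by_contra h
      obtain ⟨q, hq, h1, h2⟩ := Nat.Prime.not_coprime_iff_dvd.1 h
      have hqw : q ≤ w := ((Nat.Prime.dvd_mul hq).1 h2).elim
        (fun h => (Nat.le_of_dvd (ha0 j) h).trans (w1 j)) hq.dvd_factorial.1
      have h3 : (q : ℤ) ∣ (r q : ℤ) - n0 :=
        (Nat.modEq_iff_dvd).1 (hn0 q (Nat.mem_primesLE.2 ⟨hqw, hq⟩))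
      have h4 : (q : ℤ) ∣ W := by exact_mod_cast hq.dvd_factorial.2 hqw
      have h5 : a j * r q + b j = (a j * n1 + b j) + a j * (r q - n0) - a j * v * W := by
        rw [hn1]; push_cast; ring
      exact hr q hq j (h5 ▸ dvd_sub (dvd_add (Int.natCast_dvd.2 h1) (h3.mul_left _)) (h4.mul_left _)))
    (fun q _ hwq i j h => by
      by_contra hij
      have h2 := (Nat.modEq_iff_dvd).1 h.symm
      rw [Nat.cast_mul, Nat.cast_mul, haz, haz, hcz, hcz, show a i * (a j * n1 + b j) -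
        a j * (a i * n1 + b i) = a i * b j - a j * b i by ring] at h2
      have h3 := Nat.le_of_dvd (Int.natAbs_pos.2 (hdet i j hij)) (Int.natCast_dvd.1 h2)
      have := w2 i j
      omega) wt hwt Bd
  refine ⟨W * n + n1, h2.trans (sum_le_sum_of_subset_of_nonneg (fun j hj => mem_filter.2
    ⟨mem_univ _, (mem_filter.1 hj).2.trans (card_le_card fun i' hi => ?_)⟩) fun _ _ _ => hwt _), by
    have := Nat.le_mul_of_pos_left n hW0; omega⟩
  have h3 := (mem_filter.1 hi).2
  set i := (j, i')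
  have h4 : a i * ((W * n + n1 : ℕ) : ℤ) + b i
      = (((a i).natAbs * W * n + (a i * n1 + b i).natAbs : ℕ) : ℤ) := by
    rw [Nat.cast_add, Nat.cast_add (_ * n), Nat.cast_mul, Nat.cast_mul, Nat.cast_mul, haz, hcz]
    ring
  refine mem_filter.2 ⟨mem_univ _, ?_⟩
  change Prime (a i * _ + b i) ∧ 0 < a i * _ + b i
  rw [h4]
  exact ⟨Nat.prime_iff_prime_int.1 h3, Nat.cast_pos.2 h3.pos⟩

end Pool.Agent.Lib.MP_be93de_nt.Pa
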