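import Pool.Agent.Lib.MP_68a45e_nt.Main

/-! Brun's upper bound, transported to the set of indices of twin primes. -/

namespace Pool.Agent.Lib.MP_be93de_nt

open Filter Finset Real Asymptotics

lemma twin_bound : ∃ C : ℝ, 0 < C ∧ ∀ᶠ x : ℕ in atTop,
    (((range (x + 1)).filter (fun p => p.Prime ∧ (p + 2).Prime)).card : ℝ)
      ≤ C * (x / log x ^ 2) := by
  classical
  have hinj : Function.Injective (![0, 1] : Fin 2 → ℕ) := by
    intro i j h
    fin_cases i <;> fin_cases j <;> simp_all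
  obtain ⟨C, hC0, -, h⟩ := Pool.Agent.Lib.MP_68a45e_nt.upper_constant 1 le_rfl ![0, 1] hinj
  obtain ⟨D, hD0, hD⟩ := Chebyshev.integral_one_div_log_sq_isBigO.exists_pos
  have hD' := tendsto_natCast_atTop_atTop.eventually hD.bound
  refine ⟨8 * C * D + 1, by positivity, ?_⟩
  filter_upwards [h, hD', eventually_ge_atTop 2] with x h1 h2 h3
  have hx : (2 : ℝ) ≤ x := by exact_mod_cast h3
  have hq : 0 ≤ (x : ℝ) / log x ^ 2 := by positivity
  have hI : 0 ≤ ∫ t in (2 : ℝ)..x, 1 / log t ^ 2 :=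
    intervalIntegral.integral_nonneg hx (fun t _ => by positivity)
  rw [Real.norm_of_nonneg hI, Real.norm_of_nonneg hq] at h2
  have hc : ((range (x + 1)).filter (fun p => p.Prime ∧ (p + 2).Prime)).card
      ≤ N9a2a6718.Nat.primeTupleCounting (k := 1) ![0, 1] x := by
    unfold N9a2a6718.Nat.primeTupleCounting
    rw [Nat.count_eq_card_filter_range]
    apply card_le_card
    intro p hp
    rw [mem_filter] at hp ⊢
    refine ⟨hp.1, ⟨by simp, ?_, ?_⟩, ?_⟩
    · intro i hi
      fin_cases i <;> simp_all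
    · intro i
      fin_cases i
      · simpa using hp.2.1
      · simpa using hp.2.2
    · intro q hq hs
      have : NeZero q := ⟨hq.ne_zero⟩
      have h4 := Fintype.card_le_of_surjective _ hs
      rw [ZMod.card] at h4
      have h5 : q = 2 := by
        have := hq.two_le
        simp at h4
        omega
      subst h5
      obtain ⟨i, hi⟩ := hs ((p : ZMod 2) + 1)
      have h6 : (2 : ZMod 2) = 0 := rfl
      simp only [h6, zero_mul, add_zero] at hi
      simp at hi
  have hc' : (((range (x + 1)).filter (fun p => p.Prime ∧ (p + 2).Prime)).card : ℝ)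
      ≤ N9a2a6718.Nat.primeTupleCounting (k := 1) ![0, 1] x := by exact_mod_cast hc
  refine hc'.trans (h1.trans ?_)
  have e1 : (1 - log ((Nat.succ 1 : ℕ) : ℝ) ^ 2 / (10 ^ 6 * ((Nat.succ 1 : ℕ) : ℝ))) ≤ 1 := by
    have : 0 ≤ log ((Nat.succ 1 : ℕ) : ℝ) ^ 2 / (10 ^ 6 * ((Nat.succ 1 : ℕ) : ℝ)) := by positivity
    linarith
  have e2 : (2 : ℝ) ^ (Nat.succ 1) * ((Nat.succ 1).factorial : ℕ) = 8 := by
    norm_num [Nat.factorial]
  have e3 : 0 ≤ C * ∫ t in (2 : ℝ)..x, 1 / log t ^ 2 := mul_nonneg hC0 hI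
  calc _ ≤ 1 * 2 ^ (Nat.succ 1) * ((Nat.succ 1).factorial : ℕ) *
        (C * ∫ t in (2 : ℝ)..x, 1 / log t ^ 2) := by gcongr
    _ = 8 * (C * ∫ t in (2 : ℝ)..x, 1 / log t ^ 2) := by rw [one_mul, e2]
    _ ≤ 8 * (C * (D * (x / log x ^ 2))) := by gcongr
    _ ≤ (8 * C * D + 1) * (x / log x ^ 2) := by nlinarith

lemma nth_prime_le : ∀ᶠ Y : ℕ in atTop,
    Nat.nth Nat.Prime (Y - 1) ≤ ⌈4 * (Y * log Y)⌉₊ := by
  have h1 : ∀ᶠ x : ℝ in atTop, ‖log x‖ ≤ (1 / 20) * ‖x‖ :=
    Real.isLittleO_log_id_atTop.bound (by norm_num)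
  obtain ⟨x0, hx0⟩ := eventually_atTop.1 h1
  filter_upwards [eventually_ge_atTop 10,
    tendsto_natCast_atTop_atTop.eventually_ge_atTop x0] with Y hY hY0
  have hY' : (10 : ℝ) ≤ Y := by exact_mod_cast hY
  have hl : 1 ≤ log Y := by
    rw [Real.le_log_iff_exp_le (by linarith)]
    linarith [Real.exp_one_lt_d9]
  set x := ⌈4 * (Y * log Y)⌉₊ with hx
  have hx1 : 4 * (Y * log Y) ≤ x := Nat.le_ceil _
  have hx2 : (x : ℝ) < 4 * (Y * log Y) + 1 := Nat.ceil_lt_add_one (by positivity)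
  have hYx : (Y : ℝ) ≤ x := by nlinarith
  have a1 := hx0 Y hY0
  have a2 := hx0 (x + 1) (by linarith)
  rw [Real.norm_of_nonneg (by linarith), Real.norm_of_nonneg (by linarith)] at a1
  rw [Real.norm_of_nonneg (Real.log_nonneg (by linarith)), Real.norm_of_nonneg (by linarith)] at a2
  have a3 : log x ≤ 2 * log Y := by
    have : (x : ℝ) ≤ Y ^ 2 := by nlinarith
    calc log x ≤ log ((Y : ℝ) ^ 2) := Real.log_le_log (by linarith) this
      _ = 2 * log Y := by rw [Real.log_pow]; norm_num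
  have a4 : 0 < log x := Real.log_pos (by linarith)
  have a5 := Chebyshev.pi_ge x
  have a6 : (Y : ℝ) ≤ (x * log 2 - log (x + 1)) / log x := by
    rw [le_div_iff₀ a4]
    have := Real.log_two_gt_d9
    nlinarith
  have a7 : Y ≤ Nat.primeCounting x := by exact_mod_cast a6.trans a5
  have a8 : Y - 1 < Nat.count Nat.Prime (x + 1) := by
    have : Nat.primeCounting x = Nat.count Nat.Prime (x + 1) := rfl
    omega
  exact Nat.lt_succ_iff.1 (Nat.nth_lt_of_lt_count a8)

open Classical in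
/-- Brun's bound for the indices `m` of the primes `p_m` with `p_m + 2` prime. -/
theorem index_bound : ∃ C : ℝ, 0 < C ∧ ∀ᶠ X : ℕ in atTop, ∀ K : ℕ,
    (((Icc 1 (K * X)).filter (fun m => (Nat.nth Nat.Prime (m - 1) + 2).Prime)).card : ℝ)
      ≤ C * (K * X / log X) := by
  obtain ⟨C, hC, h⟩ := twin_bound
  obtain ⟨x0, hx0⟩ := eventually_atTop.1 h
  obtain ⟨Y0, hY0⟩ := eventually_atTop.1 nth_prime_le
  refine ⟨5 * C, by positivity, ?_⟩
  filter_upwards [eventually_ge_atTop 10, eventually_ge_atTop x0, eventually_ge_atTop Y0]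
    with X h1 h2 h3 K
  rcases Nat.eq_zero_or_pos K with rfl | hK
  · simp
  set Y := K * X with hY
  have hXY : X ≤ Y := Nat.le_mul_of_pos_left X hK
  have hX' : (10 : ℝ) ≤ X := by exact_mod_cast h1
  have hXY' : (X : ℝ) ≤ Y := by exact_mod_cast hXY
  have hl : 1 ≤ log X := by
    rw [Real.le_log_iff_exp_le (by linarith)]
    linarith [Real.exp_one_lt_d9]
  have hl2 : log X ≤ log Y := Real.log_le_log (by linarith) hXY'
  set x := ⌈4 * (Y * log Y)⌉₊ with hx
  have hx1 : 4 * (Y * log Y) ≤ x := Nat.le_ceil _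
  have hx2 : (x : ℝ) < 4 * (Y * log Y) + 1 := Nat.ceil_lt_add_one (by nlinarith)
  have hYx : (Y : ℝ) ≤ x := by nlinarith
  have hYx' : Y ≤ x := by exact_mod_cast hYx
  have b1 := hx0 x (by omega)
  have b2 := hY0 Y (by omega)
  have b3 : ((Icc 1 Y).filter (fun m => (Nat.nth Nat.Prime (m - 1) + 2).Prime)).card
      ≤ ((range (x + 1)).filter (fun p => p.Prime ∧ (p + 2).Prime)).card := by
    apply card_le_card_of_injOn (fun m => Nat.nth Nat.Prime (m - 1))
    · intro m hm
      simp only [coe_filter, mem_Icc, Set.mem_ofPred_eq, mem_range] at hm ⊢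
      refine ⟨?_, Nat.prime_nth_prime _, hm.2⟩
      have : Nat.nth Nat.Prime (m - 1) ≤ Nat.nth Nat.Prime (Y - 1) :=
        Nat.nth_monotone Nat.infinite_setOfPred_prime (show m - 1 ≤ Y - 1 by omega)
      omega
    · intro a ha b hb hab
      simp only [coe_filter, mem_Icc, Set.mem_ofPred_eq] at ha hb
      have := Nat.nth_injective Nat.infinite_setOfPred_prime hab
      omega
  have b4 : (((Icc 1 Y).filter (fun m => (Nat.nth Nat.Prime (m - 1) + 2).Prime)).card : ℝ)
      ≤ ((range (x + 1)).filter (fun p => p.Prime ∧ (p + 2).Prime)).card := by exact_mod_cast b3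
  refine b4.trans (b1.trans ?_)
  have b5 : log Y ≤ log x := Real.log_le_log (by linarith) hYx
  have b6 : (x : ℝ) / log x ^ 2 ≤ 5 * (Y * log Y) / log Y ^ 2 := by
    gcongr
    · nlinarith
    · nlinarith
  have b7 : 5 * (Y * log Y) / log Y ^ 2 = 5 * (Y / log Y) := by
    have : log Y ≠ 0 := by linarith
    field_simp
  have b8 : (Y : ℝ) / log Y ≤ K * X / log X := by
    have : (Y : ℝ) = K * X := by rw [hY]; push_cast; ring
    rw [← this]
    gcongr
  calc C * (x / log x ^ 2) ≤ C * (5 * (K * X / log X)) := by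
        gcongr
        linarith
    _ = 5 * C * (K * X / log X) := by ring

end Pool.Agent.Lib.MP_be93de_nt
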