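import Pool.Agent.Lib.MP_be93de_nt.Hc.Main

namespace Pool.Agent.Lib.MP_be93de_nt.OldDicksonBarrier

open Classical in
theorem result : ∃ (A : Set ℕ) (C : ℝ), A.Infinite ∧
    (∀ (x : ℝ) (Ψ : Finset (ℤ × ℤ)) (u v : ℕ), 2 ≤ x → u ≤ v →
      (Ψ.card : ℝ) ≤ Real.log x ^ (1 / 12 : ℝ) →
      (∀ ψ ∈ Ψ, ψ.1 ≠ 0 ∧ Int.gcd ψ.1 ψ.2 = 1 ∧ ((|ψ.1| : ℤ) : ℝ) ≤ x ∧ ((|ψ.2| : ℤ) : ℝ) ≤ x) →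
      (∀ ψ ∈ Ψ, ∀ φ ∈ Ψ, ψ ≠ φ → ψ.1 * φ.2 ≠ φ.1 * ψ.2) →
      (∀ m ∈ Finset.Ico u v, ∀ ψ ∈ Ψ, Real.sqrt x ≤ ((ψ.1 * m + ψ.2 : ℤ) : ℝ) ∧
        ((ψ.1 * m + ψ.2 : ℤ) : ℝ) ≤ x) →
      ∃ S : ℝ, Filter.Tendsto (fun N : ℕ => ∏ p ∈ (Finset.range N).filter Nat.Prime,
          (1 - (((Finset.range p).filter
            (fun m : ℕ => ∃ ψ ∈ Ψ, (p : ℤ) ∣ ψ.1 * m + ψ.2)).card : ℝ) / p) /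
            (1 - 1 / (p : ℝ)) ^ Ψ.card) Filter.atTop (nhds S) ∧
        |(((Finset.Ico u v).filter (fun m : ℕ => ∀ ψ ∈ Ψ, (ψ.1 * m + ψ.2).toNat ∈ A)).card : ℝ) -
            S * ∑ m ∈ Finset.Ico u v, ∏ ψ ∈ Ψ, 1 / Real.log ((ψ.1 * m + ψ.2 : ℤ) : ℝ)| ≤
          C * (((v : ℝ) - u) * Real.exp (-Real.log x ^ (1 / 11 : ℝ)) +
            Real.exp (Real.log x ^ (9 / 10 : ℝ)))) ∧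
    ∀ N : ℕ, 2 ≤ N →
      ({n : ℕ | 1 ≤ n ∧ n ≤ N ∧ ∃ k : ℕ, 1 ≤ k ∧ (k : ℝ) ≤ Real.exp (Real.log n ^ 2) ∧
        Nat.nth (· ∈ A) (k * n - 1) + 2 ∈ A}.ncard : ℝ) ≤ C * N / Real.log N ^ (1 / 10 : ℝ) := by
  obtain ⟨A, C, h1, h2, h3⟩ := Pool.Agent.Lib.MP_be93de_nt.Hc.main'
  refine ⟨A, C, h1, fun x Ψ u v a b c d e f => ?_, h3⟩
  obtain ⟨S, hS, h⟩ := h2 x Ψ u v a b c d e f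
  refine ⟨S, ?_, by convert h⟩
  convert hS using 1
  unfold Pool.Agent.Lib.MP_be93de_nt.Hc.IsSF Pool.Agent.Lib.MP_be93de_nt.Hc.nuF
  congr!

end Pool.Agent.Lib.MP_be93de_nt.OldDicksonBarrier
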