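import Pool.Agent.Lib.MP_be93de_nt.Brun
import Pool.Agent.Lib.MP_be93de_nt.Rough

namespace Pool.Agent.Lib.MP_be93de_nt.OldManyLarge

open Filter

/-- For at least `c X / log log X` integers `n ≤ X`, the number `p_{kn} + 2` is not prime for any
`1 ≤ k ≤ c log X / log log X`.  Here `p_m = Nat.nth Nat.Prime (m - 1)`. -/
theorem result : ∃ c : ℝ, 0 < c ∧ ∀ᶠ X : ℕ in atTop,
    c * X / Real.log (Real.log X) ≤
      ({n : ℕ | 1 ≤ n ∧ n ≤ X ∧ ∀ k : ℕ, 1 ≤ k →
        (k : ℝ) ≤ c * Real.log X / Real.log (Real.log X) →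
        ¬ (Nat.nth Nat.Prime (k * n - 1) + 2).Prime}.ncard : ℝ) := by
  classical
  obtain ⟨C, hC, hT⟩ := Pool.Agent.Lib.MP_be93de_nt.index_bound
  obtain ⟨c, hc, h⟩ := Pool.Agent.Lib.MP_be93de_nt.rough_main
    (fun m => (Nat.nth Nat.Prime (m - 1) + 2).Prime) C hC
    (hT.mono fun X hX K => by rw [Finset.filter_congr_decidable]; exact hX K)
  refine ⟨c, hc, h.mono fun X hX => hX.trans (le_of_eq ?_)⟩
  rw [← Set.ncard_coe_finset]
  congr 2
  ext n
  simp only [Finset.coe_filter, Finset.mem_Icc, Set.mem_ofPred_eq, and_assoc]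

end Pool.Agent.Lib.MP_be93de_nt.OldManyLarge
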