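import Pool.Agent.Lib.MP_be93de_nt.Hd.Main

namespace Pool.Agent.Lib.MP_be93de_nt.OldPowerBarrier

theorem result (δ : ℝ) (hδ : 0 < δ) : ∃ (ε : ℝ) (A : Set ℕ) (C : ℝ), 0 < ε ∧ A.Infinite ∧
    (∀ (x y : ℝ) (q : ℕ) (H : Finset ℕ), 2 ≤ y → y ≤ x → 1 ≤ q → (q : ℝ) ≤ Real.log x ^ 2 →
      H.Nonempty → (H.card : ℝ) ≤ Real.log x ^ (1 / 13 : ℝ) →
      (∀ b ∈ H, (b : ℝ) ≤ Real.log x ^ 2) →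
      ∃ S : ℝ, Filter.Tendsto (fun N : ℕ => ∏ p ∈ (Finset.range N).filter Nat.Prime,
          (1 - (((Finset.range p).filter (fun m => ∃ b ∈ H, p ∣ q * m + b)).card : ℝ) / p) /
            (1 - 1 / (p : ℝ)) ^ H.card) Filter.atTop (nhds S) ∧
        |(({m : ℕ | y < (q * m : ℕ) ∧ ((q * m : ℕ) : ℝ) ≤ x ∧ ∀ b ∈ H, q * m + b ∈ A}.ncard : ℕ) : ℝ) -
            S / q * ∫ t in y..x, 1 / Real.log t ^ H.card| ≤ C * x ^ (1 - ε)) ∧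
    ∀ᶠ N : ℕ in Filter.atTop, ({n : ℕ | 1 ≤ n ∧ n ≤ N ∧ ∃ k : ℕ, 1 ≤ k ∧ k ≤ n ^ 2 ∧
      Nat.nth (· ∈ A) (k * n - 1) + 2 ∈ A}.ncard : ℝ) ≤ δ * N :=
  Pool.Agent.Lib.MP_be93de_nt.Hd.main' δ hδ

end Pool.Agent.Lib.MP_be93de_nt.OldPowerBarrier
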