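import Mathlib

/-! Square multiples in a sparse set. -/

namespace Pool.Agent.Lib.MP_be93de_nt

open Filter Finset Real

lemma sqfree_unique {a a' b b' : ℕ} (ha : Squarefree a) (ha' : Squarefree a') (hb : b ≠ 0)
    (hb' : b' ≠ 0) (h : b ^ 2 * a = b' ^ 2 * a') : a = a' := by
  apply Nat.eq_of_factorization_eq ha.ne_zero ha'.ne_zero
  intro p
  have h1 := congrArg (fun n => n.factorization p) h
  simp only [Nat.factorization_mul (pow_ne_zero 2 hb) ha.ne_zero,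
    Nat.factorization_mul (pow_ne_zero 2 hb') ha'.ne_zero, Nat.factorization_pow,
    Finsupp.add_apply, Finsupp.smul_apply, smul_eq_mul] at h1
  have h2 := ha.natFactorization_le_one p
  have h3 := ha'.natFactorization_le_one p
  omega

lemma card_dvd_le (X d : ℕ) : (((Icc 1 X).filter (fun n => d ∣ n)).card : ℝ) ≤ X / d := by
  have h : Icc 1 X = Ioc 0 X := by ext; simp [Nat.succ_le_iff]
  rw [h, Nat.Ioc_filter_dvd_card_eq_div]
  exact Nat.cast_div_le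

lemma card_dvd_ge (X d : ℕ) : (X : ℝ) / d - 1 ≤ ((Icc 1 X).filter (fun n => d ∣ n)).card := by
  have h : Icc 1 X = Ioc 0 X := by ext; simp [Nat.succ_le_iff]
  rw [h, Nat.Ioc_filter_dvd_card_eq_div]
  have := Nat.lt_floor_add_one ((X : ℝ) / d)
  rw [Nat.floor_div_eq_div] at this
  linarith

open Classical in
lemma card_big_sq (X S : ℕ) (hS : 1 ≤ S) :
    (((Icc 1 X).filter (fun n => ∃ s, S < s ∧ s ^ 2 ∣ n)).card : ℝ) ≤ X / S := by
  have h1 : (Icc 1 X).filter (fun n => ∃ s, S < s ∧ s ^ 2 ∣ n) ⊆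
      (Ioc S (S + X)).biUnion (fun s => (Icc 1 X).filter (fun n => s ^ 2 ∣ n)) := by
    intro n hn
    rw [mem_filter] at hn
    obtain ⟨s, h1, h2⟩ := hn.2
    have h3 := mem_Icc.1 hn.1
    have h4 := Nat.le_of_dvd h3.1 h2
    refine mem_biUnion.2 ⟨s, mem_Ioc.2 ⟨h1, by nlinarith⟩, mem_filter.2 ⟨hn.1, h2⟩⟩
  have h2 := (card_le_card h1).trans card_biUnion_le
  have h3 : (((Icc 1 X).filter (fun n => ∃ s, S < s ∧ s ^ 2 ∣ n)).card : ℝ) ≤
      ∑ s ∈ Ioc S (S + X), (((Icc 1 X).filter (fun n => s ^ 2 ∣ n)).card : ℝ) := by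
    exact_mod_cast h2
  refine h3.trans ?_
  have h4 := sum_Ioc_inv_sq_le_sub (α := ℝ) (k := S) (n := S + X) (by omega) (by omega)
  calc _ ≤ ∑ s ∈ Ioc S (S + X), (X : ℝ) * ((s : ℝ) ^ 2)⁻¹ := by
        apply sum_le_sum
        intro s _
        have := card_dvd_le X (s ^ 2)
        rwa [Nat.cast_pow, div_eq_mul_inv] at this
    _ ≤ X * (S : ℝ)⁻¹ := by
        rw [← mul_sum]
        have : (0 : ℝ) ≤ (((S + X : ℕ) : ℝ))⁻¹ := by positivity
        gcongr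
        linarith
    _ = X / S := by rw [div_eq_mul_inv]

open Classical in
lemma sq_inj (T : ℕ → Prop) (X K S : ℕ) :
    (((Icc 1 X).filter (fun n => ∃ k, 1 ≤ k ∧ k ≤ K ∧ T (k ^ 2 * n))).filter
      (fun n => ¬ ∃ s, S < s ∧ s ^ 2 ∣ n)).card ≤ S * ((Icc 1 (K ^ 2 * X)).filter T).card := by
  set B := ((Icc 1 X).filter (fun n => ∃ k, 1 ≤ k ∧ k ≤ K ∧ T (k ^ 2 * n))).filter
      (fun n => ¬ ∃ s, S < s ∧ s ^ 2 ∣ n) with hB
  have hex : ∀ n, ∃ k, n ∈ B → 1 ≤ k ∧ k ≤ K ∧ T (k ^ 2 * n) := by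
    intro n
    by_cases hn : n ∈ B
    · obtain ⟨k, hk⟩ := (mem_filter.1 (mem_filter.1 hn).1).2
      exact ⟨k, fun _ => hk⟩
    · exact ⟨0, fun h => absurd h hn⟩
  choose k hk using hex
  choose a s hs using Nat.sq_mul_squarefree
  have hn1 : ∀ n ∈ B, 1 ≤ n ∧ n ≤ X := fun n hn => mem_Icc.1 (mem_filter.1 (mem_filter.1 hn).1).1
  have hs0 : ∀ n ∈ B, s n ≠ 0 := by
    intro n hn h
    have := (hs n).1
    rw [h] at this
    have := hn1 n hn
    omega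
  rw [show S * ((Icc 1 (K ^ 2 * X)).filter T).card
    = ((Icc 1 S) ×ˢ ((Icc 1 (K ^ 2 * X)).filter T)).card by simp]
  apply card_le_card_of_injOn (fun n => (s n, k n ^ 2 * n))
  · intro n hn
    have h1 := hk n hn
    have h2 := hn1 n hn
    have h3 := (mem_filter.1 hn).2
    have h4 : s n ≤ S := by
      by_contra hc
      exact h3 ⟨s n, not_le.1 hc, Dvd.intro _ (hs n).1⟩
    simp only [coe_product, Set.mem_prod, mem_coe, mem_Icc, mem_filter]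
    exact ⟨⟨Nat.pos_of_ne_zero (hs0 n hn), h4⟩, ⟨Nat.mul_pos (pow_pos h1.1 2) h2.1,
      Nat.mul_le_mul (Nat.pow_le_pow_left h1.2.1 2) h2.2⟩, h1.2.2⟩
  · intro n hn m hm hnm
    simp only [Prod.mk.injEq] at hnm
    have h1 := hk n hn
    have h2 := hk m hm
    have h3 : (k n * s n) ^ 2 * a n = (k m * s m) ^ 2 * a m := by
      rw [mul_pow, mul_pow, mul_assoc, mul_assoc, (hs n).1, (hs m).1, hnm.2]
    have h4 := sqfree_unique (hs n).2 (hs m).2 (Nat.mul_ne_zero (by omega) (hs0 n hn))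
      (Nat.mul_ne_zero (by omega) (hs0 m hm)) h3
    rw [← (hs n).1, ← (hs m).1, h4, hnm.1]

open Classical in
theorem sq_main (T : ℕ → Prop) (C : ℝ) (hC : 0 < C)
    (hT : ∀ᶠ X : ℕ in atTop, ∀ K : ℕ, (((Icc 1 (K * X)).filter T).card : ℝ) ≤ C * (K * X / log X))
    (ε : ℝ) (hε : 0 < ε) :
    ∃ c : ℝ, 0 < c ∧ ∀ᶠ X : ℕ in atTop, (((Icc 1 X).filter (fun n => ∃ k : ℕ, 1 ≤ k ∧
        (k : ℝ) ≤ c * √(log X) ∧ T (k ^ 2 * n))).card : ℝ) ≤ ε * X := by
  obtain ⟨S, hS⟩ := exists_nat_gt (2 / ε)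
  have hS0 : (0 : ℝ) < S := lt_trans (by positivity) hS
  have hS1 : 1 ≤ S := by exact_mod_cast hS0
  set c : ℝ := √(ε / (2 * S * C)) with hc
  have hc2 : c ^ 2 = ε / (2 * S * C) := Real.sq_sqrt (by positivity)
  refine ⟨c, Real.sqrt_pos.2 (by positivity), ?_⟩
  filter_upwards [hT, eventually_ge_atTop 2] with X a1 a2
  have hX : (2 : ℝ) ≤ X := by exact_mod_cast a2
  have hL : 0 < log X := Real.log_pos (by linarith)
  set K := ⌊c * √(log X)⌋₊ with hK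
  have b1 : (K : ℝ) ≤ c * √(log X) := Nat.floor_le (by positivity)
  have b2 : (K : ℝ) ^ 2 ≤ ε / (2 * S * C) * log X := by
    calc (K : ℝ) ^ 2 ≤ (c * √(log X)) ^ 2 := by gcongr
      _ = _ := by rw [mul_pow, hc2, Real.sq_sqrt hL.le]
  have b3 := a1 (K ^ 2)
  have b4 := sq_inj T X K S
  have b5 := card_big_sq X S hS1
  have b6 : ((Icc 1 X).filter (fun n => ∃ k : ℕ, 1 ≤ k ∧
        (k : ℝ) ≤ c * √(log X) ∧ T (k ^ 2 * n))) ⊆
      ((Icc 1 X).filter (fun n => ∃ s, S < s ∧ s ^ 2 ∣ n)) ∪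
      (((Icc 1 X).filter (fun n => ∃ k, 1 ≤ k ∧ k ≤ K ∧ T (k ^ 2 * n))).filter
      (fun n => ¬ ∃ s, S < s ∧ s ^ 2 ∣ n)) := by
    intro n hn
    rw [mem_filter] at hn
    obtain ⟨k, h1, h2, h3⟩ := hn.2
    by_cases h : ∃ s, S < s ∧ s ^ 2 ∣ n
    · exact mem_union_left _ (mem_filter.2 ⟨hn.1, h⟩)
    · exact mem_union_right _ (mem_filter.2 ⟨mem_filter.2 ⟨hn.1, k, h1, Nat.le_floor h2, h3⟩, h⟩)
  have b7 := (card_le_card b6).trans ((card_union_le _ _).trans (Nat.add_le_add_left b4 _))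
  have b8 : (((Icc 1 X).filter (fun n => ∃ k : ℕ, 1 ≤ k ∧
        (k : ℝ) ≤ c * √(log X) ∧ T (k ^ 2 * n))).card : ℝ) ≤
      ((Icc 1 X).filter (fun n => ∃ s, S < s ∧ s ^ 2 ∣ n)).card
        + S * ((Icc 1 (K ^ 2 * X)).filter T).card := by exact_mod_cast b7
  have b9 : (X : ℝ) / S ≤ ε / 2 * X := by
    rw [div_lt_iff₀ hε] at hS
    rw [div_le_iff₀ hS0]
    nlinarith
  have b10 : (S : ℝ) * ((Icc 1 (K ^ 2 * X)).filter T).card ≤ ε / 2 * X := by
    calc (S : ℝ) * ((Icc 1 (K ^ 2 * X)).filter T).card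
        ≤ S * (C * ((ε / (2 * S * C) * log X) * X / log X)) := by
          refine mul_le_mul_of_nonneg_left (b3.trans ?_) hS0.le
          push_cast
          gcongr
      _ = ε / 2 * X := by field_simp
  linarith

end Pool.Agent.Lib.MP_be93de_nt
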