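import Pool.Agent.Lib.MP_be93de_nt.Hb.Main

namespace Pool.Agent.Lib.MP_be93de_nt.OldTupleBarrier

theorem result : ∃ (A : Set ℕ) (C : ℝ), A.Infinite ∧
    (∀ (x y : ℝ) (q : ℕ) (H : Finset ℕ), 2 ≤ y → y ≤ x → 1 ≤ q →
      (q : ℝ) ≤ Real.exp (Real.log x ^ (1 / 12 : ℝ)) → H.Nonempty →
      (H.card : ℝ) ≤ Real.log x ^ (1 / 12 : ℝ) →
      (∀ b ∈ H, (b : ℝ) ≤ Real.exp (Real.log x ^ (1 / 12 : ℝ))) →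
      ∃ S : ℝ, Filter.Tendsto (fun N : ℕ => ∏ p ∈ (Finset.range N).filter Nat.Prime,
          (1 - (((Finset.range p).filter (fun m => ∃ b ∈ H, p ∣ q * m + b)).card : ℝ) / p) /
            (1 - 1 / (p : ℝ)) ^ H.card) Filter.atTop (nhds S) ∧
        |(({m : ℕ | y < (q * m : ℕ) ∧ ((q * m : ℕ) : ℝ) ≤ x ∧ ∀ b ∈ H, q * m + b ∈ A}.ncard : ℕ) : ℝ) -
            S / q * ∫ t in y..x, 1 / Real.log t ^ H.card| ≤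
          C * ((x - y) * Real.exp (-Real.log x ^ (1 / 11 : ℝ)) + x ^ (2 / 3 : ℝ))) ∧
    ∀ N : ℕ, 2 ≤ N →
      ({n : ℕ | 1 ≤ n ∧ n ≤ N ∧ ∃ k : ℕ, 1 ≤ k ∧ (k : ℝ) ≤ Real.exp (Real.log n ^ 2) ∧
        Nat.nth (· ∈ A) (k * n - 1) + 2 ∈ A}.ncard : ℝ) ≤ C * N / Real.log N ^ (1 / 10 : ℝ) :=
  Pool.Agent.Lib.MP_be93de_nt.Hb.main

end Pool.Agent.Lib.MP_be93de_nt.OldTupleBarrier
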