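import Pool.Agent.Lib.MP_be93de_nt.Typ

/-! Small multiples of typical integers in a sparse set: counting. -/

namespace Pool.Agent.Lib.MP_be93de_nt

open Filter Finset Real Nat

open Classical in
lemma typ_inj (T : ℕ → Prop) (X K y : ℕ) (hK : K ≤ y) (A E : ℝ) :
    ((((Icc 1 X).filter (fun n => ∃ k, 1 ≤ k ∧ k ≤ K ∧ T (k * n))).filter
      (fun n => LL y n ≤ A * (1 + Real.log y) ∧ ff y n ≤ E)).card : ℝ)
      ≤ ((Icc 1 (K * X)).filter T).card * Real.exp (E + 5 / 2 * (A + 1)) := by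
  set B := ((Icc 1 X).filter (fun n => ∃ k, 1 ≤ k ∧ k ≤ K ∧ T (k * n))).filter
      (fun n => LL y n ≤ A * (1 + Real.log y) ∧ ff y n ≤ E) with hB
  have hex : ∀ n, ∃ k, n ∈ B → 1 ≤ k ∧ k ≤ K ∧ T (k * n) := by
    intro n
    by_cases hn : n ∈ B
    · obtain ⟨k, hk⟩ := (mem_filter.1 (mem_filter.1 hn).1).2
      exact ⟨k, fun _ => hk⟩
    · exact ⟨0, fun h => absurd h hn⟩
  choose k hk using hex
  have hn1 : ∀ n ∈ B, 1 ≤ n ∧ n ≤ X := fun n hn => mem_Icc.1 (mem_filter.1 (mem_filter.1 hn).1).1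
  set M := ((Icc 1 (K * X)).filter T).filter (fun m => LL y m ≤ (A + 1) * (1 + Real.log y)) with hM
  set G : ℕ × ℕ → ℝ := fun x => Real.exp (-ff y (x.1 / x.2)) with hG
  have hinj : Set.InjOn (fun n => (k n * n, k n)) (B : Set ℕ) := by
    intro a ha b _ hab
    simp only [Prod.mk.injEq] at hab
    have h1 := hk a ha
    have h2 := hab.1
    rw [← hab.2] at h2
    exact Nat.eq_of_mul_eq_mul_left h1.1 h2
  have hl := one_add_log_pos y
  have h1 : (B.card : ℝ) * Real.exp (-E) ≤ M.card * Real.exp (5 / 2 * (A + 1)) := by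
    calc (B.card : ℝ) * Real.exp (-E) = ∑ _n ∈ B, Real.exp (-E) := by
          rw [sum_const, nsmul_eq_mul]
      _ ≤ ∑ n ∈ B, G (k n * n, k n) := by
          apply sum_le_sum
          intro n hn
          simp only [hG]
          rw [Nat.mul_div_cancel_left n (hk n hn).1]
          exact Real.exp_le_exp.2 (neg_le_neg (mem_filter.1 hn).2.2)
      _ = ∑ x ∈ B.image (fun n => (k n * n, k n)), G x := (sum_image hinj).symm
      _ ≤ ∑ x ∈ (M ×ˢ Icc 1 y).filter (fun x => x.2 ∣ x.1), G x := by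
          apply sum_le_sum_of_subset_of_nonneg _ (fun _ _ _ => (Real.exp_pos _).le)
          intro x hx
          obtain ⟨n, hn, rfl⟩ := mem_image.1 hx
          have h2 := hk n hn
          have h3 := hn1 n hn
          have h4 := (mem_filter.1 hn).2.1
          simp only [hM, mem_filter, mem_product, mem_Icc]
          refine ⟨⟨⟨⟨⟨Nat.mul_pos h2.1 h3.1, Nat.mul_le_mul h2.2.1 h3.2⟩, h2.2.2⟩, ?_⟩,
            h2.1, h2.2.1.trans hK⟩, dvd_mul_right _ _⟩
          rw [LL_mul y (by omega) (by omega)]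
          have h5 := LL_le_log y (k n)
          have h6 : Real.log (k n) ≤ Real.log y :=
            Real.log_le_log (by exact_mod_cast h2.1) (by exact_mod_cast h2.2.1.trans hK)
          linarith
      _ = ∑ m ∈ M, ∑ j ∈ (Icc 1 y).filter (fun j => j ∣ m), Real.exp (-ff y (m / j)) := by
          rw [sum_filter, sum_product]
          exact sum_congr rfl fun m _ => by rw [sum_filter]
      _ ≤ ∑ _m ∈ M, Real.exp (5 / 2 * (A + 1)) := by
          apply sum_le_sum
          intro m hm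
          have h2 := mem_filter.1 hm
          have h3 := mem_Icc.1 (mem_filter.1 h2.1).1
          refine (cover y m (by omega)).trans (Real.exp_le_exp.2 ?_)
          rw [div_le_iff₀ hl]
          linarith [h2.2]
      _ = _ := by rw [sum_const, nsmul_eq_mul]
  have h2 : (M.card : ℝ) ≤ ((Icc 1 (K * X)).filter T).card := by
    exact_mod_cast card_filter_le _ _
  have h3 : (B.card : ℝ) = B.card * Real.exp (-E) * Real.exp E := by
    rw [mul_assoc, ← Real.exp_add]; simp
  rw [h3, Real.exp_add]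
  calc _ ≤ M.card * Real.exp (5 / 2 * (A + 1)) * Real.exp E := by gcongr
    _ ≤ ((Icc 1 (K * X)).filter T).card * Real.exp (5 / 2 * (A + 1)) * Real.exp E := by gcongr
    _ = _ := by ring

lemma card_LL (X y : ℕ) {A : ℝ} (hA : 0 < A) :
    (((Icc 1 X).filter (fun n => A * (1 + Real.log y) < LL y n)).card : ℝ) ≤ 4 * X / A := by
  have hl := one_add_log_pos y
  rw [le_div_iff₀ hA]
  apply le_of_mul_le_mul_right _ hl
  refine le_trans ?_ (sum_LL y X)
  calc _ = ∑ _n ∈ (Icc 1 X).filter (fun n => A * (1 + Real.log y) < LL y n),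
        A * (1 + Real.log y) := by rw [sum_const, nsmul_eq_mul, mul_assoc]
    _ ≤ ∑ n ∈ (Icc 1 X).filter (fun n => A * (1 + Real.log y) < LL y n), LL y n :=
        sum_le_sum fun n hn => (mem_filter.1 hn).2.le
    _ ≤ _ := sum_le_sum_of_subset_of_nonneg (filter_subset _ _) fun n _ _ => LL_nonneg y n

lemma card_ff (X y : ℕ) (hy : y ≤ X) {D : ℝ} (hD : 0 < D) :
    (((Icc 1 X).filter (fun n => mu y + D < ff y n)).card : ℝ)
      ≤ 3 * X * (Real.log (1 + Real.log y) * mu y) / D ^ 2 := by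
  rw [le_div_iff₀ (by positivity)]
  refine le_trans ?_ (variance y X hy)
  calc _ = ∑ _n ∈ (Icc 1 X).filter (fun n => mu y + D < ff y n), D ^ 2 := by
        rw [sum_const, nsmul_eq_mul]
    _ ≤ ∑ n ∈ (Icc 1 X).filter (fun n => mu y + D < ff y n), (ff y n - mu y) ^ 2 :=
        sum_le_sum fun n hn => by
          have := (mem_filter.1 hn).2
          gcongr
          linarith
    _ ≤ _ := sum_le_sum_of_subset_of_nonneg (filter_subset _ _) fun n _ _ => sq_nonneg _

open Classical in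
lemma count_ineq (T : ℕ → Prop) (X K y : ℕ) (hK : K ≤ y) (hy : y ≤ X) {A D : ℝ} (hA : 0 < A)
    (hD : 0 < D) :
    (((Icc 1 X).filter (fun n => ∃ k, 1 ≤ k ∧ k ≤ K ∧ T (k * n))).card : ℝ) ≤ 4 * X / A
      + 3 * X * (Real.log (1 + Real.log y) * mu y) / D ^ 2
      + ((Icc 1 (K * X)).filter T).card * Real.exp (mu y + D + 5 / 2 * (A + 1)) := by
  have h1 := typ_inj T X K y hK A (mu y + D)
  have h2 := card_LL X y hA
  have h3 := card_ff X y hy hD
  have h4 : (Icc 1 X).filter (fun n => ∃ k, 1 ≤ k ∧ k ≤ K ∧ T (k * n)) ⊆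
      ((Icc 1 X).filter (fun n => A * (1 + Real.log y) < LL y n) ∪
        (Icc 1 X).filter (fun n => mu y + D < ff y n)) ∪
      ((Icc 1 X).filter (fun n => ∃ k, 1 ≤ k ∧ k ≤ K ∧ T (k * n))).filter
        (fun n => LL y n ≤ A * (1 + Real.log y) ∧ ff y n ≤ mu y + D) := by
    intro n hn
    by_cases h : LL y n ≤ A * (1 + Real.log y) ∧ ff y n ≤ mu y + D
    · exact mem_union_right _ (mem_filter.2 ⟨hn, h⟩)
    · apply mem_union_left
      rw [not_and_or, not_le, not_le] at h
      rcases h with h | h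
      · exact mem_union_left _ (mem_filter.2 ⟨(mem_filter.1 hn).1, h⟩)
      · exact mem_union_right _ (mem_filter.2 ⟨(mem_filter.1 hn).1, h⟩)
  have h5 := (card_le_card h4).trans ((card_union_le _ _).trans
    (Nat.add_le_add_right (card_union_le _ _) _))
  have h6 := (Nat.cast_le (α := ℝ)).2 h5
  push_cast at h6
  linarith

open Classical in
theorem typ_main (T : ℕ → Prop) (C : ℝ) (hC : 0 < C)
    (hT : ∀ᶠ X : ℕ in atTop, ∀ K : ℕ,
      (((Icc 1 (K * X)).filter T).card : ℝ) ≤ C * (K * X / Real.log X))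
    (δ : ℝ) (hδ : 0 < δ) :
    ∃ B : ℝ, ∀ᶠ X : ℕ in atTop, (((Icc 1 X).filter (fun n => ∃ k : ℕ, 1 ≤ k ∧
        (k : ℝ) ≤ Real.log X * Real.exp (-(Real.log (Real.log (Real.log X)) ^ 2 / 2
          + B * Real.log (Real.log (Real.log X)) ^ (3 / 2 : ℝ))) ∧ T (k * n))).card : ℝ)
      ≤ δ * X := by
  set B := √(1422 / δ) with hB
  have hB0 : 0 < B := Real.sqrt_pos.2 (by positivity)
  have hB2 : B ^ 2 = 1422 / δ := Real.sq_sqrt (by positivity)
  set c0 : ℝ := 5 / 2 * (12 / δ + 1) with hc0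
  refine ⟨B + 1, ?_⟩
  have ht := Real.tendsto_log_atTop.comp tendsto_loglog
  filter_upwards [hT, tendsto_loglog.eventually_ge_atTop 1, ht.eventually_ge_atTop (79 ^ 2),
    ht.eventually_ge_atTop (c0 + Real.log (3 * C / δ)), eventually_ge_atTop 3] with X a1 a2 a3 a4 a5
  simp only [Function.comp] at a3 a4
  have hX : (3 : ℝ) ≤ X := by exact_mod_cast a5
  have hL : 1 ≤ Real.log X := by
    rw [Real.le_log_iff_exp_le (by linarith)]
    linarith [Real.exp_one_lt_d9]
  have hLX : Real.log X ≤ X := (Real.log_le_sub_one_of_pos (by linarith)).trans (by linarith)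
  set L := Real.log X with hLd
  set L2 := Real.log L with hL2
  set t := Real.log L2 with htd
  have ht0 : 0 < t := by linarith
  have hs : t ^ (3 / 2 : ℝ) = t * √t := by
    rw [Real.sqrt_eq_rpow, show (3 / 2 : ℝ) = 1 + 1 / 2 by norm_num, Real.rpow_add ht0,
      Real.rpow_one]
  rw [hs]
  have hr : 79 ≤ √t := Real.le_sqrt_of_sq_le a3
  have hr2 : √t * √t = t := Real.mul_self_sqrt ht0.le
  set s := t * √t with hsd
  have hs0 : 79 * t ≤ s := by nlinarith
  have hs2 : s ^ 2 = t ^ 3 := by rw [hsd, mul_pow, Real.sq_sqrt ht0.le]; ring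
  set y := ⌊L⌋₊ with hy
  set R := L * Real.exp (-(t ^ 2 / 2 + (B + 1) * s)) with hR
  set K := ⌊R⌋₊ with hK
  have hKy : K ≤ y := by
    apply Nat.floor_le_floor
    apply mul_le_of_le_one_right (by linarith)
    rw [Real.exp_le_one_iff]
    have : 0 ≤ (B + 1) * s := mul_nonneg (by linarith) (by linarith)
    nlinarith
  have hy1 : (y : ℝ) ≤ L := Nat.floor_le (by linarith)
  have hyX : y ≤ X := by exact_mod_cast hy1.trans hLX
  have c1 := count_ineq T X K y hKy hyX (A := 12 / δ) (D := B * s) (by positivity)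
    (mul_pos hB0 (by linarith))
  have c2 : Real.log y ≤ L2 := by
    rcases Nat.eq_zero_or_pos y with h0 | h0
    · rw [h0]; simp; linarith
    · exact Real.log_le_log (by exact_mod_cast h0) hy1
  set l := Real.log (1 + Real.log y) with hl
  have hl0 : 0 ≤ l := Real.log_nonneg (by linarith [Real.log_natCast_nonneg y])
  have c3 : l ≤ t + 1 := by
    calc l ≤ Real.log (2 * L2) := Real.log_le_log (one_add_log_pos y) (by linarith)
      _ = Real.log 2 + t := Real.log_mul (by norm_num) (by linarith)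
      _ ≤ t + 1 := by linarith [Real.log_two_lt_d9]
  have c4 : mu y ≤ t ^ 2 / 2 + 78 * t := by
    have := mu_le y
    nlinarith
  have hμ := mu_nonneg y
  have c5 : 4 * (X : ℝ) / (12 / δ) = δ / 3 * X := by field_simp; ring
  have c6 : 3 * X * (l * mu y) / (B * s) ^ 2 ≤ δ / 3 * X := by
    rw [mul_pow, hB2, hs2, div_le_iff₀ (by positivity)]
    have d1 : l * mu y ≤ 2 * t * (79 * t ^ 2) := by
      gcongr
      · linarith
      · nlinarith
    calc 3 * X * (l * mu y) ≤ 3 * X * (2 * t * (79 * t ^ 2)) := by gcongr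
      _ = δ / 3 * X * (1422 / δ * t ^ 3) := by field_simp; ring
  have c7 : (K : ℝ) ≤ R := Nat.floor_le (by positivity)
  have c8 : ((Icc 1 (K * X)).filter T).card * Real.exp (mu y + B * s + 5 / 2 * (12 / δ + 1))
      ≤ δ / 3 * X := by
    calc _ ≤ C * (R * X / L) * Real.exp (mu y + B * s + c0) := by
          gcongr
          refine (a1 K).trans ?_
          gcongr
      _ = C * X * Real.exp (-(t ^ 2 / 2 + (B + 1) * s) + (mu y + B * s + c0)) := by
          rw [Real.exp_add (-(t ^ 2 / 2 + (B + 1) * s)), hR]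
          field_simp
      _ ≤ C * X * Real.exp (-Real.log (3 * C / δ)) := by
          gcongr
          linarith
      _ = δ / 3 * X := by
          rw [Real.exp_neg, Real.exp_log (by positivity)]
          field_simp
  have c9 : (Icc 1 X).filter (fun n => ∃ k : ℕ, 1 ≤ k ∧ (k : ℝ) ≤ R ∧ T (k * n)) ⊆
      (Icc 1 X).filter (fun n => ∃ k, 1 ≤ k ∧ k ≤ K ∧ T (k * n)) := by
    intro n hn
    rw [mem_filter] at hn ⊢
    obtain ⟨k, h1, h2, h3⟩ := hn.2
    exact ⟨hn.1, k, h1, Nat.le_floor h2, h3⟩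
  have c10 := (Nat.cast_le (α := ℝ)).2 (card_le_card c9)
  linarith

end Pool.Agent.Lib.MP_be93de_nt
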