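import Pool.Agent.Lib.MP_be93de_nt.Brun
import Pool.Agent.Lib.MP_be93de_nt.Typ2

namespace Pool.Agent.Lib.MP_be93de_nt.OldTypical

open Filter

/-- For all but `δ X` integers `n ≤ X`, the number `p_{kn} + 2` is not prime for any
`1 ≤ k ≤ log X * exp (-(t ^ 2 / 2 + B t ^ (3 / 2)))`, where `t = log log log X`.
Here `p_m = Nat.nth Nat.Prime (m - 1)`. -/
theorem result (δ : ℝ) (hδ : 0 < δ) : ∃ B : ℝ, ∀ᶠ X : ℕ in atTop,
    ({n : ℕ | 1 ≤ n ∧ n ≤ X ∧ ∃ k : ℕ, 1 ≤ k ∧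
        (k : ℝ) ≤ Real.log X * Real.exp (-(Real.log (Real.log (Real.log X)) ^ 2 / 2
          + B * Real.log (Real.log (Real.log X)) ^ (3 / 2 : ℝ))) ∧
        (Nat.nth Nat.Prime (k * n - 1) + 2).Prime}.ncard : ℝ) ≤ δ * X := by
  classical
  obtain ⟨C, hC, hT⟩ := Pool.Agent.Lib.MP_be93de_nt.index_bound
  obtain ⟨B, h⟩ := Pool.Agent.Lib.MP_be93de_nt.typ_main
    (fun m => (Nat.nth Nat.Prime (m - 1) + 2).Prime) C hC
    (hT.mono fun X hX K => by rw [Finset.filter_congr_decidable]; exact hX K) δ hδ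
  refine ⟨B, h.mono fun X hX => le_trans (le_of_eq ?_) hX⟩
  rw [← Set.ncard_coe_finset]
  congr 2
  ext n
  simp only [Finset.coe_filter, Finset.mem_Icc, Set.mem_ofPred_eq, and_assoc]

end Pool.Agent.Lib.MP_be93de_nt.OldTypical
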