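import Pool.Agent.Lib.MP_28260b_nt.May1

/-! An upper bound for the Maynard weights summed over primes. -/

namespace Pool.Agent.Lib.MP_be93de_nt.Pa

open Finset Pool.Agent.Lib.MP_6a20cc_nt Pool.Agent.Lib.SW Pool.Agent.Lib.MP_28260b_nt

variable {k : ℕ}

/-- majorant of the Gram matrix over the invertible residues -/
noncomputable def B3 (p : ℝ) (m : Fin k) (s t : Option (Fin k)) : ℝ :=
  (1 + 2 / p ^ 2) * (chi p m s * chi p m t) + 1 / (p - 1) * (if s = t then eta m s else 0)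

lemma psd_A2' {p : ℝ} (hp : 4 * k + 1 ≤ p) (m : Fin k) : Psd (A2 p m) := by
  have h1 := psd_B2 hp m
  have h2 := psd_A2 hp m
  refine ⟨fun s t => by linarith [h1.1 s t, h2.1 s t], fun c => ?_⟩
  refine le_of_le_of_eq (add_nonneg (h1.2 c) (h2.2 c)) ?_
  simp only [← sum_add_distrib]
  exact sum_congr rfl fun s _ => sum_congr rfl fun t _ => by ring

lemma psd_B3 {p : ℝ} (hp : 2 ≤ p) (m : Fin k) : Psd (fun s t => B3 p m s t - A2 p m s t) := by
  refine ⟨fun s t => ?_, fun c => ?_⟩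
  · beta_reduce
    unfold A2 B3
    by_cases h : s = t
    · rw [h]
    · rw [if_neg h, if_neg (Ne.symm h)]; ring
  · set u := ∑ s, c s * chi p m s with hu
    set S := ∑ s, c s * eta m s with hS
    have e : ∑ s, ∑ t, c s * c t * (B3 p m s t - A2 p m s t)
        = (1 + 2 / p ^ 2) * u ^ 2 - (u + (1 / p - 1 / (p - 1)) * S) ^ 2
          + 1 / (p - 1) ^ 2 * S ^ 2 := by
      have e1 : u + (1 / p - 1 / (p - 1)) * S
          = ∑ s, c s * (chi p m s + (1 / p - 1 / (p - 1)) * eta m s) := by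
        simp only [hu, hS, Finset.mul_sum, ← sum_add_distrib]
        exact sum_congr rfl fun s _ => by ring
      rw [e1, hu, hS, ← quad_outer, ← quad_outer, ← quad_outer]
      simp only [Finset.mul_sum, ← sum_add_distrib, ← sum_sub_distrib, A2, B3]
      exact sum_congr rfl fun s _ => sum_congr rfl fun t _ => by ring
    rw [e]
    have hp0 : 0 < p := by linarith
    have hp1 : 0 < p - 1 := by linarith
    have e2 : (1 + 2 / p ^ 2) * u ^ 2 - (u + (1 / p - 1 / (p - 1)) * S) ^ 2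
          + 1 / (p - 1) ^ 2 * S ^ 2
        = 2 * (u / p + S / (p - 1) / 2) ^ 2 + (p ^ 2 - 2) / (2 * p ^ 2) * (S / (p - 1)) ^ 2 := by
      field_simp
      ring
    rw [e2]
    have h3 : 0 ≤ p ^ 2 - 2 := by nlinarith
    positivity

variable {ι : Type} [Fintype ι] [DecidableEq ι] {pr : ι → ℕ} [∀ p, Fact (pr p).Prime]

theorem S2_le (r : (p : ι) → Fin k → ZMod (pr p))
    (hr : ∀ p, Function.Injective (r p)) {m : Fin k} (hm : ∀ p, r p m = 0)
    (hp : ∀ p, 4 * (k : ℝ) + 1 ≤ pr p) (c : (ι → Option (Fin k)) → ℝ) {Fm : ℝ} {R : ℕ}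
    (hc : ∀ ω, |c ω| ≤ Fm) (hs : ∀ ω, c ω ≠ 0 → ∏ p, (ω p).elim 1 (fun _ => pr p) ≤ R)
    (hpR : ∀ p, pr p ≤ R) {D c₀ X : ℕ} (hRX : R ≤ X) (hX : 0 < X) (E : Finset ι → ℝ)
    (hE0 : ∀ f, 0 ≤ E f)
    (hE : ∀ (f : Finset ι) (ψ : (p : ι) → ZMod (pr p) → ℝ), f.Nonempty → ∏ p ∈ f, pr p ≤ R ^ 2 →
      (∀ p ∈ f, ψ p 0 = 0) → (∀ p ∈ f, ∑ t, ψ p t = 0) →
      |∑ n ∈ Ioc 0 X, lam n * PS D c₀ f ψ n| ≤ kap f ψ * E f) :
    ∑ x ∈ Ioc R X with x ≡ c₀ [MOD D], lam x * ff r c x ^ 2 ≤
      (∑ x ∈ Ioc R X with x ≡ c₀ [MOD D], lam x) * QF (fun p => B3 (pr p) m) c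
      + Fm ^ 2 * (∏ p, (1 + ((5 * (k + 1) ^ 2 : ℕ) : ℝ) / pr p)) *
        (∑ f, ((5 * (k + 1) ^ 2 : ℕ) : ℝ) ^ #f * E f
          + R * Real.log X * (R ^ 2 * ∏ p, (1 + ((5 * (k + 1) ^ 2 : ℕ) : ℝ) / pr p))) := by
  set K : ℝ := ((5 * (k + 1) ^ 2 : ℕ) : ℝ) with hK
  have hK0 : 0 ≤ K := Nat.cast_nonneg _
  set Pe := ∏ p, (1 + K / pr p) with hPe
  set L := Real.log X with hL
  have hL0 : 0 ≤ L := Real.log_natCast_nonneg X
  have hFm : 0 ≤ Fm := (abs_nonneg _).trans (hc fun _ => none)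
  set G : (ι → Option (Fin k)) → (ι → Option (Fin k)) → (p : ι) → ZMod (pr p) → ℝ :=
    fun ω ω' p x => loc (r p) (ω p) x * loc (r p) (ω' p) x with hG
  set T : Finset ι → ((p : ι) → ZMod (pr p) → ℝ) → ℝ :=
    fun f ψ => ∑ x ∈ Ioc R X, lam x * PS D c₀ f ψ x with hT
  set trm : Finset ι → (ι → Option (Fin k)) → (ι → Option (Fin k)) → ℝ := fun f ω ω' =>
    c ω * c ω' * ((∏ p ∈ univ \ f, um (G ω ω' p)) * T f fun p => nw (G ω ω' p)) with htrm
  have e1 : ∑ x ∈ Ioc R X with x ≡ c₀ [MOD D], lam x * ff r c x ^ 2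
      = ∑ f, ∑ ω, ∑ ω', trm f ω ω' := by
    symm
    rw [sum_comm]
    simp only [ff_sq, Finset.mul_sum]
    rw [sum_comm (s := (Ioc R X).filter _)]
    refine sum_congr rfl fun ω _ => ?_
    rw [sum_comm, sum_comm (s := (Ioc R X).filter _)]
    refine sum_congr rfl fun ω' _ => ?_
    simp only [htrm, hT, Finset.mul_sum]
    rw [sum_comm, sum_filter]
    refine sum_congr rfl fun x hx => ?_
    by_cases hx2 : x.Prime
    · unfold PS
      split_ifs
      · have e2 : ∏ p, G ω ω' p x = ∏ p, (nw (G ω ω' p) x + um (G ω ω' p)) := by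
          refine prod_congr rfl fun p _ => ?_
          have : (x : ZMod (pr p)) ≠ 0 := by
            rw [Ne, ZMod.natCast_eq_zero_iff, Nat.prime_dvd_prime_iff_eq Fact.out hx2]
            have := (mem_Ioc.1 hx).1
            have := hpR p
            omega
          simp [nw, this]
        change _ = lam x * (c ω * c ω' * ∏ p, G ω ω' p x)
        rw [e2, prod_add, powerset_univ, Finset.mul_sum, Finset.mul_sum]
        exact sum_congr rfl fun f _ => by ring
      · simp
    · simp [lam, hx2]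
  have e2 : ∑ ω, ∑ ω', trm ∅ ω ω'
      = (∑ x ∈ Ioc R X with x ≡ c₀ [MOD D], lam x) * QF (fun p => A2 (pr p) m) c := by
    rw [QF, Finset.mul_sum]
    refine sum_congr rfl fun ω _ => ?_
    rw [Finset.mul_sum]
    refine sum_congr rfl fun ω' _ => ?_
    simp only [htrm, hT, hG, sdiff_empty, um_loc (hr _) (hm _), PS, prod_empty, sum_filter, mul_ite,
      mul_one, mul_zero]
    ring
  have e3 : QF (fun p => A2 (pr p) m) c ≤ QF (fun p => B3 (pr p) m) c :=
    QF_mono _ _ (fun p => psd_A2' (hp p) m) (fun p => psd_B3 p_two m) c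
  set E' : Finset ι → ℝ := fun f => E f + if ∏ p ∈ f, pr p ≤ R ^ 2 then R * L else 0 with hE'
  have hE'0 : ∀ f, 0 ≤ E' f := fun f => add_nonneg (hE0 f) (by split_ifs <;> positivity)
  set mm : Finset ι → ι → Option (Fin k) → Option (Fin k) → ℝ := fun f p s t =>
    if p ∈ f then (if s = none ∧ t = none then 0 else 5)
      else (if s = none ∧ t = none then 1 else 5 / (pr p : ℝ)) with hmm
  have hmm0 : ∀ f p s t, 0 ≤ mm f p s t := fun f p s t => by
    simp only [hmm]; split_ifs <;> positivity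
  have e4 : ∀ f : Finset ι, f.Nonempty → ∀ ω ω',
      |trm f ω ω'| ≤ Fm ^ 2 * E' f * ∏ p, mm f p (ω p) (ω' p) := by
    intro f hf ω ω'
    have h0 : 0 ≤ Fm ^ 2 * E' f * ∏ p, mm f p (ω p) (ω' p) :=
      mul_nonneg (mul_nonneg (sq_nonneg _) (hE'0 f)) (prod_nonneg fun p _ => hmm0 ..)
    have hk := kap_nonneg f fun p => nw (G ω ω' p)
    have hsm : ∀ s : Finset ℕ, (∀ x ∈ s, x ≤ X) →
        |∑ x ∈ s, lam x * PS D c₀ f (fun p => nw (G ω ω' p)) x|
          ≤ #s * L * kap f fun p => nw (G ω ω' p) := by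
      intro s hsX
      refine (abs_sum_mul_le _ _ _ _ fun n _ => abs_PS_le D c₀ f _ n).trans ?_
      gcongr
      rw [← nsmul_eq_mul]
      refine sum_le_card_nsmul _ _ _ fun n hn => ?_
      rw [abs_of_nonneg (lam_nonneg n)]
      exact lam_le (by exact_mod_cast hsX n hn) (by exact_mod_cast hX)
    have k1 : kap f (fun p => nw (G ω ω' p))
        ≤ ∏ p ∈ f, (if ω p = none ∧ ω' p = none then (0 : ℝ) else 5) :=
      prod_le_prod (fun p _ => by positivity) fun p _ => (abs_um_loc (r p) (ω p) (ω' p)).2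
    by_cases h1 : c ω = 0
    · simpa only [htrm, h1, zero_mul, abs_zero] using h0
    by_cases h2 : c ω' = 0
    · simpa only [htrm, h2, zero_mul, mul_zero, abs_zero] using h0
    by_cases h3 : ∃ p ∈ f, ω p = none ∧ ω' p = none
    · obtain ⟨p, hpf, h3⟩ := h3
      rw [prod_eq_zero (f := fun p => if ω p = none ∧ ω' p = none then (0 : ℝ) else 5) hpf
        (if_pos h3)] at k1
      have := hsm (Ioc R X) fun x hx => (mem_Ioc.1 hx).2
      rw [le_antisymm k1 hk, mul_zero, abs_nonpos_iff] at this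
      simpa only [htrm, hT, this, mul_zero, abs_zero] using h0
    have h4 : ∏ p ∈ f, pr p ≤ R ^ 2 := by
      refine le_trans ?_ ((Nat.mul_le_mul (hs ω h1) (hs ω' h2)).trans_eq (sq R).symm)
      rw [← prod_mul_distrib]
      have h5 : ∀ p, ∀ s : Option (Fin k), 1 ≤ s.elim 1 (fun _ => pr p) := fun p s => by
        rcases s with _ | _
        exacts [le_rfl, (Fact.out : (pr p).Prime).pos]
      refine le_trans (prod_le_prod' fun p hpf => ?_) (prod_le_prod_of_subset_of_one_le'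
        (subset_univ f) fun p _ _ => Nat.mul_pos (h5 p _) (h5 p _))
      have h6 : ¬ (ω p = none ∧ ω' p = none) := fun h => h3 ⟨p, hpf, h⟩
      have := (Fact.out : (pr p).Prime).pos
      rcases h7 : ω p with _ | _ <;> rcases h8 : ω' p with _ | _
      · exact absurd ⟨h7, h8⟩ h6
      · simp
      · simp
      · exact Nat.le_mul_of_pos_left _ this
    have h5 : |T f fun p => nw (G ω ω' p)| ≤ (kap f fun p => nw (G ω ω' p)) * E' f := by
      have a1 := hE f (fun p => nw (G ω ω' p)) hf h4 (fun p _ => nw_zero _) fun p _ => sum_nw _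
      have a2 := hsm (Ioc 0 R) fun x hx => (mem_Ioc.1 hx).2.trans hRX
      have a3 := sum_Ioc_consecutive (fun x => lam x * PS D c₀ f (fun p => nw (G ω ω' p)) x)
        (Nat.zero_le R) hRX
      simp only [Nat.card_Ioc, Nat.sub_zero] at a2
      simp only [hT, hE', if_pos h4]
      rw [abs_le] at a1 a2 ⊢
      constructor <;> linarith [a1.1, a1.2, a2.1, a2.2]
    have h6 : |∏ p ∈ univ \ f, um (G ω ω' p)|
        ≤ ∏ p ∈ univ \ f, (if ω p = none ∧ ω' p = none then (1 : ℝ) else 5 / (pr p : ℝ)) := by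
      rw [abs_prod]
      exact prod_le_prod (fun p _ => abs_nonneg _) fun p _ => (abs_um_loc (r p) (ω p) (ω' p)).1
    have h7 : ∏ p, mm f p (ω p) (ω' p)
        = (∏ p ∈ univ \ f, (if ω p = none ∧ ω' p = none then (1 : ℝ) else 5 / (pr p : ℝ)))
          * ∏ p ∈ f, (if ω p = none ∧ ω' p = none then (0 : ℝ) else 5) := by
      rw [← prod_sdiff (subset_univ f)]
      congr 1
      · exact prod_congr rfl fun p hp => if_neg (mem_sdiff.1 hp).2
      · exact prod_congr rfl fun p hp => if_pos hp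
    have h8 := hE'0 f
    have h9 := (abs_nonneg _).trans h6
    simp only [htrm, abs_mul]
    calc _ ≤ Fm * Fm * ((∏ p ∈ univ \ f,
            (if ω p = none ∧ ω' p = none then (1 : ℝ) else 5 / (pr p : ℝ)))
            * ((∏ p ∈ f, (if ω p = none ∧ ω' p = none then (0 : ℝ) else 5)) * E' f)) := by
          gcongr
          exacts [hc ω, hc ω', h5.trans (mul_le_mul_of_nonneg_right k1 h8)]
      _ = _ := by rw [h7]; ring
  have e5 : ∀ f : Finset ι, ∑ ω : ι → Option (Fin k), ∑ ω' : ι → Option (Fin k),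
      ∏ p, mm f p (ω p) (ω' p) ≤ K ^ #f * Pe := by
    intro f
    have a1 : ∑ ω : ι → Option (Fin k), ∑ ω' : ι → Option (Fin k), ∏ p, mm f p (ω p) (ω' p)
        = ∏ p, ∑ s, ∑ t, mm f p s t := by
      simp only [prod_univ_sum, Fintype.piFinset_univ]
    have a2 : K ^ #f * Pe = ∏ p, ((if p ∈ f then K else 1) * (1 + K / pr p)) := by
      rw [prod_mul_distrib, prod_ite_mem, univ_inter, prod_const]
    rw [a1, a2]
    refine prod_le_prod (fun p _ => sum_nonneg fun s _ => sum_nonneg fun t _ => hmm0 ..)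
      fun p _ => ?_
    have hpp := p_pos (p := pr p)
    simp only [hmm]
    split_ifs
    · calc _ ≤ ∑ s : Option (Fin k), ∑ t : Option (Fin k), (5 : ℝ) :=
            sum_le_sum fun s _ => sum_le_sum fun t _ => by split_ifs <;> norm_num
        _ = K := by simp [hK]; ring
        _ ≤ _ := le_mul_of_one_le_right hK0 (le_add_of_nonneg_right (by positivity))
    · calc _ ≤ ∑ s : Option (Fin k), ∑ t : Option (Fin k),
            ((if s = none ∧ t = none then (1 : ℝ) else 0) + 5 / pr p) :=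
            sum_le_sum fun s _ => sum_le_sum fun t _ => by
              split_ifs
              · exact le_add_of_nonneg_right (by positivity)
              · simp
        _ = _ := by
            simp only [sum_add_distrib, ite_and, Finset.sum_ite_irrel, sum_ite_eq', mem_univ,
              if_true, sum_const_zero]
            simp [hK]; ring
  have hPe0 : 0 ≤ Pe := by positivity
  have e6 : ∀ f : Finset ι, f.Nonempty →
      ∑ ω, ∑ ω', trm f ω ω' ≤ Fm ^ 2 * Pe * (K ^ #f * E' f) := by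
    intro f hf
    refine le_of_abs_le ((abs_sum_le_sum_abs _ _).trans ((sum_le_sum fun ω _ =>
      (abs_sum_le_sum_abs _ _).trans (sum_le_sum fun ω' _ => e4 f hf ω ω')).trans ?_))
    simp only [← Finset.mul_sum]
    have := mul_le_mul_of_nonneg_left (e5 f) (mul_nonneg (sq_nonneg Fm) (hE'0 f))
    linarith
  have e7 : ∑ f, K ^ #f * E' f ≤ ∑ f, K ^ #f * E f + R * L * (R ^ 2 * Pe) := by
    simp only [hE', mul_add, sum_add_distrib]
    gcongr
    rw [hPe, prod_one_add, powerset_univ, Finset.mul_sum, Finset.mul_sum]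
    refine sum_le_sum fun f _ => ?_
    have hq0 : (0 : ℝ) < (∏ p ∈ f, pr p : ℕ) := by exact_mod_cast prod_pr_pos (pr := pr) f
    split_ifs with h
    · rw [prod_div_distrib, prod_const, ← Nat.cast_prod, mul_comm]
      gcongr
      rw [← mul_div_assoc, le_div_iff₀ hq0, mul_comm]
      gcongr
      exact_mod_cast h
    · rw [mul_zero]; positivity
  rw [e1, ← add_sum_erase _ (fun f => ∑ ω, ∑ ω', trm f ω ω') (mem_univ ∅), e2]
  have e8 : ∑ f ∈ univ.erase ∅, ∑ ω, ∑ ω', trm f ω ω' ≤ Fm ^ 2 * Pe * ∑ f, K ^ #f * E' f := by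
    refine le_trans (sum_le_sum fun f hf => e6 f (nonempty_iff_ne_empty.2 (ne_of_mem_erase hf))) ?_
    rw [Finset.mul_sum]
    exact sum_le_sum_of_subset_of_nonneg (erase_subset _ _) fun f _ _ => by
      have := hE'0 f; positivity
  have e9 := mul_le_mul_of_nonneg_left e3
    (sum_nonneg (s := (Ioc R X).filter (· ≡ c₀ [MOD D])) fun x _ => lam_nonneg x)
  have e10 := mul_le_mul_of_nonneg_left e7 (show 0 ≤ Fm ^ 2 * Pe by positivity)
  linarith

end Pool.Agent.Lib.MP_be93de_nt.Pa
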