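import Pool.Agent.Lib.MP_be93de_nt.Pa1

/-! A Selberg majorant inside the Maynard weights. -/

namespace Pool.Agent.Lib.MP_be93de_nt.Pa

open Finset Pool.Agent.Lib.MP_6a20cc_nt Pool.Agent.Lib.MP_28260b_nt

lemma sum_inj {κ μ : Type} [DecidableEq μ] (s : Finset κ) (t : Finset μ) (ψ : κ → μ) (f : μ → ℝ)
    (h : ∀ i, 0 ≤ f i) (inj : ∀ x ∈ s, ∀ y ∈ s, ψ x = ψ y → x = y) (hs : ∀ x ∈ s, ψ x ∈ t) :
    ∑ i ∈ s, f (ψ i) ≤ ∑ i ∈ t, f i := by
  rw [← sum_image inj]
  refine sum_le_sum_of_subset_of_nonneg (fun y hy => ?_) fun _ _ _ => h _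
  obtain ⟨x, hx, rfl⟩ := mem_image.1 hy; exact hs x hx

variable {ι : Type} [DecidableEq ι]

lemma anti_le (x y : ι → ℝ) (hy : ∀ p, 0 ≤ y p) (hxy : ∀ p, y p ≤ x p) (F : Finset ι) :
    ∀ Q : Finset ι → ℝ, (∀ S, 0 ≤ Q S) → Antitone Q → ∑ S ∈ F.powerset, Q S * ∏ p ∈ S, x p ≤
      (∏ p ∈ F, (1 + (x p - y p))) * ∑ S ∈ F.powerset, Q S * ∏ p ∈ S, y p := by
  induction F using Finset.induction_on with
  | empty => simp
  | insert a F ha ih =>
    intro Q h0 hQ
    have e : ∀ z : ι → ℝ, ∑ S ∈ F.powerset, Q (insert a S) * ∏ p ∈ insert a S, z p =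
        z a * ∑ S ∈ F.powerset, Q (insert a S) * ∏ p ∈ S, z p := fun z => by
      rw [mul_sum]
      refine sum_congr rfl fun S hS => ?_
      rw [prod_insert fun h => ha (mem_powerset.1 hS h)]; ring
    rw [sum_powerset_insert ha, sum_powerset_insert ha, prod_insert ha, e, e]
    have a1 := ih Q h0 hQ
    have a2 := ih (fun S => Q (insert a S)) (fun _ => h0 _) fun S T h => hQ (insert_subset_insert a h)
    have a3 : ∑ S ∈ F.powerset, Q (insert a S) * ∏ p ∈ S, y p ≤
        ∑ S ∈ F.powerset, Q S * ∏ p ∈ S, y p := sum_le_sum fun S _ =>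
      mul_le_mul_of_nonneg_right (hQ (subset_insert a S)) (prod_nonneg fun p _ => hy p)
    have a4 : 0 ≤ ∑ S ∈ F.powerset, Q (insert a S) * ∏ p ∈ S, y p :=
      sum_nonneg fun S _ => mul_nonneg (h0 _) (prod_nonneg fun p _ => hy p)
    have a5 : 0 ≤ ∏ p ∈ F, (1 + (x p - y p)) := prod_nonneg fun p _ => by linarith [hxy p]
    have a6 := sub_nonneg.2 (hxy a)
    have a7 := mul_le_mul_of_nonneg_left a2 ((hy a).trans (hxy a))
    nlinarith [mul_nonneg a5 (mul_nonneg a6 (sub_nonneg.2 a3)),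
      mul_nonneg a5 (mul_nonneg a6 (mul_nonneg (hy a) a4))]

variable [Fintype ι] {k : ℕ}

/-- the primes in a given state -/
def fib (ω : ι → Option (Fin k)) (i : Fin k) : Finset ι := univ.filter fun p => ω p = some i

lemma sum_fib_le (φ : Fin k → Finset ι → ℝ) (h : ∀ i S, 0 ≤ φ i S) :
    ∑ ω : ι → Option (Fin k), ∏ i, φ i (fib ω i) ≤ ∏ i, ∑ S, φ i S := by
  rw [prod_univ_sum]
  refine sum_inj univ _ fib (fun τ => ∏ i, φ i (τ i)) (fun τ => prod_nonneg fun i _ => h _ _)
    (fun ω _ ω' _ e => funext fun p => Option.ext fun i => ?_) fun _ _ => by simp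
  simpa [fib] using Finset.ext_iff.1 (congrFun e i) p

variable (pr : ι → ℕ) (m m' : Fin k)

def er (ω : ι → Option (Fin k)) (p : ι) : Option (Fin k) :=
  if ω p = some m ∨ ω p = some m' then none else ω p

noncomputable def uw (ω : ι → Option (Fin k)) : ℝ :=
  ∏ p, if ω p = some m ∨ ω p = some m' then 1 / (pr p : ℝ) else 1

noncomputable def Mg (c : (ι → Option (Fin k)) → ℝ) (ν : ι → Option (Fin k)) : ℝ :=
  ∑ ω with er m m' ω = ν, c ω * uw pr m m' ω

noncomputable def sg (Z : ℕ) (ω : ι → Option (Fin k)) : ℝ :=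
  if (∀ p, ω p ≠ some m) ∧ tt pr ω m' < Z then
    ∏ p, (if ω p = some m' then 1 - 1 / (pr p : ℝ) else 1) else 0

noncomputable def cp (Z : ℕ) (c : (ι → Option (Fin k)) → ℝ) (ω : ι → Option (Fin k)) : ℝ :=
  sg pr m m' Z ω * (Mg pr m m' c (er m m' ω) / Mg pr m m' (sg pr m m' Z) (er m m' ω))

variable {pr m m'} [∀ p, Fact (pr p).Prime]

omit [DecidableEq ι] [Fintype ι] in
lemma er_ne (ω : ι → Option (Fin k)) (p : ι) : ¬ (er m m' ω p = some m ∨ er m m' ω p = some m') := by
  unfold er; split_ifs with h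
  exacts [by simp, h]

omit [DecidableEq ι] [Fintype ι] in
lemma er_er (ω : ι → Option (Fin k)) : er m m' (er m m' ω) = er m m' ω :=
  funext fun p => if_neg (er_ne ω p)

omit [DecidableEq ι] in
lemma fib_er (ω : ι → Option (Fin k)) (i : Fin k) :
    fib (er m m' ω) i = if i = m ∨ i = m' then ∅ else fib ω i := by
  ext p
  unfold fib er
  split_ifs with h1 <;> simp only [mem_filter, mem_univ, true_and, notMem_empty, iff_false]
  · split_ifs with h2
    · simp
    · rcases h1 with rfl | rfl <;> tauto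
  · split_ifs with h2
    · rcases h2 with h2 | h2 <;> simp [h2] <;> tauto
    · rfl

omit [DecidableEq ι] [Fintype ι] in
lemma u_bd (p : ι) : 0 < 1 / (pr p : ℝ) ∧ 1 / (pr p : ℝ) ≤ 1 / 2 := by
  have := p_two (p := pr p)
  exact ⟨by positivity, by gcongr⟩

omit [DecidableEq ι] in
lemma uw_nonneg (ω : ι → Option (Fin k)) : 0 ≤ uw pr m m' ω :=
  prod_nonneg fun p _ => by split_ifs <;> positivity

omit [DecidableEq ι] in
lemma sg_bd (Z : ℕ) (ω : ι → Option (Fin k)) : 0 ≤ sg pr m m' Z ω ∧ sg pr m m' Z ω ≤ 1 := by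
  have h : ∀ p, 0 ≤ (if ω p = some m' then 1 - 1 / (pr p : ℝ) else 1) ∧
      (if ω p = some m' then 1 - 1 / (pr p : ℝ) else 1) ≤ 1 := fun p => by
    have := u_bd (pr := pr) p
    split_ifs <;> constructor <;> linarith
  unfold sg; split_ifs
  · exact ⟨prod_nonneg fun p _ => (h p).1, prod_le_one (fun p _ => (h p).1) fun p _ => (h p).2⟩
  · simp

lemma ff_eq (r : (p : ι) → Fin k → ZMod (pr p)) (c : (ι → Option (Fin k)) → ℝ) {n : ℕ}
    (h : ∀ p, (n : ZMod (pr p)) ≠ r p m ∧ (n : ZMod (pr p)) ≠ r p m') :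
    ff r c n = ∑ ν, Mg pr m m' c ν * ∏ p, loc (r p) (ν p) (n : ZMod (pr p)) := by
  rw [ff, ← sum_fiberwise univ (er m m')]
  refine sum_congr rfl fun ν _ => ?_
  rw [Mg, sum_mul]
  refine sum_congr rfl fun ω hω => ?_
  rw [← (mem_filter.1 hω).2, mul_assoc, uw, ← prod_mul_distrib]
  congr 1
  refine prod_congr rfl fun p _ => ?_
  unfold er
  split_ifs with h1
  · rcases h1 with h1 | h1 <;> simp [h1, loc, (h p).1, (h p).2]
  · rw [one_mul]

/-- lower bound for the marginal of the one-dimensional weight -/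
lemma Mg_sg (hm : m ≠ m') (Z : ℕ) (ω : ι → Option (Fin k)) :
    ∑ S : Finset ι, (if ∏ p ∈ S, pr p < Z then (1 : ℝ) else 0) *
      ∏ p ∈ S, (if er m m' ω p = none then 1 / (pr p : ℝ) * (1 - 1 / pr p) else 0) ≤
      Mg pr m m' (sg pr m m' Z) (er m m' ω) := by
  set ν := er m m' ω with hν
  have n1 : ∀ p, ν p ≠ some m ∧ ν p ≠ some m' := fun p => not_or.1 (er_ne ω p)
  rw [← sum_subset (subset_univ (univ.filter fun p => ν p = none).powerset) fun S _ hS => ?_]
  · refine le_trans (le_of_eq (sum_congr rfl fun S hS => ?_)) (sum_inj _ _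
      (fun (S : Finset ι) p => if p ∈ S then some m' else ν p) _
      (fun ω => mul_nonneg (sg_bd Z ω).1 (uw_nonneg ω)) (fun S _ T _ e => ?_) fun S hS => ?_)
    · have h1 : ∀ p, (if p ∈ S then some m' else ν p) = some m' ↔ p ∈ S := fun p => by
        split_ifs with h <;> simp [h, (n1 p).2]
      have h2 : ∀ p, (if p ∈ S then some m' else ν p) ≠ some m := fun p => by
        split_ifs
        exacts [by simpa using hm.symm, (n1 p).1]
      simp only [sg, uw, tt, h1, h2, false_or, ne_eq, not_false_eq_true, implies_true, true_and,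
        filter_mem_eq_inter, univ_inter, prod_ite_mem, ite_mul, one_mul, zero_mul]
      split_ifs
      · rw [← prod_mul_distrib]
        exact prod_congr rfl fun p hp => by
          rw [if_pos (mem_filter.1 (mem_powerset.1 hS hp)).2, mul_comm]
      · rfl
    · ext p
      have := congrFun e p
      have h3 := (n1 p).2
      by_cases h1 : p ∈ S <;> by_cases h2 : p ∈ T <;>
        simp only [h1, h2, if_true, if_false] at this ⊢ <;> simp [this] at h3 ⊢
    · refine mem_filter.2 ⟨mem_univ _, funext fun p => ?_⟩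
      unfold er
      by_cases h : p ∈ S
      · simp [h, (mem_filter.1 (mem_powerset.1 hS h)).2]
      · simp [h, n1 p]
  · obtain ⟨p, h1, h2⟩ := not_subset.1 (mt mem_powerset.2 hS)
    exact mul_eq_zero_of_right _ (prod_eq_zero h1
      (if_neg fun h => h2 (mem_filter.2 ⟨mem_univ _, h⟩)))

lemma one_le_Mg (hm : m ≠ m') {Z : ℕ} (hZ : 1 < Z) (ω : ι → Option (Fin k)) :
    1 ≤ Mg pr m m' (sg pr m m' Z) (er m m' ω) := by
  refine le_trans ?_ (Mg_sg hm Z ω)
  refine le_trans (by simp [hZ]) (single_le_sum (fun S _ => mul_nonneg (by positivity)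
    (prod_nonneg fun p _ => ?_)) (mem_univ ∅))
  have := u_bd (pr := pr) p
  split_ifs
  exacts [mul_nonneg this.1.le (by linarith), le_rfl]

lemma Mg_cp (hm : m ≠ m') {Z : ℕ} (hZ : 1 < Z) (c : (ι → Option (Fin k)) → ℝ)
    (ν : ι → Option (Fin k)) : Mg pr m m' (cp pr m m' Z c) ν = Mg pr m m' c ν := by
  by_cases h : ∃ ω, er m m' ω = ν
  · obtain ⟨ω, rfl⟩ := h
    have h1 := one_le_Mg (pr := pr) hm hZ ω
    rw [← div_mul_cancel₀ (Mg pr m m' c _) (show Mg pr m m' (sg pr m m' Z) (er m m' ω) ≠ 0 by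
      linarith)]
    conv_rhs => enter [2]; rw [Mg]
    rw [Mg, mul_sum]
    refine sum_congr rfl fun ω' h' => ?_
    rw [cp, (mem_filter.1 h').2]; ring
  · simp only [Mg, filter_false_of_mem fun ω _ e => h ⟨ω, e⟩, sum_empty]

lemma QF_cp (hm : m ≠ m') {Z : ℕ} (c : (ι → Option (Fin k)) → ℝ) :
    QF (fun p => B3 (pr p) m) (cp pr m m' Z c) ≤ (∏ p, (1 + 2 / (pr p : ℝ) ^ 2)) *
      ∑ ν, (∏ p, (ν p).elim 1 fun _ => 1 / ((pr p : ℝ) - 1)) *
        (Mg pr m m' c ν ^ 2 / Mg pr m m' (sg pr m m' Z) ν) := by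
  have h0 : ∀ ω, cp pr m m' Z c ω ≠ 0 → ∀ p, ω p ≠ some m := fun ω h => by
    by_contra h1
    exact h (by rw [cp, sg, if_neg fun h2 => h1 h2.1, zero_mul])
  rw [QF, ← sum_fiberwise univ (er m m'), mul_sum]
  refine sum_le_sum fun ν _ => ?_
  have e : ∀ a b : ℝ, a ^ 2 / b = (a / b) ^ 2 * b := fun a b => by
    by_cases h : b = 0
    · simp [h]
    · field_simp
  rw [e]
  conv_rhs => enter [2, 2, 2]; rw [Mg]
  simp only [mul_sum]
  refine sum_le_sum fun ω hω => ?_
  rw [sum_eq_single ω (fun ω' _ hne => ?_) (by simp)]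
  · by_cases h1 : (∀ p, ω p ≠ some m) ∧ tt pr ω m' < Z
    · rw [cp, (mem_filter.1 hω).2]
      calc _ = (Mg pr m m' c ν / Mg pr m m' (sg pr m m' Z) ν) ^ 2 * sg pr m m' Z ω *
            (sg pr m m' Z ω * ∏ p, B3 (pr p) m (ω p) (ω p)) := by ring
        _ ≤ (Mg pr m m' c ν / Mg pr m m' (sg pr m m' Z) ν) ^ 2 * sg pr m m' Z ω *
            ((∏ p, (1 + 2 / (pr p : ℝ) ^ 2)) * ((∏ p, (ν p).elim 1 fun _ => 1 / ((pr p : ℝ) - 1)) *
              uw pr m m' ω)) := by
            refine mul_le_mul_of_nonneg_left ?_ (mul_nonneg (sq_nonneg _) (sg_bd Z ω).1)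
            rw [sg, if_pos h1, uw, ← (mem_filter.1 hω).2]
            simp only [← prod_mul_distrib]
            have key : ∀ p, 0 ≤ (if ω p = some m' then 1 - 1 / (pr p : ℝ) else 1) *
                B3 (pr p) m (ω p) (ω p) ∧ (if ω p = some m' then 1 - 1 / (pr p : ℝ) else 1) *
                B3 (pr p) m (ω p) (ω p) ≤ (1 + 2 / (pr p : ℝ) ^ 2) *
                (((er m m' ω p).elim 1 fun _ => 1 / ((pr p : ℝ) - 1)) *
                  if ω p = some m ∨ ω p = some m' then 1 / (pr p : ℝ) else 1) := fun p => by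
              have a1 := p_two (p := pr p)
              have a2 : 0 < (pr p : ℝ) - 1 := by linarith
              have a3 := h1.1 p
              have a4 : (1 - 1 / (pr p : ℝ)) * (1 / ((pr p : ℝ) - 1)) = 1 / pr p := by field_simp
              have a5 : 1 ≤ 1 + 2 / (pr p : ℝ) ^ 2 := le_add_of_nonneg_right (by positivity)
              unfold er
              rcases h2 : ω p with _ | i
              · simp only [B3, chi, eta, Option.elim, reduceCtorEq, or_self, if_false, if_true]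
                constructor <;> linarith
              · have a6 : i ≠ m := fun h => a3 (by rw [h2, h])
                simp only [B3, chi, eta, Option.some.injEq, a6, false_or, if_false, if_true,
                  Option.elim_some, mul_zero, zero_add, mul_one]
                split_ifs
                · rw [a4, Option.elim_none, one_mul]
                  exact ⟨by positivity, le_mul_of_one_le_left (by positivity) a5⟩
                · rw [Option.elim_some, one_mul, mul_one]
                  exact ⟨by positivity, le_mul_of_one_le_left (by positivity) a5⟩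
            exact prod_le_prod (fun p _ => (key p).1) fun p _ => (key p).2
        _ = _ := by ring
    · rw [cp, sg, if_neg h1]; simp
  · by_cases h1 : cp pr m m' Z c ω = 0
    · rw [h1, zero_mul, zero_mul]
    by_cases h2 : cp pr m m' Z c ω' = 0
    · rw [h2, mul_zero, zero_mul]
    obtain ⟨p, hp⟩ := Function.ne_iff.1 hne
    have a1 := h0 ω h1 p
    have a2 := h0 ω' h2 p
    rw [prod_eq_zero (mem_univ p), mul_zero]
    rw [B3, if_neg (Ne.symm hp)]
    rcases h3 : ω p with _ | i <;> rcases h4 : ω' p with _ | j <;> simp_all [chi]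

end Pool.Agent.Lib.MP_be93de_nt.Pa
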