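import Pool.Agent.Lib.MP_be93de_nt.Pa2

/-! Evaluation of the quadratic form of the pair majorant. -/

namespace Pool.Agent.Lib.MP_be93de_nt.Pa

open Finset Pool.Agent.Lib.MP_6a20cc_nt Pool.Agent.Lib.MP_28260b_nt

variable {ι : Type} [Fintype ι] [DecidableEq ι] {pr : ι → ℕ} [∀ p, Fact (pr p).Prime] {k : ℕ}

lemma one_dim (hinj : Function.Injective pr) {W z Nb : ℕ} (hz : 2 ≤ z) (hW : ∀ p, (pr p).Coprime W)
    (φ : ℕ → ℝ) (h0 : ∀ j, 0 ≤ φ j) (h1 : ∀ j, Nb ≤ j → φ j = 0) :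
    ∑ S : Finset ι, φ (Nat.log z (∏ p ∈ S, pr p)) * ∏ p ∈ S, 1 / (pr p : ℝ) ≤
      ∑ j ∈ range Nb, φ j * HH W z j := by
  have e : ∑ t ∈ TT W z Nb, φ (Nat.log z t) * (1 / t) = ∑ j ∈ range Nb, φ j * HH W z j := by
    rw [← sum_fiberwise_of_maps_to (g := Nat.log z) (t := range Nb)
      fun t ht => mem_range.2 (log_lt ht)]
    refine sum_congr rfl fun j hj => ?_
    rw [HH, mul_sum]
    refine sum_congr ?_ fun t ht => by rw [((box_iff hz (mem_range.1 hj)).2 ht).2]
    ext t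
    rw [mem_filter, box_iff hz (mem_range.1 hj)]
  rw [← e, ← sum_filter_of_ne (p := fun S : Finset ι => Nat.log z (∏ p ∈ S, pr p) < Nb)
    fun S _ h => not_le.1 fun h2 => h (by rw [h1 _ h2, zero_mul])]
  refine le_trans (le_of_eq (sum_congr rfl fun S _ => ?_)) (sum_inj _ _ (fun S => ∏ p ∈ S, pr p)
    (fun t => φ (Nat.log z t) * (1 / t)) (fun t => mul_nonneg (h0 _) (by positivity))
    (fun S _ T _ h => prod_pr_injective hinj h) fun S hS => mem_TT.2 ⟨prod_pr_pos S,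
      Nat.lt_pow_of_log_lt (by omega) (mem_filter.1 hS).2, Nat.Coprime.prod_left fun p _ => hW p⟩)
  simp

lemma one_dim_low (hinj : Function.Injective pr) {W z Nb : ℕ} (hz : 2 ≤ z)
    (hcov : ∀ q : ℕ, q.Prime → q < z ^ Nb → q.Coprime W → ∃ p, pr p = q) :
    (∑ j ∈ range Nb, HH W z j) * (1 - ∑ p, 1 / (pr p : ℝ) ^ 2) ≤ ∑ S : Finset ι,
      (if ∏ p ∈ S, pr p < z ^ Nb then (1 : ℝ) else 0) * ∏ p ∈ S, 1 / (pr p : ℝ) := by
  rw [← sum_TT hz, mul_sub, mul_one, sub_le_iff_le_add]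
  refine (sum_filter_add_sum_filter_not _ (fun t => ∀ p, ¬ pr p * pr p ∣ t) _).ge.trans ?_
  refine add_le_add (le_trans (le_of_eq (sum_congr rfl fun t ht => ?_)) (sum_inj _ _
    (fun t => univ.filter fun p => pr p ∣ t) _ (fun S => by positivity) (fun t ht t' ht' h => ?_)
    fun _ _ => mem_univ _)) ?_
  · obtain ⟨h1, h2⟩ := mem_filter.1 ht
    rw [prod_div_distrib, ← Nat.cast_prod, prod_filter_dvd hinj hcov h1 h2,
      if_pos (mem_TT.1 h1).2.1]
    simp
  · rw [← prod_filter_dvd hinj hcov (mem_filter.1 ht).1 (mem_filter.1 ht).2, h,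
      prod_filter_dvd hinj hcov (mem_filter.1 ht').1 (mem_filter.1 ht').2]
  · calc _ ≤ ∑ t ∈ TT W z Nb, ∑ p, if pr p * pr p ∣ t then (1 : ℝ) / t else 0 := by
          rw [sum_filter]
          refine sum_le_sum fun t _ => ?_
          split_ifs with h
          · positivity
          · push Not at h
            obtain ⟨p, hp⟩ := h
            exact le_trans (by rw [if_pos hp]) (single_le_sum (f := fun p =>
              if pr p * pr p ∣ t then (1 : ℝ) / t else 0) (fun _ _ => by positivity) (mem_univ p))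
      _ ≤ _ := by
          rw [sum_comm, mul_sum]
          refine sum_le_sum fun p _ => (dvd_sum1 W z Nb (Nat.mul_pos (Fact.out : (pr p).Prime).pos
            (Fact.out : (pr p).Prime).pos)).trans (le_of_eq ?_)
          push_cast; ring

omit [DecidableEq ι] [∀ p, Fact (pr p).Prime] in
lemma prod_fib2 (F : Fin k → ι → ℝ) (ω : ι → Option (Fin k)) :
    ∏ i, ∏ p ∈ fib ω i, F i p = ∏ p, (ω p).elim 1 (fun i => F i p) := by
  simp only [fib, prod_filter]
  rw [prod_comm]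
  refine prod_congr rfl fun p _ => ?_
  rcases ω p with _ | i <;> simp

variable {m m' : Fin k}

lemma Mg_le {G : ℕ → ℝ} (hG : ∀ t, 0 ≤ G t) {c : (ι → Option (Fin k)) → ℝ}
    (hc : ∀ ω, c ω ≤ ∏ i, G (tt pr ω i)) {α : ℝ}
    (hα : ∑ S : Finset ι, G (∏ p ∈ S, pr p) * ∏ p ∈ S, 1 / (pr p : ℝ) ≤ α)
    (ν : ι → Option (Fin k)) :
    Mg pr m m' c ν ≤ ∏ i, if i = m ∨ i = m' then α else G (tt pr ν i) := by
  set φ : Fin k → Finset ι → ℝ := fun i S => if i = m ∨ i = m' then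
    G (∏ p ∈ S, pr p) * ∏ p ∈ S, 1 / (pr p : ℝ) else if S = fib ν i then G (tt pr ν i) else 0
    with hφ
  have h0 : ∀ i S, 0 ≤ φ i S := fun i S => by
    have := hG (∏ p ∈ S, pr p)
    have := hG (tt pr ν i)
    simp only [hφ]; split_ifs <;> positivity
  refine le_trans ((sum_le_sum fun ω hω => ?_).trans (sum_le_sum_of_subset_of_nonneg
    (subset_univ _) fun ω _ _ => prod_nonneg fun i _ => h0 i (fib ω i))) ((sum_fib_le φ h0).trans
    (prod_le_prod (fun i _ => sum_nonneg fun S _ => h0 i S) fun i _ => ?_))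
  · have e : uw pr m m' ω = ∏ i, ∏ p ∈ fib ω i, if i = m ∨ i = m' then 1 / (pr p : ℝ) else 1 := by
      rw [prod_fib2]
      refine prod_congr rfl fun p _ => ?_
      rcases ω p with _ | i <;> simp
    refine (mul_le_mul_of_nonneg_right (hc ω) (uw_nonneg ω)).trans (le_of_eq ?_)
    rw [e, ← prod_mul_distrib]
    refine prod_congr rfl fun i _ => ?_
    have e2 := fib_er (m := m) (m' := m') ω i
    rw [(mem_filter.1 hω).2] at e2
    simp only [hφ]
    split_ifs at e2 ⊢ with h1 h2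
    · rfl
    · rw [prod_const_one, mul_one]
      exact congrArg (fun S => G (∏ p ∈ S, pr p)) h2
    · exact absurd e2.symm h2
  · simp only [hφ]
    split_ifs
    exacts [hα, by simp]

lemma prod_two (hm : m ≠ m') (X Y : ℝ) :
    (∏ i, if i = m ∨ i = m' then X else Y) = X ^ 2 * Y ^ (k - 2) := by
  have e : (univ.filter fun i => i = m ∨ i = m') = {m, m'} := by ext; simp
  have e2 := card_filter_add_card_filter_not (s := univ) fun i => i = m ∨ i = m'
  rw [e, card_pair hm, card_univ, Fintype.card_fin] at e2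
  rw [prod_ite, prod_const, prod_const, e, card_pair hm, Nat.eq_sub_of_add_eq' e2]

theorem QF_pair (hm : m ≠ m') (hp : ∀ p, 3 ≤ pr p) {Z : ℕ} {G : ℕ → ℝ} (hG : ∀ t, 0 ≤ G t)
    (hG' : Antitone G) {c : (ι → Option (Fin k)) → ℝ} (hc0 : ∀ ω, 0 ≤ c ω)
    (hc : ∀ ω, c ω ≤ ∏ i, G (tt pr ω i)) {α β γ π : ℝ}
    (hα : ∑ S : Finset ι, G (∏ p ∈ S, pr p) * ∏ p ∈ S, 1 / (pr p : ℝ) ≤ α)
    (hβ : ∑ S : Finset ι, G (∏ p ∈ S, pr p) ^ 2 * ∏ p ∈ S, 1 / (pr p : ℝ) ≤ β) (hγ0 : 0 < γ)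
    (hγ : γ ≤ ∑ S : Finset ι, (if ∏ p ∈ S, pr p < Z then (1 : ℝ) else 0) * ∏ p ∈ S, 1 / (pr p : ℝ))
    (hπ : ∏ p, (1 + 3 / (pr p : ℝ) ^ 2) ≤ π) :
    QF (fun p => B3 (pr p) m) (cp pr m m' Z c) ≤
      π * (π / γ * ((α ^ 2) ^ 2 * (π * β) ^ (k - 2))) := by
  have hu := u_bd (pr := pr)
  have hmon : ∀ S T : Finset ι, S ≤ T → ∏ p ∈ S, pr p ≤ ∏ p ∈ T, pr p := fun S T h =>
    prod_le_prod_of_subset_of_one_le' h fun p _ _ => (Fact.out : (pr p).Prime).pos
  have hπ' : ∀ x : ι → ℝ, (∀ p, 0 ≤ x p) → (∀ p, x p ≤ 3 / (pr p : ℝ) ^ 2) →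
      ∏ p, (1 + x p) ≤ π := fun x h1 h2 =>
    (prod_le_prod (fun p _ => by linarith [h1 p]) fun p _ => by linarith [h2 p]).trans hπ
  have π0 : 0 ≤ π := le_trans (by positivity) hπ
  set Q : Finset ι → ℝ := fun S => if ∏ p ∈ S, pr p < Z then (1 : ℝ) else 0 with hQ
  have Q0 : ∀ S, 0 ≤ Q S := fun S => by simp only [hQ]; positivity
  have Q1 : Antitone Q := fun S T h => by
    have := hmon S T h
    simp only [hQ]; split_ifs <;> first | omega | norm_num
  set a : ι → ℝ := fun p => 1 / (pr p : ℝ) * (1 - 1 / pr p) with ha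
  have a0 : ∀ p, 0 ≤ a p := fun p => mul_nonneg (hu p).1.le (by linarith [hu p])
  have a1 : ∀ p, a p ≤ 1 / pr p := fun p => mul_le_of_le_one_right (hu p).1.le (by linarith [hu p])
  have s1 : γ ≤ π * ∑ S, Q S * ∏ p ∈ S, a p := by
    have := anti_le _ a a0 a1 univ Q Q0 Q1
    rw [powerset_univ] at this
    refine (hγ.trans this).trans (mul_le_mul_of_nonneg_right (hπ' _ (fun p => by linarith [a1 p])
      fun p => ?_) (sum_nonneg fun S _ => mul_nonneg (Q0 S) (prod_nonneg fun p _ => a0 p)))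
    have : (3 : ℝ) / (pr p : ℝ) ^ 2 = 3 * (1 / pr p) ^ 2 := by ring
    simp only [ha]; nlinarith [sq_nonneg (1 / (pr p : ℝ))]
  set ψ : Fin k → Finset ι → ℝ := fun i S => if i = m ∨ i = m' then (if S = ∅ then α ^ 2 else 0)
    else G (∏ p ∈ S, pr p) ^ 2 * ∏ p ∈ S, 1 / (pr p : ℝ) * (1 + 3 / pr p) with hψ
  have ψ0 : ∀ i S, 0 ≤ ψ i S := fun i S => by simp only [hψ]; split_ifs <;> positivity
  refine (QF_cp hm c).trans (mul_le_mul (hπ' _ (fun p => by positivity) fun p => by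
    gcongr; norm_num) ((sum_le_sum (g := fun ν => π / γ * ∏ i, ψ i (fib ν i)) fun ν _ => ?_).trans
    ?_) (sum_nonneg fun ν _ => mul_nonneg (prod_nonneg fun p _ => ?_) (div_nonneg (sq_nonneg _)
      (sum_nonneg fun ω _ => mul_nonneg (sg_bd Z ω).1 (uw_nonneg ω)))) π0)
  · by_cases h : ∃ ω, er m m' ω = ν
    swap
    · simp only [Mg, filter_false_of_mem fun ω _ e => h ⟨ω, e⟩, sum_empty, div_zero, mul_zero]
      exact mul_nonneg (by positivity) (prod_nonneg fun i _ => ψ0 _ _)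
    obtain ⟨ω, rfl⟩ := h
    set ν := er m m' ω with hν
    set D := ∏ p, (1 + (a p - if ν p = none then a p else 0)) with hD
    have b1 := anti_le a (fun p => if ν p = none then a p else 0)
      (fun p => by split_ifs; exacts [a0 p, le_rfl]) (fun p => by split_ifs; exacts [le_rfl, a0 p])
      univ Q Q0 Q1
    rw [powerset_univ] at b1
    have D0 : 0 ≤ D := prod_nonneg fun p _ => by split_ifs <;> linarith [a0 p]
    have b2 : γ ≤ π * D * Mg pr m m' (sg pr m m' Z) ν := by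
      rw [mul_assoc]
      exact s1.trans (mul_le_mul_of_nonneg_left (b1.trans (mul_le_mul_of_nonneg_left
        (Mg_sg hm Z ω) D0)) π0)
    have b3 : 0 < Mg pr m m' (sg pr m m' Z) ν := pos_of_mul_pos_left
      (hγ0.trans_le (b2.trans_eq (mul_comm _ _))) (mul_nonneg π0 D0)
    have b4 : Mg pr m m' c ν ^ 2 ≤ ∏ i, if i = m ∨ i = m' then α ^ 2 else G (tt pr ν i) ^ 2 := by
      refine (pow_le_pow_left₀ (sum_nonneg fun ω _ => mul_nonneg (hc0 ω) (uw_nonneg ω))
        (Mg_le hG hc hα ν) 2).trans (le_of_eq ?_)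
      rw [← prod_pow]
      exact prod_congr rfl fun i _ => by split_ifs <;> rfl
    have b5 : (∏ p, (ν p).elim 1 fun _ => 1 / ((pr p : ℝ) - 1)) * D ≤
        ∏ i, ∏ p ∈ fib ν i, 1 / (pr p : ℝ) * (1 + 3 / pr p) := by
      rw [prod_fib2, hD, ← prod_mul_distrib]
      have key : ∀ p, 0 ≤ ((ν p).elim 1 fun _ => 1 / ((pr p : ℝ) - 1)) *
          (1 + (a p - if ν p = none then a p else 0)) ∧
          ((ν p).elim 1 fun _ => 1 / ((pr p : ℝ) - 1)) * (1 + (a p - if ν p = none then a p else 0))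
          ≤ (ν p).elim 1 fun _ => 1 / (pr p : ℝ) * (1 + 3 / pr p) := fun p => by
        have c1 : (3 : ℝ) ≤ pr p := by exact_mod_cast hp p
        have c2 : 0 < (pr p : ℝ) - 1 := by linarith
        have c3 := a0 p
        rcases ν p with _ | i
        · simp
        · simp only [Option.elim, reduceCtorEq, if_false, sub_zero]
          refine ⟨by positivity, (mul_le_mul_of_nonneg_left (add_le_add_right (a1 p) 1)
            (by positivity)).trans ?_⟩
          rw [div_mul_eq_mul_div, div_le_iff₀ c2]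
          field_simp
          nlinarith
      exact prod_le_prod (fun p _ => (key p).1) fun p _ => (key p).2
    have b6 : ∏ i, ψ i (fib ν i) = (∏ i, ∏ p ∈ fib ν i, 1 / (pr p : ℝ) * (1 + 3 / pr p)) *
        ∏ i, if i = m ∨ i = m' then α ^ 2 else G (tt pr ν i) ^ 2 := by
      rw [← prod_mul_distrib]
      refine prod_congr rfl fun i _ => ?_
      have e2 := fib_er (m := m) (m' := m') ω i
      simp only [hψ]
      split_ifs at e2 ⊢ with h1 h2
      · rw [h2, prod_empty, one_mul]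
      · exact absurd e2 h2
      · exact mul_comm _ _
    have b7 : 0 ≤ ∏ p, (ν p).elim 1 fun _ => 1 / ((pr p : ℝ) - 1) := prod_nonneg fun p _ => by
      have : 0 < (pr p : ℝ) - 1 := by linarith [p_two (p := pr p)]
      rcases ν p with _ | i <;> simp only [Option.elim] <;> positivity
    have b8 : 1 / Mg pr m m' (sg pr m m' Z) ν ≤ π * D / γ := by
      rw [div_le_div_iff₀ b3 hγ0, one_mul]; exact b2
    rw [b6, div_eq_mul_one_div]
    calc _ ≤ (∏ p, (ν p).elim 1 fun _ => 1 / ((pr p : ℝ) - 1)) *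
          (Mg pr m m' c ν ^ 2 * (π * D / γ)) := by gcongr
      _ = π / γ * ((∏ p, (ν p).elim 1 fun _ => 1 / ((pr p : ℝ) - 1)) * D * Mg pr m m' c ν ^ 2) := by
          ring
      _ ≤ _ := by gcongr
  · rw [← mul_sum, ← prod_two hm]
    refine mul_le_mul_of_nonneg_left ((sum_fib_le ψ ψ0).trans (prod_le_prod
      (fun i _ => sum_nonneg fun S _ => ψ0 i S) fun i _ => ?_)) (by positivity)
    simp only [hψ]
    split_ifs
    · simp
    · have := anti_le (fun p => 1 / (pr p : ℝ) * (1 + 3 / pr p)) (fun p => 1 / (pr p : ℝ))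
        (fun p => by positivity) (fun p => le_mul_of_one_le_right (by positivity)
          (le_add_of_nonneg_right (by positivity))) univ (fun S => G (∏ p ∈ S, pr p) ^ 2)
        (fun _ => sq_nonneg _) fun S T h => pow_le_pow_left₀ (hG _) (hG' (hmon S T h)) 2
      rw [powerset_univ] at this
      refine this.trans (mul_le_mul (le_trans (le_of_eq (prod_congr rfl fun p _ => by ring)) hπ) hβ
        (sum_nonneg fun S _ => by positivity) π0)
  · have : 0 < (pr p : ℝ) - 1 := by linarith [p_two (p := pr p)]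
    rcases ν p with _ | i <;> simp only [Option.elim] <;> positivity

/-- size and support of the new coefficients -/
lemma cp_bd (hm : m ≠ m') {Z R : ℕ} (hZ : 1 < Z) {c : (ι → Option (Fin k)) → ℝ}
    (hc0 : ∀ ω, 0 ≤ c ω) (hs : ∀ ω, c ω ≠ 0 → ∏ p, (ω p).elim 1 (fun _ => pr p) ≤ R) {B : ℝ}
    (hB : ∀ ν, Mg pr m m' c ν ≤ B) (ω : ι → Option (Fin k)) : |cp pr m m' Z c ω| ≤ B ∧
      (cp pr m m' Z c ω ≠ 0 → ∏ p, (ω p).elim 1 (fun _ => pr p) ≤ R * Z) := by
  have h1 := one_le_Mg (pr := pr) hm hZ ω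
  have h2 : 0 ≤ Mg pr m m' c (er m m' ω) := sum_nonneg fun ω _ => mul_nonneg (hc0 ω) (uw_nonneg ω)
  have h3 := sg_bd (pr := pr) (m := m) (m' := m') Z ω
  refine ⟨?_, fun h => ?_⟩
  · rw [cp, abs_of_nonneg (mul_nonneg h3.1 (div_nonneg h2 (by linarith)))]
    exact (mul_le_of_le_one_left (div_nonneg h2 (by linarith)) h3.2).trans
      ((div_le_self h2 h1).trans (hB _))
  · obtain ⟨a1, a2⟩ := mul_ne_zero_iff.1 h
    obtain ⟨ω', b1, b2⟩ := exists_ne_zero_of_sum_ne_zero (div_ne_zero_iff.1 a2).1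
    have b3 : (∀ p, ω p ≠ some m) ∧ tt pr ω m' < Z := by
      by_contra h; exact a1 (if_neg h)
    refine le_trans ?_ (Nat.mul_le_mul (hs ω' (left_ne_zero_of_mul b2)) b3.2.le)
    rw [tt, prod_filter, ← prod_mul_distrib]
    refine prod_le_prod' fun p _ => ?_
    have c1 := congrFun (mem_filter.1 b1).2 p
    have c2 := (Fact.out : (pr p).Prime).pos
    have c3 : 1 ≤ (ω' p).elim 1 fun _ => pr p := by rcases ω' p with _ | _; exacts [le_rfl, c2]
    unfold er at c1
    split_ifs with h4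
    · rw [h4]; exact Nat.le_mul_of_pos_left _ c3
    · rw [if_neg (not_or.2 ⟨b3.1 p, h4⟩)] at c1
      rw [mul_one, ← c1]
      split_ifs
      exacts [c3, le_rfl]

end Pool.Agent.Lib.MP_be93de_nt.Pa
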