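import Pool.Agent.Lib.MP_28260b_nt.May2

/-! Product weights cut at a simplex, and the second moment argument. -/

namespace Pool.Agent.Lib.MP_be93de_nt.Pa

open Finset Pool.Agent.Lib.MP_28260b_nt
open Fintype (piFinset mem_piFinset)

lemma markov {σ : Type} [Fintype σ] [DecidableEq σ] (A : Finset ℕ) (φ s : σ → ℕ → ℝ)
    (φ0 : ∀ o x, 0 ≤ φ o x) (s0 : ∀ o x, 0 ≤ s o x) {β : ℝ}
    (h : ∀ o, ∑ x ∈ A, s o x * φ o x ≤ β * ∑ x ∈ A, φ o x) :
    ∑ j ∈ piFinset (fun _ : σ => A), (∑ o, s o (j o)) * ∏ o, φ o (j o) ≤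
      Fintype.card σ * (β * ∏ o, ∑ x ∈ A, φ o x) := by
  simp only [sum_mul]
  rw [sum_comm, ← card_univ, ← nsmul_eq_mul]
  refine sum_le_card_nsmul _ _ _ fun o' _ => ?_
  calc _ = ∏ o, ∑ x ∈ A, (if o = o' then s o x else 1) * φ o x := by
        rw [prod_univ_sum]
        refine sum_congr rfl fun j _ => ?_
        rw [prod_mul_distrib, prod_ite_eq']; simp
    _ ≤ ∏ o, (if o = o' then β else 1) * ∑ x ∈ A, φ o x := by
        refine prod_le_prod (fun o _ => sum_nonneg fun x _ => mul_nonneg ?_ (φ0 _ _)) fun o _ => ?_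
        · split_ifs
          exacts [s0 _ _, zero_le_one]
        · split_ifs
          exacts [h o, by simp]
    _ = _ := by rw [prod_mul_distrib, prod_ite_eq']; simp

/-- the cut product weight -/
noncomputable def FT {k : ℕ} (g : ℕ → ℝ) (Nb : ℕ) (j : Fin k → ℕ) : ℝ :=
  if ∑ i, (j i + 1) ≤ Nb then ∏ i, g (j i) else 0

variable {k Nb : ℕ} {g : ℕ → ℝ}

lemma FT_bd (g0 : ∀ j, 0 ≤ g j) (j : Fin k → ℕ) : 0 ≤ FT g Nb j ∧ FT g Nb j ≤ ∏ i, g (j i) := by
  have : 0 ≤ ∏ i, g (j i) := prod_nonneg fun _ _ => g0 _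
  unfold FT; split_ifs <;> simp [this]

lemma II_le (g0 : ∀ j, 0 ≤ g j) : II Nb (FT (k := k) g Nb) ≤ (∑ j ∈ range Nb, g j ^ 2) ^ k := by
  rw [II, ← Fin.prod_const, prod_univ_sum]
  exact sum_le_sum fun j _ => (pow_le_pow_left₀ (FT_bd g0 j).1 (FT_bd g0 j).2 2).trans_eq
    (prod_pow _ _ _).symm

lemma JJ_low (g0 : ∀ j, 0 ≤ g j) {T D : ℕ} (hD : 0 < D) (hT : ∀ j, T ≤ j → g j = 0)
    (hN : T + D ≤ Nb) {β : ℝ} (β0 : 0 ≤ β)
    (hβ : ∑ x ∈ range Nb, ((x : ℝ) + 1) * g x ^ 2 ≤ β * ∑ x ∈ range Nb, g x ^ 2) (m : Fin k) :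
    (1 - (k + 1) * β / D) * ((∑ j ∈ range Nb, g j) ^ 2 * (∑ j ∈ range Nb, g j ^ 2) ^ (k - 1)) ≤
      JJ Nb (FT g Nb) m := by
  set φ : Option (Fin k) → ℕ → ℝ := fun o x => if o = none ∨ o = some m then g x else g x ^ 2
    with hφ
  set s : Option (Fin k) → ℕ → ℝ := fun o x => if o = none ∨ o = some m then 0 else x + 1 with hs
  have φ0 : ∀ o x, 0 ≤ φ o x := fun o x => by
    simp only [hφ]; split_ifs
    exacts [g0 _, sq_nonneg _]
  have s0 : ∀ o x, 0 ≤ s o x := fun o x => by simp only [hs]; split_ifs <;> positivity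
  have h1 := markov (range Nb) φ s φ0 s0 (β := β) fun o => by
    simp only [hφ, hs]; split_ifs
    · simpa using mul_nonneg β0 (sum_nonneg fun _ _ => g0 _)
    · exact hβ
  have h2 : ∏ o, ∑ x ∈ range Nb, φ o x =
      (∑ j ∈ range Nb, g j) ^ 2 * (∑ j ∈ range Nb, g j ^ 2) ^ (k - 1) := by
    rw [Fintype.prod_option, ← mul_prod_erase univ _ (mem_univ m),
      prod_congr rfl (g := fun _ => ∑ j ∈ range Nb, g j ^ 2) fun i hi => by
        simp [hφ, ne_of_mem_erase hi]]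
    simp [hφ, sq, mul_assoc]
  have hD' : (0 : ℝ) < D := by exact_mod_cast hD
  rw [Fintype.card_option, Fintype.card_fin, h2] at h1
  rw [← h2, sub_mul, one_mul, sub_le_iff_le_add, h2, div_mul_eq_mul_div, mul_assoc]
  refine le_trans ?_ (add_le_add_right (div_le_div_of_nonneg_right (by exact_mod_cast h1) hD'.le) _)
  rw [← h2, prod_univ_sum, JJ, sum_div, ← sum_add_distrib]
  refine sum_le_sum fun j _ => ?_
  have p0 : 0 ≤ ∏ o, φ o (j o) := prod_nonneg fun _ _ => φ0 _ _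
  have p1 := mul_nonneg (FT_bd (Nb := Nb) g0 fun i => j (some i)).1 (FT_bd (Nb := Nb) g0 (sw m j)).1
  have p2 : 0 ≤ (∑ o, s o (j o)) * (∏ o, φ o (j o)) / D :=
    div_nonneg (mul_nonneg (sum_nonneg fun _ _ => s0 _ _) p0) hD'.le
  by_cases h3 : (D : ℝ) ≤ ∑ o, s o (j o)
  · refine le_add_of_nonneg_of_le p1 ?_
    rw [le_div_iff₀ hD', mul_comm]
    exact mul_le_mul_of_nonneg_right h3 p0
  by_cases h4 : ∏ o, φ o (j o) = 0
  · linarith
  have h5 : ∀ o, o = none ∨ o = some m → j o < T := fun o ho => not_le.1 fun h =>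
    h4 (prod_eq_zero (mem_univ o) (by simp only [hφ, if_pos ho, hT _ h]))
  have h6 : ∑ i ∈ univ.erase m, (j (some i) + 1) < D := by
    refine Nat.cast_lt.1 (lt_of_eq_of_lt ?_ (not_le.1 h3))
    rw [Fintype.sum_option, ← add_sum_erase univ _ (mem_univ m), Nat.cast_sum]
    simp only [hs, true_or, or_true, if_true, zero_add]
    exact sum_congr rfl fun i hi => by simp [ne_of_mem_erase hi]
  have h7 : ∀ i ∈ univ.erase m, sw m j i = j (some i) := fun i hi => by
    simp [sw, ne_of_mem_erase hi]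
  have h8 : sw m j m = j none := by simp [sw]
  have a1 := h5 none (Or.inl rfl)
  have a2 := h5 (some m) (Or.inr rfl)
  refine le_add_of_le_of_nonneg (le_of_eq ?_) p2
  rw [FT, FT, if_pos, if_pos, Fintype.prod_option, ← mul_prod_erase univ _ (mem_univ m),
    ← mul_prod_erase univ _ (mem_univ m), ← mul_prod_erase univ _ (mem_univ m), h8,
    prod_congr rfl fun i hi => congrArg g (h7 i hi),
    prod_congr rfl (g := fun i => g (j (some i)) ^ 2) fun i hi => by simp [hφ, ne_of_mem_erase hi],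
    prod_pow]
  · simp only [hφ, true_or, or_true, if_true]; ring
  · rw [← add_sum_erase univ _ (mem_univ m), h8, sum_congr rfl fun i hi => by rw [h7 i hi]]; omega
  · rw [← add_sum_erase univ _ (mem_univ m)]; omega

lemma comb {M t N n0 n₀ : ℕ} {f : ℕ → ℝ} {Λ : Fin M → Fin t → ℕ → ℝ}
    {Q : Fin M → Fin t → ℕ → Prop} [∀ j i n, Decidable (Q j i n)] {σ I J K c lm : ℝ}
    (hf : ∀ n, 0 ≤ f n)
    (hΛ : ∀ j i n, 0 ≤ Λ j i n ∧ Λ j i n ≤ σ ∧ (Λ j i n ≠ 0 → n₀ < n ∧ Q j i n))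
    (hI : ∑ n ∈ range N, f n ≤ I) (hJ : ∀ j i, J ≤ ∑ n ∈ range N, Λ j i n * f n)
    (hK : ∀ j i i', i ≠ i' → ∑ n ∈ range N, Λ j i n * Λ j i' n * f n ≤ K) (K0 : 0 ≤ K)
    (c0 : 0 ≤ c) (σ0 : 0 ≤ σ) (l0 : 0 ≤ lm) (l1 : lm * σ ≤ 2)
    (gap : (c + 2 * lm * n0 * σ) * I + lm ^ 2 * t ^ 2 * K < (2 * lm - lm ^ 2 * σ) * t * J)
    (w : Fin M → ℝ) (hw : ∀ j, 0 ≤ w j) :
    ∃ n > n₀, c * ∑ j, w j ≤ ∑ j with n0 ≤ #(univ.filter fun i => Q j i n), w j := by
  by_contra hc
  push Not at hc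
  have w0 : 0 < ∑ j, w j := pos_of_mul_pos_left ((sum_nonneg fun j _ => hw j).trans_lt
    ((hc _ n₀.lt_succ_self).trans_eq (mul_comm _ _))) c0
  set Y : Fin M → ℕ → ℝ := fun j n => ∑ i, Λ j i n with hY
  have e0 : 0 ≤ 2 * lm * n0 * σ := by positivity
  have h1 : ∀ n, ∑ j, w j * (2 * lm * Y j n - lm ^ 2 * Y j n ^ 2) ≤
      (c + 2 * lm * n0 * σ) * ∑ j, w j := fun n => by
    by_cases hn : n₀ < n
    · refine le_trans ?_ ((add_le_add_left (hc n hn).le _).trans_eq (add_mul _ _ _).symm)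
      rw [sum_filter, mul_sum, ← sum_add_distrib]
      refine sum_le_sum fun j _ => ?_
      split_ifs with h
      · nlinarith [hw j, sq_nonneg (lm * Y j n - 1), mul_nonneg (hw j) e0,
          mul_nonneg (hw j) (sq_nonneg (lm * Y j n - 1))]
      · have a1 : Y j n ≤ n0 * σ := by
          rw [hY]
          simp only
          rw [← sum_filter_of_ne (p := fun i => Q j i n) fun i _ h => ((hΛ j i n).2.2 h).2]
          refine (sum_le_card_nsmul _ _ σ fun i _ => (hΛ j i n).2.1).trans ?_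
          rw [nsmul_eq_mul]
          gcongr
          exact (not_le.1 h).le
        have a2 := mul_le_mul_of_nonneg_left a1 l0
        rw [zero_add, mul_comm _ (w j)]
        exact mul_le_mul_of_nonneg_left (by nlinarith [sq_nonneg (lm * Y j n)]) (hw j)
    · have a1 : ∀ j, Y j n = 0 := fun j => sum_eq_zero fun i _ => by
        by_contra h; exact hn ((hΛ j i n).2.2 h).1
      simp only [a1]
      simpa using mul_nonneg (add_nonneg c0 e0) w0.le
  have h2 : ∀ j, (2 * lm - lm ^ 2 * σ) * t * J - lm ^ 2 * t ^ 2 * K ≤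
      ∑ n ∈ range N, (2 * lm * Y j n - lm ^ 2 * Y j n ^ 2) * f n := fun j => by
    set S := ∑ n ∈ range N, Y j n * f n with hS
    have a1 : S = ∑ i, ∑ n ∈ range N, Λ j i n * f n := by
      simp only [hS, hY, sum_mul]; exact sum_comm
    have a2 : t * J ≤ S := by
      simpa [a1] using card_nsmul_le_sum univ _ J fun i _ => hJ j i
    have a3 : ∑ n ∈ range N, Y j n ^ 2 * f n ≤ σ * S + t ^ 2 * K := by
      calc _ = ∑ i, ∑ i', ∑ n ∈ range N, Λ j i n * Λ j i' n * f n := by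
            simp only [hY, sq, sum_mul_sum]
            simp only [sum_mul]
            rw [sum_comm]
            exact sum_congr rfl fun i _ => sum_comm
        _ ≤ ∑ i, ∑ i', ((if i = i' then σ * ∑ n ∈ range N, Λ j i n * f n else 0) + K) := by
            refine sum_le_sum fun i _ => sum_le_sum fun i' _ => ?_
            split_ifs with h
            · rw [mul_sum, ← h]
              refine le_add_of_le_of_nonneg (sum_le_sum fun n _ => ?_) K0
              rw [mul_assoc]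
              exact mul_le_mul_of_nonneg_right (hΛ j i n).2.1 (mul_nonneg (hΛ j i n).1 (hf n))
            · rw [zero_add]; exact hK j i i' h
        _ = _ := by simp [sum_add_distrib, a1, mul_sum, sq, mul_assoc]
    have a4 : ∑ n ∈ range N, (2 * lm * Y j n - lm ^ 2 * Y j n ^ 2) * f n =
        2 * lm * S - lm ^ 2 * ∑ n ∈ range N, Y j n ^ 2 * f n := by
      simp only [hS, mul_sum, ← sum_sub_distrib]
      exact sum_congr rfl fun n _ => by ring
    have a5 : 0 ≤ 2 * lm - lm ^ 2 * σ := by nlinarith [mul_nonneg l0 (sub_nonneg.2 l1)]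
    rw [a4]
    nlinarith [mul_le_mul_of_nonneg_left a2 a5, mul_le_mul_of_nonneg_left a3 (sq_nonneg lm)]
  have h3 := sum_le_sum fun j (_ : j ∈ univ) => mul_le_mul_of_nonneg_left (h2 j) (hw j)
  have h4 := sum_le_sum fun n (_ : n ∈ range N) => mul_le_mul_of_nonneg_right (h1 n) (hf n)
  have h5 : ∑ j, w j * ∑ n ∈ range N, (2 * lm * Y j n - lm ^ 2 * Y j n ^ 2) * f n =
      ∑ n ∈ range N, (∑ j, w j * (2 * lm * Y j n - lm ^ 2 * Y j n ^ 2)) * f n := by
    simp only [mul_sum, sum_mul, mul_assoc]; exact sum_comm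
  rw [← sum_mul] at h3
  rw [← mul_sum] at h4
  have h6 := mul_le_mul_of_nonneg_left hI (mul_nonneg (add_nonneg c0 e0) w0.le)
  nlinarith [mul_lt_mul_of_pos_left gap w0]

end Pool.Agent.Lib.MP_be93de_nt.Pa
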