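import Pool.Agent.Lib.MP_be93de_nt.Pa3
import Pool.Agent.Lib.MP_6a20cc_nt.Dh1

/-! First and second moments of the primes under the Maynard weights. -/

namespace Pool.Agent.Lib.MP_be93de_nt.Pa

open Finset Filter Topology Pool.Agent.Lib.MP_28260b_nt Pool.Agent.Lib.SW
  Pool.Agent.Lib.MP_6a20cc_nt Pool.Agent.Lib.MP_6a20cc_nt.Dh

theorem moments {k Nb N' : ℕ} (hNb : 1 ≤ Nb) (hN1 : 1 ≤ N') {g : ℕ → ℝ} (g0 : ∀ j, 0 ≤ g j)
    (g1 : ∀ j, g j ≤ 1) (g2 : Antitone g) (g3 : ∀ j, Nb ≤ j → g j = 0) {Fb : (Fin k → ℕ) → ℝ}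
    (h0 : ∀ j, 0 ≤ Fb j) (hg : ∀ j, Fb j ≤ ∏ i, g (j i))
    (hs : ∀ j, Fb j ≠ 0 → ∑ i, (j i + 1) ≤ Nb) {ε : ℝ} (hε : 0 < ε) (hε2 : ε ≤ 1 / 2) :
    ∃ w₀, ∀ w ≥ w₀, ∀ a d : Fin k → ℕ,
    (∀ i, 0 < a i) → (∀ i, a i ≤ w) → (∀ i, (d i).Coprime (a i * w.factorial)) →
    (∀ q, q.Prime → w < q → ∀ i j, a i * d j ≡ a j * d i [MOD q] → i = j) → ∀ n₀,
    ∃ (N : ℕ) (f : ℕ → ℝ) (Λ : Fin k → ℕ → ℝ), (∀ n, 0 ≤ f n) ∧
      (∀ m n, 0 ≤ Λ m n ∧ Λ m n ≤ 4 * (Nb + N') + 5 ∧
        (Λ m n ≠ 0 → n₀ < n ∧ (a m * w.factorial * n + d m).Prime)) ∧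
      ∑ n ∈ range N, f n ≤ (1 + ε) ^ (k + 1) * II Nb Fb + ε ∧
      (∀ m, (1 - ε) ^ (k + 2) * JJ Nb Fb m - 3 * ε ≤ ∑ n ∈ range N, Λ m n * f n) ∧
      ∀ m m', m ≠ m' → ∑ n ∈ range N, Λ m n * Λ m' n * f n ≤ (4 * (Nb + N') + 5) *
        ((1 + ε) ^ (2 * (k - 2) + 7) / (1 - ε) ^ 2 * ((∑ j ∈ range Nb, g j) ^ 4 *
          (∑ j ∈ range Nb, g j ^ 2) ^ (k - 2) / N') + 2 * ε) := by
  have hε1 : ε ≤ 1 := by linarith
  have hm : ∀ j, Fb j ≤ 1 := fun j => (hg j).trans (prod_le_one (fun _ _ => g0 _) fun _ _ => g1 _)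
  have hNb' : (1 : ℝ) ≤ Nb := by exact_mod_cast hNb
  set C : ℝ := (2 * Nb) ^ (k + 1) * (4 * (k + 1) ^ 2) with hC
  refine ⟨4 * k + 2 + ⌈C / ε⌉₊ + ⌈3 / Real.log (1 + ε)⌉₊ + ⌈1 / ε⌉₊, fun w hw a d ha hwa hcop hdet n₀ => ?_⟩
  have hwk : 4 * k + 2 ≤ w := by omega
  have hwC : C / ε ≤ w := Nat.ceil_le.1 (by omega)
  have hwL : 3 / Real.log (1 + ε) ≤ w := Nat.ceil_le.1 (by omega)
  have hwE : 1 / ε ≤ w := Nat.ceil_le.1 (by omega)
  set W := w.factorial with hW
  have hW0 : 0 < W := Nat.factorial_pos w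
  have hW2 : 2 ≤ W := le_trans (by omega) (Nat.self_le_factorial w)
  set A : Fin k → ℕ := fun i => a i * W with hA
  have hA2 : ∀ i, 2 ≤ A i := fun i => le_trans hW2 (Nat.le_mul_of_pos_left W (ha i))
  have hAw : ∀ i, A i ≤ w * W := fun i => Nat.mul_le_mul_right W (hwa i)
  set K := 5 * (k + 1) ^ 2 with hK
  choose B hB using fun m => BV (D := A m) (by have := hA2 m; omega) (hcop m) K (6 * K + 5)
  set ρ : ℝ := (W.totient : ℝ) / W with hρ
  have hW' : (0 : ℝ) < W := by exact_mod_cast hW0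
  have hρ0 : 0 < ρ := div_pos (by exact_mod_cast Nat.totient_pos.2 hW0) hW'
  have hρ1 : ρ ≤ 1 := by rw [hρ, div_le_one hW']; exact_mod_cast Nat.totient_le W
  set s := 4 * (Nb + N') + 4 with hs4
  have htend : ∀ m, Tendsto (fun z : ℕ => A m * z ^ s) atTop atTop := fun m =>
    (tendsto_pow_atTop (by omega)).const_mul_atTop' (by have := hA2 m; omega)
  have hlog := tendsto_L.eventually_ge_atTop
  obtain ⟨z, hBV, hSW, hzB, hz1, hz2, hz3, hz4, hz5, hz6, hz7, hz8, hz9, hz10⟩ :=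
    ((eventually_all.2 fun m => (htend m).eventually (hB m)).and
    ((eventually_all.2 fun m => (htend m).eventually (siegel_walfisz 1 1)).and
    ((eventually_all.2 fun m => MP_28260b_nt.ev_log (((s : ℝ) + 1) ^ B m) (B m)).and
    ((eventually_ge_atTop (w * W * (n₀ + 1) + ∑ i, d i)).and
    ((hlog (2 * Real.exp 10)).and ((hlog (w * W * (2 / ε))).and
    ((hlog ((2 * W + 1) / (ε * ρ))).and ((hlog ((2 * Nb) ^ 4 * (w * W) / ε)).and
    ((MP_28260b_nt.ev_log (2 * (s + 1) / ε) 1).and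
    ((MP_28260b_nt.ev_log (s ^ (12 * K) / ε) (12 * K)).and
    ((MP_28260b_nt.ev_log ((2 * Nb) ^ 4 * s ^ (12 * K) * (s + 1) / ε) (12 * K + 5)).and
    ((MP_28260b_nt.ev_log (1 / ε) 0).and (hlog (1 / ρ)))))))))))))).exists
  have hw' : (2 : ℝ) ≤ w := by exact_mod_cast (show 2 ≤ w by omega)
  have hwW : w * W ≤ z :=
    le_trans (Nat.le_mul_of_pos_right _ n₀.succ_pos) ((Nat.le_add_right _ _).trans hz1)
  have hd : ∀ i, d i ≤ ∑ i, d i := fun i => single_le_sum (fun _ _ => Nat.zero_le _) (mem_univ i)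
  have hz : 2 ≤ z := le_trans (le_trans hW2 (Nat.le_mul_of_pos_left W (by omega))) hwW
  have hz' : (2 : ℝ) ≤ z := by exact_mod_cast hz
  set l := Real.log z with hl
  have hl1 : 1 ≤ l := by linarith [Real.one_le_exp (show (0 : ℝ) ≤ 10 by norm_num)]
  set R := z ^ (Nb + N') with hR
  set N := z ^ s with hN
  have hzR : z ≤ R := Nat.le_self_pow (by omega) z
  have hRN : R ≤ N := Nat.pow_le_pow_right (by omega) (by omega)
  have hN0 : 0 < N := by positivity
  have hN' : (0 : ℝ) < N := by exact_mod_cast hN0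
  have hR1 : (1 : ℝ) ≤ R := by exact_mod_cast Nat.one_le_pow _ _ (by omega)
  have hR3 : (R : ℝ) ^ 3 * z ≤ N := by
    have : R ^ 3 * z ≤ N := by
      rw [hR, ← pow_mul, ← pow_succ]; exact Nat.pow_le_pow_right (by omega) (by omega)
    exact_mod_cast this
  have hs1 : (1 : ℝ) ≤ s := by exact_mod_cast (show 1 ≤ s by omega)
  have hLN : Real.log N = s * l := by rw [hN]; push_cast; rw [Real.log_pow]
  have hNX : ∀ m, N ≤ A m * N := fun m => Nat.le_mul_of_pos_left N (by have := hA2 m; omega)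
  have hL1 : ∀ m, s * l ≤ Real.log (A m * N : ℕ) := fun m => hLN ▸ log_le_L (hNX m)
  have hL2 : ∀ m, Real.log (A m * N : ℕ) ≤ (s + 1) * l := fun m => by
    have := log_le_L (Nat.mul_le_mul_right N ((hAw m).trans hwW))
    rw [Nat.cast_mul z, Real.log_mul (by linarith) hN'.ne', hLN] at this
    linarith
  have hll : l ≤ s * l := le_mul_of_one_le_left (by linarith) hs1
  -- the sieve primes
  let ι : Type := {p // p ∈ (Nat.primesLE R).filter (w < ·)}
  let pr : ι → ℕ := Subtype.val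
  have hpr : ∀ p : ι, pr p ≤ R ∧ (pr p).Prime ∧ w < pr p := fun p =>
    ⟨(Nat.mem_primesLE.1 (mem_filter.1 p.2).1).1, (Nat.mem_primesLE.1 (mem_filter.1 p.2).1).2,
      (mem_filter.1 p.2).2⟩
  have : ∀ p, Fact (pr p).Prime := fun p => ⟨(hpr p).2.1⟩
  have hpi : Function.Injective pr := Subtype.val_injective
  have hpW : ∀ p, (pr p).Coprime W := fun p =>
    (hpr p).2.1.coprime_iff_not_dvd.2 fun h =>
      absurd ((hpr p).2.1.dvd_factorial.1 h) (not_le.2 (hpr p).2.2)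
  have hpA : ∀ m p, (A m).Coprime (pr p) := fun m p =>
    Nat.Coprime.mul_left (Nat.coprime_of_lt_prime (ha m).ne' ((hwa m).trans_lt (hpr p).2.2)
      (hpr p).2.1).symm (hpW p).symm
  have hA0 : ∀ m p, (A m : ZMod (pr p)) ≠ 0 := fun m p => by
    rw [Ne, ZMod.natCast_eq_zero_iff]
    exact (hpr p).2.1.coprime_iff_not_dvd.1 (hpA m p).symm
  have hpk : ∀ p, 4 * (k : ℝ) + 1 ≤ pr p := fun p => by
    have : 4 * k + 1 ≤ pr p := by have := (hpr p).2.2; omega
    exact_mod_cast this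
  have hcov : ∀ j ≤ Nb + N', ∀ q : ℕ, q.Prime → q < z ^ j → q.Coprime W → ∃ p, pr p = q :=
    fun j hj q hq h1 h2 => ⟨⟨q, mem_filter.2 ⟨Nat.mem_primesLE.2
      ⟨h1.le.trans (Nat.pow_le_pow_right (by omega) hj), hq⟩, not_le.1 fun h =>
      hq.coprime_iff_not_dvd.1 h2 (hq.dvd_factorial.2 h)⟩⟩, rfl⟩
  have hsq : ∑ p, 1 / (pr p : ℝ) ^ 2 ≤ 1 / (w : ℝ) := by
    have e := sum_Ioc_inv_sq_le_sub (α := ℝ) (k := w) (n := w + R) (by omega) (by omega)
    have e2 : ∑ p, 1 / (pr p : ℝ) ^ 2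
        = ∑ q ∈ (Nat.primesLE R).filter (w < ·), ((q : ℝ) ^ 2)⁻¹ := by
      simp only [one_div]
      exact sum_coe_sort _ fun q : ℕ => ((q : ℝ) ^ 2)⁻¹
    have e3 : (0 : ℝ) ≤ ((w + R : ℕ) : ℝ)⁻¹ := by positivity
    rw [e2, one_div]
    refine le_trans (sum_le_sum_of_subset_of_nonneg (fun q hq => ?_) fun _ _ _ => by positivity)
      (e.trans (by linarith))
    have := (Nat.mem_primesLE.1 (mem_filter.1 hq).1).1
    exact mem_Ioc.2 ⟨(mem_filter.1 hq).2, by omega⟩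
  set r : (p : ι) → Fin k → ZMod (pr p) := fun p i => -(d i : ZMod (pr p)) / A i with hr
  have hri : ∀ p, Function.Injective (r p) := by
    intro p i j h
    have h1 := (div_eq_div_iff (hA0 i p) (hA0 j p)).1 h
    simp only [hA, Nat.cast_mul] at h1
    have h2 : (W : ZMod (pr p)) ≠ 0 := by
      rw [Ne, ZMod.natCast_eq_zero_iff]; exact (hpr p).2.1.coprime_iff_not_dvd.1 (hpW p)
    refine hdet _ (hpr p).2.1 (hpr p).2.2 i j ((ZMod.natCast_eq_natCast_iff _ _ _).1
      (mul_right_cancel₀ h2 ?_))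
    push_cast
    linear_combination h1
  set c := cw pr z Fb with hc
  set Fm : ℝ := (2 * Nb * l) ^ 2 with hFm
  have hc1 : ∀ ω, |c ω| ≤ 1 := fun ω => by rw [hc, cw, abs_of_nonneg (h0 _)]; exact hm _
  have hc2 : ∀ ω, c ω ≠ 0 → ∏ p, (ω p).elim 1 (fun _ => pr p) ≤ R := fun ω h =>
    (cw_supp hz hs h).1.trans (Nat.pow_le_pow_right (by omega) (by omega))
  set Pe := ∏ p, (1 + (K : ℝ) / pr p) with hPe
  have hPe0 : 0 ≤ Pe := by positivity
  have hPe1 : Pe ≤ (s * l) ^ (6 * K) :=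
    hLN ▸ euler_le hpi (fun p => (hpr p).1.trans hRN) (by rw [hLN]; linarith) K
  -- the box sums
  set h := ρ * l with hh
  have hh1 : 1 ≤ h := by rwa [div_le_iff₀' hρ0] at hz10
  have hH : ∀ j, (1 - ε) * h ≤ HH W z j ∧ HH W z j ≤ (1 + ε) * h := fun j => by
    have e := abs_le.1 (HH_close hW0 hz j)
    rw [div_le_iff₀ (by positivity)] at hz4
    constructor <;> nlinarith only [e.1, e.2, hz4, hh]
  have hH0 : 0 ≤ (1 - ε) * h := mul_nonneg (by linarith) (by linarith)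
  have hI0 : 0 ≤ II Nb Fb := sum_nonneg fun _ _ => sq_nonneg _
  set u := N * h ^ k with hu
  have hu1 : (N : ℝ) ≤ u := le_mul_of_one_le_right hN'.le (one_le_pow₀ hh1)
  -- upper bound
  set S1 := ∑ n ∈ range (N + 1), ff r c n ^ 2 with hS1
  have up : S1 ≤ (1 + ε) ^ (k + 1) * II Nb Fb * u + ε * u := by
    have e2 := S1_le hpi r hri c hc1 hc2 (N + 1)
    have e3 : QF (fun p => B1 (pr p)) c ≤ ((1 + ε) * h) ^ k * II Nb Fb := by
      refine (QF_upper hpi hz hpW hs).trans ?_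
      rw [II, Finset.mul_sum]
      refine sum_le_sum fun j _ => ?_
      rw [mul_comm]
      gcongr
      calc _ ≤ ∏ _i : Fin k, (1 + ε) * h :=
            prod_le_prod (fun i _ => hH0.trans (hH _).1) fun i _ => (hH _).2
        _ = _ := by simp
    have e4 : ((N + 1 : ℕ) : ℝ) ≤ (1 + ε) * N := by
      have : (z : ℝ) ≤ N := by exact_mod_cast hzR.trans hRN
      rw [pow_zero, mul_one, div_le_iff₀ hε] at hz9
      push_cast
      nlinarith only [this, hz9, hε]
    have e5 : ∏ p, (1 + 3 * (k : ℝ) / pr p) ≤ (s * l) ^ (6 * K) := by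
      refine le_trans (prod_le_prod (fun p _ => by positivity) fun p _ => ?_) hPe1
      gcongr
      rw [hK]; push_cast; nlinarith only [(Nat.cast_nonneg k : (0 : ℝ) ≤ k)]
    have e6 : (1 * R * ∏ p, (1 + 3 * (k : ℝ) / pr p)) ^ 2 ≤ ε * u := by
      rw [div_mul_eq_mul_div, div_le_iff₀ hε] at hz7
      calc _ ≤ (1 * R * (s * l) ^ (6 * K)) ^ 2 := by gcongr
        _ = (s ^ (12 * K) * l ^ (12 * K)) * R ^ 2 := by ring
        _ ≤ (z * ε) * R ^ 3 := by gcongr; norm_num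
        _ = ε * (R ^ 3 * z) := by ring
        _ ≤ _ := by gcongr; linarith
    have e7 : ((N + 1 : ℕ) : ℝ) * QF (fun p => B1 (pr p)) c
        ≤ (1 + ε) ^ (k + 1) * II Nb Fb * u :=
      calc _ ≤ ((N + 1 : ℕ) : ℝ) * (((1 + ε) * h) ^ k * II Nb Fb) := by gcongr
        _ ≤ (1 + ε) * N * (((1 + ε) * h) ^ k * II Nb Fb) := by gcongr
        _ = _ := by rw [hu, mul_pow]; ring
    linarith
  have hul : 0 < u * l := mul_pos (by linarith) (by linarith)
  have e9 : (N : ℝ) ≤ u * l := hu1.trans (le_mul_of_one_le_right (by linarith) hl1)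
  have hN2 : (0 : ℝ) < N' := by exact_mod_cast hN1
  have hα : ∀ φ : ℕ → ℝ, (∀ j, 0 ≤ φ j) → (∀ j, Nb ≤ j → φ j = 0) →
      ∑ S : Finset ι, φ (Nat.log z (∏ p ∈ S, pr p)) * ∏ p ∈ S, 1 / (pr p : ℝ) ≤
        (1 + ε) * h * ∑ j ∈ range Nb, φ j := fun φ a0 a1 => by
    refine (one_dim hpi hz hpW φ a0 a1).trans ?_
    rw [Finset.mul_sum]
    exact sum_le_sum fun j _ => (mul_le_mul_of_nonneg_left (hH j).2 (a0 j)).trans_eq (mul_comm _ _)
  have hγ : (1 - ε) ^ 2 * N' * h ≤ ∑ S : Finset ι,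
      (if ∏ p ∈ S, pr p < z ^ N' then (1 : ℝ) else 0) * ∏ p ∈ S, 1 / (pr p : ℝ) := by
    refine le_trans ?_ (one_dim_low hpi hz (hcov N' (by omega)))
    have a1 := card_nsmul_le_sum (range N') (HH W z) _ fun j _ => (hH j).1
    simp only [card_range, nsmul_eq_mul] at a1
    have a2 : 1 / (w : ℝ) ≤ ε := by rwa [one_div_le (by linarith) hε]
    calc _ = N' * ((1 - ε) * h) * (1 - ε) := by ring
      _ ≤ _ := mul_le_mul a1 (by linarith) (by linarith) (le_trans (by positivity) a1)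
  have hπ : ∏ p, (1 + 3 / (pr p : ℝ) ^ 2) ≤ 1 + ε := by
    have a1 : 0 < Real.log (1 + ε) := Real.log_pos (by linarith)
    rw [div_le_comm₀ a1 (by linarith)] at hwL
    calc _ ≤ ∏ p, Real.exp (3 * (1 / (pr p : ℝ) ^ 2)) := prod_le_prod (fun _ _ => by positivity)
          fun p _ => by rw [add_comm, mul_one_div]; exact Real.add_one_le_exp _
      _ ≤ Real.exp (Real.log (1 + ε)) := by
          rw [← Real.exp_sum, ← Finset.mul_sum]
          exact Real.exp_le_exp.2 (le_trans (by rw [div_eq_mul_one_div 3]; gcongr) hwL)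
      _ = _ := Real.exp_log (by linarith)
  set Λ : Fin k → ℕ → ℝ := fun m n =>
    if R < A m * n + d m ∧ A m * n + d m ≤ A m * N then lam (A m * n + d m) else 0 with hΛ
  have hΛ0 : ∀ m n, Λ m n ≠ 0 → R < A m * n + d m ∧ (A m * n + d m).Prime := fun m n h1 => by
    simp only [hΛ, lam] at h1
    split_ifs at h1 with h2 h3
    exacts [⟨h2.1, h3⟩, absurd rfl h1, absurd rfl h1]
  have hΛ1 : ∀ m n, 0 ≤ Λ m n ∧ Λ m n ≤ (s + 1) * l ∧ (Λ m n ≠ 0 → n₀ < n) := fun m n => by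
    refine ⟨?_, ?_, fun h1 => ?_⟩
    · simp only [hΛ]; split_ifs
      exacts [lam_nonneg _, le_rfl]
    · simp only [hΛ]; split_ifs with h1
      · refine (lam_le (y := (A m * N : ℕ)) ?_ ?_).trans (hL2 m)
        · exact_mod_cast h1.2
        · exact_mod_cast hN0.trans_le (hNX m)
      · positivity
    · have b0 := (hΛ0 m n h1).1
      have b1 := Nat.mul_le_mul_right n (hAw m)
      have b2 := hd m
      have b3 : w * W * (n₀ + 1) < w * W * n := by omega
      exact Nat.lt_of_succ_lt (Nat.lt_of_mul_lt_mul_left b3)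
  have hΛ2 : ∀ m n, Λ m n ≠ 0 → ∀ p, (n : ZMod (pr p)) ≠ r p m := fun m n h1 p h2 => by
    have b1 : ((A m * n + d m : ℕ) : ZMod (pr p)) = 0 := by
      rw [Nat.cast_add, Nat.cast_mul, h2]
      simp only [hr]; rw [mul_div_cancel₀ _ (hA0 m p), neg_add_cancel]
    rw [ZMod.natCast_eq_zero_iff, Nat.prime_dvd_prime_iff_eq (hpr p).2.1 (hΛ0 m n h1).2] at b1
    have := (hΛ0 m n h1).1
    have := (hpr p).1
    omega
  have key : ∀ m, ((1 - ε) ^ (k + 2) * JJ Nb Fb m - 3 * ε) * (u * l) ≤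
      ∑ n ∈ range (N + 1), Λ m n * ff r c n ^ 2 ∧ ∀ m', m ≠ m' →
      ∑ n ∈ range (N + 1), Λ m n * Λ m' n * ff r c n ^ 2 ≤ (s + 1) * l *
        (((1 + ε) ^ (2 * (k - 2) + 7) / (1 - ε) ^ 2 * ((∑ j ∈ range Nb, g j) ^ 4 *
          (∑ j ∈ range Nb, g j ^ 2) ^ (k - 2) / N') + 2 * ε) * (u * l)) := by
    intro m
    set X := A m * N with hX
    set L := Real.log X with hL
    have hLl : l ≤ L := hll.trans (hL1 m)
    have hL0 : 0 < L := by linarith
    have hAX : (X : ℝ) ≤ w * W * N := by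
      have : X ≤ w * W * N := Nat.mul_le_mul_right N (hAw m)
      exact_mod_cast this
    obtain ⟨E, hE0, hE1, hE2⟩ := hBV m (R ^ 2) z (Nat.one_le_pow _ _ (by positivity))
      (le_trans (by rw [hR, ← pow_mul, ← pow_succ, ← pow_mul]
                    exact Nat.pow_le_pow_right (by omega) (by omega)) (hNX m))
      (le_trans (Nat.pow_le_pow_right (by omega) (by omega)) (hNX m))
      (le_trans (by rw [← mul_pow]; gcongr; exact hL2 m) (hzB m))
      ι pr hpi (hpA m) fun p => (hpr p).1.trans (hRN.trans (hNX m))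
    set r' : (p : ι) → Fin k → ZMod (pr p) :=
      fun p i => (A m : ZMod (pr p)) * r p i + (d m : ZMod (pr p)) with hr'
    have r1 : ∀ p, Function.Injective (r' p) := fun p i j h =>
      hri p (mul_left_cancel₀ (hA0 m p) (add_left_injective _ h))
    have r2 : ∀ p, r' p m = 0 := fun p => by
      simp only [hr', hr]; rw [mul_div_cancel₀ _ (hA0 m p), neg_add_cancel]
    have e2 : ∀ c, ∑ x ∈ Ioc R X with x ≡ d m [MOD A m], lam x * ff r' c x ^ 2 =
        ∑ n ∈ range (N + 1), Λ m n * ff r c n ^ 2 := fun c => by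
      rw [Dh.sum_shift _ (by have := hA2 m; omega) (by have := hd m; omega)]
      simp only [hr', Dh.ff_shift r c (hA0 m), hΛ, ite_mul, zero_mul]
    have e1 := S2_ge r' r1 r2 hpk c (fun ω => (hc1 ω).trans (show 1 ≤ Fm from
      one_le_pow₀ (by nlinarith only [hNb', hl1]))) hc2
      (fun p => (hpr p).1) (hRN.trans (hNX m)) (hN0.trans_le (hNX m)) E hE0 hE2
    rw [e2] at e1
    set θ := ∑ x ∈ Ioc R X with x ≡ d m [MOD A m], lam x with hθ
    have e3 : (1 - ε) * (N / ρ) ≤ θ ∧ θ ≤ (1 + ε) * (N / ρ) := by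
      have a1 := abs_le.1 (hSW m (A m) (by have := hA2 m; omega) (by
        have : (A m : ℝ) ≤ w * W := by exact_mod_cast hAw m
        have a2 : (w : ℝ) * W * 1 ≤ w * W * (2 / ε) := by
          gcongr; rw [le_div_iff₀ hε]; linarith
        rw [pow_one]; linarith) _ (hcop m) X le_rfl)
      have a2 : ∑ x ∈ Ioc 0 X with x ≡ d m [MOD A m], lam x ≤ R * L + θ := by
        rw [hθ, sum_filter, sum_filter, ← sum_Ioc_consecutive _ (Nat.zero_le R)
          (hRN.trans (hNX m))]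
        gcongr
        have := sum_le_card_nsmul (Ioc 0 R) (fun x => if x ≡ d m [MOD A m] then lam x else 0) L
          fun x hx => by
            split_ifs
            · exact lam_le (by exact_mod_cast (mem_Ioc.1 hx).2.trans (hRN.trans (hNX m)))
                (by exact_mod_cast hN0.trans_le (hNX m))
            · linarith
        simpa using this
      have a3 : (X : ℝ) / (A m).totient = N / ρ := by
        have b1 := Nat.totient_gcd_mul_totient_mul (a m) W
        rw [Nat.gcd_eq_left (Nat.dvd_factorial (ha m) (hwa m)), mul_assoc,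
          Nat.mul_right_inj (Nat.totient_pos.2 (ha m)).ne'] at b1
        have b2 : (0 : ℝ) < a m := by exact_mod_cast ha m
        have b3 : (0 : ℝ) < W.totient := by exact_mod_cast Nat.totient_pos.2 hW0
        simp only [hX, hA, b1, hρ]
        push_cast
        field_simp
      have a4 : (X : ℝ) / L ^ 1 ≤ ε / 2 * N := by
        rw [pow_one, div_le_iff₀ (by linarith)]
        rw [← mul_div_assoc, div_le_iff₀ hε] at hz3
        have : (w : ℝ) * W ≤ ε / 2 * L := by nlinarith only [hz3, hLl, hε]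
        nlinarith only [this, hAX, hN']
      have a5 : R * L ≤ ε / 2 * N := by
        rw [div_mul_eq_mul_div, div_le_iff₀ hε, pow_one] at hz6
        calc _ ≤ R ^ 3 * ((s + 1) * l) := by
              gcongr
              · exact le_self_pow₀ hR1 (by norm_num)
              · exact hL2 m
          _ ≤ R ^ 3 * (ε / 2 * z) := mul_le_mul_of_nonneg_left (by linarith) (by positivity)
          _ = ε / 2 * (R ^ 3 * z) := by ring
          _ ≤ _ := by gcongr
      have a6 : (N : ℝ) ≤ N / ρ := le_div_self hN'.le hρ0 hρ1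
      have a7 : θ ≤ ∑ x ∈ Ioc 0 X with x ≡ d m [MOD A m], lam x :=
        sum_le_sum_of_subset_of_nonneg (filter_subset_filter _ (Ioc_subset_Ioc_left (Nat.zero_le R)))
          fun _ _ _ => lam_nonneg _
      rw [a3] at a1
      constructor
      · nlinarith only [a1.1, a2, a4, a5, a6, hε]
      · nlinarith only [a1.2, a7, a4, a6, hε, hN']
    have e4 : h ^ (k + 1) * ((1 - ε) ^ (k + 1) * JJ Nb Fb m - ε)
        ≤ QF (fun p => B2 (pr p) m) c := by
      refine le_trans ?_ (QF_lower hpi hz (hcov Nb (by omega)) hpk h0 hm m)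
      rw [mul_sub]
      refine sub_le_sub ?_ ?_
      · rw [JJ, ← mul_assoc, ← mul_pow, Finset.mul_sum]
        refine sum_le_sum fun j _ => ?_
        rw [mul_comm]
        refine mul_le_mul_of_nonneg_left ?_ (mul_nonneg (h0 _) (h0 _))
        calc _ = ∏ _i : Option (Fin k), (1 - ε) * h := by simp [mul_comm]
          _ ≤ _ := prod_le_prod (fun _ _ => hH0) fun i _ => (hH _).1
      · have a1 : ∑ j ∈ range Nb, HH W z j ≤ 2 * Nb * h := by
          have := sum_le_card_nsmul (range Nb) (HH W z) (2 * h) fun j _ => (hH j).2.trans (by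
            gcongr; linarith)
          simp only [card_range, nsmul_eq_mul] at this
          linarith
        have a2 : 0 ≤ ∑ j ∈ range Nb, HH W z j := sum_nonneg fun j _ => hH0.trans (hH j).1
        rw [div_le_iff₀ hε] at hwC
        calc _ ≤ 1 ^ 2 * (2 * Nb * h) ^ (k + 1) * (4 * (k + 1) ^ 2) * (1 / w) := by gcongr
          _ = h ^ (k + 1) * (C / w) := by rw [hC, mul_pow (2 * (Nb : ℝ))]; field_simp
          _ ≤ _ := by gcongr; rw [div_le_iff₀ (by linarith)]; linarith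
    have e5 : Fm ^ 2 * Pe * (∑ f, (K : ℝ) ^ #f * E f + R * L * (R ^ 2 * Pe)) ≤ 2 * ε * (u * l) := by
      have a1 : Fm ^ 2 * Pe * ∑ f, (K : ℝ) ^ #f * E f ≤ ε * N := by
        rw [div_le_iff₀ hε] at hz5
        have a0 : 0 ≤ ∑ f, (K : ℝ) ^ #f * E f :=
          sum_nonneg fun f _ => mul_nonneg (by positivity) (hE0 f)
        calc _ ≤ ((2 * Nb * L) ^ 2) ^ 2 * L ^ (6 * K) * (X / L ^ (6 * K + 5)) := by
              rw [hFm]
              gcongr
              exact hPe1.trans (pow_le_pow_left₀ (by positivity) (hL1 m) _)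
          _ = (2 * Nb) ^ 4 * X / L := by field_simp; ring
          _ ≤ (2 * Nb) ^ 4 * (w * W * N) / l := by gcongr
          _ = ((2 * Nb) ^ 4 * (w * W)) / l * N := by ring
          _ ≤ _ := by gcongr; rw [div_le_iff₀ (by linarith)]; linarith
      have a2 : Fm ^ 2 * Pe * (R * L * (R ^ 2 * Pe)) ≤ ε * N := by
        rw [div_mul_eq_mul_div, div_le_iff₀ hε] at hz8
        calc _ ≤ Fm ^ 2 * (s * l) ^ (6 * K) * (R * ((s + 1) * l) * (R ^ 2 * (s * l) ^ (6 * K))) := by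
              gcongr
              exact hL2 m
          _ = ((2 * Nb) ^ 4 * s ^ (12 * K) * (s + 1) * l ^ (12 * K + 5)) * R ^ 3 := by
              rw [hFm]; ring
          _ ≤ (z * ε) * R ^ 3 := by gcongr
          _ = ε * (R ^ 3 * z) := by ring
          _ ≤ _ := by gcongr
      nlinarith only [a1, a2, e9, hε]
    refine ⟨?_, fun m' hmm => ?_⟩
    · have e6 := mul_le_mul_of_nonneg_right e3.1 (QF_nonneg _ (fun p => psd_B2 (hpk p) m) c)
      have e7 := mul_le_mul_of_nonneg_left e4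
        (show 0 ≤ (1 - ε) * (N / ρ) from mul_nonneg (by linarith) (by positivity))
      have e8 : (1 - ε) * (N / ρ) * (h ^ (k + 1) * ((1 - ε) ^ (k + 1) * JJ Nb Fb m - ε))
          = ((1 - ε) ^ (k + 2) * JJ Nb Fb m) * (u * l) - (1 - ε) * (ε * (u * l)) := by
        rw [hu, pow_succ h, hh]; field_simp; ring
      have e11 : 0 ≤ ε * (ε * (u * l)) := by positivity
      linarith
    have hZ : 1 < z ^ N' := Nat.one_lt_pow (by omega) (by omega)
    have G0 : ∀ t, 0 ≤ g (Nat.log z t) := fun t => g0 _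
    have c0 : ∀ ω, 0 ≤ c ω := fun ω => h0 _
    have c1 : ∀ ω, c ω ≤ ∏ i, g (Nat.log z (tt pr ω i)) := fun ω => hg _
    have cb := cp_bd hmm hZ c0 (fun ω h => (cw_supp hz hs h).1) (B := Fm) fun ν => by
      refine (Mg_le G0 c1 (hα g g0 g3) ν).trans (le_trans (prod_le_prod (fun i _ => ?_)
        (g := fun i => if i = m ∨ i = m' then 2 * Nb * l else 1) fun i _ => ?_) ?_)
      · split_ifs
        exacts [mul_nonneg (by positivity) (sum_nonneg fun _ _ => g0 _), g0 _]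
      · split_ifs
        swap
        · exact g1 _
        have b1 := sum_le_card_nsmul (range Nb) g 1 fun _ _ => g1 _
        simp only [card_range, nsmul_eq_mul, mul_one] at b1
        have b2 : h ≤ l := mul_le_of_le_one_left (by linarith) hρ1
        calc _ ≤ (1 + 1) * l * Nb := by gcongr; exact sum_nonneg fun _ _ => g0 _
          _ = _ := by ring
      · rw [prod_two hmm, one_pow, mul_one]
    have f1 := S2_le r' r1 r2 hpk _ (fun ω => (cb ω).1) (fun ω h => ((cb ω).2 h).trans_eq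
      (pow_add z Nb N').symm) (fun p => (hpr p).1) (hRN.trans (hNX m)) (hN0.trans_le (hNX m))
      E hE0 hE2
    rw [e2] at f1
    have f2 := QF_pair (Z := z ^ N') (γ := (1 - ε) ^ 2 * N' * h) (π := 1 + ε) hmm
      (fun p => by have := (hpr p).2.2; omega) G0
      (fun x y hxy => g2 (Nat.log_mono_right hxy)) c0 c1 (hα g g0 g3)
      (hα (fun j => g j ^ 2) (fun _ => sq_nonneg _) fun j hj => by rw [g3 j hj]; norm_num)
      (by have : 0 < 1 - ε := by linarith
          positivity) hγ hπ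
    have f3 := mul_le_mul e3.2 f2 ((QF_nonneg _ (fun p => psd_A2' (hpk p) m) _).trans
      (QF_mono _ _ (fun p => psd_A2' (hpk p) m) (fun p => psd_B3 p_two m) _)) (by positivity)
    have f4 : ∑ n ∈ range (N + 1), Λ m n * Λ m' n * ff r c n ^ 2 ≤
        (s + 1) * l * ∑ n ∈ range (N + 1), Λ m n * ff r (cp pr m m' (z ^ N') c) n ^ 2 := by
      rw [Finset.mul_sum]
      refine sum_le_sum fun n _ => ?_
      have b0 : 0 ≤ (s + 1) * l * (Λ m n * ff r (cp pr m m' (z ^ N') c) n ^ 2) :=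
        mul_nonneg (by positivity) (mul_nonneg (hΛ1 m n).1 (sq_nonneg _))
      by_cases h1 : Λ m n = 0
      · simp only [h1, zero_mul, mul_zero, le_refl]
      by_cases h2 : Λ m' n = 0
      · rwa [h2, mul_zero, zero_mul]
      have b1 : ∀ p, (n : ZMod (pr p)) ≠ r p m ∧ (n : ZMod (pr p)) ≠ r p m' := fun p =>
        ⟨hΛ2 m n h1 p, hΛ2 m' n h2 p⟩
      rw [ff_eq r c b1, ff_eq r _ b1]
      simp only [Mg_cp hmm hZ]
      rw [mul_comm (Λ m n), mul_assoc]
      exact mul_le_mul_of_nonneg_right (hΛ1 m' n).2.1 (mul_nonneg (hΛ1 m n).1 (sq_nonneg _))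
    refine f4.trans (mul_le_mul_of_nonneg_left ?_ (by positivity))
    obtain ⟨j, hj⟩ : ∃ j, k = j + 2 := ⟨k - 2, by
      have := m.2; have := m'.2; have := Fin.val_ne_of_ne hmm; omega⟩
    have f5 : (1 + ε) * (N / ρ) * ((1 + ε) * ((1 + ε) / ((1 - ε) ^ 2 * N' * h) *
        ((((1 + ε) * h * ∑ j ∈ range Nb, g j) ^ 2) ^ 2 *
          ((1 + ε) * ((1 + ε) * h * ∑ j ∈ range Nb, g j ^ 2)) ^ (k - 2)))) =
        (1 + ε) ^ (2 * (k - 2) + 7) / (1 - ε) ^ 2 * ((∑ j ∈ range Nb, g j) ^ 4 *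
          (∑ j ∈ range Nb, g j ^ 2) ^ (k - 2) / N') * (u * l) := by
      have : 0 < 1 - ε := by linarith
      have hl' : l = h / ρ := by rw [hh]; field_simp
      rw [hu, show h ^ k = h ^ (k - 2) * h ^ 2 by rw [← pow_add]; congr 1; omega, hl']
      simp only [mul_pow]
      field_simp
      ring
    linarith
  have e4 : (s : ℝ) + 1 = 4 * (Nb + N') + 5 := by rw [hs4]; push_cast; ring
  have hu0 : 0 < u := by linarith
  have hl0 : 0 < l := by linarith
  refine ⟨N + 1, fun n => ff r c n ^ 2 / u, fun m n => Λ m n / l, fun n => by positivity,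
    fun m n => ⟨div_nonneg (hΛ1 m n).1 hl0.le, by rw [div_le_iff₀ hl0, ← e4]; exact (hΛ1 m n).2.1,
      fun h => ⟨(hΛ1 m n).2.2 (div_ne_zero_iff.1 h).1, (hΛ0 m n (div_ne_zero_iff.1 h).1).2⟩⟩,
    ?_, fun m => ?_, fun m m' hmm => ?_⟩
  · rw [← sum_div, div_le_iff₀ hu0]; linarith
  · simp only [div_mul_div_comm]
    rw [← sum_div, le_div_iff₀ (by positivity), mul_comm l]; exact (key m).1
  · rw [sum_congr rfl (g := fun n => Λ m n * Λ m' n * ff r c n ^ 2 / (l * (u * l)))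
      fun n _ => by ring, ← sum_div, div_le_iff₀ (by positivity), ← e4]
    exact ((key m).2 m' hmm).trans_eq (mul_mul_mul_comm _ _ _ _)

end Pool.Agent.Lib.MP_be93de_nt.Pa
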