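import Pool.Agent.Lib.MP_be93de_nt.Pa4
import Pool.Agent.Lib.MP_be93de_nt.Pa5

/-! A quarter of the parts contain many primes. -/

namespace Pool.Agent.Lib.MP_be93de_nt.Pa

open Finset Filter Topology Pool.Agent.Lib.MP_28260b_nt

theorem core (M n0 : ℕ) {e : ℝ} (he : 0 < e) : ∃ t : ℕ, 1 ≤ t ∧ ∃ w₀, ∀ w ≥ w₀,
    ∀ a d : Fin M → Fin t → ℕ, (∀ j i, 0 < a j i) → (∀ j i, a j i ≤ w) →
    (∀ j i, (d j i).Coprime (a j i * w.factorial)) →
    (∀ q, q.Prime → w < q → ∀ x y : Fin M × Fin t,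
      a x.1 x.2 * d y.1 y.2 ≡ a y.1 y.2 * d x.1 x.2 [MOD q] → x = y) →
    ∀ wt : Fin M → ℝ, (∀ j, 0 ≤ wt j) → ∀ n₀, ∃ n > n₀, (1 / 4 - e) * ∑ j, wt j ≤
      ∑ j with n0 ≤ #(univ.filter fun i => (a j i * w.factorial * n + d j i).Prime), wt j := by
  by_cases triv : M = 0 ∨ 1 / 4 ≤ e
  · refine ⟨1, le_rfl, 0, fun w _ a d _ _ _ _ wt hw n₀ => ⟨n₀ + 1, n₀.lt_succ_self,
      le_trans ?_ (sum_nonneg fun j _ => hw j)⟩⟩
    rcases triv with rfl | h
    · simp
    · exact mul_nonpos_of_nonpos_of_nonneg (by linarith) (sum_nonneg fun j _ => hw j)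
  obtain ⟨hM, he4⟩ := not_or.1 triv
  rw [not_le] at he4
  have hM' : (1 : ℝ) ≤ M := by exact_mod_cast Nat.pos_of_ne_zero hM
  set D := ⌈9 / e⌉₊ with hD
  clear_value D
  have hD1 : 9 / e ≤ D := hD ▸ Nat.le_ceil _
  have hD0 : 0 < D := hD ▸ Nat.ceil_pos.2 (by positivity)
  have hD' : (0 : ℝ) < D := by exact_mod_cast hD0
  obtain ⟨T, hT1, hT2, hT3⟩ := ((Real.tendsto_sum_range_one_div_nat_succ_atTop.eventually_ge_atTop
    ((10 * n0 + 1) * (2 * D * M * (2 / e + 2)) / e)).and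
    ((Real.tendsto_sum_range_one_div_nat_succ_atTop.eventually_ge_atTop 1).and
      (eventually_ge_atTop 2))).exists
  set a1 := ∑ i ∈ range T, (1 : ℝ) / (i + 1) with ha1
  clear_value a1
  have hT' : (2 : ℝ) ≤ T := by exact_mod_cast hT3
  set k := M * T with hk
  clear_value k
  have hk2 : 2 ≤ k := hk ▸ hT3.trans (Nat.le_mul_of_pos_left T (Nat.pos_of_ne_zero hM))
  have hk' : (2 : ℝ) ≤ k := by exact_mod_cast hk2
  set c1 := ⌈2 * a1 / e⌉₊ with hc1
  clear_value c1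
  have hc2 : 2 * a1 / e ≤ c1 := hc1 ▸ Nat.le_ceil _
  have hc3 : (c1 : ℝ) ≤ 2 * a1 / e + 1 := hc1 ▸ (Nat.ceil_lt_add_one (by positivity)).le
  have hc0 : 0 < c1 := hc1 ▸ Nat.ceil_pos.2 (by positivity)
  have hc' : (0 : ℝ) < c1 := by exact_mod_cast hc0
  set Nb := T + c1 * k with hNb
  clear_value Nb
  have hNb1 : 1 ≤ Nb := by omega
  have hNb' : (1 : ℝ) ≤ Nb := by exact_mod_cast hNb1
  set g : ℕ → ℝ := fun j => if j < T then 1 / (j + 1) else 0 with hg
  clear_value g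
  have g0 : ∀ j, 0 ≤ g j := fun j => by simp only [hg]; positivity
  have g4 : ∀ j, g j ≤ 1 / (j + 1) := fun j => by
    simp only [hg]; split_ifs
    exacts [le_rfl, by positivity]
  have g1 : ∀ j, g j ≤ 1 := fun j => (g4 j).trans (by
    rw [div_le_one (by positivity)]; linarith [(Nat.cast_nonneg j : (0 : ℝ) ≤ j)])
  have g2 : Antitone g := fun x y h => by
    by_cases h1 : x < T
    · refine (g4 y).trans ?_
      simp only [hg, if_pos h1]; gcongr
    · simp only [hg, if_neg h1, if_neg (show ¬ y < T by omega), le_refl]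
  have g3 : ∀ j, T ≤ j → g j = 0 := fun j h => by simp only [hg, if_neg (not_lt.2 h)]
  have s1 : ∑ j ∈ range Nb, g j = a1 := by
    rw [← sum_subset (range_mono (show T ≤ Nb by omega)) fun j _ h => g3 j (by simpa using h)]
    exact ha1 ▸ sum_congr rfl fun j h => by simp only [hg, if_pos (mem_range.1 h)]
  set a2 := ∑ j ∈ range Nb, g j ^ 2 with ha2
  clear_value a2
  have s2 : 1 ≤ a2 := ha2 ▸ le_trans (by simp [hg, show 0 < T by omega])
    (single_le_sum (f := fun j => g j ^ 2) (fun _ _ => sq_nonneg _) (mem_range.2 hNb1))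
  have s3 : ∀ n : ℕ, ∑ j ∈ range n, g j ^ 2 ≤ 2 - 2 / (2 * (n : ℝ) + 1) := fun n => by
    induction n with
    | zero => simp
    | succ n ih =>
      have b1 := pow_le_pow_left₀ (g0 n) (g4 n) 2
      have b2 : (1 / ((n : ℝ) + 1)) ^ 2 ≤ 2 / (2 * n + 1) - 2 / (2 * (n + 1) + 1) := by
        rw [div_pow, div_sub_div _ _ (by positivity) (by positivity),
          div_le_div_iff₀ (by positivity) (by positivity)]
        nlinarith
      rw [sum_range_succ]; push_cast; linarith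
  have s4 : a2 ≤ 2 := ha2 ▸ (s3 Nb).trans (sub_le_self _ (by positivity))
  have hJ : ∀ m : Fin k, (1 - e) * (a1 ^ 2 * a2 ^ (k - 1)) ≤ JJ Nb (FT g Nb) m := fun m => by
    refine le_trans ?_ (JJ_low g0 (D := c1 * k) (β := a1) (by positivity) g3 hNb.ge (by linarith) ?_ m)
    · rw [s1, ← ha2]
      gcongr
      rw [div_le_iff₀ he] at hc2
      rw [div_le_iff₀ (by positivity)]
      push_cast
      nlinarith
    · rw [← ha2]
      refine le_trans (le_of_eq ?_) (le_mul_of_one_le_right (by linarith) s2)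
      rw [← s1]
      refine sum_congr rfl fun j _ => ?_
      simp only [hg]; split_ifs
      · field_simp
      · simp
  set N' := D * Nb with hN'
  clear_value N'
  have hN1 : 1 ≤ N' := hN' ▸ Nat.mul_pos hD0 hNb1
  have hN2 : (N' : ℝ) = D * Nb := hN' ▸ Nat.cast_mul _ _
  have hN3 : (0 : ℝ) < N' := by exact_mod_cast hN1
  set σ : ℝ := 4 * (Nb + N') + 5 with hσ
  clear_value σ
  have σ0 : 0 < σ := by rw [hσ]; positivity
  set C := σ / N' with hC
  clear_value C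
  have C1 : 4 ≤ C := by rw [hC, le_div_iff₀ hN3]; linarith
  have C2 : C ≤ 4 + e := by
    rw [div_le_iff₀ he] at hD1
    rw [hC, div_le_iff₀ hN3, hσ, hN2]; nlinarith
  set lm := a2 / (C * a1 ^ 2 * T) with hlm
  clear_value lm
  have C0 : 0 < C := by linarith
  have a0 : 0 < a1 := by linarith
  have l0 : 0 < lm := by rw [hlm]; positivity
  have l1 : (10 * n0 + 1) * (lm * σ) ≤ e := by
    have b1 : lm * σ = D * (1 + c1 * M) * a2 / a1 ^ 2 := by
      rw [hlm, hC, hN2, hNb, hk]; push_cast; field_simp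
    have b2 : lm * σ ≤ 2 * D * M * (2 / e + 2) / a1 := by
      have b3 : 1 + c1 * M ≤ M * (2 / e + 2) * a1 := by
        have : 2 * a1 / e = 2 / e * a1 := by ring
        nlinarith [mul_le_mul_of_nonneg_right hc3 (show (0 : ℝ) ≤ M by linarith),
          mul_le_mul_of_nonneg_left hT2 (show (0 : ℝ) ≤ M by linarith)]
      rw [b1]
      calc _ ≤ D * (M * (2 / e + 2) * a1) * 2 / a1 ^ 2 := by gcongr
        _ = _ := by field_simp
    refine (mul_le_mul_of_nonneg_left b2 (by positivity)).trans ?_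
    rw [div_le_iff₀ he] at hT1
    rw [← mul_div_assoc, div_le_iff₀ (by linarith)]
    linarith
  have n1 : 0 ≤ n0 * (lm * σ) := by positivity
  have l2 : lm * σ ≤ 2 := by linarith
  have gap : (1 / 4 - e + 2 * lm * n0 * σ) * a2 ^ k + lm ^ 2 * T ^ 2 *
      (σ * (a1 ^ 4 * a2 ^ (k - 2) / N')) <
      (2 * lm - lm ^ 2 * σ) * T * ((1 - e) * (a1 ^ 2 * a2 ^ (k - 1))) := by
    obtain ⟨j, hj⟩ : ∃ j, k = j + 2 := ⟨k - 2, by omega⟩
    have b1 : lm ^ 2 * T ^ 2 * (σ * (a1 ^ 4 * a2 ^ (k - 2) / N')) = 1 / C * a2 ^ k := by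
      rw [hlm, hj, show σ = C * N' by rw [hC]; field_simp, Nat.add_sub_cancel]; field_simp; ring
    have b2 : (2 * lm - lm ^ 2 * σ) * T * ((1 - e) * (a1 ^ 2 * a2 ^ (k - 1))) =
        (2 - lm * σ) * (1 - e) / C * a2 ^ k := by
      rw [show 2 * lm - lm ^ 2 * σ = (2 - lm * σ) * lm by ring, hj, show j + 2 - 1 = j + 1 by omega]
      generalize 2 - lm * σ = x
      rw [hlm]; field_simp; ring
    rw [b1, b2, ← add_mul]
    refine mul_lt_mul_of_pos_right ?_ (by positivity)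
    rw [lt_div_iff₀ (by linarith), add_mul, div_mul_cancel₀ _ (by linarith)]
    nlinarith [mul_pos l0 σ0, mul_le_mul_of_nonneg_left C1 he.le,
      mul_le_mul_of_nonneg_left (show C ≤ 5 by linarith) n1, mul_pos he (mul_pos l0 σ0)]
  obtain ⟨ε, h4, hε, hε2⟩ : ∃ ε : ℝ, (1 / 4 - e + 2 * lm * n0 * σ) * ((1 + ε) ^ (k + 1) * a2 ^ k + ε)
      + lm ^ 2 * T ^ 2 * (σ * ((1 + ε) ^ (2 * (k - 2) + 7) / (1 - ε) ^ 2 *
        (a1 ^ 4 * a2 ^ (k - 2) / N') + 2 * ε)) < (2 * lm - lm ^ 2 * σ) * T *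
      ((1 - ε) ^ (k + 2) * ((1 - e) * (a1 ^ 2 * a2 ^ (k - 1))) - 3 * ε) ∧ ε ∈ Set.Ioc 0 (1 / 2) := by
    refine (Eventually.and (Eventually.filter_mono (nhdsWithin_le_nhds (s := Set.Ioi 0))
      (ContinuousAt.eventually_lt ?_ ?_ ?_)) (Ioc_mem_nhdsGT (show (0 : ℝ) < 1 / 2 by norm_num))).exists
    · fun_prop (disch := norm_num)
    · fun_prop
    · simpa using gap
  obtain ⟨w₀, hw⟩ := moments (k := k) hNb1 hN1 g0 g1 g2 (fun j h => g3 j (by omega))
    (fun j => (FT_bd (Nb := Nb) g0 j).1) (fun j => (FT_bd g0 j).2)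
    (fun j h => by by_contra h1; exact h (if_neg h1)) hε hε2
  refine ⟨T, by omega, w₀, fun w h1 a d ha haw hc hdet wt hwt n₀ => ?_⟩
  have E : Fin M × Fin T ≃ Fin k := hk ▸ finProdFinEquiv
  obtain ⟨N, f, Λ, f0, f1, f2, f3, f4⟩ := hw w h1 (fun m => a (E.symm m).1 (E.symm m).2)
    (fun m => d (E.symm m).1 (E.symm m).2) (fun _ => ha _ _) (fun _ => haw _ _) (fun _ => hc _ _)
    (fun q hq hwq i j h => E.symm.injective (hdet q hq hwq _ _ h)) n₀
  rw [s1, ← ha2, ← hσ] at f4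
  rw [← hσ] at f1
  refine comb (Λ := fun j i => Λ (E (j, i))) f0 (fun j i n => by simpa using f1 (E (j, i)) n)
    (f2.trans ?_) (fun j i => le_trans ?_ (f3 _))
    (fun j i i' h => f4 _ _ fun h1 => h (Prod.ext_iff.1 (E.injective h1)).2) (by positivity)
    (by linarith) σ0.le l0.le l2 h4 wt hwt
  · gcongr; exact ha2 ▸ II_le g0
  · gcongr
    exacts [pow_nonneg (by linarith) _, hJ _]

end Pool.Agent.Lib.MP_be93de_nt.Pa
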