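import Pool.Agent.Lib.MP_be93de_nt.Pa7

/-! The parts lemma for primes whose rank is divisible by `n`. -/

namespace Pool.Agent.Lib.MP_be93de_nt.Pa

open Finset Filter Pool.Agent.Lib.MP_6a20cc_nt

lemma rank_hit {n u v : ℕ} (hn : 1 ≤ n) (h : n ≤ #{x ∈ Icc u v | x.Prime}) :
    ∃ x ∈ Icc u v, x.Prime ∧ n ∣ Nat.count Nat.Prime x + 1 := by
  have hi := Nat.infinite_setOfPred_prime
  have h1 : Nat.count Nat.Prime u + n ≤ Nat.count Nat.Prime (v + 1) := by
    rw [Nat.count_eq_card_filter_range, Nat.count_eq_card_filter_range]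
    obtain ⟨y, hy⟩ := card_pos.1 (lt_of_lt_of_le hn h)
    have hy' := mem_Icc.1 (mem_filter.1 hy).1
    refine (Nat.add_le_add_left h _).trans ?_
    rw [← card_union_of_disjoint (disjoint_left.2 fun x h1 h2 => by
      have := mem_range.1 (mem_filter.1 h1).1
      have := mem_Icc.1 (mem_filter.1 h2).1
      omega)]
    refine card_le_card fun x hx => ?_
    simp only [mem_union, mem_filter, mem_range, mem_Icc] at hx ⊢
    rcases hx with hx | hx
    exacts [⟨by omega, hx.2⟩, ⟨by omega, hx.2⟩]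
  obtain ⟨c, hc⟩ : ∃ c, c = Nat.count Nat.Prime u := ⟨_, rfl⟩
  have h2 := Nat.div_add_mod c n
  have h3 := Nat.mod_lt c hn
  have h4 : n * (c / n + 1) = n * (c / n) + n := by ring
  have h5 : Nat.count Nat.Prime u ≤ n * (c / n + 1) - 1 := by omega
  have h6 : n * (c / n + 1) - 1 < Nat.count Nat.Prime (v + 1) := by omega
  refine ⟨Nat.nth Nat.Prime (n * (c / n + 1) - 1), mem_Icc.2 ⟨(Nat.count_le_iff_le_nth hi).1
    h5, Nat.le_of_lt_succ (Nat.nth_lt_of_lt_count h6)⟩, Nat.prime_nth_prime _, ?_⟩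
  rw [Nat.count_nth_of_infinite hi, Nat.sub_add_cancel (by omega)]
  exact dvd_mul_right _ _

lemma kill (B : Finset ℕ) {D L : ℕ} (hD : ∀ x ∈ B, x ≤ D) (hL : #B ≤ L)
    (hB : ∀ x ∈ B, ∀ p, p.Prime → p ≤ L → ¬ p ∣ x) : ∃ w₀, ∀ w ≥ w₀, ∃ a,
    (∀ x ∈ B, (a + x).Coprime w.factorial) ∧ ∀ j ≤ D, j ∉ B → ∃ q, q.Prime ∧ q ≤ w ∧ q ∣ a + j := by
  have hi := Nat.infinite_setOfPred_prime
  have h1 : ∀ p, p.Prime → ∃ r, (∀ x ∈ B, ¬ p ∣ r + x) ∧
      ∀ j ≤ D, j ∉ B → p = Nat.nth Nat.Prime (D + j) → p ∣ r + j := fun p hp => by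
    by_cases h : ∃ j ≤ D, j ∉ B ∧ p = Nat.nth Nat.Prime (D + j)
    · obtain ⟨j, j1, j2, j3⟩ := h
      have a1 := Nat.add_two_le_nth_prime (D + j)
      refine ⟨p - j, fun x hx h => ?_, fun i _ _ i3 => ?_⟩
      · obtain ⟨c, hc⟩ := h
        have := hD x hx
        have a2 : x ≠ j := fun e => j2 (e ▸ hx)
        rcases c with _ | _ | c
        · omega
        · omega
        · have : p * (c + 1 + 1) = p * c + p + p := by ring
          omega
      · have := Nat.nth_injective hi (j3.symm.trans i3)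
        rw [show p - j + i = p by omega]
    · suffices ∃ r, ∀ x ∈ B, ¬ p ∣ r + x from
        this.imp fun r hr => ⟨hr, fun j j1 j2 j3 => absurd ⟨j, j1, j2, j3⟩ h⟩
      by_cases h2 : p ≤ L
      · exact ⟨0, fun x hx => by simpa using hB x hx p hp h2⟩
      have := Fact.mk hp
      obtain ⟨r, -, hr⟩ := exists_mem_notMem_of_card_lt_card
        (s := B.image fun x : ℕ => -(x : ZMod p)) (t := univ)
        (card_image_le.trans_lt (by rw [card_univ, ZMod.card]; omega))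
      refine ⟨r.val, fun x hx h3 => hr (mem_image.2 ⟨x, hx, ?_⟩)⟩
      rw [← ZMod.natCast_eq_zero_iff, Nat.cast_add, ZMod.natCast_zmod_val] at h3
      exact neg_eq_of_add_eq_zero_left h3
  choose! r hr using h1
  refine ⟨Nat.nth Nat.Prime (D + D), fun w hw => ?_⟩
  obtain ⟨a, ha⟩ := Nat.chineseRemainderOfFinset r id (Nat.primesLE w)
    (fun q hq => (Nat.prime_of_mem_primesLE hq).ne_zero)
    (fun q hq q' hq' hne => (Nat.coprime_primes (Nat.prime_of_mem_primesLE hq)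
      (Nat.prime_of_mem_primesLE hq')).2 hne)
  have h2 : ∀ q x, q.Prime → q ≤ w → (q ∣ a + x ↔ q ∣ r q + x) := fun q x h1 h2 =>
    (Nat.ModEq.add_right x (ha q (Nat.mem_primesLE.2 ⟨h2, h1⟩))).dvd_iff dvd_rfl
  refine ⟨a, fun x hx => ?_, fun j j1 j2 => ?_⟩
  · by_contra h
    obtain ⟨q, hq, h3, h4⟩ := Nat.Prime.not_coprime_iff_dvd.1 h
    exact (hr q hq).1 x hx ((h2 q x hq (hq.dvd_factorial.1 h4)).1 h3)
  · have a1 := Nat.prime_nth_prime (D + j)
    have a2 := (Nat.nth_monotone hi (show D + j ≤ D + D by omega)).trans hw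
    exact ⟨_, a1, a2, (h2 _ j a1 a2).2 ((hr _ a1).2 j j1 j2 rfl)⟩

theorem partsR {n : ℕ} (hn : 1 ≤ n) (M : ℕ) (e : ℝ) (he : 0 < e) : ∃ t ≥ 1,
    ∀ U : Fin M → Finset ℕ, (∀ j, #(U j) = t) →
    (∀ j j', j < j' → ∀ x ∈ U j, ∀ y ∈ U j', x < y) →
    (∀ j, ∀ x ∈ U j, ∀ p, p.Prime → p ≤ M * t → ¬ p ∣ x) →
    ∀ w : Fin M → ℝ, (∀ j, 0 ≤ w j) → ∃ (J : Finset (Fin M)) (y : Fin M → ℕ),
      (1 / 4 - e) * ∑ j, w j ≤ ∑ j ∈ J, w j ∧ (∀ j, y j ∈ U j) ∧ ∀ j ∈ J, ∀ j' ∈ J, j < j' →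
        y j' - y j ∈ {h : ℕ | Set.Infinite {k : ℕ | 1 ≤ k ∧
          (Nat.nth Nat.Prime (k * n - 1) + h).Prime}} := by
  obtain ⟨t, ht, w₀, hw⟩ := core M n he
  refine ⟨t, ht, fun U hU ho hc wt hwt => ?_⟩
  set B := univ.biUnion U with hB
  have hm : ∀ {x j}, x ∈ U j → x ∈ B := fun h => mem_biUnion.2 ⟨_, mem_univ _, h⟩
  set D := B.sup id
  have hD : ∀ x ∈ B, x ≤ D := fun x hx => le_sup (f := id) hx
  obtain ⟨w₁, h1⟩ := kill B hD (L := M * t) (card_biUnion_le.trans (by simp [hU])) fun x hx => by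
    obtain ⟨j, -, h⟩ := mem_biUnion.1 hx
    exact hc j x h
  set w := w₀ + w₁ + D + 1 with hw1
  obtain ⟨a, a1, a2⟩ := h1 w (by omega)
  set b : Fin M → Fin t → ℕ := fun j i => (U j).orderEmbOfFin (hU j) i with hb
  have b1 : ∀ j i, b j i ∈ U j := fun j i => orderEmbOfFin_mem _ _ _
  have b2 : ∀ j, Function.Injective (b j) := fun j => ((U j).orderEmbOfFin (hU j)).injective
  have b3 : ∀ {j j' x}, x ∈ U j → x ∈ U j' → j = j' := fun h h' => by
    by_contra hne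
    rcases lt_or_gt_of_ne hne with h3 | h3
    exacts [(ho _ _ h3 _ h _ h').false, (ho _ _ h3 _ h' _ h).false]
  have h2 := hw w (by omega) (fun _ _ => 1) (fun j i => a + b j i) (fun _ _ => one_pos)
    (fun _ _ => by omega) (fun j i => by simpa using a1 _ (hm (b1 j i))) (fun q _ hq x y h => by
      have c1 := hD _ (hm (b1 x.1 x.2))
      have c2 := hD _ (hm (b1 y.1 y.2))
      simp only [one_mul] at h
      have c3 := Nat.ModEq.eq_of_lt_of_lt (Nat.ModEq.add_left_cancel' a h) (by omega) (by omega)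
      obtain ⟨j, i⟩ := x
      obtain ⟨j', i'⟩ := y
      obtain rfl : j = j' := b3 (b1 j i) (c3 ▸ b1 j' i')
      exact congrArg _ (b2 j c3.symm)) wt hwt
  set W := w.factorial with hW
  have W0 : w ≤ W := Nat.self_le_factorial w
  simp only [one_mul] at h2
  have h3 : ∀ N j, ∃ i, 2 ≤ N → n ≤ #(univ.filter fun i => (W * N + (a + b j i)).Prime) →
      (W * N + (a + b j i)).Prime ∧ n ∣ Nat.count Nat.Prime (W * N + (a + b j i)) + 1 := by
    intro N j
    have hne : (U j).Nonempty := card_pos.1 (by rw [hU]; exact ht)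
    by_cases h : 2 ≤ N ∧ n ≤ #(univ.filter fun i => (W * N + (a + b j i)).Prime)
    swap
    · exact ⟨⟨0, ht⟩, fun c1 c2 => absurd ⟨c1, c2⟩ h⟩
    obtain ⟨x, x1, x2, x3⟩ := rank_hit (u := W * N + (a + (U j).min' hne))
      (v := W * N + (a + (U j).max' hne)) hn (h.2.trans (card_le_card_of_injOn
        (fun i => W * N + (a + b j i)) (fun i hi => by
          have c1 := min'_le _ _ (b1 j i)
          have c2 := le_max' _ _ (b1 j i)
          exact mem_filter.2 ⟨mem_Icc.2 ⟨by beta_reduce; omega, by beta_reduce; omega⟩,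
            (mem_filter.1 hi).2⟩) fun i _ i' _ h => b2 j (by simpa using h)))
    rw [mem_Icc] at x1
    obtain ⟨v, rfl⟩ : ∃ v, x = W * N + (a + v) := ⟨x - (W * N + a), by omega⟩
    have c1 := min'_mem _ hne
    have c2 := max'_mem _ hne
    have c3 := hD _ (hm c2)
    have c4 : v ∈ B := by
      by_contra h4
      obtain ⟨q, q1, q2, q3⟩ := a2 v (by omega) h4
      have h5 := (Nat.prime_dvd_prime_iff_eq q1 x2).1
        (dvd_add ((q1.dvd_factorial.2 q2).mul_right _) q3)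
      have h6 : W * 2 ≤ W * N := Nat.mul_le_mul_left W h.1
      omega
    obtain ⟨j', -, c5⟩ := mem_biUnion.1 c4
    obtain rfl : j' = j := by
      by_contra hne
      rcases lt_or_gt_of_ne hne with h3 | h3
      · have := ho _ _ h3 _ c5 _ c1; omega
      · have := ho _ _ h3 _ c2 _ c5; omega
    obtain ⟨i, hi⟩ : v ∈ Set.range (b j') := by
      rw [hb, range_orderEmbOfFin]; exact c5
    exact ⟨i, fun _ _ => hi ▸ ⟨x2, x3⟩⟩
  choose y hy using h3
  set J : ℕ → Finset (Fin M) := fun N =>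
    univ.filter fun j => n ≤ #(univ.filter fun i => (W * N + (a + b j i)).Prime) with hJ
  have h4 : {N | (1 / 4 - e) * ∑ j, wt j ≤ ∑ j ∈ J N, wt j}.Infinite :=
    Set.infinite_of_forall_exists_gt fun n₀ => (h2 n₀).imp fun N h => ⟨h.2, h.1⟩
  obtain ⟨N, n1, n2⟩ := Dp.pigeon h4 fun N => (J N, y N)
  refine ⟨J N, fun j => b j (y N j), n1, fun j => b1 _ _, fun j hj j' hj' hjj => ?_⟩
  refine Set.infinite_of_forall_exists_gt fun K => ?_
  obtain ⟨N', m1, m2⟩ := n2.exists_gt (Nat.nth Nat.Prime ((K + 1) * n) + 2)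
  obtain ⟨m3, m4⟩ := Prod.ext_iff.1 m1
  simp only at m3 m4
  rw [← m3] at hj hj'
  obtain ⟨p1, k, p2⟩ := hy N' j (by omega) (mem_filter.1 hj).2
  have p3 := (hy N' j' (by omega) (mem_filter.1 hj').2).1
  rw [m4] at p1 p2 p3
  have p4 : Nat.nth Nat.Prime (k * n - 1) = W * N' + (a + b j (y N j)) := by
    rw [mul_comm k, ← p2, Nat.add_sub_cancel, Nat.nth_count p1]
  have p5 := ho j j' hjj _ (b1 j (y N j)) _ (b1 j' (y N j'))
  have p6 : K < k := by
    by_contra h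
    have c1 : Nat.nth Nat.Prime _ ≤ Nat.nth Nat.Prime _ :=
      Nat.nth_monotone Nat.infinite_setOfPred_prime (show k * n - 1 ≤ (K + 1) * n from
      (Nat.sub_le _ _).trans (Nat.mul_le_mul_right n (by omega)))
    have c2 : N' ≤ W * N' := Nat.le_mul_of_pos_left _ (by omega)
    omega
  refine ⟨k, ⟨by omega, ?_⟩, p6⟩
  rw [p4]
  convert p3 using 1
  beta_reduce
  omega

end Pool.Agent.Lib.MP_be93de_nt.Pa
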