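import Pool.Agent.Lib.MP_6a20cc_nt.DpBlow
import Pool.Agent.Lib.MP_6a20cc_nt.DpDes

/-! Lower density of a set of differences that is rich on admissible families. -/

namespace Pool.Agent.Lib.MP_be93de_nt.RCount

open Finset Pool.Agent.Lib.MP_6a20cc_nt.Dp
open Fintype (piFinset mem_piFinset)

lemma cls {q : ℕ} (hq : 0 < q) (a b : ℕ) (r : ℤ) :
    (b : ℝ) - a - q ≤ q * #((Ioc a b).filter fun x : ℕ => (q : ℤ) ∣ x - r) := by
  have q0 : (0 : ℤ) < q := by exact_mod_cast hq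
  have e : #((Ioc a b).filter fun x : ℕ => (q : ℤ) ∣ x - r) = #{x ∈ Ioc (a : ℤ) b | x ≡ r [ZMOD q]} := by
    refine card_nbij' (fun x : ℕ => (x : ℤ)) Int.toNat (fun x hx => ?_) (fun x hx => ?_)
      (fun x _ => by simp) fun x hx => ?_
    · obtain ⟨h1, h2⟩ := mem_filter.1 (mem_coe.1 hx)
      have := mem_Ioc.1 h1
      exact mem_coe.2 (mem_filter.2 ⟨mem_Ioc.2 (by beta_reduce; omega),
        (Int.modEq_iff_dvd.2 h2).symm⟩)
    · obtain ⟨h1, h2⟩ := mem_filter.1 (mem_coe.1 hx)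
      have := mem_Ioc.1 h1
      refine mem_coe.2 (mem_filter.2 ⟨mem_Ioc.2 (by omega), ?_⟩)
      rw [Int.toNat_of_nonneg (by omega)]
      exact h2.symm.dvd
    · have := mem_Ioc.1 (mem_filter.1 (mem_coe.1 hx)).1
      exact Int.toNat_of_nonneg (by omega)
  have e2 := (le_max_left _ _).trans (Int.Ioc_filter_modEq_card (a : ℤ) b q0 r).ge
  rw [← e] at e2
  have q1 : (0 : ℚ) < q := by exact_mod_cast hq
  have e3 := Int.lt_floor_add_one ((((b : ℤ) : ℚ) - r) / ((q : ℤ) : ℚ))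
  have e4 := Int.floor_le ((((a : ℤ) : ℚ) - r) / ((q : ℤ) : ℚ))
  have e5 := (Int.cast_le (R := ℚ)).2 e2
  push_cast at e3 e4 e5
  rw [div_lt_iff₀ q1] at e3
  rw [le_div_iff₀ q1] at e4
  have : (b : ℚ) - a - q ≤ q * #((Ioc a b).filter fun x : ℕ => (q : ℤ) ∣ x - r) := by nlinarith
  exact_mod_cast this

lemma inj992 : #{i : Fin 2 → Fin 32 | Function.Injective i} = 992 := by
  rw [← Fintype.card_subtype, Fintype.card_congr (Equiv.subtypeInjectiveEquivEmbedding _ _),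
    Fintype.card_embedding_eq]
  simp

theorem dens (H : Set ℕ) (hH : ∀ (M : ℕ) (e : ℝ), 0 < e → ∃ t ≥ 1, ∀ U : Fin M → Finset ℕ,
    (∀ j, #(U j) = t) → (∀ j j', j < j' → ∀ x ∈ U j, ∀ y ∈ U j', x < y) →
    (∀ j, ∀ x ∈ U j, ∀ p : ℕ, p.Prime → p ≤ M * t → ¬ p ∣ x) → ∀ w : Fin M → ℝ, (∀ j, 0 ≤ w j) →
    ∃ (J : Finset (Fin M)) (y : Fin M → ℕ), (1 / 4 - e) * ∑ j, w j ≤ ∑ j ∈ J, w j ∧
      (∀ j, y j ∈ U j) ∧ ∀ j ∈ J, ∀ j' ∈ J, j < j' → y j' - y j ∈ H) :
    ∀ᶠ x : ℕ in Filter.atTop, (x : ℝ) / 13 ≤ {h | h ∈ H ∧ 1 ≤ h ∧ h ≤ x}.ncard := by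
  classical
  by_contra hc
  have hb : ∀ n : ℕ, ∃ x, n ≤ x ∧ (#{h ∈ Icc 1 x | h ∈ H} : ℝ) < x / 13 := fun n => by
    obtain ⟨x, h1, h2⟩ := Filter.frequently_atTop.1 (Filter.not_eventually.1 hc) n
    refine ⟨x, h1, lt_of_eq_of_lt ?_ (not_le.1 h2)⟩
    rw [← Set.ncard_coe_finset]
    congr 2
    ext h
    simp [and_comm]
  choose f f1 f2 using hb
  obtain ⟨t, t1, hH⟩ := hH 32 (1 / 10000) (by norm_num)
  obtain ⟨N0, hB⟩ := blow 32 1 t (r := 1 / 4 - 1 / 10000) (η := 1 / 1000) (by norm_num) (by norm_num)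
  obtain ⟨N, r, N1, r1, r2⟩ := design (L := 32 * t) (by omega)
  set q := primorial (32 * t) with hq
  have q0 : 0 < q := primorial_pos _
  have q1 : (0 : ℝ) < q := by exact_mod_cast q0
  obtain ⟨X, hX⟩ : ∃ X : ℕ → ℕ, ∀ j, X (j + 1) = f (501 * (X j + q * (N0 + 1))) :=
    ⟨fun j => Nat.rec 0 (fun _ x => f (501 * (x + q * (N0 + 1)))) j, fun _ => rfl⟩
  have X1 : ∀ j, 501 * (X j + q * (N0 + 1)) ≤ X (j + 1) := fun j => hX j ▸ f1 _
  have X2 : Monotone X := monotone_nat_of_le_succ fun j => by have := X1 j; omega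
  set V : Fin N → Fin 32 → Finset ℕ := fun w j =>
    {x ∈ Ioc (X j) (X (j + 1)) | (q : ℤ) ∣ x - r w j} with hV
  have X3 : ∀ j, 501 * ((X j : ℝ) + q * (N0 + 1)) ≤ X (j + 1) := fun j => by exact_mod_cast X1 j
  have V1 : ∀ w (j : Fin 32), 500 / 501 * (X ((j : ℕ) + 1) : ℝ) ≤ q * #(V w j) := fun w j => by
    have := cls q0 (X j) (X (j + 1)) (r w j)
    have := X3 j
    have : (0 : ℝ) ≤ q * N0 := by positivity
    rw [hV]; dsimp only
    linarith
  have X4 : ∀ j, q * ((N0 : ℝ) + 1) ≤ 500 / 501 * X (j + 1) := fun j => by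
    have := X3 j
    have : (0 : ℝ) ≤ q * (N0 + 1) := by positivity
    have : (0 : ℝ) ≤ X j := by positivity
    linarith
  have V2 : ∀ w j, N0 + 1 ≤ #(V w j) := fun w j => by
    exact_mod_cast le_of_mul_le_mul_left ((X4 j).trans (V1 w j)) q1
  have V3 : ∀ w j j', j < j' → ∀ x ∈ V w j, ∀ y ∈ V w j', x < y := fun w j j' h x hx y hy =>
    lt_of_le_of_lt ((mem_Ioc.1 (mem_filter.1 hx).1).2.trans (X2 h)) (mem_Ioc.1 (mem_filter.1 hy).1).1
  set D : (Fin 2 → ℕ) → Prop := fun z => ∀ l l', z l < z l' → z l' - z l ∈ H with hD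
  have e1 := fun w => hB ℕ D (V w) (fun j => (Nat.le_succ _).trans (V2 w j)) fun U hU c hc => by
    have a1 := fun j j' h x hx y hy => V3 w j j' h x ((hU j).1 hx) y ((hU j').1 hy)
    obtain ⟨J, y, h1, h2, h3⟩ := hH U (fun j => (hU j).2) a1 (fun j x hx p hp hp1 hp2 => by
      have a2 : (p : ℤ) ∣ q := Int.natCast_dvd_natCast.2 (hp.dvd_primorial_iff.2 hp1)
      have a3 := dvd_sub (Int.natCast_dvd_natCast.2 hp2)
        (a2.trans (mem_filter.1 ((hU j).1 hx)).2)
      rw [sub_sub_cancel] at a3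
      exact (Nat.prime_iff_prime_int.1 hp).not_isUnit ((r1 w j).isUnit_of_dvd' a3 a2)) c hc
    refine ⟨J, y, h1, h2, fun i _ i2 l l' hl => h3 _ (i2 l) _ (i2 l') ?_⟩
    rcases lt_trichotomy (i l) (i l') with h | h | h
    · exact h
    · exact absurd (congrArg y h) hl.ne
    · exact absurd (a1 _ _ h _ (h2 _) _ (h2 _)) hl.not_gt
  have e2 : ∀ (i : Fin 2 → Fin 32) (l l' : Fin 2), i l < i l' → (∀ k, k = l ∨ k = l') →
      ∑ w, (#{z ∈ piFinset (V w ∘ i) | D z} : ℝ) / ∏ k, #(V w (i k)) ≤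
        501 / 500 * 2.92 / 13 * N := by
    intro i l l' hl hk
    set Y := X (i l' + 1) with hY
    set A : Finset ℕ := {h ∈ Icc 1 Y | h ∈ H} with hA
    have Y0 : (0 : ℝ) < Y := by
      have := X4 (i l')
      have : (0 : ℝ) < q * (N0 + 1) := by positivity
      linarith
    have a1 : ∀ w, (#{z ∈ piFinset (V w ∘ i) | D z} : ℝ) / ∏ k, #(V w (i k)) ≤ 501 / 500 / Y *
        (q * #(A.filter fun h : ℕ => (q : ℤ) ∣ r w (i l') - r w (i l) - h)) := fun w => by
      set B := A.filter fun h : ℕ => (q : ℤ) ∣ r w (i l') - r w (i l) - h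
      have b0 : ∀ z ∈ piFinset (V w ∘ i), z l < z l' := fun z hz =>
        V3 w _ _ hl _ (mem_piFinset.1 hz l) _ (mem_piFinset.1 hz l')
      have b1 : #{z ∈ piFinset (V w ∘ i) | D z} ≤ #(V w (i l)) * #B := by
        rw [← card_product]
        refine card_le_card_of_injOn (fun z => (z l, z l' - z l)) (fun z hz => ?_)
          fun z hz z' hz' e => ?_
        · obtain ⟨h1, h2⟩ := mem_filter.1 (mem_coe.1 hz)
          have c0 := b0 z h1
          have c1 := mem_filter.1 (mem_piFinset.1 h1 l)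
          have c2 := mem_filter.1 (mem_piFinset.1 h1 l')
          have c3 := mem_Ioc.1 c2.1
          refine mem_coe.2 (mem_product.2 ⟨mem_piFinset.1 h1 l, mem_filter.2 ⟨mem_filter.2
            ⟨mem_Icc.2 (by dsimp only; omega), h2 l l' c0⟩, ?_⟩⟩)
          dsimp only
          rw [Nat.cast_sub c0.le]
          obtain ⟨u, hu⟩ := dvd_sub c1.2 c2.2
          exact ⟨u, by linear_combination hu⟩
        · have := b0 z (mem_filter.1 (mem_coe.1 hz)).1
          have := b0 z' (mem_filter.1 (mem_coe.1 hz')).1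
          simp only [Prod.mk.injEq] at e
          ext k
          rcases hk k with rfl | rfl <;> omega
      have b2 : ∏ k, #(V w (i k)) = #(V w (i l)) * #(V w (i l')) := by
        rw [← prod_pair (f := fun k => #(V w (i k))) fun h => hl.ne (congrArg i h)]
        exact prod_congr (by ext k; simpa using hk k) fun _ _ => rfl
      have b3 : ∀ j, (0 : ℝ) < #(V w j) := fun j => by
        exact_mod_cast lt_of_lt_of_le (Nat.succ_pos _) (V2 w j)
      have b4 := b3 (i l)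
      have b5 := b3 (i l')
      rw [b2, Nat.cast_mul, div_le_iff₀ (by positivity)]
      have b6 : 1 ≤ 501 / 500 / Y * (q * (#(V w (i l')) : ℝ)) := by
        rw [div_mul_eq_mul_div, le_div_iff₀ Y0]
        linarith [V1 w (i l')]
      have b7 := mul_le_mul_of_nonneg_left b6 (show (0 : ℝ) ≤ #(V w (i l)) * #B by positivity)
      have b8 : (#{z ∈ piFinset (V w ∘ i) | D z} : ℝ) ≤ #(V w (i l)) * #B := by exact_mod_cast b1
      linarith
    refine (sum_le_sum fun w _ => a1 w).trans ?_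
    have a2 : ∑ w, ((q : ℝ) * #(A.filter fun h : ℕ =>
        (q : ℤ) ∣ r w (i l') - r w (i l) - h)) ≤ Y / 13 * (2.92 * N) := by
      calc _ = ∑ h ∈ A, (q : ℝ) * #{w | (q : ℤ) ∣ r w (i l') - r w (i l) - h} := by
            clear_value A
            simp only [card_filter, Nat.cast_sum, mul_sum]
            exact sum_comm
        _ ≤ _ := by
            refine (sum_le_card_nsmul _ _ _ fun (h : ℕ) _ => r2 _ _ hl.ne' h).trans ?_
            rw [nsmul_eq_mul]
            gcongr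
            rw [hA, hY, hX]
            exact (f2 _).le
    rw [← mul_sum]
    refine (mul_le_mul_of_nonneg_left a2 (by positivity)).trans (le_of_eq ?_)
    field_simp
  have e3 := sum_le_sum fun w (_ : w ∈ univ) => e1 w
  rw [sum_comm] at e3
  have e4 := e3.trans (sum_le_card_nsmul _ _ (501 / 500 * 2.92 / 13 * N : ℝ) fun i hi => by
    have : i 0 ≠ i 1 := fun h => absurd ((mem_filter.1 hi).2 h) (by decide)
    rcases this.lt_or_gt with h | h
    · exact e2 i 0 1 h (by decide)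
    · exact e2 i 1 0 h (by decide))
  have N2 : (0 : ℝ) < N := by exact_mod_cast N1
  have e5 := inj992
  rw [sum_const, card_univ, Fintype.card_fin, nsmul_eq_mul, nsmul_eq_mul,
    max_eq_left (by norm_num), show #{i : Fin (1 + 1) → Fin 32 | Function.Injective i} = 992 by
      convert e5] at e4
  norm_num at e4
  linarith

end Pool.Agent.Lib.MP_be93de_nt.RCount
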