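import Pool.Agent.Lib.MP_be93de_nt.Rk1
import Pool.Agent.Lib.MP_6a20cc_nt.Dh1

/-! Many clusters of primes, uniformly in a slowly growing modulus. -/

namespace Pool.Agent.Lib.MP_be93de_nt.Rk

open Finset Filter Topology Pool.Agent.Lib.MP_6a20cc_nt Pool.Agent.Lib.SW
open Pool.Agent.Lib.MP_28260b_nt hiding ff_shift sum_shift exists_eps
open Pool.Agent.Lib.MP_6a20cc_nt.Dh

lemma mom {ι : Type} [DecidableEq ι] (P : Finset ι) (pr : ι → ℕ) (hp : ∀ p ∈ P, (pr p).Prime)
    (hi : Set.InjOn pr P) {T : ℝ} (hT : 0 ≤ T) (X : ℕ) :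
    ∑ x ∈ Ioc 0 X, T ^ #{p ∈ P | pr p ∣ x} ≤ X * ∏ p ∈ P, (1 + T / pr p) := by
  have h1 : ∀ x, T ^ #{p ∈ P | pr p ∣ x} ≤
      ∑ f ∈ P.powerset, if (∏ p ∈ f, pr p) ∣ x then T ^ #f else 0 := by
    intro x
    calc T ^ #{p ∈ P | pr p ∣ x} ≤ (1 + T) ^ #{p ∈ P | pr p ∣ x} := by gcongr; linarith
      _ = ∑ f ∈ {p ∈ P | pr p ∣ x}.powerset, T ^ #f := by
          rw [← prod_const, prod_one_add]; simp
      _ ≤ _ := by
          rw [← sum_filter]
          refine sum_le_sum_of_subset_of_nonneg (fun f hf => ?_) fun _ _ _ => by positivity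
          have h2 := mem_powerset.1 hf
          have h3 : f ⊆ P := h2.trans (filter_subset _ _)
          refine mem_filter.2 ⟨mem_powerset.2 h3, Finset.prod_dvd_of_isRelPrime
            (fun p hp' q hq' hne => ?_) fun p hp' => (mem_filter.1 (h2 hp')).2⟩
          exact Nat.coprime_iff_isRelPrime.1 ((Nat.coprime_primes (hp p (h3 hp')) (hp q (h3 hq'))).2
            fun e => hne (hi (h3 hp') (h3 hq') e))
  refine (sum_le_sum fun x _ => h1 x).trans ?_
  rw [sum_comm, prod_one_add, Finset.mul_sum]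
  refine sum_le_sum fun f hf => ?_
  rw [← sum_filter, sum_const, nsmul_eq_mul, Nat.Ioc_filter_dvd_card_eq_div, prod_div_distrib,
    prod_const, ← mul_div_assoc, mul_div_right_comm, ← Nat.cast_prod]
  gcongr
  exact Nat.cast_div_le

lemma one_add_sum {κ : Type} [DecidableEq κ] (s : Finset κ) (f : κ → ℝ) (h : ∀ i, 0 ≤ f i) :
    1 + ∑ i ∈ s, f i ≤ ∏ i ∈ s, (1 + f i) := by
  induction s using Finset.induction_on with
  | empty => simp
  | insert a s ha ih =>
    rw [sum_insert ha, prod_insert ha]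
    nlinarith [h a, sum_nonneg fun i (_ : i ∈ s) => h i, mul_le_mul_of_nonneg_left ih (h a),
      mul_nonneg (h a) (sum_nonneg fun i (_ : i ∈ s) => h i)]

lemma ff_four {ι : Type} [Fintype ι] [DecidableEq ι] {pr : ι → ℕ} [∀ p, Fact (pr p).Prime] {k : ℕ}
    (hk : 0 < k) (r : (p : ι) → Fin k → ZMod (pr p)) (c : (ι → Option (Fin k)) → ℝ) {Fm : ℝ}
    (hc : ∀ ω, |c ω| ≤ Fm) (n : ℕ) : (ff r c n ^ 2) ^ 2 ≤ Fm ^ 4 * (∏ p, (1 + (k : ℝ) / pr p)) ^ 4 *
      ∑ i, ((16 : ℝ) ^ k) ^ #{p ∈ univ | (n : ZMod (pr p)) = r p i} := by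
  have hF : 0 ≤ Fm := (abs_nonneg _).trans (hc fun _ => none)
  set om : Fin k → ℕ := fun i => #{p ∈ univ | (n : ZMod (pr p)) = r p i} with hom
  have h1 : |ff r c n| ≤ Fm * ((∏ p, (1 + (k : ℝ) / pr p)) * 2 ^ ∑ i, om i) := by
    calc |ff r c n| ≤ ∑ ω : ι → Option (Fin k), Fm * ∏ p, |MP_28260b_nt.loc (r p) (ω p) (n : ZMod (pr p))| := by
          refine (abs_sum_le_sum_abs _ _).trans (sum_le_sum fun ω _ => ?_)
          rw [abs_mul, Finset.abs_prod]
          gcongr
          exact hc ω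
      _ = Fm * ∏ p, ∑ s : Option (Fin k), |MP_28260b_nt.loc (r p) s (n : ZMod (pr p))| := by
          rw [← Finset.mul_sum, prod_univ_sum, Fintype.piFinset_univ]
      _ ≤ Fm * ∏ p, ((1 + (k : ℝ) / pr p) *
            ∏ i, (1 + if (n : ZMod (pr p)) = r p i then (1 : ℝ) else 0)) := by
          gcongr with p
          have a1 := one_add_sum univ (fun i => if (n : ZMod (pr p)) = r p i then (1 : ℝ) else 0)
            fun i => by positivity
          have a2 : ∑ i : Fin k, |1 / (pr p : ℝ) - if (n : ZMod (pr p)) = r p i then 1 else 0| ≤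
              k / pr p + ∑ i : Fin k, if (n : ZMod (pr p)) = r p i then (1 : ℝ) else 0 := by
            calc _ ≤ ∑ i : Fin k, (1 / (pr p : ℝ) + if (n : ZMod (pr p)) = r p i then 1 else 0) :=
                  sum_le_sum fun i _ => (abs_sub _ _).trans (by
                    rw [abs_of_nonneg (by positivity), abs_of_nonneg (by positivity)])
              _ = _ := by rw [sum_add_distrib]; simp [div_eq_mul_inv]
          have a3 : 0 ≤ ∑ i : Fin k, if (n : ZMod (pr p)) = r p i then (1 : ℝ) else 0 := by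
            positivity
          have a4 : (0 : ℝ) ≤ k / pr p := by positivity
          rw [Fintype.sum_option]
          simp only [MP_28260b_nt.loc, Option.elim, abs_one]
          nlinarith [mul_le_mul_of_nonneg_left a1 (show 0 ≤ 1 + (k : ℝ) / pr p by positivity),
            mul_nonneg a3 a4]
      _ = _ := by
          rw [prod_mul_distrib, Finset.prod_comm, ← prod_pow_eq_pow_sum]
          congr 2
          refine prod_congr rfl fun i _ => ?_
          rw [hom, ← prod_const, prod_filter]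
          refine prod_congr rfl fun p _ => ?_
          split_ifs <;> norm_num
  obtain ⟨j, -, hj⟩ := exists_max_image univ om ⟨⟨0, hk⟩, mem_univ _⟩
  have h2 : ∑ i, om i ≤ k * om j := by
    simpa using sum_le_card_nsmul univ om (om j) hj
  have h3 : ((2 : ℝ) ^ ∑ i, om i) ^ 4 ≤ ∑ i, ((16 : ℝ) ^ k) ^ om i := by
    refine le_trans ?_ (single_le_sum (f := fun i => ((16 : ℝ) ^ k) ^ om i)
      (fun i _ => by positivity) (mem_univ j))
    rw [← pow_mul, mul_comm, pow_mul, ← pow_mul (16 : ℝ)]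
    norm_num
    exact pow_le_pow_right₀ (by norm_num) h2
  calc _ = |ff r c n| ^ 4 := by rw [← sq_abs (ff r c n)]; ring
    _ ≤ (Fm * ((∏ p, (1 + (k : ℝ) / pr p)) * 2 ^ ∑ i, om i)) ^ 4 := by gcongr
    _ = Fm ^ 4 * (∏ p, (1 + (k : ℝ) / pr p)) ^ 4 * (2 ^ ∑ i, om i) ^ 4 := by ring
    _ ≤ _ := by gcongr

theorem clus {k Nb M : ℕ} (hk0 : 0 < k) (hNb : 1 ≤ Nb) {Fb : (Fin k → ℕ) → ℝ} {Fm : ℝ} (h0 : ∀ j, 0 ≤ Fb j)
    (hm : ∀ j, Fb j ≤ Fm) (hs : ∀ j, Fb j ≠ 0 → ∑ i, (j i + 1) ≤ Nb)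
    (hIJ : M * (4 * Nb + 5) * II Nb Fb < ∑ i, JJ Nb Fb i) : ∃ w₀ C s : ℕ, 1 ≤ s ∧
    ∀ᶠ z : ℕ in atTop, ∀ w ≥ w₀, (primorial w : ℝ) ^ 3 ≤ Real.log z → ∀ d : Fin k → ℕ,
    (∀ i, d i ≤ z) → (∀ i, (d i).Coprime (primorial w)) →
    (∀ q, q.Prime → w < q → ∀ i j, d i ≡ d j [MOD q] → i = j) →
    (z : ℝ) ^ s / Real.log z ^ C ≤ ((range (z ^ s + 1)).filter fun n => M + 1 ≤
      (univ.filter fun i => primorial w * n + d i ≤ primorial w * z ^ s ∧
        (primorial w * n + d i).Prime).card).card := by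
  obtain ⟨ε, hε, hε1, hgap⟩ := exists_eps k (M + 4) hIJ
  set C : ℝ := k * (Fm ^ 2 * (2 * Nb) ^ (k + 1) * (4 * (k + 1) ^ 2)) with hC
  set K := 5 * (k + 1) ^ 2 with hK
  obtain ⟨B, hB⟩ := BVu K (6 * K + 1)
  obtain ⟨X0, hX0⟩ := eventually_atTop.1 (hB.and (siegel_walfisz 1 1))
  set s := 4 * Nb + 4 with hs4
  set T := 16 ^ k with hT
  refine ⟨4 * k + 2 + ⌈C / ε⌉₊ + ⌈20 + 3 / ε + k * Fm ^ 2 / ε⌉₊, 24 * K + 6 * T + 2, s,
    by omega, ?_⟩
  have hlog := tendsto_L.eventually_ge_atTop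
  filter_upwards [eventually_ge_atTop X0, MP_28260b_nt.ev_log (((s : ℝ) + 1) ^ B) B,
    eventually_ge_atTop 2, hlog (2 * Real.exp 10), MP_28260b_nt.ev_log (2 * (s + 1) / ε) 1,
    MP_28260b_nt.ev_log ((s + 1) * Fm ^ 2 * s ^ (12 * K) / ε) (12 * K),
    MP_28260b_nt.ev_log (k * Fm ^ 2 * s ^ (12 * K) * (s + 1) / ε) (12 * K + 1),
    MP_28260b_nt.ev_log (1 / ε) 0,
    hlog (2 * k ^ 3 * (s + 1) ^ 2 * Fm ^ 4 * s ^ (24 * K + 6 * T) / ε ^ 2)]
    with z hzX hzB hz hz2 hz6 hz7 hz8 hz9 hz11 w hw hW3 d hd hcop hdet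
  have hwk : 4 * k + 2 ≤ w := by omega
  have hwC : C / ε ≤ w := Nat.ceil_le.1 (by omega)
  have hwc : 20 + 3 / ε + k * Fm ^ 2 / ε ≤ w := Nat.ceil_le.1 (by omega)
  set W := primorial w with hW
  have hW0 : 0 < W := primorial_pos w
  have hwW' : w ≤ W := le_primorial_self
  have hW2 : 2 ≤ W := by omega
  set ρ : ℝ := (W.totient : ℝ) / W with hρ
  have hW' : (0 : ℝ) < W := by exact_mod_cast hW0
  have hW1 : (1 : ℝ) ≤ W := by exact_mod_cast hW0
  have hρ0 : 0 < ρ := div_pos (by exact_mod_cast Nat.totient_pos.2 hW0) hW'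
  have hρ1 : ρ ≤ 1 := by rw [hρ, div_le_one hW']; exact_mod_cast Nat.totient_le W
  have hρW : 1 / ρ ≤ W := by
    rw [hρ, one_div_div]
    exact div_le_self hW'.le (by exact_mod_cast Nat.totient_pos.2 hW0)
  have hcW : ∀ c : ℝ, 0 ≤ c → c ≤ 20 + 3 / ε + k * Fm ^ 2 / ε → c * W ^ 2 ≤ Real.log z := by
    intro c c0 c1
    have : (w : ℝ) ≤ W := by exact_mod_cast hwW'
    refine le_trans ?_ hW3
    rw [pow_succ' (W : ℝ) 2]
    gcongr
    linarith
  have hWW : (W : ℝ) ≤ W ^ 2 := le_self_pow₀ hW1 (by norm_num)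
  have p1 : 0 ≤ 3 / ε := by positivity
  have p2 : 0 ≤ k * Fm ^ 2 / ε := by positivity
  have hz0 : 20 * (W : ℝ) ≤ Real.log z := by linarith [hcW 20 (by norm_num) (by linarith)]
  have hz3 : W * (2 / ε) ≤ Real.log z := by
    refine le_trans ?_ (hcW (3 / ε) p1 (by linarith))
    rw [mul_comm]
    gcongr
    norm_num
  have hz4 : (2 * W + 1) / (ε * ρ) ≤ Real.log z := by
    refine le_trans ?_ (hcW (3 / ε) p1 (by linarith))
    calc _ = (2 * W + 1) / ε * (1 / ρ) := by field_simp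
      _ ≤ (3 * W) / ε * W := by gcongr; linarith
      _ = _ := by ring
  have hz5 : k * Fm ^ 2 * W / ε ≤ Real.log z := by
    refine le_trans ?_ (hcW _ p2 (by linarith))
    rw [mul_div_right_comm]
    gcongr
  have hz10 : 1 / ρ ≤ Real.log z := by linarith
  have hw' : (2 : ℝ) ≤ w := by exact_mod_cast (show 2 ≤ w by omega)
  have hwW : W ≤ z := by
    have : Real.log z ≤ z := Real.log_le_self (by positivity)
    have : (W : ℝ) ≤ z := by linarith
    exact_mod_cast this
  have hz' : (2 : ℝ) ≤ z := by exact_mod_cast hz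
  set l := Real.log z with hl
  have hl1 : 1 ≤ l := by linarith [Real.one_le_exp (show (0 : ℝ) ≤ 10 by norm_num)]
  set R := z ^ Nb with hR
  set N := z ^ s with hN
  have hzR : z ≤ R := Nat.le_self_pow (by omega) z
  have hRN : R ≤ N := Nat.pow_le_pow_right (by omega) (by omega)
  have hN0 : 0 < N := by positivity
  have hN' : (0 : ℝ) < N := by exact_mod_cast hN0
  have hR1 : (1 : ℝ) ≤ R := by exact_mod_cast Nat.one_le_pow _ _ (by omega)
  have hR3 : (R : ℝ) ^ 3 * z ≤ N := by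
    have : R ^ 3 * z ≤ N := by
      rw [hR, ← pow_mul, ← pow_succ]; exact Nat.pow_le_pow_right (by omega) (by omega)
    exact_mod_cast this
  have hs1 : (1 : ℝ) ≤ s := by exact_mod_cast (show 1 ≤ s by omega)
  have hLN : Real.log N = s * l := by rw [hN]; push_cast; rw [Real.log_pow]
  have hNX : N ≤ W * N := Nat.le_mul_of_pos_left N hW0
  obtain ⟨hBV, hSW⟩ := hX0 (W * N) (hzX.trans (hzR.trans (hRN.trans hNX)))
  have hL1 : s * l ≤ Real.log (W * N : ℕ) := hLN ▸ log_le_L hNX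
  have hL2 : Real.log (W * N : ℕ) ≤ (s + 1) * l := by
    have := log_le_L (Nat.mul_le_mul_right N hwW)
    rw [Nat.cast_mul z, Real.log_mul (by linarith) hN'.ne', hLN] at this
    linarith
  have hll : l ≤ s * l := le_mul_of_one_le_left (by linarith) hs1
  -- the sieve primes
  let ι : Type := {p // p ∈ (Nat.primesLE R).filter (w < ·)}
  let pr : ι → ℕ := Subtype.val
  have hpr : ∀ p : ι, pr p ≤ R ∧ (pr p).Prime ∧ w < pr p := fun p =>
    ⟨(Nat.mem_primesLE.1 (mem_filter.1 p.2).1).1, (Nat.mem_primesLE.1 (mem_filter.1 p.2).1).2,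
      (mem_filter.1 p.2).2⟩
  have : ∀ p, Fact (pr p).Prime := fun p => ⟨(hpr p).2.1⟩
  have hpi : Function.Injective pr := Subtype.val_injective
  have hpW : ∀ p, (pr p).Coprime W := fun p =>
    (hpr p).2.1.coprime_iff_not_dvd.2 fun h =>
      absurd ((hpr p).2.1.dvd_primorial_iff.1 h) (not_le.2 (hpr p).2.2)
  have hA0 : ∀ p, (W : ZMod (pr p)) ≠ 0 := fun p => by
    rw [Ne, ZMod.natCast_eq_zero_iff]
    exact (hpr p).2.1.coprime_iff_not_dvd.1 (hpW p)
  have hpk : ∀ p, 4 * (k : ℝ) + 1 ≤ pr p := fun p => by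
    have : 4 * k + 1 ≤ pr p := by have := (hpr p).2.2; omega
    exact_mod_cast this
  have hcov : ∀ q : ℕ, q.Prime → q < z ^ Nb → q.Coprime W → ∃ p, pr p = q := fun q hq h1 h2 =>
    ⟨⟨q, mem_filter.2 ⟨Nat.mem_primesLE.2 ⟨h1.le, hq⟩, not_le.1 fun h =>
      hq.coprime_iff_not_dvd.1 h2 (hq.dvd_primorial_iff.2 h)⟩⟩, rfl⟩
  have hsq : ∑ p, 1 / (pr p : ℝ) ^ 2 ≤ 1 / (w : ℝ) := by
    have e := sum_Ioc_inv_sq_le_sub (α := ℝ) (k := w) (n := w + R) (by omega) (by omega)
    have e2 : ∑ p, 1 / (pr p : ℝ) ^ 2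
        = ∑ q ∈ (Nat.primesLE R).filter (w < ·), ((q : ℝ) ^ 2)⁻¹ := by
      simp only [one_div]
      exact sum_coe_sort _ fun q : ℕ => ((q : ℝ) ^ 2)⁻¹
    have e3 : (0 : ℝ) ≤ ((w + R : ℕ) : ℝ)⁻¹ := by positivity
    rw [e2, one_div]
    refine le_trans (sum_le_sum_of_subset_of_nonneg (fun q hq => ?_) fun _ _ _ => by positivity)
      (e.trans (by linarith))
    have := (Nat.mem_primesLE.1 (mem_filter.1 hq).1).1
    exact mem_Ioc.2 ⟨(mem_filter.1 hq).2, by omega⟩
  set r : (p : ι) → Fin k → ZMod (pr p) := fun p i => -(d i : ZMod (pr p)) / W with hr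
  have hri : ∀ p, Function.Injective (r p) := by
    intro p i j h
    have h1 := neg_injective ((div_left_inj' (hA0 p)).1 h)
    exact hdet _ (hpr p).2.1 (hpr p).2.2 i j ((ZMod.natCast_eq_natCast_iff _ _ _).1 h1)
  set c := cw pr z Fb with hc
  have hFm : 0 ≤ Fm := (h0 0).trans (hm 0)
  have hc1 : ∀ ω, |c ω| ≤ Fm := fun ω => by rw [hc, cw, abs_of_nonneg (h0 _)]; exact hm _
  have hc2 : ∀ ω, c ω ≠ 0 → ∏ p, (ω p).elim 1 (fun _ => pr p) ≤ R := fun ω h => (cw_supp hz hs h).1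
  set Pe := ∏ p, (1 + (K : ℝ) / pr p) with hPe
  have hPe0 : 0 ≤ Pe := by positivity
  have hPe1 : Pe ≤ (s * l) ^ (6 * K) :=
    hLN ▸ euler_le hpi (fun p => (hpr p).1.trans hRN) (by rw [hLN]; linarith) K
  -- the box sums
  set h := ρ * l with hh
  have hh1 : 1 ≤ h := by rwa [div_le_iff₀' hρ0] at hz10
  have hH : ∀ j, (1 - ε) * h ≤ HH W z j ∧ HH W z j ≤ (1 + ε) * h := fun j => by
    have e := abs_le.1 (HH_close hW0 hz j)
    rw [div_le_iff₀ (by positivity)] at hz4
    constructor <;> nlinarith only [e.1, e.2, hz4, hh]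
  have hH0 : 0 ≤ (1 - ε) * h := mul_nonneg (by linarith) (by linarith)
  have hI0 : 0 ≤ II Nb Fb := sum_nonneg fun _ _ => sq_nonneg _
  set u := N * h ^ k with hu
  have hu1 : (N : ℝ) ≤ u := le_mul_of_one_le_right hN'.le (one_le_pow₀ hh1)
  -- upper bound
  set S1 := ∑ n ∈ range (N + 1), ff r c n ^ 2 with hS1
  have up : (s + 1) * S1 ≤ (s + 1) * ((1 + ε) ^ (k + 1) * II Nb Fb) * u + ε * u := by
    have e2 := S1_le hpi r hri c hc1 hc2 (N + 1)
    have e3 : QF (fun p => B1 (pr p)) c ≤ ((1 + ε) * h) ^ k * II Nb Fb := by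
      refine (QF_upper hpi hz hpW hs).trans ?_
      rw [II, Finset.mul_sum]
      refine sum_le_sum fun j _ => ?_
      rw [mul_comm]
      gcongr
      calc _ ≤ ∏ _i : Fin k, (1 + ε) * h :=
            prod_le_prod (fun i _ => hH0.trans (hH _).1) fun i _ => (hH _).2
        _ = _ := by simp
    have e4 : ((N + 1 : ℕ) : ℝ) ≤ (1 + ε) * N := by
      have : (z : ℝ) ≤ N := by exact_mod_cast hzR.trans hRN
      rw [pow_zero, mul_one, div_le_iff₀ hε] at hz9
      push_cast
      nlinarith only [this, hz9, hε]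
    have e5 : ∏ p, (1 + 3 * (k : ℝ) / pr p) ≤ (s * l) ^ (6 * K) := by
      refine le_trans (prod_le_prod (fun p _ => by positivity) fun p _ => ?_) hPe1
      gcongr
      rw [hK]; push_cast; nlinarith only [(Nat.cast_nonneg k : (0 : ℝ) ≤ k)]
    have e6 : (s + 1) * (Fm * R * ∏ p, (1 + 3 * (k : ℝ) / pr p)) ^ 2 ≤ ε * u := by
      rw [div_mul_eq_mul_div, div_le_iff₀ hε] at hz7
      calc _ ≤ (s + 1) * (Fm * R * (s * l) ^ (6 * K)) ^ 2 := by gcongr
        _ = ((s + 1) * Fm ^ 2 * s ^ (12 * K) * l ^ (12 * K)) * R ^ 2 := by ring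
        _ ≤ (z * ε) * R ^ 3 := by gcongr; norm_num
        _ = ε * (R ^ 3 * z) := by ring
        _ ≤ _ := by gcongr; linarith
    have e7 : ((N + 1 : ℕ) : ℝ) * QF (fun p => B1 (pr p)) c
        ≤ (1 + ε) ^ (k + 1) * II Nb Fb * u :=
      calc _ ≤ ((N + 1 : ℕ) : ℝ) * (((1 + ε) * h) ^ k * II Nb Fb) := by gcongr
        _ ≤ (1 + ε) * N * (((1 + ε) * h) ^ k * II Nb Fb) := by gcongr
        _ = _ := by rw [hu, mul_pow]; ring
    have e8 := mul_le_mul_of_nonneg_left (e2.trans (add_le_add_left e7 _))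
      (show (0 : ℝ) ≤ s + 1 by positivity)
    linarith
  -- lower bound
  set S2 : Fin k → ℝ := fun m => ∑ n ∈ range (N + 1), if R < W * n + d m ∧ W * n + d m ≤ W * N
    then lam (W * n + d m) * ff r c n ^ 2 else 0 with hS2
  have low : ∀ m, ((1 - ε) ^ (k + 2) * JJ Nb Fb m) * (u * l) - 3 * ε / k * (u * l) ≤ S2 m := by
    intro m
    have hk : (0 : ℝ) < k := by exact_mod_cast m.pos
    set X := W * N with hX
    set L := Real.log X with hL
    have hLl : l ≤ L := hll.trans hL1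
    have hL0 : 0 < L := by linarith
    have hAX : (X : ℝ) = W * N := by rw [hX, Nat.cast_mul]
    obtain ⟨E, hE0, hE1, hE2⟩ := hBV W (d m) hW0 (hcop m) (by linarith) (R ^ 2) z (Nat.one_le_pow _ _ (by positivity))
      (le_trans (by rw [hR, ← pow_mul, ← pow_succ, ← pow_mul]
                    exact Nat.pow_le_pow_right (by omega) (by omega)) hNX)
      (le_trans (Nat.pow_le_pow_right (by omega) (by omega)) hNX)
      (le_trans (by rw [← mul_pow]; gcongr) hzB)
      ι pr hpi (fun p => (hpW p).symm) fun p => (hpr p).1.trans (hRN.trans hNX)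
    have e1 := S2_ge (fun p i => (W : ZMod (pr p)) * r p i + (d m : ZMod (pr p)))
      (fun p i j h => hri p (mul_left_cancel₀ (hA0 p) (add_left_injective _ h))) (m := m)
      (fun p => by simp only [hr]; rw [mul_div_cancel₀ _ (hA0 p), neg_add_cancel]) hpk c hc1 hc2
      (fun p => (hpr p).1) (hRN.trans hNX) (hN0.trans_le hNX) E hE0 hE2
    have e2 : ∑ x ∈ Ioc R X with x ≡ d m [MOD W],
        lam x * ff (fun p i => (W : ZMod (pr p)) * r p i + (d m : ZMod (pr p))) c x ^ 2 = S2 m := by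
      rw [sum_shift _ hW0 ((hd m).trans hzR)]
      simp only [ff_shift r c hA0, hS2, hX]
    rw [e2] at e1
    set θ := ∑ x ∈ Ioc R X with x ≡ d m [MOD W], lam x with hθ
    have e3 : (1 - ε) * (N / ρ) ≤ θ := by
      have a1 := (abs_le.1 (hSW W hW0 (by rw [pow_one]; linarith) _ (hcop m) X le_rfl)).1
      have a2 : ∑ x ∈ Ioc 0 X with x ≡ d m [MOD W], lam x ≤ R * L + θ := by
        rw [hθ, sum_filter, sum_filter, ← sum_Ioc_consecutive _ (Nat.zero_le R)
          (hRN.trans hNX)]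
        gcongr
        have := sum_le_card_nsmul (Ioc 0 R) (fun x => if x ≡ d m [MOD W] then lam x else 0) L
          fun x hx => by
            split_ifs
            · exact lam_le (by exact_mod_cast (mem_Ioc.1 hx).2.trans (hRN.trans hNX))
                (by exact_mod_cast hN0.trans_le hNX)
            · linarith
        simpa using this
      have a3 : (X : ℝ) / W.totient = N / ρ := by
        have b3 : (0 : ℝ) < W.totient := by exact_mod_cast Nat.totient_pos.2 hW0
        rw [hAX, hρ]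
        field_simp
      have a4 : (X : ℝ) / L ^ 1 ≤ ε / 2 * N := by
        rw [pow_one, div_le_iff₀ (by linarith)]
        rw [← mul_div_assoc, div_le_iff₀ hε] at hz3
        have : (W : ℝ) ≤ ε / 2 * L := by nlinarith only [hz3, hLl, hε]
        nlinarith only [this, hAX, hN']
      have a5 : R * L ≤ ε / 2 * N := by
        rw [div_mul_eq_mul_div, div_le_iff₀ hε, pow_one] at hz6
        calc _ ≤ R ^ 3 * ((s + 1) * l) := by
              gcongr
              exact le_self_pow₀ hR1 (by norm_num)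
          _ ≤ R ^ 3 * (ε / 2 * z) := mul_le_mul_of_nonneg_left (by linarith) (by positivity)
          _ = ε / 2 * (R ^ 3 * z) := by ring
          _ ≤ _ := by gcongr
      have a6 : (N : ℝ) ≤ N / ρ := le_div_self hN'.le hρ0 hρ1
      rw [a3] at a1
      nlinarith only [a1, a2, a4, a5, a6, hε]
    have e4 : h ^ (k + 1) * ((1 - ε) ^ (k + 1) * JJ Nb Fb m - ε / k)
        ≤ QF (fun p => B2 (pr p) m) c := by
      refine le_trans ?_ (QF_lower hpi hz hcov hpk h0 hm m)
      rw [mul_sub]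
      refine sub_le_sub ?_ ?_
      · rw [JJ, ← mul_assoc, ← mul_pow, Finset.mul_sum]
        refine sum_le_sum fun j _ => ?_
        rw [mul_comm]
        refine mul_le_mul_of_nonneg_left ?_ (mul_nonneg (h0 _) (h0 _))
        calc _ = ∏ _i : Option (Fin k), (1 - ε) * h := by simp [mul_comm]
          _ ≤ _ := prod_le_prod (fun _ _ => hH0) fun i _ => (hH _).1
      · have a1 : ∑ j ∈ range Nb, HH W z j ≤ 2 * Nb * h := by
          have := sum_le_card_nsmul (range Nb) (HH W z) (2 * h) fun j _ => (hH j).2.trans (by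
            gcongr; linarith)
          simp only [card_range, nsmul_eq_mul] at this
          linarith
        have a2 : 0 ≤ ∑ j ∈ range Nb, HH W z j := sum_nonneg fun j _ => hH0.trans (hH j).1
        rw [div_le_iff₀ hε] at hwC
        calc _ ≤ Fm ^ 2 * (2 * Nb * h) ^ (k + 1) * (4 * (k + 1) ^ 2) * (1 / w) := by gcongr
          _ = h ^ (k + 1) * (C / w / k) := by rw [hC, mul_pow (2 * (Nb : ℝ))]; field_simp
          _ ≤ _ := by gcongr; rw [div_le_iff₀ (by linarith)]; linarith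
    have e5 : Fm ^ 2 * Pe * (∑ f, (K : ℝ) ^ #f * E f + R * L * (R ^ 2 * Pe)) ≤ 2 * ε / k * N := by
      have a1 : Fm ^ 2 * Pe * ∑ f, (K : ℝ) ^ #f * E f ≤ ε / k * N := by
        rw [div_le_iff₀ hε] at hz5
        have a0 : 0 ≤ ∑ f, (K : ℝ) ^ #f * E f :=
          sum_nonneg fun f _ => mul_nonneg (by positivity) (hE0 f)
        calc _ ≤ Fm ^ 2 * L ^ (6 * K) * (X / L ^ (6 * K + 1)) := by
              gcongr
              exact hPe1.trans (pow_le_pow_left₀ (by positivity) hL1 _)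
          _ = Fm ^ 2 * X / L := by field_simp; ring
          _ ≤ Fm ^ 2 * (W * N) / l := by rw [hAX]; gcongr
          _ = (k * Fm ^ 2 * W) / l / k * N := by field_simp
          _ ≤ _ := by gcongr; rw [div_le_iff₀ (by linarith)]; linarith
      have a2 : Fm ^ 2 * Pe * (R * L * (R ^ 2 * Pe)) ≤ ε / k * N := by
        rw [div_mul_eq_mul_div, div_le_iff₀ hε] at hz8
        calc _ ≤ Fm ^ 2 * (s * l) ^ (6 * K) * (R * ((s + 1) * l) * (R ^ 2 * (s * l) ^ (6 * K))) := by
              gcongr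
          _ = (k * Fm ^ 2 * s ^ (12 * K) * (s + 1) * l ^ (12 * K + 1)) / k * R ^ 3 := by
              field_simp; ring
          _ ≤ (z * ε) / k * R ^ 3 := by gcongr
          _ = ε / k * (R ^ 3 * z) := by ring
          _ ≤ _ := by gcongr
      have a3 : 2 * ε / k * N = ε / k * N + ε / k * N := by ring
      linarith
    have e6 := mul_le_mul_of_nonneg_right e3 (QF_nonneg _ (fun p => psd_B2 (hpk p) m) c)
    have e7 := mul_le_mul_of_nonneg_left e4
      (show 0 ≤ (1 - ε) * (N / ρ) from mul_nonneg (by linarith) (by positivity))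
    have e8 : (1 - ε) * (N / ρ) * (h ^ (k + 1) * ((1 - ε) ^ (k + 1) * JJ Nb Fb m - ε / k))
        = ((1 - ε) ^ (k + 2) * JJ Nb Fb m) * (u * l) - (1 - ε) * (ε / k * (u * l)) := by
      rw [hu, pow_succ h, hh]; field_simp; ring
    have e9 : (N : ℝ) ≤ u * l := hu1.trans (le_mul_of_one_le_right (by linarith) hl1)
    have e10 : 2 * ε / k * N ≤ 2 * ε / k * (u * l) := by gcongr
    have e11 : 0 ≤ ε * (ε / k * (u * l)) := by
      have : 0 ≤ u * l := by linarith
      positivity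
    have e12 : 3 * ε / k * (u * l) = ε / k * (u * l) + 2 * ε / k * (u * l) := by ring
    linarith
  set S := (range (N + 1)).filter fun n => M + 1 ≤
    (univ.filter fun i => W * n + d i ≤ W * N ∧ (W * n + d i).Prime).card with hS
  set ν := ∑ n ∈ S, ff r c n ^ 2 with hν
  have comp : ∑ m, S2 m ≤ M * ((s + 1) * l * S1) + k * ((s + 1) * l * ν) := by
    rw [sum_comm, hν, hS, sum_filter, Finset.mul_sum, Finset.mul_sum, Finset.mul_sum,
      Finset.mul_sum, ← sum_add_distrib]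
    refine sum_le_sum fun n hn => ?_
    have e1 : ∀ m, (if R < W * n + d m ∧ W * n + d m ≤ W * N then
        lam (W * n + d m) * ff r c n ^ 2 else 0)
        ≤ if W * n + d m ≤ W * N ∧ (W * n + d m).Prime then (s + 1) * l * ff r c n ^ 2 else 0 := by
      intro m
      by_cases h1 : R < W * n + d m ∧ W * n + d m ≤ W * N
      · by_cases h2 : (W * n + d m).Prime
        · rw [if_pos h1, if_pos ⟨h1.2, h2⟩]
          gcongr
          refine (lam_le (y := (W * N : ℕ)) ?_ ?_).trans hL2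
          · exact_mod_cast h1.2
          · exact_mod_cast hN0.trans_le hNX
        · simp [lam, h2]
      · rw [if_neg h1]
        split_ifs
        exacts [by positivity, le_rfl]
    refine (sum_le_sum fun m _ => e1 m).trans ?_
    rw [← sum_filter, sum_const, nsmul_eq_mul]
    have e2 : 0 ≤ (s + 1) * l * ff r c n ^ 2 := by positivity
    split_ifs with e3
    · refine le_add_of_nonneg_of_le (by positivity) (mul_le_mul_of_nonneg_right ?_ e2)
      exact_mod_cast (card_le_univ _).trans (Fintype.card_fin k).le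
    · rw [mul_zero, mul_zero, add_zero]
      gcongr
      omega
  have fin := (sum_le_sum fun m (_ : m ∈ univ) => low m).trans comp
  rw [sum_sub_distrib, ← Finset.sum_mul, ← Finset.mul_sum, sum_const, card_univ, Fintype.card_fin,
    nsmul_eq_mul] at fin
  have hul : 0 < u * l := mul_pos (by linarith) (by linarith)
  have e1 : (k : ℝ) * (3 * ε / k * (u * l)) ≤ 3 * ε * (u * l) := by
    rcases Nat.eq_zero_or_pos k with rfl | hk
    · simp; positivity
    · have : (0 : ℝ) < k := by exact_mod_cast hk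
      exact le_of_eq (by field_simp)
  have e2 := mul_le_mul_of_nonneg_right up (show 0 ≤ M * l by positivity)
  have e3 := mul_lt_mul_of_pos_right hgap hul
  have e4 : (s : ℝ) + 1 = 4 * Nb + 5 := by rw [hs4]; push_cast; ring
  have e5 : ε * N ≤ k * (s + 1) * ν := by
    have a1 : ε * u * l ≤ k * (s + 1) * ν * l := by
      rw [e4] at e2 fin ⊢
      linarith
    have a2 := le_of_mul_le_mul_right a1 (by linarith)
    nlinarith only [a2, hu1, hε]
  -- fourth moment
  have e6 : ∑ n ∈ range (N + 1), (ff r c n ^ 2) ^ 2 ≤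
      Fm ^ 4 * (s * l) ^ (24 * K) * (k * (2 * W * N * (s * l) ^ (6 * T))) := by
    have a0 : ∏ p, (1 + (k : ℝ) / pr p) ≤ (s * l) ^ (6 * K) := by
      refine le_trans (prod_le_prod (fun p _ => by positivity) fun p _ => ?_) hPe1
      gcongr
      rw [hK]; nlinarith only [Nat.zero_le k]
    have a1 : ∀ n, (ff r c n ^ 2) ^ 2 ≤ Fm ^ 4 * (s * l) ^ (24 * K) *
        ∑ i, (T : ℝ) ^ #{p ∈ univ | pr p ∣ W * n + d i} := by
      intro n
      refine (ff_four hk0 r c hc1 n).trans ?_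
      rw [show 24 * K = 6 * K * 4 by ring, pow_mul]
      refine mul_le_mul (by gcongr) (sum_le_sum fun i _ => ?_) (by positivity) (by positivity)
      rw [hT, Nat.cast_pow, Nat.cast_ofNat]
      refine pow_le_pow_right₀ (one_le_pow₀ (by norm_num)) (card_le_card fun p hp => ?_)
      refine mem_filter.2 ⟨mem_univ _, ?_⟩
      rw [← ZMod.natCast_eq_zero_iff]
      push_cast
      rw [(mem_filter.1 hp).2, hr]
      simp only
      rw [mul_div_cancel₀ _ (hA0 _), neg_add_cancel]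
    refine (sum_le_sum fun n _ => a1 n).trans ?_
    rw [← Finset.mul_sum, sum_comm]
    gcongr
    refine (sum_le_card_nsmul _ _ (2 * W * N * (s * l) ^ (6 * T)) fun i _ => ?_).trans (by simp)
    have a2 := mom univ pr (fun p _ => (hpr p).2.1) hpi.injOn (T := T) (by positivity) (2 * W * N)
    have a3 : ∏ p, (1 + (T : ℝ) / pr p) ≤ (s * l) ^ (6 * T) :=
      hLN ▸ euler_le hpi (fun p => (hpr p).1.trans hRN) (by rw [hLN]; linarith) T
    refine le_trans ?_ (a2.trans (by push_cast; gcongr))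
    rw [← sum_image (s := range (N + 1)) (g := fun n => W * n + d i)
      (f := fun x => (T : ℝ) ^ #{p ∈ univ | pr p ∣ x})
      (fun n _ n' _ h => Nat.eq_of_mul_eq_mul_left hW0 (Nat.add_right_cancel h))]
    refine sum_le_sum_of_subset_of_nonneg (fun x hx => ?_) fun _ _ _ => by positivity
    obtain ⟨n, hn, rfl⟩ := mem_image.1 hx
    have b1 : d i ≠ 0 := fun h => by
      have := hcop i
      rw [h, Nat.coprime_zero_left] at this
      omega
    have b2 := Nat.mul_le_mul_left W (Nat.le_of_lt_succ (mem_range.1 hn))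
    have b3 := hd i
    rw [mem_Ioc, mul_assoc]
    omega
  have e7 : ν ^ 2 ≤ #S * (Fm ^ 4 * (s * l) ^ (24 * K) * (k * (2 * W * N * (s * l) ^ (6 * T)))) :=
    sq_sum_le_card_mul_sum_sq.trans (mul_le_mul_of_nonneg_left ((sum_le_sum_of_subset_of_nonneg
      (filter_subset _ _) fun _ _ _ => by positivity).trans e6) (by positivity))
  have e8 : (ε * N) ^ 2 ≤ (ε ^ 2 * N) * (#S * l ^ (24 * K + 6 * T + 2)) := by
    rw [div_le_iff₀ (by positivity)] at hz11
    calc _ ≤ (k * (s + 1) * ν) ^ 2 := by gcongr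
      _ = (k * (s + 1)) ^ 2 * ν ^ 2 := by ring
      _ ≤ (k * (s + 1)) ^ 2 * (#S * (Fm ^ 4 * (s * l) ^ (24 * K) *
          (k * (2 * W * N * (s * l) ^ (6 * T))))) := by gcongr
      _ = (2 * k ^ 3 * (s + 1) ^ 2 * Fm ^ 4 * s ^ (24 * K + 6 * T)) * W *
          (N * (#S * l ^ (24 * K + 6 * T))) := by ring
      _ ≤ (l * ε ^ 2) * l * (N * (#S * l ^ (24 * K + 6 * T))) := by gcongr; linarith
      _ = _ := by ring
  rw [div_le_iff₀ (by positivity), ← Nat.cast_pow]
  refine le_of_mul_le_mul_left (le_trans (le_of_eq ?_) e8) (show 0 < ε ^ 2 * N by positivity)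
  ring

end Pool.Agent.Lib.MP_be93de_nt.Rk
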