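import Pool.Agent.Lib.MP_b09185_nt.FL

/-! Strings of consecutive primes in a chosen residue class. -/

namespace Pool.Agent.Lib.MP_be93de_nt.Rk

open Finset Pool.Agent.Lib.MP_b09185_nt

lemma rank_hit {n u v : ℕ} (hn : 1 ≤ n) (h : n ≤ #{x ∈ Icc u v | x.Prime}) :
    ∃ x ∈ Icc u v, x.Prime ∧ n ∣ Nat.count Nat.Prime x + 1 := by
  have hi := Nat.infinite_setOfPred_prime
  have h1 : Nat.count Nat.Prime u + n ≤ Nat.count Nat.Prime (v + 1) := by
    rw [Nat.count_eq_card_filter_range, Nat.count_eq_card_filter_range]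
    obtain ⟨y, hy⟩ := card_pos.1 (lt_of_lt_of_le hn h)
    have hy' := mem_Icc.1 (mem_filter.1 hy).1
    refine (Nat.add_le_add_left h _).trans ?_
    rw [← card_union_of_disjoint (disjoint_left.2 fun x h1 h2 => by
      have := mem_range.1 (mem_filter.1 h1).1
      have := mem_Icc.1 (mem_filter.1 h2).1
      omega)]
    refine card_le_card fun x hx => ?_
    simp only [mem_union, mem_filter, mem_range, mem_Icc] at hx ⊢
    rcases hx with hx | hx
    exacts [⟨by omega, hx.2⟩, ⟨by omega, hx.2⟩]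
  obtain ⟨c, hc⟩ : ∃ c, c = Nat.count Nat.Prime u := ⟨_, rfl⟩
  have h2 := Nat.div_add_mod c n
  have h3 := Nat.mod_lt c hn
  have h4 : n * (c / n + 1) = n * (c / n) + n := by ring
  have h5 : Nat.count Nat.Prime u ≤ n * (c / n + 1) - 1 := by omega
  have h6 : n * (c / n + 1) - 1 < Nat.count Nat.Prime (v + 1) := by omega
  refine ⟨Nat.nth Nat.Prime (n * (c / n + 1) - 1), mem_Icc.2 ⟨(Nat.count_le_iff_le_nth hi).1
    h5, Nat.le_of_lt_succ (Nat.nth_lt_of_lt_count h6)⟩, Nat.prime_nth_prime _, ?_⟩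
  rw [Nat.count_nth_of_infinite hi, Nat.sub_add_cancel (by omega)]
  exact dvd_mul_right _ _

lemma res_free {k p h : ℕ} (hp : p.Prime) (hh : Even h) (i0 : Fin k → ℕ) :
    ∃ r : ℕ, ∀ i, ¬ p ∣ r + i0 i * primorial (2 * k) ∧ ¬ p ∣ r + i0 i * primorial (2 * k) + h := by
  by_cases h1 : p ≤ 2 * k
  · have h2 : ∀ i, p ∣ i0 i * primorial (2 * k) := fun i =>
      (hp.dvd_primorial_iff.2 h1).mul_left _
    suffices ∃ r : ℕ, ¬ p ∣ r ∧ ¬ p ∣ r + h by
      obtain ⟨r, a1, a2⟩ := this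
      refine ⟨r, fun i => ⟨fun h => a1 ((Nat.dvd_add_left (h2 i)).1 h), fun h3 => a2 ?_⟩⟩
      rw [add_right_comm] at h3
      exact (Nat.dvd_add_left (h2 i)).1 h3
    by_cases h3 : p ∣ 1 + h
    · have h4 : p ≠ 2 := by
        rintro rfl
        obtain ⟨t, rfl⟩ := hh
        omega
      refine ⟨2, fun h5 => h4 ((Nat.prime_dvd_prime_iff_eq hp Nat.prime_two).1 h5), fun h5 => ?_⟩
      rw [show 2 + h = 1 + (1 + h) by ring] at h5
      exact hp.not_dvd_one ((Nat.dvd_add_left h3).1 h5)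
    · exact ⟨1, hp.not_dvd_one, h3⟩
  · have := Fact.mk hp
    obtain ⟨r, hr⟩ : ∃ r : ZMod p, r ∉ (univ.image fun i =>
        -((i0 i * primorial (2 * k) : ℕ) : ZMod p)) ∪
        univ.image fun i => -((i0 i * primorial (2 * k) + h : ℕ) : ZMod p) := by
      by_contra h2
      push Not at h2
      have h3 := (card_le_card (s := univ) fun x _ => h2 x).trans ((card_union_le _ _).trans
        (add_le_add card_image_le card_image_le))
      simp only [card_univ, ZMod.card, Fintype.card_fin] at h3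
      omega
    simp only [mem_union, mem_image, mem_univ, true_and, not_or, not_exists] at hr
    refine ⟨r.val, fun i => ⟨fun h2 => hr.1 i ?_, fun h2 => hr.2 i ?_⟩⟩
    · rw [← ZMod.natCast_eq_zero_iff, Nat.cast_add, ZMod.natCast_zmod_val] at h2
      exact (eq_neg_of_add_eq_zero_left h2).symm
    · rw [add_assoc, ← ZMod.natCast_eq_zero_iff, Nat.cast_add, ZMod.natCast_zmod_val] at h2
      exact (eq_neg_of_add_eq_zero_left h2).symm

/-- the choice of the residue class -/
lemma crt_class {k Q : ℕ} : ∃ (Bad : ℕ → Prop) (E D : ℕ) (b : Fin k → ℕ),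
    (∀ u H : ℕ, ∀ s ⊆ Ioc u (u + H), (∀ h ∈ s, Bad h) → (#s : ℝ) ≤ H / (Q + 1) + E) ∧
    Function.Injective b ∧ (∀ i, b i ≤ D) ∧ ∃ w₀, D < w₀ ∧ ∀ w ≥ w₀, ∀ h, Even h → ¬ Bad h →
      ∃ a < primorial w, (∀ i, (a + b i).Coprime (primorial w) ∧
        (a + b i + h).Coprime (primorial w)) ∧
        ∀ j ≤ D, (∀ i, j ≠ b i) → ∃ q, q.Prime ∧ q ≤ w ∧ q ∣ a + j := by
  set V := primorial (2 * k) with hV
  have hV0 : 0 < V := primorial_pos _
  set D := k * V with hD
  set b : Fin k → ℕ := fun i => i * V with hb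
  have hbD : ∀ i, b i ≤ D := fun i => Nat.mul_le_mul_right V i.2.le
  set Q0 := (k * (D + 1) + 1) * (Q + 1) + D with hQ0
  set q : ℕ → ℕ := fun j => Nat.nth Nat.Prime (Q0 + j) with hq
  have hi := Nat.infinite_setOfPred_prime
  have q1 : ∀ j, (q j).Prime := fun j => Nat.prime_nth_prime _
  have q2 : ∀ j, Q0 < q j := fun j => by
    have := Nat.add_two_le_nth_prime (Q0 + j)
    simp only [hq]; omega
  have q3 : Function.Injective q := fun i j h => by
    have := Nat.nth_injective hi h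
    omega
  have q4 : ∀ j ≤ D, q j ≤ q D := fun j hj => Nat.nth_monotone hi (by omega)
  refine ⟨fun h => ∃ i, ∃ j ≤ D, h ≡ j + (q j - 1) * b i [MOD q j], k * (D + 1), D, b,
    fun u H s hs hB => ?_, fun i j h => Fin.ext (Nat.eq_of_mul_eq_mul_right hV0 h), hbD, q D,
    by have := q2 D; omega, fun w hw h hh hB => ?_⟩
  · have a1 : s ⊆ (univ ×ˢ range (D + 1)).biUnion fun t : Fin k × ℕ =>
        {n ∈ Ioc u (u + H) | n ≡ t.2 + (q t.2 - 1) * b t.1 [MOD q t.2]} := fun h hh => by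
      obtain ⟨i, j, h1, h2⟩ := hB h hh
      exact mem_biUnion.2 ⟨(i, j), by simp; omega, mem_filter.2 ⟨hs hh, h2⟩⟩
    have a2 : (#s : ℝ) ≤ ∑ t ∈ (univ ×ˢ range (D + 1) : Finset (Fin k × ℕ)),
        (#{n ∈ Ioc u (u + H) | n ≡ t.2 + (q t.2 - 1) * b t.1 [MOD q t.2]} : ℝ) := by
      exact_mod_cast (card_le_card a1).trans card_biUnion_le
    refine a2.trans ((sum_le_card_nsmul _ _
      (H / (((k * (D + 1) + 1) * (Q + 1) : ℕ) : ℝ) + 1) fun t _ => ?_).trans ?_)
    · have a3 := (abs_le.1 (class_count u H (q t.2) (t.2 + (q t.2 - 1) * b t.1) (q1 _).pos)).2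
      have a4 : (H : ℝ) / q t.2 ≤ H / (((k * (D + 1) + 1) * (Q + 1) : ℕ) : ℝ) := by
        have := q2 t.2
        gcongr
        omega
      linarith
    · simp only [card_product, card_univ, Fintype.card_fin, card_range, nsmul_eq_mul]
      rw [mul_add, mul_one]
      gcongr
      push_cast
      rw [← div_div, div_right_comm, ← mul_div_assoc, div_le_iff₀ (by positivity), mul_comm]
      gcongr
      linarith
  · have key : ∀ p, p.Prime → ∃ r : ℕ, (∀ i, ¬ p ∣ r + b i ∧ ¬ p ∣ r + b i + h) ∧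
        ∀ j ≤ D, (∀ i, j ≠ b i) → p = q j → p ∣ r + j := by
      intro p hp
      by_cases h1 : ∃ j ≤ D, (∀ i, j ≠ b i) ∧ p = q j
      · obtain ⟨j, h2, h3, rfl⟩ := h1
        have h4 := q2 j
        refine ⟨q j - j, fun i => ⟨fun h5 => ?_, fun h5 => hB ⟨i, j, h2, ?_⟩⟩, fun j' _ _ h5 => ?_⟩
        · obtain ⟨t, ht⟩ := h5
          have := hbD i
          have := h3 i
          rcases t with _ | _ | t
          · omega
          · omega
          · have : q j * (t + 1 + 1) = q j * t + 2 * q j := by ring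
            omega
        · obtain ⟨t, ht⟩ := h5
          obtain ⟨e, he⟩ : ∃ e, q j = e + 1 := ⟨q j - 1, by omega⟩
          have a1 : h + q j * (b i + 1) = j + (q j - 1) * b i + q j * t := by
            rw [← ht, he, Nat.add_sub_cancel]
            have : (e + 1) * (b i + 1) = e * b i + b i + e + 1 := by ring
            omega
          have a2 := congrArg (· % q j) a1
          simpa [Nat.ModEq] using a2
        · rw [← q3 h5, Nat.sub_add_cancel (by omega)]
      · obtain ⟨r, hr⟩ := res_free hp hh (fun i : Fin k => (i : ℕ))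
        exact ⟨r, hr, fun j h2 h3 h4 => absurd ⟨j, h2, h3, h4⟩ h1⟩
    choose! r hr using key
    obtain ⟨a, ha⟩ := Nat.chineseRemainderOfFinset r id (Nat.primesLE w)
      (fun q hq => (Nat.prime_of_mem_primesLE hq).ne_zero)
      (fun q hq q' hq' hne => (Nat.coprime_primes (Nat.prime_of_mem_primesLE hq)
        (Nat.prime_of_mem_primesLE hq')).2 hne)
    have a1 : ∀ p, p.Prime → p ≤ w → ∀ t, p ∣ a % primorial w + t ↔ p ∣ r p + t := fun p hp h1 t =>
      ((((Nat.mod_modEq a _).of_dvd (hp.dvd_primorial_iff.2 h1)).trans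
        (ha p (Nat.mem_primesLE.2 ⟨h1, hp⟩))).add_right t).dvd_iff dvd_rfl
    refine ⟨a % primorial w, Nat.mod_lt _ (primorial_pos w), fun i => ⟨?_, ?_⟩, fun j h1 h2 =>
      ⟨q j, q1 j, (q4 j h1).trans hw, (a1 _ (q1 j) ((q4 j h1).trans hw) j).2
        ((hr _ (q1 j)).2 j h1 h2 rfl)⟩⟩
    · by_contra h1
      obtain ⟨p, hp, h2, h3⟩ := Nat.Prime.not_coprime_iff_dvd.1 h1
      exact ((hr p hp).1 i).1 ((a1 p hp (hp.dvd_primorial_iff.1 h3) _).1 h2)
    · by_contra h1
      obtain ⟨p, hp, h2, h3⟩ := Nat.Prime.not_coprime_iff_dvd.1 h1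
      rw [add_assoc, a1 p hp (hp.dvd_primorial_iff.1 h3), ← add_assoc] at h2
      exact ((hr p hp).1 i).2 h2

/-- every cluster gives a prime of the right rank -/
lemma clus_rank {k n D w a h N : ℕ} (hn : 1 ≤ n) {b : Fin k → ℕ} (hb : Function.Injective b)
    (hD : ∀ i, b i ≤ D) (hw : D < w) (h1 : ∀ i, (a + b i + h).Coprime (primorial w))
    (h2 : ∀ j ≤ D, (∀ i, j ≠ b i) → ∃ q, q.Prime ∧ q ≤ w ∧ q ∣ a + j) :
    #{m ∈ range (N + 1) | n ≤ #{i | primorial w * m + (a + b i) ≤ primorial w * N ∧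
      (primorial w * m + (a + b i)).Prime}} ≤ #{x ∈ Ioc 0 (primorial w * N) |
        x.Prime ∧ n ∣ Nat.count Nat.Prime x + 1 ∧ (x + h).Coprime (primorial w)} + 2 := by
  set W := primorial w with hW
  have hwW : w ≤ W := le_primorial_self
  refine le_trans (card_le_card (t := image (fun x => (x - a) / W) {x ∈ Ioc 0 (W * N) |
      x.Prime ∧ n ∣ Nat.count Nat.Prime x + 1 ∧ (x + h).Coprime W} ∪ range 2) fun m hm => ?_)
    ((card_union_le _ _).trans (add_le_add card_image_le (card_range 2).le))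
  by_cases hm2 : m < 2
  · exact mem_union_right _ (mem_range.2 hm2)
  obtain ⟨x, x1, x2, x3⟩ := rank_hit (u := W * m + a) (v := min (W * m + a + D) (W * N)) hn
    ((mem_filter.1 hm).2.trans (card_le_card_of_injOn (fun i => W * m + (a + b i))
      (fun i hi => by
        have := hD i
        have h3 := (mem_filter.1 hi).2
        beta_reduce
        exact mem_filter.2 ⟨mem_Icc.2 ⟨by omega, le_min (by omega) h3.1⟩, h3.2⟩)
      fun i _ j _ h => hb (by simpa using h)))
  rw [mem_Icc, le_min_iff] at x1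
  obtain ⟨j, rfl⟩ := Nat.exists_eq_add_of_le x1.1
  have hj : j ≤ D := by omega
  refine mem_union_left _ (mem_image.2 ⟨_, mem_filter.2 ⟨mem_Ioc.2 ⟨x2.pos, x1.2.2⟩, x2, x3, ?_⟩, ?_⟩)
  · by_cases h3 : ∀ i, j ≠ b i
    · obtain ⟨q, q1, q2, q3⟩ := h2 j hj h3
      have h4 : q ∣ W * m + a + j := by
        rw [add_assoc]
        exact dvd_add ((q1.dvd_primorial_iff.2 q2).mul_right _) q3
      have h5 := (Nat.prime_dvd_prime_iff_eq q1 x2).1 h4
      have h6 : W * 2 ≤ W * m := Nat.mul_le_mul_left W (by omega)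
      omega
    · push Not at h3
      obtain ⟨i, rfl⟩ := h3
      rw [show W * m + a + b i + h = a + b i + h + W * m by ring, Nat.coprime_add_mul_left_left]
      exact h1 i
  · rw [show W * m + a + j - a = W * m + j by omega, Nat.mul_add_div (by omega),
      Nat.div_eq_of_lt (by omega), add_zero]

end Pool.Agent.Lib.MP_be93de_nt.Rk
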