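import Pool.Agent.Lib.MP_be93de_nt.Rk2
import Pool.Agent.Lib.MP_68a45e_nt.CMod2
import Pool.Agent.Lib.MP_68a45e_nt.CTel2

/-! The second moment of the sieve model along an arbitrary dense set. -/

namespace Pool.Agent.Lib.MP_be93de_nt.Rk

open Finset Filter Pool.Agent.Lib.MP_b09185_nt Pool.Agent.Lib.SW
open Pool.Agent.Lib.MP_68a45e_nt Pool.Agent.Lib.MP_68a45e_nt.CMod

lemma cheb (I S : Finset ℕ) (f g : ℕ → ℕ → ℝ) {τ e η : ℝ} (hτ : 1 ≤ τ) (he : 0 ≤ e)
    (hS : S.Nonempty) (h1 : ∀ x ∈ S, #I * τ - e ≤ ∑ t ∈ I, f x t)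
    (h2 : ∀ x ∈ S, ∀ y ∈ S, ∑ t ∈ I, f x t * f y t ≤ #I * g x y + e)
    (h3 : ∀ x ∈ S, ∑ y ∈ S, g x y ≤ (1 + η) * τ ^ 2 * #S) :
    (#{t ∈ I | ∑ x ∈ S, f x t < #S / 2} : ℝ) ≤ 4 * (η * #I + 3 * e) := by
  have s0 : (0 : ℝ) < #S := by exact_mod_cast hS.card_pos
  set s : ℝ := (#S : ℝ) with hs
  set N : ℝ := (#I : ℝ) with hN
  have N0 : 0 ≤ N := by positivity
  have a1 : s * (N * τ - e) ≤ ∑ t ∈ I, ∑ x ∈ S, f x t := by
    rw [sum_comm]
    simpa using card_nsmul_le_sum S _ _ h1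
  have a2 : ∑ t ∈ I, (∑ x ∈ S, f x t) ^ 2 ≤ s * (N * ((1 + η) * τ ^ 2 * s) + s * e) := by
    simp only [sq (∑ x ∈ S, _), sum_mul_sum]
    rw [sum_comm]
    refine (sum_le_card_nsmul S _ (N * ((1 + η) * τ ^ 2 * s) + s * e) fun x hx => ?_).trans
      (nsmul_eq_mul _ _).le
    rw [sum_comm]
    refine (sum_le_sum (h2 x hx)).trans ?_
    rw [sum_add_distrib, ← mul_sum, sum_const, nsmul_eq_mul]
    gcongr
    exact h3 x hx
  have a3 : ∑ t ∈ I, (∑ x ∈ S, f x t - τ * s) ^ 2 = ∑ t ∈ I, (∑ x ∈ S, f x t) ^ 2 -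
      2 * (τ * s) * ∑ t ∈ I, ∑ x ∈ S, f x t + N * (τ * s) ^ 2 := by
    rw [mul_sum, ← sum_sub_distrib, hN, ← nsmul_eq_mul, ← sum_const, ← sum_add_distrib]
    exact sum_congr rfl fun t _ => by ring
  have a4 := card_nsmul_le_sum {t ∈ I | ∑ x ∈ S, f x t < s / 2}
    (fun t => (∑ x ∈ S, f x t - τ * s) ^ 2) ((τ * s / 2) ^ 2) fun t ht => by
      have := (mem_filter.1 ht).2
      rw [← neg_sq (_ - _)]
      gcongr
      nlinarith
  have a5 := a4.trans (sum_le_sum_of_subset_of_nonneg (filter_subset _ _) fun _ _ _ => sq_nonneg _)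
  rw [a3, nsmul_eq_mul] at a5
  have a6 := mul_le_mul_of_nonneg_left a1 (show 0 ≤ 2 * (τ * s) by positivity)
  have a7 : s ^ 2 * e * (1 + 2 * τ) ≤ s ^ 2 * e * (3 * τ ^ 2) := by gcongr; nlinarith
  refine le_of_mul_le_mul_right ?_ (show 0 < (τ * s / 2) ^ 2 by positivity)
  nlinarith

lemma Sz_one {w y c : ℕ} (h : primorial w ≤ y) (hc : c.Coprime (primorial w)) :
    Sz y (fun _ : Fin 1 => primorial w) (fun _ => c) = (th w)⁻¹ := by
  have : (primorial w : ℝ) ≠ 0 := by exact_mod_cast primorial_ne_zero w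
  rw [Sz_class (primorial_pos w) h, if_pos hc, tot_real, primeFactors_primorial, th]
  field_simp

lemma Sz_two {w y : ℕ} (hw : 1 ≤ w) (h : w ≤ y) (c d : ℕ) :
    Sz y (fun _ : Fin 2 => primorial w) ![c, d] ≤ (th w)⁻¹ ^ 2 *
      Real.exp (#{p ∈ Nat.primesLE y \ Nat.primesLE w | c ≡ d [MOD p]} * (2 / w)) := by
  have hs : Nat.primesLE w ⊆ Nat.primesLE y := fun p hp =>
    Nat.mem_primesLE.2 ⟨(Nat.mem_primesLE.1 hp).1.trans h, (Nat.mem_primesLE.1 hp).2⟩
  have n0 : ∀ p, p.Prime → 0 ≤ (1 - (nu (fun _ : Fin 2 => primorial w) ![c, d] p : ℝ) / p) /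
      (1 - 1 / (p : ℝ)) ^ 2 := fun p hp => by
    have h0 : (0 : ℝ) < p := by exact_mod_cast hp.pos
    refine div_nonneg ?_ (sq_nonneg _)
    rw [sub_nonneg, div_le_one h0]; exact_mod_cast nu_le_self _ _ p
  rw [Sz, ← prod_sdiff hs, mul_comm, th, ← prod_inv_distrib, ← prod_pow, Real.exp_nat_mul,
    ← prod_const, prod_filter]
  refine mul_le_mul (prod_le_prod (fun p hp => n0 p (Nat.prime_of_mem_primesLE hp)) fun p hp => ?_)
    (prod_le_prod (fun p hp => n0 p (Nat.prime_of_mem_primesLE (mem_sdiff.1 hp).1)) fun p hp => ?_)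
    (prod_nonneg fun p hp => n0 p (Nat.prime_of_mem_primesLE (mem_sdiff.1 hp).1))
    (prod_nonneg fun _ _ => sq_nonneg _)
  · rw [inv_pow, ← one_div (_ ^ 2)]
    gcongr
    exact sub_le_self _ (by positivity)
  · have hp' := Nat.prime_of_mem_primesLE (mem_sdiff.1 hp).1
    have hwp : w < p := not_le.1 fun h => (mem_sdiff.1 hp).2 (Nat.mem_primesLE.2 ⟨h, hp'⟩)
    have := Fact.mk hp'
    have h0 : (primorial w : ZMod p) ≠ 0 := fun h =>
      absurd (hp'.dvd_primorial_iff.1 ((ZMod.natCast_eq_zero_iff _ _).1 h)) (not_le.2 hwp)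
    have h1 : ∀ e : ℕ, p ∣ primorial w * (-(e : ZMod p) / primorial w).val + e := fun e => by
      rw [← ZMod.natCast_eq_zero_iff]
      push_cast
      rw [ZMod.natCast_zmod_val]; field_simp; ring
    have h2 : ({(-(c : ZMod p) / primorial w).val, (-(d : ZMod p) / primorial w).val} : Finset ℕ) ⊆
        {n ∈ range p | p ∣ ∏ i : Fin 2, (primorial w * n + ![c, d] i)} := by
      intro n hn
      rw [mem_insert, mem_singleton] at hn
      rw [mem_filter, mem_range, Fin.prod_univ_two]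
      rcases hn with rfl | rfl
      exacts [⟨ZMod.val_lt _, (h1 c).mul_right _⟩, ⟨ZMod.val_lt _, (h1 d).mul_left _⟩]
    have h3 := card_le_card h2
    have p0 := factor_pos hp'
    have p2 : (2 : ℝ) ≤ p := by exact_mod_cast hp'.two_le
    have p3 : 1 / (p : ℝ) ≤ 1 / 2 := one_div_le_one_div_of_le (by norm_num) p2
    have p4 : 0 < 1 / (p : ℝ) := by positivity
    rw [div_le_iff₀ (by positivity), div_eq_mul_one_div _ (p : ℝ)]
    split_ifs with h4
    · have h5 : (1 : ℝ) ≤ nu (fun _ : Fin 2 => primorial w) ![c, d] p := by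
        exact_mod_cast le_trans (card_pos.2 (insert_nonempty _ _)) h3
      have h6 : 2 * (1 / (p : ℝ)) + 1 ≤ Real.exp (2 / w) := by
        refine le_trans ?_ (Real.add_one_le_exp _)
        rw [mul_one_div]
        gcongr
      have h7 := mul_le_mul_of_nonneg_right h6 (sq_nonneg (1 - 1 / (p : ℝ)))
      have h8 := mul_le_mul_of_nonneg_right h5 p4.le
      nlinarith [mul_nonneg (mul_nonneg p4.le p0.le) (sub_nonneg.2 p3)]
    · rw [card_pair fun h => h4 ((ZMod.natCast_eq_natCast_iff _ _ _).1 (neg_injective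
        ((div_left_inj' h0).1 (ZMod.val_injective p h))))] at h3
      have h5 : (2 : ℝ) ≤ nu (fun _ : Fin 2 => primorial w) ![c, d] p := by exact_mod_cast h3
      nlinarith [mul_le_mul_of_nonneg_right h5 p4.le]

lemma ev_logr (c : ℝ) (n : ℕ) : ∀ᶠ L : ℝ in atTop, c * Real.log L ^ n ≤ L := by
  filter_upwards [((Real.isLittleO_pow_log_id_atTop (n := n)).const_mul_left c).bound one_pos,
    eventually_ge_atTop 0] with z hz h0
  simp only [id, Real.norm_eq_abs, one_mul, abs_of_nonneg h0] at hz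
  exact (le_abs_self _).trans hz

lemma sum_dist (S : Finset ℕ) {X x : ℕ} (hS : S ⊆ Ioc 0 X) (hx : x ∈ S) (F : ℕ → ℝ)
    (hF : ∀ d, 0 ≤ F d) : ∑ y ∈ S, (if x = y then 1 else F (x - y + (y - x))) ≤
      1 + 2 * ∑ d ∈ Ioc 0 X, F d := by
  have a1 := CTel.sum_inj {y ∈ S | y < x} (Ioc 0 X) (fun y => x - y) F hF
    (fun u hu v hv h => by
      have := (mem_filter.1 hu).2
      have := (mem_filter.1 hv).2
      omega) fun u hu => by
      have := (mem_filter.1 hu).2
      have := mem_Ioc.1 (hS hx)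
      rw [mem_Ioc]; omega
  have a2 := CTel.sum_inj {y ∈ S | x < y} (Ioc 0 X) (fun y => y - x) F hF
    (fun u hu v hv h => by
      have := (mem_filter.1 hu).2
      have := (mem_filter.1 hv).2
      omega) fun u hu => by
      have := (mem_filter.1 hu).2
      have := mem_Ioc.1 (hS (mem_filter.1 hu).1)
      rw [mem_Ioc]; omega
  have a3 : ∑ y ∈ S, (if x = y then (1 : ℝ) else 0) = 1 := by simp [hx]
  rw [sum_filter] at a1 a2
  rw [two_mul]
  refine le_trans (le_of_eq ?_) (add_le_add a3.le (add_le_add a1 a2))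
  rw [← sum_add_distrib, ← sum_add_distrib]
  refine sum_congr rfl fun y _ => ?_
  rcases lt_trichotomy x y with h | h | h
  · rw [if_neg h.ne, if_neg h.ne, if_neg h.asymm, if_pos h, Nat.sub_eq_zero_of_le h.le]; simp
  · simp [h]
  · rw [if_neg h.ne', if_neg h.ne', if_pos h, if_neg h.asymm, Nat.sub_eq_zero_of_le h.le]; simp

theorem model (C B : ℕ) {η : ℝ} (hη : 0 < η) : ∀ᶠ X : ℕ in atTop, ∀ w y : ℕ,
    Real.log (Real.log X) ≤ 16 * w → primorial w ≤ y → Real.log X ≤ y → (y : ℝ) ≤ Real.log X ^ B →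
    ∀ S ⊆ Ioc 0 X, X / Real.log X ^ C ≤ #S → ∀ h0, (∀ x ∈ S, (x + h0).Coprime (primorial w)) →
    ∀ N, (#{t ∈ Ioc 0 N | ∑ x ∈ S, lsh y (primorial w * t + (x + h0)) < #S / 2} : ℝ) ≤
      η * N + 12 * Real.exp (3 * √(Real.log X)) := by
  set κ := Real.log (1 + η / 16) / 32 with hκ
  have κ0 : 0 < κ := div_pos (Real.log_pos (by linarith)) (by norm_num)
  set T := ⌈Real.exp ((C + 4 : ℕ) / κ)⌉₊ with hT
  have T1 : Real.exp ((C + 4 : ℕ) / κ) ≤ T := Nat.le_ceil _
  filter_upwards [corr' 1 1 B, corr' 2 1 B, th_ev B, tendsto_L.eventually (ev_logr (B ^ (6 * T)) (6 * T)),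
    (Real.tendsto_log_atTop.comp tendsto_L).eventually_ge_atTop (2 * Real.exp 10),
    tendsto_L.eventually_ge_atTop (64 / η), tendsto_L.eventually_ge_atTop 1,
    MP_28260b_nt.ev_log (32 / η) (C + 2), eventually_gt_atTop 0]
    with X c1 c2 hth hB hll hL1 hL2 hX hX0 w y hw hWy hLy hy S hS hC h0 hc N
  simp only [Function.comp] at hll
  set L := Real.log X with hL
  have X0 : (0 : ℝ) < X := by exact_mod_cast hX0
  have L0 : 0 < L := by linarith
  have l0 : 0 < Real.log L := by linarith [Real.exp_pos 10]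
  have w0 : (0 : ℝ) < w := by linarith
  have w1 : 1 ≤ w := by exact_mod_cast w0
  have hwy : w ≤ y := le_primorial_self.trans hWy
  have y1 : 1 ≤ y := w1.trans hwy
  have s0 : (0 : ℝ) < #S := lt_of_lt_of_le (by positivity) hC
  have τ1 : 1 ≤ (th w)⁻¹ := (one_le_inv₀ (th_pos w)).2 (th_le_one w)
  set P := Nat.primesLE y \ Nat.primesLE w with hP
  have hPp : ∀ p ∈ P, p.Prime ∧ p ≤ y := fun p hp => (Nat.mem_primesLE.1 (mem_sdiff.1 hp).1).symm
  have hE : ∏ p ∈ P, (1 + (T : ℝ) / p) ≤ L := by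
    have : ∀ p : P, Fact (p : ℕ).Prime := fun p => ⟨(hPp p p.2).1⟩
    have a1 := MP_28260b_nt.euler_le (ι := P) (pr := Subtype.val) Subtype.val_injective (X := y)
      (fun p => (hPp p p.2).2) (hll.trans (Real.log_le_log L0 hLy)) T
    rw [prod_coe_sort P fun p : ℕ => 1 + (T : ℝ) / p] at a1
    refine a1.trans (le_trans ?_ hB)
    rw [← mul_pow, ← Real.log_pow]
    gcongr
  have key := cheb (Ioc 0 N) S (fun x t => lsh y (primorial w * t + (x + h0)))
    (fun x x' => (1 + η / 16) * (th w)⁻¹ ^ 2 + L ^ 2 * if x = x' then 1 else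
      (T : ℝ) ^ #{p ∈ P | id p ∣ x - x' + (x' - x)} / L ^ (C + 4))
    (e := N / L + Real.exp (3 * √L)) (η := η / 8) τ1 (by positivity)
    (card_pos.1 (by exact_mod_cast s0)) (fun x hx => ?_) (fun x hx x' hx' => ?_) fun x hx => ?_
  · refine key.trans ?_
    rw [div_le_iff₀ hη] at hL1
    have : (N : ℝ) / L ≤ η / 64 * N := by
      rw [div_le_iff₀ L0]
      nlinarith [mul_le_mul_of_nonneg_left hL1 (Nat.cast_nonneg (α := ℝ) N)]
    simp only [Nat.card_Ioc, tsub_zero]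
    nlinarith [mul_nonneg hη.le (Nat.cast_nonneg (α := ℝ) N)]
  · have a1 := (abs_le.1 (c1 y y1 hy (fun _ => primorial w) (fun _ => x + h0) 0 N)).1
    simp only [Fin.prod_univ_one, Sz_one hWy (hc x hx), zero_add, pow_one] at a1
    simp only [Nat.card_Ioc, tsub_zero]
    linarith
  · have a1 := (abs_le.1 (c2 y y1 hy (fun _ => primorial w) ![x + h0, x' + h0] 0 N)).2
    simp only [Fin.prod_univ_two, zero_add, pow_one, Matrix.cons_val_zero, Matrix.cons_val_one]
      at a1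
    simp only [Nat.card_Ioc, tsub_zero]
    refine (sub_le_iff_le_add'.1 a1).trans ?_
    gcongr
    have a2 := (Sz_le y (fun _ : Fin 2 => primorial w) ![x + h0, x' + h0]).trans
      (pow_le_pow_left₀ (inv_pos.2 (th_pos y)).le (hth y hy) 2)
    have a3 := Sz_two w1 hwy (x + h0) (x' + h0)
    have a4 : 0 ≤ (1 + η / 16) * (th w)⁻¹ ^ 2 := by positivity
    split_ifs with h1
    · linarith
    have a5 : {p ∈ P | x + h0 ≡ x' + h0 [MOD p]} = {p ∈ P | id p ∣ x - x' + (x' - x)} := by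
      refine filter_congr fun p _ => ?_
      rw [show x + h0 ≡ x' + h0 [MOD p] ↔ x ≡ x' [MOD p] from
        ⟨Nat.ModEq.add_right_cancel' h0, fun h => h.add_right h0⟩, id]
      rcases le_total x x' with h | h
      · rw [Nat.modEq_iff_dvd' h, Nat.sub_eq_zero_of_le h, zero_add]
      · rw [Nat.ModEq.comm, Nat.modEq_iff_dvd' h, Nat.sub_eq_zero_of_le h, add_zero]
    rw [← hP, a5] at a3
    generalize #{p ∈ P | id p ∣ x - x' + (x' - x)} = om at a3 ⊢
    rcases le_total (om : ℝ) (κ * Real.log L) with h2 | h2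
    · refine le_add_of_le_of_nonneg (a3.trans ?_) (by positivity)
      rw [mul_comm]
      gcongr
      rw [← Real.le_log_iff_exp_le (by positivity), ← mul_div_assoc, div_le_iff₀ w0]
      have := mul_le_mul_of_nonneg_left hw κ0.le
      rw [show Real.log (1 + η / 16) = 32 * κ by rw [hκ]; ring]
      linarith
    · refine le_add_of_nonneg_of_le a4 (a2.trans (le_mul_of_one_le_right (by positivity) ?_))
      rw [le_div_iff₀ (by positivity), one_mul]
      calc L ^ (C + 4) = Real.exp ((C + 4 : ℕ) / κ * (κ * Real.log L)) := by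
            rw [← mul_assoc, div_mul_cancel₀ _ κ0.ne', Real.exp_nat_mul, Real.exp_log L0]
        _ ≤ Real.exp (om * ((C + 4 : ℕ) / κ)) := by rw [mul_comm (om : ℝ)]; gcongr
        _ ≤ _ := by rw [Real.exp_nat_mul]; gcongr
  · rw [sum_add_distrib, sum_const, nsmul_eq_mul, ← mul_sum]
    have a1 := sum_dist S hS hx (fun d => (T : ℝ) ^ #{p ∈ P | id p ∣ d} / L ^ (C + 4))
      fun d => by positivity
    have a2 := mom P id (fun p hp => (hPp p hp).1) (Set.injOn_id _) (T := T) (by positivity) X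
    rw [← sum_div] at a1
    have a3 : L ^ 2 * (1 + 2 * (X * L / L ^ (C + 4))) ≤ η / 16 * (X / L ^ C) := by
      rw [div_mul_eq_mul_div, div_le_iff₀ hη] at hX
      rw [div_le_iff₀ hη] at hL1
      have b1 : L ^ 2 ≤ η / 32 * (X / L ^ C) := by
        rw [← mul_div_assoc, le_div_iff₀ (by positivity), ← pow_add, add_comm]
        linarith
      have b2 : L ^ 2 * (2 * (X * L / L ^ (C + 4))) = 2 / L * (X / L ^ C) := by
        field_simp; ring
      have b3 : 2 / L * (X / L ^ C) ≤ η / 32 * (X / L ^ C) := by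
        gcongr ?_ * _
        rw [div_le_iff₀ L0]; linarith
      linarith
    have a4 : L ^ 2 * (1 + 2 * ((∑ d ∈ Ioc 0 X, (T : ℝ) ^ #{p ∈ P | id p ∣ d}) / L ^ (C + 4))) ≤
        L ^ 2 * (1 + 2 * (X * L / L ^ (C + 4))) := by
      gcongr
      exact a2.trans (mul_le_mul_of_nonneg_left hE X0.le)
    have a5 := mul_le_mul_of_nonneg_left a1 (sq_nonneg L)
    have a6 : η / 16 * (X / L ^ C) ≤ η / 16 * ((th w)⁻¹ ^ 2 * #S) := by
      gcongr
      exact hC.trans (le_mul_of_one_le_left s0.le (one_le_pow₀ τ1))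
    linarith

end Pool.Agent.Lib.MP_be93de_nt.Rk
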