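import Pool.Agent.Lib.MP_be93de_nt.Rk4

/-! Primes in almost all translates of a dense set, along one residue class of shifts. -/

namespace Pool.Agent.Lib.MP_be93de_nt.Rk

open Finset Filter Pool.Agent.Lib.MP_b09185_nt Pool.Agent.Lib.SW
open Pool.Agent.Lib.MP_68a45e_nt Pool.Agent.Lib.MP_68a45e_nt.CMod Pool.Agent.Lib.MP_68a45e_nt.Av

lemma lam_split (S : Finset ℕ) {Y h : ℕ} (hY : 1 ≤ Y) (hS : ∀ x ∈ S, x + h ∈ Ioc 0 Y) :
    ∑ x ∈ S, ArithmeticFunction.vonMangoldt (x + h) ≤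
      #{x ∈ S | (x + h).Prime} * Real.log Y + 2 * √Y * Real.log Y := by
  have a1 := Chebyshev.psi_sub_theta_le (x := Y) (by exact_mod_cast hY)
  rw [Chebyshev.psi_sub_theta_eq_sum_not_prime, Nat.floor_natCast] at a1
  rw [← sum_filter_add_sum_filter_not S fun x => (x + h).Prime]
  refine add_le_add ?_ (le_trans (CTel.sum_inj _ _ (fun x => x + h) _
    (fun _ => ArithmeticFunction.vonMangoldt_nonneg) (fun u _ v _ h => by omega) fun x hx =>
      mem_filter.2 ⟨hS x (mem_filter.1 hx).1, (mem_filter.1 hx).2⟩) a1)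
  rw [← nsmul_eq_mul]
  exact sum_le_card_nsmul _ _ _ fun x hx => ArithmeticFunction.vonMangoldt_le_log.trans
    (MP_28260b_nt.log_le_L (mem_Ioc.1 (hS x (mem_filter.1 hx).1)).2)

theorem classB (hU : ∀ θ : ℝ, 1 / 9 < θ → Unif θ) (C : ℕ) {θ η : ℝ} (hθ : 1 / 9 < θ) (hη : 0 < η) :
    ∀ᶠ X : ℕ in atTop, ∀ w : ℕ, Real.log (Real.log X) ≤ 16 * w → primorial w ≤ Real.log X →
    ∀ H b : ℕ, (X : ℝ) ^ θ ≤ H → b + H ≤ X → ∀ S ⊆ Ioc 0 X, X / Real.log X ^ C ≤ #S →
    ∀ h0, (∀ x ∈ S, (x + h0).Coprime (primorial w)) →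
      (#{t ∈ Ioc 0 (H / primorial w) | h0 + primorial w * t ∈ Ioc b (b + H) ∧
        (#{x ∈ S | (x + (h0 + primorial w * t)).Prime} : ℝ) < X / Real.log X ^ (C + 2)} : ℝ) ≤
          η * H / primorial w := by
  set θ1 := min θ (1 / 4) with hθ1
  have h1 : 1 / 9 < θ1 := lt_min hθ (by norm_num)
  obtain ⟨θ2, h2, h3⟩ := exists_between h1
  obtain ⟨B0, hU⟩ := hU θ2 h2 (C + 3)
  set B := B0 + 1 with hB
  filter_upwards [(tendsto_id.const_mul_atTop' (by norm_num : 0 < 2)).eventually (hU (B + 1)),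
    model C (B + 1) (η := η / 3) (by positivity), sizeW (B + 1),
    tendsto_L.eventually_ge_atTop (2 ^ B + 1), tendsto_L.eventually_ge_atTop 64,
    tendsto_L.eventually_ge_atTop (432 / η), exp_sqrt_ev (show 0 < θ by linarith) 3 2,
    tendsto_L.eventually (ev_pow_le 0),
    MP_28260b_nt.ev_log 1 (4 * (C + 6)), MP_28260b_nt.ev_log 1 (2 * (C + 2)),
    ((tendsto_rpow_atTop (show 0 < θ1 - θ2 by linarith)).comp
      tendsto_natCast_atTop_atTop).eventually_ge_atTop 2, eventually_ge_atTop 2]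
    with X hU hM hSz l1 l2 l3 l4 _ l6 l7 l5 hX w hw hW H b hH hb S hS hC h0 hc
  simp only [id] at hU
  have X1 : (2 : ℝ) ≤ X := by exact_mod_cast hX
  have X0 : (0 : ℝ) < X := by linarith
  set l := Real.log X with hl
  set W := primorial w with hWd
  have W0 : (0 : ℝ) < W := by exact_mod_cast primorial_pos w
  have l0 : 0 < l := by linarith
  have e8 : Real.log ((2 * X : ℕ) : ℝ) ≤ 2 * l := by
    push_cast
    rw [Real.log_mul (by norm_num) X0.ne', two_mul]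
    gcongr
    exact Real.log_le_log (by norm_num) X1
  have e8' : l ≤ Real.log ((2 * X : ℕ) : ℝ) := Real.log_le_log X0 (by push_cast; linarith)
  set l8 := Real.log ((2 * X : ℕ) : ℝ) with hl8
  set y := ⌈l8 ^ B⌉₊ with hy
  have w1 : l8 ^ B ≤ y := Nat.le_ceil _
  have w2 : (y : ℝ) ≤ l ^ (B + 1) := by
    have a1 : (y : ℝ) ≤ l8 ^ B + 1 := (Nat.ceil_lt_add_one (by positivity)).le
    have a2 : l8 ^ B ≤ (2 * l) ^ B := by gcongr
    have a3 : 1 ≤ l ^ B := one_le_pow₀ (by linarith)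
    rw [mul_pow] at a2
    rw [pow_succ]
    nlinarith only [a1, a2, a3, l1]
  have w3 : (y : ℝ) ≤ l8 ^ (B + 1) := w2.trans (by gcongr)
  have w4 : l8 ^ B0 ≤ y := le_trans (pow_le_pow_right₀ (by linarith) (by omega)) w1
  have w5 : l ≤ y := e8'.trans (le_trans (le_self_pow₀ (by linarith) (by omega)) w1)
  set L := ⌈(X : ℝ) ^ θ1⌉₊ with hL
  have p1 : (1 : ℝ) ≤ (X : ℝ) ^ θ1 := Real.one_le_rpow (by linarith) (by linarith)
  have L1 : (X : ℝ) ^ θ1 ≤ L := Nat.le_ceil _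
  have L0 : (0 : ℝ) < L := by linarith
  have L2 : (L : ℝ) ≤ 2 * (X : ℝ) ^ θ1 := by
    linarith [(Nat.ceil_lt_add_one (show 0 ≤ (X : ℝ) ^ θ1 by positivity)).le]
  have L4 : ((X : ℝ) ^ θ1) ^ 4 ≤ X := by
    rw [← Real.rpow_natCast, ← Real.rpow_mul X0.le]
    refine (Real.rpow_le_rpow_of_exponent_le (by linarith) ?_).trans (Real.rpow_one _).le
    push_cast; linarith [min_le_right θ (1 / 4)]
  have L6 : L ≤ H := Nat.ceil_le.2
    ((Real.rpow_le_rpow_of_exponent_le (by linarith) (min_le_left _ _)).trans hH)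
  have L9 : L * l ^ (C + 6) ≤ 2 * √X := by
    refine Real.le_sqrt_of_sq_le ?_ |>.trans (Real.sqrt_sq (by positivity)).le
    refine (Real.le_sqrt_of_sq_le ?_).trans (Real.sqrt_sq (by positivity)).le
    calc _ = (L : ℝ) ^ 4 * l ^ (4 * (C + 6)) := by ring
      _ ≤ (2 * (X : ℝ) ^ θ1) ^ 4 * X := by gcongr; linarith
      _ = 16 * ((X : ℝ) ^ θ1) ^ 4 * X := by ring
      _ ≤ 16 * X * X := by gcongr
      _ = _ := by rw [mul_pow, Real.sq_sqrt X0.le]; ring
  have sX : √(X : ℝ) * √X = X := Real.mul_self_sqrt X0.le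
  have sX1 : l ^ (C + 2) ≤ √X := Real.le_sqrt_of_sq_le (by rw [← pow_mul, mul_comm]; linarith)
  have sX2 : 64 ≤ √(X : ℝ) := l2.trans ((le_self_pow₀ (by linarith) (by omega)).trans sX1)
  have L7 : L ^ 2 ≤ 2 * X := by
    have a1 : (L : ℝ) * 2 ≤ L * l ^ (C + 6) := by
      gcongr
      exact le_trans (by linarith) (le_self_pow₀ (show 1 ≤ l by linarith) (by omega))
    have : (L : ℝ) ^ 2 ≤ 2 * X := by nlinarith only [a1, L9, sX, L0, sX2]
    exact_mod_cast this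
  have L8 : (((2 * X : ℕ) : ℝ)) ^ θ2 ≤ L := by
    push_cast
    rw [Real.mul_rpow (by norm_num) X0.le]
    have a1 : (2 : ℝ) ^ θ2 ≤ 2 ^ (1 : ℝ) := Real.rpow_le_rpow_of_exponent_le (by norm_num)
      (by linarith [min_le_right θ (1 / 4)])
    rw [Real.rpow_one] at a1
    have a2 : (X : ℝ) ^ θ1 = (X : ℝ) ^ (θ1 - θ2) * (X : ℝ) ^ θ2 := by
      rw [← Real.rpow_add X0]; ring_nf
    calc (2 : ℝ) ^ θ2 * (X : ℝ) ^ θ2 ≤ (X : ℝ) ^ (θ1 - θ2) * (X : ℝ) ^ θ2 := by
          gcongr; exact a1.trans l5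
      _ ≤ L := a2 ▸ L1
  have s0 : (0 : ℝ) < #S := lt_of_lt_of_le (by positivity) hC
  have c1 := CTel.circ_tr (F := fun n => vM n - LW y n) (L := L) (Y := 2 * X) (B := 3 * l) 0 (2 * X)
    (by positivity) le_rfl (fun n hn => (norm_sub_le _ _).trans (by
      have := hSz y n w2
      rw [vM, Complex.norm_real, Real.norm_of_nonneg ArithmeticFunction.vonMangoldt_nonneg]
      linarith [ArithmeticFunction.vonMangoldt_le_log.trans (MP_28260b_nt.log_le_L hn)]))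
    (fun α => hU y L α w4 w3 L8 L7) S 1 (fun _ => 1) H b le_rfl L6
  set D : ℕ → ℝ := fun h => ∑ x ∈ S, (ArithmeticFunction.vonMangoldt (x + h) - lsh y (x + h))
    with hD
  have mem : ∀ h ∈ Ioc b (b + H), ∀ x ∈ S, x + h ∈ Ioc 0 (2 * X) := fun h hh x hx => by
    have := mem_Ioc.1 (hS hx)
    rw [mem_Ioc] at hh ⊢; omega
  set I2 := {t ∈ Ioc 0 (H / W) | h0 + W * t ∈ Ioc b (b + H) ∧ D (h0 + W * t) < -(#S / 4)} with hI2
  have c2 : (#I2 : ℝ) * (#S / 4) ^ 2 ≤ ∑ h ∈ Ioc (b : ℤ) (b + H), ‖∑ n ∈ S, (1 : ℂ) *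
      CTel.tr (fun n => vM n - LW y n) 0 (2 * X) ((1 : ℕ) * n + h)‖ ^ 2 := by
    rw [← nsmul_eq_mul]
    refine le_trans (card_nsmul_le_sum _ _ _ fun t ht => ?_) (CTel.sum_inj I2 _
      (fun t => ((h0 + W * t : ℕ) : ℤ)) (fun h : ℤ => ‖∑ n ∈ S, (1 : ℂ) *
        CTel.tr (fun n => vM n - LW y n) 0 (2 * X) ((1 : ℕ) * n + h)‖ ^ 2) (fun _ => by positivity)
      (fun u _ v _ h => Nat.eq_of_mul_eq_mul_left (primorial_pos w)
        (Nat.add_left_cancel (Nat.cast_injective h))) fun t ht => ?_)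
    · obtain ⟨a1, a2⟩ := (mem_filter.1 ht).2
      have a3 : ∑ n ∈ S, (1 : ℂ) * CTel.tr (fun n => vM n - LW y n) 0 (2 * X)
          ((1 : ℕ) * n + ((h0 + W * t : ℕ) : ℤ)) = (D (h0 + W * t) : ℝ) := by
        rw [hD, Complex.ofReal_sum]
        refine sum_congr rfl fun x hx => ?_
        have := mem_Ioc.1 (mem _ a1 x hx)
        rw [one_mul, CTel.tr_nat _ (n := x + (h0 + W * t)) (by push_cast; ring) this.1 this.2,
          LW_eq, vM, Complex.ofReal_sub]
      rw [a3, Complex.norm_real, Real.norm_eq_abs, sq_abs, ← neg_sq (D _)]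
      gcongr
      linarith
    · have := mem_Ioc.1 (mem_filter.1 ht).2.1
      rw [mem_Ioc]; omega
  have c3 : (#I2 : ℝ) ≤ η / 3 * H / W := by
    simp only [norm_one, one_pow, sum_const, nsmul_eq_mul, mul_one] at c1
    have a1 : (L : ℝ) ^ 2 * ((2 * X : ℕ) : ℝ) / l8 ^ (C + 3) + 2 * (3 * l) ^ 2 * L ^ 3 ≤
        L ^ 2 * (3 * (#S / l ^ 3)) := by
      have b0 : X / l ^ (C + 3) ≤ #S / l ^ 3 := by rw [pow_add, ← div_div]; gcongr
      have b1 : ((2 * X : ℕ) : ℝ) / l8 ^ (C + 3) ≤ 2 * (X / l ^ (C + 3)) := by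
        push_cast
        rw [← mul_div_assoc]; gcongr
      have b2 : 18 * l ^ 2 * L ≤ X / l ^ (C + 3) := by
        rw [le_div_iff₀ (by positivity)]
        calc _ = 18 * (L * l ^ (C + 5)) := by ring
          _ ≤ 18 * (L * l ^ (C + 6)) := by gcongr; exacts [by linarith, by omega]
          _ ≤ _ := by nlinarith only [L9, sX, sX2]
      calc _ = (L : ℝ) ^ 2 * (((2 * X : ℕ) : ℝ) / l8 ^ (C + 3) + 18 * l ^ 2 * L) := by ring
        _ ≤ _ := by gcongr; linarith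
    have a2 : (L : ℝ) ^ 2 * (#I2 * (#S / 4) ^ 2) ≤ 3 * H * (#S * (L ^ 2 * (3 * (#S / l ^ 3)))) :=
      (mul_le_mul_of_nonneg_left c2 (sq_nonneg _)).trans (c1.trans (by gcongr))
    have a3 : (#I2 : ℝ) ≤ 144 * H / l ^ 3 := by
      refine le_of_mul_le_mul_right (le_trans (le_of_eq ?_) (a2.trans (le_of_eq ?_)))
        (show 0 < (L : ℝ) ^ 2 * (#S / 4) ^ 2 by positivity) <;> ring
    refine a3.trans ?_
    rw [div_le_iff₀ hη] at l3
    rw [div_le_div_iff₀ (by positivity) W0]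
    calc 144 * (H : ℝ) * W ≤ (l * η / 3) * H * (l * l) := by
          gcongr
          · linarith
          · nlinarith only [hW, l2]
      _ = _ := by ring
  have c4 := hM w y hw (by exact_mod_cast hW.trans w5) w5 w2 S hS hC h0 hc (H / W)
  have c5 : 12 * Real.exp (3 * √l) ≤ η / 3 * H / W := by
    rw [div_le_iff₀ hη] at l3
    rw [le_div_iff₀ W0]
    calc _ ≤ (l * η / 3) * Real.exp (3 * √l) * l := by gcongr; linarith
      _ = η / 3 * (l ^ 2 * Real.exp (3 * √l)) := by ring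
      _ ≤ _ := by gcongr; exact l4.trans hH
  have c6 : η / 3 * ((H / W : ℕ) : ℝ) ≤ η / 3 * H / W := by
    rw [mul_div_assoc]; gcongr; exact Nat.cast_div_le
  have c7 : {t ∈ Ioc 0 (H / W) | h0 + W * t ∈ Ioc b (b + H) ∧
      (#{x ∈ S | (x + (h0 + W * t)).Prime} : ℝ) < X / l ^ (C + 2)} ⊆
      {t ∈ Ioc 0 (H / W) | ∑ x ∈ S, lsh y (W * t + (x + h0)) < #S / 2} ∪ I2 := by
    intro t ht
    obtain ⟨a1, a2, a3⟩ := mem_filter.1 ht
    by_contra a4
    rw [mem_union, not_or, mem_filter, hI2, mem_filter] at a4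
    have a5 := not_lt.1 fun h => a4.1 ⟨a1, h⟩
    have a6 := not_lt.1 fun h => a4.2 ⟨a1, a2, h⟩
    have a7 := lam_split S (by omega) (mem _ a2)
    simp only [hD, sum_sub_distrib, show ∀ x, x + (h0 + W * t) = W * t + (x + h0) from
      fun x => by ring] at a3 a6 a7
    have a8 : √((2 * X : ℕ) : ℝ) ≤ 2 * √X := Real.sqrt_le_iff.2 ⟨by positivity, by
      push_cast; nlinarith only [sX, X0]⟩
    have a9 : 2 * √((2 * X : ℕ) : ℝ) * l8 ≤ X / l ^ C / 8 := by
      rw [div_div, le_div_iff₀ (by positivity)]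
      calc _ ≤ 2 * (2 * √X) * (2 * l) * (l ^ C * 8) := by gcongr
        _ = √X * (64 * l * l ^ C) := by ring
        _ ≤ √X * (l * l * l ^ C) := by gcongr
        _ ≤ √X * √X := by gcongr; exact le_trans (le_of_eq (by ring)) sX1
        _ = _ := sX
    have a10 : X / l ^ (C + 2) * (2 * l) ≤ X / l ^ C / 16 := by
      rw [div_div, div_mul_eq_mul_div, div_le_div_iff₀ (by positivity) (by positivity)]
      calc _ = X * (l ^ C * l * 32) := by ring
        _ ≤ X * (l ^ C * l * l) := by gcongr; linarith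
        _ = _ := by ring
    have a11 := mul_le_mul a3.le e8 (by linarith) (by positivity)
    have a12 : 0 < X / l ^ C := by positivity
    linarith
  have c8 := (Nat.cast_le (α := ℝ)).2 ((card_le_card c7).trans (card_union_le _ _))
  push_cast at c8
  have c9 : η * H / W = 3 * (η / 3 * H / W) := by ring
  linarith

end Pool.Agent.Lib.MP_be93de_nt.Rk
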