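import Pool.Agent.Lib.MP_be93de_nt.Rk3
import Pool.Agent.Lib.MP_be93de_nt.Rk5
import Pool.Agent.Lib.MP_6a20cc_nt.Dh7

/-! Primes of rank divisible by `n` with a prime translate, for almost all even shifts. -/

namespace Pool.Agent.Lib.MP_be93de_nt.Rk

open Finset Filter Pool.Agent.Lib.SW Pool.Agent.Lib.MP_6a20cc_nt.Dh
open Pool.Agent.Lib.MP_28260b_nt (II JJ ev_log log_le_L)

theorem params (m k : ℕ) (hm : 2 ≤ m) (hk : Real.exp (4 * m + 33 / 100 - 1 / (4 * m)) ≤ k) :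
    ∃ (Nb : ℕ) (Fb : (Fin k → ℕ) → ℝ) (Fm : ℝ), 1 ≤ Nb ∧ (∀ j, 0 ≤ Fb j) ∧ (∀ j, Fb j ≤ Fm) ∧
      (∀ j, Fb j ≠ 0 → ∑ i, (j i + 1) ≤ Nb) ∧ m * (4 * Nb + 5) * II Nb Fb < ∑ i, JJ Nb Fb i := by
  have hk0 : (0 : ℝ) < k := (Real.exp_pos _).trans_le hk
  have hm' : (2 : ℝ) ≤ m := by exact_mod_cast hm
  obtain ⟨A, hA⟩ : ∃ A, A = Real.log k - 1 / 2 := ⟨_, rfl⟩
  have h1 : 4 * m - 17 / 100 - 1 / (4 * (m : ℝ)) ≤ A := by
    have := (Real.le_log_iff_exp_le hk0).2 hk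
    linarith
  have h2 : 1 / (4 * (m : ℝ)) ≤ 1 / 8 := one_div_le_one_div_of_le (by norm_num) (by linarith)
  have h3 : 7.705 ≤ A := by linarith
  have hA0 : 0 < A := by linarith
  have he : Real.log (1 / k) = -(A + 1 / 2) := by rw [one_div, Real.log_inv, hA]; ring
  have e3 : 1 / (k : ℝ) * A ^ 2 ≤ 0.01623 := by
    have := exp_bound h3
    rwa [← he, Real.exp_log (by positivity)] at this
  have e0 : (0 : ℝ) < 1 / k := by positivity
  have e2 : 1 / (k : ℝ) * A ≤ 0.00211 := by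
    by_contra h
    nlinarith [not_le.1 h]
  have e1 : 1 / (k : ℝ) ≤ 0.0002734 := by
    by_contra h
    nlinarith [not_le.1 h, mul_le_mul h3 h3 (by norm_num) hA0.le]
  obtain ⟨t, ht⟩ : ∃ t, t = 1 / (A * 0.13) := ⟨_, rfl⟩
  have hM : 4 * (m : ℝ) < A - (-0.1745 - 0.1209 * t) := by
    obtain ⟨w, hw⟩ : ∃ w, w = 1 / (4 * (m : ℝ)) := ⟨_, rfl⟩
    have hw1 : w * (4 * m) = 1 := by rw [hw]; field_simp
    have ht1 : t * A * 0.13 = 1 := by rw [ht]; field_simp
    have hw0 : 0 < w := by rw [hw]; positivity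
    rw [← hw] at h1 h2
    by_contra h
    have h4 : A ≤ 4 * m - 0.1745 := by
      have : 0 < t := by rw [ht]; positivity
      linarith [not_lt.1 h]
    have h5 : A * (A + 0.1745 - 4 * m) + 0.93 ≤ 0 := by nlinarith [not_lt.1 h]
    have h6 : 0 ≤ (A - (4 * m - 17 / 100 - w)) * (A + 0.0045 - w) :=
      mul_nonneg (by linarith) (by linarith)
    have h7 : 0.0045 * (4 * m) - 0.070765 + 0.1655 * w + w ^ 2 ≤ 0 := by nlinarith
    have h8 := mul_le_mul_of_nonneg_left h7 hw0.le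
    nlinarith [mul_nonneg hw0.le (sq_nonneg (w - 0.108)), sq_nonneg (w - 0.108)]
  have hc : ContinuousOn (fun t : ℝ => 1 / (t + 1 / 4)) (Set.Icc 0 A) :=
    continuousOn_const.div (by fun_prop) fun y hy => by linarith [hy.1]
  exact stein (k := k) (m := m) (by exact_mod_cast hk0) hA0 hM
    (h := fun t => 1 - 1 / (t + 1 / 4) / 8)
    (v := fun s => A * ((1.0716 + 0.0281 * t) - (0.1423 - 0.0264 * t) * s
      - (0.1429 + 0.0509 * t) * (1 / (s + 1 / 4))))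
    (continuousOn_const.sub (hc.div_const 8))
    (continuousOn_const.mul (ContinuousOn.sub (by fun_prop) (continuousOn_const.mul hc)))
    (fun x hx => by
      have : 1 / (x + 1 / 4) ≤ 4 := by
        rw [div_le_iff₀ (by linarith [hx.1])]; linarith [hx.1]
      linarith)
    (fun x hx => by
      rw [← sub_nonneg, slack_eq hA0 e0 hx.1]
      exact mul_nonneg hA0.le (Par.all ⟨h3, by rw [ht]; field_simp, e0, e1, e2, e3, he, hx.1, hx.2,
        rfl, rfl, rfl⟩))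

theorem rankA {n : ℕ} (hn : 1 ≤ n) : ∃ C : ℕ, ∀ Q : ℕ, ∃ (Bad : ℕ → Prop) (E w₀ : ℕ),
    (∀ u H : ℕ, ∀ s ⊆ Ioc u (u + H), (∀ h ∈ s, Bad h) → (#s : ℝ) ≤ H / (Q + 1) + E) ∧
    ∀ᶠ X : ℕ in atTop, ∀ w ≥ w₀, (primorial w : ℝ) ^ 4 ≤ Real.log X → ∀ h, Even h → ¬ Bad h →
      X / Real.log X ^ C ≤ #{x ∈ Ioc 0 X | x.Prime ∧ n ∣ Nat.count Nat.Prime x + 1 ∧
        (x + h).Coprime (primorial w)} := by
  obtain ⟨k, hk⟩ := exists_nat_ge (Real.exp (4 * (n + 1 : ℕ) + 33 / 100 - 1 / (4 * (n + 1 : ℕ))))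
  obtain ⟨Nb, Fb, Fm, s1, s2, s3, s4, s5⟩ := params (n + 1) k (by omega) hk
  obtain ⟨w1, C, s, hs, hz⟩ := clus (by exact_mod_cast (Real.exp_pos _).trans_le hk) s1 s2 s3 s4 s5
  obtain ⟨z0, hz⟩ := eventually_atTop.1 hz
  refine ⟨C + 2, fun Q => ?_⟩
  obtain ⟨Bad, E, D, b, hB, b1, b2, w2, hw2, hcrt⟩ := crt_class (k := k) (Q := Q)
  refine ⟨Bad, E, w1 + w2 + 2 * s + 1, hB, ?_⟩
  filter_upwards [ev_log (((z0 + 1) ^ s : ℕ) : ℝ) 1, ev_log 2 (C + 2),
    tendsto_L.eventually_ge_atTop (2 * 2 ^ s), eventually_gt_atTop 0]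
    with X x1 x2 x3 hX0 w hw hW h hh hb
  obtain ⟨a, a1, a2, a3⟩ := hcrt w (by omega) h hh hb
  set W := primorial w with hWd
  set L := Real.log X with hL
  have hwW : w ≤ W := le_primorial_self
  have W0 : 0 < W := primorial_pos w
  have W1 : (2 : ℝ) * s + 1 ≤ W := by exact_mod_cast (show 2 * s + 1 ≤ W by omega)
  have hs' : (1 : ℝ) ≤ s := by exact_mod_cast hs
  have W2 : (1 : ℝ) ≤ W := by linarith
  have W3 : (W : ℝ) ≤ L := (le_self_pow₀ W2 (by norm_num)).trans hW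
  set z := Nat.nthRoot s (X / W) with hzd
  have z1 : W * z ^ s ≤ X :=
    (Nat.mul_le_mul_left W (Nat.pow_nthRoot_le_iff.2 (Or.inl (by omega)))).trans
      (Nat.mul_div_le X W)
  have z2 : X < (z + 1) ^ s * W :=
    (Nat.div_lt_iff_lt_mul W0).1 (Nat.lt_pow_nthRoot_add_one (by omega) _)
  have z3 : z0 + 1 ≤ z := (Nat.le_nthRoot_iff (by omega)).2 ((Nat.le_div_iff_mul_le W0).2 (by
    have : (((z0 + 1) ^ s : ℕ) : ℝ) * W ≤ X := le_trans (by rw [pow_one]; gcongr) x1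
    exact_mod_cast this))
  have z4 : (1 : ℝ) ≤ z := by exact_mod_cast (show 1 ≤ z by omega)
  have z5 : (X : ℝ) ≤ 2 ^ s * z ^ s * W := by
    have : (X : ℝ) ≤ (z + 1) ^ s * W := by exact_mod_cast z2.le
    refine this.trans ?_
    rw [← mul_pow]; gcongr; linarith
  have z6 : (W : ℝ) ^ 3 ≤ Real.log z := by
    by_contra h1
    have c1 := Real.log_le_log (by exact_mod_cast hX0) z5
    rw [Real.log_mul (by positivity) (by positivity), Real.log_mul (by positivity) (by positivity),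
      Real.log_pow, Real.log_pow] at c1
    have c2 := Real.log_le_self (show (0 : ℝ) ≤ W by positivity)
    have c3 : Real.log 2 ≤ 1 := by linarith [Real.log_two_lt_d9]
    have c4 : (W : ℝ) ≤ W ^ 3 := le_self_pow₀ W2 (by norm_num)
    have c5 := mul_lt_mul_of_pos_left (not_le.1 h1) (show (0 : ℝ) < s by linarith)
    have c6 := mul_le_mul_of_nonneg_right W1 (show (0 : ℝ) ≤ W ^ 3 by positivity)
    have c7 : s * Real.log 2 ≤ s * W ^ 3 := by gcongr; linarith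
    nlinarith
  have z7 : 2 * W ≤ z := by
    have c1 := Real.log_le_self (show (0 : ℝ) ≤ z by positivity)
    have : 2 * (W : ℝ) ≤ z := by nlinarith [mul_le_mul W2 W2 zero_le_one (by linarith)]
    exact_mod_cast this
  have c1 := hz z (by omega) w (by omega) z6 (fun i => a + b i) (fun i => by have := b2 i; omega)
    (fun i => (a2 i).1) fun q _ hq i j h1 => b1 (Nat.ModEq.eq_of_lt_of_lt
      (Nat.ModEq.add_left_cancel' a h1) (by have := b2 i; omega) (by have := b2 j; omega))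
  have c2 := clus_rank (N := z ^ s) hn b1 b2 (by omega : D < w) (fun i => (a2 i).2) a3
  have c3 := le_trans (card_le_card (monotone_filter_right _ fun m _ (hm : n + 1 + 1 ≤ _) =>
    le_trans (by omega) hm)) c2
  have c4 := c3.trans (Nat.add_le_add_right (card_le_card (filter_subset_filter _
    (Ioc_subset_Ioc_right z1))) 2)
  have c5 := c1.trans ((Nat.cast_le (α := ℝ)).2 c4)
  push_cast at c5
  have L0 : 0 < L := by linarith
  have c6 : 2 * (X / L ^ (C + 2)) ≤ (z : ℝ) ^ s / Real.log z ^ C := by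
    have d1 : 0 < Real.log z := lt_of_lt_of_le (by positivity) z6
    have d2 : Real.log z ≤ L := log_le_L (le_trans (Nat.le_self_pow (by omega) z)
      ((Nat.le_mul_of_pos_left _ W0).trans z1))
    rw [← mul_div_assoc, div_le_div_iff₀ (by positivity) (by positivity)]
    calc _ ≤ 2 * (2 ^ s * z ^ s * W) * L ^ C := by gcongr
      _ = z ^ s * (L ^ C * (2 * 2 ^ s) * W) := by ring
      _ ≤ z ^ s * (L ^ C * L * L) := by gcongr
      _ = _ := by ring
  have c7 : 2 ≤ X / L ^ (C + 2) := by rwa [le_div_iff₀ (by positivity)]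
  linarith

theorem final (hU : ∀ θ : ℝ, 1 / 9 < θ → MP_68a45e_nt.Av.Unif θ) {n : ℕ} (hn : 1 ≤ n) :
    ∃ C : ℕ, ∀ θ : ℝ, 1 / 9 < θ → ∀ δ : ℝ, 0 < δ → ∀ᶠ X : ℕ in atTop, ∀ H b : ℕ,
      (X : ℝ) ^ θ ≤ H → b + H ≤ X → (#{h ∈ Ioc b (b + H) | Even h ∧
        (#{x ∈ Ioc 0 X | x.Prime ∧ n ∣ Nat.count Nat.Prime x + 1 ∧ (x + h).Prime} : ℝ) <
          X / Real.log X ^ C} : ℝ) ≤ δ * H := by
  classical
  obtain ⟨C, hA⟩ := rankA hn
  refine ⟨C + 2, fun θ hθ δ hδ => ?_⟩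
  obtain ⟨Q, hQ⟩ := exists_nat_ge (4 / δ)
  obtain ⟨Bad, E, w₀, hB, hA⟩ := hA Q
  filter_upwards [hA, classB hU C hθ (η := δ / 4) (by positivity),
    (Real.tendsto_log_atTop.comp tendsto_L).eventually_ge_atTop (8 * w₀ + 16),
    tendsto_L.eventually_ge_atTop (4 / δ), tendsto_L.eventually_ge_atTop E,
    MP_68a45e_nt.CMod.exp_sqrt_ev (show 0 < θ by linarith) 0 2, tendsto_L.eventually_gt_atTop 0]
    with X hA hC l1 l2 l3 l4 L0 H b hH hb
  simp only [Function.comp] at l1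
  set L := Real.log X with hL
  set w := ⌊Real.log L / 8⌋₊ with hw
  have w0 : (0 : ℝ) ≤ w₀ := by positivity
  have w1 : (w : ℝ) ≤ Real.log L / 8 := Nat.floor_le (by linarith)
  have w2 : Real.log L / 8 < w + 1 := Nat.lt_floor_add_one _
  have w3 : w₀ ≤ w := Nat.le_floor (by linarith)
  set W := primorial w with hW
  have W0 : 0 < W := primorial_pos w
  have W1 : (1 : ℝ) ≤ W := by exact_mod_cast W0
  have W4 : (W : ℝ) ^ 4 ≤ L := by
    have a1 : (W : ℝ) ≤ 4 ^ w := by exact_mod_cast primorial_le_four_pow w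
    have a2 : (4 : ℝ) ≤ Real.exp 2 := by
      have := Real.add_one_le_exp (1 : ℝ)
      rw [show (2 : ℝ) = 1 + 1 by norm_num, Real.exp_add]
      nlinarith
    calc _ ≤ (Real.exp 2 ^ w) ^ 4 := by gcongr; exact a1.trans (by gcongr)
      _ = Real.exp (8 * w) := by
          rw [← Real.exp_nat_mul, ← Real.exp_nat_mul]; congr 1; push_cast; ring
      _ ≤ Real.exp (Real.log L) := by gcongr; linarith
      _ = L := Real.exp_log L0
  have W2 : (W : ℝ) ≤ L := (le_self_pow₀ W1 (by norm_num)).trans W4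
  set S : ℕ → Finset ℕ := fun h => {x ∈ Ioc 0 X | x.Prime ∧ n ∣ Nat.count Nat.Prime x + 1 ∧
    (x + h).Coprime W} with hS
  set F : ℕ → Finset ℕ := fun c => {t ∈ Ioc 0 (H / W) | b + c + W * t ∈ Ioc b (b + H) ∧
    (#{x ∈ S (b + c) | (x + (b + c + W * t)).Prime} : ℝ) < X / L ^ (C + 2)} with hF
  have a1 : {h ∈ Ioc b (b + H) | Even h ∧
      (#{x ∈ Ioc 0 X | x.Prime ∧ n ∣ Nat.count Nat.Prime x + 1 ∧ (x + h).Prime} : ℝ) <
        X / L ^ (C + 2)} ⊆ ({h ∈ Ioc b (b + H) | Bad h} ∪ Ico b (b + W)) ∪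
      {c ∈ range W | X / L ^ C ≤ #(S (b + c))}.biUnion fun c =>
        (F c).image fun t => b + c + W * t := by
    intro h hh
    obtain ⟨h1, h2, h3⟩ := mem_filter.1 hh
    by_cases h4 : Bad h
    · exact mem_union_left _ (mem_union_left _ (mem_filter.2 ⟨h1, h4⟩))
    have h5 := mem_Ioc.1 h1
    by_cases h6 : h < b + W
    · exact mem_union_left _ (mem_union_right _ (mem_Ico.2 ⟨h5.1.le, h6⟩))
    have h7 : b + (h - b) % W + W * ((h - b) / W) = h := by
      have := Nat.mod_add_div (h - b) W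
      omega
    have h8 : S (b + (h - b) % W) = S h := by
      refine filter_congr fun x _ => ?_
      conv_rhs => rw [← h7, ← add_assoc, Nat.coprime_add_mul_left_left]
    refine mem_union_right _ (mem_biUnion.2 ⟨(h - b) % W, mem_filter.2
      ⟨mem_range.2 (Nat.mod_lt _ W0), h8 ▸ hA w w3 W4 h h2 h4⟩, mem_image.2 ⟨(h - b) / W,
        mem_filter.2 ⟨mem_Ioc.2 ⟨Nat.div_pos (by omega) W0, Nat.div_le_div_right (by omega)⟩,
          ?_⟩, h7⟩⟩)
    rw [h7]
    refine ⟨h1, lt_of_le_of_lt ?_ h3⟩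
    exact_mod_cast card_le_card fun x hx => by
      obtain ⟨b1, b2⟩ := mem_filter.1 hx
      obtain ⟨b3, b4, b5, -⟩ := mem_filter.1 b1
      exact mem_filter.2 ⟨b3, b4, b5, b2⟩
  have a2 := (Nat.cast_le (α := ℝ)).2 ((card_le_card a1).trans ((card_union_le _ _).trans
    (add_le_add (card_union_le _ _) card_biUnion_le)))
  push_cast at a2
  have a3 := hB b H {h ∈ Ioc b (b + H) | Bad h} (filter_subset _ _) fun h hh => (mem_filter.1 hh).2
  have a4 := sum_le_card_nsmul {c ∈ range W | X / L ^ C ≤ #(S (b + c))}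
    (fun c => (#((F c).image fun t => b + c + W * t) : ℝ)) (δ / 4 * H / W) fun c hc =>
      le_trans (by exact_mod_cast card_image_le) (hC w (by linarith) W2 H b hH hb (S (b + c))
        (filter_subset _ _) (mem_filter.1 hc).2 (b + c) fun x hx => (mem_filter.1 hx).2.2.2)
  have a5 : (#{c ∈ range W | X / L ^ C ≤ #(S (b + c))} : ℝ) * (δ / 4 * H / W) ≤ δ / 4 * H := by
    have : (#{c ∈ range W | X / L ^ C ≤ #(S (b + c))} : ℝ) ≤ W := by
      exact_mod_cast (card_filter_le _ _).trans (card_range W).le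
    calc _ ≤ W * (δ / 4 * H / W) := by gcongr
      _ = _ := by field_simp
  rw [nsmul_eq_mul] at a4
  rw [Nat.card_Ico, add_tsub_cancel_left] at a2
  rw [div_le_iff₀ hδ] at hQ l2
  have a6 : (H : ℝ) / (Q + 1) ≤ δ / 4 * H := by
    rw [div_le_iff₀ (by positivity)]
    nlinarith [mul_le_mul_of_nonneg_left hQ (Nat.cast_nonneg (α := ℝ) H),
      mul_nonneg hδ.le (Nat.cast_nonneg (α := ℝ) H)]
  have a7 : L ≤ δ / 4 * H := by
    rw [zero_mul, Real.exp_zero, mul_one] at l4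
    nlinarith [mul_le_mul_of_nonneg_left (l4.trans hH) hδ.le]
  linarith

lemma card_rank {n : ℕ} (hn : 1 ≤ n) (X h : ℕ) :
    #{x ∈ Ioc 0 X | x.Prime ∧ n ∣ Nat.count Nat.Prime x + 1 ∧ (x + h).Prime} ≤
      Set.ncard {k : ℕ | 1 ≤ k ∧ Nat.nth Nat.Prime (k * n - 1) ≤ X ∧
        (Nat.nth Nat.Prime (k * n - 1) + h).Prime} := by
  rw [← Set.ncard_coe_finset]
  have key : ∀ x, x.Prime → n ∣ Nat.count Nat.Prime x + 1 →
      Nat.nth Nat.Prime ((Nat.count Nat.Prime x + 1) / n * n - 1) = x := fun x h1 h2 => by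
    rw [Nat.div_mul_cancel h2, Nat.add_sub_cancel, Nat.nth_count h1]
  refine Set.ncard_le_ncard_of_injOn (fun x => (Nat.count Nat.Prime x + 1) / n) (fun x hx => ?_)
    (fun x hx y hy h => ?_) ((Set.finite_Iic X).subset fun k hk => ?_)
  · obtain ⟨h1, h2, h3, h4⟩ := mem_filter.1 hx
    simp only [Set.mem_ofPred_eq, key x h2 h3]
    exact ⟨Nat.div_pos (Nat.le_of_dvd (by omega) h3) hn, (mem_Ioc.1 h1).2, h4⟩
  · obtain ⟨-, h2, h3, -⟩ := mem_filter.1 hx
    obtain ⟨-, h4, h5, -⟩ := mem_filter.1 hy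
    rw [← key x h2 h3, ← key y h4 h5]
    exact congrArg (fun k => Nat.nth Nat.Prime (k * n - 1)) h
  · have h1 := Nat.add_two_le_nth_prime (k * n - 1)
    have h2 : k * 1 ≤ k * n := Nat.mul_le_mul_left k hn
    have h3 := hk.2.1
    rw [Set.mem_Iic]; omega

end Pool.Agent.Lib.MP_be93de_nt.Rk
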