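import Mathlib

/-! A Stein type lower bound for functions of a sum of independent indicators. -/

namespace Pool.Agent.Lib.MP_be93de_nt

open Finset

variable {ι : Type} [Fintype ι] [DecidableEq ι] {α : ι → Type} [∀ i, Fintype (α i)]
  [∀ i, DecidableEq (α i)] [∀ i, Nonempty (α i)]

omit [∀ i, DecidableEq (α i)] [∀ i, Nonempty (α i)] in
lemma sum_upd (i : ι) (φ : (∀ i, α i) → ℝ) :
    ∑ v : ∀ i, α i, ∑ t : α i, φ (Function.update v i t) = Fintype.card (α i) * ∑ v, φ v := by
  let σ : (∀ i, α i) × α i → (∀ i, α i) × α i := fun z => (Function.update z.1 i z.2, z.1 i)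
  have hσ : Function.Involutive σ := fun z => by simp [σ]
  have := Equiv.sum_comp hσ.toPerm (fun z => φ z.1)
  rw [Fintype.sum_prod_type, Fintype.sum_prod_type] at this
  simp only [Function.Involutive.coe_toPerm, σ, sum_const, card_univ, nsmul_eq_mul] at this
  rw [this, mul_sum]

/-- proportion -/
noncomputable def prp {β : Type} [Fintype β] (S : Finset β) : ℝ := #S / Fintype.card β

lemma prp_nonneg {β : Type} [Fintype β] (S : Finset β) : 0 ≤ prp S := by unfold prp; positivity

lemma sum_ind (i : ι) (S : Finset (α i)) (φ ψ : (∀ i, α i) → ℝ)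
    (hφ : ∀ v t, φ (Function.update v i t) = φ v) (hψ : ∀ v t, ψ (Function.update v i t) = ψ v) :
    ∑ v : ∀ i, α i, (if v i ∈ S then φ v else ψ v) = prp S * ∑ v, φ v + (1 - prp S) * ∑ v, ψ v := by
  have c0 : (0 : ℝ) < Fintype.card (α i) := by exact_mod_cast Fintype.card_pos
  have := sum_upd i (fun v => if v i ∈ S then φ v else ψ v)
  simp only [Function.update_self, hφ, hψ, sum_ite, sum_const, nsmul_eq_mul] at this
  have e1 : (#{t : α i | t ∈ S} : ℝ) = #S := by simp
  have e2 : (#{t : α i | t ∉ S} : ℝ) = Fintype.card (α i) - #S := by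
    rw [eq_sub_iff_add_eq, ← e1, add_comm]
    exact_mod_cast card_filter_add_card_filter_not (s := univ) (fun t : α i => t ∈ S)
  rw [e1, e2, sum_add_distrib, ← mul_sum, ← mul_sum] at this
  rw [sum_ite]
  apply mul_left_cancel₀ c0.ne'
  rw [← this, prp]
  field_simp

/-- number of hits -/
def nhit (S : ∀ i, Finset (α i)) (J : Finset ι) (v : ∀ i, α i) : ℕ := #{j ∈ J | v j ∈ S j}

omit [Fintype ι] [∀ i, Fintype (α i)] [∀ i, Nonempty (α i)] in
lemma nhit_upd (S : ∀ i, Finset (α i)) (J : Finset ι) {i : ι} (v : ∀ i, α i) (t : α i) :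
    nhit S (J.erase i) (Function.update v i t) = nhit S (J.erase i) v := by
  unfold nhit
  congr 1
  apply filter_congr
  intro j hj
  rw [Function.update_of_ne (ne_of_mem_erase hj)]

omit [∀ i, Fintype (α i)] [∀ i, Nonempty (α i)] in
lemma nhit_split (S : ∀ i, Finset (α i)) (i : ι) (v : ∀ i, α i) :
    nhit S univ v = if v i ∈ S i then nhit S (univ.erase i) v + 1 else nhit S (univ.erase i) v := by
  unfold nhit
  conv_lhs => rw [← insert_erase (mem_univ i), filter_insert]
  split_ifs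
  · rw [card_insert_of_notMem (by simp)]
  · rfl

lemma stein_id (S : ∀ i, Finset (α i)) (f : ℕ → ℝ) :
    ∑ v : ∀ i, α i, (nhit S univ v - ∑ i, prp (S i)) * f (nhit S univ v) =
      ∑ i, prp (S i) * (1 - prp (S i)) *
        ∑ v : ∀ i, α i, (f (nhit S (univ.erase i) v + 1) - f (nhit S (univ.erase i) v)) := by
  have e : ∀ v : ∀ i, α i, (nhit S univ v - ∑ i, prp (S i)) * f (nhit S univ v) =
      ∑ i, if v i ∈ S i then (1 - prp (S i)) * f (nhit S (univ.erase i) v + 1)
        else -prp (S i) * f (nhit S (univ.erase i) v) := by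
    intro v
    have : (nhit S univ v : ℝ) = ∑ i, if v i ∈ S i then 1 else 0 := by simp [nhit]
    rw [this, ← sum_sub_distrib, sum_mul]
    apply sum_congr rfl
    intro i _
    rw [nhit_split S i v]
    split_ifs <;> simp
  rw [sum_congr rfl fun v _ => e v, sum_comm]
  apply sum_congr rfl
  intro i _
  rw [sum_ind i (S i) _ _ (fun v t => by rw [nhit_upd]) (fun v t => by rw [nhit_upd]),
    ← mul_sum, ← mul_sum, sum_sub_distrib]
  ring

lemma sum_nhit (S : ∀ i, Finset (α i)) :
    ∑ v : ∀ i, α i, (nhit S univ v : ℝ) = Fintype.card (∀ i, α i) * ∑ i, prp (S i) := by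
  have : ∀ v : ∀ i, α i, (nhit S univ v : ℝ) = ∑ i, if v i ∈ S i then 1 else 0 := by simp [nhit]
  rw [sum_congr rfl fun v _ => this v, sum_comm, mul_sum]
  apply sum_congr rfl
  intro i _
  rw [sum_ind i (S i) _ _ (fun _ _ => rfl) (fun _ _ => rfl)]
  simp [mul_comm]

theorem stein (S : ∀ i, Finset (α i)) (g : ℕ → ℝ) (hg : ∀ j, 0 ≤ g j) (κ F s π₀ : ℝ)
    (hF : ∀ i j, ∑ l ∈ Ico i j, (κ - g l) ≤ F) (hπ : ∀ i, prp (S i) ≤ π₀) (hπ1 : π₀ ≤ 1 / 2)
    (hs : 0 < s) (hs2 : 2 * s ^ 2 ≤ ∑ i, prp (S i)) :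
    Fintype.card (∀ i, α i) * ((1 - π₀) * (κ - F / s)) ≤ ∑ v : ∀ i, α i, g (nhit S univ v) := by
  let f : ℕ → ℝ := fun j => (range (j + 1)).sup' nonempty_range_add_one
    fun i => ∑ l ∈ Ico i j, (κ - g l)
  have f0 : ∀ j, 0 ≤ f j := fun j =>
    le_sup'_of_le _ (self_mem_range_succ j) (by simp)
  have f1 : ∀ j, f j ≤ F := fun j => sup'_le _ _ fun i _ => hF i j
  have f2 : ∀ j, κ - g j ≤ f (j + 1) - f j := by
    intro j
    rw [le_sub_comm]
    apply sup'_le
    intro i hi
    have hi' : i ≤ j := Nat.lt_succ_iff.1 (mem_range.1 hi)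
    rw [le_sub_iff_add_le, ← sum_Ico_succ_top hi' (fun l => κ - g l)]
    exact le_sup' (fun i => ∑ l ∈ Ico i (j + 1), (κ - g l)) (mem_range.2 (by omega))
  have F0 : 0 ≤ F := (f0 0).trans (f1 0)
  set c : ℝ := (Fintype.card (∀ i, α i) : ℝ) with hc
  have c0 : 0 < c := by rw [hc]; exact_mod_cast Fintype.card_pos
  set μ := ∑ i, prp (S i) with hμ
  set V := ∑ i, prp (S i) * (1 - prp (S i)) with hV
  have p0 := fun i => prp_nonneg (S i)
  have p1 : ∀ i, 0 ≤ prp (S i) * (1 - prp (S i)) := fun i =>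
    mul_nonneg (p0 i) (by linarith [hπ i])
  have V1 : s ^ 2 ≤ V := by
    have : μ / 2 ≤ V := by
      rw [hμ, sum_div]
      exact sum_le_sum fun i _ => by nlinarith [p0 i, hπ i]
    linarith
  have V0 : 0 < V := lt_of_lt_of_le (by positivity) V1
  set r := √V with hr
  have r1 : s ≤ r := Real.le_sqrt_of_sq_le V1
  have r0 : 0 < r := hs.trans_le r1
  have r2 : r ^ 2 = V := Real.sq_sqrt V0.le
  have var : ∑ v : ∀ i, α i, (nhit S univ v - μ) ^ 2 = c * V := by
    have := stein_id S (fun j => j - μ)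
    simp only [← pow_two, Nat.cast_add, Nat.cast_one, sub_sub_sub_cancel_right, add_sub_cancel_left,
      sum_const, card_univ, nsmul_eq_mul, mul_one, ← hμ, ← hc, ← sum_mul, ← hV] at this
    rw [this, mul_comm]
  have up : ∑ v : ∀ i, α i, (nhit S univ v - μ) * f (nhit S univ v) ≤ F * (c * r) := by
    have : ∀ v : ∀ i, α i, (nhit S univ v - μ) * f (nhit S univ v) ≤
        F / (2 * r) * ((nhit S univ v - μ) ^ 2 + V) := by
      intro v
      have a1 : (nhit S univ v - μ) * f (nhit S univ v) ≤ |nhit S univ v - μ| * F :=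
        (mul_le_mul_of_nonneg_right (le_abs_self _) (f0 _)).trans
          (mul_le_mul_of_nonneg_left (f1 _) (abs_nonneg _))
      refine a1.trans ?_
      rw [← sq_abs, ← r2, div_mul_eq_mul_div, le_div_iff₀ (by positivity)]
      nlinarith [mul_nonneg F0 (sq_nonneg (|nhit S univ v - μ| - r))]
    refine (sum_le_sum fun v _ => this v).trans (le_of_eq ?_)
    rw [← mul_sum, sum_add_distrib, var, sum_const, card_univ, nsmul_eq_mul, ← hc, ← r2]
    field_simp; ring
  set G := ∑ v : ∀ i, α i, g (nhit S univ v) with hG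
  have lo : ∀ i, (1 - π₀) * ∑ v : ∀ i, α i, g (nhit S (univ.erase i) v) ≤ G := by
    intro i
    have e : G = ∑ v : ∀ i, α i, if v i ∈ S i then g (nhit S (univ.erase i) v + 1)
        else g (nhit S (univ.erase i) v) := by
      apply sum_congr rfl
      intro v _
      rw [nhit_split S i v]
      split_ifs <;> rfl
    rw [e, sum_ind i (S i) _ _ (fun v t => by rw [nhit_upd]) (fun v t => by rw [nhit_upd])]
    have a1 : 0 ≤ ∑ v : ∀ i, α i, g (nhit S (univ.erase i) v + 1) := sum_nonneg fun _ _ => hg _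
    have a2 : 0 ≤ ∑ v : ∀ i, α i, g (nhit S (univ.erase i) v) := sum_nonneg fun _ _ => hg _
    nlinarith [mul_nonneg (p0 i) a1, hπ i]
  have main : (1 - π₀) * (c * κ * V) - G * V ≤ (1 - π₀) * (F * (c * r)) := by
    refine le_trans ?_ (mul_le_mul_of_nonneg_left up (by linarith))
    rw [stein_id, hV, mul_sum, mul_sum, mul_sum, mul_sum, ← sum_sub_distrib]
    apply sum_le_sum
    intro i _
    have a1 : c * κ - ∑ v : ∀ i, α i, g (nhit S (univ.erase i) v) ≤
        ∑ v : ∀ i, α i, (f (nhit S (univ.erase i) v + 1) - f (nhit S (univ.erase i) v)) := by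
      refine le_trans (le_of_eq ?_) (sum_le_sum fun v _ => f2 _)
      rw [sum_sub_distrib, sum_const, card_univ, nsmul_eq_mul]
    have a2 := mul_le_mul_of_nonneg_left a1 (mul_nonneg (p1 i) (by linarith : 0 ≤ 1 - π₀))
    have a3 := mul_le_mul_of_nonneg_left (lo i) (p1 i)
    nlinarith
  have e2 : F * (c * r) ≤ c * (F / s) * V := by
    rw [← r2]
    have : F / r ≤ F / s := by gcongr
    calc F * (c * r) = c * (F / r) * r ^ 2 := by field_simp
      _ ≤ _ := by gcongr
  have e3 := mul_le_mul_of_nonneg_left e2 (by linarith : 0 ≤ 1 - π₀)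
  apply le_of_mul_le_mul_right _ V0
  nlinarith

/-- one prescribed set -/
lemma sum_one (i : ι) (A : Finset (α i)) :
    ∑ v : ∀ i, α i, (if v i ∈ A then (1 : ℝ) else 0) = Fintype.card (∀ i, α i) * prp A := by
  rw [sum_ind i A _ _ (fun _ _ => rfl) (fun _ _ => rfl)]
  simp [mul_comm]

/-- two prescribed sets -/
lemma sum_two {i j : ι} (h : i ≠ j) (A : Finset (α i)) (B : Finset (α j)) :
    ∑ v : ∀ i, α i, (if v i ∈ A then (if v j ∈ B then (1 : ℝ) else 0) else 0) =
      Fintype.card (∀ i, α i) * (prp A * prp B) := by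
  rw [sum_ind i A _ _ (fun v t => by rw [Function.update_of_ne h.symm]) (fun _ _ => rfl), sum_one]
  simp only [sum_const_zero, mul_zero, add_zero]
  ring

end Pool.Agent.Lib.MP_be93de_nt
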