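import Mathlib
import Pool.Agent.Lib.MP_be93de_nt.RsStein

/-! The abstract resampling estimate. -/

namespace Pool.Agent.Lib.MP_be93de_nt

open Finset

lemma divt (c : ℕ → ℕ) (hc : ∀ n, c (n + 1) ≤ c n + 1) {a b l : ℕ} (hab : a ≤ b) (h1 : c a ≤ l) :
    l ≤ c b → ∃ e, a ≤ e ∧ e ≤ b ∧ c e = l := by
  induction b, hab using Nat.le_induction with
  | base => exact fun h => ⟨a, le_rfl, le_rfl, le_antisymm h1 h⟩
  | succ b hab ih =>
    intro h
    by_cases h' : l ≤ c b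
    · obtain ⟨e, h2, h3, h4⟩ := ih h'
      exact ⟨e, h2, by omega, h4⟩
    · exact ⟨b + 1, by omega, le_rfl, by have := hc b; omega⟩

lemma cIoc_add (P : ℕ → Prop) [DecidablePred P] {a b c : ℕ} (h1 : a ≤ b) (h2 : b ≤ c) :
    #{n ∈ Ioc a c | P n} = #{n ∈ Ioc a b | P n} + #{n ∈ Ioc b c | P n} := by
  rw [← card_union_of_disjoint, ← filter_union, Ioc_union_Ioc_eq_Ioc h1 h2]
  apply disjoint_filter_filter
  rw [disjoint_left]
  intro n h3 h4
  simp only [mem_Ioc] at h3 h4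
  omega

lemma cIoc_mono (P : ℕ → Prop) [DecidablePred P] (a : ℕ) {b c : ℕ} (h2 : b ≤ c) :
    #{n ∈ Ioc a b | P n} ≤ #{n ∈ Ioc a c | P n} :=
  card_le_card (filter_subset_filter _ (Ioc_subset_Ioc_right h2))

lemma cIoc_le (P : ℕ → Prop) [DecidablePred P] (a b : ℕ) : #{n ∈ Ioc a b | P n} ≤ b - a :=
  (card_filter_le _ _).trans (by simp)

lemma cIoc_succ (P : ℕ → Prop) [DecidablePred P] (a b : ℕ) :
    #{n ∈ Ioc a (b + 1) | P n} ≤ #{n ∈ Ioc a b | P n} + 1 := by
  by_cases h : a ≤ b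
  · rw [cIoc_add P h (Nat.le_add_right b 1)]
    have := cIoc_le P b (b + 1)
    omega
  · have := cIoc_le P a (b + 1)
    omega

lemma cIoc_lt (P : ℕ → Prop) [DecidablePred P] {a b c : ℕ} (h1 : a ≤ b) (h2 : b < c) (h : P c) :
    #{n ∈ Ioc a b | P n} < #{n ∈ Ioc a c | P n} := by
  rw [cIoc_add P h1 h2.le, lt_add_iff_pos_right, card_pos]
  exact ⟨c, by simp [h2, h]⟩

lemma many (P : ℕ → Prop) [DecidablePred P] (x h I : ℕ)
    (H : ∀ e, x ≤ e → e + h ≤ x + I * h → 0 < #{n ∈ Ioc e (e + h) | P n}) :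
    I ≤ #{n ∈ Ioc x (x + I * h) | P n} := by
  induction I with
  | zero => simp
  | succ I ih =>
    have e : x + (I + 1) * h = x + I * h + h := by ring
    rw [e] at H ⊢
    rw [cIoc_add P (Nat.le_add_right x (I * h)) (Nat.le_add_right _ h)]
    have := ih fun e h1 h2 => H e h1 (by omega)
    have := H (x + I * h) (by omega) le_rfl
    omega

lemma lindley (Sv : ℕ → Prop) [DecidablePred Sv] (x h I : ℕ) (a b : ℝ) (hb : 0 < b)
    (H1 : ∀ e, x ≤ e → e ≤ x + I * h → (#{n ∈ Ioc e (e + h) | Sv n} : ℝ) ≤ a)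
    (H2 : ∀ e, x ≤ e → e ≤ x + I * h → b ≤ #{n ∈ Ioc e (e + h) | Sv n ∧ Sv (n + 2)})
    (g : ℕ → ℝ) (hg : ∀ l, 0 ≤ g l) (hg1 : ∀ l, I < l → g l = 1)
    (hg2 : ∀ t ∈ Ioc x (x + I * h), Sv t → Sv (t + 2) → g #{n ∈ Ioc x t | Sv n} = 1) (i j : ℕ) :
    ∑ l ∈ Ico i j, (b / a - g l) ≤ b + 1 := by
  have sub : ∀ e e', #{n ∈ Ioc e e' | Sv n ∧ Sv (n + 2)} ≤ #{n ∈ Ioc e e' | Sv n} := fun e e' =>
    card_le_card (monotone_filter_right _ fun _ _ h => h.1)
  have hba : b ≤ a := (H2 x le_rfl (by omega)).trans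
    (le_trans (by exact_mod_cast sub _ _) (H1 x le_rfl (by omega)))
  have ha : 0 < a := hb.trans_le hba
  have h0 : 0 < h := by
    have := hb.trans_le (H2 x le_rfl (by omega))
    have h1 := cIoc_le (fun n => Sv n ∧ Sv (n + 2)) x (x + h)
    have : 0 < #{n ∈ Ioc x (x + h) | Sv n ∧ Sv (n + 2)} := by exact_mod_cast this
    omega
  have κ1 : b / a ≤ 1 := (div_le_one ha).2 hba
  have κ0 : 0 < b / a := by positivity
  have κa : b / a * a = b := by field_simp
  have A : ∀ d e e', e' - e = d → x ≤ e → e ≤ e' → e' ≤ x + I * h →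
      b / a * #{n ∈ Ioc e e' | Sv n} ≤ #{n ∈ Ioc e e' | Sv n ∧ Sv (n + 2)} + b := by
    intro d
    induction d using Nat.strong_induction_on with
    | _ d ih =>
    intro e e' hd h1 h2 h3
    have a1 := mul_le_mul_of_nonneg_left (H1 e h1 (h2.trans h3)) κ0.le
    by_cases h4 : e' ≤ e + h
    · have a2 : (#{n ∈ Ioc e e' | Sv n} : ℝ) ≤ #{n ∈ Ioc e (e + h) | Sv n} := by
        exact_mod_cast cIoc_mono Sv e h4
      have a3 := mul_le_mul_of_nonneg_left a2 κ0.le
      have a4 : (0 : ℝ) ≤ #{n ∈ Ioc e e' | Sv n ∧ Sv (n + 2)} := Nat.cast_nonneg _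
      linarith
    · have a2 := ih (e' - (e + h)) (by omega) (e + h) e' rfl (by omega) (by omega) h3
      rw [cIoc_add Sv (Nat.le_add_right e h) (not_le.1 h4).le,
        cIoc_add _ (Nat.le_add_right e h) (not_le.1 h4).le]
      have a3 := H2 e h1 (h2.trans h3)
      push_cast
      linarith
  have B : I ≤ #{n ∈ Ioc x (x + I * h) | Sv n} := many Sv x h I fun e h1 h2 => by
    have := hb.trans_le (H2 e h1 (by omega))
    exact lt_of_lt_of_le (by exact_mod_cast this) (sub _ _)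
  have C : ∀ i' j', j' ≤ I → ∑ l ∈ Ioc i' j', (b / a - g l) ≤ b := by
    intro i' j' hj
    rcases lt_or_ge j' i' with hij | hij
    · rw [Ioc_eq_empty (by omega)]; simpa using hb.le
    obtain ⟨e', a1, a2, a3⟩ := divt (fun e => #{n ∈ Ioc x e | Sv n}) (cIoc_succ Sv x)
      (Nat.le_add_right x (I * h)) (l := j') (by simp) (hj.trans B)
    obtain ⟨e, b1, b2, b3⟩ := divt (fun e => #{n ∈ Ioc x e | Sv n}) (cIoc_succ Sv x)
      a1 (l := i') (by simp) (hij.trans a3.ge)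
    have c1 := A _ e e' rfl b1 b2 a2
    have c2 := cIoc_add Sv b1 b2
    have c3 : (#{n ∈ Ioc e e' | Sv n ∧ Sv (n + 2)} : ℝ) ≤ ∑ l ∈ Ioc i' j', g l := by
      set T := {n ∈ Ioc e e' | Sv n ∧ Sv (n + 2)} with hT
      have d1 : Set.InjOn (fun t => #{n ∈ Ioc x t | Sv n}) T := by
        apply StrictMonoOn.injOn
        intro t ht t' ht' htt
        simp only [hT, coe_filter, mem_Ioc, Set.mem_ofPred_eq] at ht ht'
        exact cIoc_lt Sv (by omega) htt ht'.2.1
      calc (#T : ℝ) = ∑ t ∈ T, g #{n ∈ Ioc x t | Sv n} := by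
            rw [card_eq_sum_ones, Nat.cast_sum]
            apply sum_congr rfl
            intro t ht
            simp only [hT, mem_filter, mem_Ioc] at ht
            rw [hg2 t (mem_Ioc.2 (by omega)) ht.2.1 ht.2.2, Nat.cast_one]
        _ = ∑ l ∈ T.image (fun t => #{n ∈ Ioc x t | Sv n}), g l := (sum_image d1).symm
        _ ≤ _ := by
            apply sum_le_sum_of_subset_of_nonneg _ fun l _ _ => hg l
            intro l hl
            obtain ⟨t, ht, rfl⟩ := mem_image.1 hl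
            simp only [hT, mem_filter, mem_Ioc] at ht
            have := cIoc_lt Sv b1 ht.1.1 ht.2.1
            have := cIoc_mono Sv x ht.1.2
            exact mem_Ioc.2 (by omega)
    rw [sum_sub_distrib, sum_const, Nat.card_Ioc, nsmul_eq_mul,
      show j' - i' = #{n ∈ Ioc e e' | Sv n} by omega]
    linarith
  have D := C (i - 1) (min (j - 1) I) (min_le_right _ _)
  have E : ∑ l ∈ Ico i j, (b / a - g l) ≤ ∑ l ∈ Ico i j,
      ((if l ∈ Ioc (i - 1) (min (j - 1) I) then b / a - g l else 0) + if l = 0 then 1 else 0) := by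
    apply sum_le_sum
    intro l hl
    rw [mem_Ico] at hl
    have := hg l
    split_ifs with h1 h2 h2
    · linarith
    · linarith
    · linarith
    · rw [mem_Ioc] at h1
      rw [hg1 l (by omega)]
      linarith
  rw [sum_add_distrib, sum_ite_mem, inter_eq_right.2 (fun l hl => by
    rw [mem_Ioc] at hl; exact mem_Ico.2 (by omega)), sum_ite_eq'] at E
  split_ifs at E <;> linarith

open Classical in
theorem core_abs {ι : Type} [Fintype ι] [DecidableEq ι] (p : ι → ℕ) [∀ i, NeZero (p i)]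
    (Sv : ℕ → Prop) (act : ι → ℕ → Prop) (y x D h I : ℕ) (a b s π₀ lam : ℝ) (hb : 0 < b)
    (hyx : y ≤ x) (hI : 0 < I) (hD : #{n ∈ Ioc y x | Sv n} = D) (hp : ∀ i, x ≤ y + p i)
    (H1 : ∀ e, x ≤ e → e ≤ x + I * h → (#{n ∈ Ioc e (e + h) | Sv n} : ℝ) ≤ a)
    (H2 : ∀ e, x ≤ e → e ≤ x + I * h → b ≤ #{n ∈ Ioc e (e + h) | Sv n ∧ Sv (n + 2)})
    (hπ : ∀ i, D ≤ π₀ * p i) (hπ1 : π₀ ≤ 1 / 2) (hl : ∑ i, 1 / (p i : ℝ) ≤ lam) (hs : 0 < s)
    (hs2 : 2 * s ^ 2 ≤ ∑ i, (#{n ∈ Ioc y x | Sv n ∧ act i n} : ℝ) / p i) :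
    Fintype.card (∀ i, ZMod (p i)) * ((1 - π₀) * (b / a - (b + 1) / s) -
      (D * lam / I + D * lam ^ 2 + (I * h + 2) * lam)) ≤
    #{v : ∀ i, ZMod (p i) | ∃ t, y < t ∧ t ≤ x + I * h ∧
      (Sv t ∧ ∀ i, act i t → (t : ZMod (p i)) ≠ v i) ∧
      (Sv (t + 2) ∧ ∀ i, act i (t + 2) → ((t + 2 : ℕ) : ZMod (p i)) ≠ v i) ∧
      #{n ∈ Ioc y t | Sv n ∧ ∀ i, act i n → (n : ZMod (p i)) ≠ v i} = D} := by
  set S : ∀ i, Finset (ZMod (p i)) := fun i =>
    ({n ∈ Ioc y x | Sv n ∧ act i n} : Finset ℕ).image (fun n : ℕ => (n : ZMod (p i))) with hS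
  have p0 : ∀ i, (0 : ℝ) < p i := fun i => by exact_mod_cast Nat.pos_of_ne_zero (NeZero.ne _)
  have inj : ∀ i, ∀ n ∈ Ioc y x, ∀ n' ∈ Ioc y x, (n : ZMod (p i)) = n' → n = n' := by
    intro i n hn n' hn' h
    rw [mem_Ioc] at hn hn'
    have := hp i
    exact ((ZMod.natCast_eq_natCast_iff _ _ _).1 h).eq_of_abs_lt (abs_lt.2 (by omega))
  have e1 : ∀ i, prp (S i) = (#{n ∈ Ioc y x | Sv n ∧ act i n} : ℝ) / p i := by
    intro i
    rw [prp, ZMod.card, card_image_of_injOn]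
    exact fun n hn n' hn' h => inj i n (mem_filter.1 hn).1 n' (mem_filter.1 hn').1 h
  have e2 : ∀ i, prp (S i) ≤ D * (1 / p i) := by
    intro i
    rw [e1, mul_one_div, ← hD]
    gcongr
    exact And.left
  have e3 : ∀ (i) (n : ℕ), prp ({(n : ZMod (p i))} : Finset (ZMod (p i))) = 1 / p i := by
    intro i n; simp [prp]
  set g : ℕ → ℝ := fun l => if I < l ∨ ∃ t ∈ Ioc x (x + I * h), Sv t ∧ Sv (t + 2) ∧
    #{n ∈ Ioc x t | Sv n} = l then 1 else 0 with hg
  have g0 : ∀ l, 0 ≤ g l := fun l => by simp only [hg]; split_ifs <;> norm_num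
  have st := stein S g g0 (b / a) (b + 1) s π₀
    (lindley Sv x h I a b hb H1 H2 g g0 (fun l hl => if_pos (Or.inl hl))
      fun t ht h1 h2 => if_pos (Or.inr ⟨t, ht, h1, h2, rfl⟩))
    (fun i => (e2 i).trans (by rw [mul_one_div, div_le_iff₀ (p0 i)]; exact hπ i)) hπ1 hs
    (by simpa only [e1] using hs2)
  set c : ℝ := (Fintype.card (∀ i, ZMod (p i)) : ℝ) with hc
  have c0 : 0 ≤ c := Nat.cast_nonneg _
  have l0 : 0 ≤ ∑ i, 1 / (p i : ℝ) := sum_nonneg fun _ _ => by positivity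
  have I0 : (0 : ℝ) < I := by exact_mod_cast hI
  set E1 : (∀ i, ZMod (p i)) → ℝ := fun v => ∑ n ∈ Ioc y x with Sv n, ∑ i, ∑ j ∈ univ.erase i,
    if v i ∈ ({(n : ZMod (p i))} : Finset _) then
      (if v j ∈ ({(n : ZMod (p j))} : Finset _) then (1 : ℝ) else 0) else 0 with hE1
  set E2 : (∀ i, ZMod (p i)) → ℝ := fun v => ∑ n ∈ Ioc x (x + (I * h + 2)), ∑ i,
    if v i ∈ ({(n : ZMod (p i))} : Finset _) then (1 : ℝ) else 0 with hE2
  have s0 : ∑ v : ∀ i, ZMod (p i), (nhit S univ v : ℝ) / I ≤ c * (D * lam / I) := by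
    rw [← sum_div, sum_nhit, ← mul_div_assoc]
    gcongr
    refine (sum_le_sum fun i _ => e2 i).trans ?_
    rw [← mul_sum]
    gcongr
  have s1 : ∑ v, E1 v ≤ c * (D * lam ^ 2) := by
    simp only [hE1]
    rw [sum_comm, mul_left_comm, ← hD, ← nsmul_eq_mul, ← sum_const]
    apply sum_le_sum
    intro n _
    calc _ = ∑ i, ∑ j ∈ univ.erase i, c * (1 / (p i : ℝ) * (1 / p j)) := by
          rw [sum_comm]
          apply sum_congr rfl
          intro i _
          rw [sum_comm]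
          apply sum_congr rfl
          intro j hj
          rw [sum_two (ne_of_mem_erase hj).symm, e3, e3]
      _ ≤ ∑ i, ∑ j, c * (1 / (p i : ℝ) * (1 / p j)) := sum_le_sum fun i _ =>
          sum_le_sum_of_subset_of_nonneg (erase_subset _ _) fun _ _ _ => by positivity
      _ = c * (∑ i, 1 / (p i : ℝ)) ^ 2 := by
          simp only [← mul_sum, ← sum_mul, pow_two]
      _ ≤ _ := by gcongr
  have s2 : ∑ v, E2 v ≤ c * ((I * h + 2) * lam) := by
    simp only [hE2]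
    rw [sum_comm]
    have : ∀ n ∈ Ioc x (x + (I * h + 2)), ∑ v : ∀ i, ZMod (p i), ∑ i,
        (if v i ∈ ({(n : ZMod (p i))} : Finset _) then (1 : ℝ) else 0) ≤ c * lam := by
      intro n _
      rw [sum_comm]
      simp only [sum_one, e3, ← mul_sum]
      gcongr
    refine (sum_le_sum this).trans (le_of_eq ?_)
    rw [sum_const, Nat.card_Ioc, add_tsub_cancel_left, nsmul_eq_mul]
    push_cast; ring
  rw [mul_sub, card_filter, Nat.cast_sum, mul_add, mul_add]
  refine le_trans (sub_le_sub st (add_le_add (add_le_add s0 s1) s2)) ?_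
  rw [← sum_add_distrib, ← sum_add_distrib, ← sum_sub_distrib]
  apply sum_le_sum
  intro v _
  have n0 : 0 ≤ (nhit S univ v : ℝ) / I := by positivity
  have t1 : ∀ (i j) (n : ℕ), 0 ≤ if v i ∈ ({(n : ZMod (p i))} : Finset _) then
      (if v j ∈ ({(n : ZMod (p j))} : Finset _) then (1 : ℝ) else 0) else 0 := by
    intro i j n; split_ifs <;> norm_num
  have t2 : ∀ (i) (n : ℕ), 0 ≤ if v i ∈ ({(n : ZMod (p i))} : Finset _) then (1 : ℝ) else 0 := by
    intro i n; split_ifs <;> norm_num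
  have n1 : 0 ≤ E1 v := sum_nonneg fun n _ => sum_nonneg fun i _ => sum_nonneg fun j _ => t1 i j n
  have n2 : 0 ≤ E2 v := sum_nonneg fun n _ => sum_nonneg fun i _ => t2 i n
  by_contra hc
  rw [not_le] at hc
  have g1 : g (nhit S univ v) ≤ 1 := by simp only [hg]; split_ifs <;> norm_num
  split_ifs at hc with hsucc
  · push_cast at hc; linarith
  apply hsucc
  push_cast at hc
  have k0 : nhit S univ v ≤ I := by
    have : (nhit S univ v : ℝ) / I < 1 := by linarith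
    rw [div_lt_one I0] at this
    exact_mod_cast this.le
  have k1 : ∀ n ∈ Ioc y x, Sv n → ∀ i j, (n : ZMod (p i)) = v i → (n : ZMod (p j)) = v j → i = j := by
    intro n hn hn' i j h1 h2
    by_contra hij
    have : 1 ≤ E1 v := by
      refine le_trans ?_ (single_le_sum (fun n _ => sum_nonneg fun i _ => sum_nonneg
        fun j _ => t1 i j n) (mem_filter.2 ⟨hn, hn'⟩))
      refine le_trans ?_ (single_le_sum (fun i _ => sum_nonneg fun j _ => t1 i j n) (mem_univ i))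
      refine le_trans ?_ (single_le_sum (fun j _ => t1 i j n)
        (mem_erase.2 ⟨fun h => hij h.symm, mem_univ j⟩))
      simp [h1, h2]
    linarith
  have k2 : ∀ n ∈ Ioc x (x + (I * h + 2)), ∀ i, (n : ZMod (p i)) ≠ v i := by
    intro n hn i h1
    have : 1 ≤ E2 v := by
      refine le_trans ?_ (single_le_sum (fun n _ => sum_nonneg fun i _ => t2 i n) hn)
      refine le_trans ?_ (single_le_sum (fun i _ => t2 i n) (mem_univ i))
      simp [h1]
    linarith
  have k3 : ∃ t ∈ Ioc x (x + I * h), Sv t ∧ Sv (t + 2) ∧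
      #{n ∈ Ioc x t | Sv n} = nhit S univ v := by
    by_contra h'
    have : g (nhit S univ v) = 0 := if_neg (not_or.2 ⟨by omega, h'⟩)
    linarith
  obtain ⟨t, ht, a1, a2, a3⟩ := k3
  rw [mem_Ioc] at ht
  refine ⟨t, by omega, ht.2, ⟨a1, fun i _ => k2 t (mem_Ioc.2 (by omega)) i⟩,
    ⟨a2, fun i _ => k2 _ (mem_Ioc.2 (by omega)) i⟩, ?_⟩
  rw [cIoc_add _ hyx ht.1.le, ← hD,
    ← card_filter_add_card_filter_not (s := {n ∈ Ioc y x | Sv n})
      (fun n : ℕ => ∀ i, act i n → (n : ZMod (p i)) ≠ v i), filter_filter]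
  congr 1
  rw [filter_congr (q := Sv) (fun n hn => and_iff_left fun i _ =>
    k2 n (mem_Ioc.2 (by rw [mem_Ioc] at hn; omega)) i), a3]
  apply le_antisymm
  · apply card_le_card_of_forall_subsingleton
      (fun (i : ι) (n : ℕ) => (n : ZMod (p i)) = v i)
    · intro i hi
      obtain ⟨n, hn, h1⟩ := mem_image.1 (mem_filter.1 hi).2
      rw [mem_filter] at hn
      exact ⟨n, mem_filter.2 ⟨mem_filter.2 ⟨hn.1, hn.2.1⟩, fun h => h i hn.2.2 h1⟩, h1⟩
    · intro n hn i hi j hj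
      have := mem_filter.1 (mem_filter.1 hn).1
      exact k1 n this.1 this.2 i j hi.2 hj.2
  · apply card_le_card_of_forall_subsingleton
      (fun (n : ℕ) (i : ι) => (n : ZMod (p i)) = v i)
    · intro n hn
      obtain ⟨b1, b2⟩ := mem_filter.1 hn
      push Not at b2
      obtain ⟨i, b3, b4⟩ := b2
      rw [mem_filter] at b1
      exact ⟨i, mem_filter.2 ⟨mem_univ _, mem_image.2 ⟨n, mem_filter.2 ⟨b1.1, b1.2, b3⟩, b4⟩⟩, b4⟩
    · intro i _ n hn n' hn'
      exact inj i n (mem_filter.1 (mem_filter.1 hn.1).1).1 n' (mem_filter.1 (mem_filter.1 hn'.1).1).1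
        (hn.2.trans hn'.2.symm)

end Pool.Agent.Lib.MP_be93de_nt
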