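import Mathlib
import Pool.Agent.Lib.MP_be93de_nt.RsAbs

/-! Upper bounds for functions of the number of removed points. -/

namespace Pool.Agent.Lib.MP_be93de_nt

open Finset

section
variable {ι : Type} [Fintype ι] [DecidableEq ι] {α : ι → Type} [∀ i, Fintype (α i)]
  [∀ i, DecidableEq (α i)] [∀ i, Nonempty (α i)]

lemma stein_up (S : ∀ i, Finset (α i)) (g : ℕ → ℝ) (hg : ∀ j, g j ≤ 1) (κ F s π₀ : ℝ)
    (hκ : 0 ≤ κ) (hF : ∀ i j, ∑ l ∈ Ico i j, (g l - κ) ≤ F) (hπ : ∀ i, prp (S i) ≤ π₀)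
    (hπ0 : 0 ≤ π₀) (hπ1 : π₀ ≤ 1 / 2) (hs : 0 < s) (hs2 : 2 * s ^ 2 ≤ ∑ i, prp (S i)) :
    ∑ v : ∀ i, α i, g (nhit S univ v) ≤ Fintype.card (∀ i, α i) * (κ + F / s + π₀) := by
  have F0 : 0 ≤ F := by simpa using hF 0 0
  have st := stein S (fun l => 1 - g l) (fun l => by linarith [hg l]) (1 - κ) F s π₀
    (fun i j => by
      refine le_trans (le_of_eq (sum_congr rfl fun l _ => ?_)) (hF i j)
      ring) hπ hπ1 hs hs2
  rw [sum_sub_distrib, sum_const, card_univ, nsmul_eq_mul, mul_one] at st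
  have c0 : (0 : ℝ) ≤ Fintype.card (∀ i, α i) := Nat.cast_nonneg _
  have : 0 ≤ F / s := by positivity
  nlinarith [mul_nonneg c0 (mul_nonneg hπ0 hκ), mul_nonneg c0 (mul_nonneg hπ0 this)]

open Classical in
/-- number of removed points of `B` -/
noncomputable def nk (kil : ∀ i, α i → ℕ → Prop) (B : Finset ℕ) (v : ∀ i, α i) : ℕ :=
  #{n ∈ B | ∃ i, kil i (v i) n}

open Classical in
/-- the classes that remove a point of `B` -/
noncomputable def kB (kil : ∀ i, α i → ℕ → Prop) (B : Finset ℕ) (i : ι) : Finset (α i) :=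
  {a | ∃ n ∈ B, kil i a n}

omit [Fintype ι] [DecidableEq ι] [∀ i, DecidableEq (α i)] [∀ i, Nonempty (α i)] in
lemma mem_kB {kil : ∀ i, α i → ℕ → Prop} {B : Finset ℕ} {i : ι} {a : α i} :
    a ∈ kB kil B i ↔ ∃ n ∈ B, kil i a n := by simp [kB]

omit [Fintype ι] [DecidableEq ι] [∀ i, DecidableEq (α i)] [∀ i, Nonempty (α i)] in
lemma mem_k1 {kil : ∀ i, α i → ℕ → Prop} {n : ℕ} {i : ι} {a : α i} :
    a ∈ kB kil {n} i ↔ kil i a n := by simp [kB]

omit [DecidableEq ι] [∀ i, Fintype (α i)] [∀ i, DecidableEq (α i)] [∀ i, Nonempty (α i)] in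
lemma nk_add (kil : ∀ i, α i → ℕ → Prop) (B : Finset ℕ) (v : ∀ i, α i) (P : ℕ → Prop)
    [DecidablePred P] (hP : ∀ n ∈ B, P n ↔ ∀ i, ¬ kil i (v i) n) :
    #{n ∈ B | P n} + nk kil B v = #B := by
  classical
  rw [← card_filter_add_card_filter_not (s := B) P, nk]
  congr 2
  ext n
  simp only [mem_filter, and_congr_right_iff]
  intro hn
  rw [hP n hn]
  simp

omit [DecidableEq ι] [∀ i, Fintype (α i)] [∀ i, DecidableEq (α i)] [∀ i, Nonempty (α i)] in
lemma nk_pos (kil : ∀ i, α i → ℕ → Prop) (B : Finset ℕ) (v : ∀ i, α i) {n : ℕ} (hn : n ∈ B)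
    {i : ι} (h : kil i (v i) n) : (1 : ℝ) ≤ nk kil B v := by
  classical
  have : 1 ≤ nk kil B v := card_pos.2 ⟨n, by simp only [mem_filter]; exact ⟨hn, i, h⟩⟩
  exact_mod_cast this

open Classical in
lemma nk_mean (kil : ∀ i, α i → ℕ → Prop) (B : Finset ℕ) (r : ι → ℝ) (lam : ℝ)
    (hr : ∀ i, ∀ n ∈ B, prp (kB kil {n} i) ≤ r i) (hl : ∑ i, r i ≤ lam) :
    ∑ v : ∀ i, α i, (nk kil B v : ℝ) ≤ Fintype.card (∀ i, α i) * (#B * lam) := by
  have c0 : (0 : ℝ) ≤ Fintype.card (∀ i, α i) := Nat.cast_nonneg _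
  calc _ ≤ ∑ v : ∀ i, α i, ∑ n ∈ B, ∑ i,
        (if v i ∈ kB kil {n} i then (1 : ℝ) else 0) := by
        apply sum_le_sum
        intro v _
        rw [nk, card_filter, Nat.cast_sum]
        apply sum_le_sum
        intro n _
        have t : ∀ i, (0 : ℝ) ≤ if v i ∈ kB kil {n} i then 1 else 0 :=
          fun i => by split_ifs <;> norm_num
        split_ifs with h
        · obtain ⟨i, hi⟩ := h
          refine le_trans ?_ (single_le_sum (fun i _ => t i) (mem_univ i))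
          simp [mem_k1, hi]
        · rw [Nat.cast_zero]
          exact sum_nonneg fun i _ => t i
    _ = ∑ n ∈ B, ∑ i, Fintype.card (∀ i, α i) * prp (kB kil {n} i) := by
        rw [sum_comm]
        refine sum_congr rfl fun n _ => ?_
        rw [sum_comm]
        exact sum_congr rfl fun i _ => sum_one i _
    _ ≤ ∑ _n ∈ B, Fintype.card (∀ i, α i) * lam := by
        apply sum_le_sum
        intro n hn
        rw [← mul_sum]
        exact mul_le_mul_of_nonneg_left ((sum_le_sum fun i _ => hr i n hn).trans hl) c0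
    _ = _ := by rw [sum_const, nsmul_eq_mul]; ring

open Classical in
theorem nk_up (kil : ∀ i, α i → ℕ → Prop) (B : Finset ℕ) (r : ι → ℝ) (lam : ℝ)
    (hu : ∀ i a, ∀ n ∈ B, ∀ n' ∈ B, kil i a n → kil i a n' → n = n') (r0 : ∀ i, 0 ≤ r i)
    (hr : ∀ i, ∀ n ∈ B, prp (kB kil {n} i) ≤ r i) (hl : ∑ i, r i ≤ lam)
    (g : ℕ → ℝ) (g0 : ∀ j, 0 ≤ g j) (hg : ∀ j, g j ≤ 1) (κ F s π₀ : ℝ)
    (hκ : 0 ≤ κ) (hF : ∀ i j, ∑ l ∈ Ico i j, (g l - κ) ≤ F)
    (hπ : ∀ i, prp (kB kil B i) ≤ π₀) (hπ0 : 0 ≤ π₀) (hπ1 : π₀ ≤ 1 / 2)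
    (hs : 0 < s) (hs2 : 2 * s ^ 2 ≤ ∑ i, prp (kB kil B i)) :
    ∑ v : ∀ i, α i, g (nk kil B v) ≤
      Fintype.card (∀ i, α i) * (κ + F / s + π₀ + #B * lam ^ 2) := by
  set S : ∀ i, Finset (α i) := kB kil B with hS
  have st := stein_up S g hg κ F s π₀ hκ hF hπ hπ0 hπ1 hs hs2
  set c : ℝ := (Fintype.card (∀ i, α i) : ℝ) with hc
  have c0 : 0 ≤ c := Nat.cast_nonneg _
  have l0 : 0 ≤ ∑ i, r i := sum_nonneg fun i _ => r0 i
  set E : (∀ i, α i) → ℝ := fun v => ∑ n ∈ B, ∑ i, ∑ j ∈ univ.erase i,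
    if v i ∈ kB kil {n} i then
      (if v j ∈ kB kil {n} j then (1 : ℝ) else 0) else 0 with hE
  have s1 : ∑ v, E v ≤ c * (#B * lam ^ 2) := by
    simp only [hE]
    rw [sum_comm, mul_left_comm, ← nsmul_eq_mul, ← sum_const]
    apply sum_le_sum
    intro n hn
    calc _ = ∑ i, ∑ j ∈ univ.erase i,
          c * (prp (kB kil {n} i) * prp (kB kil {n} j)) := by
          rw [sum_comm]
          apply sum_congr rfl
          intro i _
          rw [sum_comm]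
          apply sum_congr rfl
          intro j hj
          rw [sum_two (ne_of_mem_erase hj).symm]
      _ ≤ ∑ i, ∑ j ∈ univ.erase i, c * (r i * r j) := sum_le_sum fun i _ => sum_le_sum fun j _ =>
          mul_le_mul_of_nonneg_left (mul_le_mul (hr i n hn) (hr j n hn) (prp_nonneg _) (r0 i)) c0
      _ ≤ ∑ i, ∑ j, c * (r i * r j) := sum_le_sum fun i _ =>
          sum_le_sum_of_subset_of_nonneg (erase_subset _ _) fun j _ _ =>
            mul_nonneg c0 (mul_nonneg (r0 i) (r0 j))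
      _ = c * (∑ i, r i) ^ 2 := by simp only [← mul_sum, ← sum_mul, pow_two]
      _ ≤ _ := by gcongr
  rw [mul_add]
  refine le_trans ?_ (add_le_add st s1)
  rw [← sum_add_distrib]
  apply sum_le_sum
  intro v _
  have t1 : ∀ (i j) (n : ℕ), 0 ≤ if v i ∈ kB kil {n} i then
      (if v j ∈ kB kil {n} j then (1 : ℝ) else 0) else 0 := by
    intro i j n; split_ifs <;> norm_num
  have n1 : 0 ≤ E v := sum_nonneg fun n _ => sum_nonneg fun i _ => sum_nonneg fun j _ => t1 i j n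
  by_cases k1 : ∀ n ∈ B, ∀ i j, kil i (v i) n → kil j (v j) n → i = j
  · have : nk kil B v = nhit S univ v := by
      apply le_antisymm
      · apply card_le_card_of_forall_subsingleton (fun (n : ℕ) (i : ι) => kil i (v i) n)
        · intro n hn
          obtain ⟨b1, i, b2⟩ := mem_filter.1 hn
          exact ⟨i, mem_filter.2 ⟨mem_univ _, mem_kB.2 ⟨n, b1, b2⟩⟩, b2⟩
        · intro i _ n hn n' hn'
          exact hu i _ n (mem_filter.1 hn.1).1 n' (mem_filter.1 hn'.1).1 hn.2 hn'.2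
      · apply card_le_card_of_forall_subsingleton (fun (i : ι) (n : ℕ) => kil i (v i) n)
        · intro i hi
          obtain ⟨n, hn, h1⟩ := mem_kB.1 (mem_filter.1 hi).2
          exact ⟨n, mem_filter.2 ⟨hn, i, h1⟩, h1⟩
        · intro n hn i hi j hj
          exact k1 n (mem_filter.1 hn).1 i j hi.2 hj.2
    rw [this]
    linarith
  · push Not at k1
    obtain ⟨n, hn, i, j, h1, h2, hij⟩ := k1
    have : 1 ≤ E v := by
      refine le_trans ?_ (single_le_sum (fun n _ => sum_nonneg fun i _ => sum_nonneg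
        fun j _ => t1 i j n) hn)
      refine le_trans ?_ (single_le_sum (fun i _ => sum_nonneg fun j _ => t1 i j n) (mem_univ i))
      refine le_trans ?_ (single_le_sum (fun j _ => t1 i j n)
        (mem_erase.2 ⟨fun h => hij h.symm, mem_univ j⟩))
      simp [mem_k1, h1, h2]
    linarith [hg (nk kil B v), g0 (nhit S univ v)]

end

lemma win_up (Sv R : ℕ → Prop) [DecidablePred Sv] [DecidablePred R] (x h L : ℕ) (a b : ℝ)
    (ha : 0 < a) (hb : 0 ≤ b) (h0 : 0 < h)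
    (H1 : ∀ e, x ≤ e → e ≤ L → a ≤ (#{n ∈ Ioc e (e + h) | Sv n} : ℝ))
    (H2 : ∀ e, x ≤ e → e ≤ L → (#{n ∈ Ioc e (e + h) | Sv n ∧ R n} : ℝ) ≤ b) :
    ∀ d e e', e' - e = d → x ≤ e → e ≤ e' → e' ≤ L →
      (#{n ∈ Ioc e e' | Sv n ∧ R n} : ℝ) ≤ b / a * #{n ∈ Ioc e e' | Sv n} + b := by
  have κ0 : 0 ≤ b / a := by positivity
  have κa : b / a * a = b := by field_simp
  intro d
  induction d using Nat.strong_induction_on with
  | _ d ih =>
  intro e e' hd h1 h2 h3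
  have a3 := H2 e h1 (h2.trans h3)
  by_cases h4 : e' ≤ e + h
  · have a2 : (#{n ∈ Ioc e e' | Sv n ∧ R n} : ℝ) ≤ #{n ∈ Ioc e (e + h) | Sv n ∧ R n} := by
      exact_mod_cast cIoc_mono _ e h4
    have a4 : (0 : ℝ) ≤ b / a * #{n ∈ Ioc e e' | Sv n} := by positivity
    linarith
  · have a1 := mul_le_mul_of_nonneg_left (H1 e h1 (h2.trans h3)) κ0
    have a2 := ih (e' - (e + h)) (by omega) (e + h) e' rfl (by omega) (by omega) h3
    rw [cIoc_add Sv (Nat.le_add_right e h) (not_le.1 h4).le,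
      cIoc_add _ (Nat.le_add_right e h) (not_le.1 h4).le]
    push_cast
    linarith

open Classical in
/-- the indicator of the ranks after `x` that carry the mark `R` -/
noncomputable def gm (Sv R : ℕ → Prop) (x L l : ℕ) : ℝ :=
  if l = 0 ∨ ∃ t ∈ Ioc x L, Sv t ∧ R t ∧ #{n ∈ Ioc x t | Sv n} = l then 1 else 0

lemma gm_nonneg (Sv R : ℕ → Prop) (x L l : ℕ) : 0 ≤ gm Sv R x L l := by
  unfold gm; split_ifs <;> norm_num

lemma gm_le (Sv R : ℕ → Prop) (x L l : ℕ) : gm Sv R x L l ≤ 1 := by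
  unfold gm; split_ifs <;> norm_num

open Classical in
lemma lindley_up (Sv R : ℕ → Prop) (x h L : ℕ) (a b : ℝ) (ha : 0 < a) (hb : 0 ≤ b) (h0 : 0 < h)
    (H1 : ∀ e, x ≤ e → e ≤ L → a ≤ (#{n ∈ Ioc e (e + h) | Sv n} : ℝ))
    (H2 : ∀ e, x ≤ e → e ≤ L → (#{n ∈ Ioc e (e + h) | Sv n ∧ R n} : ℝ) ≤ b) (i j : ℕ) :
    ∑ l ∈ Ico i j, (gm Sv R x L l - b / a) ≤ b + 1 := by
  have κ0 : 0 ≤ b / a := by positivity
  set T := {t ∈ Ioc x L | Sv t ∧ R t ∧ #{n ∈ Ioc x t | Sv n} ∈ Ico i j} with hT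
  have A : ∑ l ∈ Ico i j, gm Sv R x L l ≤ #T + 1 := by
    simp only [gm]
    rw [sum_boole]
    have : #{l ∈ Ico i j | l = 0 ∨ ∃ t ∈ Ioc x L, Sv t ∧ R t ∧ #{n ∈ Ioc x t | Sv n} = l} ≤
        #T + 1 := by
      refine le_trans (card_le_card (t := insert 0 (T.image fun t => #{n ∈ Ioc x t | Sv n})) ?_)
        ((card_insert_le _ _).trans (Nat.add_le_add_right card_image_le 1))
      intro l hl
      obtain ⟨b1, b2 | ⟨t, b2, b3, b4, b5⟩⟩ := mem_filter.1 hl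
      · exact mem_insert.2 (Or.inl b2)
      · exact mem_insert_of_mem (mem_image.2 ⟨t, mem_filter.2 ⟨b2, b3, b4, b5 ▸ b1⟩, b5⟩)
    exact_mod_cast this
  rw [sum_sub_distrib, sum_const, Nat.card_Ico, nsmul_eq_mul]
  rcases T.eq_empty_or_nonempty with h1 | h1
  · rw [h1] at A
    have : (0 : ℝ) ≤ (j - i : ℕ) * (b / a) := by positivity
    simp only [card_empty, Nat.cast_zero] at A
    linarith
  · have m1 := mem_filter.1 (T.min'_mem h1)
    have m2 := mem_filter.1 (T.max'_mem h1)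
    have m3 := T.min'_le_max' h1
    set t1 := T.min' h1 with ht1
    set t2 := T.max' h1 with ht2
    simp only [mem_Ioc, mem_Ico] at m1 m2
    have c1 := win_up Sv R x h L a b ha hb h0 H1 H2 _ (t1 - 1) t2 rfl (by omega) (by omega) m2.1.2
    have c2 : #T ≤ #{n ∈ Ioc (t1 - 1) t2 | Sv n ∧ R n} := by
      apply card_le_card
      intro t ht
      have d1 := T.min'_le t ht
      have d2 := T.le_max' t ht
      have d3 := mem_filter.1 ht
      exact mem_filter.2 ⟨mem_Ioc.2 (by omega), d3.2.1, d3.2.2.1⟩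
    have c3 := cIoc_add Sv (by omega : x ≤ t1 - 1) (by omega : t1 - 1 ≤ t2)
    have c4 := cIoc_succ Sv x (t1 - 1)
    rw [show t1 - 1 + 1 = t1 by omega] at c4
    have c5 : (#{n ∈ Ioc (t1 - 1) t2 | Sv n} : ℝ) ≤ (j - i : ℕ) := by
      exact_mod_cast (by omega : #{n ∈ Ioc (t1 - 1) t2 | Sv n} ≤ j - i)
    have c6 : (#T : ℝ) ≤ #{n ∈ Ioc (t1 - 1) t2 | Sv n ∧ R n} := by exact_mod_cast c2
    have c7 := mul_le_mul_of_nonneg_left c5 κ0
    linarith

lemma prp_eq {p : ℕ} [NeZero p] (n : ℕ) (A : Finset (ZMod p)) (h : ∀ a ∈ A, (n : ZMod p) = a) :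
    prp A ≤ 1 / (p : ℝ) := by
  rw [prp, ZMod.card]
  gcongr
  exact_mod_cast card_le_one.2 fun a ha b hb => (h a ha).symm.trans (h b hb)

lemma zinj {p y x n n' : ℕ} (hp : x ≤ y + p) (hn : n ∈ Ioc y x) (hn' : n' ∈ Ioc y x)
    (h : (n : ZMod p) = n') : n = n' := by
  rw [mem_Ioc] at hn hn'
  exact ((ZMod.natCast_eq_natCast_iff _ _ _).1 h).eq_of_abs_lt (abs_lt.2 (by omega))

open Classical in
theorem core_up {ι : Type} [Fintype ι] [DecidableEq ι] (p : ι → ℕ) [∀ i, NeZero (p i)]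
    (Sv R : ℕ → Prop) (act : ι → ℕ → Prop) (y x D h I Λ : ℕ) (a b s π₀ lam : ℝ) (ha : 0 < a)
    (hb : 0 ≤ b) (h0 : 0 < h) (hyx : y ≤ x) (hI : 0 < I) (hΛ : I * h ≤ Λ)
    (hD : #{n ∈ Ioc y x | Sv n} = D) (hp : ∀ i, x ≤ y + p i)
    (H1 : ∀ e, x ≤ e → e ≤ x + I * h → a ≤ (#{n ∈ Ioc e (e + h) | Sv n} : ℝ))
    (H2 : ∀ e, x ≤ e → e ≤ x + I * h → (#{n ∈ Ioc e (e + h) | Sv n ∧ R n} : ℝ) ≤ b)
    (hπ : ∀ i, D ≤ π₀ * p i) (hπ0 : 0 ≤ π₀) (hπ1 : π₀ ≤ 1 / 2) (hl : ∑ i, 1 / (p i : ℝ) ≤ lam)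
    (hs : 0 < s) (hs2 : 2 * s ^ 2 ≤ ∑ i, (#{n ∈ Ioc y x | Sv n ∧ act i n} : ℝ) / p i) :
    (#{v : ∀ i, ZMod (p i) | ∃ t, y < t ∧ (Sv t ∧ ∀ i, act i t → (t : ZMod (p i)) ≠ v i) ∧
      #{n ∈ Ioc y t | Sv n ∧ ∀ i, act i n → (n : ZMod (p i)) ≠ v i} = D ∧
      ((∀ n ∈ Ioc x (x + Λ), ∀ i, (n : ZMod (p i)) ≠ v i) → x < t → t ≤ x + I * h → R t)} : ℝ) ≤
    Fintype.card (∀ i, ZMod (p i)) *
      (b / a + (b + 1) / s + π₀ + D * lam ^ 2 + D * lam / I + Λ * lam) := by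
  set kil : ∀ i, ZMod (p i) → ℕ → Prop := fun i c n => act i n ∧ (n : ZMod (p i)) = c with hk
  set kil2 : ∀ i, ZMod (p i) → ℕ → Prop := fun i c n => (n : ZMod (p i)) = c with hk2
  set B : Finset ℕ := {n ∈ Ioc y x | Sv n} with hB
  have p0 : ∀ i, (0 : ℝ) < p i := fun i => by exact_mod_cast Nat.pos_of_ne_zero (NeZero.ne _)
  have e1 : ∀ i, prp (kB kil B i) =
      (#{n ∈ Ioc y x | Sv n ∧ act i n} : ℝ) / p i := by
    intro i
    have : kB kil B i =
        ({n ∈ Ioc y x | Sv n ∧ act i n} : Finset ℕ).image (fun n : ℕ => (n : ZMod (p i))) := by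
      ext c
      simp only [hB, hk, mem_kB, mem_filter, mem_image, and_assoc]
    rw [this, prp, ZMod.card, card_image_of_injOn]
    exact fun n hn n' hn' h => zinj (hp i) (mem_filter.1 hn).1 (mem_filter.1 hn').1 h
  have r1 : ∀ i, ∀ n ∈ B, prp (kB kil {n} i) ≤ 1 / (p i : ℝ) :=
    fun i n _ => prp_eq n _ fun c hc => (mem_k1.1 hc).2
  have s1 := nk_up kil B (fun i => 1 / (p i : ℝ)) lam
    (fun i c n hn n' hn' h1 h2 => zinj (hp i) (mem_filter.1 hn).1 (mem_filter.1 hn').1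
      (h1.2.trans h2.2.symm)) (fun i => by positivity) r1 hl (gm Sv R x (x + I * h))
    (gm_nonneg _ _ _ _) (gm_le _ _ _ _) (b / a) (b + 1) s π₀ (by positivity)
    (lindley_up Sv R x h _ a b ha hb h0 H1 H2)
    (fun i => by
      rw [e1, div_le_iff₀ (p0 i)]
      refine le_trans ?_ (hπ i)
      rw [← hD, Nat.cast_le]
      exact card_le_card fun n hn =>
        mem_filter.2 ⟨(mem_filter.1 hn).1, (mem_filter.1 hn).2.1⟩) hπ0 hπ1 hs
    (by simpa only [e1] using hs2)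
  have s2 := nk_mean kil B (fun i => 1 / (p i : ℝ)) lam r1 hl
  have s3 := nk_mean kil2 (Ioc x (x + Λ)) (fun i => 1 / (p i : ℝ)) lam
    (fun i n _ => prp_eq n _ fun c hc => mem_k1.1 hc) hl
  rw [Nat.card_Ioc, add_tsub_cancel_left] at s3
  rw [hD] at s1 s2
  have I0 : (0 : ℝ) < I := by exact_mod_cast hI
  have s4 := div_le_div_of_nonneg_right s2 I0.le
  rw [sum_div, mul_div_assoc] at s4
  rw [mul_add, mul_add _ _ (D * lam / I), card_filter, Nat.cast_sum]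
  refine le_trans ?_ (add_le_add (add_le_add s1 s4) s3)
  rw [← sum_add_distrib, ← sum_add_distrib]
  apply sum_le_sum
  intro v _
  have n0 := gm_nonneg Sv R x (x + I * h) (nk kil B v)
  have n1 : (0 : ℝ) ≤ nk kil B v / I := by positivity
  have n2 : (0 : ℝ) ≤ nk kil2 (Ioc x (x + Λ)) v := by positivity
  split_ifs with hv
  swap
  · rw [Nat.cast_zero]; linarith
  rw [Nat.cast_one]
  by_contra hc
  rw [not_le] at hc
  obtain ⟨t, a1, a2, a3, a4⟩ := hv
  have k0 : nk kil B v < I := by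
    have : (nk kil B v : ℝ) / I < 1 := by linarith
    rw [div_lt_one I0] at this
    exact_mod_cast this
  have k1 : ∀ n ∈ Ioc x (x + Λ), ∀ i, (n : ZMod (p i)) ≠ v i := by
    intro n hn i h1
    have := nk_pos kil2 _ v hn h1
    linarith
  have k2 : #{n ∈ Ioc y x | Sv n ∧ ∀ i, act i n → (n : ZMod (p i)) ≠ v i} + nk kil B v = D := by
    rw [← hD, ← nk_add kil B v (fun n => ∀ i, act i n → (n : ZMod (p i)) ≠ v i)
      (fun n _ => by simp only [hk, not_and]), hB, filter_filter]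
  have k3 : ∀ e, e ≤ x + I * h →
      #{n ∈ Ioc x e | Sv n ∧ ∀ i, act i n → (n : ZMod (p i)) ≠ v i} = #{n ∈ Ioc x e | Sv n} := by
    intro e he
    congr 1
    exact filter_congr fun n hn => and_iff_left fun i _ =>
      k1 n (mem_Ioc.2 (by rw [mem_Ioc] at hn; omega)) i
  have : gm Sv R x (x + I * h) (nk kil B v) = 1 := by
    apply if_pos
    rcases le_or_gt t x with h1 | h1
    · have := cIoc_mono (fun n => Sv n ∧ ∀ i, act i n → (n : ZMod (p i)) ≠ v i) y h1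
      left; omega
    · rw [cIoc_add _ hyx h1.le] at a3
      have h2 : t ≤ x + I * h := by
        by_contra h2
        have b1 := cIoc_mono (fun n => Sv n ∧ ∀ i, act i n → (n : ZMod (p i)) ≠ v i) x
          (not_le.1 h2).le
        have b2 := many Sv x h I fun e c1 c2 => by exact_mod_cast ha.trans_le (H1 e c1 (by omega))
        rw [k3 _ le_rfl] at b1
        omega
      rw [k3 t h2] at a3
      exact Or.inr ⟨t, mem_Ioc.2 ⟨h1, h2⟩, a2.1, a4 k1 h1 h2, by omega⟩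
  linarith

end Pool.Agent.Lib.MP_be93de_nt
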