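import Mathlib
import Pool.Agent.Lib.MP_b09185_nt.FL

/-! The fundamental lemma of the sieve for the pair `n`, `n + δ` and arbitrary classes. -/

namespace Pool.Agent.Lib.MP_be93de_nt

open Finset Nat
open Pool.Agent.Lib.MP_6a20cc_nt Pool.Agent.Lib.MP_b09185_nt

/-- the prime `q` removes `n` or `n + δ` -/
def hit (c : ℕ → ℕ) (δ q n : ℕ) : Prop := n ≡ c q [MOD q] ∨ n + δ ≡ c q [MOD q]

instance (c : ℕ → ℕ) (δ q n : ℕ) : Decidable (hit c δ q n) := by unfold hit; infer_instance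

/-- proportion of removed classes -/
noncomputable def rho (δ q : ℕ) : ℝ := (if q ∣ δ then 1 else 2) / q

/-- density of survivors -/
noncomputable def thd (δ N : ℕ) : ℝ := ∏ p ∈ primesLE N, (1 - rho δ p)

/-- sieve count -/
def cntd (c : ℕ → ℕ) (δ x H : ℕ) (Q : Finset ℕ) (N : ℕ) : ℕ :=
  #{n ∈ Ioc x (x + H) | (∀ q ∈ Q, hit c δ q n) ∧ ∀ q ∈ primesLE N, ¬ hit c δ q n}

lemma rho_nonneg (δ q : ℕ) : 0 ≤ rho δ q := by unfold rho; split_ifs <;> positivity

lemma rho_le (δ q : ℕ) : rho δ q ≤ 2 * (1 / (q : ℝ)) := by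
  unfold rho
  rw [mul_one_div]
  gcongr
  split_ifs <;> norm_num

lemma rho_le' {δ : ℕ} (hδ : 2 ∣ δ) {p : ℕ} (hp : p.Prime) : rho δ p ≤ 2 / 3 := by
  rcases hp.two_le.eq_or_lt with rfl | h
  · simp [rho, hδ]; norm_num
  · have : (3 : ℝ) ≤ p := by exact_mod_cast h
    refine (rho_le δ p).trans ?_
    rw [mul_one_div]
    gcongr

lemma facd_ge {δ : ℕ} (hδ : 2 ∣ δ) {p : ℕ} (hp : p.Prime) :
    Real.exp (-(6 * (1 / (p : ℝ)))) ≤ 1 - rho δ p := by
  have h1 := rho_le' hδ hp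
  have h0 := rho_nonneg δ p
  have h3 := rho_le δ p
  have h2 := Real.add_one_le_exp (6 * (1 / (p : ℝ)))
  rw [Real.exp_neg, inv_le_iff_one_le_mul₀ (Real.exp_pos _)]
  have h4 : (1 - rho δ p) * (3 * rho δ p + 1) ≤ (1 - rho δ p) * Real.exp (6 * (1 / (p : ℝ))) :=
    mul_le_mul_of_nonneg_left (by linarith) (by linarith)
  nlinarith

lemma facd_pos {δ : ℕ} (hδ : 2 ∣ δ) {p : ℕ} (hp : p.Prime) : 0 < 1 - rho δ p :=
  (Real.exp_pos _).trans_le (facd_ge hδ hp)

lemma thd_pos {δ : ℕ} (hδ : 2 ∣ δ) (N : ℕ) : 0 < thd δ N :=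
  prod_pos fun _ hp => facd_pos hδ (prime_of_mem_primesLE hp)

lemma prod_facd_ge {δ : ℕ} (hδ : 2 ∣ δ) {P : Finset ℕ} (hP : ∀ p ∈ P, p.Prime) :
    Real.exp (-(6 * ∑ p ∈ P, 1 / (p : ℝ))) ≤ ∏ p ∈ P, (1 - rho δ p) := by
  rw [mul_sum, ← sum_neg_distrib, Real.exp_sum]
  exact prod_le_prod (fun _ _ => (Real.exp_pos _).le) fun p hp => facd_ge hδ (hP p hp)

lemma thd_split (δ : ℕ) {M N : ℕ} (h : M ≤ N) :
    thd δ N = thd δ M * ∏ p ∈ primesLE N \ primesLE M, (1 - rho δ p) := by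
  rw [thd, thd, mul_comm, prod_sdiff (primesLE_mono h)]

lemma thd_anti {δ : ℕ} (hδ : 2 ∣ δ) {M N : ℕ} (h : M ≤ N) : thd δ N ≤ thd δ M := by
  rw [thd_split δ h]
  exact mul_le_of_le_one_right (thd_pos hδ M).le (prod_le_one
    (fun p hp => (facd_pos hδ (prime_of_mem_primesLE (mem_sdiff.1 hp).1)).le)
    fun p _ => by linarith [rho_nonneg δ p])

lemma thd_zero (N : ℕ) : thd 0 N = th N := by simp [thd, th, rho]

lemma shift_class (c δ : ℕ) {a : ℕ} (ha : 0 < a) :
    ∃ c', (∀ n, n + δ ≡ c [MOD a] ↔ n ≡ c' [MOD a]) ∧ (c' ≡ c [MOD a] ↔ a ∣ δ) := by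
  have key : ∀ n, n + δ ≡ c [MOD a] ↔ n ≡ c + (a - 1) * δ [MOD a] := by
    intro n
    rw [← ZMod.natCast_eq_natCast_iff, ← ZMod.natCast_eq_natCast_iff]
    push_cast [Nat.cast_sub ha, ZMod.natCast_self]
    constructor <;> intro h <;> linear_combination h
  refine ⟨c + (a - 1) * δ, key, ?_⟩
  rw [← ZMod.natCast_eq_natCast_iff, ← ZMod.natCast_eq_zero_iff]
  push_cast [Nat.cast_sub ha, ZMod.natCast_self]
  constructor <;> intro h <;> linear_combination -h

lemma base_countd (c : ℕ → ℕ) (δ x H : ℕ) (Q : Finset ℕ) (hQ : ∀ q ∈ Q, q.Prime) :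
    ∀ r M : ℕ, 0 < M → (∀ q ∈ Q, Nat.Coprime M q) →
    |(#{n ∈ Ioc x (x + H) | n ≡ r [MOD M] ∧ ∀ q ∈ Q, hit c δ q n} : ℝ) -
      H / M * ∏ q ∈ Q, rho δ q| ≤ 2 ^ #Q := by
  induction Q using Finset.induction_on with
  | empty => intro r M hM _; simpa using class_count x H M r hM
  | insert a Q ha ih =>
    intro r M hM hc
    have pa := hQ a (mem_insert_self _ _)
    have co := hc a (mem_insert_self _ _)
    have key : ∀ s, |(#{n ∈ Ioc x (x + H) | n ≡ r [MOD M] ∧ n ≡ s [MOD a] ∧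
        ∀ q ∈ Q, hit c δ q n} : ℝ) - H / M * (1 / a * ∏ q ∈ Q, rho δ q)| ≤ 2 ^ #Q := by
      intro s
      obtain ⟨t, h1, h2⟩ := Nat.chineseRemainder co r s
      have := ih (fun q hq => hQ q (mem_insert_of_mem hq)) t (M * a) (Nat.mul_pos hM pa.pos)
        (fun q hq => Nat.Coprime.mul_left (hc q (mem_insert_of_mem hq))
          ((Nat.coprime_primes pa (hQ q (mem_insert_of_mem hq))).2 (by rintro rfl; exact ha hq)))
      convert this using 3
      · congr 2
        apply filter_congr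
        intro n _
        rw [← Nat.modEq_and_modEq_iff_modEq_mul co, ← and_assoc]
        apply and_congr_left'
        constructor
        · rintro ⟨a1, a2⟩; exact ⟨a1.trans h1.symm, a2.trans h2.symm⟩
        · rintro ⟨a1, a2⟩; exact ⟨a1.trans h1, a2.trans h2⟩
      · push_cast; ring
    obtain ⟨c', e1, e2⟩ := shift_class (c a) δ pa.pos
    rw [prod_insert ha, card_insert_of_notMem ha, pow_succ]
    have t0 : (0 : ℝ) < 2 ^ #Q := by positivity
    by_cases hd : a ∣ δ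
    · refine le_trans (le_of_eq ?_) ((key (c a)).trans (by linarith))
      rw [rho, if_pos hd]
      congr 4
      apply filter_congr
      intro n _
      rw [forall_mem_insert, hit, e1]
      have := e2.2 hd
      constructor
      · rintro ⟨a1, a2 | a2, a3⟩
        · exact ⟨a1, a2, a3⟩
        · exact ⟨a1, a2.trans this, a3⟩
      · rintro ⟨a1, a2, a3⟩; exact ⟨a1, Or.inl a2, a3⟩
    · have e3 : ({n ∈ Ioc x (x + H) | n ≡ r [MOD M] ∧ ∀ q ∈ insert a Q, hit c δ q n} : Finset ℕ) =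
          {n ∈ Ioc x (x + H) | n ≡ r [MOD M] ∧ n ≡ c a [MOD a] ∧ ∀ q ∈ Q, hit c δ q n} ∪
          {n ∈ Ioc x (x + H) | n ≡ r [MOD M] ∧ n ≡ c' [MOD a] ∧ ∀ q ∈ Q, hit c δ q n} := by
        rw [← filter_or]
        apply filter_congr
        intro n _
        rw [forall_mem_insert, hit, e1]
        tauto
      rw [e3, card_union_of_disjoint, rho, if_neg hd]
      · have k1 := abs_le.1 (key (c a))
        have k2 := abs_le.1 (key c')
        have e4 : (H : ℝ) / M * (2 / a * ∏ q ∈ Q, rho δ q) =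
          2 * (H / M * (1 / a * ∏ q ∈ Q, rho δ q)) := by ring
        push_cast
        rw [e4, abs_le]
        constructor <;> linarith
      · rw [disjoint_filter]
        rintro n _ ⟨_, a1, _⟩ ⟨_, a2, _⟩
        exact hd (e2.1 (a2.symm.trans a1))

lemma cntd_step (c : ℕ → ℕ) (δ x H : ℕ) (Q : Finset ℕ) {M N : ℕ} (h : M ≤ N) (k : ℕ) :
    |(cntd c δ x H Q N : ℝ) - ∑ D ∈ (primesLE N \ primesLE M).powerset,
        if #D ≤ k then (-1 : ℝ) ^ #D * cntd c δ x H (Q ∪ D) M else 0| ≤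
      ∑ D ∈ (primesLE N \ primesLE M).powerset,
        if #D = k + 1 then (cntd c δ x H (Q ∪ D) M : ℝ) else 0 := by
  set P := primesLE N \ primesLE M with hP
  set I := {n ∈ Ioc x (x + H) |
    (∀ q ∈ Q, hit c δ q n) ∧ ∀ q ∈ primesLE M, ¬ hit c δ q n} with hI
  set T : ℕ → Finset ℕ := fun n => {q ∈ P | hit c δ q n} with hT
  have e0 : (cntd c δ x H Q N : ℝ) = ∑ n ∈ I, if T n = ∅ then (1 : ℝ) else 0 := by
    rw [← sum_filter, sum_const, nsmul_eq_mul, mul_one, hI, filter_filter, cntd]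
    congr 2
    ext n
    simp only [mem_filter, hT, filter_eq_empty_iff, hP, mem_sdiff, and_congr_right_iff, and_assoc]
    intro _ _
    constructor
    · intro h1
      exact ⟨fun q hq => h1 q (primesLE_mono h hq), fun q hq => h1 q hq.1⟩
    · rintro ⟨h1, h2⟩ q hq
      by_cases h3 : q ∈ primesLE M
      · exact h1 q h3
      · exact h2 ⟨hq, h3⟩
  have e1 : ∀ g : ℕ → ℝ, ∑ D ∈ P.powerset, g #D * cntd c δ x H (Q ∪ D) M =
      ∑ n ∈ I, ∑ D ∈ (T n).powerset, g #D := by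
    intro g
    have : ∀ D ∈ P.powerset, g #D * cntd c δ x H (Q ∪ D) M =
        ∑ n ∈ I, if D ⊆ T n then g #D else 0 := by
      intro D hD
      rw [← sum_filter, sum_const, nsmul_eq_mul, mul_comm, hI, filter_filter, cntd]
      congr 2
      apply congrArg
      apply filter_congr
      intro n _
      simp only [mem_union, hT, subset_iff, mem_filter]
      constructor
      · rintro ⟨h1, h2⟩
        exact ⟨⟨fun q hq => h1 q (Or.inl hq), h2⟩,
          fun q hq => ⟨mem_powerset.1 hD hq, h1 q (Or.inr hq)⟩⟩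
      · rintro ⟨⟨h1, h2⟩, h3⟩
        exact ⟨fun q hq => hq.elim (h1 q) fun hq => (h3 hq).2, h2⟩
    rw [sum_congr rfl this, sum_comm]
    apply sum_congr rfl
    intro n _
    rw [← sum_filter]
    congr 1
    ext D
    simp only [mem_filter, mem_powerset, and_iff_right_iff_imp]
    exact fun h => h.trans (filter_subset _ _)
  have e2 := e1 (fun i => if i ≤ k then (-1 : ℝ) ^ i else 0)
  have e3 := e1 (fun i => if i = k + 1 then (1 : ℝ) else 0)
  simp only [ite_mul, zero_mul, one_mul] at e2 e3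
  rw [e0, e2, e3, ← sum_sub_distrib]
  exact (abs_sum_le_sum_abs _ _).trans (sum_le_sum fun n _ => bonf (T n) k)

lemma weight_sumd (δ : ℕ) (P : Finset ℕ) (t : ℝ) (ht : 0 ≤ t) :
    ∑ D ∈ P.powerset, t ^ #D * ∏ q ∈ D, rho δ q ≤ Real.exp (2 * t * ∑ p ∈ P, 1 / (p : ℝ)) := by
  refine le_trans (sum_le_sum ?_) (weight_sum P (2 * t) (by positivity))
  intro D _
  rw [mul_pow, mul_comm (2 ^ #D), mul_assoc, ← prod_const 2, ← prod_mul_distrib]
  exact mul_le_mul_of_nonneg_left (prod_le_prod (fun _ _ => rho_nonneg _ _) fun q _ => rho_le δ q)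
    (by positivity)

theorem fld_aux {δ : ℕ} (hδ : 2 ∣ δ) {K : ℝ} (hK : Real.exp 320 ≤ K) {d : ℕ} (hd : 2 * K ≤ 2 ^ d)
    (c : ℕ → ℕ) (x H : ℕ) (N : ℕ) : 1 ≤ N → ∀ (k : ℕ) (Q : Finset ℕ), (∀ q ∈ Q, q.Prime ∧ N < q) →
      |(cntd c δ x H Q N : ℝ) - H * (∏ q ∈ Q, rho δ q) * thd δ N| ≤
        2 * K / 2 ^ k * (H * (∏ q ∈ Q, rho δ q) * thd δ N) +
          2 ^ #Q * (N : ℝ) ^ (4 * (k + d + 1)) := by
  have hK0 : 0 < K := (Real.exp_pos _).trans_le hK
  induction N using Nat.strong_induction_on with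
  | _ N ih =>
  intro hN k Q hQ
  have hQ0 : 0 ≤ ∏ q ∈ Q, rho δ q := prod_nonneg fun _ _ => rho_nonneg _ _
  rcases hN.eq_or_lt with rfl | hN2
  · have := base_countd c δ x H Q (fun q hq => (hQ q hq).1) 0 1 one_pos (by simp)
    have e : thd δ 1 = 1 := by simp [thd]
    simp only [Nat.modEq_one, true_and, Nat.cast_one, div_one] at this
    simp only [e, mul_one, Nat.cast_one, one_pow, cntd, primesLE_one, notMem_empty,
      IsEmpty.forall_iff, implies_true, and_true]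
    have : 0 ≤ 2 * K / 2 ^ k * (H * ∏ q ∈ Q, rho δ q) := by positivity
    linarith
  have hs1 : 1 ≤ N.sqrt := Nat.le_sqrt.2 (by omega)
  have hs2 : N.sqrt < N := Nat.sqrt_lt_self hN2
  set P := primesLE N \ primesLE N.sqrt with hP
  have hPp : ∀ p ∈ P, p.Prime := fun p hp => prime_of_mem_primesLE (mem_sdiff.1 hp).1
  set m : ℝ := H * (∏ q ∈ Q, rho δ q) * thd δ N.sqrt with hm
  have hm0 : 0 ≤ m := by have := thd_pos hδ N.sqrt; positivity
  set w : Finset ℕ → ℝ := fun D => ∏ q ∈ D, rho δ q with hw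
  have hw0 : ∀ D, 0 ≤ w D := fun D => prod_nonneg fun _ _ => rho_nonneg _ _
  set ε : ℝ := 2 * K / 2 ^ (k + d) with hε
  have hε0 : 0 ≤ ε := by positivity
  set B : ℝ := 2 ^ #Q * 2 ^ (k + 1) * (N.sqrt : ℝ) ^ (4 * (k + d + d + 1)) with hB
  have hD : ∀ D ∈ P.powerset, #D ≤ k + 1 →
      |(cntd c δ x H (Q ∪ D) N.sqrt : ℝ) - m * w D| ≤ ε * (m * w D) + B := by
    intro D hD hD'
    have hdis : Disjoint Q D := by
      rw [disjoint_left]
      intro q hq hq'
      have := le_of_mem_primesLE (mem_sdiff.1 (mem_powerset.1 hD hq')).1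
      have := (hQ q hq).2
      omega
    have := ih N.sqrt hs2 hs1 (k + d) (Q ∪ D) (by
      intro q hq
      rcases mem_union.1 hq with h | h
      · exact ⟨(hQ q h).1, hs2.trans (hQ q h).2⟩
      · obtain ⟨h1, h2⟩ := mem_sdiff.1 (mem_powerset.1 hD h)
        refine ⟨prime_of_mem_primesLE h1, ?_⟩
        by_contra h
        exact h2 (mem_primesLE.2 ⟨by omega, prime_of_mem_primesLE h1⟩))
    rw [prod_union hdis, card_union_of_disjoint hdis, pow_add (2 : ℝ) #Q] at this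
    have e : H * ((∏ q ∈ Q, rho δ q) * ∏ q ∈ D, rho δ q) * thd δ N.sqrt = m * w D := by
      rw [hm, hw]; ring
    rw [e] at this
    refine this.trans (add_le_add le_rfl ?_)
    rw [hB]
    gcongr
    norm_num
  set V : ℝ := ∏ p ∈ P, (1 - rho δ p) with hV
  have hL := block_sum (N := N) hN2
  rw [← hP] at hL
  have hV1 : Real.exp (-192) ≤ V :=
    le_trans (Real.exp_le_exp.2 (by linarith)) (prod_facd_ge hδ hPp)
  have hV2 : V = ∑ D ∈ P.powerset, (-1 : ℝ) ^ #D * w D := by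
    have : ∀ D ∈ P.powerset, (-1 : ℝ) ^ #D * w D = ∏ q ∈ D, -(rho δ q) := by
      intro D _
      rw [hw, prod_neg]
    rw [sum_congr rfl this, ← prod_one_add, hV]
    simp only [sub_eq_add_neg]
  have hE : ∑ D ∈ P.powerset, w D ≤ Real.exp 128 := by
    have := weight_sumd δ P 1 zero_le_one
    simp only [one_pow, one_mul] at this
    exact this.trans (Real.exp_le_exp.2 (by linarith))
  have hτ : ∑ D ∈ P.powerset, (if #D ≤ k then 0 else w D) ≤ Real.exp 128 / 2 ^ (k + 1) := by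
    have := weight_sumd δ P 2 zero_le_two
    rw [le_div_iff₀ (by positivity), sum_mul]
    refine le_trans (sum_le_sum ?_) (this.trans (Real.exp_le_exp.2 (by linarith)))
    intro D _
    split_ifs with h
    · have := hw0 D
      rw [zero_mul]; positivity
    · rw [mul_comm]
      exact mul_le_mul_of_nonneg_right (pow_le_pow_right₀ one_le_two (by omega)) (hw0 D)
  have hstep := cntd_step c δ x H Q hs2.le k
  rw [← hP] at hstep
  have e1 : H * (∏ q ∈ Q, rho δ q) * thd δ N = m * V := by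
    rw [thd_split δ hs2.le, hm]; ring
  have hB0 : 0 ≤ B := by positivity
  have main : |(cntd c δ x H Q N : ℝ) - m * V| ≤ ∑ D ∈ P.powerset,
      (2 * m * (if #D ≤ k then 0 else w D) + ε * m * w D + if #D ≤ k + 1 then B else 0) := by
    refine (abs_sub_le _ _ _).trans ((add_le_add hstep le_rfl).trans ?_)
    rw [hV2, mul_sum, ← sum_sub_distrib]
    refine (add_le_add le_rfl (abs_sum_le_sum_abs _ _)).trans ?_
    rw [← sum_add_distrib]
    apply sum_le_sum
    intro D hD'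
    have h2 : 0 ≤ m * w D := mul_nonneg hm0 (hw0 D)
    have h3 : 0 ≤ ε * (m * w D) := mul_nonneg hε0 h2
    by_cases a1 : #D ≤ k
    · have h1 := hD D hD' (by omega)
      rw [if_neg (by omega), if_pos a1, if_pos a1, if_pos (by omega)]
      have : (-1 : ℝ) ^ #D * cntd c δ x H (Q ∪ D) N.sqrt - m * ((-1) ^ #D * w D) =
        (-1) ^ #D * (cntd c δ x H (Q ∪ D) N.sqrt - m * w D) := by ring
      rw [this, abs_mul, abs_pow, abs_neg, abs_one, one_pow]
      linarith
    · have : |(0 : ℝ) - m * ((-1) ^ #D * w D)| = m * w D := by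
        rw [zero_sub, abs_neg, abs_mul m, abs_of_nonneg hm0, abs_mul, abs_pow, abs_neg, abs_one,
          one_pow, one_mul, abs_of_nonneg (hw0 D)]
      rw [if_neg a1, if_neg a1, this]
      by_cases a2 : #D = k + 1
      · have h1 := hD D hD' (by omega)
        rw [if_pos a2, if_pos (by omega)]
        linarith [(abs_le.1 h1).2]
      · rw [if_neg a2, if_neg (by omega)]
        linarith
  rw [sum_add_distrib, sum_add_distrib, ← mul_sum, ← mul_sum, ← sum_filter, sum_const,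
    nsmul_eq_mul] at main
  rw [e1]
  refine main.trans (add_le_add ?_ ?_)
  · have k1 : Real.exp 128 ≤ K * V := by
      have : Real.exp 128 = Real.exp 320 * Real.exp (-192) := by rw [← Real.exp_add]; norm_num
      rw [this]
      exact mul_le_mul hK hV1 (Real.exp_pos _).le hK0.le
    have hV0 : 0 ≤ V := (Real.exp_pos _).le.trans hV1
    have k2 : 2 * m * ∑ D ∈ P.powerset, (if #D ≤ k then 0 else w D) ≤ K / 2 ^ k * (m * V) := by
      calc _ ≤ 2 * m * (K * V / 2 ^ (k + 1)) := by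
            apply mul_le_mul_of_nonneg_left (hτ.trans ?_) (by positivity)
            gcongr
        _ = _ := by rw [pow_succ]; field_simp
    have k3 : ε * m * ∑ D ∈ P.powerset, w D ≤ K / 2 ^ k * (m * V) := by
      have : ε ≤ 1 / 2 ^ k := by
        rw [hε, pow_add, div_le_div_iff₀ (by positivity) (by positivity), one_mul, mul_comm]
        gcongr
      calc _ ≤ 1 / 2 ^ k * m * (K * V) := by
            apply mul_le_mul (mul_le_mul_of_nonneg_right this hm0) (hE.trans k1)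
              (sum_nonneg fun D _ => hw0 D) (by positivity)
        _ = _ := by ring
    calc _ ≤ K / 2 ^ k * (m * V) + K / 2 ^ k * (m * V) := add_le_add k2 k3
      _ = _ := by ring
  · have k1 : (#{D ∈ P.powerset | #D ≤ k + 1} : ℝ) ≤ (N : ℝ) ^ (k + 1) := by
      exact_mod_cast card_small hN sdiff_subset (k + 1)
    have k2 : B ≤ 2 ^ #Q * (N : ℝ) ^ (k + 1) * (N : ℝ) ^ (2 * (k + d + d + 1)) := by
      rw [hB, show 4 * (k + d + d + 1) = 2 * (2 * (k + d + d + 1)) by ring, pow_mul]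
      have : (2 : ℝ) ≤ N := by exact_mod_cast hN2
      have : (N.sqrt : ℝ) ^ 2 ≤ N := by exact_mod_cast Nat.sqrt_le' N
      gcongr
    calc _ ≤ (N : ℝ) ^ (k + 1) * (2 ^ #Q * (N : ℝ) ^ (k + 1) * (N : ℝ) ^ (2 * (k + d + d + 1))) :=
          mul_le_mul k1 k2 hB0 (by positivity)
      _ = _ := by ring

/-- fundamental lemma -/
theorem fld {η : ℝ} (hη : 0 < η) : ∃ B : ℕ, 1 ≤ B ∧ ∀ δ, 2 ∣ δ → ∀ (c : ℕ → ℕ) (x H N : ℕ), 1 ≤ N →
      |(cntd c δ x H ∅ N : ℝ) - H * thd δ N| ≤ η * (H * thd δ N) + (N : ℝ) ^ B := by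
  obtain ⟨d, hd⟩ := pow_unbounded_of_one_lt (2 * Real.exp 320) (one_lt_two (α := ℝ))
  obtain ⟨k, hk⟩ := pow_unbounded_of_one_lt (2 * Real.exp 320 / η) (one_lt_two (α := ℝ))
  refine ⟨4 * (k + d + 1), by omega, fun δ hδ c x H N hN => ?_⟩
  have := fld_aux hδ le_rfl hd.le c x H N hN k ∅ (by simp)
  simp only [prod_empty, mul_one, card_empty, pow_zero, one_mul] at this
  refine this.trans (add_le_add ?_ le_rfl)
  apply mul_le_mul_of_nonneg_right
  · rw [div_lt_iff₀ hη] at hk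
    rw [div_le_iff₀ (by positivity)]
    linarith
  · have := thd_pos hδ N
    positivity

end Pool.Agent.Lib.MP_be93de_nt
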