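import Mathlib
import Pool.Agent.Lib.MP_b09185_nt.Key
import Pool.Agent.Lib.MP_be93de_nt.RsFL

/-! Concentration of the sieve counts for pairs. -/

namespace Pool.Agent.Lib.MP_be93de_nt

open Finset Nat MeasureTheory ProbabilityTheory
open Pool.Agent.Lib.MP_b09185_nt

lemma meas_cntd (δ x H N : ℕ) : Measurable fun ω : Om => (cntd (cl ω) δ x H ∅ N : ℝ) := by
  simp only [cntd, card_filter, Nat.cast_sum]
  apply Finset.measurable_sum
  intro n _
  simp only [notMem_empty, IsEmpty.forall_iff, implies_true, true_and, Nat.cast_ite]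
  refine Measurable.ite ?_ measurable_const measurable_const
  have : {ω : Om | ∀ q ∈ primesLE N, ¬ hit (cl ω) δ q n} =
      ⋂ q ∈ primesLE N, ({ω : Om | n ≡ cl ω q [MOD q]} ∪ {ω : Om | n + δ ≡ cl ω q [MOD q]})ᶜ := by
    ext ω; simp [hit]
  rw [this]
  exact Finset.measurableSet_biInter _ fun q _ => ((meas_hit q n).union (meas_hit q _)).compl

lemma cntd_congr {c c' : ℕ → ℕ} (δ x H : ℕ) {N : ℕ} (h : ∀ q ∈ primesLE N, c q = c' q) :
    cntd c δ x H ∅ N = cntd c' δ x H ∅ N := by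
  unfold cntd
  congr 1
  apply filter_congr
  intro n _
  simp only [notMem_empty, IsEmpty.forall_iff, implies_true, true_and]
  refine forall₂_congr fun q hq => ?_
  rw [hit, hit, h q hq]

lemma cntd_update_lt (ω : Om) (p : Nat.Primes) (v : ZMod p) (δ x H : ℕ) {N : ℕ} (h : N < p) :
    cntd (cl (Function.update ω p v)) δ x H ∅ N = cntd (cl ω) δ x H ∅ N :=
  cntd_congr δ x H fun q hq => cl_update_ne ω p v (by have := le_of_mem_primesLE hq; omega)

lemma cntd_le (c : ℕ → ℕ) (δ x H : ℕ) (Q : Finset ℕ) (N : ℕ) : cntd c δ x H Q N ≤ H :=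
  (card_filter_le _ _).trans (by simp)

lemma stepd (ω : Om) (δ x H N : ℕ) (p : Nat.Primes) (hN : (p : ℕ) = N + 1) (μ : ℝ)
    (hμ : |μ| * (2 * (H / (N + 1 : ℕ) + 1)) ≤ 1) :
    ∑ v, Real.exp (μ * cntd (cl (Function.update ω p v)) δ x H ∅ (N + 1)) ≤
      (N + 1 : ℕ) * Real.exp (μ * cntd (cl ω) δ x H ∅ N * (1 - rho δ (N + 1)) +
        μ ^ 2 * (2 * (H / (N + 1 : ℕ) + 1)) * (2 * H) / (N + 1 : ℕ)) := by
  classical
  have hp : (N + 1).Prime := hN ▸ p.2
  set A := {n ∈ Ioc x (x + H) | (∀ q ∈ (∅ : Finset ℕ), hit (cl ω) δ q n) ∧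
    ∀ q ∈ primesLE N, ¬ hit (cl ω) δ q n} with hA
  set B : ZMod p → Finset ℕ := fun v =>
    A.filter (fun n : ℕ => (n : ZMod p) = v ∨ ((n + δ : ℕ) : ZMod p) = v) with hB
  have e : ∀ v : ZMod p, (cntd (cl (Function.update ω p v)) δ x H ∅ (N + 1) : ℝ) =
      cntd (cl ω) δ x H ∅ N - #(B v) := by
    intro v
    rw [eq_sub_iff_add_eq, show cntd (cl ω) δ x H ∅ N = #A from rfl,
      ← card_filter_add_card_filter_not (s := A)
        (fun n : ℕ => (n : ZMod p) = v ∨ ((n + δ : ℕ) : ZMod p) = v), add_comm]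
    push_cast
    congr 2
    · simp [hB]
    rw [hA, filter_filter, cntd]
    congr 1
    apply filter_congr
    intro n _
    simp only [notMem_empty, IsEmpty.forall_iff, implies_true, true_and, primesLE_succ,
      if_pos hp, forall_mem_insert]
    rw [and_comm]
    apply and_congr
    · refine forall₂_congr fun q hq => ?_
      rw [hit, hit, cl_update_ne ω p v (by have := le_of_mem_primesLE hq; omega)]
    · have h1 := cl_iff (Function.update ω p v) p n
      have h2 := cl_iff (Function.update ω p v) p (n + δ)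
      rw [Function.update_self] at h1 h2
      rw [← hN, hit, h1, h2]
      push_cast
      rfl
  set r : ℝ := if (N + 1) ∣ δ then 1 else 2 with hr
  have hs : ∑ v, (#(B v) : ℝ) = r * #A := by
    simp only [hB, card_filter, Nat.cast_sum]
    rw [sum_comm, mul_comm, ← nsmul_eq_mul, ← sum_const]
    apply sum_congr rfl
    intro n _
    rw [← Nat.cast_sum, ← card_filter]
    have : ({v | (n : ZMod p) = v ∨ ((n + δ : ℕ) : ZMod p) = v} : Finset (ZMod p)) =
        {(n : ZMod p), ((n + δ : ℕ) : ZMod p)} := by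
      ext v; simp [eq_comm]
    rw [this, hr, ← hN]
    split_ifs with h
    · rw [Nat.cast_add, (ZMod.natCast_eq_zero_iff _ _).2 h]; simp
    · rw [card_pair]
      · norm_num
      · rw [Nat.cast_add]
        intro h'
        exact h ((ZMod.natCast_eq_zero_iff _ _).1 (by linear_combination -h'))
  have hq : (0 : ℝ) < (N + 1 : ℕ) := by positivity
  have := exp_avg (fun v : ZMod p => (#(B v) : ℝ)) (N + 1 : ℕ) (2 * (H / (N + 1 : ℕ) + 1))
    (r * #A) μ (by rw [ZMod.card, hN]) hq (fun v => by positivity) (by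
      intro v
      obtain ⟨c', e1, -⟩ := shift_class v.val δ p.2.pos
      have h1 := (abs_le.1 (class_count x H p v.val p.2.pos)).2
      have h1' := (abs_le.1 (class_count x H p c' p.2.pos)).2
      have h2 : #(B v) ≤ #{n ∈ Ioc x (x + H) | n ≡ v.val [MOD p]} +
          #{n ∈ Ioc x (x + H) | n ≡ c' [MOD p]} := by
        refine le_trans (card_le_card ?_) (card_union_le _ _)
        intro n hn
        obtain ⟨a1, a2⟩ := mem_filter.1 hn
        rw [mem_union, mem_filter, mem_filter, ← e1, ← ZMod.natCast_eq_natCast_iff,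
          ← ZMod.natCast_eq_natCast_iff, ZMod.natCast_zmod_val]
        exact a2.imp (fun h => ⟨(mem_filter.1 a1).1, h⟩) fun h => ⟨(mem_filter.1 a1).1, h⟩
      have h3 : (#(B v) : ℝ) ≤ #{n ∈ Ioc x (x + H) | n ≡ v.val [MOD p]} +
          #{n ∈ Ioc x (x + H) | n ≡ c' [MOD p]} := by exact_mod_cast h2
      rw [← hN]
      linarith) hs hμ
  simp only [e]
  have e2 : ∀ v, Real.exp (μ * ((cntd (cl ω) δ x H ∅ N : ℝ) - #(B v))) =
      Real.exp (μ * (#A - r * #A)) * Real.exp (μ * (r * #A - #(B v))) := by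
    intro v
    rw [← Real.exp_add, show cntd (cl ω) δ x H ∅ N = #A from rfl]
    congr 1; ring
  simp only [e2]
  rw [← mul_sum]
  refine (mul_le_mul_of_nonneg_left this (Real.exp_pos _).le).trans ?_
  rw [mul_left_comm, ← Real.exp_add]
  apply mul_le_mul_of_nonneg_left _ hq.le
  apply Real.exp_le_exp.2
  have a1 : r * #A ≤ 2 * H := by
    have : (#A : ℝ) ≤ H := by exact_mod_cast cntd_le (cl ω) δ x H ∅ N
    have : r ≤ 2 := by rw [hr]; split_ifs <;> norm_num
    gcongr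
  have a2 : μ ^ 2 * (2 * (H / (N + 1 : ℕ) + 1)) * (r * #A) / (N + 1 : ℕ) ≤
      μ ^ 2 * (2 * (H / (N + 1 : ℕ) + 1)) * (2 * H) / (N + 1 : ℕ) := by gcongr
  have a3 : μ * (#A - r * #A) + μ * (r * #A) * (1 - 1 / (N + 1 : ℕ)) =
      μ * #A * (1 - rho δ (N + 1)) := by
    rw [rho, ← hr]; ring
  rw [show cntd (cl ω) δ x H ∅ N = #A from rfl]
  linarith

lemma mgfd {δ : ℕ} (hδ : 2 ∣ δ) (x H w z : ℕ) (τ l : ℝ) (hw1 : 1 ≤ w) (hτ : (thd δ z)⁻¹ ≤ τ)
    (hl : |l| * τ * (2 * (H / w + 1)) ≤ 1) (N : ℕ) (hw : w ≤ N) : N ≤ z →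
      ∫⁻ ω, ENNReal.ofReal (Real.exp (l * (cntd (cl ω) δ x H ∅ N / thd δ N) -
        (l * (cntd (cl ω) δ x H ∅ w / thd δ w) + l ^ 2 * τ ^ 2 * (4 * H) *
          ∑ q ∈ primesLE N \ primesLE w, (H / (q : ℝ) + 1) / q))) ∂law ≤ 1 := by
  induction N, hw using Nat.le_induction with
  | base => intro _; simp
  | succ N hw ih =>
    intro hz
    by_cases hp : (N + 1).Prime
    swap
    · have e : primesLE (N + 1) = primesLE N := by rw [primesLE_succ, if_neg hp]
      have e2 : thd δ (N + 1) = thd δ N := by simp only [thd, e]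
      have e3 : ∀ c, cntd c δ x H ∅ (N + 1) = cntd c δ x H ∅ N := fun c => by simp only [cntd, e]
      simp only [e, e2, e3]
      exact ih (by omega)
    have e : primesLE (N + 1) = insert (N + 1) (primesLE N) := by rw [primesLE_succ, if_pos hp]
    have t1 := thd_pos hδ N
    have t2 := thd_pos hδ (N + 1)
    have e2 : thd δ (N + 1) = thd δ N * (1 - rho δ (N + 1)) := by
      rw [thd, e, prod_insert (notMem_primesLE N), mul_comm]; rfl
    have t3 : (thd δ (N + 1))⁻¹ ≤ τ := (inv_anti₀ (thd_pos hδ z) (thd_anti hδ hz)).trans hτ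
    rw [e, insert_sdiff_of_notMem _ (fun h => by have := le_of_mem_primesLE h; omega),
      sum_insert (fun h => notMem_primesLE N (mem_sdiff.1 h).1)]
    refine le_trans ?_ (ih (by omega))
    apply resample_le ⟨N + 1, hp⟩
    · have := meas_cntd δ x H (N + 1)
      have := meas_cntd δ x H w
      fun_prop
    intro ω
    have w0 : (0 : ℝ) < w := by exact_mod_cast hw1
    have w1 : (w : ℝ) ≤ (N + 1 : ℕ) := by exact_mod_cast (by omega : w ≤ N + 1)
    have hstep := stepd ω δ x H N ⟨N + 1, hp⟩ rfl (l / thd δ (N + 1)) (by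
      rw [abs_div, abs_of_pos t2, div_eq_mul_inv]
      refine le_trans ?_ hl
      have : 0 ≤ τ := (inv_pos.2 t2).le.trans t3
      gcongr)
    simp only [cntd_update_lt ω ⟨N + 1, hp⟩ _ δ x H (show w < N + 1 by omega), Real.exp_sub,
      ← sum_div]
    have e3 : ∀ y : ℝ, l * (y / thd δ (N + 1)) = l / thd δ (N + 1) * y := fun y => by ring
    simp only [e3]
    rw [div_le_iff₀ (Real.exp_pos _)]
    refine hstep.trans ?_
    rw [← Real.exp_sub, mul_assoc ((_ : ℕ) : ℝ), ← Real.exp_add]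
    apply mul_le_mul_of_nonneg_left _ (by positivity)
    apply Real.exp_le_exp.2
    set A : ℝ := (cntd (cl ω) δ x H ∅ N : ℝ)
    have hf := facd_pos hδ hp
    have a1 : l / thd δ (N + 1) * A * (1 - rho δ (N + 1)) = l * (A / thd δ N) := by
      rw [e2]
      generalize 1 - rho δ (N + 1) = u at hf
      field_simp
    have a2 : (l / thd δ (N + 1)) ^ 2 ≤ l ^ 2 * τ ^ 2 := by
      rw [div_eq_mul_inv, mul_pow]
      gcongr
    have a3 : (l / thd δ (N + 1)) ^ 2 * (2 * (H / (N + 1 : ℕ) + 1)) * (2 * H) / (N + 1 : ℕ) ≤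
        l ^ 2 * τ ^ 2 * (2 * (H / (N + 1 : ℕ) + 1)) * (2 * H) / (N + 1 : ℕ) := by gcongr
    have a4 : l ^ 2 * τ ^ 2 * (2 * (H / (N + 1 : ℕ) + 1)) * (2 * H) / (N + 1 : ℕ) =
        l ^ 2 * τ ^ 2 * (4 * H) * ((H / (N + 1 : ℕ) + 1) / (N + 1 : ℕ)) := by ring
    rw [a1]
    linarith

lemma thd_inv_le {δ : ℕ} (hδ : 2 ∣ δ) (z : ℕ) : (thd δ z)⁻¹ ≤ (th z)⁻¹ ^ 6 := by
  have h1 := prod_facd_ge hδ (P := primesLE z) fun _ hp => prime_of_mem_primesLE hp
  have h2 := sum_le_log z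
  have t := th_pos z
  refine (inv_anti₀ (Real.exp_pos _) h1).trans ?_
  rw [← Real.exp_neg, neg_neg, ← Real.exp_log (inv_pos.2 t), ← Real.exp_nat_mul]
  apply Real.exp_le_exp.2
  push_cast
  linarith

theorem taild {δ : ℕ} (hδ : 2 ∣ δ) (x H w z : ℕ) (L : ℝ) (hw1 : 1 ≤ w) (hwz : w ≤ z)
    (hL : (th z)⁻¹ ≤ L) (hH : L * w ≤ H) {ε : ℝ} (hε : 0 < ε) (hε' : ε ≤ 1) :
    law {ω | ε * H ≤ |cntd (cl ω) δ x H ∅ z / thd δ z - cntd (cl ω) δ x H ∅ w / thd δ w|} ≤
      2 * ENNReal.ofReal (Real.exp (-(ε ^ 2 * w / (32 * L ^ 12)))) := by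
  have L1 : 1 ≤ L := le_trans (one_le_inv₀ (th_pos z) |>.2 (th_le_one z)) hL
  have w0 : (1 : ℝ) ≤ w := by exact_mod_cast hw1
  have hwH : (w : ℝ) ≤ H := by nlinarith
  have H0 : (0 : ℝ) < H := by linarith
  set τ := L ^ 6 with hτ
  have τ1 : 1 ≤ τ := one_le_pow₀ L1
  have hτ' : (thd δ z)⁻¹ ≤ τ :=
    (thd_inv_le hδ z).trans (pow_le_pow_left₀ (inv_pos.2 (th_pos z)).le hL 6)
  set S := ∑ q ∈ primesLE z \ primesLE w, (H / (q : ℝ) + 1) / q with hS
  have hS1 : S ≤ 2 * (H / w) := by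
    have a1 : S = H * ∑ q ∈ primesLE z \ primesLE w, ((q : ℝ) ^ 2)⁻¹ +
        ∑ q ∈ primesLE z \ primesLE w, 1 / (q : ℝ) := by
      rw [mul_sum, ← sum_add_distrib]
      exact sum_congr rfl fun q _ => by ring
    have a2 : ∑ q ∈ primesLE z \ primesLE w, ((q : ℝ) ^ 2)⁻¹ ≤ (w : ℝ)⁻¹ := by
      have b1 := sum_Ioc_inv_sq_le_sub (α := ℝ) (k := w) (n := z) (by omega) hwz
      have b2 : (0 : ℝ) ≤ (z : ℝ)⁻¹ := by positivity
      refine le_trans (sum_le_sum_of_subset_of_nonneg ?_ fun _ _ _ => by positivity)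
        (b1.trans (by linarith))
      intro q hq
      obtain ⟨b1, b2⟩ := Finset.mem_sdiff.1 hq
      refine mem_Ioc.2 ⟨?_, le_of_mem_primesLE b1⟩
      by_contra h
      exact b2 (mem_primesLE.2 ⟨by omega, prime_of_mem_primesLE b1⟩)
    have a3 : ∑ q ∈ primesLE z \ primesLE w, 1 / (q : ℝ) ≤ L :=
      le_trans (sum_le_sum_of_subset_of_nonneg sdiff_subset fun _ _ _ => by positivity)
        ((sum_le_log z).trans ((Real.log_le_self (inv_pos.2 (th_pos z)).le).trans hL))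
    have a4 : L ≤ H / w := by rwa [le_div_iff₀ (by linarith)]
    have a5 := mul_le_mul_of_nonneg_left a2 H0.le
    rw [a1, div_eq_mul_inv] at *
    linarith
  have key : ∀ σ : ℝ, |σ| = 1 →
      law {ω | ε * H ≤ σ * (cntd (cl ω) δ x H ∅ z / thd δ z - cntd (cl ω) δ x H ∅ w / thd δ w)} ≤
        ENNReal.ofReal (Real.exp (-(ε ^ 2 * w / (32 * L ^ 12)))) := by
    intro σ hσ
    have hσ2 : σ ^ 2 = 1 := by rw [← sq_abs, hσ]; norm_num
    set l : ℝ := ε * w / (16 * τ ^ 2 * H) with hl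
    have hl0 : 0 < l := by positivity
    have hm := mgfd hδ x H w z τ (σ * l) hw1 hτ' (by
      rw [abs_mul, hσ, one_mul, abs_of_pos hl0]
      have a1 : 1 ≤ (H : ℝ) / w := by rwa [one_le_div (by linarith)]
      calc _ ≤ l * τ * (2 * (H / w + H / w)) := by gcongr
        _ = ε / (4 * τ) := by rw [hl]; field_simp; ring
        _ ≤ 1 := by rw [div_le_one (by positivity)]; linarith) z hwz le_rfl
    rw [← hS] at hm
    have hf : Measurable fun ω : Om => ENNReal.ofReal (Real.exp (σ * l *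
        (cntd (cl ω) δ x H ∅ z / thd δ z) - (σ * l * (cntd (cl ω) δ x H ∅ w / thd δ w) +
          (σ * l) ^ 2 * τ ^ 2 * (4 * H) * S))) := by
      have := meas_cntd δ x H z
      have := meas_cntd δ x H w
      fun_prop
    have := meas_ge_le_lintegral_div (μ := law) hf.aemeasurable
      (ε := ENNReal.ofReal (Real.exp (ε ^ 2 * w / (32 * L ^ 12))))
      (by simp [Real.exp_pos]) ENNReal.ofReal_ne_top
    refine le_trans (measure_mono ?_) (this.trans ?_)
    · intro ω hω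
      simp only [Set.mem_ofPred_eq] at hω ⊢
      apply ENNReal.ofReal_le_ofReal
      apply Real.exp_le_exp.2
      have a2 : (σ * l) ^ 2 * τ ^ 2 * (4 * H) * S ≤ l ^ 2 * τ ^ 2 * (4 * H) * (2 * (H / w)) := by
        rw [mul_pow, hσ2, one_mul]; gcongr
      have a3 : ε ^ 2 * w / (32 * L ^ 12) =
          l * (ε * H) - l ^ 2 * τ ^ 2 * (4 * H) * (2 * (H / w)) := by
        rw [hl, show L ^ 12 = τ ^ 2 by rw [hτ]; ring]; field_simp; ring
      have a4 := mul_le_mul_of_nonneg_left hω hl0.le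
      rw [a3]
      nlinarith
    · rw [Real.exp_neg, ENNReal.ofReal_inv_of_pos (Real.exp_pos _), ← one_div]
      exact ENNReal.div_le_div_right hm _
  rw [two_mul]
  refine le_trans (measure_mono ?_) ((measure_union_le _ _).trans
    (add_le_add (key 1 abs_one) (key (-1) (by simp))))
  intro ω hω
  simp only [Set.mem_ofPred_eq, Set.mem_union, one_mul, neg_one_mul] at hω ⊢
  exact le_abs.1 hω

theorem window {ε : ℝ} (hε : 0 < ε) (hε' : ε ≤ 1) : ∃ B : ℕ, 1 ≤ B ∧ ∀ δ, 2 ∣ δ →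
    ∀ (x w z : ℕ) (L : ℝ), w ≤ z → (th z)⁻¹ ≤ L → 3 * L ^ 6 ≤ ε * w →
    law {ω | ε * (((w ^ (B + 1) : ℕ) : ℝ) * thd δ z) <
        |cntd (cl ω) δ x (w ^ (B + 1)) ∅ z - ((w ^ (B + 1) : ℕ) : ℝ) * thd δ z|} ≤
      2 * ENNReal.ofReal (Real.exp (-(ε ^ 2 * w / (288 * L ^ 12)))) := by
  obtain ⟨B, hB1, hB⟩ := fld (show 0 < ε / 3 by positivity)
  refine ⟨B, hB1, fun δ hδ x w z L hwz hL hw => ?_⟩
  have L1 : 1 ≤ L := le_trans (one_le_inv₀ (th_pos z) |>.2 (th_le_one z)) hL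
  have L6 : L ≤ L ^ 6 := le_self_pow₀ L1 (by norm_num)
  have w0 : (0 : ℝ) ≤ w := Nat.cast_nonneg _
  have w1 : L ≤ w := by nlinarith
  have w2 : 1 ≤ w := by exact_mod_cast L1.trans w1
  have w3 : (w : ℝ) ≤ w ^ B := le_self_pow₀ (L1.trans w1) (by omega)
  set H := w ^ (B + 1) with hH
  have eH : (H : ℝ) = w ^ B * w := by rw [hH]; push_cast; ring
  have := taild hδ x H w z L w2 hwz hL (by rw [eH]; gcongr; linarith)
    (show 0 < ε / 3 by positivity) (by linarith)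
  rw [show (ε / 3) ^ 2 * w / (32 * L ^ 12) = ε ^ 2 * w / (288 * L ^ 12) by ring] at this
  refine le_trans (measure_mono ?_) this
  intro ω hω
  simp only [Set.mem_ofPred_eq] at hω ⊢
  have tz := thd_pos hδ z
  have tw := thd_pos hδ w
  have h1 := hB δ hδ (cl ω) x H w w2
  have h2 : (thd δ w)⁻¹ ≤ L ^ 6 := (inv_anti₀ tz (thd_anti hδ hwz)).trans
    ((thd_inv_le hδ z).trans (pow_le_pow_left₀ (inv_pos.2 (th_pos z)).le hL 6))
  have h3 : (w : ℝ) ^ B ≤ ε / 3 * (H * thd δ w) := by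
    rw [inv_le_iff_one_le_mul₀ tw] at h2
    calc (w : ℝ) ^ B ≤ w ^ B * (L ^ 6 * thd δ w) := le_mul_of_one_le_right (by positivity) h2
      _ ≤ w ^ B * (ε * w / 3 * thd δ w) := by gcongr; linarith
      _ = _ := by rw [eH]; ring
  have h4 : |cntd (cl ω) δ x H ∅ w / thd δ w - H| ≤ 2 * (ε / 3) * H := by
    rw [div_sub' tw.ne', abs_div, abs_of_pos tw, div_le_iff₀ tw, mul_comm (thd δ w)]
    linarith
  have h5 : ε * H < |cntd (cl ω) δ x H ∅ z / thd δ z - H| := by
    rw [div_sub' tz.ne', abs_div, abs_of_pos tz, lt_div_iff₀ tz, mul_comm (thd δ z)]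
    linarith
  have h6 := abs_sub_le (cntd (cl ω) δ x H ∅ z / thd δ z) (cntd (cl ω) δ x H ∅ w / thd δ w) H
  linarith

end Pool.Agent.Lib.MP_be93de_nt
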