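import Mathlib
import Pool.Agent.Lib.MP_b09185_nt.FL

/-! An explicit upper bound in Mertens' product with constant below 2. -/

namespace Pool.Agent.Lib.MP_be93de_nt

open Finset Nat Filter
open Pool.Agent.Lib.MP_6a20cc_nt Pool.Agent.Lib.MP_b09185_nt

lemma rs_zeta_le {σ : ℝ} (hσ : 0 < σ) (M : ℕ) :
    ∑ n ∈ range (M + 2), (n : ℝ) ^ (-(1 + σ)) ≤ 1 + (1 - ((M + 1 : ℕ) : ℝ) ^ (-σ)) / σ := by
  induction M with
  | zero =>
    simp [sum_range_succ, Real.zero_rpow (show -σ + -1 ≠ 0 by linarith)]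
  | succ M ih =>
    rw [sum_range_succ]
    refine (add_le_add ih le_rfl).trans ?_
    set a : ℝ := ((M + 1 : ℕ) : ℝ) with ha
    have a0 : 0 < a := by rw [ha]; positivity
    have e : ((M + 1 + 1 : ℕ) : ℝ) = a + 1 := by rw [ha]; push_cast; ring
    rw [e]
    have h1 : 1 / (a + 1) ≤ Real.log (a + 1) - Real.log a := by
      rw [← Real.log_div (by positivity) a0.ne']
      have := Real.one_sub_inv_le_log_of_pos (show 0 < (a + 1) / a by positivity)
      refine le_trans (le_of_eq ?_) this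
      field_simp; ring
    have h2 : a ^ (-σ) = (a + 1) ^ (-σ) * Real.exp (σ * (Real.log (a + 1) - Real.log a)) := by
      rw [Real.rpow_def_of_pos a0, Real.rpow_def_of_pos (by positivity), ← Real.exp_add]
      congr 1; ring
    have h3 := Real.add_one_le_exp (σ * (Real.log (a + 1) - Real.log a))
    have h4 : (a + 1) ^ (-(1 + σ)) = (a + 1) ^ (-σ) * (1 / (a + 1)) := by
      rw [show -(1 + σ) = -σ + -1 by ring, Real.rpow_add (by positivity), Real.rpow_neg_one, one_div]
    have h5 : 0 < (a + 1) ^ (-σ) := by positivity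
    rw [h4, h2]
    set b := (a + 1) ^ (-σ)
    set t := Real.log (a + 1) - Real.log a
    have h6 : b * (σ * t + 1) ≤ b * Real.exp (σ * t) := by gcongr
    have h7 : b * (1 / (a + 1)) ≤ b * t := by gcongr
    have h8 : (1 - b * Real.exp (σ * t)) / σ + b * t ≤ (1 - b) / σ := by
      rw [div_add' _ _ _ hσ.ne', div_le_div_iff_of_pos_right hσ]
      linarith
    linarith

lemma rs_euler {σ : ℝ} (hσ : 0 < σ) (N : ℕ) :
    ∏ p ∈ primesLE N, (1 - (p : ℝ) ^ (-(1 + σ)))⁻¹ ≤ 1 + 1 / σ := by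
  let f : ℕ →* ℝ :=
    { toFun := fun n => (n : ℝ) ^ (-(1 + σ))
      map_one' := by simp
      map_mul' := fun a b => by
        push_cast
        exact Real.mul_rpow (Nat.cast_nonneg _) (Nat.cast_nonneg _) }
  have hs : Summable f := Real.summable_nat_rpow.2 (by linarith)
  have h := EulerProduct.prod_primesBelow_geometric_eq_tsum_smoothNumbers hs (N + 1)
  have h0 : ∀ n, 0 ≤ f n := fun n => Real.rpow_nonneg (Nat.cast_nonneg _) _
  refine le_trans (le_of_eq h) ?_
  refine le_trans (hs.tsum_subtype_le _ _ h0) ?_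
  apply Real.tsum_le_of_sum_range_le h0
  intro M
  refine le_trans (sum_le_sum_of_subset_of_nonneg (range_mono (by omega : M ≤ M + 2))
    fun i _ _ => h0 i) ((rs_zeta_le hσ M).trans ?_)
  have : 0 ≤ ((M + 1 : ℕ) : ℝ) ^ (-σ) := by positivity
  gcongr
  linarith

lemma rs_phi {s : ℝ} (h0 : 0 ≤ s) (h1 : s ≤ 1) :
    1 - Real.exp (-(2 * s)) ≤ 2 * s * (-(1 / 6) + 4 / 3 / (1 + s) - 1 / 6 / (1 + s) ^ 2) := by
  have h := (abs_le.1 (Real.exp_bound (x := -s) (by rwa [abs_neg, abs_of_nonneg h0])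
    (n := 5) (by norm_num))).1
  rw [abs_neg, abs_of_nonneg h0] at h
  simp only [sum_range_succ, range_zero, sum_empty, Nat.factorial] at h
  norm_num at h
  have q : 1 - s + s ^ 2 / 2 - s ^ 3 / 6 ≤ Real.exp (-s) := by
    have : s ^ 5 ≤ s ^ 4 := pow_le_pow_of_le_one h0 h1 (by norm_num)
    have : 0 ≤ s ^ 4 := by positivity
    nlinarith
  have q0 : 0 ≤ 1 - s + s ^ 2 / 2 - s ^ 3 / 6 := by
    have : s ^ 3 ≤ s ^ 2 := pow_le_pow_of_le_one h0 h1 (by norm_num)
    have : 0 ≤ s ^ 2 := by positivity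
    linarith
  have e : Real.exp (-(2 * s)) = Real.exp (-s) ^ 2 := by
    rw [← Real.exp_nat_mul]; congr 1; push_cast; ring
  have h2 := pow_le_pow_left₀ q0 q 2
  have e2 : 2 * s * (-(1 / 6) + 4 / 3 / (1 + s) - 1 / 6 / (1 + s) ^ 2) =
      1 - (1 - s ^ 2 + s ^ 3 / 3) / (1 + s) ^ 2 := by
    field_simp; ring
  rw [e, e2, sub_le_sub_iff_left]
  refine le_trans ?_ h2
  rw [div_le_iff₀ (by positivity)]
  have e3 : (1 - s + s ^ 2 / 2 - s ^ 3 / 6) ^ 2 * (1 + s) ^ 2 = (1 - s ^ 2 + s ^ 3 / 3) +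
      s ^ 3 * (1 / 3 - s / 12 - s ^ 2 / 3 + 5 / 18 * s ^ 3 - s ^ 4 / 9 + s ^ 5 / 36) := by ring
  rw [e3, le_add_iff_nonneg_right]
  apply mul_nonneg (by positivity)
  have a1 : s ^ 4 ≤ s ^ 3 := pow_le_pow_of_le_one h0 h1 (by norm_num)
  have a2 : 0 ≤ s ^ 5 := by positivity
  nlinarith [mul_nonneg h0 (sq_nonneg (s - 1)), sq_nonneg (s - 1)]

lemma rs_factor {σ : ℝ} (hσ : 0 < σ) {p : ℕ} (hp : p.Prime) :
    (1 - 1 / (p : ℝ))⁻¹ ≤ (1 - (p : ℝ) ^ (-(1 + σ)))⁻¹ *
      Real.exp ((1 - Real.exp (-(σ * Real.log p))) / p + σ * (Real.log p / (p * (p - 1)))) := by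
  have h2 : (2 : ℝ) ≤ p := by exact_mod_cast hp.two_le
  have e : (p : ℝ) ^ (-(1 + σ)) = Real.exp (-(σ * Real.log p)) / p := by
    rw [show -(1 + σ) = -σ + -1 by ring, Real.rpow_add (by positivity), Real.rpow_neg_one,
      Real.rpow_def_of_pos (by positivity), div_eq_mul_inv]
    congr 2; ring
  rw [e]
  set u := Real.exp (-(σ * Real.log p)) with hu
  have l0 := Real.log_natCast_nonneg p
  have u1 : u ≤ 1 := Real.exp_le_one_iff.2 (by have := mul_nonneg hσ.le l0; linarith)
  have u2 : 1 - u ≤ σ * Real.log p := by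
    have := Real.add_one_le_exp (-(σ * Real.log p)); linarith
  have u3 : 0 < 1 - u / p := by
    have : u / p ≤ 1 / 2 := by
      rw [div_le_div_iff₀ (by positivity) (by norm_num)]; linarith
    linarith
  rw [← div_eq_inv_mul, le_div_iff₀ u3]
  refine le_trans ?_ (Real.add_one_le_exp _)
  have p1 : (0 : ℝ) < p - 1 := by linarith
  have e1 : (1 - 1 / (p : ℝ))⁻¹ * (1 - u / p) = (1 - u) / p + (1 - u) * (1 / (p * (p - 1))) + 1 := by
    field_simp; ring
  rw [e1]
  have : (1 - u) * (1 / (p * (p - 1))) ≤ σ * Real.log p * (1 / (p * (p - 1))) := by gcongr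
  have e2 : σ * (Real.log p / (p * (p - 1))) = σ * Real.log p * (1 / (p * (p - 1))) := by ring
  linarith

theorem th_inv_sharp : ∀ᶠ N : ℕ in atTop, (th N)⁻¹ ≤ 1.95 * Real.log N := by
  have tl : Tendsto (fun N : ℕ => Real.log N) atTop atTop :=
    Real.tendsto_log_atTop.comp tendsto_natCast_atTop_atTop
  filter_upwards [tl.eventually_ge_atTop 100000] with N hN
  set a : ℝ := 1 / Real.log N with ha
  have a0 : 0 < a := by positivity
  have a1 : a * Real.log N = 1 := by rw [ha]; field_simp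
  have a2 : a ≤ 1 / 100000 := one_div_le_one_div_of_le (by norm_num) hN
  have h1 : (th N)⁻¹ ≤ (∏ p ∈ primesLE N, (1 - (p : ℝ) ^ (-(1 + 2 * a)))⁻¹) *
      Real.exp (∑ p ∈ primesLE N, ((1 - Real.exp (-(2 * a * Real.log p))) / p +
        2 * a * (Real.log p / (p * (p - 1))))) := by
    rw [th, ← prod_inv_distrib, Real.exp_sum, ← prod_mul_distrib]
    exact prod_le_prod (fun p hp => (inv_pos.2 (factor_pos (prime_of_mem_primesLE hp))).le)
      fun p hp => rs_factor (by positivity) (prime_of_mem_primesLE hp)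
  have h2 := rs_euler (σ := 2 * a) (by positivity) N
  have h3 : ∑ p ∈ primesLE N, Real.log p / ((p : ℝ) * (p - 1)) ≤ 8 := by
    have := tail_bound N
    simp only [ite_self, add_zero] at this
    have t0 : 0 ≤ 8 / √(N : ℝ) := by positivity
    refine le_trans ?_ (this.trans (by linarith))
    rw [primesLE_eq_filter_range, sum_filter]
    apply sum_le_sum
    intro m _
    split_ifs with b1 b2 b2
    · exact le_rfl
    · exact absurd b1.two_le b2
    · have : (2 : ℝ) ≤ m := by exact_mod_cast b2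
      have := Real.log_natCast_nonneg m
      have : (0 : ℝ) < m - 1 := by linarith
      positivity
    · exact le_rfl
  have h4 : ∑ p ∈ primesLE N, (1 - Real.exp (-(2 * a * Real.log p))) / p ≤
      ∑ p ∈ primesLE N, (-(a / 3) * (Real.log p / p) +
        8 / 3 * (Real.log p / p * (a / (1 + a * Real.log p))) -
        1 / 3 * (Real.log p / p * (a / (1 + a * Real.log p) ^ 2))) := by
    apply sum_le_sum
    intro p hp
    have p0 : (0 : ℝ) < p := by exact_mod_cast (prime_of_mem_primesLE hp).pos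
    have l0 := Real.log_natCast_nonneg p
    have l1 : Real.log p ≤ Real.log N :=
      Real.log_le_log p0 (by exact_mod_cast le_of_mem_primesLE hp)
    have := rs_phi (s := a * Real.log p) (by positivity) (by nlinarith)
    rw [← mul_assoc] at this
    refine (div_le_div_of_nonneg_right this p0.le).trans (le_of_eq ?_)
    have : 0 < 1 + a * Real.log p := by positivity
    field_simp; ring
  rw [sum_sub_distrib, sum_add_distrib, ← mul_sum, ← mul_sum, ← mul_sum] at h4
  have s0 := sum0_lower N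
  have s1 := sum1_upper a a0 N
  have s2 := sum2_lower a a0 N
  have l1 := log_succ_ge N
  have s3 : 1 / (1 + a * Real.log ((N + 1 : ℕ) : ℝ)) ≤ 1 / 2 :=
    one_div_le_one_div_of_le (by norm_num) (by nlinarith)
  rw [a1] at s1
  have s4 : 1 - 10 * a ≤ a * ∑ p ∈ primesLE N, Real.log p / p := by nlinarith
  have h5 : ∑ p ∈ primesLE N, ((1 - Real.exp (-(2 * a * Real.log p))) / p +
        2 * a * (Real.log p / (p * (p - 1)))) ≤ 1 + 0.35 := by
    rw [sum_add_distrib, ← mul_sum]
    have := Real.log_two_lt_d9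
    have : 2 * a * ∑ p ∈ primesLE N, Real.log p / ((p : ℝ) * (p - 1)) ≤ 2 * a * 8 := by gcongr
    norm_num at s1
    linarith
  have h6 : Real.exp (1 + 0.35) ≤ 3.87 := by
    rw [Real.exp_add]
    have b1 := Real.exp_one_lt_d9
    have b2 := Real.exp_bound' (x := 0.35) (by norm_num) (by norm_num) (n := 4) (by norm_num)
    simp only [sum_range_succ, range_zero, sum_empty, Nat.factorial] at b2
    norm_num at b2
    have b3 : Real.exp 0.35 ≤ 1.42 := by norm_num; linarith
    exact (mul_le_mul b1.le b3 (Real.exp_pos _).le (by norm_num)).trans (by norm_num)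
  have h7 : 1 / (2 * a) = Real.log N / 2 := by rw [ha]; field_simp
  rw [h7] at h2
  calc _ ≤ _ := h1
    _ ≤ (1 + Real.log N / 2) * 3.87 := by
      apply mul_le_mul h2 ((Real.exp_le_exp.2 h5).trans h6) (Real.exp_pos _).le (by positivity)
    _ ≤ _ := by linarith

end Pool.Agent.Lib.MP_be93de_nt
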