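import Mathlib
import Pool.Agent.Lib.MP_be93de_nt.RsAbs
import Pool.Agent.Lib.MP_be93de_nt.RsConc
import Pool.Agent.Lib.MP_be93de_nt.RsMertens

/-! The conditional success probability in the random sieve. -/

namespace Pool.Agent.Lib.MP_be93de_nt

open Finset Nat Filter
open Pool.Agent.Lib.MP_b09185_nt

/-- sieving level at `n` -/
noncomputable def zz (n : ℕ) : ℕ := zc (Real.log n)

lemma one_le_log {n : ℕ} (hn : 8 ≤ n) : 1 ≤ Real.log n := by
  rw [Real.le_log_iff_exp_le (by positivity)]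
  have : (8 : ℝ) ≤ n := by exact_mod_cast hn
  linarith [Real.exp_one_lt_d9]

lemma zz_mono {m n : ℕ} (hm : 8 ≤ m) (h : m ≤ n) : zz m ≤ zz n :=
  zc_mono (one_le_log hm) (Real.log_le_log (by positivity) (by exact_mod_cast h))

/-- survivor of the primes up to `u` -/
def Sv (ω : Om) (u n : ℕ) : Prop := ∀ p : Nat.Primes, (p : ℕ) ≤ u → (n : ZMod p) ≠ ω p

lemma sv_iff (ω : Om) (u n : ℕ) : Sv ω u n ↔ ∀ q ∈ primesLE u, ¬ n ≡ cl ω q [MOD q] := by
  simp only [mem_primesLE]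
  constructor
  · rintro h q ⟨h2, h3⟩ h4
    exact h ⟨q, h3⟩ h2 ((cl_iff ω ⟨q, h3⟩ n).1 h4)
  · intro h p h2 h3
    exact h p ⟨h2, p.2⟩ ((cl_iff ω p n).2 h3)

lemma mem_iff (ω : Om) (n : ℕ) : n ∈ model ω ↔ 8 ≤ n ∧ Sv ω (zz n) n := by
  constructor
  · exact fun h => ⟨h.1, (sv_iff _ _ _).2 ((mem_model ω h.1).1 h)⟩
  · exact fun h => (mem_model ω h.1).2 ((sv_iff _ _ _).1 h.2)

open Classical in
lemma cntd_zero (ω : Om) (e h u : ℕ) :
    cntd (cl ω) 0 e h ∅ u = #{n ∈ Ioc e (e + h) | Sv ω u n} := by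
  simp [cntd, hit, sv_iff]

open Classical in
lemma cntd_two (ω : Om) (e h u : ℕ) :
    cntd (cl ω) 2 e h ∅ u = #{n ∈ Ioc e (e + h) | Sv ω u n ∧ Sv ω u (n + 2)} := by
  simp only [cntd, hit, sv_iff, not_or, notMem_empty, IsEmpty.forall_iff, implies_true, true_and,
    imp_and, forall_and]

open Classical in
/-- rank -/
noncomputable def rk (ω : Om) (t : ℕ) : ℕ := #{n ∈ Ioc 0 t | n ∈ model ω}

/-- the element of rank `m` is the lower member of a pair -/
def Succ (m : ℕ) (ω : Om) : Prop := ∃ t, t ∈ model ω ∧ rk ω t = m ∧ t + 2 ∈ model ω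

/-- regular windows -/
def Good (ε : ℝ) (h Y y : ℕ) (ω : Om) : Prop := ∀ e ≤ Y, ∀ δ ∈ ({0, 2} : Finset ℕ),
  |cntd (cl ω) δ e h ∅ (zz y) - h * thd δ (zz y)| ≤ ε * (h * thd δ (zz y))

/-- the fresh primes -/
def Qs (u z : ℕ) : Finset Nat.Primes := (primesLE z \ primesLE u).subtype Nat.Prime

lemma mem_Qs {u z : ℕ} {p : Nat.Primes} : p ∈ Qs u z ↔ u < p ∧ (p : ℕ) ≤ z := by
  have := p.2
  refine Finset.mem_subtype.trans ?_
  simp only [Finset.mem_sdiff, mem_primesLE]
  constructor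
  · rintro ⟨h1, h2⟩
    exact ⟨not_le.1 fun h => h2 ⟨h, p.2⟩, h1.1⟩
  · rintro ⟨h1, h2⟩
    exact ⟨⟨h2, p.2⟩, fun h => absurd h.1 (not_le.2 h1)⟩

lemma sum_Qs (u z : ℕ) (f : ℕ → ℝ) :
    ∑ i : Qs u z, f (i.1 : ℕ) = ∑ q ∈ primesLE z \ primesLE u, f q :=
  (sum_coe_sort (Qs u z) (fun p => f p)).trans
    (sum_subtype_of_mem f fun _ h => prime_of_mem_primesLE (Finset.mem_sdiff.1 h).1)

lemma th_up {y : ℕ} (hy : 8 ≤ y) (h : 1 ≤ zz y) : Real.log y * th (zz y) ≤ 1 + 1 / zz y := by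
  have h1 := (zc_bounds (one_le_log hy)).2
  have h2 : (0 : ℝ) < zz y := by exact_mod_cast h
  rw [one_add_div h2.ne', le_div_iff₀ h2]
  exact h1

lemma th_lo {y : ℕ} (hy : 8 ≤ y) : 1 ≤ Real.log y * th (zz y) := (zc_bounds (one_le_log hy)).1

lemma lam_up {y d : ℕ} (hy : 8 ≤ y) (h : 1 ≤ zz y) :
    ∑ q ∈ primesLE (zz (y + d)) \ primesLE (zz y), 1 / (q : ℝ) ≤
      (1 + 1 / zz y) * (1 + d / y) - 1 := by
  have h1 := th_up hy h
  have h2 := th_lo (y := y + d) (by omega)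
  have h3 := th_split (zz_mono hy (Nat.le_add_right y d))
  set P := primesLE (zz (y + d)) \ primesLE (zz y)
  have hP : ∀ p ∈ P, p.Prime := fun _ h => prime_of_mem_primesLE (Finset.mem_sdiff.1 h).1
  have h4 : ∏ p ∈ P, (1 - 1 / (p : ℝ)) ≤ Real.exp (-∑ p ∈ P, 1 / (p : ℝ)) := by
    rw [← sum_neg_distrib, Real.exp_sum]
    exact prod_le_prod (fun p hp => (factor_pos (hP p hp)).le) fun p _ => by
      linarith [Real.add_one_le_exp (-(1 / (p : ℝ)))]
  set s := ∑ p ∈ P, 1 / (p : ℝ)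
  have y0 : (0 : ℝ) < y := by positivity
  have l1 := one_le_log hy
  have h5 : Real.log (y + d : ℕ) ≤ Real.log y * (1 + d / y) := by
    have a1 : Real.log (y + d : ℕ) = Real.log y + Real.log (1 + d / y) := by
      rw [← Real.log_mul y0.ne' (by positivity)]
      congr 1; push_cast; field_simp
    have a2 := Real.log_le_sub_one_of_pos (show (0 : ℝ) < 1 + d / y by positivity)
    have a3 : (0 : ℝ) ≤ d / y := by positivity
    nlinarith
  have t := th_pos (zz y)
  have h6 : Real.exp s ≤ (1 + 1 / zz y) * (1 + d / y) := by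
    calc Real.exp s ≤ Real.exp s * (Real.log (y + d : ℕ) * th (zz (y + d))) :=
          le_mul_of_one_le_right (Real.exp_pos _).le h2
      _ ≤ Real.exp s * (Real.log y * (1 + d / y) * (th (zz y) * Real.exp (-s))) := by
          rw [h3]
          have := prod_nonneg fun p hp => (factor_pos (hP p hp)).le
          gcongr
      _ = Real.log y * th (zz y) * (1 + d / y) := by rw [Real.exp_neg]; field_simp
      _ ≤ _ := by gcongr
  linarith [Real.add_one_le_exp s]

lemma lam_lo {y d : ℕ} (hy : 8 ≤ y) (h : 1 ≤ zz y) :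
    d / (y + d : ℕ) / Real.log (y + d : ℕ) - 1 / zz y ≤
      ∑ q ∈ primesLE (zz (y + d)) \ primesLE (zz y), 1 / (q : ℝ) := by
  have m := zz_mono hy (Nat.le_add_right y d)
  have h1 := th_up (y := y + d) (by omega) (h.trans m)
  have h2 := th_lo hy
  have h3 := th_split m
  set P := primesLE (zz (y + d)) \ primesLE (zz y)
  have h4 := one_sub_sum_le (P := P) fun _ h => prime_of_mem_primesLE (Finset.mem_sdiff.1 h).1
  set s := ∑ p ∈ P, 1 / (p : ℝ)
  set V := ∏ p ∈ P, (1 - 1 / (p : ℝ))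
  have y0 : (0 : ℝ) < y := by positivity
  have l1 := one_le_log hy
  have u0 : (0 : ℝ) < zz y := by exact_mod_cast h
  have u1 : 1 / (zz (y + d) : ℝ) ≤ 1 / zz y := one_div_le_one_div_of_le u0 (by exact_mod_cast m)
  have h5 : d / (y + d : ℕ) ≤ Real.log (y + d : ℕ) - Real.log y := by
    rw [← Real.log_div (by positivity) y0.ne']
    refine le_trans (le_of_eq ?_) (Real.one_sub_inv_le_log_of_pos (by positivity))
    push_cast; field_simp; ring
  have d0 : (0 : ℝ) ≤ d / (y + d : ℕ) := by positivity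
  set L' := Real.log (y + d : ℕ)
  set L := Real.log y
  have t := th_pos (zz y)
  have V0 : 0 < V := by
    have := th_pos (zz (y + d))
    rw [h3] at this
    exact (mul_pos_iff_of_pos_left t).1 this
  have h6 : L' * V ≤ L * (1 + 1 / zz y) := by
    calc L' * V ≤ L' * V * (L * th (zz y)) := le_mul_of_one_le_right (by nlinarith) h2
      _ = L * (L' * th (zz (y + d))) := by rw [h3]; ring
      _ ≤ _ := by gcongr; linarith
  have h7 : L * (1 / zz y) ≤ L' * (1 / zz y) := by gcongr; linarith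
  rw [sub_le_iff_le_add, div_le_iff₀ (by linarith)]
  nlinarith

/-- numerical conditions on the scale -/
def Big (T : ℕ) : Prop := 100 ≤ T ∧ (th (T ^ 510))⁻¹ ≤ 999 * Real.log T ∧ 4012 * Real.log T ≤ T

lemma ev_big : ∀ᶠ T in atTop, Big T := by
  have h1 := (tendsto_pow_atTop (α := ℕ) (n := 510) (by norm_num)).eventually th_inv_sharp
  have h2 := tendsto_natCast_atTop_atTop.eventually
    (Real.isLittleO_log_id_atTop.bound (by norm_num : (0 : ℝ) < 1 / 4012))
  filter_upwards [h1, h2, eventually_ge_atTop 100] with T a1 a2 a3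
  have := Real.log_natCast_nonneg T
  refine ⟨a3, a1.trans ?_, ?_⟩
  · rw [Nat.cast_pow, Real.log_pow]
    push_cast
    linarith
  · simp only [id, Real.norm_eq_abs, Nat.abs_cast, abs_of_nonneg this] at a2
    linarith

lemma Big.le_zz {T y : ℕ} (hT : Big T) (hy : T ^ 999 ≤ y) : 8 ≤ y ∧ T ^ 510 ≤ zz y := by
  have h1 : 8 ≤ y := le_trans (le_trans (by have := hT.1; omega)
    (le_self_pow₀ (by have := hT.1; omega) (by norm_num))) hy
  refine ⟨h1, (le_zc (one_le_log h1) _).2 (hT.2.1.trans ?_)⟩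
  have h2 : (0 : ℝ) < T := by have := hT.1; positivity
  have := Real.log_le_log (by positivity) (show (T : ℝ) ^ 999 ≤ y by exact_mod_cast hy)
  rwa [Real.log_pow] at this

lemma patch_low (ω : Om) {u z : ℕ} (v : ∀ i : Qs u z, ZMod i.1) {p : Nat.Primes} (h : (p : ℕ) ≤ u) :
    Function.updateFinset ω (Qs u z) v p = ω p :=
  dif_neg fun h' => absurd (mem_Qs.1 h').1 (not_lt.2 h)

lemma mem_patch (ω : Om) {y z n : ℕ} (v : ∀ i : Qs (zz y) z, ZMod i.1) (hy : 8 ≤ y) (h1 : y ≤ n)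
    (h2 : zz n ≤ z) : n ∈ model (Function.updateFinset ω (Qs (zz y) z) v) ↔
      Sv ω (zz y) n ∧ ∀ i : Qs (zz y) z, (i.1 : ℕ) ≤ zz n → (n : ZMod i.1) ≠ v i := by
  have m := zz_mono hy h1
  rw [mem_iff, and_iff_right (hy.trans h1)]
  constructor
  · intro h
    refine ⟨fun p hp => patch_low ω v hp ▸ h p (hp.trans m), fun i hi => ?_⟩
    have := h i.1 hi
    rwa [Function.updateFinset, dif_pos i.2] at this
  · rintro ⟨a1, a2⟩ p hp
    by_cases h : (p : ℕ) ≤ zz y
    · rw [patch_low ω v h]; exact a1 p h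
    · have hq : p ∈ Qs (zz y) z := mem_Qs.2 ⟨not_le.1 h, hp.trans h2⟩
      rw [Function.updateFinset, dif_pos hq]
      exact a2 ⟨p, hq⟩ hp

lemma mem_congr {ω ω' : Om} {y n : ℕ} (h : ∀ p : Nat.Primes, (p : ℕ) ≤ zz y → ω p = ω' p)
    (hn : n ≤ y) : n ∈ model ω ↔ n ∈ model ω' := by
  rw [mem_iff, mem_iff]
  refine and_congr_right fun h8 => forall₂_congr fun p hp => ?_
  rw [h p (hp.trans (zz_mono h8 hn))]

lemma rk_congr {ω ω' : Om} {y n : ℕ} (h : ∀ p : Nat.Primes, (p : ℕ) ≤ zz y → ω p = ω' p)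
    (hn : n ≤ y) : rk ω n = rk ω' n := by
  classical
  unfold rk
  congr 1
  exact filter_congr fun k hk => mem_congr h ((mem_Ioc.1 hk).2.trans hn)

open Classical in
theorem core {T y h Y m : ℕ} {ε κ₀ : ℝ} (hT : Big T) (hy1 : T ^ 999 ≤ y) (hy2 : y ≤ T ^ 1002)
    (h1 : 1 ≤ h) (h2 : h ≤ T) (hY : 2 * y ≤ Y) (hε : 0 < ε) (hε1 : ε < 1) (hκ0 : 0 ≤ κ₀)
    (hκ : ∀ N, 2 ≤ N → κ₀ * th N ^ 2 ≤ thd 2 N) (ω : Om) (hG : Good ε h Y y ω)
    (hm : rk ω y + 2 * T ^ 506 = m) :
    Fintype.card (∀ i : Qs (zz y) (zz (y + T ^ 508)), ZMod i.1) *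
      ((1 - ε) / (1 + ε) * κ₀ / Real.log y - 1 / T) ≤
    #{v : ∀ i : Qs (zz y) (zz (y + T ^ 508)), ZMod i.1 |
      Succ m (Function.updateFinset ω (Qs (zz y) (zz (y + T ^ 508))) v)} := by
  obtain ⟨y8, hu⟩ := hT.le_zz hy1
  obtain ⟨T1, -, T3⟩ := hT
  have pw : ∀ a b : ℕ, a < b → 100 * T ^ a ≤ T ^ b := fun a b hab =>
    calc 100 * T ^ a ≤ T * T ^ a := Nat.mul_le_mul_right _ T1
      _ = T ^ (a + 1) := by ring
      _ ≤ T ^ b := Nat.pow_le_pow_right (by omega) hab
  set u := zz y with hu'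
  have t0 := th_pos u
  have t2 := thd_pos (dvd_refl 2) u
  have h0 : (0 : ℝ) < h := by exact_mod_cast h1
  set a : ℝ := (1 + ε) * (h * th u) with ha
  set b : ℝ := (1 - ε) * (h * thd 2 u) with hb
  have b0 : 0 < b := mul_pos (by linarith) (by positivity)
  have H1 : ∀ e, e ≤ Y → (#{n ∈ Ioc e (e + h) | Sv ω u n} : ℝ) ≤ a := by
    intro e he
    have := (abs_le.1 (hG e he 0 (by simp))).2
    rw [thd_zero, cntd_zero] at this
    linarith
  have H2 : ∀ e, e ≤ Y → b ≤ #{n ∈ Ioc e (e + h) | Sv ω u n ∧ Sv ω u (n + 2)} := by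
    intro e he
    have := (abs_le.1 (hG e he 2 (by simp))).1
    rw [cntd_two] at this
    linarith
  have sub : ∀ e e', #{n ∈ Ioc e e' | Sv ω u n ∧ Sv ω u (n + 2)} ≤ #{n ∈ Ioc e e' | Sv ω u n} :=
    fun e e' => card_le_card (monotone_filter_right _ fun _ _ h => h.1)
  have q1 : 2 * T ^ 506 * h ≤ 2 * T ^ 507 :=
    (Nat.mul_le_mul_left _ h2).trans (le_of_eq (by ring))
  have q2 : T ^ 17 * h ≤ T ^ 18 := (Nat.mul_le_mul_left _ h2).trans (le_of_eq (by ring))
  have q3 := pw 507 508 (by norm_num)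
  have q4 := pw 18 507 (by norm_num)
  have q5 := pw 508 999 (by norm_num)
  have q6 := pw 508 510 (by norm_num)
  have q7 := pw 0 18 (by norm_num)
  have q8 := pw 506 507 (by norm_num)
  have q9 := pw 999 1002 (by norm_num)
  rw [pow_zero] at q7
  obtain ⟨x, x1, x2, x3⟩ := divt (fun e => #{n ∈ Ioc y e | Sv ω u n}) (cIoc_succ _ y)
    (Nat.le_add_right y (2 * T ^ 506 * h)) (l := 2 * T ^ 506) (by simp)
    (many _ y h _ fun e a1 a2 => lt_of_lt_of_le
      (by exact_mod_cast b0.trans_le (H2 e (by omega))) (sub _ _))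
  obtain ⟨t, ht⟩ : ∃ t : ℝ, t = T := ⟨_, rfl⟩
  have cp : ∀ k, ((T ^ k : ℕ) : ℝ) = t ^ k := fun k => by rw [ht, Nat.cast_pow]
  rw [← ht] at T3 ⊢
  have t1 : 100 ≤ t := by rw [ht]; exact_mod_cast T1
  have u1 : t ^ 510 ≤ u := by rw [ht]; exact_mod_cast hu
  have u2 : 1 / (u : ℝ) ≤ 1 / t ^ 510 := one_div_le_one_div_of_le (by positivity) u1
  have y1 : t ^ 999 ≤ y := by rw [ht]; exact_mod_cast hy1
  have y2 : y ≤ t ^ 1002 := by rw [ht]; exact_mod_cast hy2
  have pwr : ∀ a b : ℕ, a < b → 1 / t ^ b ≤ 1 / 100 * (1 / t ^ a) := by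
    intro a b hab
    rw [one_div_mul_one_div]
    apply one_div_le_one_div_of_le (by positivity)
    rw [ht]
    exact_mod_cast pw a b hab
  have main := core_abs (ι := Qs u (zz (y + T ^ 508))) (fun i => i.1) (Sv ω u)
    (fun i n => (i.1 : ℕ) ≤ zz n) y x (2 * T ^ 506) h (T ^ 17) a b (t ^ 4) (2 / t ^ 4) (3 / t ^ 491)
    b0 x1 (Nat.pow_pos (by omega)) x3 (fun i => by have := (mem_Qs.1 i.2).1; omega)
    (fun e _ _ => H1 e (by omega)) (fun e _ _ => H2 e (by omega))
    (fun i => by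
      have : t ^ 510 ≤ (i.1 : ℕ) := u1.trans (by exact_mod_cast (mem_Qs.1 i.2).1.le)
      calc _ = 2 / t ^ 4 * t ^ 510 := by rw [Nat.cast_mul, cp]; push_cast; field_simp
        _ ≤ _ := by gcongr)
    (by
      have := pwr 0 4 (by norm_num)
      rw [div_eq_mul_one_div 2]
      norm_num at this ⊢
      linarith)
    (by
      rw [sum_Qs _ _ (fun q => 1 / (q : ℝ))]
      refine (lam_up y8 (by omega)).trans ?_
      have a1 : ((T ^ 508 : ℕ) : ℝ) / y ≤ 1 / t ^ 491 := by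
        calc _ ≤ t ^ 508 / t ^ 999 := by rw [cp]; gcongr
          _ = _ := by field_simp
      have a2 := pwr 491 510 (by norm_num)
      have a3 := pwr 0 510 (by norm_num)
      have a4 : (1 + 1 / (u : ℝ)) * (1 + ((T ^ 508 : ℕ) : ℝ) / y) ≤
        (1 + 1 / t ^ 510) * (1 + 1 / t ^ 491) := by gcongr
      have a5 : 0 < 1 / t ^ 491 := by positivity
      rw [div_eq_mul_one_div 3]
      rw [pow_zero, div_one] at a3
      nlinarith)
    (by positivity)
    (by
      have a1 := lam_lo (d := T ^ 506) y8 (by omega)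
      have a2 : ∑ q ∈ primesLE (zz (y + T ^ 506)) \ primesLE u, t ^ 506 * (1 / (q : ℝ)) ≤
          ∑ q ∈ primesLE (zz (y + T ^ 508)) \ primesLE u,
            (#{n ∈ Ioc y x | Sv ω u n ∧ q ≤ zz n} : ℝ) / q := by
        refine le_trans (sum_le_sum ?_) (sum_le_sum_of_subset_of_nonneg (sdiff_subset_sdiff
          (primesLE_mono (zz_mono (by omega) (by omega : y + T ^ 506 ≤ y + T ^ 508))) Subset.rfl)
          fun _ _ _ => by positivity)
        intro q hq
        rw [mul_one_div]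
        apply div_le_div_of_nonneg_right _ (Nat.cast_nonneg _)
        have b1 := le_of_mem_primesLE (Finset.mem_sdiff.1 hq).1
        have b2 := cIoc_le (Sv ω u) y x
        have b3 := cIoc_add (Sv ω u) (Nat.le_add_right y (T ^ 506)) (by omega : y + T ^ 506 ≤ x)
        have b4 := cIoc_le (Sv ω u) y (y + T ^ 506)
        have b5 : #{n ∈ Ioc (y + T ^ 506) x | Sv ω u n} ≤
            #{n ∈ Ioc y x | Sv ω u n ∧ q ≤ zz n} := by
          apply card_le_card
          intro n hn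
          simp only [mem_filter, mem_Ioc] at hn ⊢
          exact ⟨by omega, hn.2, b1.trans (zz_mono (by omega) hn.1.1.le)⟩
        rw [ht]
        exact_mod_cast (by omega : T ^ 506 ≤ #{n ∈ Ioc y x | Sv ω u n ∧ q ≤ zz n})
      rw [← sum_Qs _ _ (fun q => (#{n ∈ Ioc y x | Sv ω u n ∧ q ≤ zz n} : ℝ) / q), ← mul_sum] at a2
      refine le_trans ?_ (a2.trans (le_of_eq (by congr!)))
      have b1 : ((y + T ^ 506 : ℕ) : ℝ) ≤ 2 * t ^ 1002 := by
        have : y + T ^ 506 ≤ 2 * T ^ 1002 := by omega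
        rw [ht]; exact_mod_cast this
      have b2 : Real.log (y + T ^ 506 : ℕ) ≤ t / 4 := by
        have c1 : ((y + T ^ 506 : ℕ) : ℝ) ≤ t ^ 1003 := by
          have := pw 1002 1003 (by norm_num)
          have : y + T ^ 506 ≤ T ^ 1003 := by omega
          rw [ht]; exact_mod_cast this
        have := Real.log_le_log (by positivity) c1
        rw [Real.log_pow] at this
        push_cast at this ⊢
        linarith
      have b3 := one_le_log (n := y + T ^ 506) (by omega)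
      have b4 : 2 * (1 / t ^ 497) ≤
          (T ^ 506 : ℕ) / (y + T ^ 506 : ℕ) / Real.log (y + T ^ 506 : ℕ) := by
        calc _ = t ^ 506 / (2 * t ^ 1002) / (t / 4) := by field_simp; norm_num
          _ ≤ _ := by rw [cp]; gcongr
      have b5 := pwr 497 510 (by norm_num)
      have b6 : 0 < 1 / t ^ 497 := by positivity
      calc 2 * (t ^ 4) ^ 2 ≤ t * (t ^ 4) ^ 2 := by gcongr; linarith
        _ = t ^ 506 * (1 / t ^ 497) := by field_simp
        _ ≤ _ := by gcongr; linarith)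
  refine le_trans (mul_le_mul_of_nonneg_left ?_ (Nat.cast_nonneg _)) (main.trans ?_)
  · have l1 := one_le_log y8
    have k1 : (1 - ε) / (1 + ε) * κ₀ / Real.log y ≤ b / a := by
      have a1 := hκ u (by omega)
      have a2 : κ₀ / Real.log y ≤ thd 2 u / th u := by
        rw [div_le_div_iff₀ (by linarith) t0]
        have a3 := th_lo y8
        calc κ₀ * th u ≤ κ₀ * th u * (Real.log y * th u) :=
              le_mul_of_one_le_right (by positivity) a3
          _ = κ₀ * th u ^ 2 * Real.log y := by ring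
          _ ≤ _ := by gcongr
      have : 0 < 1 - ε := by linarith
      calc _ = (1 - ε) / (1 + ε) * (κ₀ / Real.log y) := by ring
        _ ≤ (1 - ε) / (1 + ε) * (thd 2 u / th u) := by gcongr
        _ = _ := by rw [ha, hb]; field_simp
    have k2 : b / a ≤ 1 := by
      rw [div_le_one (by positivity)]
      exact (H2 0 (by omega)).trans (le_trans (by exact_mod_cast sub _ _) (H1 0 (by omega)))
    have k3 : b ≤ t := by
      refine (H2 0 (by omega)).trans ?_
      have := cIoc_le (fun n => Sv ω u n ∧ Sv ω u (n + 2)) 0 (0 + h)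
      rw [ht]
      exact_mod_cast this.trans (by omega)
    have k4 : (b + 1) / t ^ 4 ≤ 2 * (1 / t ^ 3) := by
      calc _ ≤ (t + t) / t ^ 4 := by gcongr; linarith
        _ = _ := by field_simp; ring
    have k5 : (((T ^ 17 : ℕ) : ℝ) * h + 2) * (3 / t ^ 491) ≤ 6 * (1 / t ^ 473) := by
      have : ((T ^ 17 : ℕ) : ℝ) * h + 2 ≤ 2 * t ^ 18 := by
        have : T ^ 17 * h + 2 ≤ 2 * T ^ 18 := by omega
        rw [ht]; exact_mod_cast this
      calc _ ≤ 2 * t ^ 18 * (3 / t ^ 491) := by gcongr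
        _ = _ := by field_simp; ring
    have k6 : ((2 * T ^ 506 : ℕ) : ℝ) * (3 / t ^ 491) / (T ^ 17 : ℕ) = 6 * (1 / t ^ 2) := by
      rw [Nat.cast_mul, cp, cp]; push_cast; field_simp; ring
    have k7 : ((2 * T ^ 506 : ℕ) : ℝ) * (3 / t ^ 491) ^ 2 = 18 * (1 / t ^ 476) := by
      rw [Nat.cast_mul, cp]; push_cast; field_simp; ring
    rw [k6, k7, div_eq_mul_one_div 2]
    have r1 := pwr 1 2 (by norm_num)
    have r2 := pwr 1 3 (by norm_num)
    have r3 := pwr 1 4 (by norm_num)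
    have r4 := pwr 1 473 (by norm_num)
    have r5 := pwr 1 476 (by norm_num)
    rw [pow_one] at r1 r2 r3 r4 r5
    have r6 : 0 < 1 / t ^ 4 := by positivity
    have r7 : 0 ≤ (b + 1) / t ^ 4 := by positivity
    have r8 : 0 < 1 / t := by positivity
    nlinarith [mul_nonneg r6.le r7, mul_le_mul_of_nonneg_left k2 r6.le]
  · rw [Nat.cast_le]
    apply card_le_card
    intro v hv
    obtain ⟨s, a1, a2, a3, a4, a5⟩ := (mem_filter.1 hv).2
    have z1 : ∀ n, y ≤ n → n ≤ s + 2 → zz n ≤ zz (y + T ^ 508) := fun n b1 b2 =>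
      zz_mono (by omega) (by omega)
    refine mem_filter.2 ⟨mem_univ _, s, (mem_patch ω v y8 a1.le (z1 _ a1.le (by omega))).2 a3, ?_,
      (mem_patch ω v y8 (by omega) (z1 _ (by omega) le_rfl)).2 a4⟩
    rw [rk, cIoc_add _ (Nat.zero_le y) a1.le, ← hm, ← a5]
    congr 1
    · exact rk_congr (fun p hp => patch_low ω v hp) le_rfl
    · congr 1
      ext n
      simp only [mem_filter, mem_Ioc, and_congr_right_iff]
      intro hn
      exact mem_patch ω v y8 hn.1.le (z1 _ hn.1.le (by omega))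

end Pool.Agent.Lib.MP_be93de_nt
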