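import Mathlib
import Pool.Agent.Lib.MP_be93de_nt.RsCore

/-! The chain of conditional estimates. -/

namespace Pool.Agent.Lib.MP_be93de_nt

open Finset Nat Filter MeasureTheory ProbabilityTheory
open Pool.Agent.Lib.MP_b09185_nt

/-- determined by the primes up to `u` -/
def Det (u : ℕ) (A : Set Om) : Prop :=
  ∀ ω ω' : Om, (∀ p : Nat.Primes, (p : ℕ) ≤ u → ω p = ω' p) → ω ∈ A → ω' ∈ A

lemma Det.meas {u : ℕ} {A : Set Om} (h : Det u A) : MeasurableSet A := by
  have : A = (Qs 0 u).restrict ⁻¹' ((Qs 0 u).restrict '' A) := by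
    refine Set.Subset.antisymm (Set.subset_preimage_image _ _) ?_
    rintro ω ⟨ω', h1, h2⟩
    exact h ω' ω (fun p hp => congrFun h2 ⟨p, mem_Qs.2 ⟨p.2.pos, hp⟩⟩) h1
  rw [this]
  exact Finset.measurable_restrict _ (Set.toFinite _).measurableSet

lemma shift_vec (w : Om) : law.map (fun ω : Om => ω + w) = law := by
  rw [law]
  refine (Measure.infinitePi_map_pi (fun i : Nat.Primes => uniformOn (Set.univ : Set (ZMod i)))
    (f := fun (i : Nat.Primes) (y : ZMod i) => y + w i)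
    (fun i => Measurable.of_discrete)).trans ?_
  congr 1
  funext i
  ext s hs
  rw [Measure.map_apply Measurable.of_discrete hs, uniformOn_univ, uniformOn_univ]
  congr 1
  exact measure_preimage_add_right _ _ _

open Classical in
lemma cond_bound {u z : ℕ} {A F : Set Om} (hA : Det u A) (hF : MeasurableSet F) (θ : ℝ)
    (h : ∀ ω ∈ A, (#{v : ∀ i : Qs u z, ZMod i.1 | Function.updateFinset ω (Qs u z) v ∈ F} : ℝ) ≤
      Fintype.card (∀ i : Qs u z, ZMod i.1) * θ) : law (A ∩ F) ≤ ENNReal.ofReal θ * law A := by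
  set c := Fintype.card (∀ i : Qs u z, ZMod i.1) with hc
  set σ : (∀ i : Qs u z, ZMod i.1) → Om → Om :=
    fun v ω => ω + Function.updateFinset (0 : Om) (Qs u z) v with hσ
  have hm : ∀ v, Measurable (σ v) := fun v => measurable_pi_lambda _ fun p =>
    (Measurable.of_discrete (f := fun y : ZMod p => y + _)).comp
      (measurable_pi_apply (X := fun i : Nat.Primes => ZMod i) p)
  have e : ∀ v ω, σ v ω = Function.updateFinset ω (Qs u z) ((Qs u z).restrict ω + v) := by
    intro v ω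
    funext p
    simp only [hσ, Function.updateFinset, Pi.add_apply]
    split_ifs <;> simp
  have h1 : ∀ v, law (A ∩ F) ≤ ∫⁻ ω, (A ∩ σ v ⁻¹' F).indicator 1 ω ∂law := by
    intro v
    rw [lintegral_indicator_one (hA.meas.inter (hm v hF))]
    conv_lhs => rw [← shift_vec (Function.updateFinset (0 : Om) (Qs u z) v),
      Measure.map_apply (hm v) (hA.meas.inter hF)]
    refine measure_mono fun ω hω => ⟨hA _ _ (fun p hp => ?_) hω.1, hω.2⟩
    rw [e]
    exact patch_low ω _ hp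
  have c0 : (c : ENNReal) ≠ 0 := by exact_mod_cast Fintype.card_ne_zero
  rw [← ENNReal.mul_le_mul_iff_right c0 (ENNReal.natCast_ne_top _)]
  calc (c : ENNReal) * law (A ∩ F) = ∑ _v : ∀ i : Qs u z, ZMod i.1, law (A ∩ F) := by
        rw [sum_const, Finset.card_univ, nsmul_eq_mul]
    _ ≤ ∑ v, ∫⁻ ω, (A ∩ σ v ⁻¹' F).indicator 1 ω ∂law := sum_le_sum fun v _ => h1 v
    _ = ∫⁻ ω, ∑ v, (A ∩ σ v ⁻¹' F).indicator 1 ω ∂law :=
        (lintegral_finsetSum _ fun v _ =>
          measurable_one.indicator (hA.meas.inter (hm v hF))).symm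
    _ ≤ ∫⁻ ω, A.indicator (fun _ => c * ENNReal.ofReal θ) ω ∂law := by
        apply lintegral_mono
        intro ω
        by_cases hω : ω ∈ A
        · simp only [Set.indicator_apply, Set.mem_inter_iff, hω, true_and, if_true,
            Set.mem_preimage, e, Pi.one_apply]
          refine le_trans (le_of_eq ((Equiv.sum_comp (Equiv.addLeft ((Qs u z).restrict ω)) (fun v =>
            if Function.updateFinset ω (Qs u z) v ∈ F then (1 : ENNReal) else 0)).trans
            (sum_boole _ _))) ?_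
          rw [← ENNReal.ofReal_natCast, ← ENNReal.ofReal_natCast c,
            ← ENNReal.ofReal_mul (Nat.cast_nonneg _)]
          exact ENNReal.ofReal_le_ofReal (h ω hω)
        · simp [hω]
    _ = _ := by rw [lintegral_indicator_const hA.meas, mul_assoc]

lemma meas_succ (m : ℕ) : MeasurableSet {ω | Succ m ω} := by
  have : {ω | Succ m ω} = ⋃ t, {ω | t ∈ model ω ∧ rk ω t = m ∧ t + 2 ∈ model ω} := by
    ext ω; simp [Succ]
  rw [this]
  refine MeasurableSet.iUnion fun t => Det.meas (u := zz (t + 2)) fun ω ω' h hω => ?_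
  exact ⟨(mem_congr h (by omega)).1 hω.1, (rk_congr h (by omega)).symm.trans hω.2.1,
    (mem_congr h le_rfl).1 hω.2.2⟩

lemma good_congr {ε : ℝ} {h Y y : ℕ} {ω ω' : Om}
    (H : ∀ p : Nat.Primes, (p : ℕ) ≤ zz y → ω p = ω' p) (hG : Good ε h Y y ω) :
    Good ε h Y y ω' := by
  intro e he δ hδ
  rw [← cntd_congr (c := cl ω) δ e h]
  · exact hG e he δ hδ
  · intro q hq
    rw [cl, cl, dif_pos (prime_of_mem_primesLE hq), dif_pos (prime_of_mem_primesLE hq),
      H _ (le_of_mem_primesLE hq)]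

lemma rk_mono (ω : Om) {a b : ℕ} (h : a ≤ b) : rk ω a ≤ rk ω b := by
  classical exact cIoc_mono _ 0 h

lemma rk_le (ω : Om) {a b : ℕ} (h : a ≤ b) : rk ω b ≤ rk ω a + (b - a) := by
  classical
  rw [rk, cIoc_add _ (Nat.zero_le a) h]
  exact Nat.add_le_add le_rfl (cIoc_le _ _ _)

/-- stopping event -/
def Stop (ε : ℝ) (T h Y m y : ℕ) (ω : Om) : Prop :=
  T ^ 999 ≤ y ∧ 2 * y ≤ Y ∧ y ∈ model ω ∧ rk ω y + 2 * T ^ 506 = m ∧ Good ε h Y y ω

/-- failure up to step `k` -/
def Bk (ε : ℝ) (T h Y : ℕ) (m : ℕ → ℕ) (k : ℕ) : Set Om :=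
  {ω | ∀ j < k, (∃ y, Stop ε T h Y (m j) y ω) ∧ ¬ Succ (m j) ω}

lemma det_C {ε : ℝ} {T h Y : ℕ} {m : ℕ → ℕ} {k : ℕ} (hm : ∀ j < k, m j + 2 + 2 * T ^ 506 ≤ m k)
    (y : ℕ) : Det (zz y) (Bk ε T h Y m k ∩ {ω | Stop ε T h Y (m k) y ω}) := by
  rintro ω ω' H ⟨h1, a1, a2, a3, a4, a5⟩
  refine ⟨fun j hj => ⟨?_, ?_⟩, a1, a2, (mem_congr H le_rfl).1 a3,
    rk_congr H le_rfl ▸ a4, good_congr H a5⟩
  · obtain ⟨y', b1, b2, b3, b4, b5⟩ := (h1 j hj).1
    have c1 : y' ≤ y := by
      by_contra c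
      have := rk_mono ω (not_le.1 c).le
      have := hm j hj
      omega
    exact ⟨y', b1, b2, (mem_congr H c1).1 b3, rk_congr H c1 ▸ b4,
      good_congr (fun p hp => H p (hp.trans (zz_mono b3.1 c1))) b5⟩
  · rintro ⟨t, b1, b2, b3⟩
    have c0 := hm j hj
    have c2 := rk_congr H (le_refl y)
    have c1 : t + 2 ≤ y := by
      rcases le_total t y with c | c
      · have := rk_le ω' c
        omega
      · have := rk_mono ω' c
        omega
    exact (h1 j hj).2 ⟨t, (mem_congr H (by omega)).2 b1, (rk_congr H (by omega)).trans b2,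
      (mem_congr H c1).2 b3⟩

theorem chain {T h Y : ℕ} {ε κ₀ Λ : ℝ} (hT : Big T) (hY : Y ≤ T ^ 1002) (hΛ : Real.log Y ≤ Λ)
    (h1 : 1 ≤ h) (h2 : h ≤ T) (hε : 0 < ε) (hε1 : ε < 1) (hκ0 : 0 ≤ κ₀)
    (hκ : ∀ N, 2 ≤ N → κ₀ * th N ^ 2 ≤ thd 2 N) (m : ℕ → ℕ)
    (hm : ∀ j k, j < k → m j + 2 + 2 * T ^ 506 ≤ m k) (k : ℕ) :
    law (Bk ε T h Y m k) ≤
      ENNReal.ofReal (Real.exp (-(((1 - ε) / (1 + ε) * κ₀ / Λ - 1 / T) * k))) := by
  classical
  set γ := (1 - ε) / (1 + ε) * κ₀ / Λ - 1 / T with hγ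
  induction k with
  | zero => simpa using prob_le_one
  | succ k ih =>
    set C : ℕ → Set Om := fun y => Bk ε T h Y m k ∩ {ω | Stop ε T h Y (m k) y ω} with hC
    have hD : ∀ y, Det (zz y) (C y) := det_C fun j hj => hm j k hj
    have s1 : Bk ε T h Y m (k + 1) ⊆ ⋃ y, C y ∩ {ω | Succ (m k) ω}ᶜ := by
      intro ω hω
      obtain ⟨⟨y, hy⟩, h'⟩ := hω k (by omega)
      exact Set.mem_iUnion.2 ⟨y, ⟨fun j hj => hω j (by omega), hy⟩, h'⟩
    have s2 : ∀ y, law (C y ∩ {ω | Succ (m k) ω}ᶜ) ≤ ENNReal.ofReal (Real.exp (-γ)) * law (C y) := by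
      intro y
      apply cond_bound (z := zz (y + T ^ 508)) (hD y) (meas_succ _).compl
      rintro ω ⟨-, a1, a2, a3, a4, a5⟩
      have b1 := core hT a1 (by omega) h1 h2 a2 hε hε1 hκ0 hκ ω a5 a4
      have b2 := card_filter_add_card_filter_not (s := univ) (fun v : ∀ i : Qs (zz y)
        (zz (y + T ^ 508)), ZMod i.1 => Succ (m k) (Function.updateFinset ω _ v))
      rw [Finset.card_univ] at b2
      have b3 := congrArg (Nat.cast (R := ℝ)) b2
      have l1 := one_le_log a3.1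
      have l2 : Real.log y ≤ Λ := (Real.log_le_log (by have := a3.1; positivity)
        (by exact_mod_cast (by omega : y ≤ Y))).trans hΛ
      have b4 : γ ≤ (1 - ε) / (1 + ε) * κ₀ / Real.log y - 1 / T := by
        have : 0 < 1 - ε := by linarith
        rw [hγ]
        gcongr
      have b5 := Real.add_one_le_exp (-γ)
      simp only [Set.mem_compl_iff, Set.mem_ofPred_eq]
      push_cast at b3
      set c : ℝ := (Fintype.card (∀ i : Qs (zz y) (zz (y + T ^ 508)), ZMod i.1) : ℝ)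
      have c0 : 0 ≤ c := Nat.cast_nonneg _
      nlinarith [mul_le_mul_of_nonneg_left b4 c0, mul_le_mul_of_nonneg_left b5 c0]
    have s3 : Pairwise (Function.onFun Disjoint C) := by
      have key : ∀ y y', y < y' → Disjoint (C y) (C y') := by
        intro y y' hy
        rw [Set.disjoint_left]
        rintro ω ⟨-, -, -, -, a4, -⟩ ⟨-, -, -, b3, b4, -⟩
        have : rk ω y < rk ω y' := cIoc_lt _ (Nat.zero_le y) hy b3
        omega
      intro y y' hy
      rcases lt_or_gt_of_ne hy with h | h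
      · exact key _ _ h
      · exact (key _ _ h).symm
    calc _ ≤ ∑' y, law (C y ∩ {ω | Succ (m k) ω}ᶜ) := (measure_mono s1).trans (measure_iUnion_le _)
      _ ≤ ∑' y, ENNReal.ofReal (Real.exp (-γ)) * law (C y) := ENNReal.tsum_le_tsum s2
      _ = ENNReal.ofReal (Real.exp (-γ)) * law (⋃ y, C y) := by
        rw [ENNReal.tsum_mul_left, measure_iUnion s3 fun y => (hD y).meas]
      _ ≤ ENNReal.ofReal (Real.exp (-γ)) * ENNReal.ofReal (Real.exp (-(γ * k))) := by
        gcongr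
        exact (measure_mono (Set.iUnion_subset fun y => Set.inter_subset_left)).trans ih
      _ = _ := by
        rw [← ENNReal.ofReal_mul (Real.exp_pos _).le, ← Real.exp_add]
        congr 2
        push_cast; ring

end Pool.Agent.Lib.MP_be93de_nt
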