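import Mathlib
import Pool.Agent.Lib.MP_be93de_nt.RsChain

/-! A second moment bound for products of conditionally normalised factors. -/

namespace Pool.Agent.Lib.MP_be93de_nt

open Finset MeasureTheory
open Pool.Agent.Lib.MP_b09185_nt

/-- agreement up to `u` -/
def Ag (u : ℕ) (ω ω' : Om) : Prop := ∀ p : Nat.Primes, (p : ℕ) ≤ u → ω p = ω' p

lemma Ag.symm {u : ℕ} {ω ω' : Om} (h : Ag u ω ω') : Ag u ω' ω := fun p hp => (h p hp).symm

lemma Ag.mono {u u' : ℕ} {ω ω' : Om} (h : Ag u ω ω') (hu : u' ≤ u) : Ag u' ω ω' :=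
  fun p hp => h p (hp.trans hu)

lemma ag_patch (ω : Om) {u z : ℕ} (v : ∀ i : Qs u z, ZMod i.1) :
    Ag u ω (Function.updateFinset ω (Qs u z) v) := fun _ hp => (patch_low ω v hp).symm

/-- function of the classes up to `u` -/
def FD (u : ℕ) (f : Om → ℝ) : Prop := ∀ ω ω', Ag u ω ω' → f ω = f ω'

lemma FD.eq {u : ℕ} {f : Om → ℝ} (h : FD u f) :
    f = (fun v => f (Function.updateFinset 0 (Qs 0 u) v)) ∘ (Qs 0 u).restrict := by
  funext ω
  refine h _ _ fun p hp => ?_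
  rw [Function.updateFinset, dif_pos (mem_Qs.2 ⟨p.2.pos, hp⟩)]
  rfl

lemma FD.meas {u : ℕ} {f : Om → ℝ} (h : FD u f) : Measurable f := by
  rw [h.eq]
  exact (measurable_of_finite _).comp (Finset.measurable_restrict _)

lemma FD.int {u : ℕ} {f : Om → ℝ} (h : FD u f) : Integrable f law := by
  rw [h.eq]
  exact (Integrable.of_finite (μ := law.map (Qs 0 u).restrict)).comp_measurable
    (Finset.measurable_restrict _)

lemma FD.mul {u : ℕ} {f g : Om → ℝ} (h : FD u f) (h' : FD u g) : FD u fun ω => f ω * g ω :=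
  fun ω ω' H => by simp only [h ω ω' H, h' ω ω' H]

lemma FD.prod {u : ℕ} {φ : ℕ → Om → ℝ} {S : ℕ} (h : ∀ σ < S, FD u (φ σ)) :
    FD u fun ω => ∏ σ ∈ range S, φ σ ω :=
  fun ω ω' H => prod_congr rfl fun σ hσ => h σ (mem_range.1 hσ) ω ω' H

/-- average over the fresh classes -/
noncomputable def av (u z : ℕ) (f : Om → ℝ) (ω : Om) : ℝ :=
  (∑ v : ∀ i : Qs u z, ZMod i.1, f (Function.updateFinset ω (Qs u z) v)) /
    Fintype.card (∀ i : Qs u z, ZMod i.1)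

lemma card_Qs_pos (u z : ℕ) : (0 : ℝ) < Fintype.card (∀ i : Qs u z, ZMod i.1) := by
  exact_mod_cast Fintype.card_pos

lemma int_av {Z : ℕ} {f : Om → ℝ} (hf : FD Z f) (u z : ℕ) :
    ∫ ω, av u z f ω ∂law = ∫ ω, f ω ∂law := by
  set σ : (∀ i : Qs u z, ZMod i.1) → Om → Om :=
    fun v ω => ω + Function.updateFinset (0 : Om) (Qs u z) v with hσ
  have hm : ∀ v, Measurable (σ v) := fun v => measurable_pi_lambda _ fun p =>
    (Measurable.of_discrete (f := fun y : ZMod p => y + _)).comp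
      (measurable_pi_apply (X := fun i : Nat.Primes => ZMod i) p)
  have e : ∀ v ω, σ v ω = Function.updateFinset ω (Qs u z) ((Qs u z).restrict ω + v) := by
    intro v ω
    funext p
    simp only [hσ, Function.updateFinset, Pi.add_apply]
    split_ifs <;> simp
  have h1 : ∀ v, ∫ ω, f (σ v ω) ∂law = ∫ ω, f ω ∂law := by
    intro v
    conv_rhs => rw [← shift_vec (Function.updateFinset (0 : Om) (Qs u z) v)]
    exact (integral_map (hm v).aemeasurable hf.meas.aestronglyMeasurable).symm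
  have h2 : ∀ v, FD Z fun ω => f (σ v ω) := fun v ω ω' H => hf _ _ fun p hp => by
    simp only [hσ, Pi.add_apply, H p hp]
  have h3 : ∀ ω, av u z f ω = (∑ v, f (σ v ω)) / Fintype.card (∀ i : Qs u z, ZMod i.1) := by
    intro ω
    simp only [av, e]
    congr 1
    exact (Equiv.sum_comp (Equiv.addLeft ((Qs u z).restrict ω))
      (fun v => f (Function.updateFinset ω (Qs u z) v))).symm
  have c0 := (card_Qs_pos u z).ne'
  simp only [h3]
  rw [integral_div, integral_finsetSum _ fun v _ => (h2 v).int]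
  simp only [h1, sum_const, card_univ, nsmul_eq_mul]
  field_simp

/-- a family of stopping events -/
structure Stp (Y Z : ℕ) (u : ℕ → ℕ) (C : ℕ → Set Om) : Prop where
  det : ∀ y, Det (u y) (C y)
  le : ∀ y < Y, u y ≤ Z
  uniq : ∀ y y' ω, ω ∈ C y → ω ∈ C y' → y = y'

lemma step {Y Z : ℕ} {u : ℕ → ℕ} {C : ℕ → Set Om} (hC : Stp Y Z u C) (z : ℕ → ℕ)
    {W ψ : Om → ℝ} (ρ : ℝ) (hW : FD Z W) (hψ : FD Z ψ) (W0 : ∀ ω, 0 ≤ W ω)
    (hWC : ∀ y ω ω', ω ∈ C y → Ag (u y) ω ω' → W ω = W ω')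
    (off : ∀ ω, (∀ y < Y, ω ∉ C y) → ψ ω ≤ ρ)
    (on : ∀ y < Y, ∀ ω ∈ C y, av (u y) (z y) ψ ω ≤ ρ) :
    ∫ ω, W ω * ψ ω ∂law ≤ ρ * ∫ ω, W ω ∂law := by
  classical
  set f : ℕ → Om → ℝ := fun y ω => if ω ∈ C y then W ω * (ψ ω - ρ) else 0 with hf
  have f1 : ∀ y < Y, FD Z (f y) := fun y hy ω ω' H => by
    simp only [hf]
    rw [hW ω ω' H, hψ ω ω' H]
    exact if_congr ⟨hC.det y _ _ (H.mono (hC.le y hy)), hC.det y _ _ (H.symm.mono (hC.le y hy))⟩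
      rfl rfl
  have f2 : ∀ y < Y, ∫ ω, f y ω ∂law ≤ 0 := by
    intro y hy
    rw [← int_av (f1 y hy) (u y) (z y)]
    apply integral_nonpos
    intro ω
    have c0 := card_Qs_pos (u y) (z y)
    refine div_nonpos_of_nonpos_of_nonneg ?_ c0.le
    by_cases h : ω ∈ C y
    · have a1 := on y hy ω h
      rw [av, div_le_iff₀ c0] at a1
      have : ∀ v, f y (Function.updateFinset ω (Qs (u y) (z y)) v) =
          W ω * (ψ (Function.updateFinset ω (Qs (u y) (z y)) v) - ρ) := fun v => by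
        simp only [hf]
        rw [if_pos (hC.det y _ _ (ag_patch ω v) h), ← hWC y _ _ h (ag_patch ω v)]
      simp only [this]
      rw [← mul_sum, sum_sub_distrib, sum_const, card_univ, nsmul_eq_mul]
      exact mul_nonpos_of_nonneg_of_nonpos (W0 ω) (by linarith)
    · exact (sum_eq_zero fun v _ => if_neg fun h' => h (hC.det y _ _ (ag_patch ω v).symm h')).le
  have f3 : ∀ ω, W ω * ψ ω - ρ * W ω ≤ ∑ y ∈ range Y, f y ω := by
    intro ω
    by_cases h : ∃ y < Y, ω ∈ C y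
    · obtain ⟨y, h1, h2⟩ := h
      rw [sum_eq_single_of_mem y (mem_range.2 h1) fun y' _ h3 =>
        if_neg fun h4 => h3 (hC.uniq _ _ ω h4 h2)]
      simp only [if_pos h2]
      linarith
    · push Not at h
      rw [sum_eq_zero fun y hy => if_neg (h y (mem_range.1 hy))]
      nlinarith [W0 ω, off ω h]
  have i1 := (hW.mul hψ).int
  have i2 := hW.int.const_mul ρ
  have f4 := integral_mono (i1.sub i2)
    (integrable_finsetSum _ fun y hy => (f1 y (mem_range.1 hy)).int) f3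
  rw [integral_finsetSum _ fun y hy => (f1 y (mem_range.1 hy)).int] at f4
  have f5 := f4.trans (sum_nonpos fun y hy => f2 y (mem_range.1 hy))
  simp only [Pi.sub_apply] at f5
  rw [integral_sub i1 i2, integral_const_mul] at f5
  linarith

section
variable {Y Z S : ℕ} {u z : ℕ → ℕ} {C : ℕ → ℕ → Set Om}

lemma prod_up (hC : ∀ σ < S, Stp Y Z u (C σ)) (φ : ℕ → Om → ℝ) (ρ : ℕ → ℝ) (ρ0 : ∀ σ, 0 ≤ ρ σ)
    (hφ : ∀ σ < S, FD Z (φ σ)) (φ0 : ∀ σ < S, ∀ ω, 0 ≤ φ σ ω)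
    (pre : ∀ σ < S, ∀ τ < σ, ∀ y ω ω', ω ∈ C σ y → Ag (u y) ω ω' → φ τ ω = φ τ ω')
    (off : ∀ σ < S, ∀ ω, (∀ y < Y, ω ∉ C σ y) → φ σ ω ≤ ρ σ)
    (on : ∀ σ < S, ∀ y < Y, ∀ ω ∈ C σ y, av (u y) (z y) (φ σ) ω ≤ ρ σ) :
    ∀ k ≤ S, ∫ ω, ∏ σ ∈ range k, φ σ ω ∂law ≤ ∏ σ ∈ range k, ρ σ := by
  intro k
  induction k with
  | zero => simp
  | succ k ih =>
    intro hk
    simp only [prod_range_succ]
    refine (step (hC k hk) z (ρ k) (FD.prod fun σ h => hφ σ (by omega)) (hφ k hk)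
      (fun ω => prod_nonneg fun σ h => φ0 σ (by have := mem_range.1 h; omega) ω)
      (fun y ω ω' h1 h2 => prod_congr rfl fun τ h => pre k hk τ (mem_range.1 h) y ω ω' h1 h2)
      (off k hk) (on k hk)).trans ?_
    rw [mul_comm]
    exact mul_le_mul_of_nonneg_right (ih (by omega)) (ρ0 k)

lemma prod_lo (hC : ∀ σ < S, Stp Y Z u (C σ)) (φ : ℕ → Om → ℝ)
    (hφ : ∀ σ < S, FD Z (φ σ)) (φ0 : ∀ σ < S, ∀ ω, 0 ≤ φ σ ω)
    (pre : ∀ σ < S, ∀ τ < σ, ∀ y ω ω', ω ∈ C σ y → Ag (u y) ω ω' → φ τ ω = φ τ ω')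
    (off : ∀ σ < S, ∀ ω, (∀ y < Y, ω ∉ C σ y) → 1 ≤ φ σ ω)
    (on : ∀ σ < S, ∀ y < Y, ∀ ω ∈ C σ y, 1 ≤ av (u y) (z y) (φ σ) ω) :
    ∀ k ≤ S, 1 ≤ ∫ ω, ∏ σ ∈ range k, φ σ ω ∂law := by
  intro k
  induction k with
  | zero => simp
  | succ k ih =>
    intro hk
    have := step (hC k hk) z (ψ := fun ω => -φ k ω) (-1) (FD.prod (φ := φ) (S := k)
      fun σ h => hφ σ (by omega)) (fun ω ω' H => by simp only [hφ k hk ω ω' H])
      (fun ω => prod_nonneg fun σ h => φ0 σ (by have := mem_range.1 h; omega) ω)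
      (fun y ω ω' h1 h2 => prod_congr rfl fun τ h => pre k hk τ (mem_range.1 h) y ω ω' h1 h2)
      (fun ω h => neg_le_neg (off k hk ω h))
      (fun y h1 ω h2 => by
        have := on k hk y h1 ω h2
        rw [av] at this ⊢
        rw [sum_neg_distrib, neg_div]
        linarith)
    simp only [mul_neg, integral_neg] at this
    simp only [prod_range_succ]
    linarith [ih (by omega)]

theorem second {β : Type} (N : Finset β) (hN : N.Nonempty) (hC : ∀ σ < S, Stp Y Z u (C σ))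
    (φ : β → ℕ → Om → ℝ) (ρ : β → β → ℕ → ℝ) (ρ1 : ∀ n n' σ, 1 ≤ ρ n n' σ)
    (hφ : ∀ n ∈ N, ∀ σ < S, FD Z (φ n σ)) (φ0 : ∀ n ∈ N, ∀ σ < S, ∀ ω, 0 ≤ φ n σ ω)
    (pre : ∀ n ∈ N, ∀ σ < S, ∀ τ < σ, ∀ y ω ω', ω ∈ C σ y → Ag (u y) ω ω' → φ n τ ω = φ n τ ω')
    (off : ∀ n ∈ N, ∀ σ < S, ∀ ω, (∀ y < Y, ω ∉ C σ y) → φ n σ ω = 1)
    (on : ∀ n ∈ N, ∀ σ < S, ∀ y < Y, ∀ ω ∈ C σ y, 1 ≤ av (u y) (z y) (φ n σ) ω)
    (on2 : ∀ n ∈ N, ∀ n' ∈ N, ∀ σ < S, ∀ y < Y, ∀ ω ∈ C σ y,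
      av (u y) (z y) (fun ω => φ n σ ω * φ n' σ ω) ω ≤ ρ n n' σ) :
    law {ω | ∀ n ∈ N, ∃ σ < S, φ n σ ω = 0} ≤
      ENNReal.ofReal ((∑ n ∈ N, ∑ n' ∈ N, ∏ σ ∈ range S, ρ n n' σ) / (#N : ℝ) ^ 2 - 1) := by
  set P : β → Om → ℝ := fun n ω => ∏ σ ∈ range S, φ n σ ω with hP
  have P1 : ∀ n ∈ N, FD Z (P n) := fun n hn => FD.prod (hφ n hn)
  have a1 : ∀ n ∈ N, 1 ≤ ∫ ω, P n ω ∂law := fun n hn => prod_lo hC (φ n) (hφ n hn) (φ0 n hn)
    (pre n hn) (fun σ h ω h' => (off n hn σ h ω h').ge) (on n hn) S le_rfl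
  have a2 : ∀ n ∈ N, ∀ n' ∈ N, ∫ ω, P n ω * P n' ω ∂law ≤ ∏ σ ∈ range S, ρ n n' σ := by
    intro n hn n' hn'
    simp only [hP, ← prod_mul_distrib]
    exact prod_up hC (fun σ ω => φ n σ ω * φ n' σ ω) (ρ n n') (fun σ => by linarith [ρ1 n n' σ])
      (fun σ h => (hφ n hn σ h).mul (hφ n' hn' σ h))
      (fun σ h ω => mul_nonneg (φ0 n hn σ h ω) (φ0 n' hn' σ h ω))
      (fun σ h τ h' y ω ω' b1 b2 => by
        rw [pre n hn σ h τ h' y ω ω' b1 b2, pre n' hn' σ h τ h' y ω ω' b1 b2])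
      (fun σ h ω h' => by rw [off n hn σ h ω h', off n' hn' σ h ω h', one_mul]; exact ρ1 _ _ _)
      (on2 n hn n' hn') S le_rfl
  set s : ℝ := (#N : ℝ) with hs
  have s0 : 0 < s := by rw [hs]; exact_mod_cast hN.card_pos
  set M : Om → ℝ := fun ω => ∑ n ∈ N, P n ω with hM
  have M1 : FD Z M := fun ω ω' H => sum_congr rfl fun n hn => P1 n hn ω ω' H
  have b1 : s ≤ ∫ ω, M ω ∂law := by
    rw [hM, integral_finsetSum _ fun n hn => (P1 n hn).int]
    refine le_trans (le_of_eq ?_) (sum_le_sum a1)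
    simp [hs]
  have b2 : ∫ ω, M ω * M ω ∂law ≤ ∑ n ∈ N, ∑ n' ∈ N, ∏ σ ∈ range S, ρ n n' σ := by
    simp only [hM, sum_mul_sum]
    rw [integral_finsetSum _ fun n hn => integrable_finsetSum _ fun n' hn' =>
      ((P1 n hn).mul (P1 n' hn')).int]
    refine sum_le_sum fun n hn => ?_
    rw [integral_finsetSum _ fun n' hn' => ((P1 n hn).mul (P1 n' hn')).int]
    exact sum_le_sum (a2 n hn)
  have b3 : FD Z fun ω => (M ω - s) ^ 2 := fun ω ω' H => by simp only [M1 ω ω' H]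
  have b4 := mul_meas_ge_le_integral_of_nonneg (μ := law) (f := fun ω => (M ω - s) ^ 2)
    (Filter.Eventually.of_forall fun ω => sq_nonneg _) b3.int (s ^ 2)
  have b5 : ∫ ω, (M ω - s) ^ 2 ∂law = ∫ ω, M ω * M ω ∂law - 2 * s * ∫ ω, M ω ∂law + s ^ 2 := by
    have : ∀ ω, (M ω - s) ^ 2 = M ω * M ω - 2 * s * M ω + s ^ 2 := fun ω => by ring
    simp only [this]
    have i1 : Integrable (fun ω => M ω * M ω - 2 * s * M ω) law :=
      (M1.mul M1).int.sub (M1.int.const_mul _)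
    rw [integral_add i1 (integrable_const _), integral_sub (M1.mul M1).int (M1.int.const_mul _),
      integral_const_mul]
    simp
  refine (measure_mono (t := {ω | s ^ 2 ≤ (M ω - s) ^ 2}) fun ω hω => ?_).trans ?_
  · have : M ω = 0 := sum_eq_zero fun n hn => by
      obtain ⟨σ, c1, c2⟩ := hω n hn
      exact prod_eq_zero (mem_range.2 c1) c2
    simp [this]
  · rw [← ofReal_measureReal]
    apply ENNReal.ofReal_le_ofReal
    rw [le_sub_iff_add_le, le_div_iff₀ (by positivity)]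
    nlinarith

end

end Pool.Agent.Lib.MP_be93de_nt
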