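import Mathlib
import Pool.Agent.Lib.MP_be93de_nt.RsStein

/-! Exposure of the classes region by region. -/

namespace Pool.Agent.Lib.MP_be93de_nt

open Finset

variable {ι : Type} [Fintype ι] [DecidableEq ι] {α : ι → Type} [∀ i, Fintype (α i)]
  [∀ i, DecidableEq (α i)]

/-- the values compatible with the exposure of `v` on `U` -/
def fib (U : ∀ i, Finset (α i)) (v : ∀ i, α i) (i : ι) : Finset (α i) :=
  if v i ∈ U i then {v i} else (U i)ᶜ

omit [Fintype ι] [DecidableEq ι] in
lemma mem_fib {U : ∀ i, Finset (α i)} {v : ∀ i, α i} {i : ι} {a : α i} :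
    a ∈ fib U v i ↔ (v i ∈ U i ∨ a ∈ U i → a = v i) := by
  unfold fib
  split_ifs with h
  · simp [h]
  · simp only [mem_compl, h, false_or]
    exact ⟨fun h1 h2 => absurd h2 h1, fun h1 h2 => h (h1 h2 ▸ h2)⟩

omit [Fintype ι] [DecidableEq ι] in
lemma self_fib (U : ∀ i, Finset (α i)) (v : ∀ i, α i) (i : ι) : v i ∈ fib U v i :=
  mem_fib.2 fun _ => rfl

omit [Fintype ι] [DecidableEq ι] in
lemma fib_ne (U : ∀ i, Finset (α i)) (v : ∀ i, α i) (i : ι) : Nonempty (fib U v i) :=
  ⟨⟨v i, self_fib U v i⟩⟩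

omit [Fintype ι] [DecidableEq ι] in
lemma fib_congr {U : ∀ i, Finset (α i)} {v w : ∀ i, α i} (h : ∀ i, w i ∈ fib U v i) :
    fib U w = fib U v := by
  funext i
  have := mem_fib.1 (h i)
  unfold fib
  by_cases h1 : v i ∈ U i
  · rw [this (Or.inl h1)]
  · rw [if_neg h1, if_neg fun h2 => h1 (this (Or.inr h2) ▸ h2)]

omit [∀ i, Fintype (α i)] [∀ i, DecidableEq (α i)] in
lemma sum_pi (t : ∀ i, Finset (α i)) (f : (∀ i, α i) → ℝ) :
    ∑ w ∈ Fintype.piFinset t, f w = ∑ w : ∀ i, t i, f fun i => w i := by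
  symm
  refine sum_bij (fun w _ i => w i) (fun w _ => Fintype.mem_piFinset.2 fun i => (w i).2)
    (fun w _ w' _ h => funext fun i => Subtype.ext (congrFun h i)) (fun w hw => ?_) fun _ _ => rfl
  exact ⟨fun i => ⟨w i, Fintype.mem_piFinset.1 hw i⟩, mem_univ _, rfl⟩

lemma fib_step (U : ∀ i, Finset (α i)) (W f : (∀ i, α i) → ℝ) (ρ : ℝ) (W0 : ∀ v, 0 ≤ W v)
    (hW : ∀ v w, (∀ i, w i ∈ fib U v i) → W w = W v)
    (hf : ∀ v, ∑ w : ∀ i, fib U v i, f (fun i => w i) ≤ Fintype.card (∀ i, fib U v i) * ρ) :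
    ∑ v, W v * f v ≤ ρ * ∑ v, W v := by
  set c : (∀ i, α i) → ℝ := fun v => #(Fintype.piFinset (fib U v)) with hc
  have c0 : ∀ v, 0 < c v := fun v => by
    simp only [hc]
    exact_mod_cast card_pos.2 ⟨v, Fintype.mem_piFinset.2 (self_fib U v)⟩
  calc _ = ∑ v, ∑ _w ∈ Fintype.piFinset (fib U v), W v * f v / c v := by
        refine sum_congr rfl fun v _ => ?_
        rw [sum_const, nsmul_eq_mul]
        have := (c0 v).ne'
        change _ = c v * _
        field_simp
    _ = ∑ w, ∑ v ∈ Fintype.piFinset (fib U w), W v * f v / c v := by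
        apply sum_comm'
        intro v w
        simp only [mem_univ, true_and, and_true, Fintype.mem_piFinset]
        exact ⟨fun h => fib_congr h ▸ self_fib U v, fun h => fib_congr h ▸ self_fib U w⟩
    _ ≤ ∑ w, ρ * W w := by
        apply sum_le_sum
        intro w _
        have e : ∑ v ∈ Fintype.piFinset (fib U w), W v * f v / c v =
            W w / c w * ∑ v ∈ Fintype.piFinset (fib U w), f v := by
          rw [mul_sum]
          refine sum_congr rfl fun v hv => ?_
          have h := Fintype.mem_piFinset.1 hv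
          rw [hW w v h]
          simp only [hc, fib_congr h]
          ring
        have e2 : (Fintype.card (∀ i, fib U w i) : ℝ) = c w := by
          simp [hc, Fintype.card_pi]
        rw [e, sum_pi]
        refine (mul_le_mul_of_nonneg_left (hf w) (div_nonneg (W0 w) (c0 w).le)).trans (le_of_eq ?_)
        have := (c0 w).ne'
        rw [e2]
        field_simp
    _ = _ := by rw [mul_sum]

open Classical in
lemma chain_w (J : ℕ) (U : ℕ → ∀ i, Finset (α i)) (B : ℕ → (∀ i, α i) → Prop) (θ c : ℝ)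
    (θ0 : 0 ≤ θ) (c0 : 0 ≤ c)
    (hi : ∀ j j', j < j' → j' < J → ∀ v w, (∀ i, w i ∈ fib (U j) v i) → (B j' w ↔ B j' v))
    (hB : ∀ j < J, ∀ v, ∑ w : ∀ i, fib (U j) v i, (if B j (fun i => w i) then (1 : ℝ) else 0) ≤
      Fintype.card (∀ i, fib (U j) v i) * θ) :
    ∀ m ≤ J, ∑ v, ∏ j ∈ Ico (J - m) J, (1 + c * if B j v then (1 : ℝ) else 0) ≤
      Fintype.card (∀ i, α i) * (1 + c * θ) ^ m := by
  intro m
  induction m with
  | zero => simp
  | succ m ih =>
    intro hm
    have e : J - m = J - (m + 1) + 1 := by omega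
    have := fib_step (U (J - (m + 1)))
      (fun v => ∏ j ∈ Ico (J - m) J, (1 + c * if B j v then (1 : ℝ) else 0))
      (fun v => 1 + c * if B (J - (m + 1)) v then (1 : ℝ) else 0) (1 + c * θ)
      (fun v => prod_nonneg fun j _ => by split_ifs <;> positivity)
      (fun v w h => prod_congr rfl fun j hj => by
        rw [mem_Ico] at hj
        simp only [hi _ j (by omega) hj.2 v w h])
      (fun v => by
        rw [sum_add_distrib, sum_const, card_univ, nsmul_eq_mul, ← mul_sum]
        have := mul_le_mul_of_nonneg_left (hB (J - (m + 1)) (by omega) v) c0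
        linarith)
    calc _ = ∑ v, (∏ j ∈ Ico (J - m) J, (1 + c * if B j v then (1 : ℝ) else 0)) *
          (1 + c * if B (J - (m + 1)) v then (1 : ℝ) else 0) := by
          refine sum_congr rfl fun v _ => ?_
          rw [prod_eq_prod_Ico_succ_bot (by omega : J - (m + 1) < J), ← e, mul_comm]
      _ ≤ (1 + c * θ) * (Fintype.card (∀ i, α i) * (1 + c * θ) ^ m) :=
          this.trans (mul_le_mul_of_nonneg_left (ih (by omega)) (by positivity))
      _ = _ := by ring

open Classical in
theorem chain_tail (J m : ℕ) (U : ℕ → ∀ i, Finset (α i)) (B : ℕ → (∀ i, α i) → Prop) (θ : ℝ)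
    (θ0 : 0 < θ)
    (hi : ∀ j j', j < j' → j' < J → ∀ v w, (∀ i, w i ∈ fib (U j) v i) → (B j' w ↔ B j' v))
    (hB : ∀ j < J, ∀ v, ∑ w : ∀ i, fib (U j) v i, (if B j (fun i => w i) then (1 : ℝ) else 0) ≤
      Fintype.card (∀ i, fib (U j) v i) * θ) :
    (#{v : ∀ i, α i | m ≤ #{j ∈ range J | B j v}} : ℝ) ≤
      Fintype.card (∀ i, α i) * (2 ^ J * θ ^ m) := by
  have h := chain_w J U B θ θ⁻¹ θ0.le (by positivity) hi hB J le_rfl
  rw [Nat.sub_self, ← range_eq_Ico, inv_mul_cancel₀ θ0.ne', one_add_one_eq_two] at h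
  rw [← mul_assoc]
  refine le_trans ?_ (mul_le_mul_of_nonneg_right h (by positivity))
  rw [card_filter, Nat.cast_sum, sum_mul]
  apply sum_le_sum
  intro v _
  have e : ∏ j ∈ range J, (1 + θ⁻¹ * if B j v then (1 : ℝ) else 0) =
      (1 + θ⁻¹) ^ #{j ∈ range J | B j v} := by
    rw [← prod_const, prod_filter]
    refine prod_congr rfl fun j _ => ?_
    split_ifs <;> simp
  rw [e]
  have t : 0 < θ⁻¹ := by positivity
  split_ifs with h1
  · calc ((1 : ℕ) : ℝ) = θ⁻¹ ^ m * θ ^ m := by
          rw [← mul_pow, inv_mul_cancel₀ θ0.ne', one_pow, Nat.cast_one]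
      _ ≤ (1 + θ⁻¹) ^ m * θ ^ m := by gcongr; linarith
      _ ≤ _ := by gcongr; linarith
  · rw [Nat.cast_zero]; positivity

lemma nhit_tail [∀ i, Nonempty (α i)] (S : ∀ i, Finset (α i)) (m : ℕ) :
    (#{v : ∀ i, α i | m ≤ nhit S univ v} : ℝ) ≤
      Fintype.card (∀ i, α i) * (Real.exp (∑ i, prp (S i)) / 2 ^ m) := by
  have e : ∑ v : ∀ i, α i, (2 : ℝ) ^ nhit S univ v =
      ∏ i, (Fintype.card (α i) * (1 + prp (S i))) := by
    calc _ = ∑ v : ∀ i, α i, ∏ i, (if v i ∈ S i then (2 : ℝ) else 1) := by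
          refine sum_congr rfl fun v _ => ?_
          rw [nhit, ← prod_const, prod_filter]
      _ = ∏ i, ∑ a : α i, (if a ∈ S i then (2 : ℝ) else 1) := by
          rw [prod_univ_sum, Fintype.piFinset_univ]
      _ = _ := by
          refine prod_congr rfl fun i _ => ?_
          have c0 : (0 : ℝ) < Fintype.card (α i) := by exact_mod_cast Fintype.card_pos
          have : ∀ a : α i, (if a ∈ S i then (2 : ℝ) else 1) = 1 + if a ∈ S i then 1 else 0 := by
            intro a; split_ifs <;> norm_num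
          simp only [this, sum_add_distrib, sum_const, card_univ, nsmul_eq_mul, sum_boole,
            filter_univ_mem, prp]
          field_simp
  rw [prod_mul_distrib, ← Nat.cast_prod, ← Fintype.card_pi] at e
  rw [← mul_div_assoc, le_div_iff₀ (by positivity)]
  calc _ ≤ ∑ v : ∀ i, α i, (2 : ℝ) ^ nhit S univ v := by
        rw [card_filter, Nat.cast_sum, sum_mul]
        apply sum_le_sum
        intro v _
        split_ifs with h
        · rw [Nat.cast_one, one_mul]
          exact pow_le_pow_right₀ one_le_two h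
        · rw [Nat.cast_zero, zero_mul]; positivity
    _ ≤ _ := by
        rw [e, Real.exp_sum]
        gcongr with i
        · exact fun i _ => by linarith [prp_nonneg (S i)]
        · linarith [Real.add_one_le_exp (prp (S i))]

end Pool.Agent.Lib.MP_be93de_nt
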