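import Mathlib
import Pool.Agent.Lib.MP_be93de_nt.RlAbs
import Pool.Agent.Lib.MP_be93de_nt.RlFib

/-! Marked points at a prescribed distance in rank: one block. -/

namespace Pool.Agent.Lib.MP_be93de_nt

open Finset

lemma cIoc_congr {P Q : ℕ → Prop} [DecidablePred P] [DecidablePred Q] {a b : ℕ}
    (h : ∀ n, a < n → n ≤ b → (P n ↔ Q n)) : #{n ∈ Ioc a b | P n} = #{n ∈ Ioc a b | Q n} := by
  congr 1
  exact filter_congr fun n hn => h n (mem_Ioc.1 hn).1 (mem_Ioc.1 hn).2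

lemma gm_congr {S R S' R' : ℕ → Prop} {x L : ℕ} (h : ∀ n, x < n → n ≤ L → (S n ↔ S' n))
    (h' : ∀ n, x < n → n ≤ L → (R n ↔ R' n)) (l : ℕ) : gm S R x L l = gm S' R' x L l := by
  classical
  unfold gm
  refine if_congr (or_congr_right (exists_congr fun t => and_congr_right fun ht => ?_)) rfl rfl
  rw [mem_Ioc] at ht
  rw [h t ht.1 ht.2, h' t ht.1 ht.2, cIoc_congr (Q := S') fun n a b => h n a (b.trans ht.2)]

variable {ι : Type} [Fintype ι] [DecidableEq ι] (p : ι → ℕ) [∀ i, NeZero (p i)]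

/-- survivors of the old and of the new classes -/
def Fs (Sv : ℕ → Prop) (v : ∀ i, ZMod (p i)) (n : ℕ) : Prop :=
  Sv n ∧ ∀ i, (n : ZMod (p i)) ≠ v i

/-- classes of a set of points -/
def cls (A : Finset ℕ) (i : ι) : Finset (ZMod (p i)) := A.image fun n : ℕ => (n : ZMod (p i))

variable {p}

omit [Fintype ι] [DecidableEq ι] in
lemma Fs_congr {Sv : ℕ → Prop} {A : Finset ℕ} {v w : ∀ i, ZMod (p i)}
    (h : ∀ i, w i ∈ fib (cls p A) v i) {n : ℕ} (hn : n ∈ A) : Fs p Sv w n ↔ Fs p Sv v n := by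
  refine and_congr_right fun _ => forall_congr' fun i => not_congr ?_
  have h1 := mem_fib.1 (h i)
  have h2 : (n : ZMod (p i)) ∈ cls p A i := mem_image_of_mem _ hn
  exact ⟨fun h3 => h3.trans (h1 (Or.inr (h3 ▸ h2))), fun h3 =>
    h3.trans (h1 (Or.inl (h3 ▸ h2))).symm⟩

omit [DecidableEq ι] in
lemma nhit_congr {A A' : Finset ℕ} (hA : A' ⊆ A) {v w : ∀ i, ZMod (p i)}
    (h : ∀ i, w i ∈ fib (cls p A) v i) : nhit (cls p A') univ w = nhit (cls p A') univ v := by
  unfold nhit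
  congr 1
  refine filter_congr fun i _ => ?_
  have h1 := mem_fib.1 (h i)
  have h2 : cls p A' i ⊆ cls p A i := image_subset_image hA
  exact ⟨fun h3 => h1 (Or.inr (h2 h3)) ▸ h3, fun h3 => (h1 (Or.inl (h2 h3))).symm ▸ h3⟩

/-- removal inside a fibre -/
def kf (A : Finset ℕ) (v : ∀ i, ZMod (p i)) (i : ι) (a : fib (cls p A) v i) (n : ℕ) : Prop :=
  (n : ZMod (p i)) = a.1

omit [Fintype ι] [DecidableEq ι] in
lemma kf_up (A B : Finset ℕ) (v : ∀ i, ZMod (p i)) (i : ι) (hA : 2 * #A ≤ p i)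
    (hB : ∀ n ∈ B, (n : ZMod (p i)) ∉ cls p A i) :
    prp (kB (kf A v) B i) ≤ #B * (2 / (p i : ℝ)) := by
  have p0 : (0 : ℝ) < p i := by exact_mod_cast Nat.pos_of_ne_zero (NeZero.ne _)
  by_cases h : v i ∈ cls p A i
  · have : kB (kf A v) B i = ∅ := by
      rw [eq_empty_iff_forall_notMem]
      intro a ha
      obtain ⟨n, h1, h2⟩ := mem_kB.1 ha
      exact hB n h1 (by rw [h2, mem_fib.1 a.2 (Or.inl h)]; exact h)
    rw [this, prp, card_empty, Nat.cast_zero, zero_div]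
    positivity
  · have c1 : #(kB (kf A v) B i) ≤ #B := by
      apply card_le_card_of_forall_subsingleton (fun a n => kf A v i a n)
      · exact fun a ha => mem_kB.1 ha
      · exact fun n _ a ha a' ha' => Subtype.ext (ha.2.symm.trans ha'.2)
    have c2 : p i ≤ 2 * Fintype.card (fib (cls p A) v i) := by
      have : #(cls p A i) ≤ #A := card_image_le
      rw [Fintype.card_coe, fib, if_neg h, card_compl, ZMod.card]
      omega
    have c3 : (p i : ℝ) ≤ 2 * Fintype.card (fib (cls p A) v i) := by exact_mod_cast c2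
    have c4 : (#(kB (kf A v) B i) : ℝ) ≤ #B := by exact_mod_cast c1
    rw [prp, mul_div_assoc', div_le_div_iff₀ (by linarith) p0]
    have : (0 : ℝ) ≤ #B := Nat.cast_nonneg _
    nlinarith

omit [Fintype ι] [DecidableEq ι] in
lemma kf_lo (A B : Finset ℕ) (v : ∀ i, ZMod (p i)) (i : ι) (h : v i ∉ cls p A i)
    (hB : ∀ n ∈ B, (n : ZMod (p i)) ∉ cls p A i)
    (inj : ∀ n ∈ B, ∀ n' ∈ B, (n : ZMod (p i)) = n' → n = n') :
    #B * (1 / (p i : ℝ)) ≤ prp (kB (kf A v) B i) := by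
  have c1 : #B ≤ #(kB (kf A v) B i) := by
    apply card_le_card_of_forall_subsingleton (fun n a => kf A v i a n)
    · intro n hn
      refine ⟨⟨n, mem_fib.2 fun h1 => absurd h1 (not_or.2 ⟨h, hB n hn⟩)⟩, mem_kB.2 ⟨n, hn, rfl⟩, rfl⟩
    · exact fun a _ n hn n' hn' => inj n hn.1 n' hn'.1 (hn.2.trans hn'.2.symm)
  have c2 : Fintype.card (fib (cls p A) v i) ≤ p i := by
    rw [Fintype.card_coe]
    exact (card_le_univ _).trans (ZMod.card _).le
  have := fib_ne (cls p A) v i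
  have c0 : (0 : ℝ) < Fintype.card (fib (cls p A) v i) := by exact_mod_cast Fintype.card_pos
  rw [prp, mul_one_div]
  gcongr

open Classical in
/-- regular windows to the right of `b` -/
def RG (Sv : ℕ → Prop) (b L h : ℕ) (a β : ℝ) (v : ∀ i, ZMod (p i)) : Prop :=
  ∀ e, b ≤ e → e ≤ L → a ≤ (#{n ∈ Ioc e (e + h) | Fs p Sv v n} : ℝ) ∧
    (#{n ∈ Ioc e (e + h) | Fs p Sv v n ∧ Fs p Sv v (n + 2)} : ℝ) ≤ β

omit [Fintype ι] [DecidableEq ι] [∀ i, NeZero (p i)] in
lemma RG_congr {Sv : ℕ → Prop} {b L h : ℕ} {a β : ℝ} {v w : ∀ i, ZMod (p i)}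
    (H : ∀ n, b < n → n ≤ L + h + 2 → (Fs p Sv w n ↔ Fs p Sv v n)) :
    RG Sv b L h a β w ↔ RG Sv b L h a β v := by
  classical
  refine forall₃_congr fun e h1 h2 => ?_
  rw [cIoc_congr (Q := Fs p Sv v) fun n a b => H n (by omega) (by omega),
    cIoc_congr (P := fun n => Fs p Sv w n ∧ Fs p Sv w (n + 2))
      (Q := fun n => Fs p Sv v n ∧ Fs p Sv v (n + 2)) fun n a b =>
      and_congr (H n (by omega) (by omega)) (H _ (by omega) (by omega))]

open Classical in
/-- the weight of the point `t` -/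
noncomputable def wt (Sv : ℕ → Prop) (b L l : ℕ) (v : ∀ i, ZMod (p i)) (t : ℕ) : ℝ :=
  gm (Fs p Sv v) (fun n => Fs p Sv v (n + 2)) b L (l - #{n ∈ Ioc t b | Fs p Sv v n})

omit [Fintype ι] [DecidableEq ι] [∀ i, NeZero (p i)] in
lemma wt_congr {Sv : ℕ → Prop} {b L l t : ℕ} {v w : ∀ i, ZMod (p i)} (ht : t ≤ b) (hL : b ≤ L)
    (H : ∀ n, t < n → n ≤ L + 2 → (Fs p Sv w n ↔ Fs p Sv v n)) :
    wt Sv b L l w t = wt Sv b L l v t := by
  classical
  rw [wt, wt, cIoc_congr (Q := Fs p Sv v) fun n a b => H n (by omega) (by omega)]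
  exact gm_congr (fun n a b => H n (by omega) (by omega))
    (fun n a b => H _ (by omega) (by omega)) _

open Classical in
theorem block (Sv : ℕ → Prop) (e z G b L E h l m z₀ c t : ℕ) (a β s q q' : ℝ) (ha : 0 < a)
    (hβ : 0 ≤ β) (h0 : 0 < h) (hz : e ≤ z) (hb : z + G + G ≤ b) (hl : b ≤ e + l) (hL : b ≤ L)
    (hE : L + 2 ≤ E) (hp : ∀ i, z₀ ≤ p i) (hz₀ : 2 * E ≤ 2 * e + z₀) (hG : 4 * G ≤ z₀)
    (z0 : 0 < z₀) (hq : ∑ i, 1 / (p i : ℝ) ≤ q') (hq' : q ≤ ∑ i, 1 / (p i : ℝ))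
    (hc : c ≤ #{n ∈ Ioc (z + G) (z + G + G) | Sv n}) (hs : 0 < s)
    (hs2 : 2 * s ^ 2 ≤ c * (q - m / z₀)) (ht : t ∈ Ioc z (z + G)) (v : ∀ i, ZMod (p i))
    (hv : RG Sv b L h a β v)
    (hm : nhit (cls p (Ioc z (z + G) ∪ Ioc (z + G + G) E)) univ v < m) :
    ∑ w : ∀ i, fib (cls p (Ioc z (z + G) ∪ Ioc (z + G + G) E)) v i,
        wt Sv b L l (fun i => (w i).1) t ≤
      Fintype.card (∀ i, fib (cls p (Ioc z (z + G) ∪ Ioc (z + G + G) E)) v i) *
        (β / a + (β + 1) / s + G * (2 / z₀) + G * (2 * q') ^ 2) := by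
  set A := Ioc z (z + G) ∪ Ioc (z + G + G) E with hA
  set B : Finset ℕ := {n ∈ Ioc (z + G) (z + G + G) | Sv n} with hB
  rw [mem_Ioc] at ht
  have p0 : ∀ i, (0 : ℝ) < p i := fun i => by exact_mod_cast Nat.pos_of_ne_zero (NeZero.ne _)
  have z1 : (0 : ℝ) < z₀ := by exact_mod_cast z0
  have mA : ∀ n, n ∈ A ↔ (z < n ∧ n ≤ z + G) ∨ (z + G + G < n ∧ n ≤ E) := by
    intro n; simp only [hA, mem_union, mem_Ioc]
  have mB : ∀ n ∈ B, z + G < n ∧ n ≤ z + G + G := fun n hn => mem_Ioc.1 (mem_filter.1 hn).1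
  have inj : ∀ i n n', e < n → n ≤ E → e < n' → n' ≤ E → (n : ZMod (p i)) = n' → n = n' :=
    fun i n n' a1 a2 a3 a4 h => zinj (y := e) (x := E) (by have := hp i; omega)
      (mem_Ioc.2 ⟨a1, a2⟩) (mem_Ioc.2 ⟨a3, a4⟩) h
  have cA : ∀ i, 2 * #A ≤ p i := by
    intro i
    have h1 : #A ≤ #(Ioc e E) := card_le_card fun n hn => by
      rw [mA] at hn; exact mem_Ioc.2 (by omega)
    rw [Nat.card_Ioc] at h1
    have := hp i
    omega
  have cB : #B ≤ G := (cIoc_le _ _ _).trans (by omega)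
  have cB' : (#B : ℝ) ≤ G := by exact_mod_cast cB
  have out : ∀ i, ∀ n ∈ B, (n : ZMod (p i)) ∉ cls p A i := by
    intro i n hn h1
    obtain ⟨n', h2, h3⟩ := mem_image.1 h1
    have := mB n hn
    rw [mA] at h2
    have := inj i n' n (by omega) (by omega) (by omega) (by omega) h3
    omega
  set c1 := #{n ∈ Ioc t (z + G) | Fs p Sv v n} with hc1
  set c2 := #{n ∈ Ioc (z + G + G) b | Fs p Sv v n} with hc2
  have d1 : c1 ≤ z + G - t := cIoc_le _ _ _
  have d2 : c2 ≤ b - (z + G + G) := cIoc_le _ _ _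
  set g : ℕ → ℝ := fun k => gm (Fs p Sv v) (fun n => Fs p Sv v (n + 2)) b L
    (l - (c1 + #B + c2) + k) with hg
  have := fib_ne (cls p A) v
  have key := nk_up (kf A v) B (fun i => 2 / (p i : ℝ)) (2 * q')
    (fun i x n hn n' hn' h1 h2 => by
      have := mB n hn
      have := mB n' hn'
      exact inj i n n' (by omega) (by omega) (by omega) (by omega) (h1.trans h2.symm))
    (fun i => by positivity)
    (fun i n hn => by
      simpa using kf_up A {n} v i (cA i) fun n' hn' => mem_singleton.1 hn' ▸ out i n hn)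
    (by
      calc _ = 2 * ∑ i, 1 / (p i : ℝ) := by
            rw [mul_sum]; exact sum_congr rfl fun i _ => by ring
        _ ≤ _ := by linarith)
    g (fun _ => gm_nonneg _ _ _ _ _) (fun _ => gm_le _ _ _ _ _) (β / a) (β + 1) s (G * (2 / z₀))
    (by positivity)
    (fun i j => by
      have := lindley_up (Fs p Sv v) (fun n => Fs p Sv v (n + 2)) b h L a β ha hβ h0
        (fun e a1 a2 => (hv e a1 a2).1) (fun e a1 a2 => (hv e a1 a2).2)
        (i + (l - (c1 + #B + c2))) (j + (l - (c1 + #B + c2)))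
      rwa [← sum_Ico_add] at this)
    (fun i => by
      refine (kf_up A B v i (cA i) (out i)).trans ?_
      have : (z₀ : ℝ) ≤ p i := by exact_mod_cast hp i
      gcongr)
    (by positivity)
    (by
      have : (4 : ℝ) * G ≤ z₀ := by exact_mod_cast hG
      rw [mul_div_assoc', div_le_div_iff₀ z1 two_pos]
      linarith) hs
    (by
      have a1 : ∑ i, 1 / (p i : ℝ) ≤ ∑ i with v i ∉ cls p A i, 1 / (p i : ℝ) + m / z₀ := by
        rw [← sum_filter_not_add_sum_filter univ (fun i => v i ∈ cls p A i)]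
        gcongr
        calc _ ≤ ∑ _i with v _i ∈ cls p A _i, 1 / (z₀ : ℝ) := sum_le_sum fun i _ =>
              one_div_le_one_div_of_le z1 (by exact_mod_cast hp i)
          _ ≤ _ := by
              rw [sum_const, nsmul_eq_mul, mul_one_div]
              gcongr
              exact hm.le
      have a2 : (c : ℝ) ≤ #B := by exact_mod_cast hc
      have a3 : 0 ≤ ∑ i with v i ∉ cls p A i, 1 / (p i : ℝ) := sum_nonneg fun _ _ => by positivity
      calc 2 * s ^ 2 ≤ c * ∑ i with v i ∉ cls p A i, 1 / (p i : ℝ) :=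
            hs2.trans (mul_le_mul_of_nonneg_left (by linarith) (Nat.cast_nonneg _))
        _ ≤ #B * ∑ i with v i ∉ cls p A i, 1 / (p i : ℝ) := by gcongr
        _ ≤ ∑ i with v i ∉ cls p A i, prp (kB (kf A v) B i) := by
            rw [mul_sum]
            refine sum_le_sum fun i hi => kf_lo A B v i (mem_filter.1 hi).2 (out i) ?_
            intro n hn n' hn' h
            have := mB n hn
            have := mB n' hn'
            exact inj i n n' (by omega) (by omega) (by omega) (by omega) h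
        _ ≤ _ := sum_le_sum_of_subset_of_nonneg (filter_subset _ _) fun _ _ _ => prp_nonneg _)
  refine le_trans (le_of_eq (sum_congr rfl fun w _ => ?_)) (key.trans (by gcongr))
  have H : ∀ n ∈ A, Fs p Sv (fun i => (w i).1) n ↔ Fs p Sv v n :=
    fun n hn => Fs_congr (fun i => (w i).2) hn
  have e1 := nk_add (kf A v) B w (fun n => ∀ i, (n : ZMod (p i)) ≠ (w i).1) fun n _ => Iff.rfl
  rw [hB, filter_filter, ← hB] at e1
  have e2 : #{n ∈ Ioc t b | Fs p Sv (fun i => (w i).1) n} =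
      c1 + #{n ∈ Ioc (z + G) (z + G + G) | Sv n ∧ ∀ i, (n : ZMod (p i)) ≠ (w i).1} + c2 := by
    rw [cIoc_add _ (by omega : t ≤ z + G + G) hb, cIoc_add _ ht.2 (Nat.le_add_right _ G), hc1, hc2,
      cIoc_congr (Q := Fs p Sv v) (a := t) fun n a b => H n ((mA n).2 (by omega)),
      cIoc_congr (Q := Fs p Sv v) (a := z + G + G) fun n a b => H n ((mA n).2 (by omega))]
    congr
  rw [wt, e2, hg]
  rw [gm_congr (S' := Fs p Sv v) (R' := fun n => Fs p Sv v (n + 2))
    (fun n a b => H n ((mA n).2 (by omega))) (fun n a b => H _ ((mA _).2 (by omega)))]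
  congr 1
  omega

end Pool.Agent.Lib.MP_be93de_nt
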