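import Mathlib
import Pool.Agent.Lib.MP_be93de_nt.RlPair

/-! Marked points at a prescribed distance in rank: all blocks. -/

namespace Pool.Agent.Lib.MP_be93de_nt

open Finset

open Classical in
/-- `t` starts a pair and so does the point `l` ranks later -/
def Pr (F : ℕ → Prop) (l t : ℕ) : Prop :=
  F (t + 2) ∧ ∃ t', F t' ∧ F (t' + 2) ∧ #{n ∈ Ioc t t' | F n} = l

variable {ι : Type} [Fintype ι] [DecidableEq ι] {p : ι → ℕ} [∀ i, NeZero (p i)]

omit [Fintype ι] [DecidableEq ι] [∀ i, NeZero (p i)] in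
lemma wt_one {Sv : ℕ → Prop} {b h l t : ℕ} {a β : ℝ} (ha : 0 < a) {v : ∀ i, ZMod (p i)}
    (hv : RG Sv b (b + l * h) h a β v) (h1 : t ≤ b) (h2 : b < t + l) (ht : Pr (Fs p Sv v) l t) :
    wt Sv b (b + l * h) l v t = 1 := by
  classical
  obtain ⟨-, t', a1, a2, a3⟩ := ht
  have b1 := cIoc_le (Fs p Sv v) t t'
  have b2 := cIoc_add (Fs p Sv v) h1 (by omega : b ≤ t')
  have b3 := many (Fs p Sv v) b h l fun e c1 c2 => by
    exact_mod_cast ha.trans_le (hv e c1 (by omega)).1
  have b4 : t' ≤ b + l * h := by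
    by_contra c
    have := cIoc_lt (Fs p Sv v) (Nat.le_add_right b (l * h)) (not_le.1 c) a1
    omega
  exact if_pos (Or.inr ⟨t', mem_Ioc.2 (by omega), a1, a2, by omega⟩)

open Classical in
theorem pair_abs (Sv : ℕ → Prop) (e G J h l m m₀ z₀ c : ℕ) (a β s q q' τ η θ : ℝ) (ha : 0 < a)
    (hβ : 0 ≤ β) (h0 : 0 < h) (hl : 2 * J * G ≤ l) (hp : ∀ i, z₀ ≤ p i)
    (hz₀ : 2 * (2 * J * G + l * h + h + 2) ≤ z₀) (hG : 4 * G ≤ z₀)
    (hq : ∑ i, 1 / (p i : ℝ) ≤ q') (hq' : q ≤ ∑ i, 1 / (p i : ℝ))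
    (hc : ∀ j < J, c ≤ #{n ∈ Ioc (e + 2 * j * G + G) (e + 2 * j * G + G + G) | Sv n})
    (hτ : ∀ j < J, (#{n ∈ Ioc (e + 2 * j * G) (e + 2 * j * G + G) | Sv n ∧ Sv (n + 2)} : ℝ) ≤ τ)
    (τ0 : 0 ≤ τ) (hs : 0 < s) (hs2 : 2 * s ^ 2 ≤ c * (q - m₀ / z₀)) (η0 : 0 < η) (θ0 : 0 < θ)
    (hθ : τ * (β / a + (β + 1) / s + G * (2 / z₀) + G * (2 * q') ^ 2) ≤ η * θ) :
    (#{v : ∀ i, ZMod (p i) | RG Sv (e + 2 * J * G) (e + 2 * J * G + l * h) h a β v ∧
      J * η + m * τ < ∑ j ∈ range J, (#{t ∈ Ioc (e + 2 * j * G) (e + 2 * j * G + G) |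
        Fs p Sv v t ∧ Pr (Fs p Sv v) l t} : ℝ)} : ℝ) ≤
    Fintype.card (∀ i, ZMod (p i)) *
      (2 ^ J * θ ^ m + Real.exp ((2 * J * G + l * h + h + 2 : ℕ) * q') / 2 ^ m₀) := by
  set b := e + 2 * J * G with hb
  set L := b + l * h with hL
  set A : ℕ → Finset ℕ := fun j => Ioc (e + 2 * j * G) (e + 2 * j * G + G) ∪
    Ioc (e + 2 * j * G + G + G) (L + h + 2) with hA
  set T : ℕ → Finset ℕ := fun j =>
    {n ∈ Ioc (e + 2 * j * G) (e + 2 * j * G + G) | Sv n ∧ Sv (n + 2)} with hT
  set B : ℕ → (∀ i, ZMod (p i)) → Prop := fun j v => RG Sv b L h a β v ∧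
    nhit (cls p (A j)) univ v < m₀ ∧ η < ∑ t ∈ T j, wt Sv b L l v t with hB
  have mA : ∀ j n, n ∈ A j ↔ (e + 2 * j * G < n ∧ n ≤ e + 2 * j * G + G) ∨
      (e + 2 * j * G + G + G < n ∧ n ≤ L + h + 2) := by
    intro j n; simp only [hA, mem_union, mem_Ioc]
  have mT : ∀ j, ∀ n ∈ T j, e + 2 * j * G < n ∧ n ≤ e + 2 * j * G + G :=
    fun j n hn => mem_Ioc.1 (mem_filter.1 hn).1
  have mono : ∀ j j', j < j' → 2 * j * G + G + G ≤ 2 * j' * G := fun j j' hj =>
    calc _ = 2 * (j + 1) * G := by ring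
      _ ≤ _ := by gcongr; omega
  have w0 : ∀ v t, 0 ≤ wt (p := p) Sv b L l v t := fun v t => gm_nonneg _ _ _ _ _
  have w1 : ∀ v t, wt (p := p) Sv b L l v t ≤ 1 := fun v t => gm_le _ _ _ _ _
  have rg : ∀ j < J, ∀ v w : ∀ i, ZMod (p i), (∀ i, w i ∈ fib (cls p (A j)) v i) →
      (RG Sv b L h a β w ↔ RG Sv b L h a β v) := fun j hj v w hw =>
    RG_congr fun n a1 a2 => Fs_congr hw ((mA j n).2 (by have := mono j J hj; omega))
  have s1 := chain_tail J m (fun j => cls p (A j)) B θ θ0
    (fun j j' a1 a2 v w hw => by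
      have b1 := mono j j' a1
      have b2 := mono j' J a2
      simp only [hB]
      rw [rg j (by omega) v w hw, nhit_congr (A' := A j') (fun n hn => by
        rw [mA] at hn ⊢; omega) hw, sum_congr rfl fun t ht => wt_congr (v := v) (w := w)
          (by have := mT j' t ht; omega) (by omega) fun n c1 c2 =>
            Fs_congr hw ((mA j n).2 (by have := mT j' t ht; omega))])
    (fun j hj v => by
      have b2 := mono j J hj
      by_cases hv : RG Sv b L h a β v ∧ nhit (cls p (A j)) univ v < m₀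
      · set κ := β / a + (β + 1) / s + G * (2 / z₀) + G * (2 * q') ^ 2 with hκ
        have κ0 : 0 ≤ κ := by positivity
        set C : ℝ := (Fintype.card (∀ i, fib (cls p (A j)) v i) : ℝ) with hC
        have C0 : 0 ≤ C := Nat.cast_nonneg _
        apply le_of_mul_le_mul_left _ η0
        calc _ ≤ ∑ w : ∀ i, fib (cls p (A j)) v i, ∑ t ∈ T j,
              wt Sv b L l (fun i => (w i).1) t := by
              rw [mul_sum]
              apply sum_le_sum
              intro w _
              split_ifs with h1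
              · rw [mul_one]; exact h1.2.2.le
              · rw [mul_zero]; exact sum_nonneg fun t _ => w0 _ t
          _ ≤ ∑ _t ∈ T j, C * κ := by
              rw [sum_comm]
              refine sum_le_sum fun t ht => ?_
              exact block Sv e (e + 2 * j * G) G b L (L + h + 2) h l m₀ z₀ c t a β s q q' ha hβ h0
                (by omega) (by omega) (by omega) (by omega) (by omega) hp (by omega) hG (by omega)
                hq hq' (hc j hj) hs hs2 (mem_filter.1 ht).1 v hv.1 hv.2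
          _ ≤ τ * (C * κ) := by
              rw [sum_const, nsmul_eq_mul]
              exact mul_le_mul_of_nonneg_right (hτ j hj) (by positivity)
          _ ≤ _ := by nlinarith [mul_le_mul_of_nonneg_left hθ C0]
      · rw [sum_eq_zero]
        · positivity
        · intro w _
          refine if_neg fun h1 => hv ⟨(rg j hj v _ fun i => (w i).2).1 h1.1, ?_⟩
          rw [← nhit_congr Subset.rfl fun i => (w i).2]
          exact h1.2.1)
  have s2 := nhit_tail (cls p (Ioc e (L + h + 2))) m₀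
  have s3 : ∑ i, prp (cls p (Ioc e (L + h + 2)) i) ≤ (2 * J * G + l * h + h + 2 : ℕ) * q' := by
    refine le_trans ?_ (mul_le_mul_of_nonneg_left hq (Nat.cast_nonneg _))
    rw [mul_sum]
    refine sum_le_sum fun i _ => ?_
    rw [prp, ZMod.card, mul_one_div]
    gcongr
    refine card_image_le.trans ?_
    rw [Nat.card_Ioc]
    omega
  rw [mul_add]
  refine le_trans ?_ (add_le_add s1 (s2.trans (by gcongr)))
  rw [← Nat.cast_add, Nat.cast_le]
  refine le_trans (card_le_card ?_) (card_union_le _ _)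
  intro v hv
  obtain ⟨a1, a2⟩ := (mem_filter.1 hv).2
  by_contra hc'
  simp only [mem_union, mem_filter, mem_univ, true_and, not_or, not_le] at hc'
  apply absurd a2
  rw [not_lt]
  calc _ ≤ ∑ j ∈ range J, (η + if B j v then τ else 0) := by
        refine sum_le_sum fun j hj => ?_
        have hj := mem_range.1 hj
        have b2 := mono j J hj
        have b3 : (#{t ∈ Ioc (e + 2 * j * G) (e + 2 * j * G + G) |
            Fs p Sv v t ∧ Pr (Fs p Sv v) l t} : ℝ) ≤ ∑ t ∈ T j, wt Sv b L l v t := by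
          rw [card_eq_sum_ones, Nat.cast_sum]
          refine le_trans (le_of_eq (sum_congr rfl fun t ht => ?_))
            (sum_le_sum_of_subset_of_nonneg (fun t ht => ?_) fun t _ _ => w0 v t)
          · obtain ⟨c1, c2, c3⟩ := mem_filter.1 ht
            rw [mem_Ioc] at c1
            rw [wt_one ha a1 (by omega) (by omega) c3, Nat.cast_one]
          · obtain ⟨c1, c2, c3⟩ := mem_filter.1 ht
            exact mem_filter.2 ⟨c1, c2.1, c3.1.1⟩
        refine b3.trans ?_
        split_ifs with h1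
        · have := (sum_le_sum fun t (_ : t ∈ T j) => w1 v t)
          rw [sum_const, nsmul_eq_mul, mul_one] at this
          linarith [hτ j hj]
        · rw [add_zero]
          by_contra h2
          refine h1 ⟨a1, lt_of_le_of_lt (card_le_card fun i hi => ?_) hc'.2, not_le.1 h2⟩
          refine mem_filter.2 ⟨mem_univ _, image_subset_image (fun n hn => ?_) (mem_filter.1 hi).2⟩
          rw [mA] at hn
          exact mem_Ioc.2 (by omega)
    _ ≤ _ := by
        rw [sum_add_distrib, sum_const, card_range, nsmul_eq_mul, ← sum_filter, sum_const,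
          nsmul_eq_mul]
        gcongr
        convert hc'.1.le

end Pool.Agent.Lib.MP_be93de_nt
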