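import Mathlib
import Pool.Agent.Lib.MP_be93de_nt.RlPair2
import Pool.Agent.Lib.MP_be93de_nt.RlMart

/-! Upper bounds for the conditional success probabilities in the random sieve. -/

namespace Pool.Agent.Lib.MP_be93de_nt

open Finset Nat Filter
open Pool.Agent.Lib.MP_b09185_nt

/-- numerical conditions on a stopping position -/
structure Sc (T A y : ℕ) : Prop where
  big : 100 ≤ T
  pow : T ^ 40 ≤ A
  lo : A ^ 2 ≤ T * y
  hi : y ≤ A ^ 2 * T ^ 2
  lev : A * T ^ 10 ≤ zz y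
  lg : 4 * Real.log (2 * y : ℕ) ≤ T

lemma Sc.pw {T A y : ℕ} (h : Sc T A y) {a b : ℕ} (hab : a < b) : 100 * T ^ a ≤ T ^ b :=
  calc 100 * T ^ a ≤ T * T ^ a := Nat.mul_le_mul_right _ h.big
    _ = T ^ (a + 1) := by ring
    _ ≤ T ^ b := Nat.pow_le_pow_right (by have := h.big; omega) hab

lemma Sc.pa {T A y : ℕ} (h : Sc T A y) {a b : ℕ} (hab : a < b) : 100 * (A * T ^ a) ≤ A * T ^ b := by
  rw [mul_left_comm]
  exact Nat.mul_le_mul_left _ (h.pw hab)

lemma Sc.ay {T A y : ℕ} (h : Sc T A y) : A * T ^ 39 ≤ y := by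
  have := h.big
  apply Nat.le_of_mul_le_mul_left _ (by omega : 0 < T)
  calc T * (A * T ^ 39) = A * T ^ 40 := by ring
    _ ≤ A * A := Nat.mul_le_mul_left _ h.pow
    _ ≤ _ := by rw [← pow_two]; exact h.lo

lemma Sc.one {T A y : ℕ} (h : Sc T A y) (a : ℕ) : 100 ≤ A * T ^ a := by
  have h1 := h.pw (a := 0) (b := 40) (by norm_num)
  have h2 : 1 ≤ T ^ a := Nat.one_le_pow _ _ (by have := h.big; omega)
  have := h.pow
  nlinarith

open Classical in
/-- indicator of a proposition -/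
noncomputable def ind (P : Prop) : ℝ := if P then 1 else 0

open Classical in
theorem core_gen {T A y h D Λ : ℕ} {a b : ℝ} (S : Sc T A y) (h1 : 1 ≤ h) (h2 : h ≤ T) (ha : 0 < a)
    (hb : 0 ≤ b) (hb' : b ≤ 2 * T) (D1 : 2 * (A * T ^ 6) ≤ D) (D2 : D ≤ 3 * (A * T ^ 6))
    (L1 : T ^ 17 * h ≤ Λ) (L2 : Λ * T ^ 11 ≤ A) (ω : Om) (R : ℕ → Prop)
    (H1 : ∀ e, y ≤ e → e ≤ y + A * T ^ 8 → a ≤ (#{n ∈ Ioc e (e + h) | Sv ω (zz y) n} : ℝ))
    (H2 : ∀ e, y ≤ e → e ≤ y + A * T ^ 8 →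
      (#{n ∈ Ioc e (e + h) | Sv ω (zz y) n ∧ R n} : ℝ) ≤ b) (E : Om → Prop)
    (hE : ∀ ω', E ω' → ∃ t, y < t ∧ t ≤ y + A * T ^ 8 ∧ t ∈ model ω' ∧ rk ω' t = rk ω y + D ∧
      ∀ x, y ≤ x → x + Λ ≤ y + A * T ^ 8 → (∀ n ∈ Ioc x (x + Λ), n ∈ model ω' ↔ Sv ω (zz y) n) →
        x < t → t ≤ x + T ^ 17 * h → R t) :
    av (zz y) (zz (y + A * T ^ 8)) (fun ω' => ind (E ω')) ω ≤ b / a + 1 / T := by
  have T1 := S.big
  have q0 := S.ay
  have q1 := S.pa (a := 8) (b := 39) (by norm_num)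
  have q2 := S.pa (a := 7) (b := 8) (by norm_num)
  have q3 := S.pa (a := 8) (b := 10) (by norm_num)
  have q4 := S.pa (a := 6) (b := 7) (by norm_num)
  have q5 := S.pa (a := 0) (b := 6) (by norm_num)
  have q6 := S.one 8
  have q7 : Λ ≤ Λ * T ^ 11 := Nat.le_mul_of_pos_right _ (by positivity)
  have q8 : D * h ≤ 3 * (A * T ^ 7) := (Nat.mul_le_mul D2 h2).trans (le_of_eq (by ring))
  rw [pow_zero, mul_one] at q5
  have hu := S.lev
  have y8 : 8 ≤ y := by omega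
  set u := zz y with hu'
  obtain ⟨x, x1, x2, x3⟩ := divt (fun e => #{n ∈ Ioc y e | Sv ω u n}) (cIoc_succ _ y)
    (Nat.le_add_right y (D * h)) (l := D) (by simp)
    (many _ y h _ fun e a1 a2 => by exact_mod_cast ha.trans_le (H1 e a1 (by omega)))
  obtain ⟨t, ht⟩ : ∃ t : ℝ, t = T := ⟨_, rfl⟩
  obtain ⟨α, hα⟩ : ∃ α : ℝ, α = A := ⟨_, rfl⟩
  have cp : ∀ k, ((A * T ^ k : ℕ) : ℝ) = α * t ^ k := fun k => by rw [ht, hα]; push_cast; rfl
  rw [← ht] at hb' ⊢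
  have t1 : 100 ≤ t := by rw [ht]; exact_mod_cast T1
  have α1 : t ^ 40 ≤ α := by rw [ht, hα]; exact_mod_cast S.pow
  have α0 : 0 < α := lt_of_lt_of_le (by positivity) α1
  have u1 : α * t ^ 10 ≤ u := by rw [← cp]; exact_mod_cast hu
  have u2 : 1 / (u : ℝ) ≤ 1 / (α * t ^ 10) := one_div_le_one_div_of_le (by positivity) u1
  have y1 : α ^ 2 ≤ t * y := by rw [ht, hα]; exact_mod_cast S.lo
  have y2 : y ≤ α ^ 2 * t ^ 2 := by rw [ht, hα]; exact_mod_cast S.hi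
  have y0 : (0 : ℝ) < y := by positivity
  have d2 : (D : ℝ) ≤ 3 * (α * t ^ 6) := by rw [← cp]; exact_mod_cast D2
  have pwr : ∀ a b : ℕ, a < b → 1 / t ^ b ≤ 1 / 100 * (1 / t ^ a) := by
    intro a b hab
    rw [one_div_mul_one_div]
    apply one_div_le_one_div_of_le (by positivity)
    rw [ht]
    exact_mod_cast S.pw hab
  have main := core_up (ι := Qs u (zz (y + A * T ^ 8))) (fun i => i.1) (Sv ω u) R
    (fun i n => (i.1 : ℕ) ≤ zz n) y x D h (T ^ 17) Λ a b (t ^ 4) (3 / t ^ 4) (3 * t ^ 9 / α) ha hb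
    h1 x1 (Nat.pow_pos (by omega)) L1 x3 (fun i => by have := (mem_Qs.1 i.2).1; omega)
    (fun e _ _ => H1 e (by omega) (by omega)) (fun e _ _ => H2 e (by omega) (by omega))
    (fun i => by
      have : α * t ^ 10 ≤ (i.1 : ℕ) := u1.trans (by exact_mod_cast (mem_Qs.1 i.2).1.le)
      calc _ ≤ 3 / t ^ 4 * (α * t ^ 10) := d2.trans (le_of_eq (by field_simp))
        _ ≤ _ := by gcongr)
    (by positivity)
    (by
      have := pwr 0 4 (by norm_num)
      rw [div_eq_mul_one_div 3]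
      norm_num at this ⊢
      linarith)
    (by
      rw [sum_Qs _ _ (fun q => 1 / (q : ℝ))]
      refine (lam_up y8 (by omega)).trans ?_
      have a1 : ((A * T ^ 8 : ℕ) : ℝ) / y ≤ t ^ 9 / α := by
        rw [cp, div_le_div_iff₀ y0 α0]
        calc _ = t ^ 8 * α ^ 2 := by ring
          _ ≤ t ^ 8 * (t * y) := by gcongr
          _ = _ := by ring
      have a2 : 1 / (α * t ^ 10) ≤ t ^ 9 / α := by
        rw [div_le_div_iff₀ (by positivity) α0]
        have : 1 ≤ t ^ 19 := one_le_pow₀ (by linarith)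
        nlinarith
      have a3 : 1 / (u : ℝ) ≤ 1 := by
        rw [div_le_one (by exact_mod_cast (by omega : 0 < u))]
        exact_mod_cast (by omega : 1 ≤ u)
      have a5 : 0 < t ^ 9 / α := by positivity
      have a6 : (0 : ℝ) ≤ ((A * T ^ 8 : ℕ) : ℝ) / y := by positivity
      have a7 : 0 ≤ 1 / (u : ℝ) := by positivity
      rw [mul_div_assoc]
      nlinarith)
    (by positivity)
    (by
      have a1 := lam_lo (d := A * T ^ 6) y8 (by omega)
      have a2 : ∑ q ∈ primesLE (zz (y + A * T ^ 6)) \ primesLE u, α * t ^ 6 * (1 / (q : ℝ)) ≤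
          ∑ q ∈ primesLE (zz (y + A * T ^ 8)) \ primesLE u,
            (#{n ∈ Ioc y x | Sv ω u n ∧ q ≤ zz n} : ℝ) / q := by
        refine le_trans (sum_le_sum ?_) (sum_le_sum_of_subset_of_nonneg (sdiff_subset_sdiff
          (primesLE_mono (zz_mono (by omega) (by omega : y + A * T ^ 6 ≤ y + A * T ^ 8)))
          Subset.rfl) fun _ _ _ => by positivity)
        intro q hq
        rw [mul_one_div]
        apply div_le_div_of_nonneg_right _ (Nat.cast_nonneg _)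
        have b1 := le_of_mem_primesLE (Finset.mem_sdiff.1 hq).1
        have b2 := cIoc_le (Sv ω u) y x
        have b3 := cIoc_add (Sv ω u) (Nat.le_add_right y (A * T ^ 6))
          (by omega : y + A * T ^ 6 ≤ x)
        have b4 := cIoc_le (Sv ω u) y (y + A * T ^ 6)
        have b5 : #{n ∈ Ioc (y + A * T ^ 6) x | Sv ω u n} ≤
            #{n ∈ Ioc y x | Sv ω u n ∧ q ≤ zz n} := by
          apply card_le_card
          intro n hn
          simp only [mem_filter, mem_Ioc] at hn ⊢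
          exact ⟨by omega, hn.2, b1.trans (zz_mono (by omega) hn.1.1.le)⟩
        rw [← cp]
        exact_mod_cast (by omega : A * T ^ 6 ≤ #{n ∈ Ioc y x | Sv ω u n ∧ q ≤ zz n})
      rw [← sum_Qs _ _ (fun q => (#{n ∈ Ioc y x | Sv ω u n ∧ q ≤ zz n} : ℝ) / q), ← mul_sum] at a2
      refine le_trans ?_ (a2.trans (le_of_eq (by congr!)))
      have b0 : ((y + A * T ^ 6 : ℕ) : ℝ) ≤ (2 * y : ℕ) := by exact_mod_cast (by omega)
      have b1 : ((y + A * T ^ 6 : ℕ) : ℝ) ≤ 2 * (α ^ 2 * t ^ 2) := by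
        refine b0.trans ?_
        push_cast
        linarith
      have b2 : Real.log (y + A * T ^ 6 : ℕ) ≤ t / 4 := by
        have := Real.log_le_log (by positivity) b0
        have := S.lg
        linarith
      have b3 := one_le_log (n := y + A * T ^ 6) (by omega)
      have b4 : 2 * (t ^ 3 / α) ≤
          (A * T ^ 6 : ℕ) / (y + A * T ^ 6 : ℕ) / Real.log (y + A * T ^ 6 : ℕ) := by
        calc _ = α * t ^ 6 / (2 * (α ^ 2 * t ^ 2)) / (t / 4) := by field_simp; norm_num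
          _ ≤ _ := by rw [cp]; gcongr
      have b5 : 1 / (α * t ^ 10) ≤ t ^ 3 / α := by
        rw [div_le_div_iff₀ (by positivity) α0]
        have : 1 ≤ t ^ 13 := one_le_pow₀ (by linarith)
        nlinarith
      calc 2 * (t ^ 4) ^ 2 ≤ t * (t ^ 4) ^ 2 := by gcongr; linarith
        _ = α * t ^ 6 * (t ^ 3 / α) := by field_simp
        _ ≤ _ := by gcongr; linarith)
  rw [av, div_le_iff₀ (card_Qs_pos _ _), mul_comm (b / a + 1 / t)]
  simp only [ind]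
  rw [sum_boole]
  refine le_trans ?_ (main.trans (mul_le_mul_of_nonneg_left ?_ (Nat.cast_nonneg _)))
  · rw [Nat.cast_le]
    apply card_le_card
    intro v hv
    obtain ⟨s, a1, a2, a3, a4, a5⟩ := hE _ (mem_filter.1 hv).2
    have z1 : ∀ n, y ≤ n → n ≤ y + A * T ^ 8 → zz n ≤ zz (y + A * T ^ 8) := fun n b1 b2 =>
      zz_mono (by omega) b2
    refine mem_filter.2 ⟨mem_univ _, s, a1, (mem_patch ω v y8 a1.le (z1 _ a1.le a2)).1 a3, ?_,
      fun b1 => a5 x x1 (by omega) fun n hn => ?_⟩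
    · rw [rk, cIoc_add _ (Nat.zero_le y) a1.le] at a4
      have c1 : rk ω y = rk _ y := rk_congr (fun p hp => (patch_low ω v hp).symm) le_rfl
      rw [c1, rk, add_right_inj] at a4
      refine Eq.trans ?_ a4
      congr 1
      ext n
      simp only [mem_filter, mem_Ioc, and_congr_right_iff]
      intro hn
      exact (mem_patch ω v y8 hn.1.le (z1 _ hn.1.le (by omega))).symm
    · have c1 := mem_Ioc.1 hn
      rw [mem_patch ω v y8 (by omega) (z1 _ (by omega) (by omega))]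
      exact and_iff_left fun i _ => b1 n hn i
  · have k4 : (b + 1) / t ^ 4 ≤ 3 * (1 / t ^ 3) := by
      calc _ ≤ (3 * t) / t ^ 4 := by gcongr; linarith
        _ = _ := by field_simp
    have k5 : D * (3 * t ^ 9 / α) ^ 2 ≤ 27 * (1 / t ^ 16) := by
      calc _ ≤ 3 * (α * t ^ 6) * (3 * t ^ 9 / α) ^ 2 := by gcongr
        _ = 27 * (t ^ 24 / α) := by field_simp; norm_num
        _ ≤ 27 * (t ^ 24 / t ^ 40) := by gcongr
        _ = _ := by field_simp
    have k6 : D * (3 * t ^ 9 / α) / (T ^ 17 : ℕ) ≤ 9 * (1 / t ^ 2) := by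
      rw [Nat.cast_pow, ← ht]
      calc _ ≤ 3 * (α * t ^ 6) * (3 * t ^ 9 / α) / t ^ 17 := by gcongr
        _ = _ := by field_simp; norm_num
    have k7 : Λ * (3 * t ^ 9 / α) ≤ 3 * (1 / t ^ 2) := by
      have : Λ * t ^ 11 ≤ α := by rw [ht, hα]; exact_mod_cast L2
      calc _ = 3 * (1 / t ^ 2) * (Λ * t ^ 11 / α) := by field_simp
        _ ≤ _ := mul_le_of_le_one_right (by positivity) ((div_le_one α0).2 this)
    rw [div_eq_mul_one_div 3]
    have r1 := pwr 1 2 (by norm_num)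
    have r2 := pwr 1 3 (by norm_num)
    have r3 := pwr 1 4 (by norm_num)
    have r4 := pwr 1 16 (by norm_num)
    rw [pow_one] at r1 r2 r3 r4
    have r8 : 0 < 1 / t := by positivity
    linarith

/-- local success: the element of rank `m` starts a pair inside the range after `y` -/
def SL (y G m : ℕ) (ω : Om) : Prop :=
  ∃ t, y < t ∧ t + 2 ≤ y + G ∧ t ∈ model ω ∧ rk ω t = m ∧ t + 2 ∈ model ω

lemma SL_congr {y G m : ℕ} {ω ω' : Om} (H : Ag (zz (y + G)) ω ω') (h : SL y G m ω) :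
    SL y G m ω' := by
  obtain ⟨t, a1, a2, a3, a4, a5⟩ := h
  exact ⟨t, a1, a2, (mem_congr H (by omega)).1 a3, rk_congr H (by omega : t ≤ y + G) ▸ a4,
    (mem_congr H a2).1 a5⟩

open Classical in
theorem core_one {T A y h D Λ : ℕ} {a b : ℝ} (S : Sc T A y) (h1 : 1 ≤ h) (h2 : h ≤ T) (ha : 0 < a)
    (hb : 0 ≤ b) (hb' : b ≤ 2 * T) (D1 : 2 * (A * T ^ 6) ≤ D) (D2 : D ≤ 3 * (A * T ^ 6))
    (L1 : T ^ 17 * h + 2 ≤ Λ) (L2 : Λ * T ^ 11 ≤ A) (ω : Om)
    (H1 : ∀ e, y ≤ e → e ≤ y + A * T ^ 8 → a ≤ (#{n ∈ Ioc e (e + h) | Sv ω (zz y) n} : ℝ))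
    (H2 : ∀ e, y ≤ e → e ≤ y + A * T ^ 8 →
      (#{n ∈ Ioc e (e + h) | Sv ω (zz y) n ∧ Sv ω (zz y) (n + 2)} : ℝ) ≤ b) :
    av (zz y) (zz (y + A * T ^ 8))
      (fun ω' => ind (SL y (A * T ^ 8) (rk ω y + D) ω')) ω ≤ b / a + 1 / T := by
  refine core_gen S h1 h2 ha hb hb' D1 D2 (by omega) L2 ω _ H1 H2 _ ?_
  rintro ω' ⟨t, a1, a2, a3, a4, a5⟩
  exact ⟨t, a1, by omega, a3, a4, fun x _ _ b3 b4 b5 => (b3 _ (mem_Ioc.2 (by omega))).1 a5⟩

open Classical in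
theorem core_two {T A y h D Λ l : ℕ} {a b : ℝ} (S : Sc T A y) (h1 : 1 ≤ h) (h2 : h ≤ T)
    (ha : 0 < a) (hb : 0 ≤ b) (hb' : b ≤ 2 * T) (D1 : 2 * (A * T ^ 6) ≤ D)
    (D2 : D ≤ 3 * (A * T ^ 6)) (L1 : T ^ 17 * h + l * h + 2 ≤ Λ) (L2 : Λ * T ^ 11 ≤ A) (ω : Om)
    (H1 : ∀ e, y ≤ e → e ≤ y + A * T ^ 8 → a ≤ (#{n ∈ Ioc e (e + h) | Sv ω (zz y) n} : ℝ))
    (H2 : ∀ e, y ≤ e → e ≤ y + A * T ^ 8 →
      (#{n ∈ Ioc e (e + h) | Sv ω (zz y) n ∧ Pr (Sv ω (zz y)) l n} : ℝ) ≤ b) :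
    av (zz y) (zz (y + A * T ^ 8)) (fun ω' => ind (SL y (A * T ^ 8) (rk ω y + D) ω' ∧
      SL y (A * T ^ 8) (rk ω y + D + l) ω')) ω ≤ b / a + 1 / T := by
  refine core_gen S h1 h2 ha hb hb' D1 D2 (by omega) L2 ω _ H1 H2 _ ?_
  rintro ω' ⟨⟨t, a1, a2, a3, a4, a5⟩, t', c1, c2, c3, c4, c5⟩
  refine ⟨t, a1, by omega, a3, a4, fun x b1 b2 b3 b4 b5 => ?_⟩
  have d0 : t ≤ t' := by
    by_contra c
    have : rk ω' t' < rk ω' t := cIoc_lt _ (Nat.zero_le _) (not_le.1 c) a3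
    omega
  have d1 : rk ω' t' = rk ω' t + #{n ∈ Ioc t t' | n ∈ model ω'} := cIoc_add _ (Nat.zero_le t) d0
  have d2 : ∀ e, e ≤ x + Λ → #{n ∈ Ioc t e | n ∈ model ω'} = #{n ∈ Ioc t e | Sv ω (zz y) n} :=
    fun e he => cIoc_congr fun n e1 e2 => b3 n (mem_Ioc.2 (by omega))
  have d3 : t' ≤ t + l * h := by
    by_contra c
    have e1 := cIoc_lt (· ∈ model ω') (Nat.le_add_right t (l * h)) (not_le.1 c) c3
    have e2 := many (Sv ω (zz y)) t h l fun e f1 f2 => by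
      exact_mod_cast ha.trans_le (H1 e (by omega) (by omega))
    rw [d2 _ (by omega)] at e1
    omega
  rw [d2 _ (by omega)] at d1
  exact ⟨(b3 _ (mem_Ioc.2 (by omega))).1 a5, t', (b3 _ (mem_Ioc.2 (by omega))).1 c3,
    (b3 _ (mem_Ioc.2 (by omega))).1 c5, by omega⟩

end Pool.Agent.Lib.MP_be93de_nt
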