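import Mathlib
import Pool.Agent.Lib.MP_be93de_nt.RlCore

/-! The normalised factors attached to the stopping positions. -/

namespace Pool.Agent.Lib.MP_be93de_nt

open Finset MeasureTheory
open Pool.Agent.Lib.MP_b09185_nt

lemma ag_patch2 {u z : ℕ} {ω ω' : Om} (H : Ag u ω ω') (v : ∀ i : Qs u z, ZMod i.1) :
    Ag z (Function.updateFinset ω (Qs u z) v) (Function.updateFinset ω' (Qs u z) v) := by
  intro p hp
  by_cases h : (p : ℕ) ≤ u
  · rw [patch_low ω v h, patch_low ω' v h, H p h]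
  · have hq : p ∈ Qs u z := mem_Qs.2 ⟨not_le.1 h, hp⟩
    rw [Function.updateFinset, Function.updateFinset, dif_pos hq, dif_pos hq]

lemma FD.av {u z : ℕ} {f : Om → ℝ} (h : FD z f) : FD u (av u z f) := fun ω ω' H => by
  simp only [Pool.Agent.Lib.MP_be93de_nt.av, fun v => h _ _ (ag_patch2 H v)]

lemma ind_nonneg (P : Prop) : 0 ≤ ind P := by unfold ind; split_ifs <;> norm_num

lemma ind_le (P : Prop) : ind P ≤ 1 := by unfold ind; split_ifs <;> norm_num

lemma ind_mul (P Q : Prop) : ind P * ind Q = ind (P ∧ Q) := by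
  unfold ind; by_cases P <;> by_cases Q <;> simp [*]

lemma av_nonneg (u z : ℕ) {f : Om → ℝ} (h : ∀ ω, 0 ≤ f ω) (ω : Om) : 0 ≤ av u z f ω :=
  div_nonneg (sum_nonneg fun _ _ => h _) (Nat.cast_nonneg _)

/-- indicator of local success -/
noncomputable def xs (y G m : ℕ) (ω : Om) : ℝ := ind (SL y G m ω)

lemma xs_FD (y G m : ℕ) : FD (zz (y + G)) (xs y G m) := fun _ _ H =>
  congrArg ind (propext ⟨SL_congr H, SL_congr H.symm⟩)

/-- normalised factor -/
noncomputable def nf (y G m : ℕ) (ω : Om) : ℝ :=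
  (1 - xs y G m ω) / (1 - av (zz y) (zz (y + G)) (xs y G m) ω)

lemma nf_congr {y G m : ℕ} (hy : 8 ≤ y) {ω ω' : Om} (H : Ag (zz (y + G)) ω ω') :
    nf y G m ω = nf y G m ω' := by
  rw [nf, nf, xs_FD y G m ω ω' H,
    (xs_FD y G m).av ω ω' (H.mono (zz_mono hy (Nat.le_add_right y G)))]

lemma av_nf2 (y G m m' : ℕ) (ω : Om) :
    av (zz y) (zz (y + G)) (fun ω => nf y G m ω * nf y G m' ω) ω =
      (1 - av (zz y) (zz (y + G)) (xs y G m) ω - av (zz y) (zz (y + G)) (xs y G m') ω +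
        av (zz y) (zz (y + G)) (fun ω => ind (SL y G m ω ∧ SL y G m' ω)) ω) /
      ((1 - av (zz y) (zz (y + G)) (xs y G m) ω) * (1 - av (zz y) (zz (y + G)) (xs y G m') ω)) := by
  have c0 := (card_Qs_pos (zz y) (zz (y + G))).ne'
  have e : ∀ v : ∀ i : Qs (zz y) (zz (y + G)), ZMod i.1, ∀ k,
      av (zz y) (zz (y + G)) (xs y G k) (Function.updateFinset ω _ v) =
        av (zz y) (zz (y + G)) (xs y G k) ω :=
    fun v k => ((xs_FD y G k).av _ _ (ag_patch ω v)).symm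
  rw [av]
  simp only [nf, e, div_mul_div_comm]
  rw [← sum_div, div_right_comm]
  congr 1
  have : ∀ ω', (1 - xs y G m ω') * (1 - xs y G m' ω') =
      1 - xs y G m ω' - xs y G m' ω' + ind (SL y G m ω' ∧ SL y G m' ω') := fun ω' => by
    rw [← ind_mul, xs, xs]; ring
  simp only [this, av, sum_add_distrib, sum_sub_distrib, sum_const, card_univ, nsmul_eq_mul]
  field_simp

lemma av_nf (y G m : ℕ) (ω : Om) (h : av (zz y) (zz (y + G)) (xs y G m) ω < 1) :
    av (zz y) (zz (y + G)) (nf y G m) ω = 1 := by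
  have c0 := (card_Qs_pos (zz y) (zz (y + G))).ne'
  have e : ∀ v : ∀ i : Qs (zz y) (zz (y + G)), ZMod i.1,
      av (zz y) (zz (y + G)) (xs y G m) (Function.updateFinset ω _ v) =
        av (zz y) (zz (y + G)) (xs y G m) ω :=
    fun v => ((xs_FD y G m).av _ _ (ag_patch ω v)).symm
  rw [av]
  simp only [nf, e]
  rw [← sum_div, div_right_comm, div_eq_one_iff_eq (by linarith)]
  simp only [av, sum_sub_distrib, sum_const, card_univ, nsmul_eq_mul]
  field_simp

/-- stopping event -/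
def St (Gd : ℕ → Om → Prop) (m y : ℕ) : Set Om := {ω | y ∈ model ω ∧ rk ω y = m ∧ Gd y ω}

open Classical in
theorem mart {β : Type} (N : Finset β) (hN : N.Nonempty) (Y S G : ℕ) (Gd : ℕ → Om → Prop)
    (hG : ∀ y ω ω', Ag (zz y) ω ω' → Gd y ω → Gd y ω') (m : ℕ → ℕ)
    (hm : ∀ σ < S, ∀ τ < σ, m τ + G ≤ m σ) (on : β → ℕ → Prop) (tg : β → ℕ → ℕ) (μ ν : ℝ)
    (μ0 : 0 ≤ μ) (μ1 : μ ≤ 1 / 2) (ν0 : 0 ≤ ν)
    (h1 : ∀ n ∈ N, ∀ σ < S, on n σ → ∀ y, ∀ ω ∈ St Gd (m σ) y,
      av (zz y) (zz (y + G)) (xs y G (tg n σ)) ω ≤ μ)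
    (h2 : ∀ n ∈ N, ∀ n' ∈ N, n ≠ n' → ∀ σ < S, on n σ → on n' σ → ∀ y, ∀ ω ∈ St Gd (m σ) y,
      av (zz y) (zz (y + G)) (fun ω => ind (SL y G (tg n σ) ω ∧ SL y G (tg n' σ) ω)) ω ≤ ν) :
    law {ω | ∀ n ∈ N, ∃ σ < S, on n σ ∧ ∃ y < Y, ω ∈ St Gd (m σ) y ∧ SL y G (tg n σ) ω} ≤
      ENNReal.ofReal ((∑ n ∈ N, ∑ n' ∈ N, ∏ σ ∈ range S, if on n σ ∧ on n' σ then
        (if n = n' then (1 - μ)⁻¹ else 1 + 4 * ν) else 1) / (#N : ℝ) ^ 2 - 1) := by
  set φ : β → ℕ → Om → ℝ := fun n σ ω =>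
    ∏ y ∈ range Y, if on n σ ∧ ω ∈ St Gd (m σ) y then nf y G (tg n σ) ω else 1 with hφ
  have det : ∀ k y, Det (zz y) (St Gd k y) := fun k y ω ω' H h =>
    ⟨(mem_congr H le_rfl).1 h.1, rk_congr H le_rfl ▸ h.2.1, hG y ω ω' H h.2.2⟩
  have uniq : ∀ k y y' ω, ω ∈ St Gd k y → ω ∈ St Gd k y' → y = y' := by
    intro k y y' ω a b
    rcases lt_trichotomy y y' with h | h | h
    · have : rk ω y < rk ω y' := cIoc_lt _ (Nat.zero_le y) h b.1
      have := a.2.1; have := b.2.1; omega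
    · exact h
    · have : rk ω y' < rk ω y := cIoc_lt _ (Nat.zero_le y') h a.1
      have := a.2.1; have := b.2.1; omega
  have zm : ∀ y y', y ≤ y' → 8 ≤ y' → zz y ≤ zz y' := by
    intro y y' a b
    by_cases c : 8 ≤ y
    · exact zz_mono c a
    · refine Nat.find_mono fun k hk => lt_of_le_of_lt ?_ hk
      rcases Nat.eq_zero_or_pos y with rfl | d
      · simpa using Real.log_natCast_nonneg y'
      · exact Real.log_le_log (by exact_mod_cast d) (by exact_mod_cast a)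
  have e1 : ∀ n σ, on n σ → ∀ y < Y, ∀ ω ∈ St Gd (m σ) y, φ n σ ω = nf y G (tg n σ) ω := by
    intro n σ a y hy ω b
    simp only [hφ]
    rw [prod_eq_single_of_mem y (mem_range.2 hy) fun y' _ c => if_neg fun d => c (uniq _ _ _ ω d.2 b),
      if_pos ⟨a, b⟩]
  have e0 : ∀ n σ ω, ¬ on n σ → φ n σ ω = 1 := fun n σ ω a =>
    prod_eq_one fun y _ => if_neg fun d => a d.1
  have cg : ∀ n σ u ω ω', Ag u ω ω' → (∀ y < Y, ω ∈ St Gd (m σ) y ∨ ω' ∈ St Gd (m σ) y →
      zz (y + G) ≤ u) → φ n σ ω = φ n σ ω' := by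
    intro n σ u ω ω' H a
    refine prod_congr rfl fun y hy => ?_
    have hy := mem_range.1 hy
    by_cases b : ω ∈ St Gd (m σ) y ∨ ω' ∈ St Gd (m σ) y
    · have y8 : 8 ≤ y := b.elim (fun c => c.1.1) fun c => c.1.1
      have c := H.mono (a y hy b)
      have c' := c.mono (zz_mono y8 (Nat.le_add_right y G))
      rw [nf_congr y8 c]
      exact if_congr (and_congr_right fun _ => ⟨det _ _ _ _ c', det _ _ _ _ c'.symm⟩) rfl rfl
    · rw [if_neg fun d => b (Or.inl d.2), if_neg fun d => b (Or.inr d.2)]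
  have avc : ∀ σ y, ∀ ω ∈ St Gd (m σ) y, ∀ f g : Om → ℝ, (∀ ω ∈ St Gd (m σ) y, f ω = g ω) →
      av (zz y) (zz (y + G)) f ω = av (zz y) (zz (y + G)) g ω := by
    intro σ y ω a f g b
    simp only [av, fun v => b _ (det _ _ _ _ (ag_patch ω (z := zz (y + G)) v) a)]
  have av1 : ∀ y ω, av (zz y) (zz (y + G)) (fun _ => 1) ω = 1 := fun y ω => by
    rw [av, sum_const, card_univ, nsmul_eq_mul, mul_one, div_self (card_Qs_pos _ _).ne']
  have one : ∀ n ∈ N, ∀ σ < S, ∀ y < Y, ∀ ω ∈ St Gd (m σ) y,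
      av (zz y) (zz (y + G)) (φ n σ) ω = 1 := by
    intro n hn σ hσ y hy ω a
    by_cases b : on n σ
    · rw [avc σ y ω a _ _ (e1 n σ b y hy), av_nf _ _ _ _ (by linarith [h1 n hn σ hσ b y ω a])]
    · rw [avc σ y ω a _ _ fun ω _ => e0 n σ ω b, av1]
  have i1 : 1 ≤ (1 - μ)⁻¹ := one_le_inv₀ (by linarith) |>.2 (by linarith)
  refine le_trans (measure_mono ?_) (second (Y := Y) (Z := zz (Y + G + 8)) (S := S) (u := zz)
    (z := fun y => zz (y + G)) (C := fun σ => St Gd (m σ)) N hN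
    (fun σ _ => ⟨det _, fun y hy => zm _ _ (by omega) (by omega), uniq _⟩) φ _
    (fun n n' σ => by split_ifs <;> linarith)
    (fun n _ σ _ ω ω' H => cg n σ _ ω ω' H fun y hy _ => zm _ _ (by omega) (by omega))
    (fun n hn σ hσ ω => prod_nonneg fun y _ => ?_) (fun n _ σ hσ τ hτ y ω ω' a H => ?_)
    (fun n _ σ _ ω a => prod_eq_one fun y hy => if_neg fun d => a y (mem_range.1 hy) d.2)
    (fun n hn σ hσ y hy ω a => (one n hn σ hσ y hy ω a).ge) ?_)
  · intro ω hω n hn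
    obtain ⟨σ, a1, a2, y, a3, a4, a5⟩ := hω n hn
    refine ⟨σ, a1, ?_⟩
    rw [e1 n σ a2 y a3 ω a4, nf, xs, ind, if_pos a5, sub_self, zero_div]
  · split_ifs with a
    · exact div_nonneg (by linarith [ind_le (SL y G (tg n σ) ω), xs.eq_1 y G (tg n σ) ω])
        (by linarith [h1 n hn σ hσ a.1 y ω a.2])
    · exact zero_le_one
  · refine cg n τ _ ω ω' H fun y' _ b => ?_
    have key : ∀ ω, ω ∈ St Gd (m σ) y → ω ∈ St Gd (m τ) y' → zz (y' + G) ≤ zz y := by
      intro ω c1 c2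
      have d1 := hm σ hσ τ hτ
      have d2 := c1.2.1
      have d3 := c2.2.1
      refine zm _ _ ?_ c1.1.1
      rcases le_total y' y with d | d
      · have := rk_le ω d; omega
      · have := rk_mono ω d
        have := rk_le ω d
        rcases d.eq_or_lt with d | d
        · omega
        · have : rk ω y < rk ω y' := cIoc_lt _ (Nat.zero_le y) d c2.1
          omega
    exact b.elim (key ω a) (key ω' (det _ _ _ _ H a))
  · intro n hn n' hn' σ hσ y hy ω a
    by_cases b : on n σ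
    · by_cases b' : on n' σ
      · rw [if_pos ⟨b, b'⟩, avc σ y ω a _ (fun ω => nf y G (tg n σ) ω * nf y G (tg n' σ) ω)
          fun ω c => by rw [e1 n σ b y hy ω c, e1 n' σ b' y hy ω c], av_nf2]
        have c1 := h1 n hn σ hσ b y ω a
        have c2 := h1 n' hn' σ hσ b' y ω a
        have c3 := av_nonneg (zz y) (zz (y + G)) (f := xs y G (tg n σ)) (fun _ => ind_nonneg _) ω
        have c4 := av_nonneg (zz y) (zz (y + G)) (f := xs y G (tg n' σ)) (fun _ => ind_nonneg _) ω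
        split_ifs with c
        · subst c
          simp only [and_self]
          change (_ + av _ _ (xs y G (tg n σ)) ω) / _ ≤ _
          set π := av (zz y) (zz (y + G)) (xs y G (tg n σ)) ω
          have d : 0 < 1 - π := by linarith
          calc _ = (1 - π)⁻¹ := by field_simp; ring
            _ ≤ _ := inv_anti₀ (by linarith) (by linarith)
        · have c5 := h2 n hn n' hn' c σ hσ b b' y ω a
          set π := av (zz y) (zz (y + G)) (xs y G (tg n σ)) ω
          set π' := av (zz y) (zz (y + G)) (xs y G (tg n' σ)) ω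
          have d : 1 / 4 ≤ (1 - π) * (1 - π') := by nlinarith
          rw [div_le_iff₀ (by linarith)]
          nlinarith [mul_nonneg c3 c4]
      · rw [if_neg fun c => b' c.2, avc σ y ω a _ (φ n σ) fun ω _ => by rw [e0 n' σ ω b', mul_one]]
        exact (one n hn σ hσ y hy ω a).le
    · rw [if_neg fun c => b c.1, avc σ y ω a _ (φ n' σ) fun ω _ => by rw [e0 n σ ω b, one_mul]]
      exact (one n' hn' σ hσ y hy ω a).le

end Pool.Agent.Lib.MP_be93de_nt
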