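import Mathlib
import Pool.Agent.Lib.MP_be93de_nt.RlCore

/-! The uniform pair count in the random sieve. -/

namespace Pool.Agent.Lib.MP_be93de_nt

open Finset Nat Filter MeasureTheory
open Pool.Agent.Lib.MP_b09185_nt

lemma twin_eq {N : ℕ} (hN : 2 ≤ N) : thd 2 N =
    2 * (∏ p ∈ primesLE N with p.Prime ∧ 2 < p, (1 - 1 / ((p : ℝ) - 1) ^ 2)) * th N ^ 2 := by
  have e : primesLE N = insert 2 {p ∈ primesLE N | p.Prime ∧ 2 < p} := by
    ext p
    simp only [mem_insert, mem_filter, mem_primesLE]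
    constructor
    · intro h
      rcases h.2.two_le.eq_or_lt with h' | h'
      · exact Or.inl h'.symm
      · exact Or.inr ⟨h, h.2, h'⟩
    · rintro (rfl | h)
      · exact ⟨hN, Nat.prime_two⟩
      · exact h.1
  set P := {p ∈ primesLE N | p.Prime ∧ 2 < p} with hP
  have h2 : 2 ∉ P := by simp [hP]
  have h3 : ∏ p ∈ P, (1 - rho 2 p) =
      (∏ p ∈ P, (1 - 1 / ((p : ℝ) - 1) ^ 2)) * (∏ p ∈ P, (1 - 1 / (p : ℝ))) ^ 2 := by
    rw [← prod_pow, ← prod_mul_distrib]
    apply prod_congr rfl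
    intro p hp
    have a1 := (mem_filter.1 hp).2.2
    have a2 : (3 : ℝ) ≤ p := by exact_mod_cast a1
    have a3 : (p : ℝ) - 1 ≠ 0 := by linarith
    rw [rho, if_neg (fun h => absurd (Nat.le_of_dvd two_pos h) (by omega))]
    field_simp; ring
  rw [th, thd, e, prod_insert h2, prod_insert h2, h3, rho]
  simp only [dvd_refl, if_true, Nat.cast_ofNat]
  ring

lemma twin_two {N : ℕ} (hN : 2 ≤ N) : thd 2 N ≤ 2 * th N ^ 2 := by
  rw [twin_eq hN]
  have : ∏ p ∈ primesLE N with p.Prime ∧ 2 < p, (1 - 1 / ((p : ℝ) - 1) ^ 2) ≤ 1 := by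
    refine prod_le_one (fun p hp => ?_) fun p _ => sub_le_self _ (by positivity)
    have a2 : (3 : ℝ) ≤ p := by exact_mod_cast (mem_filter.1 hp).2.2
    rw [sub_nonneg, div_le_one (by nlinarith)]
    nlinarith
  nlinarith [sq_nonneg (th N)]

lemma th_two {y : ℕ} (hy : 8 ≤ y) (h : 1 ≤ zz y) : th (zz y) ≤ 2 / Real.log y := by
  have a1 := th_up hy h
  have a2 : 1 / (zz y : ℝ) ≤ 1 := by
    rw [div_le_one (by exact_mod_cast h)]
    exact_mod_cast h
  rw [le_div_iff₀ (by linarith [one_le_log hy])]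
  linarith

lemma win_le (P : ℕ → Prop) [DecidablePred P] (x h g : ℕ) (b : ℝ)
    (H : ∀ e, x ≤ e → e + h ≤ x + g * h → (#{n ∈ Ioc e (e + h) | P n} : ℝ) ≤ b) :
    (#{n ∈ Ioc x (x + g * h) | P n} : ℝ) ≤ g * b := by
  induction g with
  | zero => simp
  | succ g ih =>
    have e : x + (g + 1) * h = x + g * h + h := by ring
    rw [e] at H ⊢
    rw [cIoc_add P (Nat.le_add_right x (g * h)) (Nat.le_add_right _ h)]
    have := ih fun e h1 h2 => H e h1 (by omega)
    have := H (x + g * h) (by omega) le_rfl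
    push_cast
    linarith

lemma win_ge (P : ℕ → Prop) [DecidablePred P] (x h g : ℕ) (b : ℝ)
    (H : ∀ e, x ≤ e → e + h ≤ x + g * h → b ≤ (#{n ∈ Ioc e (e + h) | P n} : ℝ)) :
    g * b ≤ (#{n ∈ Ioc x (x + g * h) | P n} : ℝ) := by
  induction g with
  | zero => simp
  | succ g ih =>
    have e : x + (g + 1) * h = x + g * h + h := by ring
    rw [e] at H ⊢
    rw [cIoc_add P (Nat.le_add_right x (g * h)) (Nat.le_add_right _ h)]
    have := ih fun e h1 h2 => H e h1 (by omega)
    have := H (x + g * h) (by omega) le_rfl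
    push_cast
    linarith

lemma fam_cover (P : ℕ → Prop) [DecidablePred P] (e G J : ℕ) :
    #{n ∈ Ioc e (e + 2 * J * G) | P n} =
      ∑ j ∈ range J, #{n ∈ Ioc (e + 2 * j * G) (e + 2 * j * G + G) | P n} +
      ∑ j ∈ range J, #{n ∈ Ioc (e + G + 2 * j * G) (e + G + 2 * j * G + G) | P n} := by
  induction J with
  | zero => simp
  | succ J ih =>
    rw [sum_range_succ, sum_range_succ, show e + 2 * (J + 1) * G = e + G + 2 * J * G + G by ring,
      cIoc_add P (by omega : e ≤ e + G + 2 * J * G) (Nat.le_add_right _ G),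
      show e + G + 2 * J * G = e + 2 * J * G + G by ring,
      cIoc_add P (Nat.le_add_right e (2 * J * G)) (Nat.le_add_right _ G), ih]
    ring

section
open Classical

lemma Good.lo {ε : ℝ} {h Y y e : ℕ} {ω : Om} (hG : Good ε h Y y ω) (he : e ≤ Y) :
    (1 - ε) * (h * th (zz y)) ≤ #{n ∈ Ioc e (e + h) | Sv ω (zz y) n} := by
  have := (abs_le.1 (hG e he 0 (by simp))).1
  rw [thd_zero, cntd_zero] at this
  linarith

lemma Good.hi {ε : ℝ} {h Y y e : ℕ} {ω : Om} (hG : Good ε h Y y ω) (he : e ≤ Y) :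
    (#{n ∈ Ioc e (e + h) | Sv ω (zz y) n ∧ Sv ω (zz y) (n + 2)} : ℝ) ≤
      (1 + ε) * (h * thd 2 (zz y)) := by
  have := (abs_le.1 (hG e he 2 (by simp))).2
  rw [cntd_two] at this
  linarith

/-- the pair count over a family of blocks -/
noncomputable def famC (F : ℕ → Prop) (e G J l : ℕ) : ℝ :=
  ∑ j ∈ range J, (#{t ∈ Ioc (e + 2 * j * G) (e + 2 * j * G + G) | F t ∧ Pr F l t} : ℝ)

end

lemma Sv_congr {u : ℕ} {ω ω' : Om} (H : Ag u ω ω') : Sv ω u = Sv ω' u := by
  funext n
  exact propext (forall₂_congr fun p hp => by rw [H p hp])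

lemma Sv_patch (ω : Om) {u z : ℕ} (h : u ≤ z) (v : ∀ i : Qs u z, ZMod i.1) :
    Sv (Function.updateFinset ω (Qs u z) v) z =
      Fs (ι := Qs u z) (fun i => i.1) (Sv ω u) v := by
  funext n
  apply propext
  constructor
  · intro a
    refine ⟨fun p hp => patch_low ω v hp ▸ a p (hp.trans h), fun i => ?_⟩
    have := a i.1 (mem_Qs.1 i.2).2
    rwa [Function.updateFinset, dif_pos i.2] at this
  · rintro ⟨a1, a2⟩ p hp
    by_cases h : (p : ℕ) ≤ u
    · rw [patch_low ω v h]; exact a1 p h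
    · have hq : p ∈ Qs u z := mem_Qs.2 ⟨not_le.1 h, hp⟩
      rw [Function.updateFinset, dif_pos hq]
      exact a2 ⟨p, hq⟩

open Classical in
theorem fam_bound {R A y h r Y e l : ℕ} {ε : ℝ} (S : Sc (R ^ 24) A y)
    (S0 : Sc (R ^ 24) A (y - y / R ^ 12)) (hR : 100 ≤ R) (h1 : 1 ≤ h) (h2 : h ≤ R) (r1 : 1 ≤ r)
    (hε : 0 < ε) (hε1 : ε ≤ 1 / 2) (g1 : 8 * Real.log y ≤ R) (g2 : 816 * r * 4 ^ r ≤ Real.log y)
    (l1 : 2 * (r * R) * (R ^ 20 * h) ≤ l)
    (l2 : 2 * (r * R) * (R ^ 20 * h) + l * h + h + 2 ≤ A) (he : e + A ≤ Y) :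
    law ({ω | Good ε h Y (y - y / R ^ 12) ω} ∩ {ω | Good ε h Y y ω ∧
      49 * R * (R ^ 20 * h : ℕ) / Real.log y ^ 2 < famC (Sv ω (zz y)) e (R ^ 20 * h) (r * R) l}) ≤
      ENNReal.ofReal (2 / 2 ^ R) := by
  set d := y / R ^ 12 with hd
  set y₀ := y - d with hy₀
  set G := R ^ 20 * h with hG
  have q0 := S.ay
  have q1 := S0.ay
  have q2 := S.one 39
  have q3 := S.pa (a := 0) (b := 10) (by norm_num)
  have q4 := S.lev
  have q5 := S0.lev
  have q6 := S.one 10
  have q7 := S.pa (a := 0) (b := 39) (by norm_num)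
  rw [pow_zero, mul_one] at q3 q7
  have R12 : 2 ≤ R ^ 12 := le_trans (by omega) (le_self_pow₀ (by omega) (by norm_num))
  have d1 : d * R ^ 12 ≤ y := Nat.div_mul_le_self _ _
  have d2 : 2 * d ≤ y := le_trans (by rw [mul_comm]; exact Nat.mul_le_mul_left _ R12) d1
  have d3 : y < (d + 1) * R ^ 12 := (Nat.div_lt_iff_lt_mul (by omega)).1 (Nat.lt_succ_self _)
  have e0 : y₀ + d = y := by omega
  have y8 : 8 ≤ y₀ := by omega
  have zm : zz y₀ ≤ zz y := zz_mono y8 (by omega)
  have JG : G ≤ r * R * G := Nat.le_mul_of_pos_left _ (by positivity)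
  rw [mul_assoc 2] at l1 l2
  have hA : Det (zz y₀) {ω | Good ε h Y y₀ ω} := fun ω ω' H a => good_congr H a
  have hF : Det (zz y) {ω | Good ε h Y y ω ∧
      49 * R * G / Real.log y ^ 2 < famC (Sv ω (zz y)) e G (r * R) l} :=
    fun ω ω' H a => ⟨good_congr H a.1, Sv_congr H ▸ a.2⟩
  refine (cond_bound (z := zz y) hA hF.meas (2 / 2 ^ R) ?_).trans
    (mul_le_of_le_one_right' prob_le_one)
  intro ω hω
  obtain ⟨t, ht⟩ : ∃ t : ℝ, t = R := ⟨_, rfl⟩
  obtain ⟨α, hα⟩ : ∃ α : ℝ, α = A := ⟨_, rfl⟩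
  set L := Real.log y with hL
  have t1 : 100 ≤ t := by rw [ht]; exact_mod_cast hR
  have α1 : (t ^ 24) ^ 40 ≤ α := by rw [ht, hα]; exact_mod_cast S.pow
  have α2 : 1 ≤ α := le_trans (one_le_pow₀ (one_le_pow₀ (by linarith))) α1
  have L1 : 1 ≤ L := one_le_log (by omega)
  have cz : ((A * (R ^ 24) ^ 10 : ℕ) : ℝ) = α * t ^ 240 := by
    rw [ht, hα]; push_cast; ring
  have tp : ∀ k, k ≤ 240 → t ^ k ≤ α * t ^ 240 := fun k hk =>
    (pow_le_pow_right₀ (by linarith) hk).trans (le_mul_of_one_le_left (by positivity) α2)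
  have u1 : α * t ^ 240 ≤ zz y₀ := by rw [← cz]; exact_mod_cast q5
  have u2 : ∀ k, k ≤ 240 → 1 / (zz y₀ : ℝ) ≤ 1 / t ^ k := fun k hk =>
    one_div_le_one_div_of_le (by positivity) ((tp k hk).trans u1)
  have y0 : (0 : ℝ) < y₀ := by positivity
  have y1 : (y : ℝ) ≤ 2 * y₀ := by exact_mod_cast (by omega : y ≤ 2 * y₀)
  have hh : (h : ℝ) ≤ t := by rw [ht]; exact_mod_cast h2
  have h0 : (0 : ℝ) < h := by exact_mod_cast h1
  have cG : (G : ℝ) = t ^ 20 * h := by rw [hG, ht]; push_cast; rfl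
  have r0 : (1 : ℝ) ≤ r := by exact_mod_cast r1
  have t0 := th_pos (zz y)
  have t2 := thd_pos (dvd_refl 2) (zz y)
  have t3 := twin_two (N := zz y) (by omega)
  have t4 := th_two (y := y) (by omega) (by omega)
  have main := pair_abs (ι := Qs (zz y₀) (zz y)) (p := fun i => i.1) (Sv ω (zz y₀)) e G (r * R) h l
    R (A * R ^ 24) (A * (R ^ 24) ^ 10) (R ^ 20) ((1 - ε) * (h * th (zz y)))
    ((1 + ε) * (h * thd 2 (zz y))) (t ^ 3) (3 / t ^ 13) (4 / t ^ 12) (48 * G / L ^ 2)
    (G / (r * L ^ 2)) (1 / 4 ^ r) (mul_pos (by linarith) (by positivity)) (by positivity) h1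
    (by rw [mul_assoc 2]; exact l1) (fun i => q5.trans (mem_Qs.1 i.2).1.le)
    (by rw [mul_assoc 2]; omega) (by omega)
    (by
      rw [sum_Qs _ _ (fun q => 1 / (q : ℝ)), ← e0]
      refine (lam_up y8 (by omega)).trans ?_
      have a1 : (d : ℝ) / y₀ ≤ 2 * (1 / t ^ 12) := by
        have : d * t ^ 12 ≤ y := by rw [ht]; exact_mod_cast d1
        rw [mul_one_div, div_le_div_iff₀ y0 (by positivity)]
        linarith
      have a2 := u2 12 (by norm_num)
      have a3 : 1 / t ^ 12 ≤ 1 / 2 := one_div_le_one_div_of_le two_pos (by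
        rw [ht]; exact_mod_cast R12)
      have a4 : (1 + 1 / (zz y₀ : ℝ)) * (1 + d / y₀) ≤ (1 + 1 / t ^ 12) * (1 + 2 * (1 / t ^ 12)) := by
        gcongr
      have a5 : 0 < 1 / t ^ 12 := by positivity
      rw [div_eq_mul_one_div 4]
      nlinarith)
    (by
      rw [sum_Qs _ _ (fun q => 1 / (q : ℝ))]
      have a0 := lam_lo (d := d) y8 (by omega)
      rw [e0] at a0
      refine le_trans ?_ a0
      have a1 : (y : ℝ) ≤ 2 * d * t ^ 12 := by
        have b1 : R ^ 12 ≤ y := by
          have : R ^ 12 ≤ (R ^ 24) ^ 40 := (Nat.pow_le_pow_right (by omega) (by omega)).trans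
            (le_self_pow₀ (by have := S.big; omega) (by norm_num))
          have := S.pow
          omega
        have b2 : 1 ≤ d := Nat.div_pos b1 (by omega)
        have : y ≤ 2 * d * R ^ 12 := d3.le.trans (Nat.mul_le_mul_right _ (by omega))
        rw [ht]; exact_mod_cast this
      have a2 : 4 * (1 / t ^ 13) ≤ d / y / L := by
        have b0 : (0 : ℝ) < y := by exact_mod_cast (by omega : 0 < y)
        have b1 : 1 / (2 * t ^ 12) ≤ d / y := by
          rw [div_le_div_iff₀ (by positivity) b0]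
          linarith
        calc _ = 1 / (2 * t ^ 12) / (t / 8) := by field_simp; norm_num
          _ ≤ _ := by gcongr; linarith
      have a3 := u2 13 (by norm_num)
      rw [div_eq_mul_one_div 3]
      linarith)
    (fun j hj => by
      have : 2 * j * G + G + G ≤ 2 * (r * R * G) :=
        calc _ = 2 * ((j + 1) * G) := by ring
          _ ≤ _ := by gcongr; omega
      refine many _ _ h _ fun e' a1 a2 => ?_
      have t5 := th_pos (zz y₀)
      exact_mod_cast lt_of_lt_of_le (mul_pos (by linarith) (by positivity))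
        (Good.lo hω (e := e') (by omega)))
    (fun j hj => by
      have : 2 * j * G + G + G ≤ 2 * (r * R * G) :=
        calc _ = 2 * ((j + 1) * G) := by ring
          _ ≤ _ := by gcongr; omega
      refine (win_le _ _ h _ _ fun e' a1 a2 => Good.hi hω (by omega)).trans ?_
      have a1 := twin_two (N := zz y₀) (by omega)
      have a2 := th_two y8 (by omega)
      have a3 : L / 2 ≤ Real.log y₀ := by
        have b1 : (y : ℝ) ≤ y₀ ^ 2 := by
          have : (8 : ℝ) ≤ y₀ := by exact_mod_cast y8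
          nlinarith
        have := Real.log_le_log (by exact_mod_cast (by omega : 0 < y)) b1
        rw [Real.log_pow] at this
        push_cast at this
        linarith
      have a4 : th (zz y₀) ≤ 2 / (L / 2) := a2.trans (by gcongr)
      have t5 := th_pos (zz y₀)
      have t6 := thd_pos (dvd_refl 2) (zz y₀)
      rw [cG, Nat.cast_pow, ← ht]
      calc _ ≤ t ^ 20 * ((3 / 2) * (h * (2 * (2 / (L / 2)) ^ 2))) := by
            gcongr
            · linarith
            · exact a1.trans (by gcongr)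
        _ = _ := by field_simp; norm_num)
    (by positivity) (by positivity)
    (by
      rw [cz, Nat.cast_mul, Nat.cast_pow, Nat.cast_pow, ← ht, ← hα]
      have a1 : α * t ^ 24 / (α * t ^ 240) ≤ 1 / t ^ 13 := by
        rw [mul_div_mul_left _ _ (by linarith), div_le_div_iff₀ (by positivity) (by positivity),
          ← pow_add, one_mul]
        exact pow_le_pow_right₀ (by linarith) (by norm_num)
      calc 2 * (t ^ 3) ^ 2 ≤ 2 * (t * (t ^ 3) ^ 2) := by
            gcongr; exact le_mul_of_one_le_left (by positivity) (by linarith)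
        _ = t ^ 20 * (3 / t ^ 13 - 1 / t ^ 13) := by field_simp; norm_num
        _ ≤ _ := by gcongr)
    (by rw [cG]; positivity) (by positivity)
    (by
      have G1 : (G : ℝ) ≤ t ^ 21 := by rw [cG, pow_succ t 20]; gcongr
      have G0 : (0 : ℝ) ≤ G := Nat.cast_nonneg _
      have a1 : (1 + ε) * (h * thd 2 (zz y)) / ((1 - ε) * (h * th (zz y))) ≤ 12 / L := by
        calc _ ≤ 3 / 2 * (h * (2 * th (zz y) ^ 2)) / (1 / 2 * (h * th (zz y))) := by
              gcongr <;> linarith
          _ = 6 * th (zz y) := by field_simp; norm_num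
          _ ≤ 6 * (2 / L) := by gcongr
          _ = _ := by ring
      have a2 : ((1 + ε) * (h * thd 2 (zz y)) + 1) / t ^ 3 ≤ 3 * (1 / t ^ 2) := by
        have b1 : thd 2 (zz y) ≤ 1 := by simpa [thd] using thd_anti (dvd_refl 2) (Nat.zero_le (zz y))
        calc _ ≤ (3 / 2 * (t * 1) + t) / t ^ 3 := by gcongr <;> linarith
          _ ≤ (3 * t) / t ^ 3 := by gcongr; linarith
          _ = _ := by field_simp
      have a3 : G * (2 / ((A * (R ^ 24) ^ 10 : ℕ) : ℝ)) ≤ 1 / t ^ 2 := by
        rw [cz]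
        calc _ ≤ t ^ 21 * (t / t ^ 24) := by
              gcongr
              · linarith
              · exact tp 24 (by norm_num)
          _ = _ := by field_simp
      have a4 : G * (2 * (4 / t ^ 12)) ^ 2 ≤ 1 / t ^ 2 := by
        calc _ ≤ t ^ 21 * (2 * (4 / t ^ 12)) ^ 2 := by gcongr
          _ = 64 / t * (1 / t ^ 2) := by field_simp; norm_num
          _ ≤ _ := mul_le_of_le_one_left (by positivity) (by rw [div_le_one] <;> linarith)
      have a5 : 1 / t ^ 2 ≤ 1 / L := one_div_le_one_div_of_le (by linarith) (by nlinarith)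
      calc _ ≤ 48 * G / L ^ 2 * (17 / L) := by
            gcongr
            rw [div_eq_mul_one_div 12] at a1
            rw [div_eq_mul_one_div 17]
            linarith
        _ = G / (r * L ^ 2) * (1 / 4 ^ r) * (816 * r * 4 ^ r / L) := by field_simp; ring
        _ ≤ _ := mul_le_of_le_one_right (by positivity) ((div_le_one (by linarith)).2 g2))
  refine le_trans ?_ (main.trans (mul_le_mul_of_nonneg_left ?_ (Nat.cast_nonneg _)))
  · rw [Nat.cast_le]
    apply card_le_card
    intro v hv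
    simp only [mem_filter, mem_univ, true_and, Set.mem_ofPred_eq] at hv
    obtain ⟨a1, a2⟩ := hv
    rw [Sv_patch ω zm] at a2
    refine mem_filter.2 ⟨mem_univ _, fun e' b1 b2 => ?_, lt_of_le_of_lt (le_of_eq ?_) a2⟩
    · rw [mul_assoc 2] at b2
      have c1 := Good.lo a1 (e := e') (by omega)
      have c2 := Good.hi a1 (e := e') (by omega)
      rw [Sv_patch ω zm] at c1 c2
      exact ⟨c1, c2⟩
    · push_cast
      field_simp
      norm_num
  · have a1 : (2 : ℝ) ^ (r * R) * (1 / 4 ^ r) ^ R ≤ 1 / 2 ^ R := by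
      rw [pow_mul, ← mul_pow, ← one_div_pow (2 : ℝ)]
      refine pow_le_pow_left₀ (by positivity) ?_ R
      rw [mul_one_div, ← div_pow]
      calc _ ≤ ((2 : ℝ) / 4) ^ 1 := pow_le_pow_of_le_one (by norm_num) (by norm_num) r1
        _ = _ := by norm_num
    have a2 : Real.exp ((2 * (r * R) * G + l * h + h + 2 : ℕ) * (4 / t ^ 12)) ≤ 2 ^ (2 * A) := by
      have b1 : ((2 * (r * R) * G + l * h + h + 2 : ℕ) : ℝ) ≤ A := by
        rw [mul_assoc 2]; exact_mod_cast l2
      have b2 : 4 / t ^ 12 ≤ 1 := by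
        rw [div_le_one (by positivity)]
        exact le_trans (by linarith) (le_self_pow₀ (by linarith : 1 ≤ t) (by norm_num))
      calc _ ≤ Real.exp (A * 1) := by gcongr
        _ ≤ 4 ^ A := by
            rw [Real.exp_nat_mul]
            gcongr
            linarith [Real.exp_one_lt_d9]
        _ = _ := by rw [pow_mul]; norm_num
    have a3 : (2 : ℝ) ^ (2 * A) / 2 ^ (A * R ^ 24) ≤ 1 / 2 ^ R := by
      rw [div_le_div_iff₀ (by positivity) (by positivity), one_mul, ← pow_add]
      apply pow_le_pow_right₀ one_le_two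
      have b1 := S.pa (a := 0) (b := 1) (by norm_num)
      have b2 : R ≤ (R ^ 24) ^ 40 := (le_self_pow₀ (by omega) (by norm_num)).trans
        (le_self_pow₀ (by have := S.big; omega) (by norm_num))
      have := S.pow
      rw [pow_zero, mul_one, pow_one] at b1
      omega
    have a4 := (div_le_div_of_nonneg_right a2 (by positivity : (0 : ℝ) ≤ 2 ^ (A * R ^ 24))).trans a3
    rw [div_eq_mul_one_div 2]
    linarith

end Pool.Agent.Lib.MP_be93de_nt
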