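import Mathlib
import Pool.Agent.Lib.MP_be93de_nt.RlPG
import Pool.Agent.Lib.MP_be93de_nt.RlFac

/-! The second moment bound for the clustered family of indices. -/

namespace Pool.Agent.Lib.MP_be93de_nt

open Finset Nat Filter MeasureTheory
open Pool.Agent.Lib.MP_b09185_nt

lemma prod_mod {M K g : ℕ} {c : ℝ} (hc : 1 ≤ c) (P : ℕ → Prop) [DecidablePred P]
    (hP : ∀ σ, P σ → σ % M = g) : ∏ σ ∈ range (K * M), (if P σ then c else 1) ≤ c ^ K := by
  rw [← prod_filter, prod_const]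
  apply pow_le_pow_right₀ hc
  refine le_trans (card_le_card_of_injOn (t := range K) (· / M) (fun σ hσ => ?_)
    fun σ hσ τ hτ h => ?_) (card_range K).le
  · have := mem_range.1 (mem_filter.1 hσ).1
    exact mem_coe.2 (mem_range.2 (Nat.div_lt_of_lt_mul (by rwa [mul_comm] at this)))
  · rw [← Nat.div_add_mod σ M, ← Nat.div_add_mod τ M, hP σ (mem_filter.1 hσ).2,
      hP τ (mem_filter.1 hτ).2]
    simp only at h
    rw [h]

open Classical in
lemma sum_rho {M B K : ℕ} (hM : 0 < M) (hB : 0 < B) {c c' : ℝ} (hc : 1 ≤ c) (hc' : 1 ≤ c') :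
    (∑ n ∈ range M ×ˢ range B, ∑ n' ∈ range M ×ˢ range B, ∏ σ ∈ range (K * M),
      if σ % M = n.1 ∧ σ % M = n'.1 then (if n = n' then c else c') else 1) /
      (#(range M ×ˢ range B) : ℝ) ^ 2 - 1 ≤ c' ^ K / M + c ^ K / (M * B) := by
  have M0 : (0 : ℝ) < M := by exact_mod_cast hM
  have B0 : (0 : ℝ) < B := by exact_mod_cast hB
  have c0 : 0 ≤ c ^ K := by positivity
  have c1 : 0 ≤ c' ^ K := by positivity
  have key : ∀ n ∈ range M ×ˢ range B, (∑ n' ∈ range M ×ˢ range B, ∏ σ ∈ range (K * M),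
      if σ % M = n.1 ∧ σ % M = n'.1 then (if n = n' then c else c') else 1) ≤
      M * B + B * c' ^ K + c ^ K := by
    intro n hn
    calc _ ≤ ∑ n' ∈ range M ×ˢ range B,
          (1 + (if n'.1 = n.1 then c' ^ K else 0) + if n = n' then c ^ K else 0) := by
          refine sum_le_sum fun n' _ => ?_
          by_cases h1 : n = n'
          · simp only [if_pos h1]
            have := prod_mod (K := K) hc (fun σ => σ % M = n.1 ∧ σ % M = n'.1) fun σ h => h.1
            split_ifs <;> linarith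
          · simp only [if_neg h1]
            split_ifs with h2
            · have := prod_mod (K := K) hc' (fun σ => σ % M = n.1 ∧ σ % M = n'.1) fun σ h => h.1
              linarith
            · rw [prod_eq_one fun σ _ => if_neg fun h => h2 (h.2.symm.trans h.1)]
              linarith
      _ = _ := by
          rw [sum_add_distrib, sum_add_distrib, sum_ite_eq, if_pos hn, sum_const, card_product,
            card_range, card_range, sum_product_right]
          simp [(mem_product.1 hn).1]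
  have := sum_le_sum key
  rw [sum_const, card_product, card_range, card_range, nsmul_eq_mul] at this
  rw [card_product, card_range, card_range, sub_le_iff_le_add, div_le_iff₀ (by positivity)]
  refine this.trans (le_of_eq ?_)
  push_cast
  field_simp
  ring

/-- uniform pair counts at the level of `y` -/
def PG (R A h r Y y : ℕ) (ω : Om) : Prop :=
  ∀ e, e + A ≤ Y → ∀ l, 2 * (r * R) * (R ^ 20 * h) ≤ l →
    2 * (r * R) * (R ^ 20 * h) + l * h + h + 2 ≤ A →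
    famC (Sv ω (zz y)) e (R ^ 20 * h) (r * R) l ≤ 49 * R * (R ^ 20 * h : ℕ) / Real.log y ^ 2

/-- conditions at a stopping position -/
def Gd (ε : ℝ) (R A h r Y y : ℕ) (ω : Om) : Prop :=
  A ^ 2 ≤ 2 * y ∧ 2 * y ≤ Y ∧ Good ε h Y y ω ∧ PG R A h r Y y ω

lemma base_gap {T B K d σ τ : ℕ} (hd : 1 ≤ d) (hK : K ^ d ≤ T) (hσ : σ < K * (B * T ^ 7))
    (hτ : τ < σ) :
    (τ / (B * T ^ 7) + 1) ^ d * ((B * T ^ 16) ^ 2 + τ % (B * T ^ 7) * (B * T ^ 16 * T ^ 8)) +
      B * T ^ 16 * T ^ 8 ≤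
    (σ / (B * T ^ 7) + 1) ^ d * ((B * T ^ 16) ^ 2 + σ % (B * T ^ 7) * (B * T ^ 16 * T ^ 8)) := by
  set M := B * T ^ 7 with hM
  set G := B * T ^ 16 * T ^ 8 with hG
  set X := (B * T ^ 16) ^ 2 with hX
  have M0 : 0 < M := Nat.pos_of_ne_zero fun h => by simp [h] at hσ
  have a0 : τ / M ≤ σ / M := Nat.div_le_div_right hτ.le
  have a1 : 1 ≤ (τ / M + 1) ^ d := Nat.one_le_pow _ _ (Nat.succ_pos _)
  have a2 : (τ / M + 1) ^ d * (X + τ % M * G) + G ≤ (τ / M + 1) ^ d * (X + (τ % M + 1) * G) := by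
    have := Nat.mul_le_mul_right G a1
    nlinarith
  refine a2.trans ?_
  rcases a0.eq_or_lt with h | h
  · have b1 := Nat.div_add_mod τ M
    have b2 := Nat.div_add_mod σ M
    rw [h] at b1 ⊢
    gcongr
    omega
  · have b1 : σ / M < K := Nat.div_lt_of_lt_mul (by rwa [mul_comm] at hσ)
    have b2 : (τ / M + 1) ^ d ≤ T := (Nat.pow_le_pow_left (by omega) d).trans hK
    have b3 : (τ / M + 1) ^ d < (σ / M + 1) ^ d := Nat.pow_lt_pow_left (by omega) (by omega)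
    have b4 : τ % M + 1 ≤ M := Nat.mod_lt _ M0
    have b5 : (τ / M + 1) ^ d * ((τ % M + 1) * G) ≤ X :=
      (Nat.mul_le_mul b2 (Nat.mul_le_mul_right G b4)).trans (le_of_eq (by rw [hM, hG, hX]; ring))
    calc _ ≤ ((τ / M + 1) ^ d + 1) * X := by rw [mul_add, add_mul (_ ^ _) 1, one_mul]; omega
      _ ≤ _ := Nat.mul_le_mul b3 (Nat.le_add_right _ _)

open Classical in
theorem mart_bound {R B K d h r Y : ℕ} {ε κ L μ ν : ℝ} (hd : 1 ≤ d) (hK : K ^ d ≤ R ^ 24)
    (hR : 100 ≤ R) (hB : (R ^ 24) ^ 24 ≤ B) (h1 : 1 ≤ h) (h2 : h ≤ R) (r1 : 1 ≤ r) (r2 : r ≤ R)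
    (hε : 0 < ε) (hε1 : ε ≤ 1 / 2) (κ0 : 0 ≤ κ) (L0 : 49 ≤ L)
    (hS : ∀ y, (B * (R ^ 24) ^ 16) ^ 2 ≤ 2 * y → 2 * y ≤ Y → Sc (R ^ 24) (B * (R ^ 24) ^ 16) y ∧
      thd 2 (zz y) ≤ κ * th (zz y) ^ 2 ∧ L ≤ Real.log y)
    (hμ : (1 + ε) / (1 - ε) * κ * (1 + 1 / (R ^ 24 : ℕ)) / L + 1 / (R ^ 24 : ℕ) ≤ μ)
    (μ1 : μ ≤ 1 / 2) (hν : 98 / (r * L) + 1 / (R ^ 24 : ℕ) ≤ ν) :
    law {ω | ∀ n ∈ range (B * (R ^ 24) ^ 7) ×ˢ range B, ∃ σ < K * (B * (R ^ 24) ^ 7),
      σ % (B * (R ^ 24) ^ 7) = n.1 ∧ ∃ y < Y,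
      ω ∈ St (Gd ε R (B * (R ^ 24) ^ 16) h r Y) ((σ / (B * (R ^ 24) ^ 7) + 1) ^ d *
        ((B * (R ^ 24) ^ 16) ^ 2 + σ % (B * (R ^ 24) ^ 7) * (B * (R ^ 24) ^ 16 * (R ^ 24) ^ 8)) -
        2 * (B * (R ^ 24) ^ 16 * (R ^ 24) ^ 6)) y ∧
      SL y (B * (R ^ 24) ^ 16 * (R ^ 24) ^ 8) ((σ / (B * (R ^ 24) ^ 7) + 1) ^ d *
        ((B * (R ^ 24) ^ 16) ^ 2 + n.1 * (B * (R ^ 24) ^ 16 * (R ^ 24) ^ 8) +
          n.2 * (R ^ 24) ^ 2)) ω} ≤
      ENNReal.ofReal ((1 + 4 * ν) ^ K / (B * (R ^ 24) ^ 7 : ℕ) +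
        (1 - μ)⁻¹ ^ K / ((B * (R ^ 24) ^ 7 : ℕ) * B)) := by
  have HT : 2 * (r * R) * (R ^ 20 * h) ≤ R ^ 24 :=
    calc _ ≤ R * (R * R) * (R ^ 20 * R) := by gcongr; omega
      _ = _ := by ring
  have RT : R ≤ R ^ 24 := le_self_pow₀ (by omega) (by norm_num)
  generalize R ^ 24 = T at *
  set A := B * T ^ 16 with hA
  set M := B * T ^ 7 with hM
  have T1 : 1 ≤ T := by omega
  have pw : ∀ a b : ℕ, a < b → 100 * T ^ a ≤ T ^ b := fun a b hab =>
    calc 100 * T ^ a ≤ T * T ^ a := Nat.mul_le_mul_right _ (by omega)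
      _ = T ^ (a + 1) := by ring
      _ ≤ T ^ b := Nat.pow_le_pow_right T1 hab
  have pb : ∀ a b : ℕ, a < b → 100 * (B * T ^ a) ≤ B * T ^ b := fun a b hab => by
    rw [mul_left_comm]; exact Nat.mul_le_mul_left _ (pw a b hab)
  have B1 : 1 ≤ B := le_trans (Nat.one_le_pow _ _ T1) hB
  have M0 : 0 < M := by positivity
  have q1 := pb 0 3 (by norm_num)
  have q2 := pb 3 4 (by norm_num)
  have q3 := pb 4 5 (by norm_num)
  have q4 := pb 5 16 (by norm_num)
  have q5 := pw 18 24 (by norm_num)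
  have q6 := pw 1 2 (by norm_num)
  have q7 := pw 2 18 (by norm_num)
  rw [pow_zero, mul_one] at q1
  rw [pow_one] at q6
  have q8 : A ≤ A * T ^ 6 := Nat.le_mul_of_pos_right _ (by positivity)
  have q9 : 100 * (A * T ^ 6) ≤ A ^ 2 := by
    rw [mul_left_comm, pow_two]
    refine Nat.mul_le_mul_left _ ((pw 6 24 (by norm_num)).trans (by omega))
  have qh : T ^ 17 * h ≤ T ^ 18 := (Nat.mul_le_mul_left _ (h2.trans RT)).trans (le_of_eq (by ring))
  have qΛ : B * T ^ 5 * T ^ 11 ≤ A := le_of_eq (by rw [hA]; ring)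
  have t0 : (0 : ℝ) < T := by exact_mod_cast T1
  have h0 : (0 : ℝ) < h := by exact_mod_cast h1
  have r0 : (1 : ℝ) ≤ r := by exact_mod_cast r1
  have e0 : 0 < 1 - ε := by linarith
  have ν0 : 0 ≤ ν := le_trans (by positivity) hν
  have μ0 : 0 ≤ μ := le_trans (by positivity) hμ
  have tg : ∀ σ < K * M, ∀ i < B, ∀ y ω, ω ∈ St (Gd ε R A h r Y) ((σ / M + 1) ^ d *
      (A ^ 2 + σ % M * (A * T ^ 8)) - 2 * (A * T ^ 6)) y →
      (σ / M + 1) ^ d * (A ^ 2 + σ % M * (A * T ^ 8) + i * T ^ 2) =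
        rk ω y + (2 * (A * T ^ 6) + (σ / M + 1) ^ d * (i * T ^ 2)) ∧
      (σ / M + 1) ^ d * (i * T ^ 2) ≤ B * T ^ 3 := by
    intro σ hσ i hi y ω hω
    have b1 : σ / M < K := Nat.div_lt_of_lt_mul (by rwa [mul_comm] at hσ)
    have b2 : (σ / M + 1) ^ d ≤ T := (Nat.pow_le_pow_left (by omega) d).trans hK
    have b3 : A ^ 2 ≤ (σ / M + 1) ^ d * (A ^ 2 + σ % M * (A * T ^ 8)) :=
      (Nat.le_add_right _ _).trans (Nat.le_mul_of_pos_left _ (by positivity))
    refine ⟨by rw [hω.2.1, mul_add]; omega, (Nat.mul_le_mul b2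
      (Nat.mul_le_mul_right _ hi.le)).trans (le_of_eq (by ring))⟩
  have pair : ∀ σ < K * M, ∀ i j, i < j → j < B → ∀ y ω, ω ∈ St (Gd ε R A h r Y) ((σ / M + 1) ^ d *
      (A ^ 2 + σ % M * (A * T ^ 8)) - 2 * (A * T ^ 6)) y →
      av (zz y) (zz (y + A * T ^ 8)) (fun ω => ind (SL y (A * T ^ 8) ((σ / M + 1) ^ d *
        (A ^ 2 + σ % M * (A * T ^ 8) + i * T ^ 2)) ω ∧ SL y (A * T ^ 8) ((σ / M + 1) ^ d *
        (A ^ 2 + σ % M * (A * T ^ 8) + j * T ^ 2)) ω)) ω ≤ ν := by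
    intro σ hσ i j hij hj y ω hω
    obtain ⟨a1, a2⟩ := tg σ hσ i (by omega) y ω hω
    obtain ⟨-, a4⟩ := tg σ hσ (j - i) (by omega) y ω hω
    obtain ⟨g1, g2, g3, g4⟩ := hω.2.2
    obtain ⟨S, -, s2⟩ := hS y g1 g2
    have s3 := S.ay
    have s4 := S.pa (a := 8) (b := 39) (by norm_num)
    have s5 := S.pa (a := 6) (b := 8) (by norm_num)
    set l := (σ / M + 1) ^ d * ((j - i) * T ^ 2) with hl
    set G := R ^ 20 * h with hG
    set H := 2 * (r * R) * G with hH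
    have l1 : T ^ 2 ≤ l := (Nat.le_mul_of_pos_left _ (by omega)).trans
      (Nat.le_mul_of_pos_left _ (by positivity))
    have l2 : ∀ k, k ≤ T → l * k ≤ B * T ^ 4 := fun k hk =>
      (Nat.mul_le_mul a4 hk).trans (le_of_eq (by ring))
    have l3 := l2 H HT
    have l4 := l2 h (by omega)
    have l5 : T ^ 17 * H ≤ T ^ 18 := (Nat.mul_le_mul_left _ HT).trans (le_of_eq (by ring))
    have H0 : 0 < H := by positivity
    have GH : G ≤ H := Nat.le_mul_of_pos_left _ (by positivity)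
    have a3 : (σ / M + 1) ^ d * (A ^ 2 + σ % M * (A * T ^ 8) + j * T ^ 2) =
        rk ω y + (2 * (A * T ^ 6) + (σ / M + 1) ^ d * (i * T ^ 2)) + l := by
      rw [← a1, hl, ← mul_add, add_assoc _ (i * _), ← add_mul, Nat.add_sub_cancel' hij.le]
    set Λ := Real.log y with hΛ
    have Λ0 : 0 < Λ := by linarith
    have H1 : (0 : ℝ) < H := by exact_mod_cast H0
    have cH : (H : ℝ) = 2 * (r * R) * G := by rw [hH]; push_cast; rfl
    rw [a1, a3]
    refine (core_two (a := H / (2 * Λ)) (b := 49 * H / (r * Λ ^ 2)) S H0 HT (by positivity)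
      (by positivity) ?_ (by omega) (by omega) (by omega) qΛ ω (fun e b1 b2 => ?_)
      fun e b1 b2 => ?_).trans (le_trans (add_le_add ?_ le_rfl) hν)
    · rw [div_le_iff₀ (by positivity)]
      have b1 : (H : ℝ) ≤ T := by exact_mod_cast HT
      have b2 : 49 ≤ r * Λ ^ 2 := by nlinarith
      nlinarith
    · have c1 : H = 2 * (r * R) * R ^ 20 * h := by rw [hH, hG]; ring
      have c2 := win_ge (Sv ω (zz y)) e h (2 * (r * R) * R ^ 20) _ fun e' _ c3 =>
        Good.lo g3 (e := e') (by omega)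
      rw [← c1] at c2
      refine le_trans ?_ c2
      have c3 : 1 / Λ ≤ th (zz y) := by
        rw [div_le_iff₀' Λ0]; exact th_lo (by have := S.one 39; omega)
      calc _ = (2 * (r * R) * R ^ 20 : ℕ) * (1 / 2 * (h * (1 / Λ))) := by
            rw [c1]; push_cast; field_simp
        _ ≤ _ := by gcongr; linarith
    · have c3 : H ≤ l := by omega
      have c4 : H + l * h + h + 2 ≤ A := by omega
      have c1 := g4 e (by omega) l c3 c4
      have c2 := g4 (e + G) (by omega) l c3 c4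
      rw [hH, fam_cover, Nat.cast_add, Nat.cast_sum, Nat.cast_sum]
      refine (add_le_add c1 c2).trans (le_of_eq ?_)
      rw [← hH, cH, ← hG, ← hΛ]
      field_simp
      norm_num
    · calc _ = 98 / (r * Λ) := by field_simp; norm_num
        _ ≤ _ := by gcongr
  refine (mart _ (by simp [M0.ne', show B ≠ 0 by omega]) Y (K * M) (A * T ^ 8) _ ?_ _ ?_
    (fun (n : ℕ × ℕ) σ => σ % M = n.1) _ μ ν μ0 μ1 ν0 ?_ ?_).trans (ENNReal.ofReal_le_ofReal ?_)
  · exact fun y ω ω' H a => ⟨a.1, a.2.1, good_congr H a.2.2.1, by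
      have := a.2.2.2
      rwa [PG, Sv_congr H] at this⟩
  · intro σ hσ τ hτ
    have b1 := base_gap hd hK hσ hτ
    have b3 : A ^ 2 ≤ (τ / M + 1) ^ d * (A ^ 2 + τ % M * (A * T ^ 8)) :=
      (Nat.le_add_right _ _).trans (Nat.le_mul_of_pos_left _ (by positivity))
    rw [← hA, ← hM] at b1
    omega
  · intro n hn σ hσ a y ω hω
    obtain ⟨a1, a2⟩ := tg σ hσ n.2 (mem_range.1 (mem_product.1 hn).2) y ω hω
    obtain ⟨g1, g2, g3, -⟩ := hω.2.2
    obtain ⟨S, s1, s2⟩ := hS y g1 g2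
    have s3 := S.ay
    have s4 := S.pa (a := 8) (b := 39) (by norm_num)
    have s5 := S.lev
    have s6 := S.pa (a := 6) (b := 10) (by norm_num)
    have y8 : 8 ≤ y := by have := S.one 39; omega
    have t1 := th_pos (zz y)
    have t2 := thd_pos (dvd_refl 2) (zz y)
    rw [← a, a1]
    refine (core_one S h1 (by omega) (mul_pos e0 (by positivity)) (by positivity) ?_ (by omega)
      (by omega) (by omega) qΛ ω (fun e _ _ => Good.lo g3 (by omega))
      fun e _ _ => Good.hi g3 (by omega)).trans (le_trans (add_le_add ?_ le_rfl) hμ)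
    · have b1 : thd 2 (zz y) ≤ 1 := by simpa [thd] using thd_anti (dvd_refl 2) (Nat.zero_le (zz y))
      have b2 : (h : ℝ) ≤ T := by exact_mod_cast h2.trans RT
      calc _ ≤ 2 * (T * (1 : ℝ)) := by gcongr; linarith
        _ = _ := by ring
    · have b1 := th_up y8 (by omega)
      have b2 : 1 / (zz y : ℝ) ≤ 1 / T :=
        one_div_le_one_div_of_le t0 (by exact_mod_cast (by omega : T ≤ zz y))
      have b3 : th (zz y) ≤ (1 + 1 / T) / L := by
        rw [le_div_iff₀ (by linarith)]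
        nlinarith
      calc _ ≤ (1 + ε) * (h * (κ * th (zz y) ^ 2)) / ((1 - ε) * (h * th (zz y))) := by gcongr
        _ = (1 + ε) / (1 - ε) * κ * th (zz y) := by field_simp
        _ ≤ (1 + ε) / (1 - ε) * κ * ((1 + 1 / T) / L) := by gcongr
        _ = _ := by ring
  · intro n hn n' hn' a σ hσ b b' y ω hω
    have c1 := mem_range.1 (mem_product.1 hn).2
    have c2 := mem_range.1 (mem_product.1 hn').2
    rw [← b, ← b']
    rcases lt_trichotomy n.2 n'.2 with c | c | c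
    · exact pair σ hσ _ _ c c2 y ω hω
    · exact absurd (Prod.ext (b.symm.trans b') c) a
    · simp only [and_comm (a := SL _ _ (_ * (_ + n.2 * _)) _)]
      exact pair σ hσ _ _ c c1 y ω hω
  · convert sum_rho (K := K) M0 B1 (c := (1 - μ)⁻¹) (c' := 1 + 4 * ν)
      (one_le_inv₀ (by linarith) |>.2 (by linarith)) (by linarith)

end Pool.Agent.Lib.MP_be93de_nt
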