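import Mathlib
import Pool.Agent.Lib.MP_be93de_nt.RsChain

/-! Twin elements of prescribed rank in the random sieve. -/

namespace Pool.Agent.Lib.MP_be93de_nt

open Finset Nat Filter MeasureTheory ProbabilityTheory
open Pool.Agent.Lib.MP_b09185_nt

lemma exists_rank (P : ℕ → Prop) [DecidablePred P] (a l : ℕ) (hl : 1 ≤ l) (b : ℕ) :
    l ≤ #{n ∈ Ioc a b | P n} → ∃ y, y ≤ b ∧ P y ∧ #{n ∈ Ioc a y | P n} = l := by
  induction b with
  | zero => intro h; simp at h; omega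
  | succ b ih =>
    intro h
    by_cases h' : l ≤ #{n ∈ Ioc a b | P n}
    · obtain ⟨y, h1, h2⟩ := ih h'
      exact ⟨y, by omega, h2⟩
    · refine ⟨b + 1, le_rfl, ?_, by have := cIoc_succ P a b; omega⟩
      by_contra hP
      refine h' (h.trans (card_le_card fun n hn => ?_))
      simp only [mem_filter, mem_Ioc] at hn ⊢
      refine ⟨⟨hn.1.1, ?_⟩, hn.2⟩
      by_contra h2
      exact hP ((by omega : n = b + 1) ▸ hn.2)

lemma exists_stop {ε : ℝ} (hε : ε < 1) {T h M m : ℕ} (h1 : 1 ≤ h) (hM : m ≤ M)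
    (hm : T ^ 999 + 2 * T ^ 506 + 1 ≤ m) (ω : Om)
    (hG : ∀ y, T ^ 999 ≤ y → y ≤ 2 * (8 + M * h) → Good ε h (2 * (8 + M * h)) y ω) :
    ∃ y, Stop ε T h (2 * (8 + M * h)) m y ω := by
  classical
  have a0 : M ≤ M * h := Nat.le_mul_of_pos_right _ h1
  have a1 : M ≤ #{n ∈ Ioc 8 (8 + M * h) | n ∈ model ω} := by
    apply many
    intro e b1 b2
    have b3 := (abs_le.1 (hG _ (by omega) le_rfl e (by omega) 0 (by simp))).1
    rw [cntd_zero, thd_zero] at b3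
    have t := th_pos (zz (2 * (8 + M * h)))
    have h0 : (0 : ℝ) < h := by exact_mod_cast h1
    have b4 : (0 : ℝ) < #{n ∈ Ioc e (e + h) | Sv ω (zz (2 * (8 + M * h))) n} := by
      nlinarith [mul_pos h0 t]
    refine lt_of_lt_of_le (by exact_mod_cast b4) (card_le_card fun n hn => ?_)
    simp only [mem_filter, mem_Ioc] at hn ⊢
    exact ⟨hn.1, (mem_iff ω n).2 ⟨by omega, fun p hp =>
      hn.2 p (hp.trans (zz_mono (by omega) (by omega)))⟩⟩
  have a2 := cIoc_add (· ∈ model ω) (Nat.zero_le 8) (Nat.le_add_right 8 (M * h))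
  obtain ⟨y, b1, b2, b3⟩ := exists_rank (· ∈ model ω) 0 (m - 2 * T ^ 506) (by omega) (8 + M * h)
    (by omega)
  have b4 := cIoc_le (· ∈ model ω) 0 y
  exact ⟨y, by omega, by omega, b2, by rw [rk, b3]; omega, hG y (by omega) (by omega)⟩

lemma succ_nth {m : ℕ} {ω : Om} (h : Succ m ω) :
    Nat.nth (· ∈ model ω) (m - 1) + 2 ∈ model ω := by
  classical
  obtain ⟨t, h1, h2, h3⟩ := h
  have : Nat.count (· ∈ model ω) t = m - 1 := by
    rw [Nat.count_eq_card_filter_range, ← h2, rk]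
    have e : ({n ∈ Ioc 0 t | n ∈ model ω} : Finset ℕ) = insert t {n ∈ range t | n ∈ model ω} := by
      ext n
      simp only [mem_filter, mem_Ioc, mem_insert, mem_range]
      constructor
      · rintro ⟨a1, a2⟩
        rcases a1.2.eq_or_lt with h | h
        · exact Or.inl h
        · exact Or.inr ⟨h, a2⟩
      · rintro (rfl | ⟨a1, a2⟩)
        · exact ⟨⟨by have := h1.1; omega, le_rfl⟩, h1⟩
        · exact ⟨⟨by have := a2.1; omega, a1.le⟩, a2⟩
    rw [e, card_insert_of_notMem (by simp)]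
    rfl
  rw [← this, Nat.nth_count (p := (· ∈ model ω)) h1]
  exact h3

lemma ev_poly (C : ℝ) (A : ℕ) {η : ℝ} (hη : 0 < η) :
    ∀ᶠ l : ℝ in atTop, C * l ^ A ≤ Real.exp (η * l) := by
  filter_upwards [((isLittleO_pow_exp_pos_mul_atTop A hη).const_mul_left C).eventuallyLE]
    with l hl
  rw [Real.norm_of_nonneg (Real.exp_pos _).le] at hl
  exact (le_abs_self _).trans hl

lemma bad_bound {ε : ℝ} {B : ℕ} (hB : ∀ δ, 2 ∣ δ →
    ∀ (x w z : ℕ) (L : ℝ), w ≤ z → (th z)⁻¹ ≤ L → 3 * L ^ 6 ≤ ε * w →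
    law {ω | ε * (((w ^ (B + 1) : ℕ) : ℝ) * thd δ z) <
        |cntd (cl ω) δ x (w ^ (B + 1)) ∅ z - ((w ^ (B + 1) : ℕ) : ℝ) * thd δ z|} ≤
      2 * ENNReal.ofReal (Real.exp (-(ε ^ 2 * w / (288 * L ^ 12)))))
    {T w Y : ℕ} {L : ℝ} (hT : Big T) (hw : w ≤ T) (hL : Real.log Y ≤ L) (h3 : 3 * L ^ 6 ≤ ε * w) :
    law {ω | ¬ ∀ y, T ^ 999 ≤ y → y ≤ Y → Good ε (w ^ (B + 1)) Y y ω} ≤
      ENNReal.ofReal (4 * (Y + 1) ^ 2 * Real.exp (-(ε ^ 2 * w / (288 * L ^ 12)))) := by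
  set s : ℕ × ℕ × ℕ → Set Om := fun t => {ω | ε * (((w ^ (B + 1) : ℕ) : ℝ) * thd t.2.2 (zz t.1)) <
    |cntd (cl ω) t.2.2 t.2.1 (w ^ (B + 1)) ∅ (zz t.1) -
      ((w ^ (B + 1) : ℕ) : ℝ) * thd t.2.2 (zz t.1)|} with hs
  have h1 : {ω | ¬ ∀ y, T ^ 999 ≤ y → y ≤ Y → Good ε (w ^ (B + 1)) Y y ω} ⊆
      ⋃ t ∈ Icc (T ^ 999) Y ×ˢ range (Y + 1) ×ˢ ({0, 2} : Finset ℕ), s t := by
    intro ω hω
    simp only [Good, Set.mem_ofPred_eq, not_forall, not_le] at hω
    obtain ⟨y, a1, a2, e, a3, δ, a4, a5⟩ := hω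
    simp only [Set.mem_iUnion]
    exact ⟨(y, e, δ), by simp only [mem_product, mem_Icc, mem_range]; exact ⟨⟨a1, a2⟩, by omega, a4⟩,
      a5⟩
  refine (measure_mono h1).trans ((measure_biUnion_finset_le _ _).trans ?_)
  refine (sum_le_sum (g := fun _ => 2 * ENNReal.ofReal
    (Real.exp (-(ε ^ 2 * w / (288 * L ^ 12))))) ?_).trans ?_
  · rintro ⟨y, e, δ⟩ ht
    simp only [mem_product, mem_Icc, mem_range, mem_insert, mem_singleton] at ht
    obtain ⟨b1, b2⟩ := hT.le_zz ht.1.1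
    refine hB δ (by omega) e w _ L (hw.trans (le_trans (le_self_pow₀ (by have := hT.1; omega)
      (by norm_num)) b2)) ?_ h3
    rw [inv_le_iff_one_le_mul₀ (th_pos _)]
    refine (th_lo b1).trans (mul_le_mul_of_nonneg_right ?_ (th_pos _).le)
    exact (Real.log_le_log (by positivity) (by exact_mod_cast ht.1.2)).trans hL
  · rw [sum_const, nsmul_eq_mul, ← ENNReal.ofReal_natCast, ← ENNReal.ofReal_ofNat,
      ← ENNReal.ofReal_mul (by norm_num), ← ENNReal.ofReal_mul (Nat.cast_nonneg _), ← mul_assoc]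
    apply ENNReal.ofReal_le_ofReal
    apply mul_le_mul_of_nonneg_right _ (Real.exp_pos _).le
    have : #(Icc (T ^ 999) Y ×ˢ range (Y + 1) ×ˢ ({0, 2} : Finset ℕ)) ≤ (Y + 1) * ((Y + 1) * 2) := by
      rw [card_product, card_product, card_range, Nat.card_Icc]
      exact Nat.mul_le_mul (by omega) le_rfl
    have h2 := (Nat.cast_le (α := ℝ)).2 this
    push_cast at h2
    linarith

theorem fail_bound {κ₀ a ε : ℝ} {d : ℕ} (hd : 1 ≤ d) (hκ0 : 0 ≤ κ₀) (ha : 0 ≤ a)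
    (hκ : ∀ N, 2 ≤ N → κ₀ * th N ^ 2 ≤ thd 2 N) (hε : 0 < ε) (hε1 : ε < 1) :
    ∀ᶠ n : ℕ in atTop, law {ω | ∀ j < ⌊a * Real.log n ^ 2⌋₊, ¬ Succ ((j + 1) ^ d * n) ω} ≤
      ENNReal.ofReal (16 * (1 / (n : ℝ) ^ 2) + Real.exp (κ₀ + 1) *
        (1 / (n : ℝ) ^ (a * ((1 - ε) / (1 + ε) * κ₀ / (1 + ε))))) := by
  obtain ⟨B, hB1, hB⟩ := window hε hε1.le
  have tl : Tendsto (fun n : ℕ => Real.log n) atTop atTop :=
    Real.tendsto_log_atTop.comp tendsto_natCast_atTop_atTop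
  have tT : Tendsto (Nat.nthRoot 1000) atTop atTop := tendsto_atTop.2 fun b =>
    (eventually_ge_atTop (b ^ 1000)).mono fun n hn => (Nat.le_nthRoot_iff (by norm_num)).2 hn
  filter_upwards [tT.eventually ev_big, tT.eventually_ge_atTop (2 ^ 1000),
    tl.eventually (ev_poly (2 * (a + 1) ^ d * (2 ^ 15) ^ (B + 1) + 16) (2 * d + 14 * (B + 1))
      (lt_min hε (by norm_num : (0 : ℝ) < 1 / 1001))),
    tl.eventually_ge_atTop 1, tl.eventually_ge_atTop (432 / ε ^ 2), eventually_ge_atTop 1]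
    with n hT hT2 hΦ l1 l2 n1
  set T := Nat.nthRoot 1000 n with hTd
  have T1 : T ^ 1000 ≤ n := (Nat.le_nthRoot_iff (by norm_num)).1 le_rfl
  have T2 : n ≤ T ^ 1001 := by
    have := hT.1
    calc n ≤ (T + 1) ^ 1000 := (Nat.lt_pow_nthRoot_add_one (by norm_num) n).le
      _ ≤ (2 * T) ^ 1000 := Nat.pow_le_pow_left (by omega) _
      _ = 2 ^ 1000 * T ^ 1000 := mul_pow _ _ _
      _ ≤ T * T ^ 1000 := Nat.mul_le_mul_right _ hT2
      _ = _ := by ring
  have pw : ∀ a b : ℕ, a < b → 100 * T ^ a ≤ T ^ b := fun a b hab =>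
    calc 100 * T ^ a ≤ T * T ^ a := Nat.mul_le_mul_right _ hT.1
      _ = T ^ (a + 1) := by ring
      _ ≤ T ^ b := Nat.pow_le_pow_right (by have := hT.1; omega) hab
  have q1 := pw 0 506 (by norm_num)
  have q2 := pw 506 999 (by norm_num)
  have q3 := pw 999 1000 (by norm_num)
  rw [pow_zero] at q1
  set l := Real.log n with hl
  have n0 : (0 : ℝ) < n := by exact_mod_cast n1
  have en : Real.exp l = n := Real.exp_log n0
  set K := ⌊a * l ^ 2⌋₊ with hK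
  set w := ⌈(2 * l) ^ 14⌉₊ with hw
  have w1 : (2 * l) ^ 14 ≤ w := Nat.le_ceil _
  have w0 : 1 ≤ (2 * l) ^ 14 := one_le_pow₀ (by linarith)
  have w2 : (w : ℝ) ≤ 2 ^ 15 * l ^ 14 := by
    have := Nat.ceil_lt_add_one (show 0 ≤ (2 * l) ^ 14 by positivity)
    rw [← hw] at this
    rw [mul_pow] at this w0
    linarith
  have w3 : 1 ≤ w := by exact_mod_cast w0.trans w1
  set h := w ^ (B + 1) with hh
  have h1 : 1 ≤ h := Nat.one_le_pow _ _ w3
  have h3 : w ≤ h := le_self_pow₀ w3 (by omega)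
  set Φ := 2 * (K + 1) ^ d * h + 16 with hΦd
  have Φ1 : (Φ : ℝ) ≤ Real.exp (min ε (1 / 1001) * l) := by
    refine le_trans ?_ hΦ
    have a1 : (K + 1 : ℝ) ≤ (a + 1) * l ^ 2 := by
      have : (K : ℝ) ≤ a * l ^ 2 := Nat.floor_le (by positivity)
      have : 1 ≤ l ^ 2 := one_le_pow₀ l1
      linarith
    have a2 : 1 ≤ l ^ (2 * d + 14 * (B + 1)) := one_le_pow₀ l1
    rw [hΦd, hh]
    push_cast
    calc _ ≤ 2 * ((a + 1) * l ^ 2) ^ d * (2 ^ 15 * l ^ 14) ^ (B + 1) +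
          16 * l ^ (2 * d + 14 * (B + 1)) := by gcongr; linarith
      _ = _ := by rw [mul_pow, mul_pow, ← pow_mul, ← pow_mul, pow_add]; ring
  have Φ2 : Φ ≤ T := by
    have a1 : (Φ : ℝ) ^ 1001 ≤ (T : ℝ) ^ 1001 := by
      calc _ ≤ Real.exp (1 / 1001 * l) ^ 1001 := by
            gcongr
            exact Φ1.trans (Real.exp_le_exp.2 (by gcongr; exact min_le_right _ _))
        _ = n := by rw [← Real.exp_nat_mul, ← en]; congr 1; push_cast; ring
        _ ≤ _ := by exact_mod_cast T2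
    exact_mod_cast le_of_pow_le_pow_left₀ (by norm_num) (Nat.cast_nonneg _) a1
  have K1 : K + 1 ≤ (K + 1) ^ d := le_self_pow₀ (by omega) (by omega)
  have K2 : (K + 1) ^ d ≤ (K + 1) ^ d * h := Nat.le_mul_of_pos_right _ h1
  have K3 : h ≤ (K + 1) ^ d * h := Nat.le_mul_of_pos_left _ (by omega)
  rw [mul_assoc] at hΦd
  set Y := 2 * (8 + (K + 1) ^ d * n * h) with hY
  have Y1 : Y ≤ Φ * n := by
    rw [hY, hΦd]
    nlinarith
  have Y2 : Real.log Y ≤ (1 + ε) * l := by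
    rw [Real.log_le_iff_le_exp (by positivity)]
    calc (Y : ℝ) ≤ Φ * n := by exact_mod_cast Y1
      _ ≤ Real.exp (ε * l) * n := by
        gcongr
        exact Φ1.trans (Real.exp_le_exp.2 (by gcongr; exact min_le_left _ _))
      _ = _ := by rw [← en, ← Real.exp_add]; congr 1; ring
  have Y3 : Real.log Y ≤ 2 * l := Y2.trans (by gcongr; linarith)
  have c1 := chain (Y := Y) hT (Y1.trans ((Nat.mul_le_mul Φ2 T2).trans (le_of_eq (by ring)))) Y2 h1
    (by omega) hε hε1 hκ0 hκ (fun j => (j + 1) ^ d * n) (fun j k hjk => by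
      have a1 : (j + 1) ^ d < (k + 1) ^ d := Nat.pow_lt_pow_left (by omega) (by omega)
      have a2 := Nat.mul_le_mul_right n a1
      rw [Nat.succ_mul] at a2
      omega) K
  have e2 : 864 ≤ ε ^ 2 * (2 * l) := by
    rw [div_le_iff₀ (by positivity)] at l2
    linarith
  have c2 := bad_bound hB hT (w := w) (by omega) Y3 (by
    have a1 : ε ^ 2 * (2 * l) ≤ ε * (2 * l) ^ 8 := by
      have : 2 * l ≤ (2 * l) ^ 8 := le_self_pow₀ (by linarith) (by norm_num)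
      have : ε ^ 2 ≤ ε := by nlinarith
      gcongr
    calc 3 * (2 * l) ^ 6 ≤ ε * (2 * l) ^ 8 * (2 * l) ^ 6 := by gcongr; linarith
      _ = ε * (2 * l) ^ 14 := by ring
      _ ≤ _ := by gcongr)
  rw [ENNReal.ofReal_add (by positivity) (by positivity)]
  refine le_trans (measure_mono ?_) ((measure_union_le _ _).trans
    (add_le_add (c2.trans ?_) (c1.trans ?_)))
  · intro ω hω
    by_cases hG : ∀ y, T ^ 999 ≤ y → y ≤ Y → Good ε h Y y ω
    · refine Or.inr fun j hj => ⟨exists_stop hε1 h1 (Nat.mul_le_mul_right n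
        (Nat.pow_le_pow_left (by omega) d)) ?_ ω hG, hω j hj⟩
      have : n ≤ (j + 1) ^ d * n := Nat.le_mul_of_pos_left _ (by positivity)
      omega
    · exact Or.inl hG
  · apply ENNReal.ofReal_le_ofReal
    have a1 : (Y : ℝ) ≤ n ^ 2 := by
      rw [Real.log_le_iff_le_exp (by positivity), two_mul, Real.exp_add, en] at Y3
      linarith
    have a2 : (1 : ℝ) ≤ n ^ 2 := one_le_pow₀ (by exact_mod_cast n1)
    have a3 : Real.exp (-(ε ^ 2 * w / (288 * (2 * l) ^ 12))) ≤ 1 / (n : ℝ) ^ 6 := by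
      rw [← en, ← Real.exp_nat_mul, one_div, ← Real.exp_neg, Real.exp_le_exp, neg_le_neg_iff,
        le_div_iff₀ (by positivity)]
      calc _ = 864 * (2 * l) ^ 13 := by push_cast; ring
        _ ≤ ε ^ 2 * (2 * l) * (2 * l) ^ 13 := by gcongr
        _ = ε ^ 2 * (2 * l) ^ 14 := by ring
        _ ≤ _ := by gcongr
    calc _ ≤ 4 * (2 * n ^ 2) ^ 2 * (1 / (n : ℝ) ^ 6) := by gcongr; linarith
      _ = _ := by field_simp; norm_num
  · apply ENNReal.ofReal_le_ofReal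
    rw [Real.rpow_def_of_pos n0, ← hl, one_div (Real.exp _), ← Real.exp_neg, ← Real.exp_add,
      Real.exp_le_exp, ← div_div]
    set c := (1 - ε) / (1 + ε) * κ₀ / (1 + ε) with hc
    have c0 : 0 ≤ c := by
      have : 0 < 1 - ε := by linarith
      positivity
    have c1 : c ≤ κ₀ := by
      have a1 : (1 - ε) / (1 + ε) ≤ 1 := by rw [div_le_one (by linarith)]; linarith
      rw [hc, div_le_iff₀ (by linarith)]
      nlinarith
    have T0 : (0 : ℝ) < T := by have := hT.1; positivity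
    have a1 : 1 / (T : ℝ) * K ≤ 1 := by
      rw [one_div_mul_eq_div, div_le_one T0]
      exact_mod_cast (by omega : K ≤ T)
    have a2 : c / l * (a * l ^ 2 - 1) ≤ c / l * K := by
      gcongr
      exact (Nat.sub_one_lt_floor _).le
    have a3 : c / l * (a * l ^ 2 - 1) = l * (a * c) - c / l := by field_simp
    have a4 : c / l ≤ c := div_le_self c0 l1
    linarith

theorem ae_twin {κ₀ a : ℝ} {d : ℕ} (hd : 1 ≤ d) (hκ0 : 0 ≤ κ₀)
    (hκ : ∀ N, 2 ≤ N → κ₀ * th N ^ 2 ≤ thd 2 N) (ha : 1 < a * κ₀) :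
    ∀ᵐ ω ∂law, ∀ᶠ n : ℕ in atTop, ∃ k : ℕ, 1 ≤ k ∧ (k : ℝ) ≤ a * Real.log n ^ 2 ∧
      Nat.nth (· ∈ model ω) (k ^ d * n - 1) + 2 ∈ model ω := by
  have a0 : 0 ≤ a := by
    by_contra h
    nlinarith
  obtain ⟨ε, e1, e2, e3⟩ : ∃ ε : ℝ, 0 < ε ∧ ε < 1 ∧ 1 < a * ((1 - ε) / (1 + ε) * κ₀ / (1 + ε)) := by
    have hc : ContinuousAt (fun ε : ℝ => a * ((1 - ε) / (1 + ε) * κ₀ / (1 + ε))) 0 := by
      fun_prop (disch := norm_num)
    have h1 := hc.eventually (lt_mem_nhds (a := 1) (by simpa using ha))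
    obtain ⟨ε, b1, b2⟩ := ((h1.and (gt_mem_nhds (zero_lt_one' ℝ))).filter_mono
      nhdsWithin_le_nhds).and (self_mem_nhdsWithin (s := Set.Ioi (0 : ℝ))) |>.exists
    exact ⟨ε, b2, b1.2, b1.1⟩
  obtain ⟨N, hN⟩ := eventually_atTop.1 (fail_bound hd hκ0 a0 hκ e1 e2)
  set s : ℕ → Set Om := fun n =>
    {ω | N ≤ n ∧ ∀ j < ⌊a * Real.log n ^ 2⌋₊, ¬ Succ ((j + 1) ^ d * n) ω} with hs
  have h2 : ∀ n, law (s n) ≤ ENNReal.ofReal (16 * (1 / (n : ℝ) ^ 2) + Real.exp (κ₀ + 1) *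
      (1 / (n : ℝ) ^ (a * ((1 - ε) / (1 + ε) * κ₀ / (1 + ε))))) := by
    intro n
    by_cases h : N ≤ n
    · exact (measure_mono fun ω hω => hω.2).trans (hN n h)
    · simp [hs, h]
  have h3 : ∑' n, law (s n) ≠ ⊤ :=
    ne_top_of_le_ne_top (((Real.summable_one_div_nat_pow.2 one_lt_two).mul_left 16).add
      ((Real.summable_one_div_nat_rpow.2 e3).mul_left _)).tsum_ofReal_ne_top
      (ENNReal.tsum_le_tsum h2)
  filter_upwards [ae_eventually_notMem h3] with ω hω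
  filter_upwards [hω, eventually_ge_atTop N] with n h1 h4
  simp only [hs, Set.mem_ofPred_eq, h4, true_and, not_forall, not_not] at h1
  obtain ⟨j, b1, b2⟩ := h1
  refine ⟨j + 1, by omega, ?_, succ_nth b2⟩
  exact (Nat.le_floor_iff (by positivity)).1 b1

lemma twin_const : 0 ≤ ∏' p : {p : ℕ // p.Prime ∧ 2 < p}, (1 - 1 / ((p : ℝ) - 1) ^ 2) ∧
    ∀ N, 2 ≤ N → 2 * (∏' p : {p : ℕ // p.Prime ∧ 2 < p}, (1 - 1 / ((p : ℝ) - 1) ^ 2)) *
      th N ^ 2 ≤ thd 2 N := by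
  set f : {p : ℕ // p.Prime ∧ 2 < p} → ℝ := fun p => 1 - 1 / ((p : ℝ) - 1) ^ 2 with hf
  have p3 : ∀ p : {p : ℕ // p.Prime ∧ 2 < p}, (3 : ℝ) ≤ p := fun p => by exact_mod_cast p.2.2
  have f1 : ∀ p, f p ≤ 1 := fun p => by
    have : 0 ≤ 1 / ((p : ℝ) - 1) ^ 2 := by positivity
    simp only [hf]; linarith
  have f0 : ∀ p, 0 ≤ f p := fun p => by
    have : 1 / ((p : ℝ) - 1) ^ 2 ≤ 1 := by
      rw [div_le_one (by nlinarith [p3 p])]; nlinarith [p3 p]
    simp only [hf]; linarith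
  have hm : Multipliable f := by
    simp only [hf, sub_eq_add_neg (1 : ℝ)]
    apply Real.multipliable_one_add_of_summable
    apply Summable.neg
    refine Summable.of_nonneg_of_le (fun _ => by positivity) (fun p => ?_)
      (((Real.summable_one_div_nat_pow.2 one_lt_two).mul_left 4).subtype _)
    have := p3 p
    simp only [Function.comp]
    rw [mul_one_div, div_le_div_iff₀ (by nlinarith) (by positivity)]
    nlinarith
  refine ⟨ge_of_tendsto' hm.hasProd fun s => prod_nonneg fun p _ => f0 p, fun N hN => ?_⟩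
  have h1 : ∏' p, f p ≤ ∏ p ∈ (primesLE N).subtype (fun p => p.Prime ∧ 2 < p), f p := by
    refine le_of_tendsto hm.hasProd ((eventually_ge_atTop
      ((primesLE N).subtype (fun p => p.Prime ∧ 2 < p))).mono fun s hs => ?_)
    exact prod_le_prod_of_subset_of_le_one hs (fun p _ => f0 p) fun p _ _ => f1 p
  rw [prod_subtype_eq_prod_filter (fun p : ℕ => 1 - 1 / ((p : ℝ) - 1) ^ 2)] at h1
  have e : primesLE N = insert 2 {p ∈ primesLE N | p.Prime ∧ 2 < p} := by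
    ext p
    simp only [mem_insert, mem_filter, mem_primesLE]
    constructor
    · intro h
      rcases h.2.two_le.eq_or_lt with h' | h'
      · exact Or.inl h'.symm
      · exact Or.inr ⟨h, h.2, h'⟩
    · rintro (rfl | h)
      · exact ⟨hN, Nat.prime_two⟩
      · exact h.1
  refine (mul_le_mul_of_nonneg_right (mul_le_mul_of_nonneg_left h1 zero_le_two)
    (sq_nonneg _)).trans (le_of_eq ?_)
  set P := {p ∈ primesLE N | p.Prime ∧ 2 < p} with hP
  have h2 : 2 ∉ P := by simp [hP]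
  have h3 : ∏ p ∈ P, (1 - rho 2 p) =
      (∏ p ∈ P, (1 - 1 / ((p : ℝ) - 1) ^ 2)) * (∏ p ∈ P, (1 - 1 / (p : ℝ))) ^ 2 := by
    rw [← prod_pow, ← prod_mul_distrib]
    apply prod_congr rfl
    intro p hp
    have a1 := (mem_filter.1 hp).2.2
    have a2 : (3 : ℝ) ≤ p := by exact_mod_cast a1
    have a3 : (p : ℝ) - 1 ≠ 0 := by linarith
    rw [rho, if_neg (fun h => absurd (Nat.le_of_dvd two_pos h) (by omega))]
    field_simp; ring
  rw [th, thd, e, prod_insert h2, prod_insert h2, h3, rho]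
  simp only [dvd_refl, if_true, Nat.cast_ofNat]
  ring

theorem main_twin : ∀ᵐ c ∂law, ∀ d : ℕ, 1 ≤ d → ∀ a : ℝ,
    1 < a * (2 * ∏' p : {p : ℕ // p.Prime ∧ 2 < p}, (1 - 1 / ((p : ℝ) - 1) ^ 2)) →
    ∀ᶠ n : ℕ in atTop, ∃ k : ℕ, 1 ≤ k ∧ (k : ℝ) ≤ a * Real.log n ^ 2 ∧
      Nat.nth (· ∈ model c) (k ^ d * n - 1) + 2 ∈ model c := by
  obtain ⟨h0, h1⟩ := twin_const
  set κ₀ := 2 * ∏' p : {p : ℕ // p.Prime ∧ 2 < p}, (1 - 1 / ((p : ℝ) - 1) ^ 2)
  have : ∀ᵐ c ∂law, ∀ d : ℕ, ∀ q : ℚ, 1 ≤ d → 1 < q * κ₀ →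
      ∀ᶠ n : ℕ in atTop, ∃ k : ℕ, 1 ≤ k ∧ (k : ℝ) ≤ q * Real.log n ^ 2 ∧
        Nat.nth (· ∈ model c) (k ^ d * n - 1) + 2 ∈ model c := by
    simp only [ae_all_iff]
    exact fun d q hd hq => ae_twin hd (by positivity) h1 hq
  filter_upwards [this] with c hc d hd a ha
  have k0 : 0 < κ₀ := by
    refine lt_of_le_of_ne (by positivity) fun h => ?_
    rw [← h] at ha
    norm_num at ha
  obtain ⟨q, q1, q2⟩ := exists_rat_btwn ((div_lt_iff₀ k0).2 ha)
  filter_upwards [hc d q hd ((div_lt_iff₀ k0).1 q1)] with n ⟨k, b1, b2, b3⟩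
  exact ⟨k, b1, b2.trans (by gcongr), b3⟩

end Pool.Agent.Lib.MP_be93de_nt
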