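import Mathlib
import Pool.Agent.Lib.MP_be93de_nt.RlStep
import Pool.Agent.Lib.MP_be93de_nt.RsMain

/-! From regular windows to stopping positions. -/

namespace Pool.Agent.Lib.MP_be93de_nt

open Finset Nat Filter MeasureTheory
open Pool.Agent.Lib.MP_b09185_nt

lemma nth_rk {t : ℕ} {ω : Om} (h1 : t ∈ model ω) :
    Nat.nth (· ∈ model ω) (rk ω t - 1) = t := by
  classical
  have : Nat.count (· ∈ model ω) t = rk ω t - 1 := by
    rw [Nat.count_eq_card_filter_range, rk]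
    have e : ({n ∈ Ioc 0 t | n ∈ model ω} : Finset ℕ) = insert t {n ∈ range t | n ∈ model ω} := by
      ext n
      simp only [mem_filter, mem_Ioc, mem_insert, mem_range]
      constructor
      · rintro ⟨a1, a2⟩
        rcases a1.2.eq_or_lt with h | h
        · exact Or.inl h
        · exact Or.inr ⟨h, a2⟩
      · rintro (rfl | ⟨a1, a2⟩)
        · exact ⟨⟨by have := h1.1; omega, le_rfl⟩, h1⟩
        · exact ⟨⟨by have := a2.1; omega, a1.le⟩, a2⟩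
    rw [e, card_insert_of_notMem (by simp)]
    rfl
  rw [← this, Nat.nth_count (p := (· ∈ model ω)) h1]

lemma twin_up {η : ℝ} (hη : 0 < η) : ∀ᶠ N : ℕ in atTop, thd 2 N ≤
    (2 * (∏' p : {p : ℕ // p.Prime ∧ 2 < p}, (1 - 1 / ((p : ℝ) - 1) ^ 2)) + η) * th N ^ 2 := by
  set f : {p : ℕ // p.Prime ∧ 2 < p} → ℝ := fun p => 1 - 1 / ((p : ℝ) - 1) ^ 2 with hf
  have p3 : ∀ p : {p : ℕ // p.Prime ∧ 2 < p}, (3 : ℝ) ≤ p := fun p => by exact_mod_cast p.2.2
  have hm : Multipliable f := by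
    simp only [hf, sub_eq_add_neg (1 : ℝ)]
    apply Real.multipliable_one_add_of_summable
    apply Summable.neg
    refine Summable.of_nonneg_of_le (fun _ => by positivity) (fun p => ?_)
      (((Real.summable_one_div_nat_pow.2 one_lt_two).mul_left 4).subtype _)
    have := p3 p
    simp only [Function.comp]
    rw [mul_one_div, div_le_div_iff₀ (by nlinarith) (by positivity)]
    nlinarith
  have t1 : Tendsto (fun N : ℕ => (primesLE N).subtype (fun p => p.Prime ∧ 2 < p)) atTop atTop := by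
    refine tendsto_atTop_finset_of_monotone (fun M N h => subtype_mono (primesLE_mono h)) fun p => ?_
    exact ⟨p, mem_subtype.2 (mem_primesLE.2 ⟨le_rfl, p.2.1⟩)⟩
  have t2 := (Tendsto.comp hm.hasProd t1).eventually
    (gt_mem_nhds (lt_add_of_pos_right (∏' p, f p) (half_pos hη)))
  filter_upwards [t2, eventually_ge_atTop 2] with N h1 h2
  simp only [Function.comp, hf] at h1
  rw [prod_subtype_eq_prod_filter (fun p : ℕ => 1 - 1 / ((p : ℝ) - 1) ^ 2)] at h1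
  rw [twin_eq h2]
  exact mul_le_mul_of_nonneg_right (by linarith) (sq_nonneg _)

lemma pg_bound {R A h r Y : ℕ} {ε : ℝ} (hR : 100 ≤ R) (h1 : 1 ≤ h) (h2 : h ≤ R) (r1 : 1 ≤ r)
    (hε : 0 < ε) (hε1 : ε ≤ 1 / 2)
    (hS : ∀ y, A ^ 2 ≤ 4 * y → y ≤ Y → Sc (R ^ 24) A y ∧ 8 * Real.log y ≤ R ∧
      816 * r * 4 ^ r ≤ Real.log y) :
    law {ω | (∀ y, A ^ 2 ≤ 4 * y → y ≤ Y → Good ε h Y y ω) ∧
      ¬ ∀ y, A ^ 2 ≤ 2 * y → 2 * y ≤ Y → PG R A h r Y y ω} ≤
      ENNReal.ofReal ((Y + 1) ^ 3 * (2 / 2 ^ R)) := by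
  classical
  set P : ℕ × ℕ × ℕ → Prop := fun t => A ^ 2 ≤ 2 * t.1 ∧ t.2.1 + A ≤ Y ∧
    2 * (r * R) * (R ^ 20 * h) ≤ t.2.2 ∧ 2 * (r * R) * (R ^ 20 * h) + t.2.2 * h + h + 2 ≤ A with hP
  set s : ℕ × ℕ × ℕ → Set Om := fun t => {ω | Good ε h Y (t.1 - t.1 / R ^ 12) ω} ∩
    {ω | Good ε h Y t.1 ω ∧ 49 * R * (R ^ 20 * h : ℕ) / Real.log t.1 ^ 2 <
      famC (Sv ω (zz t.1)) t.2.1 (R ^ 20 * h) (r * R) t.2.2} with hs
  have hd : ∀ y, 2 * (y / R ^ 12) ≤ y := fun y => by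
    have R12 : 2 ≤ R ^ 12 := le_trans (by omega) (le_self_pow₀ (by omega) (by norm_num))
    exact le_trans (by rw [mul_comm]; exact Nat.mul_le_mul_left _ R12) (Nat.div_mul_le_self _ _)
  refine (measure_mono (t := ⋃ t ∈ ({t ∈ range (Y + 1) ×ˢ range (Y + 1) ×ˢ range (Y + 1) | P t} :
    Finset _), s t) ?_).trans ((measure_biUnion_finset_le _ _).trans ?_)
  · rintro ω ⟨a0, hω⟩
    simp only [PG, not_forall, not_le] at hω
    obtain ⟨y, a1, a2, e, a3, l, a4, a5, a6⟩ := hω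
    have := hd y
    have : l ≤ l * h := Nat.le_mul_of_pos_right _ h1
    simp only [Set.mem_iUnion]
    exact ⟨(y, e, l), mem_filter.2 ⟨by simp only [mem_product, mem_range]; omega, a1, a3, a4, a5⟩,
      a0 _ (by dsimp only; omega) (by dsimp only; omega), a0 y (by omega) (by omega), a6⟩
  refine (sum_le_sum (g := fun _ => ENNReal.ofReal (2 / 2 ^ R)) ?_).trans ?_
  · rintro ⟨y, e, l⟩ ht
    obtain ⟨b0, b1, b2, b3, b4⟩ := mem_filter.1 ht
    simp only [mem_product, mem_range] at b0 b1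
    have := hd y
    obtain ⟨c1, c2, c3⟩ := hS y (by omega) (by omega)
    exact fam_bound c1 (hS (y - y / R ^ 12) (by omega) (by omega)).1 hR h1 h2 r1 hε hε1 c2 c3 b3 b4 b2
  · rw [sum_const, nsmul_eq_mul, ← ENNReal.ofReal_natCast, ← ENNReal.ofReal_mul (Nat.cast_nonneg _)]
    apply ENNReal.ofReal_le_ofReal
    apply mul_le_mul_of_nonneg_right _ (by positivity)
    have := card_filter_le (range (Y + 1) ×ˢ range (Y + 1) ×ˢ range (Y + 1)) P
    rw [card_product, card_product, card_range] at this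
    calc _ ≤ (((Y + 1) * ((Y + 1) * (Y + 1)) : ℕ) : ℝ) := by exact_mod_cast this
      _ = _ := by push_cast; ring

lemma reach {R T B K d h r k g i : ℕ} {ε : ℝ} (hε : ε < 1) (hT : 100 ≤ T) (hB : T ^ 500 ≤ B)
    (h1 : 1 ≤ h) (h2 : h ≤ T) (hK : K ^ d ≤ T) (k1 : 1 ≤ k) (k2 : k ≤ K) (hg : g < B * T ^ 7)
    (hi : i < B) {Y : ℕ} (hY : Y = 2 * (8 + 2 * (K + 1) ^ d * (B * T ^ 16) ^ 2 * h)) (ω : Om)
    (hG : ∀ y, T ^ 999 ≤ y → y ≤ Y → Good ε h Y y ω)
    (hP : ∀ y, (B * T ^ 16) ^ 2 ≤ 2 * y → 2 * y ≤ Y → PG R (B * T ^ 16) h r Y y ω)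
    (H : Nat.nth (· ∈ model ω) (k ^ d * ((B * T ^ 16) ^ 2 + g * (B * T ^ 16 * T ^ 8) +
      i * T ^ 2) - 1) + 2 ∈ model ω) :
    ∃ y < Y, ω ∈ St (Gd ε R (B * T ^ 16) h r Y) (k ^ d * ((B * T ^ 16) ^ 2 +
      g * (B * T ^ 16 * T ^ 8)) - 2 * (B * T ^ 16 * T ^ 6)) y ∧ SL y (B * T ^ 16 * T ^ 8)
      (k ^ d * ((B * T ^ 16) ^ 2 + g * (B * T ^ 16 * T ^ 8) + i * T ^ 2)) ω := by
  classical
  set A := B * T ^ 16 with hA
  have T1 : 1 ≤ T := by omega
  have pw : ∀ a b : ℕ, a < b → 100 * T ^ a ≤ T ^ b := fun a b hab =>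
    calc 100 * T ^ a ≤ T * T ^ a := Nat.mul_le_mul_right _ (by omega)
      _ = T ^ (a + 1) := by ring
      _ ≤ T ^ b := Nat.pow_le_pow_right T1 hab
  have pa : ∀ C a b : ℕ, a < b → 100 * (C * T ^ a) ≤ C * T ^ b := fun C a b hab => by
    rw [mul_left_comm]; exact Nat.mul_le_mul_left _ (pw a b hab)
  have BA : B ≤ A := Nat.le_mul_of_pos_right _ (by positivity)
  have q1 := pa A 7 8 (by norm_num)
  have q2 := pa A 6 7 (by norm_num)
  have q3 := pa B 3 16 (by norm_num)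
  have q4 : A ≤ A * T ^ 6 := Nat.le_mul_of_pos_right _ (by positivity)
  have q5 : 100 * (A * T ^ 8) ≤ A ^ 2 := by
    rw [mul_left_comm, pow_two]
    exact Nat.mul_le_mul_left _ ((pw 8 500 (by norm_num)).trans (by omega))
  have q6 : 100 * T ^ 999 ≤ A ^ 2 := (pw 999 1000 (by norm_num)).trans
    (by rw [show 1000 = 500 * 2 by norm_num, pow_mul]; exact Nat.pow_le_pow_left (by omega) 2)
  have q7 : T ^ 506 ≤ A * T ^ 6 := by
    rw [show 506 = 500 + 6 by norm_num, pow_add]; exact Nat.mul_le_mul_right _ (by omega)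
  have q8 : 1 ≤ T ^ 999 := Nat.one_le_pow _ _ T1
  have k3 : k ^ d ≤ K ^ d := Nat.pow_le_pow_left k2 d
  have k4 : K ^ d ≤ (K + 1) ^ d := Nat.pow_le_pow_left (by omega) d
  have b1 : g * (A * T ^ 8) ≤ A ^ 2 := by
    calc _ ≤ B * T ^ 7 * (A * T ^ 8) * T :=
          (Nat.mul_le_mul_right _ hg.le).trans (Nat.le_mul_of_pos_right _ T1)
      _ = _ := by rw [hA]; ring
  have b2 : A ^ 2 ≤ k ^ d * (A ^ 2 + g * (A * T ^ 8)) :=
    (Nat.le_add_right _ _).trans (Nat.le_mul_of_pos_left _ (by positivity))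
  have b3 : k ^ d * (A ^ 2 + g * (A * T ^ 8)) ≤ 2 * (K + 1) ^ d * A ^ 2 := by
    calc _ ≤ (K + 1) ^ d * (A ^ 2 + A ^ 2) := by gcongr; omega
      _ = _ := by ring
  have b4 : k ^ d * (i * T ^ 2) ≤ B * T ^ 3 :=
    (Nat.mul_le_mul (k3.trans hK) (Nat.mul_le_mul_right _ hi.le)).trans (le_of_eq (by ring))
  subst hY
  set Y := 2 * (8 + 2 * (K + 1) ^ d * A ^ 2 * h) with hY
  obtain ⟨y, -, c2, c3, c4, c5⟩ := exists_stop hε (T := T) h1 (M := 2 * (K + 1) ^ d * A ^ 2)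
    (m := k ^ d * (A ^ 2 + g * (A * T ^ 8)) - 2 * (A * T ^ 6) + 2 * T ^ 506) (by omega) (by omega)
    ω hG
  have c6 : rk ω y ≤ y := cIoc_le _ 0 y
  have y8 := c3.1
  set D := 2 * (A * T ^ 6) + k ^ d * (i * T ^ 2) with hD
  have d1 : D * h ≤ 3 * (A * T ^ 7) :=
    (Nat.mul_le_mul (by omega : D ≤ 3 * (A * T ^ 6)) h2).trans (le_of_eq (by ring))
  have d2 : D ≤ #{n ∈ Ioc y (y + D * h) | n ∈ model ω} := by
    apply many
    intro e e1 e2
    have e3 := Good.lo (hG Y (by omega) le_rfl) (e := e) (by omega)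
    have t := th_pos (zz Y)
    have h0 : (0 : ℝ) < h := by exact_mod_cast h1
    have e4 : (0 : ℝ) < #{n ∈ Ioc e (e + h) | Sv ω (zz Y) n} :=
      lt_of_lt_of_le (mul_pos (by linarith) (by positivity)) e3
    refine lt_of_lt_of_le (by exact_mod_cast e4) (card_le_card fun n hn => ?_)
    simp only [mem_filter, mem_Ioc] at hn ⊢
    exact ⟨hn.1, (mem_iff ω n).2 ⟨by omega, fun p hp =>
      hn.2 p (hp.trans (zz_mono (by omega) (by omega)))⟩⟩
  obtain ⟨t, e1, e2, e3⟩ := exists_rank (· ∈ model ω) y D (by omega) _ d2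
  have e4 := cIoc_le (· ∈ model ω) y t
  have e5 : rk ω t = rk ω y + D := by
    rw [← e3]; exact cIoc_add _ (Nat.zero_le y) (by omega)
  have e6 : rk ω t = k ^ d * (A ^ 2 + g * (A * T ^ 8) + i * T ^ 2) := by rw [mul_add]; omega
  rw [← e6, nth_rk e2] at H
  exact ⟨y, by omega, ⟨c3, by omega, by omega, c2, c5, hP y (by omega) c2⟩, t, by omega, by omega,
    e2, e6, H⟩

end Pool.Agent.Lib.MP_be93de_nt
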