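import Mathlib
import Pool.Agent.Lib.MP_be93de_nt.RlIncl

/-! Numerical estimates for the choice of scales. -/

namespace Pool.Agent.Lib.MP_be93de_nt

open Finset Nat Filter MeasureTheory
open Pool.Agent.Lib.MP_b09185_nt

lemma num1 {a k θ : ℝ} (h : a * k < θ) : ∀ᶠ L : ℝ in atTop,
    k * (1 + 1 / L ^ 2) / (L - 1) + 1 / L ^ 2 ≤ 1 / 2 ∧
    a * (L + 1) ^ 2 * ((k * (1 + 1 / L ^ 2) / (L - 1) + 1 / L ^ 2) *
      (1 + 2 * (k * (1 + 1 / L ^ 2) / (L - 1) + 1 / L ^ 2))) ≤ θ * L := by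
  set m : ℝ → ℝ := fun x => k * (1 + x ^ 2) / (1 - x) + x with hm
  have c1 : ContinuousAt m 0 := by rw [hm]; fun_prop (disch := norm_num)
  have c2 : ContinuousAt (fun x => a * (1 + x) ^ 2 * (m x * (1 + 2 * (x * m x)))) 0 := by fun_prop
  have c3 : ContinuousAt (fun x => x * m x) 0 := by fun_prop
  have t := tendsto_inv_atTop_zero (𝕜 := ℝ)
  filter_upwards [t.eventually (c2.eventually (gt_mem_nhds (a := θ) (by simpa [hm] using h))),
    t.eventually (c3.eventually (gt_mem_nhds (a := 1 / 2) (by simp))), eventually_gt_atTop 1]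
    with L h1 h2 h3
  have h4 : L - 1 ≠ 0 := by linarith
  have h5 : 0 < L := by linarith
  have e : k * (1 + 1 / L ^ 2) / (L - 1) + 1 / L ^ 2 = L⁻¹ * m L⁻¹ := by
    simp only [hm]; field_simp
  rw [e]
  refine ⟨h2.le, le_trans (le_of_eq ?_) (mul_le_mul_of_nonneg_right h1.le h5.le)⟩
  field_simp

lemma sc_of {R T N y : ℕ} {L : ℝ} (hR : 100 ≤ R) (hT : R ≤ T) (hN : 500 ≤ N)
    (hL : L = (2 * N + 32) * Real.log T) (h16 : 8 * L ≤ R)
    (sh : (th (T ^ N * T ^ 16 * T ^ 10))⁻¹ ≤ 1.95 * Real.log (T ^ N * T ^ 16 * T ^ 10 : ℕ))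
    (h1 : (T ^ N * T ^ 16) ^ 2 ≤ 4 * y) (h2 : y ≤ R * (T ^ N * T ^ 16) ^ 2) :
    Sc T (T ^ N * T ^ 16) y ∧ L - 2 ≤ Real.log y ∧ y + 1 ≤ Real.exp (2 * L) ∧
      ((T ^ N * T ^ 16) ^ 2 ≤ 2 * y → L - 1 ≤ Real.log y) := by
  have t0 : (0 : ℝ) < T := by exact_mod_cast (by omega : 0 < T)
  have t1 : 1 ≤ Real.log T := one_le_log (by omega)
  have e1 : Real.log (T ^ N * T ^ 16 * T ^ 10 : ℕ) = (N + 26) * Real.log T := by
    rw [← pow_add, ← pow_add, Nat.cast_pow, Real.log_pow]; push_cast; ring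
  have e2 : Real.log ((T ^ N * T ^ 16) ^ 2 : ℕ) = L := by
    rw [← pow_add, ← pow_mul, Nat.cast_pow, Real.log_pow, hL]; push_cast; ring
  have a1 : T ^ 40 ≤ T ^ N * T ^ 16 := by
    rw [← pow_add]; exact Nat.pow_le_pow_right (by omega) (by omega)
  rw [e1] at sh
  generalize T ^ N * T ^ 16 = A at *
  have a2 : T ^ 2 ≤ A := (Nat.pow_le_pow_right (by omega) (by norm_num)).trans a1
  have a3 : 100 * T ≤ T ^ 2 := by nlinarith
  have a4 : A ≤ A ^ 2 := le_self_pow₀ (by omega) (by norm_num)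
  have y0 : (0 : ℝ) < y := by exact_mod_cast (by omega : 0 < y)
  have X0 : (0 : ℝ) < (A ^ 2 : ℕ) := by exact_mod_cast (by omega : 0 < A ^ 2)
  have l2 := Real.log_two_lt_d9
  have b0 : ∀ j : ℕ, A ^ 2 ≤ 2 ^ j * y → L - j ≤ Real.log y := fun j hj => by
    have := Real.log_le_log X0 (show _ ≤ (2 : ℝ) ^ j * y by exact_mod_cast hj)
    rw [e2, Real.log_mul (by positivity) y0.ne', Real.log_pow] at this
    nlinarith [Nat.cast_nonneg (α := ℝ) j]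
  have b1 : L - 2 ≤ Real.log y := by exact_mod_cast b0 2 h1
  have b2 : ((2 * y : ℕ) : ℝ) ≤ Real.exp (2 * L) := by
    rw [two_mul L, Real.exp_add, ← e2, Real.exp_log X0]
    exact_mod_cast (by nlinarith : 2 * y ≤ A ^ 2 * A ^ 2)
  have b3 := (Real.log_le_iff_le_exp (by push_cast; linarith)).2 b2
  have b4 : (R : ℝ) ≤ T := by exact_mod_cast hT
  have b5 : (500 : ℝ) ≤ N := by exact_mod_cast hN
  refine ⟨⟨by omega, a1, by nlinarith, by nlinarith, (le_zc (one_le_log (by omega)) _).2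
    (sh.trans (by nlinarith)), by linarith⟩, b1, le_trans ?_ b2, fun h => by
      exact_mod_cast b0 1 (by simpa using h)⟩
  exact_mod_cast (by omega : y + 1 ≤ 2 * y)

lemma num2 {ε L R Y w : ℝ} (hL : 1 ≤ L) (hR : 0 < R) (h1 : R ≤ Real.exp L) (h2 : 0 ≤ Y)
    (h3 : Y ≤ Real.exp (2 * L)) (e2 : 864 ≤ ε ^ 2 * (2 * L)) (w1 : (2 * L) ^ 14 ≤ w) :
    4 * Y ^ 2 * Real.exp (-(ε ^ 2 * w / (288 * (2 * L) ^ 12))) ≤ 4 / R := by
  have a3 : Real.exp (-(ε ^ 2 * w / (288 * (2 * L) ^ 12))) ≤ Real.exp (-(6 * L)) := by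
    rw [Real.exp_le_exp, neg_le_neg_iff, le_div_iff₀ (by positivity)]
    calc _ = 864 * (2 * L) ^ 13 := by ring
      _ ≤ ε ^ 2 * (2 * L) * (2 * L) ^ 13 := by gcongr
      _ = ε ^ 2 * (2 * L) ^ 14 := by ring
      _ ≤ _ := by gcongr
  rw [le_div_iff₀ hR]
  calc _ ≤ 4 * Real.exp (2 * L) ^ 2 * Real.exp (-(6 * L)) * Real.exp L := by gcongr
    _ = 4 * Real.exp (-L) := by
      rw [← Real.exp_nat_mul, mul_assoc, mul_assoc, ← Real.exp_add, ← Real.exp_add]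
      congr 2; push_cast; ring
    _ ≤ 4 * 1 := by gcongr; exact Real.exp_le_one_iff.2 (by linarith)
    _ = _ := by ring

lemma num3 {L Y : ℝ} {R : ℕ} (hL : 1 ≤ L) (hR : (0 : ℝ) < R) (h1 : R ≤ Real.exp L) (h2 : 0 ≤ Y)
    (h3 : Y ≤ Real.exp (2 * L)) (h4 : 16 * L ≤ R) : Y ^ 3 * (2 / 2 ^ R) ≤ 1 / R := by
  have a1 : 2 ≤ Real.exp L := by linarith [Real.add_one_le_exp L]
  have a2 : Real.exp (1 / 2) ≤ 2 := by
    rw [← Real.le_log_iff_exp_le two_pos]; linarith [Real.log_two_gt_d9]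
  rw [← mul_div_assoc, div_le_div_iff₀ (by positivity) hR, one_mul]
  calc _ ≤ Real.exp (2 * L) ^ 3 * Real.exp L * Real.exp L := by gcongr
    _ ≤ Real.exp (1 / 2) ^ R := by
      rw [← Real.exp_nat_mul, ← Real.exp_nat_mul, ← Real.exp_add, ← Real.exp_add, Real.exp_le_exp]
      push_cast; linarith
    _ ≤ _ := by gcongr

lemma num4 {R T N K : ℕ} {a r L μ : ℝ} (hR : (0 : ℝ) < R) (hT : R ≤ T) (T8 : 8 ≤ T) (hN : 500 ≤ N)
    (hL : L = (2 * N + 32) * Real.log T) (ha : 0 ≤ a) (r0 : 0 < r) (hr : 12608 * a ≤ r)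
    (K0 : (K : ℝ) ≤ a * (L + 1) ^ 2) (K4 : (K : ℝ) ≤ 4 * a * L ^ 2) (μ0 : 0 ≤ μ) (μ1 : μ ≤ 1 / 2)
    (μ2 : a * (L + 1) ^ 2 * (μ * (1 + 2 * μ)) ≤ (1 - 13 / (N + 16)) * L) :
    (1 + 4 * (197 / (r * L))) ^ K / (T ^ N * T ^ 7 : ℕ) +
      (1 - μ)⁻¹ ^ K / ((T ^ N * T ^ 7 : ℕ) * (T ^ N : ℕ)) ≤ 1 / R + 1 / R := by
  have t0 : (0 : ℝ) < T := by exact_mod_cast (by omega : 0 < T)
  have lT : 1 ≤ Real.log T := one_le_log T8
  have N0 : (500 : ℝ) ≤ N := by exact_mod_cast hN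
  have L0 : 0 < L := by rw [hL]; positivity
  have eT : ∀ (c u : ℝ) (j : ℕ), 0 ≤ c → c ≤ 1 + u → K * u ≤ (j - 1) * Real.log T →
      c ^ K / T ^ j ≤ 1 / R := by
    intro c u j c0 c1 hu
    have a1 : (R : ℝ) ≤ Real.exp (Real.log T) := by
      rw [Real.exp_log t0]; exact_mod_cast hT
    have a2 : c ≤ Real.exp u := by linarith [Real.add_one_le_exp u]
    rw [div_le_div_iff₀ (by positivity) hR, one_mul]
    calc _ ≤ Real.exp u ^ K * Real.exp (Real.log T) := by gcongr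
      _ ≤ Real.exp (Real.log T) ^ j := by
        rw [← Real.exp_nat_mul, ← Real.exp_nat_mul, ← Real.exp_add, Real.exp_le_exp]
        linarith
      _ = _ := by rw [Real.exp_log t0]
  rw [← Nat.cast_mul, ← pow_add, ← pow_add, Nat.cast_pow, Nat.cast_pow]
  refine add_le_add (eT _ _ _ (by positivity) le_rfl ?_)
    (eT _ (μ * (1 + 2 * μ)) _ (inv_nonneg.2 (by linarith)) ?_ ?_)
  · calc _ ≤ 4 * a * L ^ 2 * (4 * (197 / (r * L))) := by gcongr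
      _ = 12608 * a / r * (L / 4) := by field_simp; ring
      _ ≤ 1 * (L / 4) := by gcongr; exact (div_le_one r0).2 hr
      _ ≤ _ := by rw [hL]; push_cast; nlinarith
  · rw [inv_le_iff_one_le_mul₀ (by linarith)]
    nlinarith [mul_nonneg (sq_nonneg μ) (show 0 ≤ 1 - 2 * μ by linarith)]
  · refine (mul_le_mul_of_nonneg_right K0 (by positivity)).trans (μ2.trans (le_of_eq ?_))
    rw [hL]; push_cast; field_simp; ring

lemma log_idx {T N g i : ℕ} {L : ℝ} (T1 : 1 ≤ T) (hL : L = (2 * N + 32) * Real.log T)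
    (hg : g < T ^ N * T ^ 7) (hi : i < T ^ N) :
    Real.log ((T ^ N * T ^ 16) ^ 2 + g * (T ^ N * T ^ 16 * T ^ 8) + i * T ^ 2 : ℕ) ≤ L + 1 := by
  have e2 : Real.log ((T ^ N * T ^ 16) ^ 2 : ℕ) = L := by
    rw [← pow_add, ← pow_mul, Nat.cast_pow, Real.log_pow, hL]; push_cast; ring
  have a1 : i * T ^ 2 ≤ T ^ N * T ^ 16 * T ^ 8 := by
    rw [mul_assoc, ← pow_add]
    exact Nat.mul_le_mul hi.le (Nat.pow_le_pow_right T1 (by norm_num))
  have a2 : (g + 1) * (T ^ N * T ^ 16 * T ^ 8) ≤ (T ^ N * T ^ 16) ^ 2 :=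
    calc _ ≤ T ^ N * T ^ 7 * (T ^ N * T ^ 16 * T ^ 8) * T :=
          (Nat.mul_le_mul_right _ hg).trans (Nat.le_mul_of_pos_right _ T1)
      _ = _ := by ring
  have X0 : 0 < (T ^ N * T ^ 16) ^ 2 := by positivity
  rw [add_mul, one_mul] at a2
  generalize (T ^ N * T ^ 16) ^ 2 = X at *
  have a3 := Real.log_le_log (by exact_mod_cast (by omega : 0 < X + g * (T ^ N * T ^ 16 * T ^ 8) +
    i * T ^ 2)) (show ((X + g * (T ^ N * T ^ 16 * T ^ 8) + i * T ^ 2 : ℕ) : ℝ) ≤ 2 * X by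
      exact_mod_cast (by omega))
  rw [Real.log_mul two_ne_zero (by positivity), e2] at a3
  linarith [Real.log_two_lt_d9]

end Pool.Agent.Lib.MP_be93de_nt
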