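import Mathlib
import Pool.Agent.Lib.MP_be93de_nt.RlNum

/-! Indices whose dilates avoid twin elements in the random sieve. -/

namespace Pool.Agent.Lib.MP_be93de_nt

open Finset Nat Filter MeasureTheory
open Pool.Agent.Lib.MP_b09185_nt

theorem low_bound {κ a ε : ℝ} {d N : ℕ} (hd : 1 ≤ d) (κ0 : 0 ≤ κ) (ha : 0 ≤ a)
    (hκ : ∀ᶠ z : ℕ in atTop, thd 2 z ≤ κ * th z ^ 2) (hε : 0 < ε) (hε1 : ε ≤ 1 / 2) (hN : 500 ≤ N)
    (hθ : a * ((1 + ε) / (1 - ε) * κ) < 1 - 13 / (N + 16)) :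
    ∀ᶠ R : ℕ in atTop, law {ω | ∀ n, R ≤ n → ∃ k : ℕ, 1 ≤ k ∧ (k : ℝ) ≤ a * Real.log n ^ 2 ∧
      Nat.nth (· ∈ model ω) (k ^ d * n - 1) + 2 ∈ model ω} ≤ ENNReal.ofReal (7 / R) := by
  obtain ⟨B0, -, hB0⟩ := window hε (by linarith)
  obtain ⟨z0, hz0⟩ := eventually_atTop.1 (hκ.and th_inv_sharp)
  obtain ⟨r, hr⟩ := exists_nat_gt (12608 * a)
  have r0 : (0 : ℝ) < r := lt_of_le_of_lt (by positivity) hr
  have r1 : 1 ≤ r := by exact_mod_cast r0
  have c0 : (0 : ℝ) < (2 * N + 32) * 24 := by positivity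
  have tl : Tendsto (fun R : ℕ => (2 * N + 32) * 24 * Real.log R) atTop atTop :=
    (Real.tendsto_log_atTop.comp tendsto_natCast_atTop_atTop).const_mul_atTop c0
  filter_upwards [(tendsto_pow_atTop (α := ℕ) (n := 24) (by norm_num)).eventually ev_big,
    eventually_ge_atTop z0, eventually_ge_atTop r, eventually_ge_atTop 100,
    tl.eventually (ev_poly (4 * (4 * a + 1) ^ d * (2 ^ 15) ^ (B0 + 1) + 16) (2 * d + 14 * (B0 + 1))
      (inv_pos.2 c0)), tl.eventually (num1 hθ), tl.eventually_ge_atTop 50,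
    tl.eventually_ge_atTop (432 / ε ^ 2), tl.eventually_ge_atTop (816 * r * 4 ^ r + 2)]
    with R hT z1 r2 hR hΦ ⟨μ1, μ2⟩ l1 l2 l3
  have R0 : (0 : ℝ) < R := by exact_mod_cast (by omega : 0 < R)
  rw [← mul_assoc, inv_mul_cancel₀ c0.ne', one_mul, Real.exp_log R0] at hΦ
  have RT : R * R ≤ R ^ 24 := by
    rw [← pow_two]; exact Nat.pow_le_pow_right (by omega) (by norm_num)
  have RR : R ≤ R * R := Nat.le_mul_self R
  have hL : (2 * N + 32) * 24 * Real.log R = (2 * N + 32) * Real.log (R ^ 24 : ℕ) := by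
    rw [Nat.cast_pow, Real.log_pow]; push_cast; ring
  have eR : (R : ℝ) ≤ Real.exp ((2 * N + 32) * 24 * Real.log R) := by
    rw [← Real.log_le_iff_le_exp R0]
    nlinarith [Real.log_natCast_nonneg R, Nat.cast_nonneg (α := ℝ) N]
  generalize (2 * N + 32) * 24 * Real.log R = L at *
  set K := ⌊a * (L + 1) ^ 2⌋₊ with hK
  have K0 : (K : ℝ) ≤ a * (L + 1) ^ 2 := Nat.floor_le (by positivity)
  have K4 : (K : ℝ) ≤ 4 * a * L ^ 2 := K0.trans (by
    rw [mul_comm 4, mul_assoc]; gcongr; nlinarith)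
  set w := ⌈(2 * L) ^ 14⌉₊ with hw
  have w1 : (2 * L) ^ 14 ≤ w := Nat.le_ceil _
  have w0 : 1 ≤ (2 * L) ^ 14 := one_le_pow₀ (by linarith)
  have w2 : (w : ℝ) ≤ 2 ^ 15 * L ^ 14 := by
    have := Nat.ceil_lt_add_one (show 0 ≤ (2 * L) ^ 14 by positivity)
    rw [← hw] at this
    rw [mul_pow] at this w0
    linarith
  have w3 : 1 ≤ w := by exact_mod_cast w0.trans w1
  set h := w ^ (B0 + 1) with hh
  have h1 : 1 ≤ h := Nat.one_le_pow _ _ w3
  have h3 : w ≤ h := le_self_pow₀ w3 (by omega)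
  have Φ1 : 4 * ((K + 1) ^ d * h) + 16 ≤ R := by
    have a1 : (K + 1 : ℝ) ≤ (4 * a + 1) * L ^ 2 := by nlinarith
    have a2 : 1 ≤ L ^ (2 * d + 14 * (B0 + 1)) := one_le_pow₀ (by linarith)
    rw [← Nat.cast_le (α := ℝ), hh]
    push_cast
    refine le_trans ?_ hΦ
    calc _ ≤ 4 * (((4 * a + 1) * L ^ 2) ^ d * (2 ^ 15 * L ^ 14) ^ (B0 + 1)) +
          16 * L ^ (2 * d + 14 * (B0 + 1)) := by gcongr; linarith
      _ = _ := by rw [mul_pow, mul_pow, ← pow_mul, ← pow_mul, pow_add]; ring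
  have K1 : K ^ d ≤ (K + 1) ^ d := Nat.pow_le_pow_left (by omega) d
  have K2 : (K + 1) ^ d ≤ (K + 1) ^ d * h := Nat.le_mul_of_pos_right _ h1
  have K3 : h ≤ (K + 1) ^ d * h := Nat.le_mul_of_pos_left _ (by positivity)
  have L2 : L ^ 2 ≤ R := by
    have a1 : (w : ℝ) ≤ R := by exact_mod_cast (by omega : w ≤ R)
    calc L ^ 2 ≤ (2 * L) ^ 2 := by gcongr; linarith
      _ ≤ (2 * L) ^ 14 := pow_le_pow_right₀ (by linarith) (by norm_num)
      _ ≤ _ := w1.trans a1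
  have L1 : 16 * L ≤ R := by nlinarith
  set T := R ^ 24 with hTd
  have T1 : 1 ≤ T := by omega
  have t0 : (0 : ℝ) < T := by exact_mod_cast T1
  have pT : ∀ i j : ℕ, i ≤ j → T ^ i ≤ T ^ j := fun i j => Nat.pow_le_pow_right T1
  have p1 := pT 1 N (by omega)
  rw [pow_one] at p1
  set A := T ^ N * T ^ 16 with hA
  have p2 : T ^ N ≤ A := Nat.le_mul_of_pos_right _ (by positivity)
  have p3 : A ≤ A * T ^ 10 := Nat.le_mul_of_pos_right _ (by positivity)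
  have p4 : A ≤ A ^ 2 := le_self_pow₀ (by omega) (by norm_num)
  have p5 : 4 * T ^ 999 ≤ A ^ 2 :=
    calc _ ≤ T * T ^ 999 := Nat.mul_le_mul_right _ (by omega)
      _ = T ^ (999 + 1) := (_root_.pow_succ' _ _).symm
      _ ≤ T ^ ((N + 16) * 2) := pT _ _ (by omega)
      _ = _ := by rw [pow_mul, pow_add]
  have zA : R ≤ A * T ^ 10 := by omega
  set Y := 2 * (8 + 2 * (K + 1) ^ d * A ^ 2 * h) with hY
  have Y1 : Y ≤ R * A ^ 2 :=
    calc Y = 4 * ((K + 1) ^ d * h) * A ^ 2 + 16 * 1 := by rw [hY]; ring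
      _ ≤ 4 * ((K + 1) ^ d * h) * A ^ 2 + 16 * A ^ 2 := by gcongr; omega
      _ ≤ _ := by rw [← add_mul]; exact Nat.mul_le_mul_right _ Φ1
  have Y0 : A ^ 2 ≤ 4 * Y :=
    calc _ ≤ 16 * ((K + 1) ^ d * h) * A ^ 2 := Nat.le_mul_of_pos_left _ (by omega)
      _ ≤ 16 * ((K + 1) ^ d * h) * A ^ 2 + 64 := Nat.le_add_right _ _
      _ = _ := by rw [hY]; ring
  have hS := fun y (a1 : A ^ 2 ≤ 4 * y) (a2 : y ≤ Y) => sc_of hR (by omega) hN hL (by linarith)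
    (hz0 _ (z1.trans zA)).2 a1 (a2.trans Y1)
  have lg : ∀ y, A ^ 2 ≤ 4 * y → y ≤ Y → Real.log y ≤ 2 * L := fun y a1 a2 =>
    (Real.log_le_iff_le_exp (by exact_mod_cast (by omega : 0 < y))).2
      (by linarith [(hS y a1 a2).2.2.1])
  have Y2 := (hS Y Y0 le_rfl).2.2.1
  have e2 : 864 ≤ ε ^ 2 * (2 * L) := by
    rw [div_le_iff₀ (by positivity)] at l2
    linarith
  have c1 := bad_bound hB0 hT (w := w) (by omega) (lg Y Y0 le_rfl) (by
    have a1 : ε ^ 2 * (2 * L) ≤ ε * (2 * L) ^ 8 := by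
      have : 2 * L ≤ (2 * L) ^ 8 := le_self_pow₀ (by linarith) (by norm_num)
      have : ε ^ 2 ≤ ε := by nlinarith
      gcongr
    calc 3 * (2 * L) ^ 6 ≤ ε * (2 * L) ^ 8 * (2 * L) ^ 6 := by gcongr; linarith
      _ = ε * (2 * L) ^ 14 := by ring
      _ ≤ _ := by gcongr)
  have c2 := pg_bound (A := A) (Y := Y) hR h1 (by omega) r1 hε hε1 fun y a1 a2 =>
    ⟨(hS y a1 a2).1, by linarith [lg y a1 a2], by linarith [(hS y a1 a2).2.1]⟩
  have e0 : 0 < 1 - ε := by linarith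
  have tL : L ^ 2 ≤ T := L2.trans (by exact_mod_cast (by omega : R ≤ T))
  have iT : 1 / (T : ℝ) ≤ 1 / L ^ 2 := one_div_le_one_div_of_le (by positivity) tL
  have c3 := mart_bound (B := T ^ N) (Y := Y) (L := L - 1) (ν := 197 / (r * L)) hd
    (by omega : K ^ d ≤ R ^ 24) hR (pT _ _ (by omega)) h1 (by omega) r1 r2 hε hε1 κ0 (by linarith)
    (fun y (a1 : A ^ 2 ≤ 2 * y) a2 => by
      obtain ⟨b1, -, -, b2⟩ := hS y (by omega) (by omega)
      exact ⟨b1, (hz0 _ (z1.trans (zA.trans b1.lev))).1, b2 a1⟩)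
    (by gcongr; linarith) μ1 (by
      have a1 : r * L ≤ T := by
        have b1 : (r : ℝ) ≤ R := by exact_mod_cast r2
        have b2 : (R : ℝ) * R ≤ T := by exact_mod_cast RT
        exact le_trans (by gcongr; linarith) b2
      have a2 := one_div_le_one_div_of_le (by positivity) a1
      have a3 : 98 / (r * (L - 1)) ≤ 98 / (r * (L / 2)) := by gcongr; linarith
      calc _ ≤ 98 / (r * (L / 2)) + 1 / (r * L) := add_le_add a3 a2
        _ = _ := by field_simp; norm_num)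
  rw [← hTd, ← hA] at c3
  have μ0 : 0 ≤ (1 + ε) / (1 - ε) * κ * (1 + 1 / L ^ 2) / (L - 1) + 1 / L ^ 2 := by
    have : 0 < L - 1 := by linarith
    positivity
  have c4 := num4 R0 (by omega) (by omega) hN hL ha r0 hr.le K0 K4 μ0 μ1 μ2
  have Y3 : (0 : ℝ) ≤ Y + 1 := by positivity
  have e7 : (7 : ℝ) / R = 4 / R + (1 / R + (1 / R + 1 / R)) := by ring
  rw [e7, ENNReal.ofReal_add (by positivity) (by positivity),
    ENNReal.ofReal_add (by positivity) (by positivity)]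
  refine le_trans (measure_mono ?_) ((measure_union_le _ _).trans (add_le_add
    (c1.trans (ENNReal.ofReal_le_ofReal (num2 (by linarith) R0 eR Y3 Y2 e2 w1)))
    ((measure_union_le _ _).trans (add_le_add
    (c2.trans (ENNReal.ofReal_le_ofReal (num3 (by linarith) R0 eR Y3 Y2 L1)))
    (c3.trans (ENNReal.ofReal_le_ofReal c4))))))
  intro ω hω
  by_cases hG : ∀ y, T ^ 999 ≤ y → y ≤ Y → Good ε h Y y ω
  swap
  · exact Or.inl hG
  by_cases hP : ∀ y, A ^ 2 ≤ 2 * y → 2 * y ≤ Y → PG R A h r Y y ω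
  swap
  · exact Or.inr (Or.inl ⟨fun y a1 a2 => hG y (by omega) a2, hP⟩)
  refine Or.inr (Or.inr fun ⟨g, i⟩ hn => ?_)
  simp only [mem_product, mem_range] at hn
  obtain ⟨k, k1, k2, k3⟩ := hω (A ^ 2 + g * (A * T ^ 8) + i * T ^ 2) (by omega)
  have k4 : k ≤ K := Nat.le_floor (k2.trans (by
    gcongr
    exact log_idx T1 hL hn.1 hn.2))
  obtain ⟨k, rfl⟩ := Nat.exists_eq_add_of_le' k1
  have s1 : (g + T ^ N * T ^ 7 * k) % (T ^ N * T ^ 7) = g := by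
    rw [Nat.add_mul_mod_self_left, Nat.mod_eq_of_lt hn.1]
  have s2 : (g + T ^ N * T ^ 7 * k) / (T ^ N * T ^ 7) = k := by
    rw [Nat.add_mul_div_left _ _ (by positivity), Nat.div_eq_of_lt hn.1, zero_add]
  refine ⟨g + T ^ N * T ^ 7 * k, ((Nat.add_lt_add_right hn.1 _).trans_eq (by ring)).trans_le
    (Nat.mul_le_mul_right _ k4), s1, ?_⟩
  rw [s1, s2]
  exact reach (by linarith) hT.1 (pT _ _ hN) h1 (by omega) (by omega) k1 k4 hn.1 hn.2 hY ω hG hP k3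

theorem ae_low {a : ℝ} {d : ℕ} (hd : 1 ≤ d) (ha : 0 ≤ a)
    (h : a * (2 * ∏' p : {p : ℕ // p.Prime ∧ 2 < p}, (1 - 1 / ((p : ℝ) - 1) ^ 2)) < 1) :
    ∀ᵐ ω ∂law, ∃ᶠ n : ℕ in atTop, ∀ k : ℕ, 1 ≤ k → (k : ℝ) ≤ a * Real.log n ^ 2 →
      Nat.nth (· ∈ model ω) (k ^ d * n - 1) + 2 ∉ model ω := by
  have h0 := twin_const.1
  have hu := @twin_up
  generalize ∏' p : {p : ℕ // p.Prime ∧ 2 < p}, (1 - 1 / ((p : ℝ) - 1) ^ 2) = C at *
  obtain ⟨ε, e1, e2, e3⟩ : ∃ ε : ℝ, 0 < ε ∧ ε < 1 / 2 ∧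
      a * ((1 + ε) / (1 - ε) * (2 * C + ε)) + ε < 1 := by
    have hc : ContinuousAt (fun ε : ℝ => a * ((1 + ε) / (1 - ε) * (2 * C + ε)) + ε) 0 := by
      fun_prop (disch := norm_num)
    have h1 := hc.eventually (gt_mem_nhds (a := 1) (by simpa using h))
    obtain ⟨ε, b1, b2⟩ := ((h1.and (gt_mem_nhds (one_half_pos (α := ℝ)))).filter_mono
      nhdsWithin_le_nhds).and (self_mem_nhdsWithin (s := Set.Ioi (0 : ℝ))) |>.exists
    exact ⟨ε, b2, b1.2, b1.1⟩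
  obtain ⟨N, hN⟩ := exists_nat_gt (500 + 13 / ε)
  have e4 : 0 < 13 / ε := by positivity
  have e5 : 13 / (N + 16 : ℝ) ≤ ε := by
    rw [div_le_comm₀ (by positivity) e1]; linarith
  have hb := low_bound hd (by positivity) ha (hu e1) e1 e2.le (N := N)
    (by exact_mod_cast (by linarith : (500 : ℝ) ≤ N)) (by linarith)
  have t : Tendsto (fun R : ℕ => ENNReal.ofReal (7 / R)) atTop (nhds 0) := by
    simpa using ENNReal.tendsto_ofReal (tendsto_const_div_atTop_nhds_zero_nat (7 : ℝ))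
  simp only [frequently_atTop]
  rw [ae_all_iff]
  intro n0
  rw [ae_iff]
  refine le_antisymm (ge_of_tendsto t ?_) (by simp)
  filter_upwards [hb, eventually_ge_atTop n0] with R h1 h2
  refine (measure_mono fun ω hω n hn => ?_).trans h1
  by_contra h3
  exact hω ⟨n, h2.trans hn, fun k k1 k2 k3 => h3 ⟨k, k1, k2, k3⟩⟩

theorem main_two : ∀ᵐ c ∂law, ∀ d : ℕ, 1 ≤ d → ∀ a : ℝ,
    (1 < a * (2 * ∏' p : {p : ℕ // p.Prime ∧ 2 < p}, (1 - 1 / ((p : ℝ) - 1) ^ 2)) →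
      ∀ᶠ n : ℕ in atTop, ∃ k : ℕ, 1 ≤ k ∧ (k : ℝ) ≤ a * Real.log n ^ 2 ∧
        Nat.nth (· ∈ model c) (k ^ d * n - 1) + 2 ∈ model c) ∧
    (a * (2 * ∏' p : {p : ℕ // p.Prime ∧ 2 < p}, (1 - 1 / ((p : ℝ) - 1) ^ 2)) < 1 →
      ∃ᶠ n : ℕ in atTop, ∀ k : ℕ, 1 ≤ k → (k : ℝ) ≤ a * Real.log n ^ 2 →
        Nat.nth (· ∈ model c) (k ^ d * n - 1) + 2 ∉ model c) := by
  have h0 := twin_const.1
  have h1 := main_twin
  have h2 := @ae_low
  generalize ∏' p : {p : ℕ // p.Prime ∧ 2 < p}, (1 - 1 / ((p : ℝ) - 1) ^ 2) = C at *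
  have : ∀ᵐ c ∂law, ∀ d : ℕ, ∀ q : ℚ, 1 ≤ d → (0 : ℝ) ≤ q → q * (2 * C) < 1 →
      ∃ᶠ n : ℕ in atTop, ∀ k : ℕ, 1 ≤ k → (k : ℝ) ≤ q * Real.log n ^ 2 →
        Nat.nth (· ∈ model c) (k ^ d * n - 1) + 2 ∉ model c := by
    simp only [ae_all_iff]
    exact fun d q hd hq hq' => h2 hd hq hq'
  filter_upwards [this, h1] with c hc hc' d hd a
  refine ⟨hc' d hd a, fun ha => ?_⟩
  have hc2 : ContinuousAt (fun x : ℝ => x * (2 * C)) (max a 0) := by fun_prop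
  have h3 := hc2.eventually (gt_mem_nhds (a := 1) (by
    rcases le_total a 0 with h | h <;> simp [h, ha]))
  obtain ⟨b, b1, b2⟩ := ((h3.filter_mono nhdsWithin_le_nhds).and
    (self_mem_nhdsWithin (s := Set.Ioi (max a 0)))).exists
  obtain ⟨q, q1, q2⟩ := exists_rat_btwn (show max a 0 < b from b2)
  refine (hc d q hd ((le_max_right _ _).trans q1.le) (lt_of_le_of_lt (by gcongr) b1)).mono
    fun n hn k k1 k2 => hn k k1 (k2.trans ?_)
  gcongr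
  exact (le_max_left _ _).trans q1.le

end Pool.Agent.Lib.MP_be93de_nt
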