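import Mathlib
import Pool.Agent.Lib.MP_be93de_nt.RlFac

/-! Lower bound for the conditional success probability in the random sieve. -/

namespace Pool.Agent.Lib.MP_be93de_nt

open Finset Nat Filter
open Pool.Agent.Lib.MP_b09185_nt

open Classical in
theorem core_lo {T A y h D : ℕ} {a b : ℝ} (S : Sc T A y) (h1 : 1 ≤ h) (h2 : h ≤ T) (hb : 0 < b)
    (D1 : 2 * (A * T ^ 6) ≤ D) (D2 : D ≤ 3 * (A * T ^ 6)) (ω : Om)
    (H1 : ∀ e, y ≤ e → e ≤ y + A * T ^ 8 → (#{n ∈ Ioc e (e + h) | Sv ω (zz y) n} : ℝ) ≤ a)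
    (H2 : ∀ e, y ≤ e → e ≤ y + A * T ^ 8 →
      b ≤ (#{n ∈ Ioc e (e + h) | Sv ω (zz y) n ∧ Sv ω (zz y) (n + 2)} : ℝ)) :
    b / a - 1 / T ≤ av (zz y) (zz (y + A * T ^ 8)) (xs y (A * T ^ 8) (rk ω y + D)) ω := by
  have T1 := S.big
  have q0 := S.ay
  have q1 := S.pa (a := 8) (b := 39) (by norm_num)
  have q2 := S.pa (a := 7) (b := 8) (by norm_num)
  have q3 := S.pa (a := 8) (b := 10) (by norm_num)
  have q4 := S.pa (a := 6) (b := 7) (by norm_num)
  have q5 := S.pa (a := 0) (b := 6) (by norm_num)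
  have q6 := S.one 8
  have q7 : T ^ 17 * h ≤ T ^ 18 := (Nat.mul_le_mul_left _ h2).trans (le_of_eq (by ring))
  have q9 := S.pw (a := 18) (b := 40) (by norm_num)
  have q10 := S.pw (a := 0) (b := 18) (by norm_num)
  have q11 := S.pow
  rw [pow_zero] at q10
  have q8 : D * h ≤ 3 * (A * T ^ 7) := (Nat.mul_le_mul D2 h2).trans (le_of_eq (by ring))
  rw [pow_zero, mul_one] at q5
  have hu := S.lev
  have y8 : 8 ≤ y := by omega
  set u := zz y with hu'
  have sub : ∀ e e', #{n ∈ Ioc e e' | Sv ω u n ∧ Sv ω u (n + 2)} ≤ #{n ∈ Ioc e e' | Sv ω u n} :=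
    fun e e' => card_le_card (monotone_filter_right _ fun _ _ h => h.1)
  obtain ⟨x, x1, x2, x3⟩ := divt (fun e => #{n ∈ Ioc y e | Sv ω u n}) (cIoc_succ _ y)
    (Nat.le_add_right y (D * h)) (l := D) (by simp)
    (many _ y h _ fun e a1 a2 => lt_of_lt_of_le
      (by exact_mod_cast hb.trans_le (H2 e a1 (by omega))) (sub _ _))
  obtain ⟨t, ht⟩ : ∃ t : ℝ, t = T := ⟨_, rfl⟩
  obtain ⟨α, hα⟩ : ∃ α : ℝ, α = A := ⟨_, rfl⟩
  have cp : ∀ k, ((A * T ^ k : ℕ) : ℝ) = α * t ^ k := fun k => by rw [ht, hα]; push_cast; rfl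
  rw [← ht]
  have t1 : 100 ≤ t := by rw [ht]; exact_mod_cast T1
  have α1 : t ^ 40 ≤ α := by rw [ht, hα]; exact_mod_cast S.pow
  have α0 : 0 < α := lt_of_lt_of_le (by positivity) α1
  have u1 : α * t ^ 10 ≤ u := by rw [← cp]; exact_mod_cast hu
  have u2 : 1 / (u : ℝ) ≤ 1 / (α * t ^ 10) := one_div_le_one_div_of_le (by positivity) u1
  have y1 : α ^ 2 ≤ t * y := by rw [ht, hα]; exact_mod_cast S.lo
  have y2 : y ≤ α ^ 2 * t ^ 2 := by rw [ht, hα]; exact_mod_cast S.hi
  have y0 : (0 : ℝ) < y := by positivity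
  have d2 : (D : ℝ) ≤ 3 * (α * t ^ 6) := by rw [← cp]; exact_mod_cast D2
  have pwr : ∀ a b : ℕ, a < b → 1 / t ^ b ≤ 1 / 100 * (1 / t ^ a) := by
    intro a b hab
    rw [one_div_mul_one_div]
    apply one_div_le_one_div_of_le (by positivity)
    rw [ht]
    exact_mod_cast S.pw hab
  have main := core_abs (ι := Qs u (zz (y + A * T ^ 8))) (fun i => i.1) (Sv ω u)
    (fun i n => (i.1 : ℕ) ≤ zz n) y x D h (T ^ 17) a b (t ^ 4) (3 / t ^ 4) (3 * t ^ 9 / α) hb
    x1 (Nat.pow_pos (by omega)) x3 (fun i => by have := (mem_Qs.1 i.2).1; omega)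
    (fun e _ _ => H1 e (by omega) (by omega)) (fun e _ _ => H2 e (by omega) (by omega))
    (fun i => by
      have : α * t ^ 10 ≤ (i.1 : ℕ) := u1.trans (by exact_mod_cast (mem_Qs.1 i.2).1.le)
      calc _ ≤ 3 / t ^ 4 * (α * t ^ 10) := d2.trans (le_of_eq (by field_simp))
        _ ≤ _ := by gcongr)
    (by
      have := pwr 0 4 (by norm_num)
      rw [div_eq_mul_one_div 3]
      norm_num at this ⊢
      linarith)
    (by
      rw [sum_Qs _ _ (fun q => 1 / (q : ℝ))]
      refine (lam_up y8 (by omega)).trans ?_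
      have a1 : ((A * T ^ 8 : ℕ) : ℝ) / y ≤ t ^ 9 / α := by
        rw [cp, div_le_div_iff₀ y0 α0]
        calc _ = t ^ 8 * α ^ 2 := by ring
          _ ≤ t ^ 8 * (t * y) := by gcongr
          _ = _ := by ring
      have a2 : 1 / (α * t ^ 10) ≤ t ^ 9 / α := by
        rw [div_le_div_iff₀ (by positivity) α0]
        have : 1 ≤ t ^ 19 := one_le_pow₀ (by linarith)
        nlinarith
      have a3 : 1 / (u : ℝ) ≤ 1 := by
        rw [div_le_one (by exact_mod_cast (by omega : 0 < u))]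
        exact_mod_cast (by omega : 1 ≤ u)
      have a5 : 0 < t ^ 9 / α := by positivity
      have a6 : (0 : ℝ) ≤ ((A * T ^ 8 : ℕ) : ℝ) / y := by positivity
      have a7 : 0 ≤ 1 / (u : ℝ) := by positivity
      rw [mul_div_assoc]
      nlinarith)
    (by positivity)
    (by
      have a1 := lam_lo (d := A * T ^ 6) y8 (by omega)
      have a2 : ∑ q ∈ primesLE (zz (y + A * T ^ 6)) \ primesLE u, α * t ^ 6 * (1 / (q : ℝ)) ≤
          ∑ q ∈ primesLE (zz (y + A * T ^ 8)) \ primesLE u,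
            (#{n ∈ Ioc y x | Sv ω u n ∧ q ≤ zz n} : ℝ) / q := by
        refine le_trans (sum_le_sum ?_) (sum_le_sum_of_subset_of_nonneg (sdiff_subset_sdiff
          (primesLE_mono (zz_mono (by omega) (by omega : y + A * T ^ 6 ≤ y + A * T ^ 8)))
          Subset.rfl) fun _ _ _ => by positivity)
        intro q hq
        rw [mul_one_div]
        apply div_le_div_of_nonneg_right _ (Nat.cast_nonneg _)
        have b1 := le_of_mem_primesLE (Finset.mem_sdiff.1 hq).1
        have b2 := cIoc_le (Sv ω u) y x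
        have b3 := cIoc_add (Sv ω u) (Nat.le_add_right y (A * T ^ 6))
          (by omega : y + A * T ^ 6 ≤ x)
        have b4 := cIoc_le (Sv ω u) y (y + A * T ^ 6)
        have b5 : #{n ∈ Ioc (y + A * T ^ 6) x | Sv ω u n} ≤
            #{n ∈ Ioc y x | Sv ω u n ∧ q ≤ zz n} := by
          apply card_le_card
          intro n hn
          simp only [mem_filter, mem_Ioc] at hn ⊢
          exact ⟨by omega, hn.2, b1.trans (zz_mono (by omega) hn.1.1.le)⟩
        rw [← cp]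
        exact_mod_cast (by omega : A * T ^ 6 ≤ #{n ∈ Ioc y x | Sv ω u n ∧ q ≤ zz n})
      rw [← sum_Qs _ _ (fun q => (#{n ∈ Ioc y x | Sv ω u n ∧ q ≤ zz n} : ℝ) / q), ← mul_sum] at a2
      refine le_trans ?_ (a2.trans (le_of_eq (by congr!)))
      have b0 : ((y + A * T ^ 6 : ℕ) : ℝ) ≤ (2 * y : ℕ) := by exact_mod_cast (by omega)
      have b1 : ((y + A * T ^ 6 : ℕ) : ℝ) ≤ 2 * (α ^ 2 * t ^ 2) := by
        refine b0.trans ?_
        push_cast
        linarith
      have b2 : Real.log (y + A * T ^ 6 : ℕ) ≤ t / 4 := by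
        have := Real.log_le_log (by positivity) b0
        have := S.lg
        linarith
      have b3 := one_le_log (n := y + A * T ^ 6) (by omega)
      have b4 : 2 * (t ^ 3 / α) ≤
          (A * T ^ 6 : ℕ) / (y + A * T ^ 6 : ℕ) / Real.log (y + A * T ^ 6 : ℕ) := by
        calc _ = α * t ^ 6 / (2 * (α ^ 2 * t ^ 2)) / (t / 4) := by field_simp; norm_num
          _ ≤ _ := by rw [cp]; gcongr
      have b5 : 1 / (α * t ^ 10) ≤ t ^ 3 / α := by
        rw [div_le_div_iff₀ (by positivity) α0]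
        have : 1 ≤ t ^ 13 := one_le_pow₀ (by linarith)
        nlinarith
      calc 2 * (t ^ 4) ^ 2 ≤ t * (t ^ 4) ^ 2 := by gcongr; linarith
        _ = α * t ^ 6 * (t ^ 3 / α) := by field_simp
        _ ≤ _ := by gcongr; linarith)
  rw [av, le_div_iff₀ (card_Qs_pos _ _), mul_comm (b / a - 1 / t)]
  simp only [xs, ind]
  rw [sum_boole]
  refine le_trans (mul_le_mul_of_nonneg_left ?_ (Nat.cast_nonneg _)) (main.trans ?_)
  · have k0 : b ≤ a := (H2 y le_rfl (by omega)).trans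
      (le_trans (by exact_mod_cast sub _ _) (H1 y le_rfl (by omega)))
    have k2 : b / a ≤ 1 := (div_le_one (by linarith)).2 k0
    have k3 : b ≤ t := by
      refine (H2 y le_rfl (by omega)).trans ?_
      have := cIoc_le (fun n => Sv ω u n ∧ Sv ω u (n + 2)) y (y + h)
      rw [ht]
      exact_mod_cast this.trans (by omega)
    have k4 : (b + 1) / t ^ 4 ≤ 2 * (1 / t ^ 3) := by
      calc _ ≤ (t + t) / t ^ 4 := by gcongr; linarith
        _ = _ := by field_simp; ring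
    have k5 : D * (3 * t ^ 9 / α) ^ 2 ≤ 27 * (1 / t ^ 16) := by
      calc _ ≤ 3 * (α * t ^ 6) * (3 * t ^ 9 / α) ^ 2 := by gcongr
        _ = 27 * (t ^ 24 / α) := by field_simp; norm_num
        _ ≤ 27 * (t ^ 24 / t ^ 40) := by gcongr
        _ = _ := by field_simp
    have k6 : D * (3 * t ^ 9 / α) / (T ^ 17 : ℕ) ≤ 9 * (1 / t ^ 2) := by
      rw [Nat.cast_pow, ← ht]
      calc _ ≤ 3 * (α * t ^ 6) * (3 * t ^ 9 / α) / t ^ 17 := by gcongr
        _ = _ := by field_simp; norm_num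
    have k7 : (((T ^ 17 : ℕ) : ℝ) * h + 2) * (3 * t ^ 9 / α) ≤ 6 * (1 / t ^ 13) := by
      have : ((T ^ 17 : ℕ) : ℝ) * h + 2 ≤ 2 * t ^ 18 := by
        have : T ^ 17 * h + 2 ≤ 2 * T ^ 18 := by omega
        rw [ht]; exact_mod_cast this
      calc _ ≤ 2 * t ^ 18 * (3 * t ^ 9 / t ^ 40) := by gcongr
        _ = _ := by field_simp; ring
    rw [div_eq_mul_one_div 3]
    have r1 := pwr 1 2 (by norm_num)
    have r2 := pwr 1 3 (by norm_num)
    have r3 := pwr 1 4 (by norm_num)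
    have r4 := pwr 1 16 (by norm_num)
    have r5 := pwr 1 13 (by norm_num)
    rw [pow_one] at r1 r2 r3 r4 r5
    have r6 : 0 < 1 / t ^ 4 := by positivity
    have r7 : 0 ≤ (b + 1) / t ^ 4 := by positivity
    have r8 : 0 < 1 / t := by positivity
    nlinarith [mul_nonneg r6.le r7, mul_le_mul_of_nonneg_left k2 r6.le]
  · rw [Nat.cast_le]
    apply card_le_card
    intro v hv
    obtain ⟨s, a1, a2, a3, a4, a5⟩ := (mem_filter.1 hv).2
    have z1 : ∀ n, y ≤ n → n ≤ s + 2 → zz n ≤ zz (y + A * T ^ 8) := fun n b1 b2 =>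
      zz_mono (by omega) (by omega)
    refine mem_filter.2 ⟨mem_univ _, s, a1, by omega,
      (mem_patch ω v y8 a1.le (z1 _ a1.le (by omega))).2 a3, ?_,
      (mem_patch ω v y8 (by omega) (z1 _ (by omega) le_rfl)).2 a4⟩
    rw [rk, cIoc_add _ (Nat.zero_le y) a1.le, ← a5]
    congr 1
    · exact rk_congr (fun p hp => patch_low ω v hp) le_rfl
    · congr 1
      ext n
      simp only [mem_filter, mem_Ioc, and_congr_right_iff]
      intro hn
      exact mem_patch ω v y8 hn.1.le (z1 _ hn.1.le (by omega))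

end Pool.Agent.Lib.MP_be93de_nt
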