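import Mathlib
import Pool.Agent.Lib.MP_be93de_nt.RlFac

/-! First and second moments of the normalised products, in counting form. -/

namespace Pool.Agent.Lib.MP_be93de_nt

open Finset MeasureTheory
open Pool.Agent.Lib.MP_b09185_nt

theorem second2 {Y Z S : ℕ} {u z : ℕ → ℕ} {C : ℕ → ℕ → Set Om} {β : Type} (N : Finset β)
    (hN : N.Nonempty) (hC : ∀ σ < S, Stp Y Z u (C σ))
    (φ : β → ℕ → Om → ℝ) (ρ : β → β → ℕ → ℝ) (ρ1 : ∀ n n' σ, 1 ≤ ρ n n' σ)
    (hφ : ∀ n ∈ N, ∀ σ < S, FD Z (φ n σ)) (φ0 : ∀ n ∈ N, ∀ σ < S, ∀ ω, 0 ≤ φ n σ ω)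
    (pre : ∀ n ∈ N, ∀ σ < S, ∀ τ < σ, ∀ y ω ω', ω ∈ C σ y → Ag (u y) ω ω' → φ n τ ω = φ n τ ω')
    (off : ∀ n ∈ N, ∀ σ < S, ∀ ω, (∀ y < Y, ω ∉ C σ y) → φ n σ ω = 1)
    (on : ∀ n ∈ N, ∀ σ < S, ∀ y < Y, ∀ ω ∈ C σ y, av (u y) (z y) (φ n σ) ω = 1)
    (on2 : ∀ n ∈ N, ∀ n' ∈ N, ∀ σ < S, ∀ y < Y, ∀ ω ∈ C σ y,
      av (u y) (z y) (fun ω => φ n σ ω * φ n' σ ω) ω ≤ ρ n n' σ) {l η : ℝ} (hl : 0 < l)
    (hη : 0 < η) :
    law {ω | l * #N ≤ ∑ n ∈ N, ∏ σ ∈ range S, φ n σ ω} ≤ ENNReal.ofReal (1 / l) ∧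
    law {ω | η * #N ≤ |∑ n ∈ N, ∏ σ ∈ range S, φ n σ ω - #N|} ≤ ENNReal.ofReal
      (((∑ n ∈ N, ∑ n' ∈ N, ∏ σ ∈ range S, ρ n n' σ) / (#N : ℝ) ^ 2 - 1) / η ^ 2) := by
  set P : β → Om → ℝ := fun n ω => ∏ σ ∈ range S, φ n σ ω with hP
  have P1 : ∀ n ∈ N, FD Z (P n) := fun n hn => FD.prod (hφ n hn)
  have a1 : ∀ n ∈ N, 1 ≤ ∫ ω, P n ω ∂law := fun n hn => prod_lo hC (φ n) (hφ n hn) (φ0 n hn)
    (pre n hn) (fun σ h ω h' => (off n hn σ h ω h').ge)
    (fun σ h y hy ω a => (on n hn σ h y hy ω a).ge) S le_rfl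
  have a2 : ∀ n ∈ N, ∀ n' ∈ N, ∫ ω, P n ω * P n' ω ∂law ≤ ∏ σ ∈ range S, ρ n n' σ := by
    intro n hn n' hn'
    simp only [hP, ← prod_mul_distrib]
    exact prod_up hC (fun σ ω => φ n σ ω * φ n' σ ω) (ρ n n') (fun σ => by linarith [ρ1 n n' σ])
      (fun σ h => (hφ n hn σ h).mul (hφ n' hn' σ h))
      (fun σ h ω => mul_nonneg (φ0 n hn σ h ω) (φ0 n' hn' σ h ω))
      (fun σ h τ h' y ω ω' b1 b2 => by
        rw [pre n hn σ h τ h' y ω ω' b1 b2, pre n' hn' σ h τ h' y ω ω' b1 b2])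
      (fun σ h ω h' => by rw [off n hn σ h ω h', off n' hn' σ h ω h', one_mul]; exact ρ1 _ _ _)
      (on2 n hn n' hn') S le_rfl
  set s : ℝ := (#N : ℝ) with hs
  have s0 : 0 < s := by rw [hs]; exact_mod_cast hN.card_pos
  set M : Om → ℝ := fun ω => ∑ n ∈ N, P n ω with hM
  have M1 : FD Z M := fun ω ω' H => sum_congr rfl fun n hn => P1 n hn ω ω' H
  have b1 : s ≤ ∫ ω, M ω ∂law := by
    rw [hM, integral_finsetSum _ fun n hn => (P1 n hn).int]
    refine le_trans (le_of_eq ?_) (sum_le_sum a1)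
    simp [hs]
  have b2 : ∫ ω, M ω * M ω ∂law ≤ ∑ n ∈ N, ∑ n' ∈ N, ∏ σ ∈ range S, ρ n n' σ := by
    simp only [hM, sum_mul_sum]
    rw [integral_finsetSum _ fun n hn => integrable_finsetSum _ fun n' hn' =>
      ((P1 n hn).mul (P1 n' hn')).int]
    refine sum_le_sum fun n hn => ?_
    rw [integral_finsetSum _ fun n' hn' => ((P1 n hn).mul (P1 n' hn')).int]
    exact sum_le_sum (a2 n hn)
  have b3 : FD Z fun ω => (M ω - s) ^ 2 := fun ω ω' H => by simp only [M1 ω ω' H]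
  have b5 : ∫ ω, (M ω - s) ^ 2 ∂law = ∫ ω, M ω * M ω ∂law - 2 * s * ∫ ω, M ω ∂law + s ^ 2 := by
    have : ∀ ω, (M ω - s) ^ 2 = M ω * M ω - 2 * s * M ω + s ^ 2 := fun ω => by ring
    simp only [this]
    have i1 : Integrable (fun ω => M ω * M ω - 2 * s * M ω) law :=
      (M1.mul M1).int.sub (M1.int.const_mul _)
    rw [integral_add i1 (integrable_const _), integral_sub (M1.mul M1).int (M1.int.const_mul _),
      integral_const_mul]
    simp
  have b6 : ∫ ω, M ω ∂law ≤ s := by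
    rw [hM, integral_finsetSum _ fun n hn => (P1 n hn).int]
    refine (sum_le_sum (g := fun _ => (1 : ℝ)) fun n hn => ?_).trans (by simp [hs])
    simpa using prod_up (z := z) hC (φ n) (fun _ => 1) (fun _ => zero_le_one) (hφ n hn) (φ0 n hn)
      (pre n hn) (fun σ h ω h' => (off n hn σ h ω h').le)
      (fun σ h y hy ω a => (on n hn σ h y hy ω a).le) S le_rfl
  constructor
  · have b4 := mul_meas_ge_le_integral_of_nonneg (μ := law) (f := M)
      (Filter.Eventually.of_forall fun ω => sum_nonneg fun n hn =>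
        prod_nonneg fun σ h => φ0 n hn σ (mem_range.1 h) ω) M1.int (l * s)
    change law {ω | l * s ≤ M ω} ≤ _
    rw [← ofReal_measureReal]
    apply ENNReal.ofReal_le_ofReal
    rw [le_div_iff₀ hl]
    apply le_of_mul_le_mul_left _ s0
    linarith
  · have b4 := mul_meas_ge_le_integral_of_nonneg (μ := law) (f := fun ω => (M ω - s) ^ 2)
      (Filter.Eventually.of_forall fun ω => sq_nonneg _) b3.int ((η * s) ^ 2)
    refine (measure_mono (t := {ω | (η * s) ^ 2 ≤ (M ω - s) ^ 2}) fun ω hω => ?_).trans ?_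
    · rw [Set.mem_ofPred_eq, sq_le_sq, abs_of_pos (by positivity)]
      exact hω
    · rw [← ofReal_measureReal]
      apply ENNReal.ofReal_le_ofReal
      rw [le_div_iff₀ (by positivity), le_sub_iff_add_le, le_div_iff₀ (by positivity)]
      nlinarith

open Classical in
theorem mart2 {β : Type} (N : Finset β) (hN : N.Nonempty) (Y S G K : ℕ) (Gd : ℕ → Om → Prop)
    (hG : ∀ y ω ω', Ag (zz y) ω ω' → Gd y ω → Gd y ω') (m : ℕ → ℕ)
    (hm : ∀ σ < S, ∀ τ < σ, m τ + G ≤ m σ) (on : β → ℕ → Prop) (tg : β → ℕ → ℕ) (μ μ' ν : ℝ)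
    (μ0 : 0 ≤ μ) (μ1 : μ ≤ 1 / 2) (μ2 : μ' < 1) (ν0 : 0 ≤ ν)
    (hK : ∀ n ∈ N, #{σ ∈ range S | on n σ} = K)
    (h0 : ∀ n ∈ N, ∀ σ < S, on n σ → ∀ y, ∀ ω ∈ St Gd (m σ) y,
      μ' ≤ av (zz y) (zz (y + G)) (xs y G (tg n σ)) ω)
    (h1 : ∀ n ∈ N, ∀ σ < S, on n σ → ∀ y, ∀ ω ∈ St Gd (m σ) y,
      av (zz y) (zz (y + G)) (xs y G (tg n σ)) ω ≤ μ)
    (h2 : ∀ n ∈ N, ∀ n' ∈ N, n ≠ n' → ∀ σ < S, on n σ → on n' σ → ∀ y, ∀ ω ∈ St Gd (m σ) y,
      av (zz y) (zz (y + G)) (fun ω => ind (SL y G (tg n σ) ω ∧ SL y G (tg n' σ) ω)) ω ≤ ν)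
    {l η : ℝ} (hl : 0 < l) (hη : 0 < η) (c : Om → ℝ) (hc : ∀ ω, c ω = #{n ∈ N |
      ∀ σ < S, on n σ → ∀ y < Y, ω ∈ St Gd (m σ) y → ¬ SL y G (tg n σ) ω}) :
    law {ω | (∀ σ < S, ∃ y < Y, ω ∈ St Gd (m σ) y) ∧ l * #N * (1 - μ') ^ K ≤ c ω} ≤
      ENNReal.ofReal (1 / l) ∧
    law {ω | (∀ σ < S, ∃ y < Y, ω ∈ St Gd (m σ) y) ∧ (1 + η) * #N * (1 - μ') ^ K ≤ c ω ∨
        c ω ≤ (1 - η) * #N * (1 - μ) ^ K} ≤
      ENNReal.ofReal (((∑ n ∈ N, ∑ n' ∈ N, ∏ σ ∈ range S, if on n σ ∧ on n' σ then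
        (if n = n' then (1 - μ)⁻¹ else 1 + 4 * ν) else 1) / (#N : ℝ) ^ 2 - 1) / η ^ 2) := by
  set φ : β → ℕ → Om → ℝ := fun n σ ω =>
    ∏ y ∈ range Y, if on n σ ∧ ω ∈ St Gd (m σ) y then nf y G (tg n σ) ω else 1 with hφ
  have det : ∀ k y, Det (zz y) (St Gd k y) := fun k y ω ω' H h =>
    ⟨(mem_congr H le_rfl).1 h.1, rk_congr H le_rfl ▸ h.2.1, hG y ω ω' H h.2.2⟩
  have uniq : ∀ k y y' ω, ω ∈ St Gd k y → ω ∈ St Gd k y' → y = y' := by
    intro k y y' ω a b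
    rcases lt_trichotomy y y' with h | h | h
    · have : rk ω y < rk ω y' := cIoc_lt _ (Nat.zero_le y) h b.1
      have := a.2.1; have := b.2.1; omega
    · exact h
    · have : rk ω y' < rk ω y := cIoc_lt _ (Nat.zero_le y') h a.1
      have := a.2.1; have := b.2.1; omega
  have zm : ∀ y y', y ≤ y' → 8 ≤ y' → zz y ≤ zz y' := by
    intro y y' a b
    by_cases c : 8 ≤ y
    · exact zz_mono c a
    · refine Nat.find_mono fun k hk => lt_of_le_of_lt ?_ hk
      rcases Nat.eq_zero_or_pos y with rfl | d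
      · simpa using Real.log_natCast_nonneg y'
      · exact Real.log_le_log (by exact_mod_cast d) (by exact_mod_cast a)
  have e1 : ∀ n σ, on n σ → ∀ y < Y, ∀ ω ∈ St Gd (m σ) y, φ n σ ω = nf y G (tg n σ) ω := by
    intro n σ a y hy ω b
    simp only [hφ]
    rw [prod_eq_single_of_mem y (mem_range.2 hy) fun y' _ c => if_neg fun d => c (uniq _ _ _ ω d.2 b),
      if_pos ⟨a, b⟩]
  have e0 : ∀ n σ ω, ¬ on n σ → φ n σ ω = 1 := fun n σ ω a =>
    prod_eq_one fun y _ => if_neg fun d => a d.1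
  have cg : ∀ n σ u ω ω', Ag u ω ω' → (∀ y < Y, ω ∈ St Gd (m σ) y ∨ ω' ∈ St Gd (m σ) y →
      zz (y + G) ≤ u) → φ n σ ω = φ n σ ω' := by
    intro n σ u ω ω' H a
    refine prod_congr rfl fun y hy => ?_
    have hy := mem_range.1 hy
    by_cases b : ω ∈ St Gd (m σ) y ∨ ω' ∈ St Gd (m σ) y
    · have y8 : 8 ≤ y := b.elim (fun c => c.1.1) fun c => c.1.1
      have c := H.mono (a y hy b)
      have c' := c.mono (zz_mono y8 (Nat.le_add_right y G))
      rw [nf_congr y8 c]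
      exact if_congr (and_congr_right fun _ => ⟨det _ _ _ _ c', det _ _ _ _ c'.symm⟩) rfl rfl
    · rw [if_neg fun d => b (Or.inl d.2), if_neg fun d => b (Or.inr d.2)]
  have avc : ∀ σ y, ∀ ω ∈ St Gd (m σ) y, ∀ f g : Om → ℝ, (∀ ω ∈ St Gd (m σ) y, f ω = g ω) →
      av (zz y) (zz (y + G)) f ω = av (zz y) (zz (y + G)) g ω := by
    intro σ y ω a f g b
    simp only [av, fun v => b _ (det _ _ _ _ (ag_patch ω (z := zz (y + G)) v) a)]
  have av1 : ∀ y ω, av (zz y) (zz (y + G)) (fun _ => 1) ω = 1 := fun y ω => by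
    rw [av, sum_const, card_univ, nsmul_eq_mul, mul_one, div_self (card_Qs_pos _ _).ne']
  have one : ∀ n ∈ N, ∀ σ < S, ∀ y < Y, ∀ ω ∈ St Gd (m σ) y,
      av (zz y) (zz (y + G)) (φ n σ) ω = 1 := by
    intro n hn σ hσ y hy ω a
    by_cases b : on n σ
    · rw [avc σ y ω a _ _ (e1 n σ b y hy), av_nf _ _ _ _ (by linarith [h1 n hn σ hσ b y ω a])]
    · rw [avc σ y ω a _ _ fun ω _ => e0 n σ ω b, av1]
  have i1 : 1 ≤ (1 - μ)⁻¹ := one_le_inv₀ (by linarith) |>.2 (by linarith)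
  have φ0 : ∀ n ∈ N, ∀ σ < S, ∀ ω, 0 ≤ φ n σ ω := by
    refine fun n hn σ hσ ω => prod_nonneg fun y _ => ?_
    split_ifs with a
    · exact div_nonneg (by linarith [ind_le (SL y G (tg n σ) ω), xs.eq_1 y G (tg n σ) ω])
        (by linarith [h1 n hn σ hσ a.1 y ω a.2])
    · exact zero_le_one
  have pc : ∀ n ∈ N, ∀ x : ℝ, ∏ σ ∈ range S, (if on n σ then x else 1) = x ^ K := fun n hn x => by
    rw [← prod_filter, prod_const, hK n hn]
  have up : ∀ ω, (∑ n ∈ N, ∏ σ ∈ range S, φ n σ ω) * (1 - μ) ^ K ≤ c ω := by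
    intro ω
    rw [hc, card_filter, Nat.cast_sum, sum_mul]
    refine sum_le_sum fun n hn => ?_
    split_ifs with a
    · have : ∏ σ ∈ range S, φ n σ ω ≤ (1 - μ)⁻¹ ^ K := by
        rw [← pc n hn]
        refine prod_le_prod (fun σ h => φ0 n hn σ (mem_range.1 h) ω) fun σ h => ?_
        have h := mem_range.1 h
        split_ifs with b
        · by_cases d : ∃ y < Y, ω ∈ St Gd (m σ) y
          · obtain ⟨y, d1, d2⟩ := d
            rw [e1 n σ b y d1 ω d2, nf, xs, ind, if_neg (a σ h b y d1 d2), sub_zero, one_div]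
            exact inv_anti₀ (by linarith) (by linarith [h1 n hn σ h b y ω d2])
          · refine le_trans (le_of_eq (prod_eq_one fun y hy => if_neg fun e => ?_)) i1
            exact d ⟨y, mem_range.1 hy, e.2⟩
        · exact (e0 n σ ω b).le
      refine (mul_le_mul_of_nonneg_right this (pow_nonneg (by linarith) _)).trans (le_of_eq ?_)
      rw [← mul_pow, inv_mul_cancel₀ (by linarith), one_pow, Nat.cast_one]
    · push Not at a
      obtain ⟨σ, a1, a2, y, a3, a4, a5⟩ := a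
      rw [prod_eq_zero (mem_range.2 a1) (by
        rw [e1 n σ a2 y a3 ω a4, nf, xs, ind, if_pos a5, sub_self, zero_div])]
      simp
  have lo : ∀ ω, (∀ σ < S, ∃ y < Y, ω ∈ St Gd (m σ) y) →
      c ω ≤ (∑ n ∈ N, ∏ σ ∈ range S, φ n σ ω) * (1 - μ') ^ K := by
    intro ω hω
    have p0 : 0 < 1 - μ' := by linarith
    rw [hc, card_filter, Nat.cast_sum, sum_mul]
    refine sum_le_sum fun n hn => ?_
    split_ifs with a
    · have : (1 - μ')⁻¹ ^ K ≤ ∏ σ ∈ range S, φ n σ ω := by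
        rw [← pc n hn]
        refine prod_le_prod (fun σ _ => by split_ifs <;> positivity) fun σ h => ?_
        have h := mem_range.1 h
        split_ifs with b
        · obtain ⟨y, d1, d2⟩ := hω σ h
          rw [e1 n σ b y d1 ω d2, nf, xs, ind, if_neg (a σ h b y d1 d2), sub_zero, one_div]
          exact inv_anti₀ (by linarith [h1 n hn σ h b y ω d2]) (by linarith [h0 n hn σ h b y ω d2])
        · exact (e0 n σ ω b).ge
      refine le_trans (le_of_eq ?_) (mul_le_mul_of_nonneg_right this (by positivity))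
      rw [← mul_pow, inv_mul_cancel₀ p0.ne', one_pow, Nat.cast_one]
    · rw [Nat.cast_zero]
      exact mul_nonneg (prod_nonneg fun σ h => φ0 n hn σ (mem_range.1 h) ω) (by positivity)
  have main := second2 (Y := Y) (Z := zz (Y + G + 8)) (S := S) (u := zz)
    (z := fun y => zz (y + G)) (C := fun σ => St Gd (m σ)) N hN
    (fun σ _ => ⟨det _, fun y hy => zm _ _ (by omega) (by omega), uniq _⟩) φ
    (fun n n' σ => if on n σ ∧ on n' σ then (if n = n' then (1 - μ)⁻¹ else 1 + 4 * ν) else 1)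
    (fun n n' σ => by split_ifs <;> linarith)
    (fun n _ σ _ ω ω' H => cg n σ _ ω ω' H fun y hy _ => zm _ _ (by omega) (by omega))
    φ0 ?_ (fun n _ σ _ ω a => prod_eq_one fun y hy => if_neg fun d => a y (mem_range.1 hy) d.2)
    one ?_ hl hη
  · have p0 : 0 < (1 - μ') ^ K := pow_pos (by linarith) _
    have p1 : 0 < (1 - μ) ^ K := pow_pos (by linarith) _
    refine ⟨(measure_mono fun ω hω => ?_).trans main.1, (measure_mono fun ω hω => ?_).trans main.2⟩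
    · exact le_of_mul_le_mul_right (hω.2.trans (lo ω hω.1)) p0
    · rw [Set.mem_ofPred_eq, le_abs]
      rcases hω with hω | hω
      · have := le_of_mul_le_mul_right (hω.2.trans (lo ω hω.1)) p0
        exact Or.inl (by linarith)
      · have := le_of_mul_le_mul_right ((up ω).trans hω) p1
        exact Or.inr (by linarith)
  · intro n _ σ hσ τ hτ y ω ω' a H
    refine cg n τ _ ω ω' H fun y' _ b => ?_
    have key : ∀ ω, ω ∈ St Gd (m σ) y → ω ∈ St Gd (m τ) y' → zz (y' + G) ≤ zz y := by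
      intro ω c1 c2
      have d1 := hm σ hσ τ hτ
      have d2 := c1.2.1
      have d3 := c2.2.1
      refine zm _ _ ?_ c1.1.1
      rcases le_total y' y with d | d
      · have := rk_le ω d; omega
      · have := rk_mono ω d
        have := rk_le ω d
        rcases d.eq_or_lt with d | d
        · omega
        · have : rk ω y < rk ω y' := cIoc_lt _ (Nat.zero_le y) d c2.1
          omega
    exact b.elim (key ω a) (key ω' (det _ _ _ _ H a))
  · intro n hn n' hn' σ hσ y hy ω a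
    by_cases b : on n σ
    · by_cases b' : on n' σ
      · rw [if_pos ⟨b, b'⟩, avc σ y ω a _ (fun ω => nf y G (tg n σ) ω * nf y G (tg n' σ) ω)
          fun ω c => by rw [e1 n σ b y hy ω c, e1 n' σ b' y hy ω c], av_nf2]
        have c1 := h1 n hn σ hσ b y ω a
        have c2 := h1 n' hn' σ hσ b' y ω a
        have c3 := av_nonneg (zz y) (zz (y + G)) (f := xs y G (tg n σ)) (fun _ => ind_nonneg _) ω
        have c4 := av_nonneg (zz y) (zz (y + G)) (f := xs y G (tg n' σ)) (fun _ => ind_nonneg _) ω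
        split_ifs with c
        · subst c
          simp only [and_self]
          change (_ + av _ _ (xs y G (tg n σ)) ω) / _ ≤ _
          set π := av (zz y) (zz (y + G)) (xs y G (tg n σ)) ω
          have d : 0 < 1 - π := by linarith
          calc _ = (1 - π)⁻¹ := by field_simp; ring
            _ ≤ _ := inv_anti₀ (by linarith) (by linarith)
        · have c5 := h2 n hn n' hn' c σ hσ b b' y ω a
          set π := av (zz y) (zz (y + G)) (xs y G (tg n σ)) ω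
          set π' := av (zz y) (zz (y + G)) (xs y G (tg n' σ)) ω
          have d : 1 / 4 ≤ (1 - π) * (1 - π') := by nlinarith
          rw [div_le_iff₀ (by linarith)]
          nlinarith [mul_nonneg c3 c4]
      · rw [if_neg fun c => b' c.2, avc σ y ω a _ (φ n σ) fun ω _ => by rw [e0 n' σ ω b', mul_one]]
        exact (one n hn σ hσ y hy ω a).le
    · rw [if_neg fun c => b c.1, avc σ y ω a _ (φ n' σ) fun ω _ => by rw [e0 n σ ω b, one_mul]]
      exact (one n' hn' σ hσ y hy ω a).le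

end Pool.Agent.Lib.MP_be93de_nt
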