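import Mathlib
import Pool.Agent.Lib.MP_be93de_nt.RlStep
import Pool.Agent.Lib.MP_be93de_nt.RtCore
import Pool.Agent.Lib.MP_be93de_nt.RtMart

/-! Two sided counts for one clustered family of indices. -/

namespace Pool.Agent.Lib.MP_be93de_nt

open Finset Nat Filter MeasureTheory
open Pool.Agent.Lib.MP_b09185_nt

lemma card_mod {M g : ℕ} (K : ℕ) (hg : g < M) : #{σ ∈ range (K * M) | σ % M = g} = K := by
  have e : ({σ ∈ range (K * M) | σ % M = g} : Finset ℕ) = (range K).image fun k => g + M * k := by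
    ext σ
    simp only [mem_filter, mem_range, mem_image]
    constructor
    · rintro ⟨a1, rfl⟩
      exact ⟨σ / M, Nat.div_lt_of_lt_mul (by rwa [mul_comm] at a1), Nat.mod_add_div σ M⟩
    · rintro ⟨k, a1, rfl⟩
      exact ⟨((Nat.add_lt_add_right hg _).trans_eq (by ring)).trans_le
        (Nat.mul_le_mul_right M (show k + 1 ≤ K from a1)),
        by rw [Nat.add_mul_mod_self_left, Nat.mod_eq_of_lt hg]⟩
  rw [e, Finset.card_image_of_injective _ fun a b h =>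
    Nat.eq_of_mul_eq_mul_left (by omega : 0 < M) (by simpa using h), card_range]

lemma base_gap2 {T B K d σ τ X : ℕ} (hX : (B * T ^ 16) ^ 2 ≤ X) (hd : 1 ≤ d) (hK : K ^ d ≤ T) (hσ : σ < K * (B * T ^ 7))
    (hτ : τ < σ) :
    (τ / (B * T ^ 7) + 1) ^ d * (X + τ % (B * T ^ 7) * (B * T ^ 16 * T ^ 8)) +
      B * T ^ 16 * T ^ 8 ≤
    (σ / (B * T ^ 7) + 1) ^ d * (X + σ % (B * T ^ 7) * (B * T ^ 16 * T ^ 8)) := by
  set M := B * T ^ 7 with hM
  set G := B * T ^ 16 * T ^ 8 with hG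
  have M0 : 0 < M := Nat.pos_of_ne_zero fun h => by simp [h] at hσ
  have a0 : τ / M ≤ σ / M := Nat.div_le_div_right hτ.le
  have a1 : 1 ≤ (τ / M + 1) ^ d := Nat.one_le_pow _ _ (Nat.succ_pos _)
  have a2 : (τ / M + 1) ^ d * (X + τ % M * G) + G ≤ (τ / M + 1) ^ d * (X + (τ % M + 1) * G) := by
    have := Nat.mul_le_mul_right G a1
    nlinarith
  refine a2.trans ?_
  rcases a0.eq_or_lt with h | h
  · have b1 := Nat.div_add_mod τ M
    have b2 := Nat.div_add_mod σ M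
    rw [h] at b1 ⊢
    gcongr
    omega
  · have b1 : σ / M < K := Nat.div_lt_of_lt_mul (by rwa [mul_comm] at hσ)
    have b2 : (τ / M + 1) ^ d ≤ T := (Nat.pow_le_pow_left (by omega) d).trans hK
    have b3 : (τ / M + 1) ^ d < (σ / M + 1) ^ d := Nat.pow_lt_pow_left (by omega) (by omega)
    have b4 : τ % M + 1 ≤ M := Nat.mod_lt _ M0
    have b5 : (τ / M + 1) ^ d * ((τ % M + 1) * G) ≤ X :=
      (Nat.mul_le_mul b2 (Nat.mul_le_mul_right G b4)).trans
        (le_trans (le_of_eq (by rw [hM, hG]; ring)) hX)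
    calc _ ≤ ((τ / M + 1) ^ d + 1) * X := by rw [mul_add, add_mul (_ ^ _) 1, one_mul]; omega
      _ ≤ _ := Nat.mul_le_mul b3 (Nat.le_add_right _ _)

/-- stopping event of index `σ` for the family with base `X` -/
def Sg (ε : ℝ) (R T B d h r Y X σ y : ℕ) : Set Om :=
  St (Gd ε R (B * T ^ 16) h r Y) ((σ / (B * T ^ 7) + 1) ^ d *
    (X + σ % (B * T ^ 7) * (B * T ^ 16 * T ^ 8)) - 2 * (B * T ^ 16 * T ^ 6)) y

open Classical in
theorem fam_two {R B K d h r Y X : ℕ} {ε κ κ' L L' μ μ' ν : ℝ} (hd : 1 ≤ d) (hK : K ^ d ≤ R ^ 24)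
    (hR : 100 ≤ R) (hB : (R ^ 24) ^ 24 ≤ B) (h1 : 1 ≤ h) (h2 : h ≤ R) (r1 : 1 ≤ r) (r2 : r ≤ R)
    (hε : 0 < ε) (hε1 : ε ≤ 1 / 2) (κ0 : 0 ≤ κ) (κ1 : 0 ≤ κ') (L0 : 49 ≤ L)
    (hX : (B * (R ^ 24) ^ 16) ^ 2 ≤ X)
    (hS : ∀ y, (B * (R ^ 24) ^ 16) ^ 2 ≤ 2 * y → 2 * y ≤ Y → Sc (R ^ 24) (B * (R ^ 24) ^ 16) y ∧
      thd 2 (zz y) ≤ κ * th (zz y) ^ 2 ∧ L ≤ Real.log y ∧ κ' * th (zz y) ^ 2 ≤ thd 2 (zz y) ∧
      Real.log y ≤ L')
    (hμ : (1 + ε) / (1 - ε) * κ * (1 + 1 / (R ^ 24 : ℕ)) / L + 1 / (R ^ 24 : ℕ) ≤ μ)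
    (hμ' : μ' ≤ (1 - ε) / (1 + ε) * κ' / L' - 1 / (R ^ 24 : ℕ)) (μ2 : μ' < 1)
    (μ1 : μ ≤ 1 / 2) (hν : 98 / (r * L) + 1 / (R ^ 24 : ℕ) ≤ ν) {l η : ℝ} (hl : 0 < l) (hη : 0 < η)
    (c : Om → ℝ) (hc : ∀ ω, c ω = #{n ∈ range (B * (R ^ 24) ^ 7) ×ˢ range B |
      ∀ σ < K * (B * (R ^ 24) ^ 7), σ % (B * (R ^ 24) ^ 7) = n.1 → ∀ y < Y,
      ω ∈ Sg ε R (R ^ 24) B d h r Y X σ y → ¬ SL y (B * (R ^ 24) ^ 16 * (R ^ 24) ^ 8)
        ((σ / (B * (R ^ 24) ^ 7) + 1) ^ d * (X + n.1 * (B * (R ^ 24) ^ 16 * (R ^ 24) ^ 8) +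
          n.2 * (R ^ 24) ^ 2)) ω}) :
    law {ω | (∀ σ < K * (B * (R ^ 24) ^ 7), ∃ y < Y, ω ∈ Sg ε R (R ^ 24) B d h r Y X σ y) ∧
      l * (B * (R ^ 24) ^ 7 * B : ℕ) * (1 - μ') ^ K ≤ c ω} ≤ ENNReal.ofReal (1 / l) ∧
    law {ω | (∀ σ < K * (B * (R ^ 24) ^ 7), ∃ y < Y, ω ∈ Sg ε R (R ^ 24) B d h r Y X σ y) ∧
      (1 + η) * (B * (R ^ 24) ^ 7 * B : ℕ) * (1 - μ') ^ K ≤ c ω ∨
      c ω ≤ (1 - η) * (B * (R ^ 24) ^ 7 * B : ℕ) * (1 - μ) ^ K} ≤
      ENNReal.ofReal (((1 + 4 * ν) ^ K / (B * (R ^ 24) ^ 7 : ℕ) +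
        (1 - μ)⁻¹ ^ K / ((B * (R ^ 24) ^ 7 : ℕ) * B)) / η ^ 2) := by
  unfold Sg at *
  have HT : 2 * (r * R) * (R ^ 20 * h) ≤ R ^ 24 :=
    calc _ ≤ R * (R * R) * (R ^ 20 * R) := by gcongr; omega
      _ = _ := by ring
  have RT : R ≤ R ^ 24 := le_self_pow₀ (by omega) (by norm_num)
  generalize R ^ 24 = T at *
  set A := B * T ^ 16 with hA
  set M := B * T ^ 7 with hM
  have T1 : 1 ≤ T := by omega
  have pw : ∀ a b : ℕ, a < b → 100 * T ^ a ≤ T ^ b := fun a b hab =>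
    calc 100 * T ^ a ≤ T * T ^ a := Nat.mul_le_mul_right _ (by omega)
      _ = T ^ (a + 1) := by ring
      _ ≤ T ^ b := Nat.pow_le_pow_right T1 hab
  have pb : ∀ a b : ℕ, a < b → 100 * (B * T ^ a) ≤ B * T ^ b := fun a b hab => by
    rw [mul_left_comm]; exact Nat.mul_le_mul_left _ (pw a b hab)
  have B1 : 1 ≤ B := le_trans (Nat.one_le_pow _ _ T1) hB
  have M0 : 0 < M := by positivity
  have q1 := pb 0 3 (by norm_num)
  have q2 := pb 3 4 (by norm_num)
  have q3 := pb 4 5 (by norm_num)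
  have q4 := pb 5 16 (by norm_num)
  have q5 := pw 18 24 (by norm_num)
  have q6 := pw 1 2 (by norm_num)
  have q7 := pw 2 18 (by norm_num)
  rw [pow_zero, mul_one] at q1
  rw [pow_one] at q6
  have q8 : A ≤ A * T ^ 6 := Nat.le_mul_of_pos_right _ (by positivity)
  have q9 : 100 * (A * T ^ 6) ≤ A ^ 2 := by
    rw [mul_left_comm, pow_two]
    refine Nat.mul_le_mul_left _ ((pw 6 24 (by norm_num)).trans (by omega))
  have qh : T ^ 17 * h ≤ T ^ 18 := (Nat.mul_le_mul_left _ (h2.trans RT)).trans (le_of_eq (by ring))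
  have qΛ : B * T ^ 5 * T ^ 11 ≤ A := le_of_eq (by rw [hA]; ring)
  have t0 : (0 : ℝ) < T := by exact_mod_cast T1
  have h0 : (0 : ℝ) < h := by exact_mod_cast h1
  have r0 : (1 : ℝ) ≤ r := by exact_mod_cast r1
  have e0 : 0 < 1 - ε := by linarith
  have ν0 : 0 ≤ ν := le_trans (by positivity) hν
  have μ0 : 0 ≤ μ := le_trans (by positivity) hμ
  have tg : ∀ σ < K * M, ∀ i < B, ∀ y ω, ω ∈ St (Gd ε R A h r Y) ((σ / M + 1) ^ d *
      (X + σ % M * (A * T ^ 8)) - 2 * (A * T ^ 6)) y →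
      (σ / M + 1) ^ d * (X + σ % M * (A * T ^ 8) + i * T ^ 2) =
        rk ω y + (2 * (A * T ^ 6) + (σ / M + 1) ^ d * (i * T ^ 2)) ∧
      (σ / M + 1) ^ d * (i * T ^ 2) ≤ B * T ^ 3 := by
    intro σ hσ i hi y ω hω
    have b1 : σ / M < K := Nat.div_lt_of_lt_mul (by rwa [mul_comm] at hσ)
    have b2 : (σ / M + 1) ^ d ≤ T := (Nat.pow_le_pow_left (by omega) d).trans hK
    have b3 : A ^ 2 ≤ (σ / M + 1) ^ d * (X + σ % M * (A * T ^ 8)) :=
      (hX.trans (Nat.le_add_right _ _)).trans (Nat.le_mul_of_pos_left _ (by positivity))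
    refine ⟨by rw [hω.2.1, mul_add]; omega, (Nat.mul_le_mul b2
      (Nat.mul_le_mul_right _ hi.le)).trans (le_of_eq (by ring))⟩
  have pair : ∀ σ < K * M, ∀ i j, i < j → j < B → ∀ y ω, ω ∈ St (Gd ε R A h r Y) ((σ / M + 1) ^ d *
      (X + σ % M * (A * T ^ 8)) - 2 * (A * T ^ 6)) y →
      av (zz y) (zz (y + A * T ^ 8)) (fun ω => ind (SL y (A * T ^ 8) ((σ / M + 1) ^ d *
        (X + σ % M * (A * T ^ 8) + i * T ^ 2)) ω ∧ SL y (A * T ^ 8) ((σ / M + 1) ^ d *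
        (X + σ % M * (A * T ^ 8) + j * T ^ 2)) ω)) ω ≤ ν := by
    intro σ hσ i j hij hj y ω hω
    obtain ⟨a1, a2⟩ := tg σ hσ i (by omega) y ω hω
    obtain ⟨-, a4⟩ := tg σ hσ (j - i) (by omega) y ω hω
    obtain ⟨g1, g2, g3, g4⟩ := hω.2.2
    obtain ⟨S, -, s2, -⟩ := hS y g1 g2
    have s3 := S.ay
    have s4 := S.pa (a := 8) (b := 39) (by norm_num)
    have s5 := S.pa (a := 6) (b := 8) (by norm_num)
    set l := (σ / M + 1) ^ d * ((j - i) * T ^ 2) with hl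
    set G := R ^ 20 * h with hG
    set H := 2 * (r * R) * G with hH
    have l1 : T ^ 2 ≤ l := (Nat.le_mul_of_pos_left _ (by omega)).trans
      (Nat.le_mul_of_pos_left _ (by positivity))
    have l2 : ∀ k, k ≤ T → l * k ≤ B * T ^ 4 := fun k hk =>
      (Nat.mul_le_mul a4 hk).trans (le_of_eq (by ring))
    have l3 := l2 H HT
    have l4 := l2 h (by omega)
    have l5 : T ^ 17 * H ≤ T ^ 18 := (Nat.mul_le_mul_left _ HT).trans (le_of_eq (by ring))
    have H0 : 0 < H := by positivity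
    have GH : G ≤ H := Nat.le_mul_of_pos_left _ (by positivity)
    have a3 : (σ / M + 1) ^ d * (X + σ % M * (A * T ^ 8) + j * T ^ 2) =
        rk ω y + (2 * (A * T ^ 6) + (σ / M + 1) ^ d * (i * T ^ 2)) + l := by
      rw [← a1, hl, ← mul_add, add_assoc _ (i * _), ← add_mul, Nat.add_sub_cancel' hij.le]
    set Λ := Real.log y with hΛ
    have Λ0 : 0 < Λ := by linarith
    have H1 : (0 : ℝ) < H := by exact_mod_cast H0
    have cH : (H : ℝ) = 2 * (r * R) * G := by rw [hH]; push_cast; rfl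
    rw [a1, a3]
    refine (core_two (a := H / (2 * Λ)) (b := 49 * H / (r * Λ ^ 2)) S H0 HT (by positivity)
      (by positivity) ?_ (by omega) (by omega) (by omega) qΛ ω (fun e b1 b2 => ?_)
      fun e b1 b2 => ?_).trans (le_trans (add_le_add ?_ le_rfl) hν)
    · rw [div_le_iff₀ (by positivity)]
      have b1 : (H : ℝ) ≤ T := by exact_mod_cast HT
      have b2 : 49 ≤ r * Λ ^ 2 := by nlinarith
      nlinarith
    · have c1 : H = 2 * (r * R) * R ^ 20 * h := by rw [hH, hG]; ring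
      have c2 := win_ge (Sv ω (zz y)) e h (2 * (r * R) * R ^ 20) _ fun e' _ c3 =>
        Good.lo g3 (e := e') (by omega)
      rw [← c1] at c2
      refine le_trans ?_ c2
      have c3 : 1 / Λ ≤ th (zz y) := by
        rw [div_le_iff₀' Λ0]; exact th_lo (by have := S.one 39; omega)
      calc _ = (2 * (r * R) * R ^ 20 : ℕ) * (1 / 2 * (h * (1 / Λ))) := by
            rw [c1]; push_cast; field_simp
        _ ≤ _ := by gcongr; linarith
    · have c3 : H ≤ l := by omega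
      have c4 : H + l * h + h + 2 ≤ A := by omega
      have c1 := g4 e (by omega) l c3 c4
      have c2 := g4 (e + G) (by omega) l c3 c4
      rw [hH, fam_cover, Nat.cast_add, Nat.cast_sum, Nat.cast_sum]
      refine (add_le_add c1 c2).trans (le_of_eq ?_)
      rw [← hH, cH, ← hG, ← hΛ]
      field_simp
      norm_num
    · calc _ = 98 / (r * Λ) := by field_simp; norm_num
        _ ≤ _ := by gcongr
  have main := mart2 (range M ×ˢ range B) (by simp [M0.ne', show B ≠ 0 by omega]) Y (K * M)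
    (A * T ^ 8) K (Gd ε R A h r Y) ?_ (fun σ => (σ / M + 1) ^ d * (X + σ % M * (A * T ^ 8)) -
      2 * (A * T ^ 6)) ?_ (fun (n : ℕ × ℕ) σ => σ % M = n.1)
    (fun n σ => (σ / M + 1) ^ d * (X + n.1 * (A * T ^ 8) + n.2 * T ^ 2)) μ μ' ν μ0 μ1 μ2 ν0
    (fun n hn => by convert card_mod K (mem_range.1 (mem_product.1 hn).1)) ?_ ?_ ?_ hl hη c
    (fun ω => by convert hc ω)
  · rw [card_product, card_range, card_range] at main
    refine ⟨main.1, main.2.trans (ENNReal.ofReal_le_ofReal (div_le_div_of_nonneg_right ?_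
      (sq_nonneg _)))⟩
    have := sum_rho (K := K) M0 B1 (c := (1 - μ)⁻¹) (c' := 1 + 4 * ν)
      (one_le_inv₀ (by linarith) |>.2 (by linarith)) (by linarith)
    rw [card_product, card_range, card_range] at this
    exact le_trans (le_of_eq (by congr!)) this
  · exact fun y ω ω' H a => ⟨a.1, a.2.1, good_congr H a.2.2.1, by
      have := a.2.2.2
      rwa [PG, Sv_congr H] at this⟩
  · intro σ hσ τ hτ
    have b1 := base_gap2 hX hd hK hσ hτ
    have b3 : A ^ 2 ≤ (τ / M + 1) ^ d * (X + τ % M * (A * T ^ 8)) :=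
      (hX.trans (Nat.le_add_right _ _)).trans (Nat.le_mul_of_pos_left _ (by positivity))
    rw [← hA, ← hM] at b1
    omega
  · intro n hn σ hσ a y ω hω
    obtain ⟨a1, a2⟩ := tg σ hσ n.2 (mem_range.1 (mem_product.1 hn).2) y ω hω
    obtain ⟨g1, g2, g3, -⟩ := hω.2.2
    obtain ⟨S, -, s2, s1, s0⟩ := hS y g1 g2
    have s3 := S.ay
    have s4 := S.pa (a := 8) (b := 39) (by norm_num)
    have y8 : 8 ≤ y := by have := S.one 39; omega
    have t1 := th_pos (zz y)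
    have t2 := thd_pos (dvd_refl 2) (zz y)
    rw [← a, a1]
    refine le_trans (hμ'.trans (sub_le_sub_right ?_ _)) (core_lo (a := (1 + ε) * (h * th (zz y)))
      (b := (1 - ε) * (h * thd 2 (zz y))) S h1 (by omega) (mul_pos e0 (by positivity)) (by omega)
      (by omega) ω (fun e _ _ => ?_) fun e _ _ => ?_)
    · have b1 : 1 / L' ≤ th (zz y) := by
        rw [div_le_iff₀' (by linarith)]
        exact (th_lo y8).trans (by gcongr)
      calc _ = (1 - ε) / (1 + ε) * κ' * (1 / L') := by ring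
        _ ≤ (1 - ε) / (1 + ε) * κ' * th (zz y) := by gcongr
        _ = (1 - ε) * (h * (κ' * th (zz y) ^ 2)) / ((1 + ε) * (h * th (zz y))) := by field_simp
        _ ≤ _ := by gcongr
    · have := (abs_le.1 (g3 e (by omega) 0 (by simp))).2
      rw [thd_zero, cntd_zero] at this
      linarith
    · have := (abs_le.1 (g3 e (by omega) 2 (by simp))).1
      rw [cntd_two] at this
      linarith
  · intro n hn σ hσ a y ω hω
    obtain ⟨a1, a2⟩ := tg σ hσ n.2 (mem_range.1 (mem_product.1 hn).2) y ω hω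
    obtain ⟨g1, g2, g3, -⟩ := hω.2.2
    obtain ⟨S, s1, s2, -⟩ := hS y g1 g2
    have s3 := S.ay
    have s4 := S.pa (a := 8) (b := 39) (by norm_num)
    have s5 := S.lev
    have s6 := S.pa (a := 6) (b := 10) (by norm_num)
    have y8 : 8 ≤ y := by have := S.one 39; omega
    have t1 := th_pos (zz y)
    have t2 := thd_pos (dvd_refl 2) (zz y)
    rw [← a, a1]
    refine (core_one S h1 (by omega) (mul_pos e0 (by positivity)) (by positivity) ?_ (by omega)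
      (by omega) (by omega) qΛ ω (fun e _ _ => Good.lo g3 (by omega))
      fun e _ _ => Good.hi g3 (by omega)).trans (le_trans (add_le_add ?_ le_rfl) hμ)
    · have b1 : thd 2 (zz y) ≤ 1 := by simpa [thd] using thd_anti (dvd_refl 2) (Nat.zero_le (zz y))
      have b2 : (h : ℝ) ≤ T := by exact_mod_cast h2.trans RT
      calc _ ≤ 2 * (T * (1 : ℝ)) := by gcongr; linarith
        _ = _ := by ring
    · have b1 := th_up y8 (by omega)
      have b2 : 1 / (zz y : ℝ) ≤ 1 / T :=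
        one_div_le_one_div_of_le t0 (by exact_mod_cast (by omega : T ≤ zz y))
      have b3 : th (zz y) ≤ (1 + 1 / T) / L := by
        rw [le_div_iff₀ (by linarith)]
        nlinarith
      calc _ ≤ (1 + ε) * (h * (κ * th (zz y) ^ 2)) / ((1 - ε) * (h * th (zz y))) := by gcongr
        _ = (1 + ε) / (1 - ε) * κ * th (zz y) := by field_simp
        _ ≤ (1 + ε) / (1 - ε) * κ * ((1 + 1 / T) / L) := by gcongr
        _ = _ := by ring
  · intro n hn n' hn' a σ hσ b b' y ω hω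
    have c1 := mem_range.1 (mem_product.1 hn).2
    have c2 := mem_range.1 (mem_product.1 hn').2
    rw [← b, ← b']
    rcases lt_trichotomy n.2 n'.2 with c | c | c
    · exact pair σ hσ _ _ c c2 y ω hω
    · exact absurd (Prod.ext (b.symm.trans b') c) a
    · simp only [and_comm (a := SL _ _ (_ * (_ + n.2 * _)) _)]
      exact pair σ hσ _ _ c c1 y ω hω

end Pool.Agent.Lib.MP_be93de_nt
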