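import Mathlib
import Pool.Agent.Lib.MP_be93de_nt.RtStep
import Pool.Agent.Lib.MP_be93de_nt.RlNum

/-! Stopping positions for a general base, and counting over blocks. -/

namespace Pool.Agent.Lib.MP_be93de_nt

open Finset Nat Filter MeasureTheory
open Pool.Agent.Lib.MP_b09185_nt

lemma reach2 {R T B K d h r k g X : ℕ} {ε : ℝ} (hε : ε < 1) (hT : 100 ≤ T) (hB : T ^ 500 ≤ B)
    (h1 : 1 ≤ h) (h2 : h ≤ T) (hK : K ^ d ≤ T) (k1 : 1 ≤ k) (k2 : k ≤ K) (hg : g < B * T ^ 7)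
    (hX : (B * T ^ 16) ^ 2 ≤ X) (hX' : X ≤ 5 * (B * T ^ 16) ^ 2)
    {Y : ℕ} (hY : Y = 2 * (8 + 6 * (K + 1) ^ d * (B * T ^ 16) ^ 2 * h)) (ω : Om)
    (hG : ∀ y, T ^ 999 ≤ y → y ≤ Y → Good ε h Y y ω)
    (hP : ∀ y, (B * T ^ 16) ^ 2 ≤ 2 * y → 2 * y ≤ Y → PG R (B * T ^ 16) h r Y y ω) :
    ∃ y < Y, ω ∈ St (Gd ε R (B * T ^ 16) h r Y) (k ^ d * (X +
      g * (B * T ^ 16 * T ^ 8)) - 2 * (B * T ^ 16 * T ^ 6)) y ∧ ∀ i < B,
      Nat.nth (· ∈ model ω) (k ^ d * (X + g * (B * T ^ 16 * T ^ 8) + i * T ^ 2) - 1) + 2 ∈ model ω →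
      SL y (B * T ^ 16 * T ^ 8) (k ^ d * (X + g * (B * T ^ 16 * T ^ 8) + i * T ^ 2)) ω := by
  classical
  set A := B * T ^ 16 with hA
  have T1 : 1 ≤ T := by omega
  have pw : ∀ a b : ℕ, a < b → 100 * T ^ a ≤ T ^ b := fun a b hab =>
    calc 100 * T ^ a ≤ T * T ^ a := Nat.mul_le_mul_right _ (by omega)
      _ = T ^ (a + 1) := by ring
      _ ≤ T ^ b := Nat.pow_le_pow_right T1 hab
  have pa : ∀ C a b : ℕ, a < b → 100 * (C * T ^ a) ≤ C * T ^ b := fun C a b hab => by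
    rw [mul_left_comm]; exact Nat.mul_le_mul_left _ (pw a b hab)
  have BA : B ≤ A := Nat.le_mul_of_pos_right _ (by positivity)
  have q1 := pa A 7 8 (by norm_num)
  have q2 := pa A 6 7 (by norm_num)
  have q3 := pa B 3 16 (by norm_num)
  have q4 : A ≤ A * T ^ 6 := Nat.le_mul_of_pos_right _ (by positivity)
  have q5 : 100 * (A * T ^ 8) ≤ A ^ 2 := by
    rw [mul_left_comm, pow_two]
    exact Nat.mul_le_mul_left _ ((pw 8 500 (by norm_num)).trans (by omega))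
  have q6 : 100 * T ^ 999 ≤ A ^ 2 := (pw 999 1000 (by norm_num)).trans
    (by rw [show 1000 = 500 * 2 by norm_num, pow_mul]; exact Nat.pow_le_pow_left (by omega) 2)
  have q7 : T ^ 506 ≤ A * T ^ 6 := by
    rw [show 506 = 500 + 6 by norm_num, pow_add]; exact Nat.mul_le_mul_right _ (by omega)
  have q8 : 1 ≤ T ^ 999 := Nat.one_le_pow _ _ T1
  have k3 : k ^ d ≤ K ^ d := Nat.pow_le_pow_left k2 d
  have k4 : K ^ d ≤ (K + 1) ^ d := Nat.pow_le_pow_left (by omega) d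
  have b1 : g * (A * T ^ 8) ≤ A ^ 2 := by
    calc _ ≤ B * T ^ 7 * (A * T ^ 8) * T :=
          (Nat.mul_le_mul_right _ hg.le).trans (Nat.le_mul_of_pos_right _ T1)
      _ = _ := by rw [hA]; ring
  have b2 : A ^ 2 ≤ k ^ d * (X + g * (A * T ^ 8)) :=
    (hX.trans (Nat.le_add_right _ _)).trans (Nat.le_mul_of_pos_left _ (by positivity))
  have b3 : k ^ d * (X + g * (A * T ^ 8)) ≤ 6 * (K + 1) ^ d * A ^ 2 := by
    calc _ ≤ (K + 1) ^ d * (5 * A ^ 2 + A ^ 2) := by gcongr; omega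
      _ = _ := by ring
  subst hY
  set Y := 2 * (8 + 6 * (K + 1) ^ d * A ^ 2 * h) with hY
  obtain ⟨y, -, c2, c3, c4, c5⟩ := exists_stop hε (T := T) h1 (M := 6 * (K + 1) ^ d * A ^ 2)
    (m := k ^ d * (X + g * (A * T ^ 8)) - 2 * (A * T ^ 6) + 2 * T ^ 506) (by omega) (by omega)
    ω hG
  have c6 : rk ω y ≤ y := cIoc_le _ 0 y
  have y8 := c3.1
  refine ⟨y, by omega, ⟨c3, by omega, by omega, c2, c5, hP y (by omega) c2⟩, fun i hi H => ?_⟩
  have b4 : k ^ d * (i * T ^ 2) ≤ B * T ^ 3 :=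
    (Nat.mul_le_mul (k3.trans hK) (Nat.mul_le_mul_right _ hi.le)).trans (le_of_eq (by ring))
  set D := 2 * (A * T ^ 6) + k ^ d * (i * T ^ 2) with hD
  have d1 : D * h ≤ 3 * (A * T ^ 7) :=
    (Nat.mul_le_mul (by omega : D ≤ 3 * (A * T ^ 6)) h2).trans (le_of_eq (by ring))
  have d2 : D ≤ #{n ∈ Ioc y (y + D * h) | n ∈ model ω} := by
    apply many
    intro e e1 e2
    have e3 := Good.lo (hG Y (by omega) le_rfl) (e := e) (by omega)
    have t := th_pos (zz Y)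
    have h0 : (0 : ℝ) < h := by exact_mod_cast h1
    have e4 : (0 : ℝ) < #{n ∈ Ioc e (e + h) | Sv ω (zz Y) n} :=
      lt_of_lt_of_le (mul_pos (by linarith) (by positivity)) e3
    refine lt_of_lt_of_le (by exact_mod_cast e4) (card_le_card fun n hn => ?_)
    simp only [mem_filter, mem_Ioc] at hn ⊢
    exact ⟨hn.1, (mem_iff ω n).2 ⟨by omega, fun p hp =>
      hn.2 p (hp.trans (zz_mono (by omega) (by omega)))⟩⟩
  obtain ⟨t, e1, e2, e3⟩ := exists_rank (· ∈ model ω) y D (by omega) _ d2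
  have e4 := cIoc_le (· ∈ model ω) y t
  have e5 : rk ω t = rk ω y + D := by
    rw [← e3]; exact cIoc_add _ (Nat.zero_le y) (by omega)
  have e6 : rk ω t = k ^ d * (X + g * (A * T ^ 8) + i * T ^ 2) := by rw [mul_add]; omega
  rw [← e6, nth_rk e2] at H
  exact ⟨t, by omega, by omega, e2, e6, H⟩

/-- no twin element at the ranks `k ^ d * n` with `1 ≤ k ≤ K` -/
def Fl (d K : ℕ) (ω : Om) (n : ℕ) : Prop :=
  ∀ k, 1 ≤ k → k ≤ K → Nat.nth (· ∈ model ω) (k ^ d * n - 1) + 2 ∉ model ω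

lemma link {R T B K J d h r X : ℕ} {ε : ℝ} (hε : ε < 1) (hT : 100 ≤ T) (hB : T ^ 500 ≤ B)
    (h1 : 1 ≤ h) (h2 : h ≤ T) (hK : K ^ d ≤ T) (hJ : J ≤ K)
    (hX : (B * T ^ 16) ^ 2 ≤ X) (hX' : X ≤ 5 * (B * T ^ 16) ^ 2)
    {Y : ℕ} (hY : Y = 2 * (8 + 6 * (K + 1) ^ d * (B * T ^ 16) ^ 2 * h)) (ω : Om)
    (hG : ∀ y, T ^ 999 ≤ y → y ≤ Y → Good ε h Y y ω)
    (hP : ∀ y, (B * T ^ 16) ^ 2 ≤ 2 * y → 2 * y ≤ Y → PG R (B * T ^ 16) h r Y y ω) :
    (∀ σ < J * (B * T ^ 7), ∃ y < Y, ω ∈ Sg ε R T B d h r Y X σ y) ∧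
    ∀ n ∈ range (B * T ^ 7) ×ˢ range B, (∀ σ < J * (B * T ^ 7), σ % (B * T ^ 7) = n.1 → ∀ y < Y,
      ω ∈ Sg ε R T B d h r Y X σ y → ¬ SL y (B * T ^ 16 * T ^ 8) ((σ / (B * T ^ 7) + 1) ^ d *
        (X + n.1 * (B * T ^ 16 * T ^ 8) + n.2 * T ^ 2)) ω) ↔
      Fl d J ω (X + n.1 * (B * T ^ 16 * T ^ 8) + n.2 * T ^ 2) := by
  have dv : ∀ σ < J * (B * T ^ 7), σ / (B * T ^ 7) + 1 ≤ J := fun σ hσ =>
    Nat.div_lt_of_lt_mul (by rwa [mul_comm] at hσ)
  refine ⟨fun σ hσ => ?_, fun ⟨g, i⟩ hn => ⟨fun H k k1 k2 k3 => ?_, ?_⟩⟩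
  · obtain ⟨y, a1, a2, -⟩ := reach2 hε hT hB h1 h2 hK (Nat.le_add_left 1 _) ((dv σ hσ).trans hJ)
      (Nat.mod_lt σ (Nat.pos_of_ne_zero fun h => by simp [h] at hσ)) hX hX' hY ω hG hP
    exact ⟨y, a1, a2⟩
  · simp only [mem_product, mem_range] at hn
    obtain ⟨y, a1, a2, a3⟩ := reach2 hε hT hB h1 h2 hK k1 (k2.trans hJ) hn.1 hX hX' hY ω hG hP
    obtain ⟨k, rfl⟩ := Nat.exists_eq_add_of_le' k1
    have s1 : (g + B * T ^ 7 * k) % (B * T ^ 7) = g := by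
      rw [Nat.add_mul_mod_self_left, Nat.mod_eq_of_lt hn.1]
    have s2 : (g + B * T ^ 7 * k) / (B * T ^ 7) = k := by
      rw [Nat.add_mul_div_left _ _ (by omega), Nat.div_eq_of_lt hn.1, zero_add]
    refine H (g + B * T ^ 7 * k) (((Nat.add_lt_add_right hn.1 _).trans_eq (by ring)).trans_le
      (Nat.mul_le_mul_right _ k2)) s1 y a1 ?_ ?_
    · rw [Sg, s1, s2]; exact a2
    · rw [s2]; exact a3 i hn.2 k3
  · rintro H σ hσ - y - - ⟨t, -, -, a3, a4, a5⟩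
    refine H _ (Nat.le_add_left 1 _) (dv σ hσ) ?_
    rw [← a4, nth_rk a3]
    exact a5

lemma sum_rm (f : ℕ → ℝ) (a b : ℕ) :
    ∑ j ∈ range (a * b), f j = ∑ q ∈ range a, ∑ s ∈ range b, f (q * b + s) := by
  induction a with
  | zero => simp
  | succ a ih => rw [add_mul, one_mul, sum_range_add, ih, sum_range_succ]

lemma block_sum (f : ℕ → ℝ) (M U B V : ℕ) : ∑ j ∈ range (M * (U * (B * V))), f j =
    ∑ w ∈ range U ×ˢ range V, ∑ n ∈ range M ×ˢ range B,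
      f (w.1 * (B * V) + w.2 + n.1 * (U * (B * V)) + n.2 * V) := by
  simp only [sum_rm, sum_product]
  rw [sum_comm]
  refine sum_congr rfl fun u _ => ?_
  rw [sum_comm (s := range V)]
  refine sum_congr rfl fun g _ => ?_
  rw [sum_comm]
  exact sum_congr rfl fun v _ => sum_congr rfl fun i _ => by congr 1; ring

lemma cover {f : ℕ → ℝ} (f0 : ∀ n, 0 ≤ f n) {X W S N : ℕ} (hW : 0 < W) (h1 : X ≤ N)
    (h2 : 2 * N < X + S * W) (u : ℝ) (u0 : 0 ≤ u) :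
    ((∀ s < S, ∑ j ∈ range W, f (X + 1 + s * W + j) ≤ W * u) →
      ∑ n ∈ Ioc N (2 * N), f n ≤ (N + 2 * W) * u) ∧
    ((∀ s < S, W * u ≤ ∑ j ∈ range W, f (X + 1 + s * W + j)) →
      (N - 2 * W) * u ≤ ∑ n ∈ Ioc N (2 * N), f n) := by
  have key : ∀ a c : ℕ, ∑ n ∈ Ioc (X + a * W) (X + (a + c) * W), f n =
      ∑ q ∈ range c, ∑ j ∈ range W, f (X + 1 + (a + q) * W + j) := by
    intro a c
    rw [← Ico_add_one_add_one_eq_Ioc, sum_Ico_eq_sum_range,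
      show X + (a + c) * W + 1 - (X + a * W + 1) = c * W by rw [add_mul]; omega, sum_rm]
    exact sum_congr rfl fun q _ => sum_congr rfl fun j _ => by congr 1; ring
  set a := (N - X) / W with ha
  set b := (2 * N - X) / W with hb
  have a1 : a * W ≤ N - X := Nat.div_mul_le_self _ _
  have a2 : N - X < (a + 1) * W := by rw [ha, mul_comm]; exact Nat.lt_mul_div_succ _ hW
  have b1 : b * W ≤ 2 * N - X := Nat.div_mul_le_self _ _
  have b2 : 2 * N - X < (b + 1) * W := (Nat.lt_mul_div_succ _ hW).trans_eq (mul_comm _ _)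
  have ab : a ≤ b := Nat.div_le_div_right (by omega)
  have bS : b < S := lt_of_mul_lt_mul_right (show b * W < S * W by omega) (Nat.zero_le W)
  obtain ⟨c, hc⟩ := Nat.exists_eq_add_of_le ab
  rw [hc] at b1 b2 bS
  simp only [add_mul, one_mul] at a2 b1 b2
  constructor
  · intro H
    calc _ ≤ ∑ n ∈ Ioc (X + a * W) (X + (a + (c + 1)) * W), f n :=
          sum_le_sum_of_subset_of_nonneg (Ioc_subset_Ioc (by omega)
            (by simp only [add_mul, one_mul]; omega)) fun _ _ _ => f0 _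
      _ ≤ ∑ q ∈ range (c + 1), W * u := by
          rw [key]; exact sum_le_sum fun q hq => H _ (by have := mem_range.1 hq; omega)
      _ ≤ _ := by
          rw [sum_const, card_range, nsmul_eq_mul, ← mul_assoc]
          gcongr
          exact_mod_cast (by rw [add_mul]; omega : (c + 1) * W ≤ N + 2 * W)
  · intro H
    rcases c with _ | c
    · refine le_trans (mul_nonpos_of_nonpos_of_nonneg ?_ u0) (sum_nonneg fun _ _ => f0 _)
      rw [sub_nonpos]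
      exact_mod_cast (by omega : N ≤ 2 * W)
    rw [add_mul, one_mul] at b1 b2
    calc _ ≤ ∑ q ∈ range c, W * u := by
          rw [sum_const, card_range, nsmul_eq_mul, ← mul_assoc]
          gcongr
          rw [sub_le_iff_le_add]
          exact_mod_cast (by omega : N ≤ c * W + 2 * W)
      _ ≤ ∑ n ∈ Ioc (X + (a + 1) * W) (X + (a + 1 + c) * W), f n := by
          rw [key]; exact sum_le_sum fun q hq => H _ (by have := mem_range.1 hq; omega)
      _ ≤ _ := sum_le_sum_of_subset_of_nonneg (Ioc_subset_Ioc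
            (by simp only [add_mul, one_mul]; omega) (by simp only [add_mul, one_mul]; omega))
            fun _ _ _ => f0 _

end Pool.Agent.Lib.MP_be93de_nt
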