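import Mathlib
import Pool.Agent.Lib.MP_be93de_nt.RtIncl

/-! The exceptional event of one family, and numerical estimates. -/

namespace Pool.Agent.Lib.MP_be93de_nt

open Finset Nat Filter MeasureTheory
open Pool.Agent.Lib.MP_b09185_nt

theorem fam_bad {R B K J d h r Y X : ℕ} {ε κ κ' L L' μ μ' ν η u v : ℝ} (sm : Prop) (hd : 1 ≤ d)
    (hK : K ^ d ≤ R ^ 24) (hJ : J ≤ K) (hR : 100 ≤ R) (hB : (R ^ 24) ^ 500 ≤ B) (h1 : 1 ≤ h)
    (h2 : h ≤ R) (r1 : 1 ≤ r) (r2 : r ≤ R) (hε : 0 < ε) (hε1 : ε ≤ 1 / 2) (κ0 : 0 ≤ κ)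
    (κ1 : 0 ≤ κ') (L0 : 49 ≤ L) (hX : (B * (R ^ 24) ^ 16) ^ 2 ≤ X)
    (hX' : X ≤ 5 * (B * (R ^ 24) ^ 16) ^ 2)
    (hY : Y = 2 * (8 + 6 * (K + 1) ^ d * (B * (R ^ 24) ^ 16) ^ 2 * h))
    (hS : ∀ y, (B * (R ^ 24) ^ 16) ^ 2 ≤ 2 * y → 2 * y ≤ Y → Sc (R ^ 24) (B * (R ^ 24) ^ 16) y ∧
      thd 2 (zz y) ≤ κ * th (zz y) ^ 2 ∧ L ≤ Real.log y ∧ κ' * th (zz y) ^ 2 ≤ thd 2 (zz y) ∧
      Real.log y ≤ L')
    (hμ : (1 + ε) / (1 - ε) * κ * (1 + 1 / (R ^ 24 : ℕ)) / L + 1 / (R ^ 24 : ℕ) ≤ μ)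
    (hμ' : μ' ≤ (1 - ε) / (1 + ε) * κ' / L' - 1 / (R ^ 24 : ℕ)) (μ2 : μ' < 1)
    (μ1 : μ ≤ 1 / 2) (hν : 98 / (r * L) + 1 / (R ^ 24 : ℕ) ≤ ν) (hη : 0 < η) (η1 : η ≤ 1)
    (H1 : sm → (1 + η) * (1 - μ') ^ J ≤ u ∧ v ≤ (1 - η) * (1 - μ) ^ J ∧
      (1 + 4 * ν) ^ J / (B * (R ^ 24) ^ 7 : ℕ) + (1 - μ)⁻¹ ^ J / ((B * (R ^ 24) ^ 7 : ℕ) * B) ≤
        2 / (R ^ 24 : ℕ) ^ 30)
    (H2 : ¬ sm → (R ^ 24 : ℕ) ^ 30 * (1 - μ') ^ J ≤ u) :
    law {ω | ((∀ y, (R ^ 24) ^ 999 ≤ y → y ≤ Y → Good ε h Y y ω) ∧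
      ∀ y, (B * (R ^ 24) ^ 16) ^ 2 ≤ 2 * y → 2 * y ≤ Y → PG R (B * (R ^ 24) ^ 16) h r Y y ω) ∧
      ((B * (R ^ 24) ^ 7 * B : ℕ) * u < ∑ n ∈ range (B * (R ^ 24) ^ 7) ×ˢ range B, ind (Fl d J ω
        (X + n.1 * (B * (R ^ 24) ^ 16 * (R ^ 24) ^ 8) + n.2 * (R ^ 24) ^ 2)) ∨
      sm ∧ ∑ n ∈ range (B * (R ^ 24) ^ 7) ×ˢ range B, ind (Fl d J ω
        (X + n.1 * (B * (R ^ 24) ^ 16 * (R ^ 24) ^ 8) + n.2 * (R ^ 24) ^ 2)) <
        (B * (R ^ 24) ^ 7 * B : ℕ) * v)} ≤ ENNReal.ofReal (2 / (R ^ 24 : ℕ) ^ 30 / η ^ 2) := by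
  classical
  have RT : R ≤ R ^ 24 := le_self_pow₀ (by omega) (by norm_num)
  have T1 : 1 ≤ R ^ 24 := by omega
  have t0 : (0 : ℝ) < (R ^ 24 : ℕ) := by exact_mod_cast T1
  obtain ⟨m1, m2⟩ := fam_two (l := (R ^ 24 : ℕ) ^ 30) hd ((Nat.pow_le_pow_left hJ d).trans hK) hR
    ((Nat.pow_le_pow_right T1 (by norm_num)).trans hB) h1 h2 r1 r2 hε hε1 κ0 κ1 L0 hX hS hμ hμ' μ2
    μ1 hν (by positivity) hη _ fun _ => rfl
  have lk := link (R := R) (r := r) (show ε < 1 by linarith) (hR.trans RT) hB h1 (h2.trans RT) hK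
    hJ hX hX' hY
  generalize R ^ 24 = T at *
  have s0 : (0 : ℝ) ≤ (B * T ^ 7 * B : ℕ) := Nat.cast_nonneg _
  have key : ∀ ω (a1 : ∀ y, T ^ 999 ≤ y → y ≤ Y → Good ε h Y y ω)
      (a2 : ∀ y, (B * T ^ 16) ^ 2 ≤ 2 * y → 2 * y ≤ Y → PG R (B * T ^ 16) h r Y y ω),
      ∑ n ∈ range (B * T ^ 7) ×ˢ range B, ind (Fl d J ω (X + n.1 * (B * T ^ 16 * T ^ 8) +
        n.2 * T ^ 2)) = #{n ∈ range (B * T ^ 7) ×ˢ range B | ∀ σ < J * (B * T ^ 7),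
        σ % (B * T ^ 7) = n.1 → ∀ y < Y, ω ∈ Sg ε R T B d h r Y X σ y → ¬ SL y (B * T ^ 16 * T ^ 8)
        ((σ / (B * T ^ 7) + 1) ^ d * (X + n.1 * (B * T ^ 16 * T ^ 8) + n.2 * T ^ 2)) ω} := by
    intro ω a1 a2
    simp only [ind]
    rw [sum_boole, filter_congr (lk ω a1 a2).2]
  by_cases hs : sm
  · obtain ⟨b1, b2, b3⟩ := H1 hs
    refine le_trans (measure_mono ?_) (m2.trans (ENNReal.ofReal_le_ofReal (by gcongr)))
    rintro ω ⟨⟨a1, a2⟩, a3⟩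
    rw [key ω a1 a2] at a3
    refine a3.imp (fun a => ⟨(lk ω a1 a2).1, le_trans ?_ a.le⟩) fun a => a.2.le.trans ?_
    · rw [mul_right_comm, mul_comm]; gcongr
    · exact (mul_le_mul_of_nonneg_left b2 s0).trans_eq (by ring)
  · refine le_trans (measure_mono ?_) (m1.trans (ENNReal.ofReal_le_ofReal ?_))
    · rintro ω ⟨⟨a1, a2⟩, a3⟩
      rw [key ω a1 a2] at a3
      refine ⟨(lk ω a1 a2).1, le_trans ?_ (a3.resolve_right fun a => hs a.1).le⟩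
      rw [mul_right_comm, mul_comm]
      exact mul_le_mul_of_nonneg_left (H2 hs) s0
    · rw [le_div_iff₀ (by positivity)]
      have : η ^ 2 ≤ 1 := pow_le_one₀ hη.le η1
      calc _ ≤ 1 / (T : ℝ) ^ 30 * 2 := by gcongr; linarith
        _ = _ := by ring

lemma num3' {L Y Q : ℝ} {R : ℕ} (hL : 1 ≤ L) (hQ : 0 < Q) (h1 : Q ≤ Real.exp L) (h2 : 0 ≤ Y)
    (h3 : Y ≤ Real.exp (2 * L)) (h4 : 16 * L ≤ R) : Y ^ 3 * (2 / 2 ^ R) ≤ 1 / Q := by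
  have a1 : 2 ≤ Real.exp L := by linarith [Real.add_one_le_exp L]
  have a2 : Real.exp (1 / 2) ≤ 2 := by
    rw [← Real.le_log_iff_exp_le two_pos]; linarith [Real.log_two_gt_d9]
  rw [← mul_div_assoc, div_le_div_iff₀ (by positivity) hQ, one_mul]
  calc _ ≤ Real.exp (2 * L) ^ 3 * Real.exp L * Real.exp L := by gcongr
    _ ≤ Real.exp (1 / 2) ^ R := by
      rw [← Real.exp_nat_mul, ← Real.exp_nat_mul, ← Real.exp_add, ← Real.exp_add, Real.exp_le_exp]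
      push_cast; linarith
    _ ≤ _ := by gcongr

lemma inv_le_exp {μ : ℝ} (μ1 : μ ≤ 1 / 2) : (1 - μ)⁻¹ ≤ Real.exp (μ * (1 + 2 * μ)) := by
  refine le_trans ?_ (Real.add_one_le_exp _)
  rw [inv_le_iff_one_le_mul₀ (by linarith)]
  nlinarith [mul_nonneg (sq_nonneg μ) (show 0 ≤ 1 - 2 * μ by linarith)]

lemma num5 {T N J : ℕ} {a r L μ k : ℝ} (T8 : 8 ≤ T) (hN : 500 ≤ N)
    (hL : L = (2 * N + 32) * Real.log T) (r0 : 0 < r) (hr : 3152 * a ≤ r) (k0 : 0 ≤ k)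
    (J0 : (J : ℝ) ≤ a * L ^ 2) (μ1 : μ ≤ 1 / 2) (μ2 : μ * (1 + 2 * μ) ≤ k / L)
    (hθ : k * a ≤ 1 - 55 / (2 * N + 32)) :
    (1 + 4 * (197 / (r * L))) ^ J / (T ^ N * T ^ 7 : ℕ) +
      (1 - μ)⁻¹ ^ J / ((T ^ N * T ^ 7 : ℕ) * (T ^ N : ℕ)) ≤ 2 / (T : ℝ) ^ 30 := by
  have t0 : (0 : ℝ) < T := by exact_mod_cast (by omega : 0 < T)
  have lT : 1 ≤ Real.log T := one_le_log T8
  have N0 : (500 : ℝ) ≤ N := by exact_mod_cast hN
  have L0 : 0 < L := by rw [hL]; positivity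
  have eT : ∀ (c u : ℝ) (j : ℕ), 0 ≤ c → c ≤ Real.exp u → J * u ≤ (j - 30) * Real.log T →
      c ^ J / T ^ j ≤ 1 / T ^ 30 := by
    intro c u j c0 a2 hu
    rw [div_le_div_iff₀ (by positivity) (by positivity), one_mul]
    calc _ ≤ Real.exp u ^ J * Real.exp (Real.log T) ^ 30 := by rw [Real.exp_log t0]; gcongr
      _ ≤ Real.exp (Real.log T) ^ j := by
        rw [← Real.exp_nat_mul, ← Real.exp_nat_mul, ← Real.exp_nat_mul, ← Real.exp_add,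
          Real.exp_le_exp]
        push_cast
        linarith
      _ = _ := by rw [Real.exp_log t0]
  rw [← Nat.cast_mul, ← pow_add, ← pow_add, Nat.cast_pow, Nat.cast_pow]
  refine (_root_.add_le_add (eT _ (4 * (197 / (r * L))) _ (by positivity)
    (by linarith [Real.add_one_le_exp (4 * (197 / (r * L)))]) ?_) (eT _ (k / L) _
    (inv_nonneg.2 (by linarith)) ((inv_le_exp μ1).trans (Real.exp_le_exp.2 μ2)) ?_)).trans
    (le_of_eq (by ring))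
  · calc _ ≤ a * L ^ 2 * (4 * (197 / (r * L))) := by gcongr
      _ = 3152 * a / r * (L / 4) := by field_simp; ring
      _ ≤ 1 * (L / 4) := by gcongr; exact (div_le_one r0).2 hr
      _ ≤ _ := by rw [hL]; push_cast; nlinarith
  · calc _ ≤ a * L ^ 2 * (k / L) := by gcongr
      _ = k * a * L := by field_simp
      _ ≤ (1 - 55 / (2 * N + 32)) * L := by gcongr
      _ = _ := by rw [hL]; push_cast; field_simp; ring

lemma num6 {T N J : ℕ} {a L μ k k' η : ℝ} (T8 : 8 ≤ T) (hL : L = (2 * N + 32) * Real.log T)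
    (hη : 0 < η) (η1 : η ≤ 1 / 2) (J1 : (J : ℝ) ≤ η * T) (μ1 : μ ≤ 1 / 2)
    (μ2 : μ * (1 + 2 * μ) ≤ k / L) (k1 : k' ≤ L) (hM : 30 / (2 * N + 32) ≤ η * a) :
    ((1 + η) * (1 - (k' / L - 1 / T)) ^ J ≤ Real.exp (-((k' - η) * J / L) + 2 * η) ∧
      Real.exp (-(k * J / L) - 2 * η) ≤ (1 - η) * (1 - μ) ^ J) ∧
    (¬ (J : ℝ) ≤ a * L ^ 2 →
      (T : ℝ) ^ 30 * (1 - (k' / L - 1 / T)) ^ J ≤ Real.exp (-((k' - η) * J / L) + 2 * η)) := by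
  have t0 : (0 : ℝ) < T := by exact_mod_cast (by omega : 0 < T)
  have lT : 1 ≤ Real.log T := one_le_log T8
  have L0 : 0 < L := by rw [hL]; positivity
  have a0 : k' / L ≤ 1 := (div_le_one L0).2 k1
  have a1 : 0 < 1 / (T : ℝ) := by positivity
  have a2 : (1 - (k' / L - 1 / T)) ^ J ≤ Real.exp (-(k' * J / L) + η) :=
    calc _ ≤ Real.exp (-(k' / L - 1 / T)) ^ J := by
          gcongr
          · linarith
          · linarith [Real.add_one_le_exp (-(k' / L - 1 / T))]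
      _ ≤ _ := by
          rw [← Real.exp_nat_mul, Real.exp_le_exp]
          have : (J : ℝ) / T ≤ η := (div_le_iff₀ t0).2 J1
          calc _ = -(k' * J / L) + J / T := by ring
            _ ≤ _ := by linarith
  have a3 : 0 ≤ η * J / L := by positivity
  have a4 : ∀ c x : ℝ, c ≤ Real.exp x → x ≤ η * J / L + η →
      c * (1 - (k' / L - 1 / T)) ^ J ≤ Real.exp (-((k' - η) * J / L) + 2 * η) := by
    intro c x b1 b2
    calc _ ≤ Real.exp x * Real.exp (-(k' * J / L) + η) :=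
          mul_le_mul b1 a2 (pow_nonneg (by linarith) _) (Real.exp_pos _).le
      _ ≤ _ := by
          rw [← Real.exp_add, Real.exp_le_exp]
          calc _ ≤ η * J / L + η + (-(k' * J / L) + η) := by linarith
            _ = _ := by ring
  refine ⟨⟨a4 _ η (by linarith [Real.add_one_le_exp η]) (by linarith), ?_⟩,
    fun h => a4 _ (30 * Real.log T) ?_ ?_⟩
  · have b1 := (inv_le_exp η1).trans (Real.exp_le_exp.2 (show _ ≤ 2 * η by nlinarith))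
    have b2 := (inv_le_exp μ1).trans (Real.exp_le_exp.2 μ2)
    rw [inv_le_comm₀ (by linarith) (Real.exp_pos _), ← Real.exp_neg] at b1 b2
    calc _ = Real.exp (-(2 * η)) * Real.exp (-(k / L)) ^ J := by
          rw [← Real.exp_nat_mul, ← Real.exp_add]; congr 1; ring
      _ ≤ _ := by gcongr; linarith
  · rw [show (30 : ℝ) = (30 : ℕ) by norm_num, Real.exp_nat_mul, Real.exp_log t0]
  · calc 30 * Real.log T = 30 / (2 * N + 32) * L := by rw [hL]; field_simp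
      _ ≤ η * a * L := by gcongr
      _ = η * (a * L ^ 2) / L := by field_simp
      _ ≤ η * J / L := by gcongr; exact (not_le.1 h).le
      _ ≤ _ := by linarith

end Pool.Agent.Lib.MP_be93de_nt
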