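import Mathlib
import Pool.Agent.Lib.MP_be93de_nt.RtFam

/-! From the families to dyadic ranges. -/

namespace Pool.Agent.Lib.MP_be93de_nt

open Finset Nat Filter MeasureTheory
open Pool.Agent.Lib.MP_b09185_nt

lemma num7 {R K : ℕ} {η : ℝ} (hR : 100 ≤ R) (hK : K + 1 ≤ R) (hη : 0 < η) (h : 8 / η ^ 2 ≤ R) :
    ((K + 1) * (4 * R ^ 24 * ((R ^ 24) ^ 22 * (R ^ 24) ^ 2)) : ℕ) *
      (2 / ((R ^ 24 : ℕ) : ℝ) ^ 30 / η ^ 2) ≤ 1 / (R : ℝ) ^ 2 := by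
  have R1 : (1 : ℝ) ≤ R := by exact_mod_cast (by omega : 1 ≤ R)
  have K1 : (K + 1 : ℝ) ≤ R := by exact_mod_cast hK
  push_cast
  calc _ = (K + 1) * (8 / η ^ 2) / (R : ℝ) ^ 120 := by field_simp; norm_num
    _ ≤ R * R / (R : ℝ) ^ 4 := by gcongr; norm_num
    _ = _ := by field_simp

/-- base point of a family -/
def bs (T N s : ℕ) (w : ℕ × ℕ) : ℕ := (T ^ N * T ^ 16) ^ 2 + 1 +
  s * (T ^ N * T ^ 7 * (T ^ 22 * (T ^ N * T ^ 2))) + (w.1 * (T ^ N * T ^ 2) + w.2)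

lemma bs_le {T N s : ℕ} {w : ℕ × ℕ} (T1 : 1 ≤ T) (b1 : s < 4 * T) (b2 : w.1 < T ^ 22)
    (b3 : w.2 < T ^ 2) : bs T N s w ≤ 5 * (T ^ N * T ^ 16) ^ 2 := by
  set W := T ^ N * T ^ 7 * (T ^ 22 * (T ^ N * T ^ 2)) with hW
  have eW : T * W = (T ^ N * T ^ 16) ^ 2 := by rw [hW]; ring
  have b4 := Nat.mul_le_mul_right W b1
  have b5 := Nat.mul_le_mul_right (T ^ N * T ^ 2) b2
  have b6 : T ^ 2 ≤ T ^ N * T ^ 2 := Nat.le_mul_of_pos_left _ (by positivity)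
  have b7 : T ^ 22 * (T ^ N * T ^ 2) ≤ W := Nat.le_mul_of_pos_left _ (by positivity)
  rw [Nat.succ_mul, mul_assoc, eW] at b4
  rw [Nat.succ_mul] at b5
  rw [bs, ← hW]
  omega

lemma det_part {T N n : ℕ} {f : ℕ → ℝ} (f0 : ∀ n, 0 ≤ f n) {η u v : ℝ} (hη : 0 < η)
    (η1 : η ≤ 1 / 2) (hT : 2 ≤ η * T) (u0 : 0 ≤ u) (v0 : 0 ≤ v) (n1 : (T ^ N * T ^ 16) ^ 2 ≤ n)
    (n2 : n ≤ 2 * (T ^ N * T ^ 16) ^ 2) (sm : Prop)
    (hb : ∀ s < 4 * T, ∀ w ∈ range (T ^ 22) ×ˢ range (T ^ 2),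
      ∑ n ∈ range (T ^ N * T ^ 7) ×ˢ range (T ^ N), f (bs T N s w + n.1 * (T ^ N * T ^ 16 * T ^ 8) +
        n.2 * T ^ 2) ≤ (T ^ N * T ^ 7 * T ^ N : ℕ) * u ∧ (sm → (T ^ N * T ^ 7 * T ^ N : ℕ) * v ≤
      ∑ n ∈ range (T ^ N * T ^ 7) ×ˢ range (T ^ N), f (bs T N s w + n.1 * (T ^ N * T ^ 16 * T ^ 8) +
        n.2 * T ^ 2))) :
    ∑ m ∈ Ioc n (2 * n), f m ≤ n * Real.exp η * u ∧
      (sm → n * Real.exp (-(2 * η)) * v ≤ ∑ m ∈ Ioc n (2 * n), f m) := by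
  have T0 : 0 < T := Nat.pos_of_ne_zero fun h => by rw [h] at hT; norm_num at hT
  have eG : T ^ N * T ^ 16 * T ^ 8 = T ^ 22 * (T ^ N * T ^ 2) := by ring
  set W := T ^ N * T ^ 7 * (T ^ 22 * (T ^ N * T ^ 2)) with hW
  have eW : T * W = (T ^ N * T ^ 16) ^ 2 := by rw [hW]; ring
  have W0 : 0 < W := by positivity
  have bl : ∀ s, ∑ j ∈ range W, f ((T ^ N * T ^ 16) ^ 2 + 1 + s * W + j) =
      ∑ w ∈ range (T ^ 22) ×ˢ range (T ^ 2), ∑ n ∈ range (T ^ N * T ^ 7) ×ˢ range (T ^ N),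
        f (bs T N s w + n.1 * (T ^ N * T ^ 16 * T ^ 8) + n.2 * T ^ 2) := fun s => by
    rw [hW, block_sum, eG]
    simp only [bs, add_assoc]
  have cW : ∀ x : ℝ, ∑ _w ∈ range (T ^ 22) ×ˢ range (T ^ 2), (T ^ N * T ^ 7 * T ^ N : ℕ) * x =
      W * x := fun x => by
    rw [sum_const, card_product, card_range, card_range, nsmul_eq_mul, hW]; push_cast; ring
  have nW : 2 * (W : ℝ) ≤ η * n := by
    have b1 : (T : ℝ) * W ≤ n := by exact_mod_cast eW.trans_le n1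
    calc 2 * (W : ℝ) ≤ η * T * W := by gcongr
      _ ≤ _ := by rw [mul_assoc]; gcongr
  have n0 : (0 : ℝ) ≤ n := Nat.cast_nonneg n
  have X0 : 0 < (T ^ N * T ^ 16) ^ 2 := by positivity
  have n3 : 2 * n < (T ^ N * T ^ 16) ^ 2 + 4 * T * W := by rw [mul_assoc, eW]; omega
  refine ⟨((cover f0 W0 n1 n3 u u0).1 fun s hs => ?_).trans ?_,
    fun hJ' => le_trans ?_ ((cover f0 W0 n1 n3 v v0).2 fun s hs => ?_)⟩
  · rw [bl, ← cW]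
    exact sum_le_sum fun w hw => (hb s hs w hw).1
  · gcongr
    nlinarith [Real.add_one_le_exp η]
  · have b1 := (inv_le_exp η1).trans (Real.exp_le_exp.2 (show _ ≤ 2 * η by nlinarith))
    rw [inv_le_comm₀ (by linarith) (Real.exp_pos _), ← Real.exp_neg] at b1
    calc _ ≤ n * (1 - η) * v := by gcongr
      _ ≤ _ := by gcongr; linarith
  · rw [bl, ← cW]
    exact sum_le_sum fun w hw => (hb s hs w hw).2 hJ'

theorem fam_all {R N K d h r Y : ℕ} {ε κ κ' L k k' a₁ η : ℝ} (hd : 1 ≤ d)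
    (hK : (K + 1) ^ d ≤ R) (hR : 100 ≤ R) (hN : 500 ≤ N) (h1 : 1 ≤ h)
    (h2 : h ≤ R) (r1 : 1 ≤ r) (r2 : r ≤ R) (hε : 0 < ε) (hε1 : ε ≤ 1 / 2) (κ0 : 0 ≤ κ)
    (κ1 : 0 ≤ κ') (L0 : 50 ≤ L) (L2 : L ^ 2 ≤ R) (hL : L = (2 * N + 32) * Real.log (R ^ 24 : ℕ))
    (hY : Y = 2 * (8 + 6 * (K + 1) ^ d * ((R ^ 24) ^ N * (R ^ 24) ^ 16) ^ 2 * h))
    (hS : ∀ y, ((R ^ 24) ^ N * (R ^ 24) ^ 16) ^ 2 ≤ 2 * y → 2 * y ≤ Y →
      Sc (R ^ 24) ((R ^ 24) ^ N * (R ^ 24) ^ 16) y ∧ thd 2 (zz y) ≤ κ * th (zz y) ^ 2 ∧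
      L - 1 ≤ Real.log y ∧ κ' * th (zz y) ^ 2 ≤ thd 2 (zz y) ∧ Real.log y ≤ (1 + ε) * L)
    (hη : 0 < η) (η1 : η ≤ 1 / 2) (l5 : 8 / η ^ 2 ≤ R) (l4 : k' + 1 ≤ L) (hr : 3152 * a₁ ≤ r)
    (hk : (1 + ε) / (1 - ε) * κ < k) (hk' : k' ≤ (1 - ε) / (1 + ε) * κ' / (1 + ε))
    (hθ : k * a₁ ≤ 1 - 55 / (2 * N + 32)) (hM : 30 / (2 * N + 32) ≤ η * a₁)
    (μ1 : (1 + ε) / (1 - ε) * κ * (1 + 1 / L ^ 2) / (L - 1) + 1 / L ^ 2 ≤ 1 / 2)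
    (μ2 : 1 * (L + 1) ^ 2 * (((1 + ε) / (1 - ε) * κ * (1 + 1 / L ^ 2) / (L - 1) + 1 / L ^ 2) *
      (1 + 2 * ((1 + ε) / (1 - ε) * κ * (1 + 1 / L ^ 2) / (L - 1) + 1 / L ^ 2))) ≤ k * L) :
    law {ω | ((∀ y, (R ^ 24) ^ 999 ≤ y → y ≤ Y → Good ε h Y y ω) ∧
      ∀ y, ((R ^ 24) ^ N * (R ^ 24) ^ 16) ^ 2 ≤ 2 * y → 2 * y ≤ Y →
        PG R ((R ^ 24) ^ N * (R ^ 24) ^ 16) h r Y y ω) ∧
      ¬ ∀ J ≤ K, ∀ n, ((R ^ 24) ^ N * (R ^ 24) ^ 16) ^ 2 ≤ n →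
        n ≤ 2 * ((R ^ 24) ^ N * (R ^ 24) ^ 16) ^ 2 →
        ∑ m ∈ Ioc n (2 * n), ind (Fl d J ω m) ≤ n * Real.exp (-((k' - η) * J / L) + 3 * η) ∧
        ((J : ℝ) ≤ a₁ * L ^ 2 → n * Real.exp (-(k * J / L) - 4 * η) ≤
          ∑ m ∈ Ioc n (2 * n), ind (Fl d J ω m))} ≤ ENNReal.ofReal (1 / (R : ℝ) ^ 2) := by
  have R0 : (100 : ℝ) ≤ R := by exact_mod_cast hR
  have RT : R * R ≤ R ^ 24 := by
    rw [← pow_two]; exact Nat.pow_le_pow_right (by omega) (by norm_num)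
  have RR : R ≤ R * R := Nat.le_mul_self R
  have K5 : K + 1 ≤ R := le_trans (le_self_pow₀ (by omega) (by omega)) hK
  have K1 : K ^ d ≤ R ^ 24 := (Nat.pow_le_pow_left (by omega) d).trans (hK.trans (RR.trans RT))
  have e0 : 0 < 1 - ε := by linarith
  have k0 : 0 ≤ k := le_trans (by positivity) hk.le
  have r0 : (0 : ℝ) < r := by exact_mod_cast r1
  have T8 : 8 ≤ R ^ 24 := by omega
  have RT' : (R : ℝ) * R ≤ (R ^ 24 : ℕ) := by exact_mod_cast RT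
  have t0 : (0 : ℝ) < (R ^ 24 : ℕ) := by positivity
  have L1 : 0 < L := by linarith
  have ηR : 8 ≤ η * R := by
    rw [div_le_iff₀ (by positivity)] at l5
    nlinarith
  have ηT : R ≤ η * (R ^ 24 : ℕ) := by nlinarith
  have iT : 1 / ((R ^ 24 : ℕ) : ℝ) ≤ 1 / L ^ 2 :=
    one_div_le_one_div_of_le (by positivity) (by nlinarith)
  set μ := (1 + ε) / (1 - ε) * κ * (1 + 1 / L ^ 2) / (L - 1) + 1 / L ^ 2 with hμ
  have μ3 : μ * (1 + 2 * μ) ≤ k / L := by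
    have μ0 : 0 ≤ μ := by
      have : 0 < L - 1 := by linarith
      positivity
    rw [le_div_iff₀ L1]
    refine le_of_mul_le_mul_right (le_trans ?_ μ2) L1
    rw [one_mul, mul_assoc, ← pow_two, mul_comm]
    gcongr
    linarith
  have hν : 98 / (r * (L - 1)) + 1 / ((R ^ 24 : ℕ) : ℝ) ≤ 197 / (r * L) := by
    have a1 : r * L ≤ (R ^ 24 : ℕ) := by
      have b1 : (r : ℝ) ≤ R := by exact_mod_cast r2
      exact le_trans (by gcongr; nlinarith) RT'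
    have a2 := one_div_le_one_div_of_le (by positivity) a1
    have a3 : 98 / (r * (L - 1)) ≤ 98 / (r * (L / 2)) := by gcongr; linarith
    calc _ ≤ 98 / (r * (L / 2)) + 1 / (r * L) := _root_.add_le_add a3 a2
      _ = _ := by field_simp; norm_num
  set I := range (K + 1) ×ˢ range (4 * R ^ 24) ×ˢ range ((R ^ 24) ^ 22) ×ˢ range ((R ^ 24) ^ 2)
    with hI
  have n6 := fun J (hJ : J ≤ K) => num6 (J := J) T8 hL hη η1 (le_trans (by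
    exact_mod_cast (by omega : J ≤ R)) ηT) μ1 μ3 (show k' ≤ L by linarith) hM
  have c3 := fun (t : ℕ × ℕ × ℕ × ℕ) (ht : t ∈ I) =>
    have hJ := Nat.lt_succ_iff.1 (mem_range.1 (mem_product.1 ht).1)
    have h3 := mem_product.1 (mem_product.1 ht).2
    fam_bad (X := bs (R ^ 24) N t.2.1 t.2.2) (μ := μ) ((t.1 : ℝ) ≤ a₁ * L ^ 2) hd K1 hJ hR
    (Nat.pow_le_pow_right (by omega) hN) h1 h2 r1 r2 hε hε1 κ0 κ1 (by linarith)
    (by rw [bs, add_assoc, add_assoc]; exact Nat.le_add_right _ _)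
    (bs_le (by omega) (mem_range.1 h3.1) (mem_range.1 (mem_product.1 h3.2).1)
      (mem_range.1 (mem_product.1 h3.2).2)) hY hS
    (by rw [hμ]; gcongr; linarith) (μ' := k' / L - 1 / (R ^ 24 : ℕ))
    (by rw [← div_div]; gcongr)
    (by linarith [(div_lt_one L1).2 (show k' < L by linarith), one_div_pos.2 t0]) μ1 hν hη
    (by linarith) (fun b => ⟨(n6 _ hJ).1.1, (n6 _ hJ).1.2, num5 T8 hN hL r0 hr k0 b μ1 μ3 hθ⟩)
    (n6 _ hJ).2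
  have c4 := (measure_biUnion_finset_le I _).trans (sum_le_sum c3)
  rw [sum_const, nsmul_eq_mul, ← ENNReal.ofReal_natCast, ← ENNReal.ofReal_mul (Nat.cast_nonneg _),
    hI, card_product, card_product, card_product, card_range, card_range, card_range,
    card_range, ← hI] at c4
  refine le_trans (measure_mono ?_) (c4.trans (ENNReal.ofReal_le_ofReal (num7 hR K5 hη l5)))
  rintro ω ⟨hG, hω⟩
  by_contra hb
  simp only [Set.mem_iUnion, Set.mem_ofPred_eq, not_exists, not_and, not_or, not_lt] at hb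
  refine hω fun J hJ n n1 n2 => ?_
  have := det_part (fun m => ind_nonneg (Fl d J ω m)) hη η1 (by linarith)
    (Real.exp_pos (-((k' - η) * J / L) + 2 * η)).le (Real.exp_pos (-(k * J / L) - 2 * η)).le n1 n2
    ((J : ℝ) ≤ a₁ * L ^ 2) fun s hs w hw => hb (J, s, w) (mem_product.2
      ⟨mem_range.2 (Nat.lt_succ_iff.2 hJ), mem_product.2 ⟨mem_range.2 hs, hw⟩⟩) hG
  rw [mul_assoc, mul_assoc, ← Real.exp_add, ← Real.exp_add] at this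
  refine ⟨this.1.trans_eq ?_, fun a => le_trans (le_of_eq ?_) (this.2 a)⟩ <;> congr 2 <;> ring

end Pool.Agent.Lib.MP_be93de_nt
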