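import Mathlib
import Pool.Agent.Lib.MP_be93de_nt.RtAll

/-! The tail counts at one scale. -/

namespace Pool.Agent.Lib.MP_be93de_nt

open Finset Nat Filter MeasureTheory
open Pool.Agent.Lib.MP_b09185_nt

theorem level_bound {κ κ' k k' a a₁ ε η : ℝ} {d N : ℕ} (hd : 1 ≤ d) (κ0 : 0 ≤ κ) (κ1 : 0 ≤ κ')
    (ha : 0 ≤ a) (ha1 : 0 ≤ a₁)
    (hκ : ∀ᶠ z : ℕ in atTop, thd 2 z ≤ κ * th z ^ 2 ∧ κ' * th z ^ 2 ≤ thd 2 z) (hε : 0 < ε)
    (hε1 : ε ≤ 1 / 2) (hη : 0 < η) (η1 : η ≤ 1 / 2) (hN : 500 ≤ N) (hN' : 1 ≤ ε * N)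
    (hk : (1 + ε) / (1 - ε) * κ < k) (hk' : k' ≤ (1 - ε) / (1 + ε) * κ' / (1 + ε))
    (hθ : k * a₁ ≤ 1 - 55 / (2 * N + 32)) (hM : 30 / (2 * N + 32) ≤ η * a₁) :
    ∀ᶠ R : ℕ in atTop, law {ω | ¬ ∀ J : ℕ, (J : ℝ) ≤ a * ((2 * N + 32) * 24 * Real.log R) ^ 2 →
      ∀ n, R ^ (48 * (N + 16)) ≤ n → n ≤ 2 * R ^ (48 * (N + 16)) →
      ∑ m ∈ Ioc n (2 * n), ind (Fl d J ω m) ≤
        n * Real.exp (-((k' - η) * J / ((2 * N + 32) * 24 * Real.log R)) + 3 * η) ∧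
      ((J : ℝ) ≤ a₁ * ((2 * N + 32) * 24 * Real.log R) ^ 2 →
        n * Real.exp (-(k * J / ((2 * N + 32) * 24 * Real.log R)) - 4 * η) ≤
          ∑ m ∈ Ioc n (2 * n), ind (Fl d J ω m))} ≤ ENNReal.ofReal (6 / (R : ℝ) ^ 2) := by
  obtain ⟨B0, -, hB0⟩ := window hε (by linarith)
  obtain ⟨z0, hz0⟩ := eventually_atTop.1 (hκ.and th_inv_sharp)
  obtain ⟨r, hr⟩ := exists_nat_gt (3152 * a₁)
  have r0 : (0 : ℝ) < r := lt_of_le_of_lt (by positivity) hr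
  have r1 : 1 ≤ r := by exact_mod_cast r0
  have c0 : (0 : ℝ) < (2 * N + 32) * 24 := by positivity
  have tl : Tendsto (fun R : ℕ => (2 * N + 32) * 24 * Real.log R) atTop atTop :=
    (Real.tendsto_log_atTop.comp tendsto_natCast_atTop_atTop).const_mul_atTop c0
  filter_upwards [(tendsto_pow_atTop (α := ℕ) (n := 24) (by norm_num)).eventually ev_big,
    eventually_ge_atTop z0, eventually_ge_atTop r, eventually_ge_atTop 100,
    tl.eventually (ev_poly (12 * (a + 1) ^ d * (2 ^ 15) ^ (B0 + 1) + 16) (2 * d + 14 * (B0 + 1))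
      (inv_pos.2 c0)), tl.eventually (num1 ((one_mul _).trans_lt hk)), tl.eventually_ge_atTop 50,
    tl.eventually_ge_atTop (432 / ε ^ 2), tl.eventually_ge_atTop (816 * r * 4 ^ r + 2),
    tl.eventually_ge_atTop (k' + 1),
    (tendsto_natCast_atTop_atTop (R := ℝ)).eventually_ge_atTop (8 / η ^ 2)]
    with R hT z1 r2 hR hΦ ⟨μ1, μ2⟩ l1 l2 l3 l4 l5
  have R0 : (0 : ℝ) < R := by exact_mod_cast (by omega : 0 < R)
  rw [← mul_assoc, inv_mul_cancel₀ c0.ne', one_mul, Real.exp_log R0] at hΦ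
  have RT : R * R ≤ R ^ 24 := by
    rw [← pow_two]; exact Nat.pow_le_pow_right (by omega) (by norm_num)
  have RR : R ≤ R * R := Nat.le_mul_self R
  have hL : (2 * N + 32) * 24 * Real.log R = (2 * N + 32) * Real.log (R ^ 24 : ℕ) := by
    rw [Nat.cast_pow, Real.log_pow]; push_cast; ring
  have eR : (R : ℝ) ^ 2 ≤ Real.exp ((2 * N + 32) * 24 * Real.log R) := by
    rw [← Real.log_le_iff_le_exp (by positivity), Real.log_pow]
    push_cast
    nlinarith [Real.log_natCast_nonneg R, Nat.cast_nonneg (α := ℝ) N]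
  have lR : Real.log R ≤ ε * ((2 * N + 32) * 24 * Real.log R) := by
    rw [← mul_assoc]
    exact le_mul_of_one_le_left (Real.log_natCast_nonneg R) (by nlinarith)
  rw [show R ^ (48 * (N + 16)) = ((R ^ 24) ^ N * (R ^ 24) ^ 16) ^ 2 by ring]
  generalize (2 * N + 32) * 24 * Real.log R = L at *
  set K := ⌊a * L ^ 2⌋₊ with hK
  have K4 : (K : ℝ) ≤ a * L ^ 2 := Nat.floor_le (by positivity)
  set w := ⌈(2 * L) ^ 14⌉₊ with hw
  have w1 : (2 * L) ^ 14 ≤ w := Nat.le_ceil _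
  have w0 : 1 ≤ (2 * L) ^ 14 := one_le_pow₀ (by linarith)
  have w2 : (w : ℝ) ≤ 2 ^ 15 * L ^ 14 := by
    have := Nat.ceil_lt_add_one (show 0 ≤ (2 * L) ^ 14 by positivity)
    rw [← hw] at this
    rw [mul_pow] at this w0
    linarith
  have w3 : 1 ≤ w := by exact_mod_cast w0.trans w1
  set h := w ^ (B0 + 1) with hh
  have h1 : 1 ≤ h := Nat.one_le_pow _ _ w3
  have h3 : w ≤ h := le_self_pow₀ w3 (by omega)
  have Φ1 : 12 * ((K + 1) ^ d * h) + 16 ≤ R := by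
    have a1 : (K + 1 : ℝ) ≤ (a + 1) * L ^ 2 := by
      have : 1 ≤ L ^ 2 := one_le_pow₀ (by linarith)
      linarith
    have a2 : 1 ≤ L ^ (2 * d + 14 * (B0 + 1)) := one_le_pow₀ (by linarith)
    rw [← Nat.cast_le (α := ℝ), hh]
    push_cast
    refine le_trans ?_ hΦ
    calc _ ≤ 12 * (((a + 1) * L ^ 2) ^ d * (2 ^ 15 * L ^ 14) ^ (B0 + 1)) +
          16 * L ^ (2 * d + 14 * (B0 + 1)) := by gcongr; linarith
      _ = _ := by rw [mul_pow, mul_pow, ← pow_mul, ← pow_mul, pow_add]; ring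
  have K1 : K ^ d ≤ (K + 1) ^ d := Nat.pow_le_pow_left (by omega) d
  have K2 : (K + 1) ^ d ≤ (K + 1) ^ d * h := Nat.le_mul_of_pos_right _ h1
  have K3 : h ≤ (K + 1) ^ d * h := Nat.le_mul_of_pos_left _ (by positivity)
  have L2 : L ^ 2 ≤ R := by
    have a1 : (w : ℝ) ≤ R := by exact_mod_cast (by omega : w ≤ R)
    calc L ^ 2 ≤ (2 * L) ^ 2 := by gcongr; linarith
      _ ≤ (2 * L) ^ 14 := pow_le_pow_right₀ (by linarith) (by norm_num)
      _ ≤ _ := w1.trans a1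
  have L1 : 16 * L ≤ R := le_trans (by rw [pow_two]; gcongr; linarith) L2
  set T := R ^ 24 with hTd
  have T1 : 1 ≤ T := by omega
  have t0 : (0 : ℝ) < T := by exact_mod_cast T1
  have pT : ∀ i j : ℕ, i ≤ j → T ^ i ≤ T ^ j := fun i j => Nat.pow_le_pow_right T1
  have p1 := pT 1 N (by omega)
  rw [pow_one] at p1
  set A := T ^ N * T ^ 16 with hA
  have p2 : T ^ N ≤ A := Nat.le_mul_of_pos_right _ (by positivity)
  have p3 : A ≤ A * T ^ 10 := Nat.le_mul_of_pos_right _ (by positivity)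
  have p4 : A ≤ A ^ 2 := le_self_pow₀ (by omega) (by norm_num)
  have p5 : 4 * T ^ 999 ≤ A ^ 2 :=
    calc _ ≤ T * T ^ 999 := Nat.mul_le_mul_right _ (by omega)
      _ = T ^ (999 + 1) := (_root_.pow_succ' _ _).symm
      _ ≤ T ^ ((N + 16) * 2) := pT _ _ (by omega)
      _ = _ := by rw [pow_mul, pow_add]
  have zA : R ≤ A * T ^ 10 := by omega
  set Y := 2 * (8 + 6 * (K + 1) ^ d * A ^ 2 * h) with hY
  have Y1 : Y ≤ R * A ^ 2 :=
    calc Y = 12 * ((K + 1) ^ d * h) * A ^ 2 + 16 * 1 := by rw [hY]; ring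
      _ ≤ 12 * ((K + 1) ^ d * h) * A ^ 2 + 16 * A ^ 2 := by gcongr; omega
      _ ≤ _ := by rw [← add_mul]; exact Nat.mul_le_mul_right _ Φ1
  have Y0 : A ^ 2 ≤ 4 * Y :=
    calc _ ≤ 48 * ((K + 1) ^ d * h) * A ^ 2 := Nat.le_mul_of_pos_left _ (by omega)
      _ ≤ 48 * ((K + 1) ^ d * h) * A ^ 2 + 64 := Nat.le_add_right _ _
      _ = _ := by rw [hY]; ring
  have hS := fun y (a1 : A ^ 2 ≤ 4 * y) (a2 : y ≤ Y) => sc_of hR (by omega) hN hL (by linarith)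
    (hz0 _ (z1.trans zA)).2 a1 (a2.trans Y1)
  have lg : ∀ y, A ^ 2 ≤ 4 * y → y ≤ Y → Real.log y ≤ 2 * L := fun y a1 a2 =>
    (Real.log_le_iff_le_exp (by exact_mod_cast (by omega : 0 < y))).2
      (by linarith [(hS y a1 a2).2.2.1])
  have Y2 := (hS Y Y0 le_rfl).2.2.1
  have e2 : 864 ≤ ε ^ 2 * (2 * L) := by
    rw [div_le_iff₀ (by positivity)] at l2
    linarith
  have c1 := bad_bound hB0 hT (w := w) (by omega) (lg Y Y0 le_rfl) (by
    have a1 : ε ^ 2 * (2 * L) ≤ ε * (2 * L) ^ 8 := by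
      have : 2 * L ≤ (2 * L) ^ 8 := le_self_pow₀ (by linarith) (by norm_num)
      have : ε ^ 2 ≤ ε := by nlinarith
      gcongr
    calc 3 * (2 * L) ^ 6 ≤ ε * (2 * L) ^ 8 * (2 * L) ^ 6 := by gcongr; linarith
      _ = ε * (2 * L) ^ 14 := by ring
      _ ≤ _ := by gcongr)
  have c2 := pg_bound (A := A) (Y := Y) hR h1 (by omega) r1 hε hε1 fun y a1 a2 =>
    ⟨(hS y a1 a2).1, by linarith [lg y a1 a2], by linarith [(hS y a1 a2).2.1]⟩
  have eA : Real.log (A ^ 2 : ℕ) = L := by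
    rw [hA, ← pow_add, ← pow_mul, Nat.cast_pow, Real.log_pow, hL]; push_cast; ring
  have c3 := fam_all (Y := Y) hd (by omega : (K + 1) ^ d ≤ R) hR hN h1 (by omega) r1 r2 hε hε1 κ0
    κ1 l1 L2 hL hY (fun y (a1 : A ^ 2 ≤ 2 * y) a2 => by
      obtain ⟨b1, -, -, b2⟩ := hS y (by omega) (by omega)
      have b3 := (hz0 _ (z1.trans (zA.trans b1.lev))).1
      refine ⟨b1, b3.1, b2 a1, b3.2, ?_⟩
      have b4 := Real.log_le_log (by exact_mod_cast (by omega : 0 < y))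
        (show (y : ℝ) ≤ R * (A ^ 2 : ℕ) by exact_mod_cast (by omega : y ≤ R * A ^ 2))
      rw [Real.log_mul R0.ne' (by exact_mod_cast (by omega : A ^ 2 ≠ 0)), eA] at b4
      linarith) hη η1 l5 l4 hr.le hk hk' hθ hM μ1 μ2
  rw [← hTd, ← hA] at c3
  have Y3 : (0 : ℝ) ≤ Y + 1 := by positivity
  have e7 : (6 : ℝ) / R ^ 2 = 4 / R ^ 2 + (1 / R ^ 2 + 1 / R ^ 2) := by ring
  rw [e7, ENNReal.ofReal_add (by positivity) (by positivity),
    ENNReal.ofReal_add (by positivity) (by positivity)]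
  refine le_trans (measure_mono ?_) ((measure_union_le _ _).trans (add_le_add
    (c1.trans (ENNReal.ofReal_le_ofReal (num2 (by linarith) (by positivity) eR Y3 Y2 e2 w1)))
    ((measure_union_le _ _).trans (add_le_add
    (c2.trans (ENNReal.ofReal_le_ofReal (num3' (by linarith) (by positivity) eR Y3 Y2 L1))) c3))))
  intro ω hω
  by_cases hG : ∀ y, T ^ 999 ≤ y → y ≤ Y → Good ε h Y y ω
  swap
  · exact Or.inl hG
  by_cases hP : ∀ y, A ^ 2 ≤ 2 * y → 2 * y ≤ Y → PG R A h r Y y ω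
  swap
  · exact Or.inr (Or.inl ⟨fun y a1 a2 => hG y (by omega) a2, hP⟩)
  exact Or.inr (Or.inr ⟨⟨hG, hP⟩, fun H => hω fun J hJ => H J (Nat.le_floor hJ)⟩)

end Pool.Agent.Lib.MP_be93de_nt
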