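import Mathlib
import Pool.Agent.Lib.MP_be93de_nt.RtLev

/-! The tail law for the first twin element along the ranks `k ^ d * n` in the random sieve. -/

namespace Pool.Agent.Lib.MP_be93de_nt

open Finset Nat Filter MeasureTheory
open Pool.Agent.Lib.MP_b09185_nt

lemma succ_pow_le {R c : ℕ} (h : 2 * c ≤ R) (h0 : 0 < R) : (R + 1) ^ c ≤ 2 * R ^ c := by
  have R0 : (0 : ℝ) < R := by exact_mod_cast h0
  have a2 : Real.exp (1 / 2) ≤ 2 := by
    rw [← Real.le_log_iff_exp_le two_pos]; linarith [Real.log_two_gt_d9]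
  have a3 : (c : ℝ) * (1 / R) ≤ 1 / 2 := by
    rw [mul_one_div, div_le_div_iff₀ R0 two_pos]
    exact_mod_cast (by omega)
  rw [← Nat.cast_le (α := ℝ)]
  push_cast
  calc ((R : ℝ) + 1) ^ c = (1 / R + 1) ^ c * R ^ c := by rw [← mul_pow]; congr 1; field_simp; ring
    _ ≤ Real.exp (1 / R) ^ c * R ^ c := by gcongr; exact Real.add_one_le_exp _
    _ ≤ _ := by
      gcongr
      rw [← Real.exp_nat_mul]
      exact (Real.exp_le_exp.2 a3).trans a2

lemma fin_step {F : ℕ → ℕ → Prop} (hF : ∀ J J' m, J' ≤ J → F J m → F J' m) {N J : ℕ}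
    {κ ε L l t a : ℝ} (κ0 : 0 ≤ κ) (hε : 0 < ε) (ε1 : ε ≤ 1) (t0 : 0 ≤ t) (hJ : J = ⌊t⌋₊)
    (hl : l = Real.log N) (N0 : 0 < N) (l1 : L ≤ l) (l2 : l ≤ L + 1) (L1 : 4 ≤ L)
    (L2 : 2 * κ ≤ ε * L) (L3 : 16 * (κ + 1) ≤ ε * L) (ha : 2 / (κ - ε) ≤ a)
    (ha1 : 1 / (κ + 3 * ε / 4) ≤ a)
    (H : ∀ J : ℕ, (J : ℝ) ≤ a * L ^ 2 → ∑ m ∈ Ioc N (2 * N), ind (F J m) ≤
        N * Real.exp (-((κ - ε / 2 - ε / 8) * J / L) + 3 * (ε / 8)) ∧
      ((J : ℝ) ≤ 1 / (κ + 3 * ε / 4) * L ^ 2 → N * Real.exp (-((κ + ε / 2) * J / L) - 4 * (ε / 8)) ≤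
        ∑ m ∈ Ioc N (2 * N), ind (F J m))) :
    ∑ m ∈ Ioc N (2 * N), ind (F J m) ≤ N * Real.exp (-((κ - ε) * t / l) + ε) ∧
    ((κ + ε) * t ≤ l ^ 2 →
      N * Real.exp (-((κ + ε) * t / l) - ε) ≤ ∑ m ∈ Ioc N (2 * N), ind (F J m)) := by
  have n0 : (0 : ℝ) < N := by exact_mod_cast N0
  have J1 : (J : ℝ) ≤ t := hJ ▸ Nat.floor_le t0
  have J2 : t < J + 1 := hJ ▸ Nat.lt_floor_add_one t
  have J0 : (0 : ℝ) ≤ J := Nat.cast_nonneg J
  have L0 : 0 < L := by linarith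
  have l0 : 0 < l := by linarith
  have kL : κ / L ≤ ε / 2 := by rw [div_le_iff₀ L0]; linarith
  constructor
  · rcases le_or_gt κ ε with h | h
    · refine (sum_le_sum fun m _ => ind_le (F J m)).trans ?_
      rw [sum_const, Nat.card_Ioc, nsmul_eq_mul, show 2 * N - N = N by omega]
      gcongr
      refine Real.one_le_exp (add_nonneg (neg_nonneg.2 (div_nonpos_of_nonpos_of_nonneg
        (mul_nonpos_of_nonpos_of_nonneg (by linarith) t0) l0.le)) hε.le)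
    have h' : 0 < κ - ε := by linarith
    have key : ∀ (j : ℕ) (x : ℝ), x ≤ j + 1 →
        (κ - ε) * x / L ≤ (κ - ε / 2 - ε / 8) * j / L + ε / 2 := fun j x hx =>
      calc _ ≤ ((κ - ε / 2 - ε / 8) * j + κ) / L := by
            gcongr
            nlinarith [Nat.cast_nonneg (α := ℝ) j]
        _ ≤ _ := by rw [add_div]; linarith
    by_cases hj : (J : ℝ) ≤ a * L ^ 2
    · refine (H J hj).1.trans (mul_le_mul_of_nonneg_left (Real.exp_le_exp.2 ?_) n0.le)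
      have := key J t J2.le
      have : (κ - ε) * t / l ≤ (κ - ε) * t / L := by gcongr
      linarith
    · have a0 : 0 ≤ a * L ^ 2 := mul_nonneg (le_trans (by positivity) ha) (sq_nonneg _)
      have b1 := (H _ (Nat.floor_le a0)).1
      have b2 := key _ _ (Nat.lt_floor_add_one (a * L ^ 2)).le
      have b3 : 2 * L ≤ (κ - ε) * (a * L ^ 2) / L := by
        rw [div_le_iff₀ h'] at ha
        rw [le_div_iff₀ L0]
        nlinarith [sq_nonneg L]
      have b4 : ∑ m ∈ Ioc N (2 * N), ind (F ⌊a * L ^ 2⌋₊ m) < 1 := by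
        refine b1.trans_lt ?_
        rw [← Real.exp_log n0, ← Real.exp_add, Real.exp_lt_one_iff]
        linarith
      refine le_trans (le_of_eq (sum_eq_zero fun m hm => if_neg fun c => ?_)) (by positivity)
      have b5 := single_le_sum (fun m _ => ind_nonneg (F ⌊a * L ^ 2⌋₊ m)) hm
      rw [ind, if_pos (hF J _ m (Nat.floor_le_of_le (not_le.1 hj).le) c)] at b5
      linarith
  · intro h
    have p0 : 0 < κ + 3 * ε / 4 := by positivity
    have b1 : (J : ℝ) ≤ 1 / (κ + 3 * ε / 4) * L ^ 2 := by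
      rw [one_div_mul_eq_div, le_div_iff₀ p0]
      refine le_of_mul_le_mul_left ?_ (show 0 < κ + ε by positivity)
      calc _ = (κ + ε) * J * (κ + 3 * ε / 4) := by ring
        _ ≤ (L + 1) ^ 2 * (κ + 3 * ε / 4) := by
          gcongr
          exact le_trans (by gcongr) (h.trans (by gcongr))
        _ ≤ _ := by nlinarith [mul_le_mul_of_nonneg_right L3 L0.le, mul_nonneg κ0 L0.le]
    refine le_trans (mul_le_mul_of_nonneg_left (Real.exp_le_exp.2 ?_) n0.le)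
      ((H J (b1.trans (by gcongr))).2 b1)
    have : (κ + ε / 2) * J / L ≤ (κ + ε) * t / l := by
      rw [div_le_div_iff₀ L0 l0]
      calc _ ≤ (κ + ε / 2) * t * (L + 1) := by gcongr
        _ = t * ((κ + ε / 2) * (L + 1)) := by ring
        _ ≤ t * ((κ + ε) * L) := mul_le_mul_of_nonneg_left (by nlinarith) t0
        _ = _ := by ring
    linarith

theorem ae_tail {ε : ℝ} {d : ℕ} (hd : 1 ≤ d) (hε : 0 < ε) (ε1 : ε ≤ 1) :
    ∀ᵐ ω ∂law, ∀ᶠ N : ℕ in atTop, ∀ t : ℝ, 0 ≤ t → ∑ m ∈ Ioc N (2 * N), ind (Fl d ⌊t⌋₊ ω m) ≤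
      N * Real.exp (-((2 * (∏' p : {p : ℕ // p.Prime ∧ 2 < p}, (1 - 1 / ((p : ℝ) - 1) ^ 2)) - ε) *
        t / Real.log N) + ε) ∧
      ((2 * (∏' p : {p : ℕ // p.Prime ∧ 2 < p}, (1 - 1 / ((p : ℝ) - 1) ^ 2)) + ε) * t ≤
        Real.log N ^ 2 → N * Real.exp (-((2 * (∏' p : {p : ℕ // p.Prime ∧ 2 < p},
        (1 - 1 / ((p : ℝ) - 1) ^ 2)) + ε) * t / Real.log N) - ε) ≤
        ∑ m ∈ Ioc N (2 * N), ind (Fl d ⌊t⌋₊ ω m)) := by
  obtain ⟨h0, h1⟩ := twin_const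
  have hu := @twin_up
  replace h0 := mul_nonneg zero_le_two h0
  generalize 2 * ∏' p : {p : ℕ // p.Prime ∧ 2 < p}, (1 - 1 / ((p : ℝ) - 1) ^ 2) = κ at *
  obtain ⟨δ, e1, e2, e3, e4⟩ : ∃ δ : ℝ, 0 < δ ∧ δ < 1 / 2 ∧
      (1 + δ) / (1 - δ) * (κ + δ) < κ + ε / 2 ∧ κ - ε / 2 < (1 - δ) / (1 + δ) * κ / (1 + δ) := by
    have c1 : ContinuousAt (fun δ : ℝ => (1 + δ) / (1 - δ) * (κ + δ)) 0 := by
      fun_prop (disch := norm_num)
    have c2 : ContinuousAt (fun δ : ℝ => (1 - δ) / (1 + δ) * κ / (1 + δ)) 0 := by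
      fun_prop (disch := norm_num)
    obtain ⟨δ, b1, b2⟩ := ((((c1.eventually (gt_mem_nhds (a := κ + ε / 2) (by simpa))).and
      (c2.eventually (lt_mem_nhds (a := κ - ε / 2) (by simpa)))).and
      (gt_mem_nhds (one_half_pos (α := ℝ)))).filter_mono
      nhdsWithin_le_nhds).and (self_mem_nhdsWithin (s := Set.Ioi (0 : ℝ))) |>.exists
    exact ⟨δ, b2, b1.2, b1.1⟩
  have p0 : 0 < κ + 3 * ε / 4 := by positivity
  set a₁ := 1 / (κ + 3 * ε / 4) with ha₁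
  have g0 : 0 < ε / 8 * a₁ := by positivity
  have g1 : 1 - (κ + ε / 2) * a₁ = 2 * (ε / 8 * a₁) := by rw [ha₁]; field_simp; ring
  obtain ⟨N, hN⟩ := exists_nat_gt (500 + 1 / δ + 30 / (ε / 8 * a₁))
  have g2 : 0 < 1 / δ := by positivity
  have g3 : 0 < 30 / (ε / 8 * a₁) := by positivity
  have g4 : 30 / (2 * N + 32 : ℝ) ≤ ε / 8 * a₁ := by
    rw [div_le_comm₀ (by positivity) g0]; linarith
  obtain ⟨R0, hR0⟩ := eventually_atTop.1 (level_bound (a := max a₁ (2 / (κ - ε))) (a₁ := a₁)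
    (N := N) hd (by positivity) h0 (le_max_of_le_left (by positivity)) (by positivity)
    ((hu e1).and ((eventually_ge_atTop 2).mono h1)) e1 e2.le (show 0 < ε / 8 by positivity)
    (by linarith) (by exact_mod_cast (by linarith : (500 : ℝ) ≤ N))
    (by rw [← div_le_iff₀' e1]; linarith) e3 e4.le (by
      have : 55 / (2 * N + 32 : ℝ) ≤ 2 * (30 / (2 * N + 32)) := by
        rw [← mul_div_assoc]; gcongr; norm_num
      linarith) g4)
  generalize hE : (fun R : ℕ => {ω | ¬ ∀ J : ℕ, (J : ℝ) ≤ max a₁ (2 / (κ - ε)) *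
    ((2 * N + 32) * 24 * Real.log R) ^ 2 → ∀ n, R ^ (48 * (N + 16)) ≤ n →
    n ≤ 2 * R ^ (48 * (N + 16)) → ∑ m ∈ Ioc n (2 * n), ind (Fl d J ω m) ≤ n * Real.exp
      (-((κ - ε / 2 - ε / 8) * J / ((2 * N + 32) * 24 * Real.log R)) + 3 * (ε / 8)) ∧
    ((J : ℝ) ≤ a₁ * ((2 * N + 32) * 24 * Real.log R) ^ 2 → n * Real.exp
      (-((κ + ε / 2) * J / ((2 * N + 32) * 24 * Real.log R)) - 4 * (ε / 8)) ≤
      ∑ m ∈ Ioc n (2 * n), ind (Fl d J ω m))}) = E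
  have h2 : ∀ R, law {ω | R0 ≤ R ∧ ω ∈ E R} ≤ ENNReal.ofReal (6 * (1 / (R : ℝ) ^ 2)) := by
    intro R
    by_cases h : R0 ≤ R
    · rw [mul_one_div, ← hE]
      exact (measure_mono fun ω hω => hω.2).trans (hR0 R h)
    · simp [h]
  have h3 := ne_top_of_le_ne_top ((Real.summable_one_div_nat_pow.2 one_lt_two).mul_left
    6).tsum_ofReal_ne_top (ENNReal.tsum_le_tsum h2)
  have c0 : 48 * (N + 16) ≠ 0 := by omega
  have tT : Tendsto (Nat.nthRoot (48 * (N + 16))) atTop atTop := tendsto_atTop.2 fun b =>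
    (eventually_ge_atTop (b ^ (48 * (N + 16)))).mono fun n hn => (Nat.le_nthRoot_iff c0).2 hn
  have tl : Tendsto (fun R : ℕ => (2 * N + 32) * 24 * Real.log R) atTop atTop :=
    (Real.tendsto_log_atTop.comp tendsto_natCast_atTop_atTop).const_mul_atTop (by positivity)
  filter_upwards [ae_eventually_notMem h3] with ω hω
  filter_upwards [tT.eventually hω, tT.eventually_ge_atTop R0,
    tT.eventually_ge_atTop (2 * (48 * (N + 16))), tT.eventually (tl.eventually_ge_atTop 4),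
    tT.eventually ((tl.const_mul_atTop hε).eventually_ge_atTop (16 * (κ + 1)))]
    with n b1 b2 b3 b4 b5 t t0
  have T1 := (Nat.le_nthRoot_iff c0).1 (le_refl (Nat.nthRoot (48 * (N + 16)) n))
  have T2 := (Nat.lt_pow_nthRoot_add_one c0 n).le.trans (succ_pow_le b3 (by omega))
  generalize Nat.nthRoot (48 * (N + 16)) n = R at *
  have R1 : 0 < R ^ (48 * (N + 16)) := Nat.pow_pos (by omega)
  have eL : Real.log (R ^ (48 * (N + 16)) : ℕ) = (2 * N + 32) * 24 * Real.log R := by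
    rw [Nat.cast_pow, Real.log_pow]; push_cast; ring
  simp only [← hE, Set.mem_ofPred_eq, b2, true_and, not_not] at b1
  refine fin_step (F := fun J => Fl d J ω) (fun J J' m a b k k1 k2 => b k k1 (k2.trans a)) h0 hε ε1
    t0 rfl rfl (by omega) ?_ ?_ b4 (by linarith) b5 (le_max_right _ _) (le_max_left _ _)
    fun J hJ => b1 J hJ n T1 T2
  · rw [← eL]
    exact Real.log_le_log (by exact_mod_cast R1) (by exact_mod_cast T1)
  · have := Real.log_le_log (by exact_mod_cast (by omega : 0 < n))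
      (show (n : ℝ) ≤ 2 * (R ^ (48 * (N + 16)) : ℕ) by exact_mod_cast T2)
    rw [Real.log_mul two_ne_zero (by exact_mod_cast R1.ne'), eL] at this
    linarith [Real.log_two_lt_d9]

theorem tail_law : ∀ᵐ c ∂law, ∀ d : ℕ, 1 ≤ d → ∀ ε : ℝ, 0 < ε → ∀ᶠ N : ℕ in atTop,
    ∀ t : ℝ, 0 ≤ t →
    (({n ∈ Set.Ioc N (2 * N) | ∀ k : ℕ, 1 ≤ k → (k : ℝ) ≤ t →
        Nat.nth (· ∈ model c) (k ^ d * n - 1) + 2 ∉ model c}.ncard : ℝ) ≤
      N * Real.exp (-((2 * (∏' p : {p : ℕ // p.Prime ∧ 2 < p}, (1 - 1 / ((p : ℝ) - 1) ^ 2)) - ε) *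
        t / Real.log N) + ε)) ∧
    ((2 * (∏' p : {p : ℕ // p.Prime ∧ 2 < p}, (1 - 1 / ((p : ℝ) - 1) ^ 2)) + ε) * t ≤
        Real.log N ^ 2 →
      N * Real.exp (-((2 * (∏' p : {p : ℕ // p.Prime ∧ 2 < p}, (1 - 1 / ((p : ℝ) - 1) ^ 2)) + ε) *
        t / Real.log N) - ε) ≤
      ({n ∈ Set.Ioc N (2 * N) | ∀ k : ℕ, 1 ≤ k → (k : ℝ) ≤ t →
        Nat.nth (· ∈ model c) (k ^ d * n - 1) + 2 ∉ model c}.ncard : ℝ)) := by
  classical
  have h1 := ae_all_iff.2 fun d : ℕ => ae_all_iff.2 fun j : ℕ => ae_all_iff.2 fun hd : 1 ≤ d =>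
    ae_tail (ε := 1 / (j + 1)) hd (by positivity)
      (by rw [div_le_one (by positivity)]; linarith [Nat.cast_nonneg (α := ℝ) j])
  generalize 2 * ∏' p : {p : ℕ // p.Prime ∧ 2 < p}, (1 - 1 / ((p : ℝ) - 1) ^ 2) = κ at *
  filter_upwards [h1] with c hc d hd ε hε
  obtain ⟨j, hj⟩ := exists_nat_one_div_lt hε
  filter_upwards [hc d j hd] with N H t t0
  have e : ({n ∈ Set.Ioc N (2 * N) | ∀ k : ℕ, 1 ≤ k → (k : ℝ) ≤ t →
      Nat.nth (· ∈ model c) (k ^ d * n - 1) + 2 ∉ model c}.ncard : ℝ) =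
      ∑ m ∈ Ioc N (2 * N), ind (Fl d ⌊t⌋₊ c m) := by
    simp only [ind]
    rw [sum_boole, ← Set.ncard_coe_finset]
    congr 2
    ext n
    simp only [Fl, Nat.le_floor_iff t0, coe_filter, Set.mem_ofPred_eq, Set.mem_Ioc, mem_Ioc]
  have l0 := Real.log_natCast_nonneg N
  rw [e]
  refine ⟨(H t t0).1.trans (by gcongr), fun a => le_trans (by gcongr)
    ((H t t0).2 (le_trans (by gcongr) a))⟩

end Pool.Agent.Lib.MP_be93de_nt
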