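import Pool.Agent.Lib.MP_be93de_nt.Rough
import Pool.Agent.Lib.MP_be93de_nt.Sq

/-! Small multiples of typical integers in a sparse set: weights. -/

namespace Pool.Agent.Lib.MP_be93de_nt

open Filter Finset Real Nat
open Pool.Agent.Lib.MP_6a20cc_nt

noncomputable def gg (y p : ℕ) : ℝ := Real.log ((1 + Real.log y) / (1 + Real.log p))

noncomputable def ff (y n : ℕ) : ℝ := ∑ p ∈ primesLE y, if p ∣ n then gg y p else 0

noncomputable def LL (y n : ℕ) : ℝ := ∑ p ∈ primesLE y, (n.factorization p : ℝ) * Real.log p

noncomputable def mu (y : ℕ) : ℝ := ∑ p ∈ primesLE y, gg y p / p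

lemma one_add_log_pos (j : ℕ) : 0 < 1 + Real.log j := by
  have := Real.log_natCast_nonneg j; linarith

lemma gg_nonneg {y p : ℕ} (hp : p ∈ primesLE y) : 0 ≤ gg y p := by
  apply Real.log_nonneg
  rw [le_div_iff₀ (one_add_log_pos p)]
  have h1 : (0 : ℝ) < p := by exact_mod_cast (prime_of_mem_primesLE hp).pos
  have := Real.log_le_log h1 (show (p : ℝ) ≤ y by exact_mod_cast le_of_mem_primesLE hp)
  linarith

lemma gg_le (y p : ℕ) : gg y p ≤ Real.log (1 + Real.log y) := by
  apply Real.log_le_log (div_pos (one_add_log_pos y) (one_add_log_pos p))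
  exact div_le_self (one_add_log_pos y).le (by linarith [Real.log_natCast_nonneg p])

lemma mu_nonneg (y : ℕ) : 0 ≤ mu y :=
  sum_nonneg fun _ hp => div_nonneg (gg_nonneg hp) (Nat.cast_nonneg _)

lemma LL_nonneg (y n : ℕ) : 0 ≤ LL y n :=
  sum_nonneg fun p _ => mul_nonneg (Nat.cast_nonneg _) (Real.log_natCast_nonneg p)

lemma LL_mul (y : ℕ) {a b : ℕ} (ha : a ≠ 0) (hb : b ≠ 0) : LL y (a * b) = LL y a + LL y b := by
  simp only [LL, Nat.factorization_mul ha hb, Finsupp.add_apply, Nat.cast_add, add_mul,
    sum_add_distrib]

lemma LL_le_log (y k : ℕ) : LL y k ≤ Real.log k := by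
  rw [Real.log_nat_eq_sum_factorization, Finsupp.sum, LL]
  calc _ ≤ ∑ p ∈ primesLE y ∪ k.factorization.support, (k.factorization p : ℝ) * Real.log p :=
        sum_le_sum_of_subset_of_nonneg subset_union_left
          (fun p _ _ => mul_nonneg (Nat.cast_nonneg _) (Real.log_natCast_nonneg p))
    _ = _ := by
        symm
        apply sum_subset subset_union_right
        intro p _ hp
        rw [Finsupp.notMem_support_iff.1 hp]
        simp

lemma cover (y m : ℕ) (hm : m ≠ 0) :
    ∑ k ∈ (Icc 1 y).filter (fun k => k ∣ m), Real.exp (-ff y (m / k))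
      ≤ Real.exp (5 / 2 * LL y m / (1 + Real.log y)) := by
  set x : ℕ → ℝ := fun p => (1 + Real.log p) / (1 + Real.log y) with hx
  have hx0 : ∀ p, 0 < x p := fun p => div_pos (one_add_log_pos p) (one_add_log_pos y)
  set F : (p : primesLE y) → ℕ → ℝ := fun p j => if j < m.factorization p then x p else 1 with hF
  have hF0 : ∀ p j, 0 ≤ F p j := by
    intro p j
    simp only [hF]
    split_ifs
    · exact (hx0 _).le
    · exact zero_le_one
  set ψ : ℕ → (primesLE y → ℕ) := fun k p => k.factorization p with hψ
  have h1 : ∀ k ∈ (Icc 1 y).filter (fun k => k ∣ m),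
      Real.exp (-ff y (m / k)) = ∏ p : primesLE y, F p (ψ k p) := by
    intro k hk
    rw [mem_filter, mem_Icc] at hk
    rw [ff, ← sum_neg_distrib, Real.exp_sum, ← prod_coe_sort]
    apply prod_congr rfl
    intro p _
    have hp := prime_of_mem_primesLE p.2
    have hmk : m / k ≠ 0 := (Nat.div_pos (Nat.le_of_dvd (Nat.pos_of_ne_zero hm) hk.2) hk.1.1).ne'
    have h2 : (p : ℕ) ∣ m / k ↔ k.factorization p < m.factorization p := by
      rw [hp.dvd_iff_one_le_factorization hmk, Nat.factorization_div hk.2]
      simp only [Finsupp.coe_tsub, Pi.sub_apply]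
      omega
    simp only [hF, hψ, h2]
    split_ifs
    · rw [gg, Real.exp_neg, Real.exp_log (div_pos (one_add_log_pos y) (one_add_log_pos p)), inv_div]
    · simp
  have hinj : Set.InjOn ψ ((Icc 1 y).filter (fun k => k ∣ m) : Finset ℕ) := by
    intro a ha b hb hab
    simp only [coe_filter, mem_Icc, Set.mem_ofPred_eq] at ha hb
    apply Nat.eq_of_factorization_eq (by omega) (by omega)
    intro p
    by_cases hp : p ∈ primesLE y
    · exact congrFun hab ⟨p, hp⟩
    · by_cases hp2 : p.Prime
      · have h3 : y < p := by
          by_contra hc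
          exact hp (mem_primesLE.2 ⟨not_lt.1 hc, hp2⟩)
        rw [Nat.factorization_eq_zero_of_lt (by omega), Nat.factorization_eq_zero_of_lt (by omega)]
      · rw [Nat.factorization_eq_zero_of_not_prime _ hp2, Nat.factorization_eq_zero_of_not_prime _ hp2]
  rw [sum_congr rfl h1, ← sum_image (f := fun v => ∏ p : primesLE y, F p (v p)) hinj]
  calc _ ≤ ∑ v ∈ Fintype.piFinset (fun p : primesLE y => range (m.factorization p + 1)),
        ∏ p : primesLE y, F p (v p) := by
        apply sum_le_sum_of_subset_of_nonneg
        · intro v hv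
          obtain ⟨k, hk, rfl⟩ := mem_image.1 hv
          rw [mem_filter, mem_Icc] at hk
          rw [Fintype.mem_piFinset]
          intro p
          rw [mem_range, Nat.lt_succ_iff]
          exact (Nat.factorization_le_iff_dvd (by omega) hm).2 hk.2 p
        · intro v _ _
          exact prod_nonneg fun p _ => hF0 p _
    _ = ∏ p : primesLE y, ∑ j ∈ range (m.factorization p + 1), F p j := (prod_univ_sum _ _).symm
    _ ≤ ∏ p : primesLE y, Real.exp (5 / 2 * ((m.factorization p : ℝ) * Real.log p)
          / (1 + Real.log y)) := by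
        apply prod_le_prod (fun p _ => sum_nonneg fun j _ => hF0 p j)
        intro p _
        have h4 : ∑ j ∈ range (m.factorization p + 1), F p j = m.factorization p * x p + 1 := by
          rw [sum_range_succ, sum_congr rfl (g := fun _ => x p)
            (fun j hj => by simp only [hF]; rw [if_pos (mem_range.1 hj)])]
          simp [hF]
        rw [h4]
        refine le_trans ?_ (Real.add_one_le_exp _)
        have h5 := log_prime_ge (prime_of_mem_primesLE p.2)
        have h6 := one_add_log_pos y
        simp only [hx]
        rw [← mul_div_assoc, add_le_add_iff_right]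
        apply div_le_div_of_nonneg_right _ h6.le
        have : (0 : ℝ) ≤ m.factorization p := Nat.cast_nonneg _
        nlinarith
    _ = _ := by
        rw [← Real.exp_sum, LL, mul_sum, sum_div,
          ← sum_coe_sort (primesLE y)]

lemma sum_factorization (p X : ℕ) :
    ∑ n ∈ Icc 1 X, n.factorization p = (X !).factorization p := by
  induction X with
  | zero => simp
  | succ X ih =>
    rw [sum_Icc_succ_top (by omega), ih, Nat.factorial_succ,
      Nat.factorization_mul (by omega) (Nat.factorial_ne_zero X), Finsupp.add_apply, add_comm]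

lemma sum_LL (y X : ℕ) : ∑ n ∈ Icc 1 X, LL y n ≤ 4 * X * (1 + Real.log y) := by
  simp only [LL]
  rw [sum_comm]
  have h1 := mertens_upper y
  have b2 : Real.log 4 ≤ 2 := by
    rw [show (4 : ℝ) = 2 ^ 2 by norm_num, Real.log_pow]
    have := Real.log_two_lt_d9
    push_cast
    linarith
  have h2 := Real.log_natCast_nonneg y
  calc _ ≤ ∑ p ∈ primesLE y, 2 * X * (Real.log p / p) := by
        apply sum_le_sum
        intro p hp
        have hp' := prime_of_mem_primesLE hp
        have h3 : (2 : ℝ) ≤ p := by exact_mod_cast hp'.two_le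
        rw [← sum_mul, ← Nat.cast_sum, sum_factorization]
        have h4 : (((X !).factorization p : ℕ) : ℝ) ≤ ((X / (p - 1) : ℕ) : ℝ) := by
          exact_mod_cast Nat.factorization_factorial_le_div_pred hp' X
        have h5 : ((X / (p - 1) : ℕ) : ℝ) ≤ X / ((p - 1 : ℕ) : ℝ) := Nat.cast_div_le
        rw [Nat.cast_sub hp'.one_le, Nat.cast_one] at h5
        have h6 : (X : ℝ) / (p - 1) ≤ 2 * X / p := by
          rw [div_le_div_iff₀ (by linarith) (by linarith)]
          have : (0 : ℝ) ≤ X := Nat.cast_nonneg _
          nlinarith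
        have h7 := Real.log_natCast_nonneg p
        calc _ ≤ 2 * X / p * Real.log p := by gcongr; linarith
          _ = _ := by ring
    _ ≤ _ := by
        rw [← mul_sum]
        have : (0 : ℝ) ≤ X := Nat.cast_nonneg _
        nlinarith

lemma mu_le (y : ℕ) :
    mu y ≤ Real.log (1 + Real.log y) ^ 2 / 2 + 38 * Real.log (1 + Real.log y) := by
  set l := Real.log (1 + Real.log y) with hl
  have hl0 : 0 ≤ l := Real.log_nonneg (by linarith [Real.log_natCast_nonneg y])
  set a : ℕ → ℝ := fun j => max 0 (gg y j) with ha
  have ha0 : ∀ j, 0 ≤ a j := fun j => le_max_left _ _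
  have hgg : ∀ j, gg y j = l - Real.log (1 + Real.log j) := fun j => by
    rw [gg, Real.log_div (one_add_log_pos y).ne' (one_add_log_pos j).ne']
  have hmono : ∀ j : ℕ, Real.log (1 + Real.log j) ≤ Real.log (1 + Real.log ((j + 1 : ℕ) : ℝ)) :=
    fun j => Real.log_le_log (one_add_log_pos j) (by linarith [log_succ_ge j])
  have haa : ∀ j, a (j + 1) ≤ a j := fun j =>
    max_le_max le_rfl (by rw [hgg, hgg]; linarith [hmono j])
  have h1 := abel_upper (fun j => a j / (1 + Real.log j)) (fun j => -(a j ^ 2) / 2)
    (fun j => div_le_div₀ (ha0 j) (haa j) (one_add_log_pos j) (by linarith [log_succ_ge j]))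
    (fun j => div_nonneg (ha0 j) (one_add_log_pos j).le)
    (fun j => by
      have h2 := ha0 j
      have h3 := ha0 (j + 1)
      have h4 := haa j
      rcases le_total (gg y (j + 1)) 0 with h | h
      · have h5 : a (j + 1) = 0 := max_eq_left h
        simp only [h5, zero_div, mul_zero]
        nlinarith
      · have h5 : a (j + 1) = gg y (j + 1) := max_eq_right h
        have h6 : gg y j ≤ a j := le_max_right _ _
        have h7 := Real.one_sub_inv_le_log_of_pos
          (div_pos (one_add_log_pos (j + 1)) (one_add_log_pos j))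
        rw [Real.log_div (one_add_log_pos (j + 1)).ne' (one_add_log_pos j).ne', inv_div] at h7
        have h8 : (Real.log ((j + 1 : ℕ) : ℝ) - Real.log j) / (1 + Real.log ((j + 1 : ℕ) : ℝ))
            = 1 - (1 + Real.log j) / (1 + Real.log ((j + 1 : ℕ) : ℝ)) := by
          have := (one_add_log_pos (j + 1)).ne'
          field_simp
          ring
        have h9 : (Real.log ((j + 1 : ℕ) : ℝ) - Real.log j) / (1 + Real.log ((j + 1 : ℕ) : ℝ))
            ≤ a j - a (j + 1) := by
          rw [h8, h5, hgg (j + 1)]
          rw [hgg j] at h6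
          linarith
        calc _ = (Real.log ((j + 1 : ℕ) : ℝ) - Real.log j) / (1 + Real.log ((j + 1 : ℕ) : ℝ))
              * a (j + 1) := by ring
          _ ≤ (a j - a (j + 1)) * a (j + 1) := by gcongr
          _ ≤ _ := by nlinarith) y
  have ha1 : a 0 = l := by
    simp only [ha, hgg]
    simpa using hl0
  have h2 := sum2_upper 1 one_pos y
  simp only [one_mul, mul_one] at h2
  simp only [ha1, Nat.cast_zero, Real.log_zero, add_zero, div_one] at h1
  calc mu y ≤ ∑ p ∈ primesLE y, (Real.log p / p * (a p / (1 + Real.log p))
          + 5 / 2 * l * (Real.log p / p * (1 / (1 + Real.log p) ^ 2))) := by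
        apply sum_le_sum
        intro p hp
        have h3 := inv_le_split (log_prime_ge (prime_of_mem_primesLE hp))
        have h4 : (0 : ℝ) ≤ gg y p / p := div_nonneg (gg_nonneg hp) (Nat.cast_nonneg _)
        have h5 := mul_le_mul_of_nonneg_left h3 h4
        have h6 : a p = gg y p := max_eq_right (gg_nonneg hp)
        have h7 : 0 ≤ Real.log p / p * (1 / (1 + Real.log p) ^ 2) := by
          have := Real.log_natCast_nonneg p
          positivity
        have h8 := mul_le_mul_of_nonneg_right (gg_le y p) h7
        rw [h6]
        calc _ = gg y p / p * 1 := by ring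
          _ ≤ _ := h5
          _ = Real.log p / p * (gg y p / (1 + Real.log p))
              + 5 / 2 * (gg y p * (Real.log p / p * (1 / (1 + Real.log p) ^ 2))) := by ring
          _ ≤ _ := by linarith
    _ ≤ _ := by
        rw [sum_add_distrib, ← mul_sum]
        have := sq_nonneg (a y)
        nlinarith

lemma variance (y X : ℕ) (hy : y ≤ X) :
    ∑ n ∈ Icc 1 X, (ff y n - mu y) ^ 2 ≤ 3 * X * (Real.log (1 + Real.log y) * mu y) := by
  set l := Real.log (1 + Real.log y) with hl
  have hl0 : 0 ≤ l := Real.log_nonneg (by linarith [Real.log_natCast_nonneg y])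
  have hX : (0 : ℝ) ≤ X := Nat.cast_nonneg _
  have hμ := mu_nonneg y
  have h1 : X * mu y - X * l ≤ ∑ n ∈ Icc 1 X, ff y n := by
    simp only [ff]
    rw [sum_comm]
    calc X * mu y - X * l ≤ ∑ p ∈ primesLE y, (X * (gg y p / p) - l) := by
          rw [sum_sub_distrib, ← mul_sum, sum_const, nsmul_eq_mul, mu]
          have : (primesLE y).card ≤ X := by
            calc (primesLE y).card ≤ (Icc 1 y).card := card_le_card fun p hp =>
                  mem_Icc.2 ⟨(prime_of_mem_primesLE hp).one_le, le_of_mem_primesLE hp⟩
              _ ≤ X := by simpa using hy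
          have : ((primesLE y).card : ℝ) ≤ X := by exact_mod_cast this
          nlinarith
      _ ≤ _ := by
          apply sum_le_sum
          intro p hp
          rw [← sum_filter, sum_const, nsmul_eq_mul]
          have h2 := mul_le_mul_of_nonneg_right (card_dvd_ge X p) (gg_nonneg hp)
          have h3 := gg_le y p
          calc _ ≤ ((X : ℝ) / p - 1) * gg y p := by
                rw [sub_mul, one_mul, div_mul_eq_mul_div, mul_div_assoc]; linarith
            _ ≤ _ := h2
  have h2 : ∑ n ∈ Icc 1 X, ff y n ^ 2 ≤ X * mu y ^ 2 + X * (l * mu y) := by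
    have e1 : ∀ n, ff y n ^ 2 = ∑ p ∈ primesLE y, ∑ q ∈ primesLE y,
        if p ∣ n ∧ q ∣ n then gg y p * gg y q else 0 := by
      intro n
      rw [sq, ff, sum_mul_sum]
      refine sum_congr rfl fun p _ => sum_congr rfl fun q _ => ?_
      by_cases h1 : p ∣ n <;> by_cases h2 : q ∣ n <;> simp [h1, h2]
    simp only [e1]
    rw [sum_comm]
    calc _ ≤ ∑ p ∈ primesLE y, (X * (gg y p / p * mu y) + X * (l * (gg y p / p))) := by
          apply sum_le_sum
          intro p hp
          rw [sum_comm]
          calc _ ≤ ∑ q ∈ primesLE y, (X * (gg y p / p * (gg y q / q))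
                + if q = p then X * (l * (gg y p / p)) else 0) := by
                apply sum_le_sum
                intro q hq
                rw [← sum_filter, sum_const, nsmul_eq_mul]
                have g1 := gg_nonneg hp
                have g2 := gg_nonneg hq
                split_ifs with h
                · subst h
                  simp only [and_self]
                  have g3 := mul_le_mul_of_nonneg_right (card_dvd_le X q) (mul_nonneg g1 g1)
                  have g4 : (X : ℝ) / q * (gg y q * gg y q) ≤ X * (l * (gg y q / q)) := by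
                    calc (X : ℝ) / q * (gg y q * gg y q) = X * (gg y q * (gg y q / q)) := by ring
                      _ ≤ _ := by gcongr; exact gg_le y q
                  have g5 : 0 ≤ X * (gg y q / q * (gg y q / q)) := by positivity
                  linarith
                · have hco : p.Coprime q := (Nat.coprime_primes (prime_of_mem_primesLE hp)
                    (prime_of_mem_primesLE hq)).2 (Ne.symm h)
                  have g3 : (Icc 1 X).filter (fun n => p ∣ n ∧ q ∣ n)
                      = (Icc 1 X).filter (fun n => p * q ∣ n) := by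
                    apply filter_congr
                    intro n _
                    exact ⟨fun h => hco.mul_dvd_of_dvd_of_dvd h.1 h.2,
                      fun h => ⟨(dvd_mul_right _ _).trans h, (dvd_mul_left _ _).trans h⟩⟩
                  rw [g3, add_zero]
                  have g4 := mul_le_mul_of_nonneg_right (card_dvd_le X (p * q)) (mul_nonneg g1 g2)
                  refine g4.trans (le_of_eq ?_)
                  push_cast
                  ring
            _ = _ := by
                rw [sum_add_distrib, sum_ite_eq' _ p, if_pos hp, ← mul_sum, ← mul_sum, mu]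
      _ = _ := by
          rw [sum_add_distrib, ← mul_sum, ← mul_sum, ← mul_sum, ← sum_mul, ← mu, sq]
  have h3 : ∑ n ∈ Icc 1 X, (ff y n - mu y) ^ 2
      = ∑ n ∈ Icc 1 X, ff y n ^ 2 - 2 * mu y * ∑ n ∈ Icc 1 X, ff y n + X * mu y ^ 2 := by
    simp only [sub_sq]
    rw [sum_add_distrib, sum_sub_distrib, mul_sum, sum_const, nsmul_eq_mul]
    simp only [Nat.card_Icc, add_tsub_cancel_right]
    congr 2
    exact sum_congr rfl fun n _ => by ring
  rw [h3]
  nlinarith [mul_le_mul_of_nonneg_left h1 hμ]

end Pool.Agent.Lib.MP_be93de_nt
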